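import Mathlib

/-!
# Amalgams of subgroups along pairwise intersections; the flag stabilisers
-/

set_option autoImplicit false

namespace SU

universe u

/-- The relations of the amalgamated product: for `i ≠ j` and every element `g` of `G i ⊓ G j`, the copies `x` of `g` in
`G i` and `y` of `g` in `G j` are identified. -/
def amalgRel {ι Γ : Type*} [Group Γ] (G : ι → Subgroup Γ) : Set (Monoid.CoprodI fun i => ↥(G i)) :=
  {w | ∃ (i j : ι) (x : ↥(G i)) (y : ↥(G j)), i ≠ j ∧ (x : Γ) = (y : Γ) ∧
    w = Monoid.CoprodI.of (M := fun i => ↥(G i)) x * (Monoid.CoprodI.of (M := fun i => ↥(G i)) y)⁻¹}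

/-- The amalgamated product of the subgroups `G i` of `Γ` along their pairwise intersections: the free product of the
groups `G i` modulo the identification, for `i ≠ j`, of the copies of each element of `G i ⊓ G j` in `G i` and in `G j`. -/
abbrev Amalg {ι Γ : Type*} [Group Γ] (G : ι → Subgroup Γ) : Type _ :=
  (Monoid.CoprodI fun i => ↥(G i)) ⧸ Subgroup.normalClosure (amalgRel G)

/-- The natural homomorphism from the amalgamated product to the group `Γ`. -/
noncomputable def Amalg.toGroup {ι Γ : Type*} [Group Γ] (G : ι → Subgroup Γ) : Amalg G →* Γ :=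
  QuotientGroup.lift (Subgroup.normalClosure (amalgRel G)) (Monoid.CoprodI.lift fun i => (G i).subtype) (by
    have h : Subgroup.normalClosure (amalgRel G) ≤ (Monoid.CoprodI.lift fun i => (G i).subtype).ker := by
      refine Subgroup.normalClosure_le_normal ?_
      rintro w ⟨i, j, x, y, -, hxy, rfl⟩
      show Monoid.CoprodI.lift (fun i => (G i).subtype) _ = 1
      rw [map_mul, map_inv, Monoid.CoprodI.lift_of, Monoid.CoprodI.lift_of, Subgroup.coe_subtype,
        Subgroup.coe_subtype, hxy, mul_inv_cancel]
    exact h)

/-- The subspace `V_i = span(1, x_1, ..., x_i)` of the polynomial ring (for `i : Fin n`, i.e. with the indices shifted by one). -/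
noncomputable def flag (k : Type u) [Field k] (n : ℕ) (i : Fin n) : Submodule k (MvPolynomial (Fin n) k) :=
  Submodule.span k (insert (1 : MvPolynomial (Fin n) k)
    ((fun l : Fin n => (MvPolynomial.X l : MvPolynomial (Fin n) k)) '' Set.Iic i))

/-- The stabiliser of `V_i` in the automorphism group of the polynomial ring. -/
noncomputable def flagStab (k : Type u) [Field k] (n : ℕ) (i : Fin n) :
    Subgroup (MvPolynomial (Fin n) k ≃ₐ[k] MvPolynomial (Fin n) k) where
  carrier := {ψ | (flag k n i).map ψ.toLinearMap = flag k n i}
  mul_mem' := by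
    intro a b ha hb
    show (flag k n i).map (a * b).toLinearMap = flag k n i
    have h : (a * b).toLinearMap = a.toLinearMap ∘ₗ b.toLinearMap := rfl
    have ha' : (flag k n i).map a.toLinearMap = flag k n i := ha
    have hb' : (flag k n i).map b.toLinearMap = flag k n i := hb
    rw [h, Submodule.map_comp, hb', ha']
  one_mem' := by
    show (flag k n i).map (1 : MvPolynomial (Fin n) k ≃ₐ[k] MvPolynomial (Fin n) k).toLinearMap = flag k n i
    have h : (1 : MvPolynomial (Fin n) k ≃ₐ[k] MvPolynomial (Fin n) k).toLinearMap = LinearMap.id := rfl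
    rw [h, Submodule.map_id]
  inv_mem' := by
    intro a ha
    show (flag k n i).map (a⁻¹).toLinearMap = flag k n i
    have h : (a⁻¹).toLinearMap ∘ₗ a.toLinearMap = LinearMap.id := by
      apply LinearMap.ext
      intro x
      exact a.symm_apply_apply x
    have ha' : (flag k n i).map a.toLinearMap = flag k n i := ha
    calc (flag k n i).map (a⁻¹).toLinearMap
        = ((flag k n i).map a.toLinearMap).map (a⁻¹).toLinearMap := by rw [ha']
      _ = (flag k n i).map ((a⁻¹).toLinearMap ∘ₗ a.toLinearMap) := by rw [Submodule.map_comp]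
      _ = flag k n i := by rw [h, Submodule.map_id]

end SU
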