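import Pool.Agent.Lib.MP_374dcb_al.Defs
import Pool.Agent.Lib.MP_374dcb_al.AmDefs

/-!
# Definitions for part A
-/

set_option autoImplicit false

open MvPolynomial

namespace SU

universe u

/-- The automorphism group of `k[x_0,x_1,x_2]`. -/
abbrev Au (k : Type u) [Field k] := B k ≃ₐ[k] B k

/-- The subgroup generated by the stabilisers of `V_2` and `V_3` (the tame group). -/
noncomputable def TT (k : Type u) [Field k] : Subgroup (Au k) := flagStab k 3 1 ⊔ flagStab k 3 2

/-- The subgroup generated by `G_1 ∩ G_2` and `G_1 ∩ G_3`. -/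
noncomputable def HH (k : Type u) [Field k] : Subgroup (Au k) :=
  (flagStab k 3 0 ⊓ flagStab k 3 1) ⊔ (flagStab k 3 0 ⊓ flagStab k 3 2)

section freudenburg
variable (k : Type u) [Field k]

/-- `F = x z - y ^ 2` -/
noncomputable def pF : B k := X 0 * X 2 - X 1 ^ 2

/-- `r = x ^ 3 + y F` -/
noncomputable def pr : B k := X 0 ^ 3 + X 1 * pF k

/-- `G = z F ^ 2 + 2 x ^ 2 y F + x ^ 5` -/
noncomputable def pG : B k := X 2 * pF k ^ 2 + 2 * X 0 ^ 2 * X 1 * pF k + X 0 ^ 5

/-- The derivation of Freudenburg. -/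
noncomputable def FD : Derivation k (B k) (B k) :=
  mkDerivation k ![-(2 * pF k * pr k), 6 * X 0 ^ 2 * pr k - pG k, 2 * X 0 * (5 * X 1 * pr k + pF k ^ 2)]

end freudenburg

section words
variable {G : Type*} [Group G]

/-- Reduced words: the letters alternate between `A \ T` and `T \ A`; the flag tells where the first letter is. -/
def RW (A T : Subgroup G) : Bool → List G → Prop
  | _, [] => True
  | true, x :: l => x ∈ A ∧ x ∉ T ∧ RW A T false l
  | false, x :: l => x ∈ T ∧ x ∉ A ∧ RW A T true l

/-- The normal form properties of an amalgamated product. -/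
structure NFm (A T : Subgroup G) : Prop where
  ex : ∀ g : G, g ∈ A ⊓ T ∨ ∃ (b : Bool) (l : List G), l ≠ [] ∧ RW A T b l ∧ l.prod = g
  nin : ∀ (b : Bool) (l : List G), l ≠ [] → RW A T b l → l.prod ∉ A ⊓ T
  uniq : ∀ (b : Bool) (l : List G) (b' : Bool) (l' : List G), l ≠ [] → RW A T b l → RW A T b' l' →
    l.prod = l'.prod → b = b' ∧ l.length = l'.length

/-- The two factors as a family. -/
def fam (A T : Subgroup G) : Bool → Subgroup G
  | true => A
  | false => T

/-- The embeddings of the amalgamated subgroup. -/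
def phi {A T H : Subgroup G} (hA : H ≤ A) (hT : H ≤ T) : ∀ b : Bool, ↥H →* ↥(fam A T b)
  | true => Subgroup.inclusion hA
  | false => Subgroup.inclusion hT

/-- The canonical homomorphism from the pushout to `G`. -/
noncomputable def canon {A T H : Subgroup G} (hA : H ≤ A) (hT : H ≤ T) : Monoid.PushoutI (phi hA hT) →* G :=
  Monoid.PushoutI.lift (fun b => (fam A T b).subtype) H.subtype (by
    intro b
    cases b <;> rfl)

end words

section dim2
variable {k : Type u} [Field k]

/-- The degree with the weights `(0, 1, √2)`. -/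
noncomputable def D0 (f : B k) : ℝ := dg ![0, 1, Real.sqrt 2] f

/-- The `k[x_0]`-module spanned by `1` and `f`. -/
def Lb (f : B k) : Set (B k) := {v | ∃ a b : Polynomial k, v = ev1 a (X 0) + ev1 b (X 0) * f}

/-- The `k[x_0]`-module spanned by `1`, `f` and `g`. -/
def La (f g : B k) : Set (B k) :=
  {v | ∃ a b c : Polynomial k, v = ev1 a (X 0) + ev1 b (X 0) * f + ev1 c (X 0) * g}

/-- `(f, g)` is a basis of `L` over `k[x_0]` modulo `k[x_0]`. -/
def Bas (L : Set (B k)) (f g : B k) : Prop := L = La f g ∧ JU (X 0) f g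

/-- Elementary adjacency over `k[x_0]`. -/
def Adj0 (L L' : Set (B k)) : Prop :=
  ∃ (f g : B k) (P : MvPolynomial (Fin 2) k), Bas L f g ∧ L' = La f (g + ev P (X 0) f)

/-- The degree of a lattice. -/
noncomputable def S0 (L : Set (B k)) : ℝ := sInf {s | ∃ f g : B k, Bas L f g ∧ s = D0 f + D0 g}

/-- The elements of minimal degree of a lattice. -/
def cen (L : Set (B k)) : Set (B k) := {v | v ∈ L ∧ ∀ u ∈ L, D0 u = 0 ∨ D0 v ≤ D0 u}

/-- The lattice of an automorphism. -/
noncomputable def Lw (w : Au k) : Set (B k) := w '' La (X 1) (X 2)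

end dim2

end SU
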