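import Pool.Agent.Lib.MP_374dcb_al.SvB

/-!
# JOB AdjL: adjacency and the relation `Conn`

`adj_of`: `U = sp u v (C c * w + ev P u v)` with `c ≠ 0`: `C c * w + ev P u v = C c * (w + ev (C c⁻¹ * P) u v)`, `sp_C_mul`.
`adj_center`: two vertices `sp u v w`, `sp u v w'` with `w' = C c * w + ev P u v`. `Adj.symm`: `h = (h + ev P f g) + ev (-P) f g`, `JU.add_ev`.
`RR.vert`: induction on `RR`; for `ks` unfold `KE`: `V = sp f1 f2 (f3 + C α * f2 ^ 2)` is a vertex (`JU.add_ev` with `P = C α * X 1 ^ 2`).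
`rr_of_adj` (the induction hypothesis in the convenient form): `conn_of_adj`: `X ∈ RR`, `S X < S V`: `IH X Y`.
`conn_V`: the first half is void (`S V < S V`), second half: `Y ∈ RR`, `S Y < S V`: `RR.red V Y`.
-/

set_option autoImplicit false

open MvPolynomial

namespace SU

universe u
variable {k : Type u} [Field k] [CharZero k]

theorem adj_center {u v w w' : B k} (H : JU u v w) {c : k} (hc : c ≠ 0) (P : MvPolynomial (Fin 2) k)
    (hw : w' = C c * w + ev P u v) : Adj (sp u v w) (sp u v w') := by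
  refine ⟨u, v, w, C c⁻¹ * P, H, rfl, ?_⟩
  have h1 : w' = C c * (w + ev (C c⁻¹ * P) u v) := by
    rw [hw, ev_mul, ev_C, mul_add, ← mul_assoc, ← C_mul, mul_inv_cancel₀ hc, C_1, one_mul]
  rw [h1, sp_C_mul _ _ _ hc]

theorem Adj.symm {V U : Submodule k (B k)} (h : Adj V U) : Adj U V := by
  obtain ⟨f, g, h, P, H, hV, hU⟩ := h
  refine ⟨f, g, h + ev P f g, -P, H.add_ev P, hU, ?_⟩
  rw [hV, ev_neg, add_neg_cancel_right]

theorem Adj.vert_left {V U : Submodule k (B k)} (h : Adj V U) : Vert V := by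
  obtain ⟨f, g, h, P, H, hV, hU⟩ := h
  exact ⟨f, g, h, H, hV⟩

theorem Adj.vert_right {V U : Submodule k (B k)} (h : Adj V U) : Vert U :=
  h.symm.vert_left

theorem RR.vert {ω : Wts} {V : Submodule k (B k)} (h : RR ω V) : Vert V := by
  cases h with
  | base _ hV _ => exact hV
  | red _ U hA _ _ => exact hA.vert_left
  | ks _ U hK _ =>
    obtain ⟨f1, f2, f3, δ, α, R, hp, -, -, -, hV, -⟩ := hK
    have h1 : ev (C α * X 1 ^ 2) f1 f2 = C α * f2 ^ 2 := by
      rw [ev_mul, ev_C, pow_two, ev_mul, ev_X1, pow_two]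
    exact ⟨f1, f2, f3 + C α * f2 ^ 2, h1 ▸ hp.ju.add_ev (C α * X 1 ^ 2), hV⟩

theorem Conn.symm {ω : Wts} {V X Y : Submodule k (B k)} (h : Conn ω V X Y) : Conn ω V Y X :=
  ⟨h.2, h.1⟩

theorem Conn.trans {ω : Wts} {V X W Y : Submodule k (B k)} (h : Conn ω V X W) (h' : Conn ω V W Y)
    (hW : S ω W < S ω V) : Conn ω V X Y :=
  ⟨fun hX hS => h'.1 (h.1 hX hS) hW, fun hY hS => h.2 (h'.2 hY hS) hW⟩

theorem conn_of_adj {ω : Wts} {V X Y : Submodule k (B k)} (IH : IHyp k ω (S ω V)) (h : Adj X Y) :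
    Conn ω V X Y :=
  ⟨fun hX hS => IH X Y hX hS h, fun hY hS => IH Y X hY hS h.symm⟩

theorem conn_V {ω : Wts} {V Y : Submodule k (B k)} (h : Adj V Y) : Conn ω V V Y :=
  ⟨fun _ hS => absurd hS (lt_irrefl _), fun hY hS => RR.red V Y h hS hY⟩

/-- the same center -/
theorem conn_center {ω : Wts} {V : Submodule k (B k)} (IH : IHyp k ω (S ω V)) {u v w : B k} (H : JU u v w)
    (P Q : MvPolynomial (Fin 2) k) : Conn ω V (sp u v (w + ev P u v)) (sp u v (w + ev Q u v)) := by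
  refine conn_of_adj IH (adj_center (H.add_ev P) one_ne_zero (Q - P) ?_)
  rw [C_1, one_mul, ev_sub]
  ring

end SU
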