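import Pool.Agent.Lib.MP_374dcb_al.ADefs
import Pool.Agent.Lib.MP_374dcb_al.AdjL

/-!
# JOB Aut: automorphisms, Jacobian, flags

`aut_JU`: `φ` an automorphism, `ψ = φ⁻¹`. Chain rule: `pderiv i (φ f) = ∑ j, φ (pderiv j f) * pderiv i (φ (X j))` (induction on `f`: `MvPolynomial.induction_on`, or: both sides are `k`-derivations of `B` in the variable `f`
with values in `B` viewed through `φ`; induction is simplest). Apply it to `f = ψ (X l)`: `δ_{il} = ∑ j, φ (pderiv j (ψ (X l))) * M i j` with `M i j = pderiv i (φ (X j))`. So the `3 × 3` matrix `M` has a right inverse, `det M` is a unit of `B k`,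
so `det M = C c`, `c ≠ 0` (`MvPolynomial.isUnit_iff_eq_C_of_isReduced` or: a unit has `D = 0` for any weights, `D_eq_zero`; or `MvPolynomial.isUnit_iff_totalDegree_of_isReduced`). Finally `det3 (φ X0) (φ X1) (φ X2) = X 0 * X 1 * X 2 * det M` (`ring` after
unfolding `det3, cr, J, E`).
`sp_X`: `flag k 3 2 = sp (X 0) (X 1) (X 2)`, `flag k 3 1 = pl (X 0) (X 1)`, `flag k 3 0 = span {1, X 0}` (`Set.Iic` in `Fin 3`). `mem_G1`: `φ` maps `span {1, X 0}` onto itself iff `φ (X 0) = C a * X 0 + C b` with `a ≠ 0`; for the direction `←`: `X 0 = C a⁻¹ * (φ (X 0) - C b)`.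
`mem_G2`: `φ` maps `span (1, X 0, X 1)` to itself iff it maps `X 0`, `X 1` into it (injectivity of `φ` and finite dimension give `map = `; in one direction trivial). `mem_G3` the same.
`map_sp`: `(sp f g h).map φ = sp (φ f) (φ g) (φ h)` (`Submodule.map_span`, `Set.image_insert_eq`).
-/

set_option autoImplicit false
set_option linter.unusedSectionVars false

open MvPolynomial

namespace SU

universe u
variable {k : Type u} [Field k]

private theorem Aut_chain (φ : Au k) (i : Fin 3) (f : B k) :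
    pderiv i (φ f) = ∑ j, φ (pderiv j f) * pderiv i (φ (X j)) := by
  induction f using MvPolynomial.induction_on with
  | C a =>
    have h : φ (C a) = C a := φ.commutes a
    rw [h, pderiv_C]
    refine (Finset.sum_eq_zero fun j _ => ?_).symm
    rw [pderiv_C, map_zero, zero_mul]
  | add p q hp hq =>
    rw [map_add, map_add, hp, hq, ← Finset.sum_add_distrib]
    refine Finset.sum_congr rfl fun j _ => ?_
    rw [map_add, map_add, add_mul]
  | mul_X p l hp =>
    have h1 : ∀ j, φ (pderiv j (p * X l)) * pderiv i (φ (X j)) =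
        φ (X l) * (φ (pderiv j p) * pderiv i (φ (X j))) +
          (if l = j then φ p * pderiv i (φ (X j)) else 0) := by
      intro j
      rw [pderiv_mul, map_add, map_mul, map_mul, pderiv_X, Pi.single_apply]
      by_cases hj : l = j
      · rw [if_pos hj, if_pos hj, map_one]
        ring
      · rw [if_neg hj, if_neg hj, map_zero]
        ring
    rw [Finset.sum_congr rfl fun j _ => h1 j, Finset.sum_add_distrib, ← Finset.mul_sum, ← hp,
      Finset.sum_ite_eq Finset.univ l, if_pos (Finset.mem_univ l), map_mul, pderiv_mul]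
    ring

private noncomputable def Aut_M (φ : Au k) : Matrix (Fin 3) (Fin 3) (B k) :=
  Matrix.of fun i j => pderiv i (φ (X j))

private theorem Aut_det (φ : Au k) : ∃ c : k, c ≠ 0 ∧ (Aut_M φ).det = C c := by
  have h1 : Aut_M φ * Matrix.of (fun j l => φ (pderiv j (φ.symm (X l)))) = 1 := by
    ext1 i l
    rw [Matrix.mul_apply]
    have h2 := Aut_chain φ i (φ.symm (X l))
    rw [AlgEquiv.apply_symm_apply, pderiv_X] at h2
    rw [Matrix.one_apply]
    have h3 : ∑ j, Aut_M φ i j * Matrix.of (fun j l => φ (pderiv j (φ.symm (X l)))) j l =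
        ∑ j, φ (pderiv j (φ.symm (X l))) * pderiv i (φ (X j)) :=
      Finset.sum_congr rfl fun j _ => mul_comm _ _
    rw [h3, ← h2, Pi.single_apply]
    by_cases hil : i = l
    · rw [if_pos hil.symm, if_pos hil]
    · rw [if_neg (fun h => hil h.symm), if_neg hil]
  have h2 : IsUnit (Aut_M φ).det := by
    have h3 := congrArg Matrix.det h1
    rw [Matrix.det_mul, Matrix.det_one] at h3
    exact IsUnit.of_mul_eq_one _ h3
  obtain ⟨r, hr, h3⟩ := isUnit_iff_eq_C_of_isReduced.1 h2
  exact ⟨r, hr.ne_zero, h3⟩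

private theorem Aut_c0 (f : B k) (i : Fin 3) : constantCoeff (pderiv i f) = coeff (Finsupp.single i 1) f := by
  rw [constantCoeff_eq, coeff_pderiv, zero_add]
  simp

private theorem Aut_det0 (φ : Au k) : ((Aut_M φ).map (constantCoeff : B k →+* k)).det ≠ 0 := by
  obtain ⟨c, hc, h⟩ := Aut_det φ
  have h1 := RingHom.map_det (constantCoeff : B k →+* k) (Aut_M φ)
  rw [h, constantCoeff_C] at h1
  intro h2
  exact hc (h1.trans h2)

private theorem Aut_M0 (φ : Au k) (i j : Fin 3) : ((Aut_M φ).map (constantCoeff : B k →+* k)) i j =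
    coeff (Finsupp.single i 1) (φ (X j)) := Aut_c0 _ _

theorem aut_JU (φ : Au k) : JU (φ (X 0)) (φ (X 1)) (φ (X 2)) := by
  obtain ⟨c, hc, h⟩ := Aut_det φ
  refine ⟨c, hc, ?_⟩
  rw [← h, Matrix.det_fin_three]
  show E 0 (φ (X 0)) * J 1 2 (φ (X 1)) (φ (X 2)) + E 1 (φ (X 0)) * J 2 0 (φ (X 1)) (φ (X 2)) +
    E 2 (φ (X 0)) * J 0 1 (φ (X 1)) (φ (X 2)) = _
  unfold J E Aut_M
  simp only [Matrix.of_apply]
  ring

theorem flag2 : flag k 3 2 = sp (X 0) (X 1) (X 2) := by
  have h : (Set.Iic (2 : Fin 3)) = {0, 1, 2} := by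
    ext i
    fin_cases i <;> simp
  unfold flag sp
  rw [h, Set.image_insert_eq, Set.image_insert_eq, Set.image_singleton]

theorem flag1 : flag k 3 1 = pl (X 0) (X 1) := by
  have h : (Set.Iic (1 : Fin 3)) = {0, 1} := by
    ext i
    fin_cases i <;> simp
  unfold flag pl
  rw [h, Set.image_insert_eq, Set.image_singleton]

theorem flag0 : flag k 3 0 = Submodule.span k {(1 : B k), X 0} := by
  have h : (Set.Iic (0 : Fin 3)) = {0} := by
    ext i
    fin_cases i <;> simp
  unfold flag
  rw [h, Set.image_singleton]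

private theorem Aut_fd (i : Fin 3) : FiniteDimensional k (flag k 3 i) :=
  FiniteDimensional.span_of_finite k ((Set.toFinite _).insert _)

private theorem Aut_stab (φ : Au k) (i : Fin 3) (h : (flag k 3 i).map φ.toLinearMap ≤ flag k 3 i) :
    φ ∈ flagStab k 3 i := by
  have := Aut_fd (k := k) i
  show (flag k 3 i).map φ.toLinearMap = flag k 3 i
  exact Submodule.eq_of_le_of_finrank_eq h (LinearEquiv.finrank_map_eq φ.toLinearEquiv (flag k 3 i))

private theorem Aut_mem (φ : Au k) (i : Fin 3) (h : φ ∈ flagStab k 3 i) {f : B k} (hf : f ∈ flag k 3 i) :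
    φ f ∈ flag k 3 i := by
  have h1 : (flag k 3 i).map φ.toLinearMap = flag k 3 i := h
  rw [← h1]
  exact Submodule.mem_map_of_mem hf

private theorem Aut_Xmem {i l : Fin 3} (h : l ≤ i) : (X l : B k) ∈ flag k 3 i :=
  Submodule.subset_span (Set.mem_insert_of_mem _ ⟨l, h, rfl⟩)

private theorem Aut_onemem (i : Fin 3) : (1 : B k) ∈ flag k 3 i :=
  Submodule.subset_span (Set.mem_insert _ _)

private theorem Aut_Cmem (i : Fin 3) (c : k) : (C c : B k) ∈ flag k 3 i := by
  have h := (flag k 3 i).smul_mem c (Aut_onemem (k := k) i)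
  rwa [MvPolynomial.smul_eq_C_mul, mul_one] at h

private theorem Aut_CXmem {i l : Fin 3} (h : l ≤ i) (c : k) : (C c * X l : B k) ∈ flag k 3 i := by
  have h := (flag k 3 i).smul_mem c (Aut_Xmem (k := k) h)
  rwa [MvPolynomial.smul_eq_C_mul] at h

private theorem Aut_le (φ : Au k) (i : Fin 3) (h : ∀ l, l ≤ i → φ (X l) ∈ flag k 3 i) : φ ∈ flagStab k 3 i := by
  refine Aut_stab φ i ?_
  rw [Submodule.map_le_iff_le_comap]
  refine Submodule.span_le.2 ?_
  intro f hf
  rcases hf with rfl | ⟨l, hl, rfl⟩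
  · show φ 1 ∈ flag k 3 i
    rw [map_one]
    exact Aut_onemem i
  · exact h l hl

theorem mem_G1 (φ : Au k) : φ ∈ flagStab k 3 0 ↔ ∃ a b : k, a ≠ 0 ∧ φ (X 0) = C a * X 0 + C b := by
  constructor
  · intro h
    have h1 := Aut_mem φ 0 h (Aut_Xmem (le_refl _))
    rw [flag0, Submodule.mem_span_pair] at h1
    obtain ⟨b, a, h2⟩ := h1
    rw [MvPolynomial.smul_eq_C_mul, MvPolynomial.smul_eq_C_mul, mul_one] at h2
    refine ⟨a, b, ?_, by rw [← h2, add_comm]⟩
    rintro rfl
    rw [map_zero, zero_mul, add_zero] at h2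
    have h3 : φ (C b) = φ (X 0) := (φ.commutes b).trans h2
    have h4 := φ.injective h3
    have h5 := congrArg (coeff (Finsupp.single (0 : Fin 3) 1)) h4
    rw [coeff_C, coeff_X, if_neg, if_pos rfl] at h5
    · exact zero_ne_one h5
    · intro h6
      have h7 := DFunLike.congr_fun h6 (0 : Fin 3)
      simp at h7
  · rintro ⟨a, b, -, h⟩
    refine Aut_le φ 0 fun l hl => ?_
    have hl0 : l = 0 := le_antisymm hl (Fin.zero_le _)
    rw [hl0, h]
    exact Submodule.add_mem _ (Aut_CXmem (le_refl _) a) (Aut_Cmem 0 b)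

theorem mem_G2 (φ : Au k) : φ ∈ flagStab k 3 1 ↔
    (∃ a b c : k, φ (X 0) = C a * X 0 + C b * X 1 + C c) ∧ (∃ a b c : k, φ (X 1) = C a * X 0 + C b * X 1 + C c) := by
  have key : ∀ f : B k, f ∈ flag k 3 1 ↔ ∃ a b c : k, f = C a * X 0 + C b * X 1 + C c := by
    intro f
    constructor
    · intro h1
      rw [flag1] at h1
      unfold pl at h1
      rw [Submodule.mem_span_triple] at h1
      obtain ⟨c, a, b, h2⟩ := h1
      rw [MvPolynomial.smul_eq_C_mul, MvPolynomial.smul_eq_C_mul, MvPolynomial.smul_eq_C_mul, mul_one] at h2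
      refine ⟨a, b, c, ?_⟩
      rw [← h2]
      ring
    · rintro ⟨a, b, c, rfl⟩
      exact Submodule.add_mem _ (Submodule.add_mem _ (Aut_CXmem (by decide) a) (Aut_CXmem (by decide) b))
        (Aut_Cmem 1 c)
  constructor
  · intro h
    exact ⟨(key _).1 (Aut_mem φ 1 h (Aut_Xmem (by decide))), (key _).1 (Aut_mem φ 1 h (Aut_Xmem (by decide)))⟩
  · rintro ⟨h0, h1⟩
    refine Aut_le φ 1 fun l hl => ?_
    rw [key]
    fin_cases l
    · exact h0
    · exact h1
    · exact absurd hl (by decide)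

theorem mem_G3 (φ : Au k) : φ ∈ flagStab k 3 2 ↔
    ∀ i : Fin 3, ∃ a b c e : k, φ (X i) = C a * X 0 + C b * X 1 + C c * X 2 + C e := by
  have key : ∀ f : B k, f ∈ flag k 3 2 ↔ ∃ a b c e : k, f = C a * X 0 + C b * X 1 + C c * X 2 + C e := by
    intro f
    constructor
    · intro h1
      rw [flag2] at h1
      unfold sp at h1
      rw [Submodule.mem_span_insert] at h1
      obtain ⟨e, z, hz, h2⟩ := h1
      rw [Submodule.mem_span_triple] at hz
      obtain ⟨a, b, c, h3⟩ := hz
      rw [MvPolynomial.smul_eq_C_mul, MvPolynomial.smul_eq_C_mul, MvPolynomial.smul_eq_C_mul] at h3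
      rw [MvPolynomial.smul_eq_C_mul, mul_one] at h2
      refine ⟨a, b, c, e, ?_⟩
      rw [h2, ← h3]
      ring
    · rintro ⟨a, b, c, e, rfl⟩
      exact Submodule.add_mem _ (Submodule.add_mem _ (Submodule.add_mem _ (Aut_CXmem (by decide) a)
        (Aut_CXmem (by decide) b)) (Aut_CXmem (by decide) c)) (Aut_Cmem 2 e)
  constructor
  · intro h i
    exact (key _).1 (Aut_mem φ 2 h (Aut_Xmem (Fin.le_last i)))
  · intro h
    refine Aut_le φ 2 fun l _ => ?_
    rw [key]
    exact h l

theorem map_sp (φ : Au k) (f g h : B k) : (sp f g h).map φ.toLinearMap = sp (φ f) (φ g) (φ h) := by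
  unfold sp
  rw [Submodule.map_span, Set.image_insert_eq, Set.image_insert_eq, Set.image_insert_eq, Set.image_singleton]
  have h1 : φ.toLinearMap 1 = 1 := map_one φ
  rw [h1]
  rfl

theorem ev_map (φ : Au k) (P : MvPolynomial (Fin 2) k) (f g : B k) : φ (ev P f g) = ev P (φ f) (φ g) := by
  unfold ev
  have h1 : φ (aeval ![f, g] P) = aeval (fun i => (φ : B k →ₐ[k] B k) (![f, g] i)) P :=
    MvPolynomial.comp_aeval_apply (![f, g]) (φ : B k →ₐ[k] B k) P
  rw [h1]
  congr 2
  funext i
  fin_cases i <;> rfl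

theorem ev1_map (φ : Au k) (R : Polynomial k) (f : B k) : φ (ev1 R f) = ev1 R (φ f) := by
  unfold ev1
  exact (Polynomial.aeval_algHom_apply φ f R).symm

/-- the linear part of `φ (X 0)` is not zero -/
theorem coord_lin (φ : Au k) : ∃ i : Fin 3, coeff (Finsupp.single i 1) (φ (X 0)) ≠ 0 := by
  by_contra hcon
  push Not at hcon
  refine Aut_det0 φ ?_
  refine Matrix.det_eq_zero_of_column_eq_zero 0 fun i => ?_
  rw [Aut_M0]
  exact hcon i

/-- the linear parts of `φ (X 0)` and `φ (X 1)` are not proportional: if `φ (X 0) = C a * X 0 + C b` then the linear part of `φ (X 1)` is not a multiple of `X 0` -/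
theorem coord_lin' (φ : Au k) {a b : k} (h : φ (X 0) = C a * X 0 + C b) :
    coeff (Finsupp.single 1 1) (φ (X 1)) ≠ 0 ∨ coeff (Finsupp.single 2 1) (φ (X 1)) ≠ 0 := by
  by_contra hcon
  push Not at hcon
  refine Aut_det0 φ ?_
  have h1 : ∀ i : Fin 3, i ≠ 0 → coeff (Finsupp.single i 1) (φ (X 0)) = 0 := by
    intro i hi
    rw [h, coeff_add, coeff_C_mul, coeff_X, coeff_C, if_neg, if_neg, mul_zero, add_zero]
    · intro h6
      have h7 := DFunLike.congr_fun h6 i
      simp at h7
    · intro h6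
      have h7 := DFunLike.congr_fun h6 i
      rw [Finsupp.single_eq_same, Finsupp.single_eq_of_ne hi] at h7
      exact zero_ne_one h7
  rw [Matrix.det_fin_three]
  simp only [Aut_M0]
  rw [h1 1 (by decide), h1 2 (by decide), hcon.1, hcon.2]
  ring

end SU
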