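import Pool.Agent.Lib.MP_374dcb_al.Aut

/-!
# JOB AutG: the structure of `G_2`, construction of automorphisms

`jac_last`: if `JU f g h` with `f = C a * X 0 + C b * X 1 + C c`, `g = C a' * X 0 + C b' * X 1 + C c'` then `h = C e * X 2 + q`, `e ≠ 0`, with `q` a polynomial in `X 0, X 1`: `det3 f g h = (a b' - a' b) X 0 X 1 * E 2 h`
(as `E 2 f = E 2 g = 0`), so `(a b' - a' b) * pderiv 2 h = C c₀`, `c₀ ≠ 0`; `pderiv 2 h = C e` constant, so (char 0) all exponents `m` of `h` with `m 2 ≥ 1` are `single 2 1`. `q := h - C e * X 2` has only exponents with `m 2 = 0`, so it is `ev P (X 0) (X 1)` for the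
obvious `P` (rename; e.g. `P := ∑ m ∈ q.support, monomial (single 0 (m 0) + single 1 (m 1)) (coeff m q)`).
`jac_last'`: `JU (X 0) f h` with `f = X 1` is the special case used for the lattices.
`mk_el`: the automorphism `X 0 ↦ X 0`, `X 1 ↦ X 1`, `X 2 ↦ C c * X 2 + ev P (X 0) (X 1)` (`AlgEquiv.ofAlgHom` of `aeval`s, inverse `X 2 ↦ C c⁻¹ * (X 2 - ev P (X 0) (X 1))`). It lies in `G_1 ∩ G_2`. `mk_el'`: the same with the roles of `X 1` and `X 2` exchanged (conjugate by the swap).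
`mk_lin`: for an invertible matrix `M` the automorphism `X i ↦ ∑ j, C (M i j) * X j` (inverse with `M⁻¹`).
`sc`: the automorphism `X i ↦ C 2 * X i` (char 0), `coeff m (sc f) = 2 ^ (m 0 + m 1 + m 2) * coeff m f`.
`G2_form`: for `g ∈ G_2`: `g (X 2) = C e * X 2 + ev P (X 0) (X 1)`, `e ≠ 0`, by `aut_JU`, `mem_G2`, `jac_last`; so `sp (g X0) (g X1) (g X2) = sp (X 0) (X 1) (X 2 + ev P' (X 0) (X 1))` (`g X0, g X1` span `pl (X 0) (X 1)`: flag condition).
-/

set_option autoImplicit false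

open MvPolynomial

namespace SU

universe u
variable {k : Type u} [Field k] [CharZero k]

omit [CharZero k] in
private theorem AutG_E_X (i j : Fin 3) : E i (X j : B k) = if i = j then X i else 0 := by
  unfold E
  rw [pderiv_X, Pi.single_apply]
  by_cases h : i = j
  · rw [if_pos h.symm, if_pos h, mul_one]
  · rw [if_neg (Ne.symm h), if_neg h, mul_zero]

omit [CharZero k] in
private theorem AutG_E_lin (i : Fin 3) (a b c : k) : E i (C a * X 0 + C b * X 1 + C c : B k) =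
    C a * (if i = 0 then X i else 0) + C b * (if i = 1 then X i else 0) := by
  rw [E_add, E_add, E_C, E_C_mul, E_C_mul, AutG_E_X, AutG_E_X, add_zero]

omit [CharZero k] in
/-- a polynomial with no `X 2` -/
private theorem AutG_ev {q : B k} (h : ∀ m : Fin 3 →₀ ℕ, 1 ≤ m 2 → coeff m q = 0) :
    ∃ P : MvPolynomial (Fin 2) k, q = ev P (X 0) (X 1) := by
  classical
  refine ⟨∑ m ∈ q.support, monomial (Finsupp.single 0 (m 0) + Finsupp.single 1 (m 1)) (coeff m q), ?_⟩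
  unfold ev
  rw [map_sum]
  nth_rw 1 [q.as_sum]
  refine Finset.sum_congr rfl fun m hm => ?_
  have hm2 : m 2 = 0 := by
    by_contra h2
    exact (mem_support_iff.1 hm) (h m (by omega))
  rw [aeval_monomial, Finsupp.prod_of_support_subset _ (Finset.subset_univ _) _ (fun i _ => pow_zero _), Fin.prod_univ_two]
  have e1 : m = Finsupp.single 0 (m 0) + Finsupp.single 1 (m 1) := by
    ext i
    fin_cases i
    · simp
    · simp
    · simpa using hm2
  have e2 : ((Finsupp.single 0 (m 0) + Finsupp.single 1 (m 1) : Fin 2 →₀ ℕ) 0) = m 0 := by simp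
  have e3 : ((Finsupp.single 0 (m 0) + Finsupp.single 1 (m 1) : Fin 2 →₀ ℕ) 1) = m 1 := by simp
  rw [e2, e3]
  show monomial m (coeff m q) = C (coeff m q) * ((X 0 : B k) ^ m 0 * (X 1 : B k) ^ m 1)
  nth_rw 1 [e1]
  rw [X_pow_eq_monomial, X_pow_eq_monomial, monomial_mul, C_mul_monomial, mul_one, mul_one]

omit [CharZero k] in
private theorem AutG_map (φ : B k →ₐ[k] B k) (P : MvPolynomial (Fin 2) k) (f g : B k) :
    φ (ev P f g) = ev P (φ f) (φ g) := by
  unfold ev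
  rw [← AlgHom.comp_apply]
  congr 1
  apply MvPolynomial.algHom_ext
  intro i
  fin_cases i <;> simp

theorem jac_last {f g h : B k} (H : JU f g h) {a b c a' b' c' : k} (hf : f = C a * X 0 + C b * X 1 + C c)
    (hg : g = C a' * X 0 + C b' * X 1 + C c') :
    ∃ (e : k) (P : MvPolynomial (Fin 2) k), e ≠ 0 ∧ h = C e * X 2 + ev P (X 0) (X 1) := by
  obtain ⟨c0, hc0, hdet⟩ := H
  have hX0 : (X 0 : B k) ≠ 0 := X_ne_zero 0
  have hX1 : (X 1 : B k) ≠ 0 := X_ne_zero 1
  have hX2 : (X 2 : B k) ≠ 0 := X_ne_zero 2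
  have h1 : det3 f g h = C (a * b' - a' * b) * (X 0 * X 1) * E 2 h := by
    have e1 : ∀ i, E i f = C a * (if i = 0 then X i else 0) + C b * (if i = 1 then X i else 0) := fun i => by
      rw [hf, AutG_E_lin]
    have e2 : ∀ i, E i g = C a' * (if i = 0 then X i else 0) + C b' * (if i = 1 then X i else 0) := fun i => by
      rw [hg, AutG_E_lin]
    unfold det3
    show E 0 f * J 1 2 g h + E 1 f * J 2 0 g h + E 2 f * J 0 1 g h = _
    unfold J
    rw [e1, e1, e1, e2, e2, e2]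
    simp only [if_true, Fin.isValue, one_ne_zero, zero_ne_one, if_false, Fin.reduceEq, mul_zero, add_zero, zero_add,
      zero_mul, sub_zero, zero_sub, C_sub, C_mul]
    ring
  have h2 : C (a * b' - a' * b) * E 2 h = C c0 * X 2 := by
    have h3 : (X 0 * X 1 : B k) * (C (a * b' - a' * b) * E 2 h) = (X 0 * X 1) * (C c0 * X 2) := by
      rw [h1] at hdet
      linear_combination hdet
    exact mul_left_cancel₀ (mul_ne_zero hX0 hX1) h3
  have hΔ : a * b' - a' * b ≠ 0 := by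
    intro h3
    rw [h3, C_0, zero_mul] at h2
    exact mul_ne_zero (by rw [Ne, C_eq_zero]; exact hc0) hX2 h2.symm
  have h4 : E 2 h = C (c0 / (a * b' - a' * b)) * X 2 := by
    have h5 : C (a * b' - a' * b) * E 2 h = C (a * b' - a' * b) * (C (c0 / (a * b' - a' * b)) * X 2) := by
      rw [h2, ← mul_assoc, ← C_mul, mul_div_cancel₀ _ hΔ]
    exact mul_left_cancel₀ (by rw [Ne, C_eq_zero]; exact hΔ) h5
  obtain ⟨e, he⟩ : ∃ e, e = c0 / (a * b' - a' * b) := ⟨_, rfl⟩
  rw [← he] at h4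
  have he0 : e ≠ 0 := by
    rw [he]
    exact div_ne_zero hc0 hΔ
  have h6 : ∀ m : Fin 3 →₀ ℕ, (m 2 : k) * coeff m h = if Finsupp.single 2 1 = m then e else 0 := by
    intro m
    rw [← coeff_E, h4, coeff_C_mul, coeff_X, mul_ite, mul_one, mul_zero]
  obtain ⟨P, hP⟩ := AutG_ev (q := h - C e * X 2) (by
    intro m hm
    have h7 := h6 m
    rw [coeff_sub, coeff_C_mul, coeff_X]
    by_cases h8 : Finsupp.single 2 1 = m
    · rw [if_pos h8] at h7 ⊢
      rw [← h8, Finsupp.single_eq_same, Nat.cast_one, one_mul] at h7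
      rw [← h8, h7, mul_one, sub_self]
    · rw [if_neg h8] at h7 ⊢
      rcases mul_eq_zero.1 h7 with h9 | h9
      · exfalso
        rw [Nat.cast_eq_zero] at h9
        omega
      · rw [h9, mul_zero, sub_zero])
  exact ⟨e, P, he0, by rw [← hP]; ring⟩

theorem mk_el {c : k} (hc : c ≠ 0) (P : MvPolynomial (Fin 2) k) :
    ∃ φ : Au k, φ (X 0) = X 0 ∧ φ (X 1) = X 1 ∧ φ (X 2) = C c * X 2 + ev P (X 0) (X 1) := by
  have h1 : (aeval ![(X 0 : B k), X 1, C c * X 2 + ev P (X 0) (X 1)]).comp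
      (aeval ![(X 0 : B k), X 1, C c⁻¹ * (X 2 - ev P (X 0) (X 1))]) = AlgHom.id k (B k) := by
    apply MvPolynomial.algHom_ext
    intro i
    rw [AlgHom.comp_apply, aeval_X, AlgHom.id_apply]
    fin_cases i
    · simp
    · simp
    · show (aeval ![(X 0 : B k), X 1, C c * X 2 + ev P (X 0) (X 1)]) (C c⁻¹ * (X 2 - ev P (X 0) (X 1))) = X 2
      rw [map_mul, map_sub, AutG_map, aeval_X, aeval_X, aeval_X, algHom_C]
      show algebraMap k (B k) c⁻¹ * (C c * X 2 + ev P (X 0) (X 1) - ev P (X 0) (X 1)) = X 2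
      rw [add_sub_cancel_right, MvPolynomial.algebraMap_eq, ← mul_assoc, ← C_mul, inv_mul_cancel₀ hc, C_1, one_mul]
  have h2 : (aeval ![(X 0 : B k), X 1, C c⁻¹ * (X 2 - ev P (X 0) (X 1))]).comp
      (aeval ![(X 0 : B k), X 1, C c * X 2 + ev P (X 0) (X 1)]) = AlgHom.id k (B k) := by
    apply MvPolynomial.algHom_ext
    intro i
    rw [AlgHom.comp_apply, aeval_X, AlgHom.id_apply]
    fin_cases i
    · simp
    · simp
    · show (aeval ![(X 0 : B k), X 1, C c⁻¹ * (X 2 - ev P (X 0) (X 1))]) (C c * X 2 + ev P (X 0) (X 1)) = X 2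
      rw [map_add, map_mul, AutG_map, aeval_X, aeval_X, aeval_X, algHom_C]
      show algebraMap k (B k) c * (C c⁻¹ * (X 2 - ev P (X 0) (X 1))) + ev P (X 0) (X 1) = X 2
      rw [MvPolynomial.algebraMap_eq, ← mul_assoc, ← C_mul, mul_inv_cancel₀ hc, C_1, one_mul, sub_add_cancel]
  refine ⟨AlgEquiv.ofAlgHom _ _ h1 h2, ?_, ?_, ?_⟩
  · show aeval ![(X 0 : B k), X 1, C c * X 2 + ev P (X 0) (X 1)] (X 0) = X 0
    rw [aeval_X]
    rfl
  · show aeval ![(X 0 : B k), X 1, C c * X 2 + ev P (X 0) (X 1)] (X 1) = X 1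
    rw [aeval_X]
    rfl
  · show aeval ![(X 0 : B k), X 1, C c * X 2 + ev P (X 0) (X 1)] (X 2) = _
    rw [aeval_X]
    rfl

theorem mk_lin (M : Matrix (Fin 3) (Fin 3) k) (hM : IsUnit M.det) :
    ∃ φ : Au k, ∀ i, φ (X i) = C (M i 0) * X 0 + C (M i 1) * X 1 + C (M i 2) * X 2 := by
  have key : ∀ M N : Matrix (Fin 3) (Fin 3) k, N * M = 1 →
      (aeval fun i => C (M i 0) * (X 0 : B k) + C (M i 1) * X 1 + C (M i 2) * X 2).comp
      (aeval fun i => C (N i 0) * (X 0 : B k) + C (N i 1) * X 1 + C (N i 2) * X 2) = AlgHom.id k (B k) := by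
    intro M N hNM
    apply MvPolynomial.algHom_ext
    intro i
    have e : ∀ j, N i 0 * M 0 j + N i 1 * M 1 j + N i 2 * M 2 j = (1 : Matrix (Fin 3) (Fin 3) k) i j := by
      intro j
      rw [← hNM, Matrix.mul_apply, Fin.sum_univ_three]
    rw [AlgHom.comp_apply, aeval_X, AlgHom.id_apply, map_add, map_add, map_mul, map_mul, map_mul, algHom_C, algHom_C,
      algHom_C, aeval_X, aeval_X, aeval_X]
    have e2 : (algebraMap k (B k)) (N i 0) * (C (M 0 0) * (X 0 : B k) + C (M 0 1) * X 1 + C (M 0 2) * X 2) +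
        (algebraMap k (B k)) (N i 1) * (C (M 1 0) * (X 0 : B k) + C (M 1 1) * X 1 + C (M 1 2) * X 2) +
        (algebraMap k (B k)) (N i 2) * (C (M 2 0) * (X 0 : B k) + C (M 2 1) * X 1 + C (M 2 2) * X 2) =
        C (N i 0 * M 0 0 + N i 1 * M 1 0 + N i 2 * M 2 0) * X 0 +
        C (N i 0 * M 0 1 + N i 1 * M 1 1 + N i 2 * M 2 1) * X 1 +
        C (N i 0 * M 0 2 + N i 1 * M 1 2 + N i 2 * M 2 2) * X 2 := by
      rw [MvPolynomial.algebraMap_eq]
      simp only [C_add, C_mul]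
      ring
    rw [e2, e, e, e]
    have e3 : ∀ i : Fin 3, C ((1 : Matrix (Fin 3) (Fin 3) k) i 0) * (X 0 : B k) + C ((1 : Matrix (Fin 3) (Fin 3) k) i 1) * X 1 +
        C ((1 : Matrix (Fin 3) (Fin 3) k) i 2) * X 2 = X i := by
      intro i
      simp only [Matrix.one_apply]
      fin_cases i <;> simp
    exact e3 i
  refine ⟨AlgEquiv.ofAlgHom (aeval fun i => C (M i 0) * (X 0 : B k) + C (M i 1) * X 1 + C (M i 2) * X 2)
    (aeval fun i => C (M⁻¹ i 0) * (X 0 : B k) + C (M⁻¹ i 1) * X 1 + C (M⁻¹ i 2) * X 2)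
    (key M M⁻¹ (Matrix.nonsing_inv_mul M hM)) (key M⁻¹ M (Matrix.mul_nonsing_inv M hM)), fun i => ?_⟩
  show aeval (fun i => C (M i 0) * (X 0 : B k) + C (M i 1) * X 1 + C (M i 2) * X 2) (X i) = _
  rw [aeval_X]

theorem exists_sc (k : Type u) [Field k] [CharZero k] : ∃ s : Au k, ∀ i, s (X i) = C 2 * X i := by
  have h2 : (2 : k) ≠ 0 := two_ne_zero
  obtain ⟨φ, hφ⟩ := mk_lin (Matrix.diagonal fun _ => (2 : k)) (by
    rw [Matrix.det_diagonal]
    exact isUnit_iff_ne_zero.2 (Finset.prod_ne_zero_iff.2 fun i _ => h2))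
  refine ⟨φ, fun i => ?_⟩
  rw [hφ]
  fin_cases i <;> simp

theorem sc_coeff {s : Au k} (hs : ∀ i, s (X i) = C 2 * X i) (f : B k) (m : Fin 3 →₀ ℕ) :
    coeff m (s f) = 2 ^ (m 0 + m 1 + m 2) * coeff m f := by
  revert m
  refine MvPolynomial.induction_on' f (fun n a m => ?_) (fun p q hp hq m => ?_)
  · have h1 : s (monomial n a) = monomial n (2 ^ (n 0 + n 1 + n 2) * a) := by
      have h3 : ∀ b : k, (monomial n b : B k) = C b * (X 0 ^ n 0 * X 1 ^ n 1 * X 2 ^ n 2) := by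
        intro b
        rw [monomial_eq, Finsupp.prod_of_support_subset _ (Finset.subset_univ _) _ (fun i _ => pow_zero _),
          Fin.prod_univ_three]
      have h4 : s (C a) = C a := s.commutes a
      rw [h3 a, map_mul, map_mul, map_mul, map_pow, map_pow, map_pow, hs, hs, hs, h4, h3, C_mul, C_pow, pow_add, pow_add]
      ring
    rw [h1, coeff_monomial, coeff_monomial]
    by_cases h5 : n = m
    · rw [if_pos h5, if_pos h5, h5]
    · rw [if_neg h5, if_neg h5, mul_zero]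
  · rw [map_add, coeff_add, coeff_add, hp, hq, mul_add]

theorem sc_mem {s : Au k} (hs : ∀ i, s (X i) = C 2 * X i) :
    s ∈ flagStab k 3 0 ∧ s ∈ flagStab k 3 1 ∧ s ∈ flagStab k 3 2 := by
  have h2 : (2 : k) ≠ 0 := two_ne_zero
  refine ⟨(mem_G1 s).2 ⟨2, 0, h2, by rw [hs, C_0, add_zero]⟩,
    (mem_G2 s).2 ⟨⟨2, 0, 0, by rw [hs, C_0]; ring⟩, ⟨0, 2, 0, by rw [hs, C_0]; ring⟩⟩, (mem_G3 s).2 fun i => ?_⟩
  fin_cases i
  · exact ⟨2, 0, 0, 0, by rw [C_0]; show s (X 0) = _; rw [hs]; ring⟩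
  · exact ⟨0, 2, 0, 0, by rw [C_0]; show s (X 1) = _; rw [hs]; ring⟩
  · exact ⟨0, 0, 2, 0, by rw [C_0]; show s (X 2) = _; rw [hs]; ring⟩

theorem G2_form {g : Au k} (hg : g ∈ flagStab k 3 1) : ∃ (e : k) (P : MvPolynomial (Fin 2) k), e ≠ 0 ∧
    g (X 2) = C e * X 2 + ev P (X 0) (X 1) := by
  obtain ⟨⟨a, b, c, h0⟩, ⟨a', b', c', h1⟩⟩ := (mem_G2 g).1 hg
  exact jac_last (aut_JU g) h0 h1

end SU
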