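import Pool.Agent.Lib.MP_374dcb_al.Dg

/-!
# JOB DgMul: multiplicativity of the weighted degree over a domain

Let `R` be a domain, `w ≥ 0`, `f, g ≠ 0`, `a = dg w f`, `b = dg w g`. Write `f = f₁ + f₂` where `f₁` consists of the terms of
weight exactly `a` (`f₁ := ∑ m ∈ f.support with wt w m = a, monomial m (coeff m f)`), `f₁ ≠ 0` by `exists_dg`, and all
exponents of `f₂` have weight `< a`; the same for `g = g₁ + g₂`. `f₁ g₁ ≠ 0` since `MvPolynomial σ R` is a domain. Choose `m` in the
support of `f₁ g₁`: its weight is `a + b` (`support_mul`, `wt_add`). All exponents of `f₁ g₂ + f₂ g₁ + f₂ g₂` have weight `< a + b`, so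
`m` is not among them and `m ∈ (f g).support`, so `a + b ≤ dg w (f g)` by `le_dg`. The other inequality is `dg_mul_le`.
`σ` is arbitrary.
-/

set_option autoImplicit false

open MvPolynomial

namespace SU

variable {σ R : Type*} [CommRing R] [IsDomain R]

omit [IsDomain R] in
private theorem DgMul_split (w : σ → ℝ) (hw : ∀ i, 0 ≤ w i) {f : MvPolynomial σ R} (hf : f ≠ 0) :
    ∃ f1 f2 : MvPolynomial σ R, f = f1 + f2 ∧ f1 ≠ 0 ∧ (∀ m ∈ f1.support, wt w m = dg w f) ∧
      ∀ m ∈ f2.support, wt w m < dg w f := by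
  classical
  let f1 : MvPolynomial σ R := ∑ m ∈ f.support.filter (fun m => wt w m = dg w f), monomial m (coeff m f)
  have hc : ∀ n, coeff n f1 = if n ∈ f.support ∧ wt w n = dg w f then coeff n f else 0 := by
    intro n
    show coeff n (∑ m ∈ f.support.filter (fun m => wt w m = dg w f), monomial m (coeff m f)) = _
    rw [coeff_sum]
    simp only [coeff_monomial]
    rw [Finset.sum_ite_eq']
    simp only [Finset.mem_filter]
  refine ⟨f1, f - f1, by ring, ?_, ?_, ?_⟩
  · intro h0
    obtain ⟨m, hm, hm'⟩ := exists_dg w hw hf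
    have h1 := hc m
    rw [h0, coeff_zero, if_pos ⟨hm, hm'⟩] at h1
    exact (mem_support_iff.1 hm) h1.symm
  · intro m hm
    rw [mem_support_iff, hc] at hm
    by_contra h
    rw [if_neg (fun h' => h h'.2)] at hm
    exact hm rfl
  · intro m hm
    rw [mem_support_iff, coeff_sub, hc] at hm
    by_cases h : m ∈ f.support ∧ wt w m = dg w f
    · rw [if_pos h, sub_self] at hm
      exact absurd rfl hm
    · rw [if_neg h, sub_zero] at hm
      have h1 : m ∈ f.support := mem_support_iff.2 hm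
      exact lt_of_le_of_ne (le_dg w h1) fun h' => h ⟨h1, h'⟩

omit [IsDomain R] in
private theorem DgMul_supp (w : σ → ℝ) {f g : MvPolynomial σ R} {m : σ →₀ ℕ} (hm : m ∈ (f * g).support) :
    ∃ a ∈ f.support, ∃ b ∈ g.support, wt w m = wt w a + wt w b := by
  classical
  obtain ⟨a, ha, b, hb, rfl⟩ := Finset.mem_add.1 (support_mul f g hm)
  exact ⟨a, ha, b, hb, wt_add w a b⟩

theorem dg_mul (w : σ → ℝ) (hw : ∀ i, 0 ≤ w i) {f g : MvPolynomial σ R} (hf : f ≠ 0) (hg : g ≠ 0) :
    dg w (f * g) = dg w f + dg w g := by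
  refine le_antisymm (dg_mul_le w hw f g) ?_
  obtain ⟨f1, f2, hf12, hf1, hf1w, hf2w⟩ := DgMul_split w hw hf
  obtain ⟨g1, g2, hg12, hg1, hg1w, hg2w⟩ := DgMul_split w hw hg
  have h0 : f1 * g1 ≠ 0 := mul_ne_zero hf1 hg1
  obtain ⟨m, hm⟩ := Finset.nonempty_iff_ne_empty.2 (fun h => h0 (support_eq_empty.1 h))
  obtain ⟨a, ha, b, hb, hab⟩ := DgMul_supp w hm
  rw [hf1w a ha, hg1w b hb] at hab
  have hlt : ∀ u v : MvPolynomial σ R, (∀ a ∈ u.support, ∀ b ∈ v.support, wt w a + wt w b < dg w f + dg w g) →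
      coeff m (u * v) = 0 := by
    intro u v h
    by_contra hne
    obtain ⟨a, ha, b, hb, h1⟩ := DgMul_supp w (mem_support_iff.2 hne)
    have h2 := h a ha b hb
    rw [← h1, hab] at h2
    exact lt_irrefl _ h2
  have h1 : coeff m (f1 * g2) = 0 := hlt _ _ fun a ha b hb => by
    have := hf1w a ha
    have := hg2w b hb
    linarith
  have h2 : coeff m (f2 * g1) = 0 := hlt _ _ fun a ha b hb => by
    have := hf2w a ha
    have := hg1w b hb
    linarith
  have h3 : coeff m (f2 * g2) = 0 := hlt _ _ fun a ha b hb => by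
    have := hf2w a ha
    have := hg2w b hb
    linarith
  have h4 : f * g = f1 * g1 + f1 * g2 + f2 * g1 + f2 * g2 := by
    nth_rewrite 1 [hf12]
    nth_rewrite 1 [hg12]
    ring
  have h5 : m ∈ (f * g).support := by
    rw [mem_support_iff, h4, coeff_add, coeff_add, coeff_add, h1, h2, h3, add_zero, add_zero, add_zero]
    exact mem_support_iff.1 hm
  rw [← hab]
  exact le_dg w h5

theorem dg_pow (w : σ → ℝ) (hw : ∀ i, 0 ≤ w i) (f : MvPolynomial σ R) (n : ℕ) :
    dg w (f ^ n) = n * dg w f := by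
  by_cases hf : f = 0
  · subst hf
    rw [dg_zero, mul_zero]
    rcases Nat.eq_zero_or_pos n with h | h
    · subst h
      rw [pow_zero, ← C_1, dg_C]
    · rw [zero_pow h.ne', dg_zero]
  · induction n with
    | zero =>
      rw [pow_zero, ← C_1, dg_C]
      push_cast
      ring
    | succ n ih =>
      rw [pow_succ, dg_mul w hw (pow_ne_zero n hf) hf, ih]
      push_cast
      ring

theorem dg_C_mul (w : σ → ℝ) (hw : ∀ i, 0 ≤ w i) {c : R} (hc : c ≠ 0) (f : MvPolynomial σ R) :
    dg w (C c * f) = dg w f := by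
  by_cases hf : f = 0
  · rw [hf, mul_zero]
  · have h1 : (C c : MvPolynomial σ R) ≠ 0 := fun h => hc (C_eq_zero.1 h)
    rw [dg_mul w hw h1 hf, dg_C, zero_add]

end SU
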