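import Pool.Agent.Lib.MP_374dcb_al.Dd

/-!
# JOB Ind: `P(f,g) ≠ 0`, and the inequality for the derivatives

`ev_ne_zero`: let `cr f g ≠ 0`. Induction on `P.totalDegree` (or a bound `n` for it). If `ev P f g = 0` then
`0 = cr (ev P f g) g = ev P_X f g • cr f g` (`cr_ev_left`, `cr_self`), so `ev P_X f g = 0` (a component of `cr f g` is nonzero; domain); the same with
`ev P_Y f g = 0` (`cr f (ev P f g)`). `P_X`, `P_Y` have smaller total degree, so they are `0` by induction, so (char 0) every
exponent of `P` is `0` (`coeff` of the derivatives), `P = C c`, `ev P f g = C c = 0`, `c = 0`.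

`ch_left`: `P_X ≠ 0`, so `ev P_X f g ≠ 0` and `D (ev P_X f g) + d f g = d (ev P f g) g ≤ D (ev P f g) + D g` (`d_ev_left`, `d_le`).
`ch_iter`: induction on `m` with `ch_left` for `(pderiv 0)^[j] P` (all of them are `≠ 0` for `j ≤ m`).
`D_ev1`: for `0 < D f` and `R ≠ 0`: the terms `c_i f^i` have the pairwise different degrees `i * D f`.
`ev1_nat`: `ev1 R f` is nonzero for `R ≠ 0`.
-/

set_option autoImplicit false

open MvPolynomial

namespace SU

universe u
variable {k : Type u} [Field k] [CharZero k]

omit [CharZero k] in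
private theorem ind_ev_C (c : k) (f g : B k) : ev (C c) f g = C c := by
  unfold ev
  rw [aeval_C]
  rfl

private theorem ind_main {f g : B k} (h : cr f g ≠ 0) : ∀ (n : ℕ) (P : MvPolynomial (Fin 2) k),
    (∀ m ∈ P.support, m 0 + m 1 < n) → ev P f g = 0 → P = 0 := by
  intro n
  induction n with
  | zero =>
    intro P hP _
    rw [← support_eq_empty]
    refine Finset.eq_empty_of_forall_notMem fun m hm => ?_
    exact absurd (hP m hm) (Nat.not_lt_zero _)
  | succ n ih =>
    intro P hP hev
    obtain ⟨i, hi⟩ : ∃ i, cr f g i ≠ 0 := by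
      by_contra hcon
      push Not at hcon
      exact h (funext hcon)
    have h0 : ev (pderiv 0 P) f g = 0 := by
      have h1 := cr_ev_left P f g g
      have h2 : cr (ev P f g) g = 0 := by
        rw [hev, ← C_0]
        exact cr_C_left 0 g
      rw [h2, cr_self, smul_zero, add_zero] at h1
      have h3 := congrFun h1 i
      rw [Pi.zero_apply, Pi.smul_apply, smul_eq_mul] at h3
      exact (mul_eq_zero.1 h3.symm).resolve_right hi
    have h1 : ev (pderiv 1 P) f g = 0 := by
      have h1 := cr_ev_right P f g f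
      have h2 : cr f (ev P f g) = 0 := by
        rw [hev, ← C_0]
        exact cr_C_right 0 f
      rw [h2, cr_self, smul_zero, zero_add] at h1
      have h3 := congrFun h1 i
      rw [Pi.zero_apply, Pi.smul_apply, smul_eq_mul] at h3
      exact (mul_eq_zero.1 h3.symm).resolve_right hi
    have hsup : ∀ j : Fin 2, ∀ m ∈ (pderiv j P).support, m 0 + m 1 < n := by
      intro j m hm
      rw [mem_support_iff, coeff_pderiv] at hm
      have h2 := hP _ (mem_support_iff.2 (left_ne_zero_of_mul hm))
      rw [Finsupp.add_apply, Finsupp.add_apply] at h2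
      fin_cases j
      · simp at h2
        omega
      · simp at h2
        omega
    have e0 := ih _ (hsup 0) h0
    have e1 := ih _ (hsup 1) h1
    have hall : ∀ j : Fin 2, pderiv j P = 0 := by
      intro j
      fin_cases j
      · exact e0
      · exact e1
    have hC : P = C (coeff 0 P) := by
      ext m
      by_cases hm : m = 0
      · rw [hm, coeff_C, if_pos rfl]
      · rw [coeff_C, if_neg (Ne.symm hm)]
        obtain ⟨j, hj⟩ : ∃ j, m j ≠ 0 := by
          by_contra hcon
          push Not at hcon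
          exact hm (Finsupp.ext hcon)
        have h2 := congrArg (coeff (m - Finsupp.single j 1)) (hall j)
        have hle : Finsupp.single j 1 ≤ m := Finsupp.single_le_iff.2 (Nat.one_le_iff_ne_zero.2 hj)
        rw [coeff_zero, coeff_pderiv, tsub_add_cancel_of_le hle] at h2
        refine (mul_eq_zero.1 h2).resolve_right ?_
        exact Nat.cast_add_one_ne_zero _
    rw [hC, ind_ev_C, C_eq_zero] at hev
    rw [hC, hev, C_0]

omit [CharZero k] in
private theorem ind_ev1_C (c : k) (f : B k) : ev1 (Polynomial.C c) f = C c := by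
  unfold ev1
  rw [Polynomial.aeval_C]
  rfl

theorem ev_ne_zero {f g : B k} (h : cr f g ≠ 0) {P : MvPolynomial (Fin 2) k} (hP : P ≠ 0) : ev P f g ≠ 0 := by
  intro h0
  exact hP (ind_main h (P.support.sup (fun m => m 0 + m 1) + 1) P
    (fun m hm => Nat.lt_succ_of_le (Finset.le_sup (f := fun m : Fin 2 →₀ ℕ => m 0 + m 1) hm)) h0)

theorem ch_left (ω : Wts) {f g : B k} (h : cr f g ≠ 0) {P : MvPolynomial (Fin 2) k} (hP : pderiv 0 P ≠ 0) :
    D ω (ev (pderiv 0 P) f g) + d ω f g ≤ D ω (ev P f g) + D ω g := by
  have h1 := d_ev_left ω h (ev_ne_zero h hP)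
  have h2 := d_le ω (ev P f g) g
  linarith

theorem ch_right (ω : Wts) {f g : B k} (h : cr f g ≠ 0) {P : MvPolynomial (Fin 2) k} (hP : pderiv 1 P ≠ 0) :
    D ω (ev (pderiv 1 P) f g) + d ω f g ≤ D ω (ev P f g) + D ω f := by
  have h1 := d_ev_right ω h (ev_ne_zero h hP)
  have h2 := d_le ω f (ev P f g)
  linarith

theorem ch_iter (ω : Wts) {f g : B k} (h : cr f g ≠ 0) {P : MvPolynomial (Fin 2) k} (m : ℕ)
    (hP : (pderiv 0)^[m] P ≠ 0) :
    D ω (ev ((pderiv 0)^[m] P) f g) + m * d ω f g ≤ D ω (ev P f g) + m * D ω g := by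
  induction m with
  | zero =>
    rw [Function.iterate_zero_apply, Nat.cast_zero, zero_mul, zero_mul]
  | succ m ih =>
    rw [Function.iterate_succ_apply'] at hP ⊢
    have h1 : (pderiv 0)^[m] P ≠ 0 := by
      intro h2
      rw [h2, map_zero] at hP
      exact hP rfl
    have h2 := ih h1
    have h3 := ch_left ω h hP
    push_cast
    linarith

theorem D_ev1 (ω : Wts) {f : B k} (hf : 0 < D ω f) (R : Polynomial k) :
    D ω (ev1 R f) = R.natDegree * D ω f := by
  obtain ⟨n, hn⟩ : ∃ n, n = R.natDegree := ⟨_, rfl⟩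
  induction n using Nat.strong_induction_on generalizing R with
  | _ n ih =>
    rcases Nat.eq_zero_or_pos n with h0 | h0
    · have h1 : R = Polynomial.C (R.coeff 0) := Polynomial.eq_C_of_natDegree_eq_zero (hn.symm.trans h0)
      rw [← hn, h0, Nat.cast_zero, zero_mul, h1, ind_ev1_C, D_C]
    · have h1 := R.eraseLead_add_C_mul_X_pow
      have h2 : R.eraseLead.natDegree < n := by
        have := R.eraseLead_natDegree_le
        omega
      have h3 := ih _ h2 R.eraseLead rfl
      have hlc : R.leadingCoeff ≠ 0 := by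
        intro h4
        rw [Polynomial.leadingCoeff_eq_zero] at h4
        rw [h4, Polynomial.natDegree_zero] at hn
        omega
      have h4 : ev1 R f = ev1 R.eraseLead f + C R.leadingCoeff * f ^ R.natDegree := by
        conv_lhs => rw [← h1]
        unfold ev1
        rw [map_add, map_mul, map_pow, Polynomial.aeval_X, Polynomial.aeval_C]
        rfl
      have h5 : D ω (C R.leadingCoeff * f ^ R.natDegree) = R.natDegree * D ω f := by
        rw [D_C_mul ω hlc, D_pow]
      have h6 : D ω (ev1 R.eraseLead f) < D ω (C R.leadingCoeff * f ^ R.natDegree) := by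
        rw [h3, h5, ← hn]
        exact mul_lt_mul_of_pos_right (by exact_mod_cast h2) hf
      rw [h4, D_add_right ω h6, h5]

theorem ev1_ne_zero (ω : Wts) {f : B k} (hf : 0 < D ω f) {R : Polynomial k} (hR : R ≠ 0) : ev1 R f ≠ 0 := by
  intro h0
  have h1 := D_ev1 ω hf R
  rw [h0, D_zero] at h1
  rcases mul_eq_zero.1 h1.symm with h2 | h2
  · have h3 : R.natDegree = 0 := by exact_mod_cast h2
    have h4 := Polynomial.eq_C_of_natDegree_eq_zero h3
    rw [h4, ind_ev1_C, C_eq_zero] at h0
    rw [h0, Polynomial.C_0] at h4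
    exact hR h4
  · exact hf.ne' h2

end SU
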