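import Pool.Agent.Lib.MP_374dcb_al.Dd

/-!
# JOB JUl: Jacobian triples

`JU f g h` : `det3 f g h = C c * (X 0 * X 1 * X 2)`, `c ≠ 0`. Symmetry from `det3_rot`, `det3_swap`; invariance under `h ↦ h + ev P f g`
(`det3_add_right`, `det3_ev_right`) and scaling. `det3 f g h` is linear in `cr g h`, so `cr g h ≠ 0`; the others by symmetry. `JU_eps_le`:
`ω.eps = D (det3 f g h)` (`D_C_mul`, `D_XXX`) `≤ D f + D g + D h` since every term `E i f * (E j g * E l h - ..)` has degree at most that.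
`JU_span`: if `span(1,f',g',h') = span(1,f,g,h)` and `JU f g h`, then `JU f' g' h'`: write `f = C a₀ + C a₁ f' + C a₂ g' + C a₃ h'` etc.
(`Submodule.mem_span_insert`, `Submodule.mem_span_singleton`; `c • v = C c * v`); by multilinearity and alternation (`det3_rot`,
`det3_swap`, `det3_add_right`, `det3_C_mul_right`, `det3_C_right`) `det3 f g h = C e * det3 f' g' h'` with
`e = ` the determinant of the `3 × 3` coefficient matrix; also `f' = ..` in terms of `f, g, h`: `det3 f' g' h' = C e' * det3 f g h` and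
`e' ≠ 0` because `det3 f g h = C (e * e') * det3 f g h ≠ 0`. (So only the second expansion is needed for the value, the first for `e' ≠ 0`.)
-/

set_option autoImplicit false

open MvPolynomial

namespace SU

universe u
variable {k : Type u} [Field k]

private theorem JUl_XXX : (X 0 * X 1 * X 2 : B k) ≠ 0 :=
  mul_ne_zero (mul_ne_zero (X_ne_zero 0) (X_ne_zero 1)) (X_ne_zero 2)

private theorem JUl_ne {f g h : B k} (H : JU f g h) : det3 f g h ≠ 0 := by
  obtain ⟨c, hc, he⟩ := H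
  rw [he]
  exact mul_ne_zero (fun h0 => hc (C_eq_zero.1 h0)) JUl_XXX

theorem JU.rot {f g h : B k} (H : JU f g h) : JU g h f := by
  obtain ⟨c, hc, he⟩ := H
  exact ⟨c, hc, by rw [det3_rot, he]⟩

theorem JU.swap {f g h : B k} (H : JU f g h) : JU g f h := by
  obtain ⟨c, hc, he⟩ := H
  exact ⟨-c, neg_ne_zero.2 hc, by rw [det3_swap, he, C_neg]; ring⟩

/-- exchange of the last two -/
theorem JU.swap' {f g h : B k} (H : JU f g h) : JU f h g := H.swap.rot

theorem JU.rev {f g h : B k} (H : JU f g h) : JU h g f := H.rot.swap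

theorem JU.add_ev {f g h : B k} (H : JU f g h) (P : MvPolynomial (Fin 2) k) : JU f g (h + ev P f g) := by
  obtain ⟨c, hc, he⟩ := H
  exact ⟨c, hc, by rw [det3_add_right, det3_ev_right, add_zero, he]⟩

theorem JU.C_mul {f g h : B k} (H : JU f g h) {c : k} (hc : c ≠ 0) : JU f g (C c * h) := by
  obtain ⟨c', hc', he⟩ := H
  exact ⟨c * c', mul_ne_zero hc hc', by rw [det3_C_mul_right, he, MvPolynomial.C_mul]; ring⟩

theorem JU.cr23 {f g h : B k} (H : JU f g h) : cr g h ≠ 0 := by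
  intro h0
  apply JUl_ne H
  unfold det3
  rw [h0]
  simp

theorem JU.cr12 {f g h : B k} (H : JU f g h) : cr f g ≠ 0 := H.rot.rot.cr23

theorem JU.cr13 {f g h : B k} (H : JU f g h) : cr f h ≠ 0 := H.swap.cr23

theorem JU.pos (ω : Wts) {f g h : B k} (H : JU f g h) : 0 < D ω f ∧ 0 < D ω g ∧ 0 < D ω h :=
  ⟨(D_pos_of_cr ω H.cr12).1, (D_pos_of_cr ω H.cr12).2, (D_pos_of_cr ω H.cr13).2⟩

theorem JU.eps_le (ω : Wts) {f g h : B k} (H : JU f g h) : ω.eps ≤ D ω f + D ω g + D ω h := by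
  obtain ⟨c, hc, he⟩ := H
  have h1 : D ω (det3 f g h) = ω.eps := by rw [he, D_C_mul ω hc, D_XXX]
  have h2 : ∀ i, D ω (E i f * cr g h i) ≤ D ω f + D ω g + D ω h := by
    intro i
    have h3 := D_mul_le ω (E i f) (cr g h i)
    have h4 := D_E_le ω i f
    have h5 := D_le_N ω (cr g h) i
    have h6 := d_le ω g h
    unfold d at h6
    linarith
  rw [← h1]
  unfold det3
  refine (D_add_le ω _ _).trans (max_le ((D_add_le ω _ _).trans (max_le (h2 0) (h2 1))) (h2 2))

private theorem JUl_E (i : Fin 3) (a b c e : k) (f g h : B k) :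
    E i (C a * f + C b * g + C c * h + C e) = C a * E i f + C b * E i g + C c * E i h := by
  rw [E_add, E_add, E_add, E_C_mul, E_C_mul, E_C_mul, E_C, add_zero]

private theorem JUl_det (f g h : B k) (a1 a2 a3 a0 b1 b2 b3 b0 c1 c2 c3 c0 : k) :
    det3 (C a1 * f + C a2 * g + C a3 * h + C a0) (C b1 * f + C b2 * g + C b3 * h + C b0)
      (C c1 * f + C c2 * g + C c3 * h + C c0) =
      C (a1 * (b2 * c3 - b3 * c2) - a2 * (b1 * c3 - b3 * c1) + a3 * (b1 * c2 - b2 * c1)) * det3 f g h := by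
  have e0 : ∀ u v : B k, cr u v 0 = E 1 u * E 2 v - E 2 u * E 1 v := fun _ _ => rfl
  have e1 : ∀ u v : B k, cr u v 1 = E 2 u * E 0 v - E 0 u * E 2 v := fun _ _ => rfl
  have e2 : ∀ u v : B k, cr u v 2 = E 0 u * E 1 v - E 1 u * E 0 v := fun _ _ => rfl
  unfold det3
  simp only [e0, e1, e2, JUl_E, C_add, C_sub, MvPolynomial.C_mul]
  ring

private theorem JUl_mem {f g h x : B k} (hx : x ∈ sp f g h) :
    ∃ a b c e : k, x = C a * f + C b * g + C c * h + C e := by
  unfold sp at hx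
  rw [Submodule.mem_span_insert] at hx
  obtain ⟨e, y, hy, rfl⟩ := hx
  rw [Submodule.mem_span_insert] at hy
  obtain ⟨a, z, hz, rfl⟩ := hy
  rw [Submodule.mem_span_insert] at hz
  obtain ⟨b, w, hw, rfl⟩ := hz
  obtain ⟨c, rfl⟩ := Submodule.mem_span_singleton.1 hw
  refine ⟨a, b, c, e, ?_⟩
  simp only [MvPolynomial.smul_eq_C_mul, mul_one]
  ring

theorem JU.of_span {f g h f' g' h' : B k} (H : JU f g h) (hs : sp f' g' h' = sp f g h) : JU f' g' h' := by
  have m1 : ∀ u v w : B k, u ∈ sp u v w ∧ v ∈ sp u v w ∧ w ∈ sp u v w := by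
    intro u v w
    unfold sp
    exact ⟨Submodule.subset_span (by simp), Submodule.subset_span (by simp), Submodule.subset_span (by simp)⟩
  have m2 := m1 f' g' h'
  rw [hs] at m2
  have m3 := m1 f g h
  rw [← hs] at m3
  obtain ⟨a1, a2, a3, a0, ha⟩ := JUl_mem m2.1
  obtain ⟨b1, b2, b3, b0, hb⟩ := JUl_mem m2.2.1
  obtain ⟨c1, c2, c3, c0, hc⟩ := JUl_mem m2.2.2
  obtain ⟨p1, p2, p3, p0, hp⟩ := JUl_mem m3.1
  obtain ⟨q1, q2, q3, q0, hq⟩ := JUl_mem m3.2.1
  obtain ⟨r1, r2, r3, r0, hr⟩ := JUl_mem m3.2.2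
  obtain ⟨e, he⟩ : ∃ e : k, det3 f' g' h' = C e * det3 f g h := ⟨_, by
    have h1 := JUl_det f g h a1 a2 a3 a0 b1 b2 b3 b0 c1 c2 c3 c0
    rw [← ha, ← hb, ← hc] at h1
    exact h1⟩
  obtain ⟨e', he'⟩ : ∃ e' : k, det3 f g h = C e' * det3 f' g' h' := ⟨_, by
    have h1 := JUl_det f' g' h' p1 p2 p3 p0 q1 q2 q3 q0 r1 r2 r3 r0
    rw [← hp, ← hq, ← hr] at h1
    exact h1⟩
  have he0 : e ≠ 0 := by
    rintro rfl
    apply JUl_ne H
    rw [he', he]
    simp
  obtain ⟨c, hc0, hcc⟩ := H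
  exact ⟨e * c, mul_ne_zero he0 hc0, by rw [he, hcc, MvPolynomial.C_mul]; ring⟩

/-- the degree of a nonconstant combination is positive -/
theorem JU.pos_comb (ω : Wts) {f g h : B k} (H : JU f g h) {a b c e : k} (hne : a ≠ 0 ∨ b ≠ 0 ∨ c ≠ 0) :
    0 < D ω (C a * f + C b * g + C c * h + C e) := by
  obtain ⟨c', hc', he⟩ := H
  have ef : f = C 1 * f + C 0 * g + C 0 * h + C 0 := by simp
  have eg : g = C 0 * f + C 1 * g + C 0 * h + C 0 := by simp
  have eh : h = C 0 * f + C 0 * g + C 1 * h + C 0 := by simp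
  rcases hne with h1 | h1 | h1
  · have h2 := JUl_det f g h a b c e 0 1 0 0 0 0 1 0
    rw [← eg, ← eh] at h2
    have h3 : JU (C a * f + C b * g + C c * h + C e) g h :=
      ⟨a * c', mul_ne_zero h1 hc', by
        rw [h2, he, ← mul_assoc, ← MvPolynomial.C_mul]
        congr 2
        ring⟩
    exact (h3.pos ω).1
  · have h2 := JUl_det f g h 1 0 0 0 a b c e 0 0 1 0
    rw [← ef, ← eh] at h2
    have h3 : JU f (C a * f + C b * g + C c * h + C e) h :=
      ⟨b * c', mul_ne_zero h1 hc', by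
        rw [h2, he, ← mul_assoc, ← MvPolynomial.C_mul]
        congr 2
        ring⟩
    exact (h3.pos ω).2.1
  · have h2 := JUl_det f g h 1 0 0 0 0 1 0 0 a b c e
    rw [← ef, ← eg] at h2
    have h3 : JU f g (C a * f + C b * g + C c * h + C e) :=
      ⟨c * c', mul_ne_zero h1 hc', by
        rw [h2, he, ← mul_assoc, ← MvPolynomial.C_mul]
        congr 2
        ring⟩
    exact (h3.pos ω).2.2

end SU
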