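import Pool.Agent.Lib.MP_374dcb_al.ADefs
import Pool.Agent.Lib.MP_374dcb_al.DgMul
import Pool.Agent.Lib.MP_374dcb_al.JUl
import Pool.Agent.Lib.MP_374dcb_al.Ind

/-!
# JOB CC1: the degree `D0` (weights `(0,1,√2)`)

`D0 f = dg ![0,1,√2] f`, nonnegative weights, `wt m = m 1 + m 2 √2` (`wt_fin3`), which determines `(m 1, m 2)` (`√2` is irrational: `irrational_sqrt_two`). The first lemmas specialize Dg/DgMul.
`D0_zero`: all exponents of `f` have `m 1 = m 2 = 0`, so `f` is a polynomial in `X 0`: `f = ev1 a (X 0)` with `a = ∑ monomial (m 0) (coeff m f)`.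
`lead0`: let `D0 f = D0 g > 0`, attained at exponents with `(m 1, m 2) = (i, j)` (the same for `f` and `g`). Let `b := ∑ over the exponents of f with (m 1, m 2) = (i,j) of coeff m f * T^(m 0)` (nonzero), `a :=` the same for `g`. In `ev1 a (X 0) * f - ev1 b (X 0) * g` the terms with `(m 1, m 2) = (i, j)` cancel, all other exponents have smaller weight
 (weights of exponents of `f`, `g` other than these are `< D0 f`); the degree is attained or the polynomial is `0`, so it is `< D0 g`.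
`D0_ev`: `0 < D0 f`, `P` in two variables, `n` = the degree of `P` in the second variable (`P.degreeOf 1`): `ev P (X 0) f = ∑_{i ≤ n} ev1 (p_i) (X 0) * f ^ i`, `p_n ≠ 0`, the terms have the different degrees `i * D0 f` (for `p_i ≠ 0`): `D0 = n * D0 f`.
`D0_min`: the values of `D0` are `i + j √2`; below any bound there are finitely many, so every nonempty set of polynomials has an element of minimal `D0`; the same for pairs and the sum.
`D0_JU`: if `JU (X 0) f g` then `0 < D0 f`, `0 < D0 g` (otherwise `f = ev1 a (X 0)` and `det3 (X 0) f g = 0` because `cr (X 0) f = 0`: `cr_ev1_right`, `cr_self`).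
-/

set_option autoImplicit false

open MvPolynomial

namespace SU

universe u
variable {k : Type u} [Field k]

private theorem CC1_hw (i : Fin 3) : 0 ≤ (![0, 1, Real.sqrt 2] : Fin 3 → ℝ) i := by
  fin_cases i
  · exact le_refl _
  · exact zero_le_one
  · exact Real.sqrt_nonneg 2

private theorem CC1_wt (m : Fin 3 →₀ ℕ) : wt ![0, 1, Real.sqrt 2] m = (m 1 : ℝ) + m 2 * Real.sqrt 2 := by
  rw [wt_fin3]
  simp

private theorem CC1_inj {i j i' j' : ℕ} (h : (i : ℝ) + j * Real.sqrt 2 = i' + j' * Real.sqrt 2) : i = i' ∧ j = j' := by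
  have h1 : j = j' := by
    by_contra hne
    have h2 : ((j : ℤ) - j' : ℤ) ≠ 0 := sub_ne_zero.2 (by exact_mod_cast hne)
    have h3 : Irrational ((((j : ℤ) - j' : ℤ) : ℝ) * Real.sqrt 2) := irrational_sqrt_two.intCast_mul h2
    apply h3
    refine ⟨(((i' : ℤ) - i : ℤ) : ℚ), ?_⟩
    push_cast
    linarith
  subst h1
  refine ⟨?_, rfl⟩
  have h2 : (i : ℝ) = i' := by linarith
  exact_mod_cast h2

private theorem CC1_mon (m : Fin 3 →₀ ℕ) (c : k) :
    (monomial m c : B k) = C c * (X 0 ^ m 0 * (X 1 ^ m 1 * X 2 ^ m 2)) := by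
  rw [monomial_eq, Finsupp.prod_fintype _ _ (fun i => pow_zero _), Fin.prod_univ_three]
  ring

private theorem CC1_ev1_mon (n : ℕ) (c : k) :
    ev1 (Polynomial.monomial n c) (X 0 : B k) = C c * X 0 ^ n := by
  unfold ev1
  rw [Polynomial.aeval_monomial]
  rfl

private theorem CC1_ev1_sum {ι : Type*} (s : Finset ι) (F : ι → Polynomial k) (f : B k) :
    ev1 (∑ i ∈ s, F i) f = ∑ i ∈ s, ev1 (F i) f := by
  unfold ev1
  rw [map_sum]

private theorem CC1_coeff (a : Polynomial k) (m : Fin 3 →₀ ℕ) :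
    coeff m (ev1 a (X 0 : B k)) = if m 1 = 0 ∧ m 2 = 0 then a.coeff (m 0) else 0 := by
  induction a using Polynomial.induction_on' with
  | add p q hp hq =>
    have h1 : ev1 (p + q) (X 0 : B k) = ev1 p (X 0) + ev1 q (X 0) := by unfold ev1; rw [map_add]
    rw [h1, coeff_add, hp, hq, Polynomial.coeff_add]
    split_ifs
    · rfl
    · rw [add_zero]
  | monomial n c =>
    rw [CC1_ev1_mon, coeff_C_mul, coeff_X_pow, Polynomial.coeff_monomial]
    by_cases h : Finsupp.single 0 n = m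
    · subst h
      simp
    · rw [if_neg h, mul_zero]
      by_cases h1 : m 1 = 0 ∧ m 2 = 0
      · rw [if_pos h1, if_neg]
        rintro rfl
        apply h
        ext i
        fin_cases i
        · simp
        · simpa using h1.1.symm
        · simpa using h1.2.symm
      · rw [if_neg h1]

theorem D0_nonneg (f : B k) : 0 ≤ D0 f := dg_nonneg _ _

private theorem CC1_zero : D0 (0 : B k) = 0 := dg_zero _

theorem D0_add_le (f g : B k) : D0 (f + g) ≤ max (D0 f) (D0 g) := dg_add_le _ _ _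

theorem D0_add_right {f g : B k} (h : D0 f < D0 g) : D0 (f + g) = D0 g := dg_add_right _ h

theorem D0_add_left {f g : B k} (h : D0 g < D0 f) : D0 (f + g) = D0 f := dg_add_left _ h

theorem D0_mul {f g : B k} (hf : f ≠ 0) (hg : g ≠ 0) : D0 (f * g) = D0 f + D0 g := dg_mul _ CC1_hw hf hg

private theorem CC1_pow (f : B k) (n : ℕ) : D0 (f ^ n) = n * D0 f := dg_pow _ CC1_hw f n

theorem ev1_X0_ne {a : Polynomial k} (ha : a ≠ 0) : ev1 a (X 0 : B k) ≠ 0 := by
  obtain ⟨n, hn⟩ : ∃ n, a.coeff n ≠ 0 := by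
    by_contra h
    simp only [not_exists, not_not] at h
    exact ha (Polynomial.ext fun n => by rw [h n, Polynomial.coeff_zero])
  intro h0
  apply hn
  have h1 := CC1_coeff a (Finsupp.single 0 n)
  rw [h0, coeff_zero, if_pos (by simp)] at h1
  rw [h1]
  simp

theorem D0_ev1 (a : Polynomial k) : D0 (ev1 a (X 0 : B k)) = 0 := by
  refine le_antisymm (dg_le _ (le_refl _) fun m hm => ?_) (D0_nonneg _)
  rw [mem_support_iff, CC1_coeff] at hm
  have h : m 1 = 0 ∧ m 2 = 0 := by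
    by_contra h
    exact hm (if_neg h)
  rw [CC1_wt, h.1, h.2]
  simp

theorem D0_ev1_mul {a : Polynomial k} (ha : a ≠ 0) (f : B k) : D0 (ev1 a (X 0) * f) = D0 f := by
  by_cases hf : f = 0
  · rw [hf, mul_zero]
  · rw [D0_mul (ev1_X0_ne ha) hf, D0_ev1, zero_add]

theorem D0_ev1_mul_le (a : Polynomial k) (f : B k) : D0 (ev1 a (X 0) * f) ≤ D0 f := by
  have h := dg_mul_le (![0, 1, Real.sqrt 2] : Fin 3 → ℝ) CC1_hw (ev1 a (X 0 : B k)) f
  have h1 : dg ![0, 1, Real.sqrt 2] (ev1 a (X 0 : B k)) = 0 := D0_ev1 a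
  rw [h1, zero_add] at h
  exact h

/-- the terms with prescribed exponents of `X 1`, `X 2` -/
private theorem CC1_slice (F : Finset (Fin 3 →₀ ℕ)) (c : (Fin 3 →₀ ℕ) → k) (i j : ℕ)
    (hF : ∀ m ∈ F, m 1 = i ∧ m 2 = j) :
    (∑ m ∈ F, monomial m (c m) : B k) =
      ev1 (∑ m ∈ F, Polynomial.monomial (m 0) (c m)) (X 0) * (X 1 ^ i * X 2 ^ j) := by
  rw [CC1_ev1_sum, Finset.sum_mul]
  refine Finset.sum_congr rfl fun m hm => ?_
  rw [CC1_mon, CC1_ev1_mon, (hF m hm).1, (hF m hm).2, mul_assoc]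

theorem D0_zero {f : B k} (h : D0 f = 0) : ∃ a : Polynomial k, f = ev1 a (X 0) := by
  have h1 : ∀ m ∈ f.support, m 1 = 0 ∧ m 2 = 0 := by
    intro m hm
    have h2 := le_dg (![0, 1, Real.sqrt 2] : Fin 3 → ℝ) hm
    have h3 : dg ![0, 1, Real.sqrt 2] f = 0 := h
    rw [h3, CC1_wt] at h2
    have h4 : (0 : ℝ) ≤ m 1 := Nat.cast_nonneg _
    have h5 : (0 : ℝ) ≤ (m 2 : ℝ) * Real.sqrt 2 := by positivity
    have h6 := CC1_inj (i := m 1) (j := m 2) (i' := 0) (j' := 0) (by push_cast; linarith)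
    exact h6
  refine ⟨∑ m ∈ f.support, Polynomial.monomial (m 0) (coeff m f), ?_⟩
  have h2 := CC1_slice f.support (fun m => coeff m f) 0 0 h1
  rw [pow_zero, pow_zero, mul_one, mul_one] at h2
  rw [← h2]
  exact (support_sum_monomial_coeff f).symm

/-- splitting off the leading part -/
private theorem CC1_split {f : B k} (h0 : 0 < D0 f) : ∃ (i j : ℕ) (b : Polynomial k) (f2 : B k), b ≠ 0 ∧
    D0 f = (i : ℝ) + j * Real.sqrt 2 ∧ f = ev1 b (X 0) * (X 1 ^ i * X 2 ^ j) + f2 ∧ D0 f2 < D0 f := by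
  classical
  have hf : f ≠ 0 := by
    rintro rfl
    rw [CC1_zero] at h0
    exact lt_irrefl _ h0
  obtain ⟨m0, hm0, hw⟩ := exists_dg (![0, 1, Real.sqrt 2] : Fin 3 → ℝ) CC1_hw hf
  have hD : D0 f = (m0 1 : ℝ) + m0 2 * Real.sqrt 2 := by
    rw [← CC1_wt, hw]
    rfl
  set F := f.support.filter fun m => m 1 = m0 1 ∧ m 2 = m0 2 with hF
  set F' := f.support.filter fun m => ¬ (m 1 = m0 1 ∧ m 2 = m0 2) with hF'
  have h1 := CC1_slice F (fun m => coeff m f) (m0 1) (m0 2) (fun m hm => (Finset.mem_filter.1 hm).2)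
  have hsum : f = (∑ m ∈ F, monomial m (coeff m f)) + ∑ m ∈ F', monomial m (coeff m f) := by
    rw [hF, hF', Finset.sum_filter_add_sum_filter_not]
    exact (support_sum_monomial_coeff f).symm
  have hco : ∀ (K : Finset (Fin 3 →₀ ℕ)) (m : Fin 3 →₀ ℕ),
      coeff m (∑ m ∈ K, monomial m (coeff m f) : B k) = if m ∈ K then coeff m f else 0 := by
    intro K m
    rw [coeff_sum]
    simp only [coeff_monomial]
    rw [Finset.sum_ite_eq' K m (fun m => coeff m f)]
  refine ⟨m0 1, m0 2, ∑ m ∈ F, Polynomial.monomial (m 0) (coeff m f), ∑ m ∈ F', monomial m (coeff m f), ?_, hD, ?_, ?_⟩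
  · intro hb
    rw [hb] at h1
    have h2 := hco F m0
    rw [if_pos (Finset.mem_filter.2 ⟨hm0, rfl, rfl⟩), h1] at h2
    have h3 : ev1 (0 : Polynomial k) (X 0 : B k) = 0 := by unfold ev1; rw [map_zero]
    rw [h3, zero_mul, coeff_zero] at h2
    exact (mem_support_iff.1 hm0) h2.symm
  · rw [← h1]
    exact hsum
  · by_cases hz : (∑ m ∈ F', monomial m (coeff m f) : B k) = 0
    · rw [hz, CC1_zero]
      exact h0
    · obtain ⟨m, hm, hmw⟩ := exists_dg (![0, 1, Real.sqrt 2] : Fin 3 → ℝ) CC1_hw hz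
      have h2 : m ∈ F' := by
        rw [mem_support_iff, hco] at hm
        by_contra h
        exact hm (if_neg h)
      have h3 := (Finset.mem_filter.1 h2)
      have h4 : wt ![0, 1, Real.sqrt 2] m ≤ D0 f := le_dg _ h3.1
      have h5 : D0 (∑ m ∈ F', monomial m (coeff m f) : B k) = wt ![0, 1, Real.sqrt 2] m := hmw.symm
      rw [h5]
      refine lt_of_le_of_ne h4 fun h6 => h3.2 ?_
      rw [CC1_wt, hD] at h6
      exact CC1_inj h6

theorem lead0 {f g : B k} (h : D0 f = D0 g) (h0 : 0 < D0 g) :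
    ∃ a b : Polynomial k, a ≠ 0 ∧ b ≠ 0 ∧ D0 (ev1 a (X 0) * f - ev1 b (X 0) * g) < D0 g := by
  obtain ⟨i, j, b, f2, hb, hi, hf, hf2⟩ := CC1_split (h ▸ h0 : 0 < D0 f)
  obtain ⟨i', j', a, g2, ha, hi', hg, hg2⟩ := CC1_split h0
  rw [h] at hf2
  obtain ⟨rfl, rfl⟩ : i = i' ∧ j = j' := CC1_inj (by rw [← hi, ← hi', h])
  refine ⟨a, b, ha, hb, ?_⟩
  have e : ev1 a (X 0) * f - ev1 b (X 0) * g = ev1 a (X 0) * f2 - ev1 b (X 0) * g2 := by
    have e1 : ev1 a (X 0) * f = ev1 a (X 0) * (ev1 b (X 0) * (X 1 ^ i * X 2 ^ j) + f2) := by rw [← hf]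
    have e2 : ev1 b (X 0) * g = ev1 b (X 0) * (ev1 a (X 0) * (X 1 ^ i * X 2 ^ j) + g2) := by rw [← hg]
    rw [e1, e2]
    ring
  rw [e]
  refine lt_of_le_of_lt (dg_sub_le (![0, 1, Real.sqrt 2] : Fin 3 → ℝ) _ _) (max_lt ?_ ?_)
  · exact lt_of_le_of_lt (D0_ev1_mul_le a f2) hf2
  · exact lt_of_le_of_lt (D0_ev1_mul_le b g2) hg2

private theorem CC1_ev (P : MvPolynomial (Fin 2) k) (f : B k) :
    ev P (X 0) f = ∑ i ∈ Finset.range (P.degreeOf 1 + 1),
      ev1 (∑ m ∈ P.support.filter (fun m => m 1 = i), Polynomial.monomial (m 0) (coeff m P)) (X 0) * f ^ i := by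
  have h1 : ev P (X 0) f = ∑ m ∈ P.support, C (coeff m P) * X 0 ^ m 0 * f ^ m 1 := by
    unfold ev
    conv_lhs => rw [← support_sum_monomial_coeff P]
    rw [map_sum]
    refine Finset.sum_congr rfl fun m _ => ?_
    rw [aeval_monomial, Finsupp.prod_fintype _ _ (fun i => pow_zero _), Fin.prod_univ_two, mul_assoc]
    rfl
  rw [h1]
  have h2 : ∀ m ∈ P.support, m 1 ∈ Finset.range (P.degreeOf 1 + 1) := by
    intro m hm
    rw [Finset.mem_range, Nat.lt_succ_iff]
    exact monomial_le_degreeOf 1 hm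
  rw [← Finset.sum_fiberwise_of_maps_to h2]
  refine Finset.sum_congr rfl fun i _ => ?_
  rw [CC1_ev1_sum, Finset.sum_mul]
  refine Finset.sum_congr rfl fun m hm => ?_
  rw [CC1_ev1_mon, (Finset.mem_filter.1 hm).2]

theorem D0_ev {f : B k} (hf : 0 < D0 f) (P : MvPolynomial (Fin 2) k) :
    D0 (ev P (X 0) f) = P.degreeOf 1 * D0 f := by
  by_cases hP : P = 0
  · subst hP
    have h1 : ev (0 : MvPolynomial (Fin 2) k) (X 0) f = 0 := by unfold ev; rw [map_zero]
    rw [h1, CC1_zero, degreeOf_zero]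
    simp
  have hlead : (∑ m ∈ P.support.filter (fun m => m 1 = P.degreeOf 1),
      Polynomial.monomial (m 0) (coeff m P)) ≠ 0 := by
    obtain ⟨m, hm, hm1⟩ : ∃ m ∈ P.support, P.degreeOf 1 = m 1 := by
      rw [degreeOf_eq_sup]
      exact Finset.exists_mem_eq_sup _ (support_nonempty.2 hP) _
    intro h0
    have h1 : (∑ m ∈ P.support.filter (fun m => m 1 = P.degreeOf 1),
      Polynomial.monomial (m 0) (coeff m P)).coeff (m 0) = coeff m P := by
      rw [Polynomial.finset_sum_coeff, Finset.sum_eq_single m]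
      · rw [Polynomial.coeff_monomial, if_pos rfl]
      · intro m' hm' hne
        rw [Polynomial.coeff_monomial, if_neg]
        intro h2
        apply hne
        ext i
        fin_cases i
        · exact h2
        · show m' 1 = m 1
          rw [(Finset.mem_filter.1 hm').2, hm1]
      · intro h2
        exact (h2 (Finset.mem_filter.2 ⟨hm, hm1.symm⟩)).elim
    rw [h0, Polynomial.coeff_zero] at h1
    exact (mem_support_iff.1 hm) h1.symm
  rw [CC1_ev, Finset.sum_range_succ]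
  have hl : D0 (ev1 (∑ m ∈ P.support.filter (fun m => m 1 = P.degreeOf 1),
      Polynomial.monomial (m 0) (coeff m P)) (X 0) * f ^ P.degreeOf 1) = P.degreeOf 1 * D0 f := by
    rw [D0_ev1_mul hlead, CC1_pow]
  by_cases hn : P.degreeOf 1 = 0
  · rw [hn, Finset.sum_range_zero, zero_add, ← hn, hl]
  · have hs : D0 (∑ i ∈ Finset.range (P.degreeOf 1),
        ev1 (∑ m ∈ P.support.filter (fun m => m 1 = i), Polynomial.monomial (m 0) (coeff m P)) (X 0) * f ^ i) ≤
        ((P.degreeOf 1 : ℝ) - 1) * D0 f := by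
      have hn1 : (1 : ℝ) ≤ P.degreeOf 1 := by exact_mod_cast Nat.one_le_iff_ne_zero.2 hn
      refine dg_sum_le _ _ _ (mul_nonneg (by linarith) hf.le) fun i hi => ?_
      refine (D0_ev1_mul_le _ _).trans ?_
      rw [CC1_pow]
      refine mul_le_mul_of_nonneg_right ?_ hf.le
      have h2 : i + 1 ≤ P.degreeOf 1 := Finset.mem_range.1 hi
      have h3 : (i : ℝ) + 1 ≤ P.degreeOf 1 := by exact_mod_cast h2
      linarith
    rw [D0_add_right, hl]
    rw [hl]
    nlinarith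

private theorem CC1_val (f : B k) : ∃ i j : ℕ, D0 f = (i : ℝ) + j * Real.sqrt 2 := by
  by_cases hf : f = 0
  · exact ⟨0, 0, by rw [hf, CC1_zero]; simp⟩
  · obtain ⟨m, _, hm⟩ := exists_dg (![0, 1, Real.sqrt 2] : Fin 3 → ℝ) CC1_hw hf
    refine ⟨m 1, m 2, ?_⟩
    rw [← CC1_wt, hm]
    rfl

private theorem CC1_min {ι : Type*} (s : Set ι) (F : ι → ℝ) (hF : ∀ x, ∃ i j : ℕ, F x = (i : ℝ) + j * Real.sqrt 2)
    (hs : s.Nonempty) : ∃ x ∈ s, ∀ y ∈ s, F x ≤ F y := by
  classical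
  obtain ⟨x0, hx0⟩ := hs
  have hfin : (F '' s ∩ Set.Iic (F x0)).Finite := by
    refine Set.Finite.subset ((Finset.range (⌊F x0⌋₊ + 1) ×ˢ Finset.range (⌊F x0⌋₊ + 1)).image
      (fun p : ℕ × ℕ => (p.1 : ℝ) + p.2 * Real.sqrt 2)).finite_toSet ?_
    rintro v ⟨⟨x, _, rfl⟩, hv⟩
    obtain ⟨i, j, hij⟩ := hF x
    rw [Set.mem_Iic] at hv
    have h1 : (1 : ℝ) ≤ Real.sqrt 2 := by
      rw [Real.one_le_sqrt]
      norm_num
    have hi0 : (0 : ℝ) ≤ i := Nat.cast_nonneg _
    have hj0 : (0 : ℝ) ≤ j := Nat.cast_nonneg _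
    have h2 : (j : ℝ) ≤ j * Real.sqrt 2 := le_mul_of_one_le_right hj0 h1
    rw [Finset.mem_coe, Finset.mem_image]
    refine ⟨(i, j), Finset.mem_product.2 ⟨?_, ?_⟩, hij.symm⟩
    · rw [Finset.mem_range, Nat.lt_succ_iff]
      exact Nat.le_floor (by linarith)
    · rw [Finset.mem_range, Nat.lt_succ_iff]
      exact Nat.le_floor (by linarith)
  obtain ⟨v, hv, hmin⟩ := Set.exists_min_image _ id hfin ⟨F x0, ⟨x0, hx0, rfl⟩, Set.mem_Iic.2 (le_refl _)⟩
  obtain ⟨⟨x, hx, rfl⟩, hx2⟩ := hv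
  refine ⟨x, hx, fun y hy => ?_⟩
  rcases le_or_gt (F y) (F x0) with h | h
  · exact hmin (F y) ⟨⟨y, hy, rfl⟩, h⟩
  · exact le_trans hx2 h.le

theorem D0_min {s : Set (B k)} (hs : s.Nonempty) : ∃ f ∈ s, ∀ g ∈ s, D0 f ≤ D0 g :=
  CC1_min s D0 CC1_val hs

theorem D0_min_pair {s : Set (B k × B k)} (hs : s.Nonempty) :
    ∃ f ∈ s, ∀ g ∈ s, D0 f.1 + D0 f.2 ≤ D0 g.1 + D0 g.2 := by
  refine CC1_min s (fun f => D0 f.1 + D0 f.2) ?_ hs
  rintro ⟨f, g⟩
  obtain ⟨i, j, h⟩ := CC1_val f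
  obtain ⟨i', j', h'⟩ := CC1_val g
  refine ⟨i + i', j + j', ?_⟩
  show D0 f + D0 g = _
  rw [h, h']
  push_cast
  ring

theorem D0_JU {f g : B k} (H : JU (X 0) f g) : 0 < D0 f ∧ 0 < D0 g := by
  have key : ∀ u : B k, cr (X 0) u ≠ 0 → 0 < D0 u := by
    intro u hu
    refine lt_of_le_of_ne (D0_nonneg u) fun h => hu ?_
    obtain ⟨a, rfl⟩ := D0_zero h.symm
    rw [cr_ev1_right, cr_self, smul_zero]
  exact ⟨key f H.cr12, key g H.cr13⟩

end SU
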