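import Pool.Agent.Lib.MP_374dcb_al.CC7

/-!
# JOB CC8: paths

`HH k = (G_1 ∩ G_2) ⊔ (G_1 ∩ G_3) ≤ G_1`. Induction on `h ∈ HH k` as a product of elements of the two subgroups (`Subgroup.sup_eq_closure`, `Subgroup.closure_induction_right` with the union of two subgroups, closed under inverses; or: the set of `h ∈ HH` with the property for all `w` is closed under products). `h = 1`: `n = 0`. For `h = h₁ g`,
`g ∈ G_1 ∩ G_2` or `G_1 ∩ G_3`: take the path for `h₁`, append `Lw (w * h₁ * g)`: `lw_G3` or `lw_G2` for `w * h₁ ∈ G_1`.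
-/

set_option autoImplicit false

open MvPolynomial

namespace SU

universe u
variable {k : Type u} [Field k] [CharZero k]

theorem HH_le : HH k ≤ flagStab k 3 0 := by
  exact sup_le inf_le_left inf_le_left

theorem HH_le' : HH k ≤ TT k := by
  exact sup_le_sup inf_le_right inf_le_right

theorem lw_path {w h : Au k} (hw : w ∈ flagStab k 3 0) (hh : h ∈ HH k) :
    ∃ (n : ℕ) (p : ℕ → Set (B k)), p 0 = Lw w ∧ p n = Lw (w * h) ∧
      (∀ i < n, p (i + 1) = p i ∨ Adj0 (p i) (p (i + 1))) ∧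
      ∀ i ≤ n, ∃ h' ∈ HH k, p i = Lw (w * h') := by
  have step : ∀ (h₁ y : Au k), h₁ ∈ HH k →
      (y ∈ flagStab k 3 0 ⊓ flagStab k 3 1 ∨ y ∈ flagStab k 3 0 ⊓ flagStab k 3 2) →
      (∃ (n : ℕ) (p : ℕ → Set (B k)), p 0 = Lw w ∧ p n = Lw (w * h₁) ∧
        (∀ i < n, p (i + 1) = p i ∨ Adj0 (p i) (p (i + 1))) ∧
        ∀ i ≤ n, ∃ h' ∈ HH k, p i = Lw (w * h')) →
      ∃ (n : ℕ) (p : ℕ → Set (B k)), p 0 = Lw w ∧ p n = Lw (w * (h₁ * y)) ∧
        (∀ i < n, p (i + 1) = p i ∨ Adj0 (p i) (p (i + 1))) ∧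
        ∀ i ≤ n, ∃ h' ∈ HH k, p i = Lw (w * h') := by
    rintro h₁ y hh₁ hy ⟨n, p, hp0, hpn, hpath, hvert⟩
    have hw₁ : w * h₁ ∈ flagStab k 3 0 := Subgroup.mul_mem _ hw (HH_le hh₁)
    have hyH : y ∈ HH k := by
      rcases hy with hy | hy
      · exact (le_sup_left : _ ≤ HH k) hy
      · exact (le_sup_right : _ ≤ HH k) hy
    have hadj : Lw (w * (h₁ * y)) = Lw (w * h₁) ∨ Adj0 (Lw (w * h₁)) (Lw (w * (h₁ * y))) := by
      rw [← mul_assoc]
      rcases hy with hy | hy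
      · exact Or.inr (lw_G2 hw₁ hy.1 hy.2)
      · exact Or.inl (lw_G3 hw₁ hy.1 hy.2)
    obtain ⟨q, hq1, hq2⟩ : ∃ q : ℕ → Set (B k), (∀ i ≤ n, q i = p i) ∧ q (n + 1) = Lw (w * (h₁ * y)) :=
      ⟨fun i => if i ≤ n then p i else Lw (w * (h₁ * y)), fun i hi => if_pos hi, if_neg (by omega)⟩
    refine ⟨n + 1, q, ?_, hq2, ?_, ?_⟩
    · rw [hq1 0 (Nat.zero_le n)]
      exact hp0
    · intro i hi
      by_cases hin : i < n
      · rw [hq1 i (by omega), hq1 (i + 1) (by omega)]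
        exact hpath i hin
      · have e : i = n := by omega
        subst e
        rw [hq2, hq1 i le_rfl, hpn]
        exact hadj
    · intro i hi
      by_cases hin : i ≤ n
      · rw [hq1 i hin]
        exact hvert i hin
      · have e : i = n + 1 := by omega
        subst e
        exact ⟨h₁ * y, Subgroup.mul_mem _ hh₁ hyH, hq2⟩
  have hHc : HH k = Subgroup.closure (((flagStab k 3 0 ⊓ flagStab k 3 1 : Subgroup (Au k)) : Set (Au k)) ∪
      ((flagStab k 3 0 ⊓ flagStab k 3 2 : Subgroup (Au k)) : Set (Au k))) := by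
    rw [HH, Subgroup.sup_eq_closure]
  have hh' := hh
  rw [hHc] at hh'
  induction hh' using Subgroup.closure_induction_right with
  | one =>
    exact ⟨0, fun _ => Lw w, rfl, by rw [mul_one], by intro i hi; omega,
      fun i _ => ⟨1, Subgroup.one_mem _, by rw [mul_one]⟩⟩
  | mul_right x hx y hy ih =>
    rw [← hHc] at hx
    exact step x y hx hy (ih hx)
  | mul_inv_cancel x hx y hy ih =>
    rw [← hHc] at hx
    refine step x y⁻¹ hx ?_ (ih hx)
    rcases hy with hy | hy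
    · exact Or.inl (Subgroup.inv_mem _ hy)
    · exact Or.inr (Subgroup.inv_mem _ hy)

end SU
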