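import Pool.Agent.Lib.MP_374dcb_al.CC9
import Pool.Agent.Lib.MP_374dcb_al.CC8

/-!
# JOB CC10: a lattice with a stable center is standard

`w ∈ G_1`, `(f,g)` a basis of `Lw w`, `s '' Lb f = Lb f` (`s` = scaling by 2).
(1) `Lb (s f) = Lb f` (`lb_image`, `sc_mem`), so `s f = ev1 a X0 + ev1 b X0 * f` and `f = ev1 a' X0 + ev1 b' X0 * s f`, `b' b = 1` by `la_indep`: `b = C β'`. Coefficients (`sc_coeff`): for an exponent `m` which is not of the form `(m 0, 0, 0)`: `2 ^ |m| * coeff m f = β' * coeff m f`. The linear part of `f` contains `X1` or `X2`: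
 `JU (X 0) f g`: the coefficient of `X 0 * X 1 * X 2` in `det3 (X 0) f g = X 0 * (E 1 f * E 2 g - E 2 f * E 1 g)` is `f₁ g₂ - f₂ g₁` with the linear coefficients `f₁, f₂` of `X1`, `X2`; so `(f₁,f₂) ≠ 0` and `β' = 2`. For `|m| ≥ 2`: `2 ^ |m| ≠ 2`, so `coeff m f = 0` unless `m = (m 0,0,0)`. So `f = C μ * X 1 + C ν * X 2 + ev1 a'' X0`, `(μ,ν) ≠ 0`.
(2) `f' := C μ X1 + C ν X2`, `La f g = La f' g` (`la_fst`). `ℓ` := automorphism with `ℓ X0 = X0`, `ℓ X1 = f'`, `ℓ X2 = X2` (if `μ ≠ 0`) or `X1` (if `μ = 0`) (`mk_lin`), `ℓ ∈ G_1 ∩ G_3`. `w' := ℓ⁻¹ * w ∈ G_1`, `Lw w' = ℓ⁻¹ '' La f' g = La X1 g'` with `g' = ℓ⁻¹ g` (`la_image`, `lw_mul`), basis `(X1, g')` (`bas_image`).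
(3) `JU (X 0) (X 1) g'`: `jac_last`: `g' = C e X2 + ev P X0 X1`, `e ≠ 0`. `η := mk_el`: `η X0 = X0, η X1 = X1, η X2 = g'`, `η ∈ G_1 ∩ G_2`, `Lw η = La X1 g'`. `w'' := η⁻¹ * w'`: `Lw w'' = La X1 X2`, so `w'' ∈ HH` (`gl2`), and `w = ℓ * η * w'' ∈ HH`.
-/

set_option autoImplicit false

open MvPolynomial

namespace SU

universe u
variable {k : Type u} [Field k] [CharZero k]

private theorem CC10_lin {f g : B k} (H : JU (X 0) f g) :
    coeff (Finsupp.single 1 1) f ≠ 0 ∨ coeff (Finsupp.single 2 1) f ≠ 0 := by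
  obtain ⟨c, hc, h⟩ := H
  have h1 : det3 (X 0) f g = X 0 * X 1 * X 2 * (pderiv 1 f * pderiv 2 g - pderiv 2 f * pderiv 1 g) := by
    have e0 : E 0 (X 0 : B k) = X 0 := by
      rw [E, pderiv_X_self, mul_one]
    have e1 : E 1 (X 0 : B k) = 0 := by
      rw [E, pderiv_X_of_ne (by decide), mul_zero]
    have e2 : E 2 (X 0 : B k) = 0 := by
      rw [E, pderiv_X_of_ne (by decide), mul_zero]
    rw [det3, e0, e1, e2]
    show X 0 * J 1 2 f g + 0 * _ + 0 * _ = _
    rw [J, E, E, E, E]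
    ring
  rw [h1] at h
  have hX : (X 0 * X 1 * X 2 : B k) ≠ 0 := mul_ne_zero (mul_ne_zero (X_ne_zero 0) (X_ne_zero 1)) (X_ne_zero 2)
  have h2 : pderiv 1 f * pderiv 2 g - pderiv 2 f * pderiv 1 g = C c := by
    apply mul_left_cancel₀ hX
    rw [h]
    ring
  have h3 := congrArg constantCoeff h2
  rw [map_sub, map_mul, map_mul, constantCoeff_C] at h3
  have hp : ∀ (i : Fin 3) (f : B k), constantCoeff (pderiv i f) = coeff (Finsupp.single i 1) f := by
    intro i f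
    rw [constantCoeff_eq]
    rw [coeff_pderiv]
    simp
  rw [hp, hp, hp, hp] at h3
  by_contra hcon
  rw [not_or, not_not, not_not] at hcon
  rw [hcon.1, hcon.2] at h3
  apply hc
  rw [← h3]
  ring

omit [CharZero k] in
private theorem CC10_ev1_coeff (a : Polynomial k) {m : Fin 3 →₀ ℕ} (hm : m 1 ≠ 0 ∨ m 2 ≠ 0) :
    coeff m (ev1 a (X 0 : B k)) = 0 := by
  rw [ev1, Polynomial.aeval_eq_sum_range, coeff_sum]
  refine Finset.sum_eq_zero fun i _ => ?_
  rw [coeff_smul, coeff_X_pow, if_neg, smul_zero]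
  intro h
  have h1 := DFunLike.congr_fun h 1
  have h2 := DFunLike.congr_fun h 2
  simp at h1 h2
  rcases hm with hm | hm
  · exact hm h1.symm
  · exact hm h2.symm

private theorem CC10_form {s : Au k} (hs : ∀ i, s (X i) = C 2 * X i) {f g : B k} (H : JU (X 0) f g)
    (h : Lb (s f) = Lb f) : ∃ (μ ν : k) (a : Polynomial k), (μ ≠ 0 ∨ ν ≠ 0) ∧
      f = C μ * X 1 + C ν * X 2 + ev1 a (X 0) := by
  have h0 : ∀ v : B k, v ∈ Lb v := fun v => ⟨0, 1, by simp [ev1]⟩
  obtain ⟨a, b, hab⟩ : s f ∈ Lb f := by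
    rw [← h]
    exact h0 _
  obtain ⟨a', b', hab'⟩ : f ∈ Lb (s f) := by
    rw [h]
    exact h0 _
  have h1 : ev1 (a' + b' * a) (X 0) + ev1 (b' * b - 1) (X 0) * f + ev1 0 (X 0) * g = 0 := by
    have h2 : f = ev1 a' (X 0) + ev1 b' (X 0) * (ev1 a (X 0) + ev1 b (X 0) * f) := by
      rw [← hab]
      exact hab'
    simp only [ev1, map_add, map_sub, map_mul, map_one, map_zero] at h2 ⊢
    linear_combination -h2
  obtain ⟨-, h2, -⟩ := la_indep H h1
  have h3 : b' * b = 1 := sub_eq_zero.1 h2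
  have h4 : IsUnit b := IsUnit.of_mul_eq_one_right b' h3
  obtain ⟨β, -, hβ⟩ := Polynomial.isUnit_iff.1 h4
  have hb : ev1 b (X 0 : B k) = C β := by
    rw [← hβ, ev1, Polynomial.aeval_C, algebraMap_eq]
  rw [hb] at hab
  have h5 : ∀ m : Fin 3 →₀ ℕ, (m 1 ≠ 0 ∨ m 2 ≠ 0) → 2 ^ (m 0 + m 1 + m 2) * coeff m f = β * coeff m f := by
    intro m hm
    rw [← sc_coeff hs, hab, coeff_add, CC10_ev1_coeff a hm, zero_add, coeff_C_mul]
  have hlin := CC10_lin H
  have hβ2 : β = 2 := by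
    rcases hlin with h6 | h6
    · have h7 := h5 (Finsupp.single 1 1) (Or.inl (by simp))
      have h8 := mul_right_cancel₀ h6 h7
      simp at h8
      exact h8.symm
    · have h7 := h5 (Finsupp.single 2 1) (Or.inr (by simp))
      have h8 := mul_right_cancel₀ h6 h7
      simp at h8
      exact h8.symm
  have h6 : ∀ m : Fin 3 →₀ ℕ, (m 1 ≠ 0 ∨ m 2 ≠ 0) → 2 ≤ m 0 + m 1 + m 2 → coeff m f = 0 := by
    intro m hm hm2
    have h7 := h5 m hm
    rw [hβ2] at h7
    by_contra h8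
    have h9 := mul_right_cancel₀ h8 h7
    obtain ⟨n, hn⟩ : ∃ n, m 0 + m 1 + m 2 = n + 2 := ⟨m 0 + m 1 + m 2 - 2, by omega⟩
    rw [hn] at h9
    have h10 : ((2 ^ (n + 2) : ℕ) : k) = ((2 : ℕ) : k) := by
      push_cast
      exact h9
    have h11 : 2 ^ (n + 2) = 2 := Nat.cast_injective h10
    have h12 : 1 ≤ 2 ^ n := Nat.one_le_two_pow
    rw [pow_add] at h11
    omega
  have h7 : D0 (f - C (coeff (Finsupp.single 1 1) f) * X 1 - C (coeff (Finsupp.single 2 1) f) * X 2) ≤ 0 := by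
    refine dg_le _ le_rfl fun m hm => ?_
    have h8 : m 1 = 0 ∧ m 2 = 0 := by
      by_contra h9
      have h10 : m 1 ≠ 0 ∨ m 2 ≠ 0 := by
        by_contra h11
        rw [not_or, not_not, not_not] at h11
        exact h9 h11
      rw [mem_support_iff] at hm
      apply hm
      rw [coeff_sub, coeff_sub, coeff_C_mul, coeff_C_mul, coeff_X, coeff_X]
      by_cases h11 : 2 ≤ m 0 + m 1 + m 2
      · rw [h6 m h10 h11, if_neg, if_neg]
        · simp
        · rintro rfl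
          simp at h11
        · rintro rfl
          simp at h11
      · have h12 : (m 0 = 0 ∧ m 1 = 1 ∧ m 2 = 0) ∨ (m 0 = 0 ∧ m 1 = 0 ∧ m 2 = 1) := by omega
        rcases h12 with ⟨e0, e1, e2⟩ | ⟨e0, e1, e2⟩
        · have h13 : m = Finsupp.single 1 1 := by
            ext i
            fin_cases i
            · simpa using e0
            · simpa using e1
            · simpa using e2
          rw [h13, if_pos rfl, if_neg]
          · ring
          · intro h14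
            have h15 := DFunLike.congr_fun h14 1
            simp at h15
        · have h13 : m = Finsupp.single 2 1 := by
            ext i
            fin_cases i
            · simpa using e0
            · simpa using e1
            · simpa using e2
          rw [h13, if_pos rfl, if_neg]
          · ring
          · intro h14
            have h15 := DFunLike.congr_fun h14 1
            simp at h15
    rw [wt_fin3, h8.1, h8.2]
    simp
  obtain ⟨a'', ha''⟩ := D0_zero (le_antisymm h7 (D0_nonneg _))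
  refine ⟨coeff (Finsupp.single 1 1) f, coeff (Finsupp.single 2 1) f, a'', hlin, ?_⟩
  rw [← ha'']
  ring

private theorem CC10_ell {μ ν : k} (h : μ ≠ 0 ∨ ν ≠ 0) :
    ∃ l : Au k, l ∈ HH k ∧ l (X 1) = C μ * X 1 + C ν * X 2 := by
  by_cases hμ : μ = 0
  · have hν : ν ≠ 0 := h.resolve_left (fun h => h hμ)
    obtain ⟨l, hl⟩ := mk_lin (k := k) !![1, 0, 0; 0, 0, ν; 0, 1, 0] (by
      rw [Matrix.det_fin_three]
      simp
      exact hν)
    have l0 : l (X 0) = X 0 := by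
      rw [hl]
      simp
    have l1 : l (X 1) = C ν * X 2 := by
      rw [hl]
      simp
    have l2 : l (X 2) = X 1 := by
      rw [hl]
      simp
    refine ⟨l, Subgroup.mem_sup_right ⟨?_, ?_⟩, ?_⟩
    · show l ∈ flagStab k 3 0
      rw [mem_G1]
      exact ⟨1, 0, one_ne_zero, by rw [l0, C_1, C_0]; ring⟩
    · show l ∈ flagStab k 3 2
      rw [mem_G3]
      intro i
      fin_cases i
      · exact ⟨1, 0, 0, 0, by rw [C_1, C_0]; show l (X 0) = _; rw [l0]; ring⟩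
      · exact ⟨0, 0, ν, 0, by rw [C_0]; show l (X 1) = _; rw [l1]; ring⟩
      · exact ⟨0, 1, 0, 0, by rw [C_1, C_0]; show l (X 2) = _; rw [l2]; ring⟩
    · rw [l1, hμ, C_0]
      ring
  · obtain ⟨l, hl⟩ := mk_lin (k := k) !![1, 0, 0; 0, μ, ν; 0, 0, 1] (by
      rw [Matrix.det_fin_three]
      simp
      exact hμ)
    have l0 : l (X 0) = X 0 := by
      rw [hl]
      simp
    have l1 : l (X 1) = C μ * X 1 + C ν * X 2 := by
      rw [hl]
      simp
    have l2 : l (X 2) = X 2 := by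
      rw [hl]
      simp
    refine ⟨l, Subgroup.mem_sup_right ⟨?_, ?_⟩, l1⟩
    · show l ∈ flagStab k 3 0
      rw [mem_G1]
      exact ⟨1, 0, one_ne_zero, by rw [l0, C_1, C_0]; ring⟩
    · show l ∈ flagStab k 3 2
      rw [mem_G3]
      intro i
      fin_cases i
      · exact ⟨1, 0, 0, 0, by rw [C_1, C_0]; show l (X 0) = _; rw [l0]; ring⟩
      · exact ⟨0, μ, ν, 0, by rw [C_0]; show l (X 1) = _; rw [l1]; ring⟩
      · exact ⟨0, 0, 1, 0, by rw [C_1, C_0]; show l (X 2) = _; rw [l2]; ring⟩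

theorem lb_stable {s : Au k} (hs : ∀ i, s (X i) = C 2 * X i) {w : Au k} (hw : w ∈ flagStab k 3 0) {f g : B k}
    (hb : Bas (Lw w) f g) (h : s '' Lb f = Lb f) : w ∈ HH k := by
  rw [lb_image (sc_mem hs).1] at h
  obtain ⟨μ, ν, a, hμν, hf⟩ := CC10_form hs hb.2 h
  obtain ⟨l, hl, hl1⟩ := CC10_ell hμν
  have hlG := HH_le hl
  have hb1 : Bas (Lw w) (l (X 1)) g := by
    have h1 := bas_uni hb (-a) 1 0 0 0 1 (u := 1) one_ne_zero (by
      rw [Polynomial.C_1]
      ring)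
    have h2 : ev1 (-a) (X 0) + ev1 1 (X 0) * f + ev1 0 (X 0) * g = l (X 1) := by
      rw [hl1]
      simp only [ev1, map_neg, map_one, map_zero]
      rw [hf, ev1]
      ring
    have h3 : ev1 0 (X 0) + ev1 0 (X 0) * f + ev1 1 (X 0) * g = g := by
      simp only [ev1, map_one, map_zero]
      ring
    rw [h2, h3] at h1
    exact h1
  have hb2 := bas_image ((flagStab k 3 0).inv_mem hlG) hb1
  rw [← lw_mul] at hb2
  have h4 : l⁻¹ (l (X 1)) = X 1 := l.symm_apply_apply _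
  rw [h4] at hb2
  obtain ⟨e, P, he, hg'⟩ := jac_last hb2.2 (a := 1) (b := 0) (c := 0) (a' := 0) (b' := 1) (c' := 0) (by
    rw [C_1, C_0]
    ring) (by
    rw [C_1, C_0]
    ring)
  obtain ⟨η, η0, η1, η2⟩ := mk_el he P
  have hη : η ∈ flagStab k 3 0 ⊓ flagStab k 3 1 := by
    constructor
    · show η ∈ flagStab k 3 0
      rw [mem_G1]
      exact ⟨1, 0, one_ne_zero, by rw [η0, C_1, C_0]; ring⟩
    · show η ∈ flagStab k 3 1
      rw [mem_G2]
      exact ⟨⟨1, 0, 0, by rw [η0, C_1, C_0]; ring⟩, ⟨0, 1, 0, by rw [η1, C_1, C_0]; ring⟩⟩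
  have hηH : η ∈ HH k := Subgroup.mem_sup_left hη
  have h5 : Lw (l⁻¹ * w) = Lw η := by
    rw [hb2.1]
    show _ = η '' La (X 1) (X 2)
    rw [la_image hη.1, η1, η2, ← hg']
  have h6 : Lw (η⁻¹ * (l⁻¹ * w)) = La (X 1) (X 2) := by
    rw [lw_mul, h5, ← lw_mul, inv_mul_cancel]
    show (1 : Au k) '' La (X 1) (X 2) = _
    exact Set.image_id _
  have h7 : η⁻¹ * (l⁻¹ * w) ∈ HH k := gl2 ((flagStab k 3 0).mul_mem ((flagStab k 3 0).inv_mem hη.1)
    ((flagStab k 3 0).mul_mem ((flagStab k 3 0).inv_mem hlG) hw)) h6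
  have h8 : w = l * (η * (η⁻¹ * (l⁻¹ * w))) := by
    group
  rw [h8]
  exact (HH k).mul_mem hl ((HH k).mul_mem hηH h7)

end SU
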