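import Mathlib

/-!
# JOB Chain: a combinatorial lemma

Strong induction on `n`. `n = 0`: `hrefl`; `n = 1`: `hp 0`. `n ≥ 2`: choose `i` with `1 ≤ i ≤ n - 1` and `S (p i)` maximal among `S (p 1), ..., S (p (n-1))` (`Finset.exists_max_image`). Then `S (p (i-1)) ≤ S (p i)` and `S (p (i+1)) ≤ S (p i)`: for interior indices by maximality, for the ends `S (p n) = S (p 0) ≤ S (p i)` by `h0`. By `hkey`
(with `hsymm`) `R (p (i-1)) (p (i+1))`. Remove `p i`: `p' j := if j < i then p j else p (j+1)` is a chain of length `n - 1` with the same ends.
-/

set_option autoImplicit false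

namespace SU

theorem chain_red {X : Type*} (S : X → ℝ) (R : X → X → Prop) (hsymm : ∀ x y, R x y → R y x)
    (hrefl : ∀ x, R x x) (hkey : ∀ x y z, R x y → R x z → S y ≤ S x → S z ≤ S x → R y z) (n : ℕ) (p : ℕ → X)
    (hp : ∀ i < n, R (p i) (p (i + 1))) (h0 : ∀ i ≤ n, S (p 0) ≤ S (p i)) (hn : S (p n) = S (p 0)) :
    R (p 0) (p n) := by
  induction n generalizing p with
  | zero => exact hrefl _
  | succ m ih =>
    by_cases hm : m = 0
    · subst hm
      exact hp 0 (by omega)
    · obtain ⟨i, hi, hmax⟩ := Finset.exists_max_image (Finset.Icc 1 m) (fun j => S (p j))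
        ⟨1, by simp; omega⟩
      rw [Finset.mem_Icc] at hi
      have hle : ∀ j ≤ m + 1, S (p j) ≤ S (p i) := by
        intro j hj
        by_cases hj0 : j = 0
        · subst hj0
          exact h0 i (by omega)
        · by_cases hj1 : j = m + 1
          · subst hj1
            rw [hn]
            exact h0 i (by omega)
          · exact hmax j (by rw [Finset.mem_Icc]; omega)
      have hnew : R (p (i - 1)) (p (i + 1)) := by
        refine hkey (p i) _ _ ?_ (hp i (by omega)) (hle _ (by omega)) (hle _ (by omega))
        apply hsymm
        have := hp (i - 1) (by omega)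
        rwa [show i - 1 + 1 = i by omega] at this
      have key := ih (fun j => if j < i then p j else p (j + 1)) ?_ ?_ ?_
      · rw [if_pos (by omega), if_neg (by omega)] at key
        exact key
      · intro j hj
        by_cases h1 : j + 1 < i
        · rw [if_pos (by omega), if_pos h1]
          exact hp j (by omega)
        · by_cases h2 : j + 1 = i
          · rw [if_pos (by omega), if_neg (by omega)]
            subst h2
            simpa using hnew
          · rw [if_neg (by omega), if_neg (by omega)]
            exact hp (j + 1) (by omega)
      · intro j hj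
        rw [if_pos (by omega)]
        split_ifs with h
        · exact h0 j (by omega)
        · exact h0 (j + 1) (by omega)
      · rw [if_neg (by omega), if_pos (by omega)]
        exact hn

end SU
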