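import Pool.Agent.Lib.MP_374dcb_al.CC10
import Pool.Agent.Lib.MP_374dcb_al.Chain

/-!
# JOB CC11: Claim C

`w ∈ G_1`, `w⁻¹ s w ∈ HH`. Among the lattices `Lw (w * h)`, `h ∈ HH`, choose one with minimal `S0` (the values `S0 = D0 f1 + D0 g1` (`good0`) have a minimum: `D0_min_pair` on the set of all bases of all these lattices). Replace `w` by `w h` (`h ∈ HH ≤ G_1`): `(w h)⁻¹ s (w h) = h⁻¹ (w⁻¹ s w) h ∈ HH`, and `w ∈ HH ↔ w h ∈ HH`; the set of lattices is the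
same. So WLOG `S0 (Lw w) ≤ S0 (Lw (w * h))` for all `h ∈ HH`. Let `h₀ := w⁻¹ s w ∈ HH`: `w * h₀ = s * w`, `Lw (w * h₀) = s '' Lw w` (`lw_mul`), `S0 (s '' Lw w) = S0 (Lw w)` (`S0_sc`). `lw_path` gives a path from `Lw w` to `s '' Lw w`, all its vertices have `S0 ≥ S0 (Lw w)`. `chain_red` with `X := Set (B k)`,
`R L L' := L' = L ∨ Adj0 L L'` (symmetric by `adj0_symm`; `hkey` by `keyR`): `R (Lw w) (s '' Lw w)`. By `keyC` and `cen_sc`: `s '' cen (Lw w) = cen (s '' Lw w) = cen (Lw w)`. `good0` (`lw_bas`): `cen (Lw w) = Lb f1`, `Bas (Lw w) f1 g1`, and `lb_stable`.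
-/

set_option autoImplicit false

open MvPolynomial

namespace SU

universe u
variable {k : Type u} [Field k] [CharZero k]

theorem claimC {s : Au k} (hs : ∀ i, s (X i) = C 2 * X i) {w : Au k} (hw : w ∈ flagStab k 3 0)
    (h : w⁻¹ * s * w ∈ HH k) : w ∈ HH k := by
  -- choose the lattice of minimal degree
  obtain ⟨⟨f, g⟩, ⟨h₁, hh₁, hbas⟩, hmin⟩ := D0_min_pair
    (s := {q : B k × B k | ∃ h₁ ∈ HH k, Bas (Lw (w * h₁)) q.1 q.2})
    ⟨(w (X 1), w (X 2)), 1, Subgroup.one_mem _, by rw [mul_one]; exact lw_bas hw⟩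
  simp only at hbas hmin
  have hw' : w * h₁ ∈ flagStab k 3 0 := Subgroup.mul_mem _ hw (HH_le hh₁)
  have hH : (w * h₁)⁻¹ * s * (w * h₁) ∈ HH k := by
    have e : (w * h₁)⁻¹ * s * (w * h₁) = h₁⁻¹ * (w⁻¹ * s * w) * h₁ := by group
    rw [e]
    exact Subgroup.mul_mem _ (Subgroup.mul_mem _ (Subgroup.inv_mem _ hh₁) h) hh₁
  have hS : ∀ h' ∈ HH k, S0 (Lw (w * h₁)) ≤ S0 (Lw (w * h₁ * h')) := by
    intro h' hh'
    have hw'' : w * h₁ * h' ∈ flagStab k 3 0 := Subgroup.mul_mem _ hw' (HH_le hh')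
    obtain ⟨f1, g1, hb1, -, -, -, hS1, -⟩ := good0 (lw_bas hw'')
    refine (S0_le hbas).trans ?_
    rw [hS1]
    refine hmin (f1, g1) ⟨h₁ * h', Subgroup.mul_mem _ hh₁ hh', ?_⟩
    rw [← mul_assoc]
    exact hb1
  suffices hsuf : w * h₁ ∈ HH k by
    have e : w = w * h₁ * h₁⁻¹ := by group
    rw [e]
    exact Subgroup.mul_mem _ hsuf (Subgroup.inv_mem _ hh₁)
  clear hmin hbas
  generalize w * h₁ = v at hw' hH hS ⊢
  -- the path from `Lw v` to `s '' Lw v`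
  obtain ⟨n, p, hp0, hpn, hpath, hvert⟩ := lw_path hw' hH
  have hend : Lw (v * (v⁻¹ * s * v)) = s '' Lw v := by
    rw [show v * (v⁻¹ * s * v) = s * v by group, lw_mul]
  rw [hend] at hpn
  have hR := chain_red (S0 (k := k)) (fun L L' => L' = L ∨ Adj0 L L')
    (by
      rintro x y (hxy | hxy)
      · exact Or.inl hxy.symm
      · exact Or.inr (adj0_symm hxy))
    (fun x => Or.inl rfl) (fun x y z hy hz hSy hSz => keyR hy hz hSy hSz) n p hpath
    (by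
      intro i hi
      obtain ⟨h', hh', e⟩ := hvert i hi
      rw [hp0, e]
      exact hS h' hh')
    (by rw [hp0, hpn, S0_sc hs])
  rw [hp0, hpn] at hR
  have hC := keyC hR (S0_sc hs _)
  rw [cen_sc hs] at hC
  obtain ⟨f1, g1, hb1, hcen, -⟩ := good0 (lw_bas hw')
  rw [hcen] at hC
  exact lb_stable hs hw' hb1 hC

end SU
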