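import Pool.Agent.Lib.MP_374dcb_al.CC1

/-!
# JOB CC2: lattices over `k[x_0]`

`x := X 0`. `cr (ev1 a x * f) h = ev1 a x • cr f h + (f * ev1 a' x) • cr x h` (`cr_mul_left`, `cr_ev1_left`), so `det3 x (ev1 a x * f) g = ev1 a x * det3 x f g` etc. (the terms with `x` twice vanish), `det3 x (ev1 a x) g = 0`.
`la_indep`: apply `det3 x f ·` to `ev1 a x + ev1 b x * f + ev1 c x * g = 0`: `ev1 c x * det3 x f g = 0`, `c = 0` (`ev1_X0_ne`); the same for `b`; then `a`.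
`bas_uni`: `det3 x f' g' = ev1 (b c' - c b') x * det3 x f g = C u * det3 x f g`; the inverse matrix `u⁻¹ (c', -c; -b', b)` shows `La f' g' = La f g`.
`bas_swap`, `bas_el`: immediate. `bas_ex`: a lattice with basis `(f,g)`; `la_el`: `La f (g + ev1 b x * f + ev1 a x) = La f g`.
`bas_rel`: `f' ∈ Lb f' = Lb f`: `f' = ev1 a x + ev1 b x * f`; `f ∈ Lb f'`: `f = ev1 a₁ x + ev1 b₁ x * f'`; substituting: `b₁ b = 1` by independence, so `b = C u`, `u ≠ 0` (`Polynomial.isUnit_iff`). `g' ∈ L = La f g`, `g' = ev1 a₂ x + ev1 b₂ x * f + ev1 c x * g`, `g = ev1 a₃ x + ev1 b₃ x * f' + ev1 c₃ x * g'`: `c₃ c = 1`, `c = C v`.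
`lb_eq`: if `f' = C u * f + ev1 a x`, `u ≠ 0` then `Lb f' = Lb f`.
`linear_ev`: a polynomial `P` with `P.degreeOf 1 ≤ 1` satisfies `ev P x f = ev1 a x + ev1 b x * f`.
-/

set_option autoImplicit false

open MvPolynomial

namespace SU

universe u
variable {k : Type u} [Field k]

private theorem CC2_add (a b : Polynomial k) (f : B k) : ev1 (a + b) f = ev1 a f + ev1 b f := map_add _ _ _

private theorem CC2_sub (a b : Polynomial k) (f : B k) : ev1 (a - b) f = ev1 a f - ev1 b f := map_sub _ _ _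

private theorem CC2_neg (a : Polynomial k) (f : B k) : ev1 (-a) f = -ev1 a f := map_neg _ _

private theorem CC2_mul (a b : Polynomial k) (f : B k) : ev1 (a * b) f = ev1 a f * ev1 b f := map_mul _ _ _

private theorem CC2_zero (f : B k) : ev1 0 f = 0 := map_zero _

private theorem CC2_one (f : B k) : ev1 1 f = 1 := map_one _

private theorem CC2_C (u : k) (f : B k) : ev1 (Polynomial.C u) f = C u := Polynomial.aeval_C _ _

private theorem CC2_EX (i : Fin 3) (hi : i ≠ 0) : E i (X 0 : B k) = 0 := by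
  unfold E
  rw [pderiv_X_of_ne (Ne.symm hi), mul_zero]

private theorem CC2_E (i : Fin 3) (hi : i ≠ 0) (a b c : Polynomial k) (f g : B k) :
    E i (ev1 a (X 0) + ev1 b (X 0) * f + ev1 c (X 0) * g) = ev1 b (X 0) * E i f + ev1 c (X 0) * E i g := by
  rw [E_add, E_add, E_mul, E_mul, E_ev1, E_ev1, E_ev1, CC2_EX i hi]
  ring

private theorem CC2_det (f g : B k) : det3 (X 0) f g = X 0 * (E 1 f * E 2 g - E 2 f * E 1 g) := by
  have h0 : E 0 (X 0 : B k) = X 0 := by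
    unfold E
    rw [pderiv_X_self, mul_one]
  have h1 : cr f g 0 = E 1 f * E 2 g - E 2 f * E 1 g := rfl
  unfold det3
  rw [CC2_EX 1 (by decide), CC2_EX 2 (by decide), h0, h1]
  ring

private theorem CC2_ne {f g : B k} (H : JU (X 0) f g) : E 1 f * E 2 g - E 2 f * E 1 g ≠ 0 := by
  obtain ⟨c, hc, he⟩ := H
  intro h0
  rw [CC2_det, h0, mul_zero] at he
  have h1 : (C c : B k) * (X 0 * X 1 * X 2) ≠ 0 :=
    mul_ne_zero (fun h => hc (C_eq_zero.1 h)) (mul_ne_zero (mul_ne_zero (X_ne_zero 0) (X_ne_zero 1)) (X_ne_zero 2))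
  exact h1 he.symm

private theorem CC2_inj {a : Polynomial k} (h : ev1 a (X 0 : B k) = 0) : a = 0 := by
  by_contra ha
  exact ev1_X0_ne ha h

theorem la_indep {f g : B k} (H : JU (X 0) f g) {a b c : Polynomial k}
    (h : ev1 a (X 0) + ev1 b (X 0) * f + ev1 c (X 0) * g = 0) : a = 0 ∧ b = 0 ∧ c = 0 := by
  have hE0 : ∀ i : Fin 3, E i (0 : B k) = 0 := fun i => by unfold E; rw [map_zero, mul_zero]
  have h1 := CC2_E 1 (by decide) a b c f g
  have h2 := CC2_E 2 (by decide) a b c f g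
  rw [h, hE0] at h1 h2
  have hne := CC2_ne H
  have hb : ev1 b (X 0 : B k) * (E 1 f * E 2 g - E 2 f * E 1 g) = 0 := by
    linear_combination (-E 2 g) * h1 + E 1 g * h2
  have hc : ev1 c (X 0 : B k) * (E 1 f * E 2 g - E 2 f * E 1 g) = 0 := by
    linear_combination E 2 f * h1 - E 1 f * h2
  have hb0 := CC2_inj ((mul_eq_zero.1 hb).resolve_right hne)
  have hc0 := CC2_inj ((mul_eq_zero.1 hc).resolve_right hne)
  subst hb0 hc0
  rw [CC2_zero, zero_mul, zero_mul, add_zero, add_zero] at h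
  exact ⟨CC2_inj h, rfl, rfl⟩

private theorem CC2_le {f g f1 g1 : B k} (hf : f ∈ La f1 g1) (hg : g ∈ La f1 g1) : La f g ⊆ La f1 g1 := by
  obtain ⟨a, b, c, rfl⟩ := hf
  obtain ⟨a', b', c', rfl⟩ := hg
  rintro v ⟨p, q, r, rfl⟩
  refine ⟨p + q * a + r * a', q * b + r * b', q * c + r * c', ?_⟩
  simp only [CC2_add, CC2_mul]
  ring

private theorem CC2_fst (f g : B k) : f ∈ La f g :=
  ⟨0, 1, 0, by rw [CC2_zero, CC2_one]; ring⟩

private theorem CC2_snd (f g : B k) : g ∈ La f g :=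
  ⟨0, 0, 1, by rw [CC2_zero, CC2_one]; ring⟩

private theorem CC2_CC {u : k} (hu : u ≠ 0) : (C u⁻¹ * C u : B k) = 1 := by
  rw [← C_mul, inv_mul_cancel₀ hu, C_1]

theorem bas_uni {L : Set (B k)} {f g : B k} (h : Bas L f g) (a b c a' b' c' : Polynomial k) {u : k} (hu : u ≠ 0)
    (hdet : b * c' - c * b' = Polynomial.C u) :
    Bas L (ev1 a (X 0) + ev1 b (X 0) * f + ev1 c (X 0) * g) (ev1 a' (X 0) + ev1 b' (X 0) * f + ev1 c' (X 0) * g) := by
  obtain ⟨hL, H⟩ := h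
  have hd : ev1 b (X 0 : B k) * ev1 c' (X 0) - ev1 c (X 0) * ev1 b' (X 0) = C u := by
    rw [← CC2_mul, ← CC2_mul, ← CC2_sub, hdet, CC2_C]
  have hdet2 : C u⁻¹ * (ev1 b (X 0 : B k) * ev1 c' (X 0) - ev1 c (X 0) * ev1 b' (X 0)) = 1 := by
    rw [hd, CC2_CC hu]
  refine ⟨?_, ?_⟩
  · rw [hL]
    refine Set.Subset.antisymm (CC2_le ?_ ?_) (CC2_le ⟨a, b, c, rfl⟩ ⟨a', b', c', rfl⟩)
    · refine ⟨-(Polynomial.C u⁻¹ * (c' * a - c * a')), Polynomial.C u⁻¹ * c', -(Polynomial.C u⁻¹ * c), ?_⟩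
      simp only [CC2_neg, CC2_mul, CC2_sub, CC2_C]
      linear_combination (-f) * hdet2
    · refine ⟨-(Polynomial.C u⁻¹ * (b * a' - b' * a)), -(Polynomial.C u⁻¹ * b'), Polynomial.C u⁻¹ * b, ?_⟩
      simp only [CC2_neg, CC2_mul, CC2_sub, CC2_C]
      linear_combination (-g) * hdet2
  · obtain ⟨e, he, hde⟩ := H
    refine ⟨u * e, mul_ne_zero hu he, ?_⟩
    rw [CC2_det] at hde ⊢
    rw [CC2_E 1 (by decide), CC2_E 2 (by decide), CC2_E 1 (by decide), CC2_E 2 (by decide), C_mul, mul_assoc, ← hde, ← hd]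
    ring

private theorem CC2_swap (f g : B k) : La g f ⊆ La f g := CC2_le (CC2_snd f g) (CC2_fst f g)

theorem bas_swap {L : Set (B k)} {f g : B k} (h : Bas L f g) : Bas L g f :=
  ⟨h.1.trans (Set.Subset.antisymm (CC2_swap g f) (CC2_swap f g)), h.2.swap'⟩

theorem bas_el {L : Set (B k)} {f g : B k} (h : Bas L f g) (P : MvPolynomial (Fin 2) k) :
    Bas (La f (g + ev P (X 0) f)) f (g + ev P (X 0) f) :=
  ⟨rfl, h.2.add_ev P⟩

theorem la_el (f g : B k) (a b : Polynomial k) {u : k} (hu : u ≠ 0) :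
    La f (C u * g + ev1 b (X 0) * f + ev1 a (X 0)) = La f g := by
  refine Set.Subset.antisymm (CC2_le (CC2_fst f g) ?_) (CC2_le (CC2_fst f _) ?_)
  · refine ⟨a, b, Polynomial.C u, ?_⟩
    rw [CC2_C]
    ring
  · refine ⟨-(Polynomial.C u⁻¹ * a), -(Polynomial.C u⁻¹ * b), Polynomial.C u⁻¹, ?_⟩
    simp only [CC2_neg, CC2_mul, CC2_C]
    linear_combination (-g) * CC2_CC (k := k) hu

theorem la_fst (f g : B k) (a : Polynomial k) {u : k} (hu : u ≠ 0) :
    La (C u * f + ev1 a (X 0)) g = La f g := by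
  refine Set.Subset.antisymm (CC2_le ?_ (CC2_snd f g)) (CC2_le ?_ (CC2_snd _ g))
  · refine ⟨a, Polynomial.C u, 0, ?_⟩
    rw [CC2_C, CC2_zero]
    ring
  · refine ⟨-(Polynomial.C u⁻¹ * a), Polynomial.C u⁻¹, 0, ?_⟩
    simp only [CC2_neg, CC2_mul, CC2_C, CC2_zero]
    linear_combination (-f) * CC2_CC (k := k) hu

theorem lb_eq (f : B k) (a : Polynomial k) {u : k} (hu : u ≠ 0) : Lb (C u * f + ev1 a (X 0)) = Lb f := by
  ext v
  constructor
  · rintro ⟨p, q, rfl⟩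
    refine ⟨p + q * a, q * Polynomial.C u, ?_⟩
    simp only [CC2_add, CC2_mul, CC2_C]
    ring
  · rintro ⟨p, q, rfl⟩
    refine ⟨p - q * (Polynomial.C u⁻¹ * a), q * Polynomial.C u⁻¹, ?_⟩
    simp only [CC2_sub, CC2_mul, CC2_C]
    linear_combination (-(ev1 q (X 0) * f)) * CC2_CC (k := k) hu

private theorem CC2_unit {a b : Polynomial k} (h : a * b = 1) : ∃ u : k, u ≠ 0 ∧ b = Polynomial.C u := by
  have h1 : IsUnit b := IsUnit.of_mul_eq_one a (by rw [mul_comm]; exact h)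
  obtain ⟨u, hu, rfl⟩ := Polynomial.isUnit_iff.1 h1
  exact ⟨u, hu.ne_zero, rfl⟩

theorem bas_rel {L : Set (B k)} {f g f' g' : B k} (h : Bas L f g) (h' : Bas L f' g') (hb : Lb f' = Lb f) :
    ∃ (u v : k) (a b c : Polynomial k), u ≠ 0 ∧ v ≠ 0 ∧ f' = C u * f + ev1 a (X 0) ∧
      g' = C v * g + ev1 b (X 0) * f + ev1 c (X 0) := by
  have hmem : ∀ f : B k, f ∈ Lb f := fun f => ⟨0, 1, by rw [CC2_zero, CC2_one]; ring⟩
  obtain ⟨a, b, hf'⟩ : f' ∈ Lb f := hb ▸ hmem f'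
  obtain ⟨a1, b1, hf⟩ : f ∈ Lb f' := hb ▸ hmem f
  have i1 : ev1 (a1 + b1 * a) (X 0) + ev1 (b1 * b - 1) (X 0) * f + ev1 0 (X 0) * g = 0 := by
    simp only [CC2_add, CC2_sub, CC2_mul, CC2_one, CC2_zero]
    have h1 : f = ev1 a1 (X 0) + ev1 b1 (X 0) * (ev1 a (X 0) + ev1 b (X 0) * f) := by rw [← hf']; exact hf
    linear_combination -h1
  have i2 := la_indep h.2 i1
  obtain ⟨u, hu, rfl⟩ := CC2_unit (sub_eq_zero.1 i2.2.1)
  have hL : La f' g' = La f g := h'.1.symm.trans h.1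
  obtain ⟨a2, b2, c, hg'⟩ : g' ∈ La f g := hL ▸ CC2_snd f' g'
  obtain ⟨a3, b3, c3, hg⟩ : g ∈ La f' g' := hL ▸ CC2_snd f g
  have i3 : ev1 (a3 + b3 * a + c3 * a2) (X 0) + ev1 (b3 * Polynomial.C u + c3 * b2) (X 0) * f +
      ev1 (c3 * c - 1) (X 0) * g = 0 := by
    simp only [CC2_add, CC2_sub, CC2_mul, CC2_one]
    have h1 : g = ev1 a3 (X 0) + ev1 b3 (X 0) * (ev1 a (X 0) + ev1 (Polynomial.C u) (X 0) * f) +
        ev1 c3 (X 0) * (ev1 a2 (X 0) + ev1 b2 (X 0) * f + ev1 c (X 0) * g) := by rw [← hf', ← hg']; exact hg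
    linear_combination -h1
  have i4 := la_indep h.2 i3
  obtain ⟨v, hv, rfl⟩ := CC2_unit (sub_eq_zero.1 i4.2.2)
  refine ⟨u, v, a, b2, a2, hu, hv, ?_, ?_⟩
  · rw [hf', CC2_C]
    ring
  · rw [hg', CC2_C]
    ring

private theorem CC2_ev (P : MvPolynomial (Fin 2) k) {n : ℕ} (hn : P.degreeOf 1 ≤ n) (f : B k) :
    ev P (X 0) f = ∑ i ∈ Finset.range (n + 1),
      ev1 (∑ m ∈ P.support.filter (fun m => m 1 = i), Polynomial.monomial (m 0) (coeff m P)) (X 0) * f ^ i := by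
  have h1 : ev P (X 0) f = ∑ m ∈ P.support, C (coeff m P) * X 0 ^ m 0 * f ^ m 1 := by
    unfold ev
    conv_lhs => rw [← support_sum_monomial_coeff P]
    rw [map_sum]
    refine Finset.sum_congr rfl fun m _ => ?_
    rw [aeval_monomial, Finsupp.prod_fintype _ _ (fun i => pow_zero _), Fin.prod_univ_two, mul_assoc]
    rfl
  rw [h1]
  have h2 : ∀ m ∈ P.support, m 1 ∈ Finset.range (n + 1) := by
    intro m hm
    rw [Finset.mem_range, Nat.lt_succ_iff]
    exact (monomial_le_degreeOf 1 hm).trans hn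
  rw [← Finset.sum_fiberwise_of_maps_to h2]
  refine Finset.sum_congr rfl fun i _ => ?_
  have h3 : ev1 (∑ m ∈ P.support.filter (fun m => m 1 = i), Polynomial.monomial (m 0) (coeff m P)) (X 0 : B k) =
      ∑ m ∈ P.support.filter (fun m => m 1 = i), ev1 (Polynomial.monomial (m 0) (coeff m P)) (X 0) := map_sum _ _ _
  rw [h3, Finset.sum_mul]
  refine Finset.sum_congr rfl fun m hm => ?_
  have h4 : ev1 (Polynomial.monomial (m 0) (coeff m P)) (X 0 : B k) = C (coeff m P) * X 0 ^ m 0 :=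
    Polynomial.aeval_monomial _
  rw [h4, (Finset.mem_filter.1 hm).2]

theorem linear_ev {P : MvPolynomial (Fin 2) k} (h : P.degreeOf 1 ≤ 1) :
    ∃ a b : Polynomial k, ∀ f : B k, ev P (X 0) f = ev1 a (X 0) + ev1 b (X 0) * f := by
  refine ⟨∑ m ∈ P.support.filter (fun m => m 1 = 0), Polynomial.monomial (m 0) (coeff m P),
    ∑ m ∈ P.support.filter (fun m => m 1 = 1), Polynomial.monomial (m 0) (coeff m P), fun f => ?_⟩
  rw [CC2_ev P h f, Finset.sum_range_succ, Finset.sum_range_one, pow_zero, mul_one, pow_one]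

/-- substitution of `f = C u * f' + ev1 a x` into a polynomial in `x, f` -/
theorem ev_subst (P : MvPolynomial (Fin 2) k) (u : k) (a : Polynomial k) :
    ∃ P' : MvPolynomial (Fin 2) k, ∀ f : B k, ev P (X 0) (C u * f + ev1 a (X 0)) = ev P' (X 0) f := by
  refine ⟨aeval ![X 0, C u * X 1 + Polynomial.aeval (X 0) a] P, fun f => ?_⟩
  unfold ev
  rw [comp_aeval_apply]
  congr 2
  funext i
  fin_cases i
  · show X 0 = aeval ![X 0, f] (X 0 : MvPolynomial (Fin 2) k)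
    rw [aeval_X]
    rfl
  · show C u * f + ev1 a (X 0) = aeval ![X 0, f] (C u * X 1 + Polynomial.aeval (X 0) a : MvPolynomial (Fin 2) k)
    rw [map_add, map_mul, aeval_X, aeval_C, ← Polynomial.aeval_algHom_apply, aeval_X]
    rfl

/-- substitution of `C α * x + C β` for `x` -/
theorem ev1_subst (a : Polynomial k) {α : k} (hα : α ≠ 0) (β : k) :
    ∃ a' : Polynomial k, (ev1 a (C α * X 0 + C β) : B k) = ev1 a' (X 0) ∧
      ∃ a'' : Polynomial k, (ev1 a'' (C α * X 0 + C β) : B k) = ev1 a (X 0) := by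
  refine ⟨a.comp (Polynomial.C α * Polynomial.X + Polynomial.C β), ?_,
    a.comp (Polynomial.C α⁻¹ * (Polynomial.X - Polynomial.C β)), ?_⟩
  · unfold ev1
    rw [Polynomial.aeval_comp]
    congr 2
    simp
  · unfold ev1
    rw [Polynomial.aeval_comp]
    congr 2
    rw [map_mul, map_sub, Polynomial.aeval_X, Polynomial.aeval_C, Polynomial.aeval_C]
    show (C α⁻¹ : B k) * (C α * X 0 + C β - C β) = X 0
    linear_combination (X 0) * CC2_CC (k := k) hα

end SU
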