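import Pool.Agent.Lib.MP_374dcb_al.CC2

/-!
# JOB CC3: good bases of a lattice

`L = La f g`, `JU x f g` (`x = X 0`). Choose `f0 ∈ L` with `D0 f0 > 0` of minimal `D0` among these (`D0_min`; `f ∈ L` has `D0 f > 0`). `f0 = ev1 a x + ev1 b x * f + ev1 c x * g`, `(b,c) ≠ 0`. Let `e = gcd b c`, `b = e b₁`, `c = e c₁`, `b₁ u + c₁ v = 1` (Bezout in `k[T]`: `EuclideanDomain.gcd_eq_gcd_ab`, or `IsCoprime`).
`f1 := ev1 b₁ x * f + ev1 c₁ x * g`, `g1 := ev1 (-v) x * f + ev1 u x * g`: determinant `b₁ u + c₁ v = 1`: `Bas L f1 g1` (`bas_uni`). `f0 = ev1 a x + ev1 e x * f1`, `D0 f1 > 0`, so `D0 f0 = D0 f1` (`D0_ev1_mul`, `D0_add_right` as `D0 (ev1 a x) = 0`).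
`D0 g1 ≥ D0 f1` by minimality. `D0 g1 ≠ D0 f1`: otherwise `lead0` gives `a, b ≠ 0` with `D0 (ev1 a x * g1 - ev1 b x * f1) < D0 f1`; the element lies in `L`, so by minimality its `D0` is `0`, it is in `k[x]` (`D0_zero`), against `la_indep`.
For `v = ev1 a x + ev1 b x * f1 + ev1 c x * g1` with `c ≠ 0`: `D0 (ev1 c x * g1) = D0 g1 > D0` of the rest: `D0 v = D0 g1`; `c = 0` iff `v ∈ Lb f1`.
`cen L = Lb f1`: `v ∈ Lb f1` has `D0 v ≤ D0 f1 ≤ D0 u` for all `u ∈ L` with `D0 u ≠ 0`; conversely `v ∈ cen L` has `D0 v ≤ D0 f1 < D0 g1`, so `v ∈ Lb f1`.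
`S0 L = D0 f1 + D0 g1`: the set is bounded below by `0`; for any basis `(f',g')` of `L`: `D0 f', D0 g' ≥ D0 f1` (`D0_JU`, minimality), and not both are in `Lb f1` (otherwise `g1 ∈ L = La f' g' ⊆ Lb f1`), so one of them has `D0 = D0 g1`: the sum is `≥ D0 f1 + D0 g1`.
-/

set_option autoImplicit false
set_option linter.unusedSectionVars false

open MvPolynomial

namespace SU

universe u
variable {k : Type u} [Field k]

private theorem CC3_add (a b : Polynomial k) (f : B k) : ev1 (a + b) f = ev1 a f + ev1 b f :=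
  map_add (Polynomial.aeval f) a b

private theorem CC3_mul (a b : Polynomial k) (f : B k) : ev1 (a * b) f = ev1 a f * ev1 b f :=
  map_mul (Polynomial.aeval f) a b

private theorem CC3_neg (a : Polynomial k) (f : B k) : ev1 (-a) f = -ev1 a f :=
  map_neg (Polynomial.aeval f) a

private theorem CC3_zero (f : B k) : ev1 0 f = 0 := map_zero (Polynomial.aeval f)

private theorem CC3_one (f : B k) : ev1 1 f = 1 := map_one (Polynomial.aeval f)

private theorem CC3_fst (f g : B k) : f ∈ La f g :=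
  ⟨0, 1, 0, by rw [CC3_zero, CC3_one]; ring⟩

private theorem CC3_snd (f g : B k) : g ∈ La f g :=
  ⟨0, 0, 1, by rw [CC3_zero, CC3_one]; ring⟩

private theorem CC3_bdd (L : Set (B k)) : BddBelow {s | ∃ f g : B k, Bas L f g ∧ s = D0 f + D0 g} := by
  refine ⟨0, ?_⟩
  rintro s ⟨f, g, -, rfl⟩
  exact add_nonneg (D0_nonneg f) (D0_nonneg g)

/-- A basis with first vector of minimal positive degree. -/
private theorem CC3_min {L : Set (B k)} {f g : B k} (h : Bas L f g) :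
    ∃ f1 g1 : B k, Bas L f1 g1 ∧ ∀ v ∈ L, 0 < D0 v → D0 f1 ≤ D0 v := by
  have hS : {v | v ∈ L ∧ 0 < D0 v}.Nonempty := ⟨f, by rw [h.1]; exact CC3_fst f g, (D0_JU h.2).1⟩
  obtain ⟨f0, ⟨hf0, hpos⟩, hmin⟩ := D0_min hS
  rw [h.1] at hf0
  obtain ⟨a, b, c, hf0⟩ := hf0
  have hbc : b ≠ 0 ∨ c ≠ 0 := by
    by_contra hcon
    push Not at hcon
    rw [hcon.1, hcon.2, CC3_zero, zero_mul, zero_mul, add_zero, add_zero] at hf0
    rw [hf0, D0_ev1] at hpos
    exact lt_irrefl _ hpos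
  classical
  have he0 : EuclideanDomain.gcd b c ≠ 0 := by
    intro h0
    rw [EuclideanDomain.gcd_eq_zero_iff] at h0
    rcases hbc with h1 | h1
    · exact h1 h0.1
    · exact h1 h0.2
  obtain ⟨b1, hb1⟩ := EuclideanDomain.gcd_dvd_left b c
  obtain ⟨c1, hc1⟩ := EuclideanDomain.gcd_dvd_right b c
  have hbez := EuclideanDomain.gcd_eq_gcd_ab b c
  generalize EuclideanDomain.gcd b c = e at he0 hb1 hc1 hbez
  generalize EuclideanDomain.gcdA b c = u at hbez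
  generalize EuclideanDomain.gcdB b c = v at hbez
  have hdet : b1 * u - c1 * (-v) = Polynomial.C 1 := by
    rw [Polynomial.C_1]
    refine mul_left_cancel₀ he0 ?_
    rw [mul_one]
    conv_rhs => rw [hbez, hb1, hc1]
    ring
  have hB := bas_uni h 0 b1 c1 0 (-v) u one_ne_zero hdet
  refine ⟨_, _, hB, fun w hw hw0 => ?_⟩
  have h1 : D0 f0 = D0 (ev1 0 (X 0) + ev1 b1 (X 0) * f + ev1 c1 (X 0) * g) := by
    have h2 : f0 = ev1 a (X 0) + ev1 e (X 0) * (ev1 0 (X 0) + ev1 b1 (X 0) * f + ev1 c1 (X 0) * g) := by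
      rw [hf0, hb1, hc1, CC3_mul, CC3_mul, CC3_zero]
      ring
    have h3 := (D0_JU hB.2).1
    rw [h2, D0_add_right, D0_ev1_mul he0]
    rw [D0_ev1, D0_ev1_mul he0]
    exact h3
  rw [← h1]
  exact hmin w ⟨hw, hw0⟩

theorem good0 {L : Set (B k)} {f g : B k} (h : Bas L f g) :
    ∃ f1 g1 : B k, Bas L f1 g1 ∧ cen L = Lb f1 ∧ 0 < D0 f1 ∧ D0 f1 < D0 g1 ∧ S0 L = D0 f1 + D0 g1 ∧
      ∀ v ∈ L, v ∉ Lb f1 → D0 v = D0 g1 := by
  obtain ⟨f1, g1, hB, hmin⟩ := CC3_min h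
  obtain ⟨hf, hg⟩ := D0_JU hB.2
  have hfL : f1 ∈ L := by rw [hB.1]; exact CC3_fst f1 g1
  have hgL : g1 ∈ L := by rw [hB.1]; exact CC3_snd f1 g1
  have hlt : D0 f1 < D0 g1 := by
    refine lt_of_le_of_ne (hmin g1 hgL hg) fun heq => ?_
    obtain ⟨a, b, ha, -, hw⟩ := lead0 heq.symm hf
    have hwL : ev1 a (X 0) * g1 - ev1 b (X 0) * f1 ∈ L := by
      rw [hB.1]
      exact ⟨0, -b, a, by rw [CC3_zero, CC3_neg]; ring⟩
    have hw0 : D0 (ev1 a (X 0) * g1 - ev1 b (X 0) * f1) = 0 := by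
      by_contra hne
      exact absurd (hmin _ hwL (lt_of_le_of_ne (D0_nonneg _) (Ne.symm hne))) (not_le.2 hw)
    obtain ⟨q, hq⟩ := D0_zero hw0
    refine ha (la_indep hB.2 (a := -q) (b := -b) (c := a) ?_).2.2
    rw [CC3_neg, CC3_neg, ← hq]
    ring
  have h6 : ∀ v ∈ L, v ∉ Lb f1 → D0 v = D0 g1 := by
    intro v hv hvn
    rw [hB.1] at hv
    obtain ⟨a, b, c, rfl⟩ := hv
    have hc : c ≠ 0 := by
      rintro rfl
      exact hvn ⟨a, b, by rw [CC3_zero]; ring⟩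
    rw [D0_add_right, D0_ev1_mul hc]
    rw [D0_ev1_mul hc]
    refine lt_of_le_of_lt (D0_add_le _ _) (max_lt ?_ ?_)
    · rw [D0_ev1]
      exact hg
    · exact lt_of_le_of_lt (D0_ev1_mul_le _ _) hlt
  have h7 : ∀ v ∈ Lb f1, D0 v ≤ D0 f1 := by
    rintro v ⟨a, b, rfl⟩
    refine (D0_add_le _ _).trans (max_le ?_ (D0_ev1_mul_le _ _))
    rw [D0_ev1]
    exact hf.le
  refine ⟨f1, g1, hB, ?_, hf, hlt, ?_, h6⟩
  · ext v
    constructor
    · rintro ⟨hv, h1⟩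
      by_contra hvn
      rcases h1 f1 hfL with h2 | h2
      · exact hf.ne' h2
      · rw [h6 v hv hvn] at h2
        exact absurd h2 (not_le.2 hlt)
    · intro hv
      refine ⟨?_, fun u hu => ?_⟩
      · obtain ⟨a, b, rfl⟩ := hv
        rw [hB.1]
        exact ⟨a, b, 0, by rw [CC3_zero]; ring⟩
      · rcases (D0_nonneg u).eq_or_lt with h1 | h1
        · exact Or.inl h1.symm
        · exact Or.inr ((h7 v hv).trans (hmin u hu h1))
  · refine le_antisymm (csInf_le (CC3_bdd L) ⟨f1, g1, hB, rfl⟩) (le_csInf ⟨_, f1, g1, hB, rfl⟩ ?_)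
    rintro s ⟨f', g', hB', rfl⟩
    obtain ⟨hf', hg'⟩ := D0_JU hB'.2
    have hf'L : f' ∈ L := by rw [hB'.1]; exact CC3_fst f' g'
    have hg'L : g' ∈ L := by rw [hB'.1]; exact CC3_snd f' g'
    by_cases h1 : f' ∈ Lb f1
    · by_cases h2 : g' ∈ Lb f1
      · exfalso
        obtain ⟨a, b, ha⟩ := h1
        obtain ⟨a', b', ha'⟩ := h2
        rw [hB'.1] at hgL
        obtain ⟨p, q, r, hp⟩ := hgL
        have h3 : g1 ∈ Lb f1 := by
          refine ⟨p + q * a + r * a', q * b + r * b', ?_⟩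
          rw [CC3_add, CC3_add, CC3_add, CC3_mul, CC3_mul, CC3_mul, CC3_mul]
          conv_lhs => rw [hp, ha, ha']
          ring
        exact absurd (h7 g1 h3) (not_le.2 hlt)
      · rw [h6 g' hg'L h2]
        exact add_le_add (hmin f' hf'L hf') le_rfl
    · rw [h6 f' hf'L h1, add_comm]
      exact add_le_add le_rfl (hmin g' hg'L hg')

theorem S0_le {L : Set (B k)} {f g : B k} (h : Bas L f g) : S0 L ≤ D0 f + D0 g := by
  exact csInf_le (CC3_bdd L) ⟨f, g, h, rfl⟩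

end SU
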