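import Pool.Agent.Lib.MP_374dcb_al.CC3

/-!
# JOB CC4: weak neighbours have the center `cen L`

`keyK`: `Bas L f g`, `L' = La f (g + ev P x f)`, `L' ≠ L`, `S0 L' ≤ S0 L`. Claim: `cen L = Lb f`. Let `(f1,g1)` be the good basis of `L` (`good0`).
If `f ∈ Lb f1`: `f = ev1 a x + ev1 b x * f1`; since `(f,g)` is a basis, `f1 = ev1 a' x + ev1 b' x * f + ev1 c' x * g`, so `f = .. + ev1 (b b') x * f + ev1 (b c') x * g`: `b b' = 1`, `b = C u`: `Lb f = Lb f1 = cen L` (`lb_eq`). So suppose `f ∉ Lb f1`; then `D0 f = D0 g1 =: r₂ > r₁ := D0 f1`.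
`n := P.degreeOf 1`. If `n ≤ 1` then `L' = L` (`linear_ev`, `la_el`), contradiction. So `n ≥ 2`, `D0 (ev P x f) = n r₂` (`D0_ev`). Write `f1 = ev1 a' x + ev1 b' x * f + ev1 c' x * g`, `c' ≠ 0` (otherwise `D0 f1 = D0 f`). Let `v = ev1 a x + ev1 b x * f + ev1 c x * (g + ev P x f) ∈ L'`, `c ≠ 0`:
`ev1 c' x * v = (polynomial in x) + (polynomial in x) * f + ev1 c x * f1 + ev1 (c c') x * ev P x f` has `D0 = n r₂` (the others are `≤ r₂ < n r₂`), so `D0 v = n r₂`. So the elements of `L'` have `D0 ∈ {0, r₂, n r₂}` and those with `D0 ≤ r₂` are in `Lb f`. The good basis `(f2,g2)` of `L'`: not both in `Lb f`: so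
`S0 L' = D0 f2 + D0 g2 ≥ r₂ + n r₂ > r₁ + r₂ = S0 L`, contradiction.
`adj0_symm`: `L = La f ((g + ev P x f) + ev (-P) x f)`.
`keyC`: if `L' ≠ L`, apply `keyK` to `L, L'` and to `L', L` (with the same `f`): `cen L = Lb f = cen L'`.
`keyR`: the cases `L' = L` or `L'' = L` are immediate (`adj0_symm`). Otherwise `L' = La f (g + ev P x f)`, `L'' = La f' (g' + ev P' x f')`, `Lb f = cen L = Lb f'`: `bas_rel`: `f' = C u * f + ev1 a x`, `g' = C v * g + ev1 b x * f + ev1 c x`. `L'' = La f' (g' + ev P' x f') = La f (C v * g + .. + ev P'' x f) = La f (g + ev P''' x f)`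
 (`la_fst`, `ev_subst`, `la_el`), so `L'' = La f ((g + ev P x f) + ev (P''' - P) x f)`: adjacent to `L'`.
-/

set_option autoImplicit false

open MvPolynomial

namespace SU

universe u
variable {k : Type u} [Field k]

private theorem cc4_ev1_C (u : k) (f : B k) : ev1 (Polynomial.C u) f = C u := by
  unfold ev1
  rw [Polynomial.aeval_C]
  rfl

private theorem cc4_ev1_mul (a b : Polynomial k) (f : B k) : ev1 (a * b) f = ev1 a f * ev1 b f := by
  unfold ev1
  rw [map_mul]

private theorem cc4_ev1_add (a b : Polynomial k) (f : B k) : ev1 (a + b) f = ev1 a f + ev1 b f := by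
  unfold ev1
  rw [map_add]

private theorem cc4_ev1_sub (a b : Polynomial k) (f : B k) : ev1 (a - b) f = ev1 a f - ev1 b f := by
  unfold ev1
  rw [map_sub]

private theorem cc4_ev1_one (f : B k) : ev1 (1 : Polynomial k) f = 1 := by
  unfold ev1
  rw [map_one]

private theorem cc4_ev1_zero (f : B k) : ev1 (0 : Polynomial k) f = 0 := by
  unfold ev1
  rw [map_zero]

private theorem cc4_ev_neg (P : MvPolynomial (Fin 2) k) (f g : B k) : ev (-P) f g = -ev P f g := by
  unfold ev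
  rw [map_neg]

private theorem cc4_ev_sub (P Q : MvPolynomial (Fin 2) k) (f g : B k) :
    ev (P - Q) f g = ev P f g - ev Q f g := by
  unfold ev
  rw [map_sub]

private theorem cc4_ev_C_mul (c : k) (P : MvPolynomial (Fin 2) k) (f g : B k) :
    ev (C c * P) f g = C c * ev P f g := by
  unfold ev
  rw [map_mul, ← algebraMap_eq, AlgHom.commutes, algebraMap_eq]

private theorem cc4_fst_mem (f g : B k) : f ∈ La f g :=
  ⟨0, 1, 0, by rw [cc4_ev1_zero, cc4_ev1_one]; ring⟩

private theorem cc4_snd_mem (f g : B k) : g ∈ La f g :=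
  ⟨0, 0, 1, by rw [cc4_ev1_zero, cc4_ev1_one]; ring⟩

theorem keyK {L : Set (B k)} {f g : B k} {P : MvPolynomial (Fin 2) k} (h : Bas L f g)
    (hne : La f (g + ev P (X 0) f) ≠ L) (hS : S0 (La f (g + ev P (X 0) f)) ≤ S0 L) : cen L = Lb f := by
  obtain ⟨f1, g1, hb1, hcen, h01, h12, hS0, hout⟩ := good0 h
  have hLfg : L = La f g := h.1
  have hfL : f ∈ L := by rw [hLfg]; exact cc4_fst_mem f g
  have hf1L : f1 ∈ La f g := by
    rw [← hLfg, hb1.1]
    exact cc4_fst_mem f1 g1
  obtain ⟨a', b', c', hf1⟩ := hf1L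
  by_cases hf : f ∈ Lb f1
  · obtain ⟨a, b, hfab⟩ := hf
    have hrel : ev1 (a + b * a') (X 0) + ev1 (b * b' - 1) (X 0) * f + ev1 (b * c') (X 0) * g = 0 := by
      rw [cc4_ev1_add, cc4_ev1_sub, cc4_ev1_mul, cc4_ev1_mul, cc4_ev1_mul, cc4_ev1_one]
      have : f = ev1 a (X 0) + ev1 b (X 0) * (ev1 a' (X 0) + ev1 b' (X 0) * f + ev1 c' (X 0) * g) := by
        rw [← hf1]
        exact hfab
      linear_combination -this
    obtain ⟨-, h2, -⟩ := la_indep h.2 hrel
    have hunit : IsUnit b := IsUnit.of_mul_eq_one b' (sub_eq_zero.1 h2)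
    obtain ⟨u, hu, hub⟩ := Polynomial.isUnit_iff.1 hunit
    rw [hcen, hfab, ← hub, cc4_ev1_C, add_comm (ev1 a (X 0))]
    exact (lb_eq f1 a hu.ne_zero).symm
  · exfalso
    have hr2 : D0 f = D0 g1 := hout f hfL hf
    have hf0 : 0 < D0 f := by rw [hr2]; exact h01.trans h12
    have hn : 2 ≤ P.degreeOf 1 := by
      by_contra hn
      have hn1 : P.degreeOf 1 ≤ 1 := by omega
      obtain ⟨a, b, hab⟩ := linear_ev hn1
      apply hne
      rw [hab f, hLfg]
      have := la_el f g a b (one_ne_zero : (1 : k) ≠ 0)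
      rw [← this]
      congr 1
      rw [C_1]
      ring
    have hn' : (2 : ℝ) ≤ (P.degreeOf 1 : ℝ) := by exact_mod_cast hn
    have hDP : D0 (ev P (X 0) f) = P.degreeOf 1 * D0 f := D0_ev hf0 P
    have hbf : ∀ a b : Polynomial k, b ≠ 0 → D0 (ev1 a (X 0) + ev1 b (X 0) * f) = D0 f := by
      intro a b hb
      rw [D0_add_right, D0_ev1_mul hb]
      rw [D0_ev1, D0_ev1_mul hb]
      exact hf0
    have hc' : c' ≠ 0 := by
      intro hc0
      rw [hc0, cc4_ev1_zero, zero_mul, add_zero] at hf1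
      by_cases hb0 : b' = 0
      · rw [hb0, cc4_ev1_zero, zero_mul, add_zero] at hf1
        rw [hf1, D0_ev1] at h01
        exact lt_irrefl _ h01
      · have := hbf a' b' hb0
        rw [← hf1] at this
        linarith
    -- the values of the degree on the new lattice
    have claimA : ∀ a b c : Polynomial k, c ≠ 0 →
        D0 (ev1 a (X 0) + ev1 b (X 0) * f + ev1 c (X 0) * (g + ev P (X 0) f)) =
          P.degreeOf 1 * D0 f := by
      intro a b c hc
      have hlast : D0 (ev1 (c * c') (X 0) * ev P (X 0) f) = P.degreeOf 1 * D0 f := by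
        rw [D0_ev1_mul (mul_ne_zero hc hc'), hDP]
      have hbr : D0 (ev1 (c' * a - c * a') (X 0) + ev1 (c' * b - c * b') (X 0) * f +
          ev1 c (X 0) * f1) ≤ D0 f := by
        refine (D0_add_le _ _).trans (max_le ((D0_add_le _ _).trans (max_le ?_ ?_)) ?_)
        · rw [D0_ev1]
          exact hf0.le
        · exact D0_ev1_mul_le _ _
        · exact (D0_ev1_mul_le _ _).trans (by linarith)
      have hsum : ev1 c' (X 0) * (ev1 a (X 0) + ev1 b (X 0) * f + ev1 c (X 0) * (g + ev P (X 0) f)) =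
          (ev1 (c' * a - c * a') (X 0) + ev1 (c' * b - c * b') (X 0) * f + ev1 c (X 0) * f1) +
            ev1 (c * c') (X 0) * ev P (X 0) f := by
        rw [cc4_ev1_sub, cc4_ev1_sub, cc4_ev1_mul, cc4_ev1_mul, cc4_ev1_mul, cc4_ev1_mul,
          cc4_ev1_mul]
        linear_combination (-ev1 c (X 0)) * hf1
      rw [← D0_ev1_mul hc', hsum, D0_add_right, hlast]
      rw [hlast]
      nlinarith
    have claimB : ∀ v ∈ La f (g + ev P (X 0) f), 0 < D0 v → D0 f ≤ D0 v := by
      rintro v ⟨a, b, c, rfl⟩ hv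
      by_cases hc : c = 0
      · rw [hc, cc4_ev1_zero, zero_mul, add_zero] at hv ⊢
        by_cases hb : b = 0
        · rw [hb, cc4_ev1_zero, zero_mul, add_zero, D0_ev1] at hv
          exact absurd hv (lt_irrefl _)
        · rw [hbf a b hb]
      · rw [claimA a b c hc]
        nlinarith
    have hb' : Bas (La f (g + ev P (X 0) f)) f (g + ev P (X 0) f) := bas_el h P
    obtain ⟨f2, g2, hb2, -, h02, h22, hS2, -⟩ := good0 hb'
    have hf2 : f2 ∈ La f (g + ev P (X 0) f) := by
      have := cc4_fst_mem f2 g2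
      rwa [← hb2.1] at this
    have hg2 : g2 ∈ La f (g + ev P (X 0) f) := by
      have := cc4_snd_mem f2 g2
      rwa [← hb2.1] at this
    have hF := claimB f2 hf2 h02
    have hG := claimB g2 hg2 (h02.trans h22)
    obtain ⟨a2, b2, c2, hf2e⟩ := hf2
    obtain ⟨a3, b3, c3, hg2e⟩ := hg2
    have hnot : c2 ≠ 0 ∨ c3 ≠ 0 := by
      by_contra hcon
      have h1 : c2 = 0 := by
        by_contra h1
        exact hcon (Or.inl h1)
      have h2 : c3 = 0 := by
        by_contra h2
        exact hcon (Or.inr h2)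
      have hg' : g + ev P (X 0) f ∈ La f2 g2 := by
        have := cc4_snd_mem f (g + ev P (X 0) f)
        rwa [hb2.1] at this
      obtain ⟨a4, b4, c4, h4⟩ := hg'
      rw [h1, cc4_ev1_zero, zero_mul, add_zero] at hf2e
      rw [h2, cc4_ev1_zero, zero_mul, add_zero] at hg2e
      have hrel : ev1 (a4 + b4 * a2 + c4 * a3) (X 0) + ev1 (b4 * b2 + c4 * b3) (X 0) * f +
          ev1 (-1) (X 0) * (g + ev P (X 0) f) = 0 := by
        have hm : ev1 (-1 : Polynomial k) (X 0 : B k) = -1 := by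
          unfold ev1
          rw [map_neg, map_one]
        rw [hm, cc4_ev1_add, cc4_ev1_add, cc4_ev1_add, cc4_ev1_mul, cc4_ev1_mul, cc4_ev1_mul,
          cc4_ev1_mul]
        rw [hf2e, hg2e] at h4
        linear_combination -h4
      obtain ⟨-, -, h5⟩ := la_indep hb'.2 hrel
      exact one_ne_zero (neg_eq_zero.1 h5)
    rw [hS2, hS0] at hS
    rcases hnot with hc | hc
    · have := claimA a2 b2 c2 hc
      rw [← hf2e] at this
      nlinarith
    · have := claimA a3 b3 c3 hc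
      rw [← hg2e] at this
      nlinarith

theorem adj0_symm {L L' : Set (B k)} (h : Adj0 L L') : Adj0 L' L := by
  obtain ⟨f, g, P, hb, rfl⟩ := h
  refine ⟨f, g + ev P (X 0) f, -P, bas_el hb P, ?_⟩
  rw [cc4_ev_neg, add_neg_cancel_right]
  exact hb.1

theorem keyC {L L' : Set (B k)} (h : L' = L ∨ Adj0 L L') (hS : S0 L' = S0 L) : cen L' = cen L := by
  rcases h with rfl | ⟨f, g, P, hb, rfl⟩
  · rfl
  by_cases hne : La f (g + ev P (X 0) f) = L
  · rw [hne]
  have h1 := keyK hb hne hS.le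
  have hL : La f (g + ev P (X 0) f + ev (-P) (X 0) f) = L := by
    rw [cc4_ev_neg, add_neg_cancel_right]
    exact hb.1.symm
  have h2 := keyK (P := -P) (bas_el hb P) (by rw [hL]; exact fun h => hne h.symm)
    (by rw [hL]; exact hS.ge)
  rw [h1, h2]

theorem keyR {L L' L'' : Set (B k)} (h' : L' = L ∨ Adj0 L L') (h'' : L'' = L ∨ Adj0 L L'')
    (hS' : S0 L' ≤ S0 L) (hS'' : S0 L'' ≤ S0 L) : L'' = L' ∨ Adj0 L' L'' := by
  by_cases e' : L' = L
  · rw [e']
    exact h''
  by_cases e'' : L'' = L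
  · rw [e'']
    rcases h' with h' | h'
    · exact absurd h' e'
    · exact Or.inr (adj0_symm h')
  rcases h' with h' | ⟨f, g, P, hb, rfl⟩
  · exact absurd h' e'
  rcases h'' with h'' | ⟨f', g', P', hb', rfl⟩
  · exact absurd h'' e''
  have h1 := keyK hb e' hS'
  have h2 := keyK hb' e'' hS''
  obtain ⟨u, v, a, b, c, hu, hv, hf', hg'⟩ := bas_rel hb hb' (h2.symm.trans h1)
  obtain ⟨P2, hP2⟩ := ev_subst P' u a
  have hL'' : La f' (g' + ev P' (X 0) f') = La f (g + ev (C v⁻¹ * P2) (X 0) f) := by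
    rw [hf', la_fst f _ a hu, hP2 f, hg', cc4_ev_C_mul]
    have := la_el f (g + C v⁻¹ * ev P2 (X 0) f) c b hv
    rw [← this]
    congr 1
    have hvv : (C v * C v⁻¹ : B k) = 1 := by
      rw [← C_mul, mul_inv_cancel₀ hv, C_1]
    linear_combination (-ev P2 (X 0) f) * hvv
  right
  refine ⟨f, g + ev P (X 0) f, C v⁻¹ * P2 - P, bas_el hb P, ?_⟩
  rw [hL'', cc4_ev_sub]
  congr 1
  ring

end SU
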