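import Pool.Agent.Lib.MP_374dcb_al.CC4
import Pool.Agent.Lib.MP_374dcb_al.AutG

/-!
# JOB CC7: the lattices of automorphisms

`w ∈ G_1`: `w (X 0) = C α * X 0 + C β`, `α ≠ 0` (`mem_G1`). `w (ev1 a (X 0)) = ev1 a (C α * X 0 + C β)`, and every `ev1 a (X 0)` is of this form (`ev1_subst`). So `w '' La (f) (g) = La (w f) (w g)` (`la_image`), `w '' Lb f = Lb (w f)`.
`lw_bas`: `La (w X1) (w X2)`; `JU`: `aut_JU w` gives `det3 (w X0) (w X1) (w X2) = C α * det3 (X 0) (w X1) (w X2)`. `lw_mul`: `Lw (w * h) = w '' Lw h` (`Set.image_image`).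
`lw_G3`: for `h ∈ G_1 ∩ G_3`: `Lw h = La (h X1) (h X2) = La X1 X2`: `h X1 = C a X0 + C b X1 + C c X2 + C e`, `h X2 = ...`, `h X0 = C α X0 + C β`; the matrix `(b,c;b',c')` is invertible (`aut_JU` / `lw_bas`: determinant), so `bas_uni` for `La X1 X2` with constants. Hence `Lw (w * h) = w '' Lw h = w '' La X1 X2 = Lw w`.
`lw_G2`: for `h ∈ G_1 ∩ G_2`: `h X1 = C a X0 + C b X1 + C c` with `b ≠ 0` (`coord_lin'`: the linear part of `h X1` is not a multiple of `X 0`, and it has no `X 2`), `h X2 = C e X2 + ev P X0 X1` (`G2_form`), so `Lw h = La X1 (X2 + ev P' X0 X1)` (`la_fst`, `la_el`), `P' = e⁻¹ P`.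
 `Lw (w * h) = w '' La X1 (X2 + ev P' X0 X1) = La (w X1) (w X2 + ev P' (w X0) (w X1))` and `ev P' (w X0) (w X1) = ev P'' X0 (w X1)` (substitution of `C α X0 + C β` for `X 0` in the first variable): `Adj0 (Lw w) (Lw (w*h))`.
`D0_sc`: the scaling `s` does not change the support (`sc_coeff`, `2 ^ n ≠ 0`). `S0_sc`: `L ↦ s '' L` maps bases to bases (`s` is in `G_1`; also `s⁻¹`), preserves `D0`. `cen_sc`: immediate from `D0_sc`.
-/

set_option autoImplicit false
set_option linter.unusedSectionVars false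

open MvPolynomial

namespace SU

universe u
variable {k : Type u} [Field k] [CharZero k]

private theorem cc7_ev1_zero (f : B k) : ev1 (0 : Polynomial k) f = 0 := by
  unfold ev1
  rw [map_zero]

private theorem cc7_ev1_lin (a e : k) (f : B k) :
    ev1 (Polynomial.C a * Polynomial.X + Polynomial.C e) f = C a * f + C e := by
  unfold ev1
  rw [map_add, map_mul, Polynomial.aeval_C, Polynomial.aeval_X, Polynomial.aeval_C]
  rfl

private theorem cc7_ev1_C (a : k) (f : B k) : ev1 (Polynomial.C a) f = C a := by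
  unfold ev1
  rw [Polynomial.aeval_C]
  rfl

private theorem cc7_ev_C_mul (c : k) (P : MvPolynomial (Fin 2) k) (f g : B k) :
    ev (C c * P) f g = C c * ev P f g := by
  unfold ev
  rw [map_mul, ← algebraMap_eq, AlgHom.commutes, algebraMap_eq]

private theorem cc7_chain (φ : Au k) (i : Fin 3) (f : B k) :
    pderiv i (φ f) = ∑ j, φ (pderiv j f) * pderiv i (φ (X j)) := by
  induction f using MvPolynomial.induction_on with
  | C a =>
    have h : φ (C a) = C a := φ.commutes a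
    rw [h, pderiv_C]
    refine (Finset.sum_eq_zero fun j _ => ?_).symm
    rw [pderiv_C, map_zero, zero_mul]
  | add p q hp hq =>
    rw [map_add, map_add, hp, hq, ← Finset.sum_add_distrib]
    refine Finset.sum_congr rfl fun j _ => ?_
    rw [map_add, map_add, add_mul]
  | mul_X p l hp =>
    have h1 : ∀ j, φ (pderiv j (p * X l)) * pderiv i (φ (X j)) =
        φ (X l) * (φ (pderiv j p) * pderiv i (φ (X j))) +
          (if l = j then φ p * pderiv i (φ (X j)) else 0) := by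
      intro j
      rw [pderiv_mul, map_add, map_mul, map_mul, pderiv_X, Pi.single_apply]
      by_cases hj : l = j
      · rw [if_pos hj, if_pos hj, map_one]
        ring
      · rw [if_neg hj, if_neg hj, map_zero]
        ring
    rw [Finset.sum_congr rfl fun j _ => h1 j, Finset.sum_add_distrib, ← Finset.mul_sum, ← hp,
      Finset.sum_ite_eq Finset.univ l, if_pos (Finset.mem_univ l), map_mul, pderiv_mul]
    ring

private noncomputable def cc7_M (f : Fin 3 → B k) : Matrix (Fin 3) (Fin 3) (B k) :=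
  Matrix.of fun i j => pderiv i (f j)

private theorem cc7_det3 (f : Fin 3 → B k) :
    det3 (f 0) (f 1) (f 2) = (cc7_M f).det * (X 0 * X 1 * X 2) := by
  rw [Matrix.det_fin_three]
  show E 0 (f 0) * J 1 2 (f 1) (f 2) + E 1 (f 0) * J 2 0 (f 1) (f 2) +
    E 2 (f 0) * J 0 1 (f 1) (f 2) = _
  unfold J E cc7_M
  simp only [Matrix.of_apply]
  ring

private theorem cc7_X_ne : (X 0 * X 1 * X 2 : B k) ≠ 0 :=
  mul_ne_zero (mul_ne_zero (X_ne_zero _) (X_ne_zero _)) (X_ne_zero _)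

private theorem cc7_det (f : Fin 3 → B k) (h : JU (f 0) (f 1) (f 2)) :
    ∃ c : k, c ≠ 0 ∧ (cc7_M f).det = C c := by
  obtain ⟨c, hc, h⟩ := h
  rw [cc7_det3] at h
  exact ⟨c, hc, mul_right_cancel₀ cc7_X_ne h⟩

private theorem cc7_JU (φ : Au k) {f g h : B k} (H : JU f g h) : JU (φ f) (φ g) (φ h) := by
  obtain ⟨c, hc, hdet⟩ := cc7_det ![f, g, h] H
  obtain ⟨c', hc', hdet'⟩ := cc7_det (fun j => φ (X j)) (aut_JU φ)
  have e : cc7_M (fun j => φ ((![f, g, h] : Fin 3 → B k) j)) =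
      cc7_M (fun j => φ (X j)) * (cc7_M ![f, g, h]).map (φ : B k → B k) := by
    ext1 i l
    rw [Matrix.mul_apply]
    show pderiv i (φ ((![f, g, h] : Fin 3 → B k) l)) = _
    rw [cc7_chain]
    exact Finset.sum_congr rfl fun j _ => mul_comm _ _
  have e2 : ((cc7_M ![f, g, h]).map (φ : B k → B k)).det = C c := by
    have h1 := RingHom.map_det (φ.toRingEquiv.toRingHom : B k →+* B k) (cc7_M ![f, g, h])
    rw [hdet] at h1
    have h2 : (φ.toRingEquiv.toRingHom : B k →+* B k) (C c) = C c := φ.commutes c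
    rw [h2] at h1
    exact h1.symm
  refine ⟨c' * c, mul_ne_zero hc' hc, ?_⟩
  have h1 := cc7_det3 (fun j => φ ((![f, g, h] : Fin 3 → B k) j))
  rw [e, Matrix.det_mul, hdet', e2, ← C_mul] at h1
  exact h1

private theorem cc7_JU0 {α β : k} (hα : α ≠ 0) {g h : B k} (H : JU (C α * X 0 + C β) g h) :
    JU (X 0) g h := by
  obtain ⟨c, hc, H1⟩ := H
  refine ⟨α⁻¹ * c, mul_ne_zero (inv_ne_zero hα) hc, ?_⟩
  have e : det3 (C α * X 0 + C β) g h = C α * det3 (X 0) g h := by
    unfold det3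
    rw [E_add, E_add, E_add, E_C_mul, E_C_mul, E_C_mul, E_C, E_C, E_C]
    ring
  have hh : C α⁻¹ * det3 (C α * X 0 + C β) g h = C α⁻¹ * (C c * (X 0 * X 1 * X 2)) := by rw [H1]
  have hvv : (C α⁻¹ * C α : B k) = 1 := by
    rw [← C_mul, inv_mul_cancel₀ hα, C_1]
  rw [e] at hh
  rw [C_mul]
  linear_combination hh - (det3 (X 0) g h) * hvv

theorem la_image {w : Au k} (hw : w ∈ flagStab k 3 0) (f g : B k) : w '' La f g = La (w f) (w g) := by
  obtain ⟨α, β, hα, hw0⟩ := (mem_G1 w).1 hw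
  ext v
  constructor
  · rintro ⟨u, ⟨a, b, c, rfl⟩, rfl⟩
    obtain ⟨a', ha', -⟩ := ev1_subst a hα β
    obtain ⟨b', hb', -⟩ := ev1_subst b hα β
    obtain ⟨c', hc', -⟩ := ev1_subst c hα β
    refine ⟨a', b', c', ?_⟩
    rw [map_add, map_add, map_mul, map_mul, ev1_map, ev1_map, ev1_map, hw0, ha', hb', hc']
  · rintro ⟨a, b, c, rfl⟩
    obtain ⟨-, -, a', ha'⟩ := ev1_subst a hα β
    obtain ⟨-, -, b', hb'⟩ := ev1_subst b hα β
    obtain ⟨-, -, c', hc'⟩ := ev1_subst c hα β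
    refine ⟨ev1 a' (X 0) + ev1 b' (X 0) * f + ev1 c' (X 0) * g, ⟨a', b', c', rfl⟩, ?_⟩
    rw [map_add, map_add, map_mul, map_mul, ev1_map, ev1_map, ev1_map, hw0, ha', hb', hc']

theorem lb_image {w : Au k} (hw : w ∈ flagStab k 3 0) (f : B k) : w '' Lb f = Lb (w f) := by
  obtain ⟨α, β, hα, hw0⟩ := (mem_G1 w).1 hw
  ext v
  constructor
  · rintro ⟨u, ⟨a, b, rfl⟩, rfl⟩
    obtain ⟨a', ha', -⟩ := ev1_subst a hα β
    obtain ⟨b', hb', -⟩ := ev1_subst b hα β
    refine ⟨a', b', ?_⟩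
    rw [map_add, map_mul, ev1_map, ev1_map, hw0, ha', hb']
  · rintro ⟨a, b, rfl⟩
    obtain ⟨-, -, a', ha'⟩ := ev1_subst a hα β
    obtain ⟨-, -, b', hb'⟩ := ev1_subst b hα β
    refine ⟨ev1 a' (X 0) + ev1 b' (X 0) * f, ⟨a', b', rfl⟩, ?_⟩
    rw [map_add, map_mul, ev1_map, ev1_map, hw0, ha', hb']

private theorem cc7_bas_image {w : Au k} (hw : w ∈ flagStab k 3 0) {L : Set (B k)} {f g : B k}
    (h : Bas L f g) : Bas (w '' L) (w f) (w g) := by
  refine ⟨by rw [h.1]; exact la_image hw f g, ?_⟩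
  obtain ⟨α, β, hα, hw0⟩ := (mem_G1 w).1 hw
  have h1 := cc7_JU w h.2
  rw [hw0] at h1
  exact cc7_JU0 hα h1

private theorem cc7_bas_std : Bas (La (X 1 : B k) (X 2)) (X 1) (X 2) :=
  ⟨rfl, aut_JU (1 : Au k)⟩

theorem lw_bas {w : Au k} (hw : w ∈ flagStab k 3 0) : Bas (Lw w) (w (X 1)) (w (X 2)) :=
  cc7_bas_image hw cc7_bas_std

theorem lw_mul (w h : Au k) : Lw (w * h) = w '' Lw h := by
  unfold Lw
  rw [Set.image_image]
  rfl

theorem lw_G3 {w h : Au k} (hw : w ∈ flagStab k 3 0) (h0 : h ∈ flagStab k 3 0) (h2 : h ∈ flagStab k 3 2) :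
    Lw (w * h) = Lw w := by
  rw [lw_mul]
  have key : Lw h = La (X 1) (X 2) := by
    obtain ⟨a, b, c, e, hX1⟩ := (mem_G3 h).1 h2 1
    obtain ⟨a', b', c', e', hX2⟩ := (mem_G3 h).1 h2 2
    obtain ⟨hL, c0, hc0, hJU⟩ := lw_bas h0
    have hE : ∀ (i : Fin 3) (a b c e : k), E i (C a * X 0 + C b * X 1 + C c * X 2 + C e : B k) =
        C a * E i (X 0) + C b * E i (X 1) + C c * E i (X 2) := by
      intro i a b c e
      rw [E_add, E_add, E_add, E_C_mul, E_C_mul, E_C_mul, E_C, add_zero]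
    have hEX : ∀ i j : Fin 3, E i (X j : B k) = if i = j then X i else 0 := by
      intro i j
      unfold E
      rw [pderiv_X, Pi.single_apply]
      by_cases hij : j = i
      · rw [if_pos hij, if_pos hij.symm, mul_one]
      · rw [if_neg hij, if_neg (fun h => hij h.symm), mul_zero]
    have hdet : det3 (X 0) (h (X 1)) (h (X 2)) = C (b * c' - c * b') * (X 0 * X 1 * X 2) := by
      rw [hX1, hX2]
      show E 0 (X 0) * J 1 2 _ _ + E 1 (X 0) * J 2 0 _ _ + E 2 (X 0) * J 0 1 _ _ = _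
      unfold J
      rw [hE, hE, hE, hE, hE, hE, hEX, hEX, hEX, hEX, hEX, hEX, hEX, hEX, hEX]
      simp only [reduceIte, C_sub, C_mul, Fin.isValue, one_ne_zero, zero_ne_one, Fin.reduceEq]
      ring
    have hne : b * c' - c * b' ≠ 0 := by
      intro h0
      rw [hJU, h0, C_0, zero_mul] at hdet
      rcases mul_eq_zero.1 hdet with h3 | h3
      · exact hc0 (C_eq_zero.1 h3)
      · exact cc7_X_ne h3
    have hb := bas_uni (cc7_bas_std (k := k)) (Polynomial.C a * Polynomial.X + Polynomial.C e)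
      (Polynomial.C b) (Polynomial.C c) (Polynomial.C a' * Polynomial.X + Polynomial.C e')
      (Polynomial.C b') (Polynomial.C c') hne (by
        rw [← Polynomial.C_mul, ← Polynomial.C_mul, ← Polynomial.C_sub])
    rw [cc7_ev1_lin, cc7_ev1_lin, cc7_ev1_C, cc7_ev1_C, cc7_ev1_C, cc7_ev1_C] at hb
    rw [hL, hX1, hX2, hb.1]
    congr 1 <;> ring
  rw [key]
  rfl

private theorem cc7_subst (P : MvPolynomial (Fin 2) k) (α β : k) :
    ∃ P' : MvPolynomial (Fin 2) k, ∀ f : B k, ev P (C α * X 0 + C β) f = ev P' (X 0) f := by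
  refine ⟨aeval ![C α * X 0 + C β, X 1] P, fun f => ?_⟩
  have e : ((aeval ![X 0, f] : MvPolynomial (Fin 2) k →ₐ[k] B k).comp
      (aeval ![C α * X 0 + C β, X 1] : MvPolynomial (Fin 2) k →ₐ[k] MvPolynomial (Fin 2) k)) =
      (aeval ![C α * X 0 + C β, f] : MvPolynomial (Fin 2) k →ₐ[k] B k) := by
    apply MvPolynomial.algHom_ext
    intro i
    fin_cases i
    · simp
    · simp
  have h := DFunLike.congr_fun e P
  exact h.symm

theorem lw_G2 {w h : Au k} (hw : w ∈ flagStab k 3 0) (h0 : h ∈ flagStab k 3 0) (h1 : h ∈ flagStab k 3 1) :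
    Adj0 (Lw w) (Lw (w * h)) := by
  obtain ⟨-, a, b, c, hX1⟩ := (mem_G2 h).1 h1
  obtain ⟨e, P, he, hX2⟩ := G2_form h1
  obtain ⟨α', β', hα', hX0⟩ := (mem_G1 h).1 h0
  obtain ⟨α, β, hα, hw0⟩ := (mem_G1 w).1 hw
  have hb : b ≠ 0 := by
    rintro rfl
    rcases coord_lin' h hX0 with h3 | h3
    · apply h3
      rw [hX1, coeff_add, coeff_add, coeff_C_mul, coeff_C_mul, coeff_X, coeff_C, if_neg, if_neg]
      · ring
      · intro h4
        have := DFunLike.congr_fun h4 (1 : Fin 3)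
        simp at this
      · intro h4
        have := DFunLike.congr_fun h4 (1 : Fin 3)
        simp at this
    · apply h3
      rw [hX1, coeff_add, coeff_add, coeff_C_mul, coeff_C_mul, coeff_X, coeff_C, if_neg, if_neg]
      · ring
      · intro h4
        have := DFunLike.congr_fun h4 (2 : Fin 3)
        simp at this
      · intro h4
        have := DFunLike.congr_fun h4 (2 : Fin 3)
        simp at this
  have key : Lw h = La (X 1) (X 2 + ev (C e⁻¹ * P) (X 0) (X 1)) := by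
    have e1 : h (X 1) = C b * X 1 + ev1 (Polynomial.C a * Polynomial.X + Polynomial.C c) (X 0) := by
      rw [cc7_ev1_lin, hX1]
      ring
    have e2 : h (X 2) = C e * (X 2 + ev (C e⁻¹ * P) (X 0) (X 1)) + ev1 0 (X 0) * X 1 + ev1 0 (X 0) := by
      have hvv : (C e * C e⁻¹ : B k) = 1 := by
        rw [← C_mul, mul_inv_cancel₀ he, C_1]
      rw [cc7_ev1_zero, hX2, cc7_ev_C_mul]
      linear_combination (-ev P (X 0) (X 1)) * hvv
    rw [(lw_bas h0).1, e1, la_fst _ _ _ hb, e2, la_el _ _ _ _ he]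
  obtain ⟨P', hP'⟩ := cc7_subst (C e⁻¹ * P) α β
  refine ⟨w (X 1), w (X 2), P', lw_bas hw, ?_⟩
  rw [lw_mul, key, la_image hw, map_add, ev_map, hw0, hP']

theorem bas_image {w : Au k} (hw : w ∈ flagStab k 3 0) {L : Set (B k)} {f g : B k} (h : Bas L f g) :
    Bas (w '' L) (w f) (w g) := cc7_bas_image hw h

theorem D0_sc {s : Au k} (hs : ∀ i, s (X i) = C 2 * X i) (f : B k) : D0 (s f) = D0 f := by
  have e : (s f).support = f.support := by
    ext m
    rw [mem_support_iff, mem_support_iff, sc_coeff hs]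
    constructor
    · intro h h0
      exact h (by rw [h0, mul_zero])
    · intro h
      exact mul_ne_zero (pow_ne_zero _ two_ne_zero) h
  unfold D0 dg
  rw [e]

theorem S0_sc {s : Au k} (hs : ∀ i, s (X i) = C 2 * X i) (L : Set (B k)) : S0 (s '' L) = S0 L := by
  have hs0 : s ∈ flagStab k 3 0 := (sc_mem hs).1
  unfold S0
  congr 1
  ext t
  constructor
  · rintro ⟨f, g, hb, rfl⟩
    have h1 := cc7_bas_image (inv_mem hs0) hb
    have e : (s⁻¹ : Au k) '' (s '' L) = L := by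
      rw [Set.image_image]
      have : (fun x => (s⁻¹ : Au k) (s x)) = fun x => x := by
        funext x
        exact s.symm_apply_apply x
      rw [this, Set.image_id']
    rw [e] at h1
    refine ⟨_, _, h1, ?_⟩
    have e1 : ∀ x : B k, D0 ((s⁻¹ : Au k) x) = D0 x := by
      intro x
      have := D0_sc hs ((s⁻¹ : Au k) x)
      have e2 : s ((s⁻¹ : Au k) x) = x := s.apply_symm_apply x
      rw [e2] at this
      exact this.symm
    rw [e1, e1]
  · rintro ⟨f, g, hb, rfl⟩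
    exact ⟨s f, s g, cc7_bas_image hs0 hb, by rw [D0_sc hs, D0_sc hs]⟩

theorem cen_sc {s : Au k} (hs : ∀ i, s (X i) = C 2 * X i) (L : Set (B k)) : cen (s '' L) = s '' cen L := by
  ext v
  constructor
  · rintro ⟨⟨u, hu, rfl⟩, h⟩
    refine ⟨u, ⟨hu, fun z hz => ?_⟩, rfl⟩
    have := h (s z) ⟨z, hz, rfl⟩
    rwa [D0_sc hs, D0_sc hs] at this
  · rintro ⟨u, ⟨hu, h⟩, rfl⟩
    refine ⟨⟨u, hu, rfl⟩, ?_⟩
    rintro _ ⟨z, hz, rfl⟩
    rw [D0_sc hs, D0_sc hs]
    exact h z hz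

end SU
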