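import Pool.Agent.Lib.MP_374dcb_al.CC7

/-!
# JOB CC9: the stabiliser of the standard lattice is in `HH`

`w ∈ G_1`, `Lw w = La X1 X2`. So `w X0 = C α X0 + C β`, `w X1 = ev1 a X0 + ev1 b X0 * X1 + ev1 c X0 * X2`, `w X2 = ev1 a' X0 + ev1 b' X0 * X1 + ev1 c' X0 * X2`, and `b c' - c b' = C u`, `u ≠ 0` (`lw_bas`: `JU (X 0) (w X1) (w X2)`: `det3 (X 0) (w X1) (w X2) = ev1 (b c' - c b') X0 * X0 X1 X2` up to a constant).
Claim: `w ∈ HH k`, by strong induction on `natDegree b + natDegree c` (or on a measure as below). Right multiplication by elements of `HH` acts on `w` as follows: for `g` with `g X0 = X0, g X1 = X1, g X2 = X2 + ev P X0 X1` (in `G_1 ∩ G_2`, `mk_el`, `mem_G1`, `mem_G2`): `(w g) X1 = w X1`, `(w g) X2 = w X2 + ev P (w X0) (w X1)`;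
for the swap `g X0 = X0, g X1 = X2, g X2 = X1` (in `G_1 ∩ G_3`, `mk_lin`): it exchanges `w X1` and `w X2`; LEFT multiplication by `g`: `(g w) Xi = g (w Xi)` acts on the coefficients: `g = (X0, X1, X2 + ev1 q X0 * X1)` maps `b ↦ b + c q`, `c ↦ c`, `b' ↦ b' + c' q`; the swap maps `(b,c) ↦ (c,b)`. All these
automorphisms preserve the property `Lw = La X1 X2`. By the Euclidean algorithm on the row `(b,c)` with left multiplications (if `c ≠ 0` replace `b` by `b % c`, then swap): we reach `c = 0` (well-founded: `EuclideanDomain` induction `EuclideanDomain.GCD.induction`, or strong induction on the degree of `c`). Then `b c' = C u`: `b = C v`, `c' = C v'` constants `≠ 0`: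
`w X1 = ev1 a X0 + C v X1`, `w X2 = ev1 a' X0 + ev1 b' X0 X1 + C v' X2`. Compose on the left with elements of `HH` to remove `a`, `a'`, `b'`: `g = (X0, X1, X2 + ev P X0 X1)` with suitable `P` removes `ev1 a' X0 + ev1 b' X0 X1`; `ev1 a X0` in `w X1` is removed by the conjugate by the swap. We arrive at `w = (C α X0 + C β, C v X1, C v' X2)`, in `G_1 ∩ G_3`.
-/

set_option autoImplicit false

open MvPolynomial

namespace SU

universe u
variable {k : Type u} [Field k] [CharZero k]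

private theorem CC9_C (φ : Au k) (a : k) : φ (C a) = C a := φ.commutes a

private theorem CC9_ev1 (φ : Au k) (h0 : φ (X 0) = X 0) (a : Polynomial k) :
    φ (ev1 a (X 0)) = ev1 a (X 0) := by
  rw [ev1_map, h0]

private theorem CC9_HH2 {φ : Au k} (h0 : φ (X 0) = X 0) (h1 : φ (X 1) = X 1) : φ ∈ HH k := by
  refine (le_sup_left : flagStab k 3 0 ⊓ flagStab k 3 1 ≤ HH k) (Subgroup.mem_inf.2 ⟨?_, ?_⟩)
  · exact (mem_G1 φ).2 ⟨1, 0, one_ne_zero, by rw [h0, map_one, map_zero, one_mul, add_zero]⟩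
  · refine (mem_G2 φ).2 ⟨⟨1, 0, 0, ?_⟩, ⟨0, 1, 0, ?_⟩⟩
    · rw [h0, map_one, map_zero]
      ring
    · rw [h1, map_one, map_zero]
      ring

private theorem CC9_swap (k : Type u) [Field k] [CharZero k] : ∃ σ : Au k, σ (X 0) = X 0 ∧
    σ (X 1) = X 2 ∧ σ (X 2) = X 1 ∧ σ ∈ HH k := by
  obtain ⟨σ, hσ⟩ := mk_lin (!![1, 0, 0; 0, 0, 1; 0, 1, 0] : Matrix (Fin 3) (Fin 3) k) (by
    rw [Matrix.det_fin_three]
    simp)
  have h0 : σ (X 0) = X 0 := by
    rw [hσ 0]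
    simp
  have h1 : σ (X 1) = X 2 := by
    rw [hσ 1]
    simp
  have h2 : σ (X 2) = X 1 := by
    rw [hσ 2]
    simp
  refine ⟨σ, h0, h1, h2, ?_⟩
  refine (le_sup_right : flagStab k 3 0 ⊓ flagStab k 3 2 ≤ HH k) (Subgroup.mem_inf.2 ⟨?_, ?_⟩)
  · exact (mem_G1 σ).2 ⟨1, 0, one_ne_zero, by rw [h0, map_one, map_zero, one_mul, add_zero]⟩
  · refine (mem_G3 σ).2 fun i =>
      ⟨(!![1, 0, 0; 0, 0, 1; 0, 1, 0] : Matrix (Fin 3) (Fin 3) k) i 0,
        (!![1, 0, 0; 0, 0, 1; 0, 1, 0] : Matrix (Fin 3) (Fin 3) k) i 1,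
        (!![1, 0, 0; 0, 0, 1; 0, 1, 0] : Matrix (Fin 3) (Fin 3) k) i 2, 0, ?_⟩
    rw [hσ i, map_zero, add_zero]

private theorem CC9_el {v : k} (hv : v ≠ 0) (a b : Polynomial k) : ∃ φ : Au k, φ (X 0) = X 0 ∧
    φ (X 1) = X 1 ∧ φ (X 2) = ev1 a (X 0) + ev1 b (X 0) * X 1 + C v * X 2 ∧ φ ∈ HH k := by
  obtain ⟨A, hA⟩ := ev1_eq_ev a
  obtain ⟨B', hB⟩ := ev1_eq_ev b
  obtain ⟨φ, h0, h1, h2⟩ := mk_el hv (A + B' * X 1)
  refine ⟨φ, h0, h1, ?_, CC9_HH2 h0 h1⟩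
  rw [h2, ev_add, ev_mul, hA, hB, ev_X1]
  ring

private theorem CC9_base {w : Au k} {α β v v' : k} {a a' b' : Polynomial k} (hα : α ≠ 0)
    (hv : v ≠ 0) (hv' : v' ≠ 0) (h0 : w (X 0) = C α * X 0 + C β)
    (h1 : w (X 1) = ev1 a (X 0) + C v * X 1)
    (h2 : w (X 2) = ev1 a' (X 0) + ev1 b' (X 0) * X 1 + C v' * X 2) : w ∈ HH k := by
  obtain ⟨σ, s0, s1, s2, sH⟩ := CC9_swap k
  obtain ⟨φ, f0, f1, f2, fH⟩ := CC9_el hv' a' b'
  obtain ⟨χ, c0, c1, c2, cH⟩ := CC9_el hv a 0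
  obtain ⟨ψ, hψ⟩ : ∃ ψ : Au k, ψ = σ * χ * σ := ⟨_, rfl⟩
  have p0 : ψ (X 0) = X 0 := by
    rw [hψ]
    change σ (χ (σ (X 0))) = X 0
    rw [s0, c0, s0]
  have p1 : ψ (X 1) = ev1 a (X 0) + C v * X 1 := by
    rw [hψ]
    change σ (χ (σ (X 1))) = _
    have e0 : (ev1 (0 : Polynomial k) (X 0) : B k) = 0 := by
      unfold ev1
      exact map_zero _
    rw [s1, c2, e0, zero_mul, add_zero, map_add, map_mul, CC9_C, CC9_ev1 σ s0, s2]
  have p2 : ψ (X 2) = X 2 := by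
    rw [hψ]
    change σ (χ (σ (X 2))) = X 2
    rw [s2, c1, s1]
  have pH : ψ ∈ HH k := by
    rw [hψ]
    exact mul_mem (mul_mem sH cH) sH
  obtain ⟨w', hw'⟩ : ∃ w' : Au k, w' = ψ⁻¹ * (φ⁻¹ * w) := ⟨_, rfl⟩
  have inv1 : ∀ (g : Au k) (f : B k), g⁻¹ (g f) = f := fun g f => g.symm_apply_apply f
  have i0 : φ⁻¹ (X 0) = X 0 := by
    conv_lhs => rw [← f0]
    exact inv1 φ _
  have i1 : φ⁻¹ (X 1) = X 1 := by
    conv_lhs => rw [← f1]
    exact inv1 φ _
  have j0 : ψ⁻¹ (X 0) = X 0 := by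
    conv_lhs => rw [← p0]
    exact inv1 ψ _
  have j2 : ψ⁻¹ (X 2) = X 2 := by
    conv_lhs => rw [← p2]
    exact inv1 ψ _
  have w0 : w' (X 0) = C α * X 0 + C β := by
    rw [hw']
    change ψ⁻¹ (φ⁻¹ (w (X 0))) = _
    rw [h0, map_add, map_mul, CC9_C, CC9_C, i0, map_add, map_mul, CC9_C, CC9_C, j0]
  have w1 : w' (X 1) = X 1 := by
    rw [hw']
    change ψ⁻¹ (φ⁻¹ (w (X 1))) = _
    rw [h1, map_add, map_mul, CC9_C, CC9_ev1 _ i0, i1, ← p1, inv1]
  have w2 : w' (X 2) = X 2 := by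
    rw [hw']
    change ψ⁻¹ (φ⁻¹ (w (X 2))) = _
    rw [h2, ← f2, inv1, j2]
  have wH : w' ∈ HH k := by
    refine (le_sup_right : flagStab k 3 0 ⊓ flagStab k 3 2 ≤ HH k) (Subgroup.mem_inf.2 ⟨?_, ?_⟩)
    · exact (mem_G1 w').2 ⟨α, β, hα, w0⟩
    · refine (mem_G3 w').2 fun i => ?_
      fin_cases i
      · exact ⟨α, 0, 0, β, by
          rw [map_zero]
          refine w0.trans ?_
          ring⟩
      · exact ⟨0, 1, 0, 0, by
          rw [map_zero, map_one]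
          refine w1.trans ?_
          ring⟩
      · exact ⟨0, 0, 1, 0, by
          rw [map_zero, map_one]
          refine w2.trans ?_
          ring⟩
  have e : w = φ * (ψ * w') := by
    rw [hw']
    group
  rw [e]
  exact mul_mem fH (mul_mem pH wH)

private theorem CC9_ind (c b : Polynomial k) : ∀ (w : Au k) (α β u : k) (a a' b' c' : Polynomial k),
    α ≠ 0 → u ≠ 0 → w (X 0) = C α * X 0 + C β →
    w (X 1) = ev1 a (X 0) + ev1 b (X 0) * X 1 + ev1 c (X 0) * X 2 →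
    w (X 2) = ev1 a' (X 0) + ev1 b' (X 0) * X 1 + ev1 c' (X 0) * X 2 →
    b * c' - c * b' = Polynomial.C u → w ∈ HH k := by
  classical
  refine EuclideanDomain.GCD.induction
    (P := fun c b => ∀ (w : Au k) (α β u : k) (a a' b' c' : Polynomial k),
      α ≠ 0 → u ≠ 0 → w (X 0) = C α * X 0 + C β →
      w (X 1) = ev1 a (X 0) + ev1 b (X 0) * X 1 + ev1 c (X 0) * X 2 →
      w (X 2) = ev1 a' (X 0) + ev1 b' (X 0) * X 1 + ev1 c' (X 0) * X 2 →
      b * c' - c * b' = Polynomial.C u → w ∈ HH k) c b ?_ ?_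
  · intro b w α β u a a' b' c' hα hu h0 h1 h2 hdet
    rw [zero_mul, sub_zero] at hdet
    have hub : IsUnit (b * c') := by
      rw [hdet]
      exact (Polynomial.isUnit_C).2 (isUnit_iff_ne_zero.2 hu)
    obtain ⟨v, hv, hvb⟩ := Polynomial.isUnit_iff.1 (isUnit_of_mul_isUnit_left hub)
    obtain ⟨v', hv', hvc⟩ := Polynomial.isUnit_iff.1 (isUnit_of_mul_isUnit_right hub)
    have eC : ∀ z : k, (ev1 (Polynomial.C z) (X 0) : B k) = C z := by
      intro z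
      unfold ev1
      rw [Polynomial.aeval_C]
      rfl
    have e0 : (ev1 (0 : Polynomial k) (X 0) : B k) = 0 := by
      unfold ev1
      exact map_zero _
    rw [← hvb, eC, e0, zero_mul, add_zero] at h1
    rw [← hvc, eC] at h2
    exact CC9_base hα (isUnit_iff_ne_zero.1 hv) (isUnit_iff_ne_zero.1 hv') h0 h1 h2
  · intro c b hc ih w α β u a a' b' c' hα hu h0 h1 h2 hdet
    obtain ⟨q, hq⟩ : ∃ q : Polynomial k, q = -(b / c) := ⟨_, rfl⟩
    have hbq : b + c * q = b % c := by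
      have h3 := EuclideanDomain.div_add_mod b c
      rw [hq]
      linear_combination -h3
    obtain ⟨σ, s0, s1, s2, sH⟩ := CC9_swap k
    obtain ⟨φ, f0, f1, f2, fH⟩ := CC9_el (one_ne_zero (α := k)) 0 q
    have e0 : (ev1 (0 : Polynomial k) (X 0) : B k) = 0 := by
      unfold ev1
      exact map_zero _
    rw [e0, zero_add, map_one, one_mul] at f2
    have hmul : ∀ (r s : Polynomial k), (ev1 (r * s) (X 0) : B k) = ev1 r (X 0) * ev1 s (X 0) := by
      intro r s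
      unfold ev1
      exact map_mul _ _ _
    have key : ∀ r s t : Polynomial k, σ (φ (ev1 r (X 0) + ev1 s (X 0) * X 1 + ev1 t (X 0) * X 2)) =
        ev1 r (X 0) + ev1 t (X 0) * X 1 + ev1 (s + t * q) (X 0) * X 2 := by
      intro r s t
      have k1 : φ (ev1 r (X 0) + ev1 s (X 0) * X 1 + ev1 t (X 0) * X 2) =
          ev1 r (X 0) + ev1 s (X 0) * X 1 + ev1 t (X 0) * (ev1 q (X 0) * X 1 + X 2) := by
        rw [map_add, map_add, map_mul, map_mul, CC9_ev1 φ f0 r, CC9_ev1 φ f0 s, CC9_ev1 φ f0 t, f1, f2]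
      have k2 : σ (ev1 r (X 0) + ev1 s (X 0) * X 1 + ev1 t (X 0) * (ev1 q (X 0) * X 1 + X 2)) =
          ev1 r (X 0) + ev1 s (X 0) * X 2 + ev1 t (X 0) * (ev1 q (X 0) * X 2 + X 1) := by
        rw [map_add, map_add, map_mul, map_mul, map_add, map_mul, CC9_ev1 σ s0 r, CC9_ev1 σ s0 s,
          CC9_ev1 σ s0 t, CC9_ev1 σ s0 q, s1, s2]
      rw [k1, k2, ev1_add, hmul]
      ring
    have hmem : σ * (φ * w) ∈ HH k := by
      refine ih (σ * (φ * w)) α β (-u) a a' c' (b' + c' * q) hα (neg_ne_zero.2 hu) ?_ ?_ ?_ ?_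
      · change σ (φ (w (X 0))) = _
        rw [h0, map_add, map_mul, CC9_C, CC9_C, f0, map_add, map_mul, CC9_C, CC9_C, s0]
      · change σ (φ (w (X 1))) = _
        rw [h1, key, hbq]
      · change σ (φ (w (X 2))) = _
        rw [h2, key]
      · rw [Polynomial.C_neg, ← hdet, ← hbq]
        ring
    have e : w = φ⁻¹ * (σ⁻¹ * (σ * (φ * w))) := by group
    rw [e]
    exact mul_mem (inv_mem fH) (mul_mem (inv_mem sH) hmem)

theorem gl2 {w : Au k} (hw : w ∈ flagStab k 3 0) (h : Lw w = La (X 1) (X 2)) : w ∈ HH k := by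
  obtain ⟨α, β, hα, h0⟩ := (mem_G1 w).1 hw
  obtain ⟨hL, hJ⟩ := lw_bas hw
  rw [h] at hL
  have eC : ∀ z : k, (ev1 (Polynomial.C z) (X 0) : B k) = C z := by
    intro z
    unfold ev1
    rw [Polynomial.aeval_C]
    rfl
  have e1 : (ev1 (1 : Polynomial k) (X 0) : B k) = 1 := by
    unfold ev1
    exact map_one _
  have e0 : (ev1 (0 : Polynomial k) (X 0) : B k) = 0 := by
    unfold ev1
    exact map_zero _
  have hmul : ∀ (r s : Polynomial k), (ev1 (r * s) (X 0) : B k) = ev1 r (X 0) * ev1 s (X 0) := by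
    intro r s
    unfold ev1
    exact map_mul _ _ _
  have hsub : ∀ (r s : Polynomial k), (ev1 (r - s) (X 0) : B k) = ev1 r (X 0) - ev1 s (X 0) := by
    intro r s
    unfold ev1
    exact map_sub _ _ _
  have hfst : ∀ f g : B k, f ∈ La f g := fun f g => ⟨0, 1, 0, by rw [e0, e1]; ring⟩
  have hsnd : ∀ f g : B k, g ∈ La f g := fun f g => ⟨0, 0, 1, by rw [e0, e1]; ring⟩
  have m1 : w (X 1) ∈ La (X 1 : B k) (X 2) := by
    rw [hL]
    exact hfst _ _
  have m2 : w (X 2) ∈ La (X 1 : B k) (X 2) := by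
    rw [hL]
    exact hsnd _ _
  have m3 : (X 1 : B k) ∈ La (w (X 1)) (w (X 2)) := by
    rw [← hL]
    exact hfst _ _
  have m4 : (X 2 : B k) ∈ La (w (X 1)) (w (X 2)) := by
    rw [← hL]
    exact hsnd _ _
  obtain ⟨a, b, c, h1⟩ := m1
  obtain ⟨a', b', c', h2⟩ := m2
  obtain ⟨d₁, e₁, f₁, h3⟩ := m3
  obtain ⟨d₂, e₂, f₂, h4⟩ := m4
  have hX : JU (X 0 : B k) (X 1) (X 2) := aut_JU (1 : Au k)
  have r1 := la_indep (k := k) hX (a := d₁ + e₁ * a + f₁ * a') (b := e₁ * b + f₁ * b' - 1)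
    (c := e₁ * c + f₁ * c') (by
      rw [hsub, ev1_add, ev1_add, ev1_add, ev1_add, hmul, hmul, hmul, hmul, hmul, hmul, e1]
      rw [h1, h2] at h3
      linear_combination -h3)
  have r2 := la_indep (k := k) hX (a := d₂ + e₂ * a + f₂ * a') (b := e₂ * b + f₂ * b')
    (c := e₂ * c + f₂ * c' - 1) (by
      rw [hsub, ev1_add, ev1_add, ev1_add, ev1_add, hmul, hmul, hmul, hmul, hmul, hmul, e1]
      rw [h1, h2] at h4
      linear_combination -h4)
  obtain ⟨-, r12, r13⟩ := r1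
  obtain ⟨-, r22, r23⟩ := r2
  have hdet : (e₁ * f₂ - f₁ * e₂) * (b * c' - c * b') = 1 := by
    linear_combination (e₂ * c + f₂ * c') * r12 + r23 - (e₂ * b + f₂ * b') * r13
  obtain ⟨u, hu, hub⟩ := Polynomial.isUnit_iff.1 (IsUnit.of_mul_eq_one_right _ hdet)
  exact CC9_ind c b w α β u a a' b' c' hα (isUnit_iff_ne_zero.1 hu) h0 h1 h2 hub.symm

end SU
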