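import Pool.Agent.Lib.MP_374dcb_al.JUl

/-!
# JOB CP: the cross product inequality (the key inequality) and PTM

`cp`: by `cp_id`, `det3 f g h * E i f = cx (cr f g) (cr f h) i` has degree `≤ N (cr f g) + N (cr f h) = d f g + d f h` (`D_cx_le`). Summing over
`i`: `det3 f g h * Et f` has degree `≤ d f g + d f h`. `det3 f g h = C c * (X 0 * X 1 * X 2)`, `Et f ≠ 0` (its degree is `D f > 0`), so the
degree of the product is `ω.eps + D (Et f) = ω.eps + D f` (`D_mul`, `D_C_mul`, `D_XXX`, `D_Et`).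

`ptm` (the maximum of `D f + d g h`, `D g + d f h`, `D h + d f g` is attained twice): by symmetry (`ptm_aux` with rotations; `d_symm`) it
suffices to show `D f + d g h ≤ max (D g + d f h) (D h + d f g)`. Suppose not: `A := D f + d g h` is larger than both. Choose `i` with
`cr g h i ≠ 0`, `D (cr g h i) = d g h` (`exists_N_ne`). In `ptm_id`: `D (Et f * cr g h i) = A`, the two others have degree `< A`
(`D (Et g * cr h f i) ≤ D g + d f h`, ...). So `D (det3 f g h) = A`, i.e. `A = ω.eps`. `cp` for `g`: `D g + ω.eps ≤ d g f + d g h` with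
`d f g < A - D h`, `d g h = A - D f`: `D g + ω.eps < 2 ω.eps - D h - D f`, so `D f + D g + D h < ω.eps`, against `JU.eps_le`.
-/

set_option autoImplicit false

open MvPolynomial

namespace SU

universe u
variable {k : Type u} [Field k] [CharZero k]

private theorem CP_det_ne (ω : Wts) {f g h : B k} (H : JU f g h) :
    det3 f g h ≠ 0 ∧ D ω (det3 f g h) = ω.eps := by
  obtain ⟨c, hc, he⟩ := H
  have h1 : D ω (det3 f g h) = ω.eps := by
    rw [he, D_C_mul ω hc, D_XXX]
  refine ⟨?_, h1⟩
  intro h0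
  rw [h0, D_zero] at h1
  have := eps_pos ω
  linarith

private theorem CP_Et_ne (ω : Wts) {f g h : B k} (H : JU f g h) : Et f ≠ 0 := by
  intro h0
  have h1 := D_Et ω f
  rw [h0, D_zero] at h1
  have := (JU.pos ω H).1
  linarith

theorem cp (ω : Wts) {f g h : B k} (H : JU f g h) : D ω f + ω.eps ≤ d ω f g + d ω f h := by
  obtain ⟨hd, hD⟩ := CP_det_ne ω H
  have hE := CP_Et_ne ω H
  have h1 : ∀ i, D ω (det3 f g h * E i f) ≤ d ω f g + d ω f h := by
    intro i
    rw [← cp_id]
    exact D_cx_le ω _ _ i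
  have h2 : D ω (det3 f g h * Et f) ≤ d ω f g + d ω f h := by
    have e : det3 f g h * Et f = det3 f g h * E 0 f + det3 f g h * E 1 f + det3 f g h * E 2 f := by
      unfold Et; ring
    rw [e]
    refine le_trans (D_add_le ω _ _) (max_le (le_trans (D_add_le ω _ _) (max_le ?_ ?_)) ?_)
    · exact h1 0
    · exact h1 1
    · exact h1 2
  rw [D_mul ω hd hE, hD, D_Et] at h2
  linarith

theorem ptm_aux (ω : Wts) {f g h : B k} (H : JU f g h) :
    D ω f + d ω g h ≤ max (D ω g + d ω f h) (D ω h + d ω f g) := by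
  by_contra hcon
  push Not at hcon
  obtain ⟨hc1, hc2⟩ := max_lt_iff.1 hcon
  obtain ⟨i, hi0, hi⟩ := exists_N_ne ω H.cr23
  obtain ⟨hd, hD⟩ := CP_det_ne ω H
  have hE := CP_Et_ne ω H
  have hid := ptm_id f g h i
  have hi' : D ω (cr g h i) = d ω g h := hi
  have t1 : D ω (Et f * cr g h i) = D ω f + d ω g h := by
    rw [D_mul ω hE hi0, D_Et, hi']
  have t2 : D ω (Et g * cr h f i) ≤ D ω g + d ω f h := by
    refine le_trans (D_mul_le ω _ _) ?_
    rw [D_Et]
    have : D ω (cr h f i) ≤ d ω f h := by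
      rw [← d_symm ω f h]
      exact D_le_N ω _ i
    linarith
  have t3 : D ω (Et h * cr f g i) ≤ D ω h + d ω f g := by
    refine le_trans (D_mul_le ω _ _) ?_
    rw [D_Et]
    have : D ω (cr f g i) ≤ d ω f g := D_le_N ω _ i
    linarith
  have t4 : D ω (Et f * cr g h i + Et g * cr h f i) = D ω f + d ω g h := by
    rw [D_add_left ω (by rw [t1]; linarith), t1]
  have t5 : D ω (Et f * cr g h i + Et g * cr h f i + Et h * cr f g i) = D ω f + d ω g h := by
    rw [D_add_left ω (by rw [t4]; linarith), t4]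
  rw [hid, hD] at t5
  have h6 := cp ω H.swap
  rw [d_symm ω f g] at h6
  have h7 := JU.eps_le ω H
  linarith

theorem ptm (ω : Wts) {f g h : B k} (H : JU f g h) :
    D ω f + d ω g h ≤ max (D ω g + d ω f h) (D ω h + d ω f g) ∧
    D ω g + d ω f h ≤ max (D ω f + d ω g h) (D ω h + d ω f g) ∧
    D ω h + d ω f g ≤ max (D ω f + d ω g h) (D ω g + d ω f h) := by
  refine ⟨ptm_aux ω H, ?_, ?_⟩
  · have h1 := ptm_aux ω H.swap
    rwa [d_symm ω f g] at h1
  · have h1 := ptm_aux ω H.rot.rot
    rwa [d_symm ω g h, d_symm ω f h] at h1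

end SU
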