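import Pool.Agent.Lib.MP_374dcb_al.AdjL

/-!
# JOB Typ: the weak (strict) neighbours of a vertex in terms of a good basis

`V = sp e1 e2 e3`, `D e1 < D e2 < D e3`, `U` a weak neighbour: `V = sp f g h`, `U = sp f g (h + ev P f g)`. By `plane_good` we may replace `(f,g,h)` by
`(u1,u2,v)` with `pl u1 u2 = pl f g`, `v = h + C a * u1 + C b * u2`, pairwise different degrees `D u1 < D u2`, `D v ≠ ..`; then `V = sp u1 u2 v`,
`U = sp u1 u2 (v + ev P1 u1 u2)` (`ev_of_pl`, `sp_of_pl`, and `h + ev P f g = v + ev P' u1 u2` up to an element of `pl u1 u2`; `sp_add`), and by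
`weak_norm` (`strict_norm`) we may assume `D (v + ev P1 u1 u2) ≤ D v` (`<`).
The elements of `V` of degree `< D e2` are in `span(1,e1)`, those of degree `< D e3` in `span(1,e1,e2)` (degree of a combination with different degrees = the maximum);
so the three different positive degrees of `u1, u2, v` are `D e1, D e2, D e3` in some order.
* `D v = D e3`: `u1, u2` have the degrees `D e1 < D e2`: `u1 = C a e1 + C b`, `u2 = C c e2 + C a' e1 + C b'`, `a, c ≠ 0`, so `pl u1 u2 = pl e1 e2`, and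
  `v = C c' e3 + (element of pl e1 e2)`, `c' ≠ 0`: dividing by `c'` (`sp_C_mul`) first alternative: `e3 + ev R e1 e2 = C c'⁻¹ * (v + ev P1 u1 u2)`.
* `D v = D e2`: `u1 = C a e1 + C b`, `u2 = C c e3 + C l' e2 + C a' e1 + C b'`: `pl u1 u2 = pl e1 (e3 + C l * e2)`, `l = l'/c`. `v = C c' e2 + C a'' e1 + C b''`.
* `D v = D e1`: `u1 = C c e2 + C a e1 + C b`, `u2 = C c' e3 + C x e2 + C y e1 + C z`: `pl u1 u2 = pl (e2 + C m * e1) (e3 + C l * e1)`; `v = C a' e1 + C b'`.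
-/

set_option autoImplicit false

open MvPolynomial

namespace SU

universe u
variable {k : Type u} [Field k] [CharZero k]

private theorem typ_pl_tri {f g u1 u2 : B k} {α β γ δ ε : k} (hα : α ≠ 0) (hγ : γ ≠ 0)
    (h1 : u1 = C α * f + C β) (h2 : u2 = C γ * g + C δ * f + C ε) : pl f g = pl u1 u2 := by
  have eα : (C α : B k) * C α⁻¹ = 1 := by rw [← C_mul, mul_inv_cancel₀ hα, C_1]
  have eγ : (C γ : B k) * C γ⁻¹ = 1 := by rw [← C_mul, mul_inv_cancel₀ hγ, C_1]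
  have hf : f ∈ pl u1 u2 := by
    rw [mem_pl]
    refine ⟨α⁻¹, 0, -(β * α⁻¹), ?_⟩
    rw [h1]
    simp only [C_0, C_neg, C_mul]
    linear_combination (-f) * eα
  have hg : g ∈ pl u1 u2 := by
    rw [mem_pl]
    refine ⟨-(γ⁻¹ * δ * α⁻¹), γ⁻¹, γ⁻¹ * δ * α⁻¹ * β - γ⁻¹ * ε, ?_⟩
    rw [h1, h2]
    simp only [C_neg, C_mul, C_sub]
    linear_combination (-g) * eγ + (C γ⁻¹ * C δ * f) * eα
  have hu1 : u1 ∈ pl f g := by
    rw [mem_pl]
    refine ⟨α, 0, β, ?_⟩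
    rw [h1]
    simp only [C_0]
    ring
  have hu2 : u2 ∈ pl f g := by
    rw [mem_pl]
    refine ⟨δ, γ, ε, ?_⟩
    rw [h2]
    ring
  have hone : ∀ a b : B k, (1 : B k) ∈ pl a b := fun a b => Submodule.subset_span (Set.mem_insert _ _)
  apply le_antisymm
  · refine Submodule.span_le.2 ?_
    rintro x (rfl | rfl | rfl)
    · exact hone _ _
    · exact hf
    · exact hg
  · refine Submodule.span_le.2 ?_
    rintro x (rfl | rfl | rfl)
    · exact hone _ _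
    · exact hu1
    · exact hu2

private theorem typ_fin (ω : Wts) {f g t u1 u2 v : B k} {c x y z : k} (P : MvPolynomial (Fin 2) k)
    (hp : pl f g = pl u1 u2) (hc : c ≠ 0) (hv : v = C c * t + C x * f + C y * g + C z) :
    ∃ R : MvPolynomial (Fin 2) k, sp u1 u2 (v + ev P u1 u2) = sp f g (t + ev R f g) ∧
      D ω (t + ev R f g) = D ω (v + ev P u1 u2) := by
  obtain ⟨Q, hQ⟩ := ev_of_pl hp P
  have ec : (C c : B k) * C c⁻¹ = 1 := by rw [← C_mul, mul_inv_cancel₀ hc, C_1]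
  have key : v + ev P u1 u2 =
      C c * (t + ev (C c⁻¹ * ((C x * X 0 + C y * X 1 + C z) + Q)) f g) := by
    rw [ev_mul, ev_C, ev_add, ev_lin, hQ, hv]
    linear_combination (-(C x * f + C y * g + C z + ev Q f g)) * ec
  refine ⟨C c⁻¹ * ((C x * X 0 + C y * X 1 + C z) + Q), ?_, ?_⟩
  · rw [key, sp_C_mul _ _ _ hc, sp_of_pl hp]
  · rw [key, D_C_mul ω hc]

private theorem typ_shape (ω : Wts) {e1 e2 e3 x : B k} (h12 : D ω e1 < D ω e2)
    (h23 : D ω e2 < D ω e3) (hx : x ∈ sp e1 e2 e3) (h0 : 0 < D ω x) :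
    (D ω x = D ω e1 ∧ ∃ a c : k, a ≠ 0 ∧ x = C a * e1 + C c) ∨
    (D ω x = D ω e2 ∧ ∃ b a c : k, b ≠ 0 ∧ x = C b * e2 + C a * e1 + C c) ∨
    (D ω x = D ω e3 ∧ ∃ c b a z : k, c ≠ 0 ∧ x = C c * e3 + C b * e2 + C a * e1 + C z) := by
  obtain ⟨a, b, c, e, hx⟩ := mem_sp.1 hx
  by_cases hc : c = 0
  · by_cases hb : b = 0
    · by_cases ha : a = 0
      · exfalso
        rw [hx, hc, hb, ha] at h0
        simp only [C_0, zero_mul, zero_add, D_C] at h0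
        exact lt_irrefl _ h0
      · left
        have hx' : x = C a * e1 + C e := by
          rw [hx, hc, hb]; simp only [C_0]; ring
        refine ⟨?_, a, e, ha, hx'⟩
        rw [hx', D_add_C, D_C_mul ω ha]
    · right; left
      have hx' : x = C b * e2 + C a * e1 + C e := by
        rw [hx, hc]; simp only [C_0]; ring
      refine ⟨?_, b, a, e, hb, hx'⟩
      rw [hx', D_add_C, D_add_left, D_C_mul ω hb]
      rw [D_C_mul ω hb]
      exact lt_of_le_of_lt (D_C_mul_le ω a e1) h12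
  · right; right
    have hx' : x = C c * e3 + C b * e2 + C a * e1 + C e := by
      rw [hx]; ring
    refine ⟨?_, c, b, a, e, hc, hx'⟩
    have h1 : D ω (C c * e3 + C b * e2) = D ω e3 := by
      rw [D_add_left, D_C_mul ω hc]
      rw [D_C_mul ω hc]
      exact lt_of_le_of_lt (D_C_mul_le ω b e2) h23
    rw [hx', D_add_C, D_add_left, h1]
    rw [h1]
    exact lt_of_le_of_lt (D_C_mul_le ω a e1) (h12.trans h23)

private theorem typ_core (ω : Wts) {e1 e2 e3 : B k} (H : JU e1 e2 e3) (h12 : D ω e1 < D ω e2)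
    (h23 : D ω e2 < D ω e3) {U : Submodule k (B k)} (hA : Adj (sp e1 e2 e3) U)
    (hS : S ω U ≤ S ω (sp e1 e2 e3)) :
    (∃ R : MvPolynomial (Fin 2) k, U = sp e1 e2 (e3 + ev R e1 e2) ∧
      D ω (e3 + ev R e1 e2) ≤ D ω e3 ∧
      (S ω U < S ω (sp e1 e2 e3) → D ω (e3 + ev R e1 e2) < D ω e3)) ∨
    (∃ (l : k) (R : MvPolynomial (Fin 2) k), U = sp e1 (e3 + C l * e2) (e2 + ev R e1 (e3 + C l * e2)) ∧
      D ω (e2 + ev R e1 (e3 + C l * e2)) ≤ D ω e2 ∧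
      (S ω U < S ω (sp e1 e2 e3) → D ω (e2 + ev R e1 (e3 + C l * e2)) < D ω e2)) ∨
    (∃ (m l : k) (R : MvPolynomial (Fin 2) k),
      U = sp (e2 + C m * e1) (e3 + C l * e1) (e1 + ev R (e2 + C m * e1) (e3 + C l * e1)) ∧
      D ω (e1 + ev R (e2 + C m * e1) (e3 + C l * e1)) ≤ D ω e1 ∧
      (S ω U < S ω (sp e1 e2 e3) →
        D ω (e1 + ev R (e2 + C m * e1) (e3 + C l * e1)) < D ω e1)) := by
  obtain ⟨f, g, h, P, HJ, hV, hU⟩ := hA
  obtain ⟨u1, u2, v, HJ', hpl, ⟨a, b, hv⟩, hsp, hd12, hd1, hd2⟩ := plane_good ω HJ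
  obtain ⟨P', hP'⟩ := ev_of_pl hpl P
  have hU1 : U = sp u1 u2 (v + ev P' u1 u2) := by
    rw [hU, ← sp_of_pl hpl, hP']
    have e1 : h + ev P' u1 u2 = (v + ev P' u1 u2) + (C (-a) * u1 + C (-b) * u2 + C 0) := by
      rw [hv]; simp only [C_neg, C_0]; ring
    rw [e1, sp_add]
  have hVu : sp e1 e2 e3 = sp u1 u2 v := by rw [hV, hsp]
  have hS' : S ω (sp u1 u2 (v + ev P' u1 u2)) ≤ S ω (sp u1 u2 v) := by
    rw [← hU1, ← hVu]; exact hS
  obtain ⟨P'', hP''1, -, hP''2, hP''3⟩ := weak_norm ω HJ' hd12.ne hd1.symm hd2.symm P' hS'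
  have hU2 : U = sp u1 u2 (v + ev P'' u1 u2) := by rw [hU1, hP''1]
  have hP''4 : S ω U < S ω (sp e1 e2 e3) → D ω (v + ev P'' u1 u2) < D ω v := by
    intro hlt
    apply hP''3
    rw [← hU1, ← hVu]; exact hlt
  have hmem : ∀ x, x ∈ sp u1 u2 v → x ∈ sp e1 e2 e3 := fun x hx => by rw [hVu]; exact hx
  have m1 : u1 ∈ sp u1 u2 v := mem_sp.2 ⟨1, 0, 0, 0, by simp only [C_0, C_1]; ring⟩
  have m2 : u2 ∈ sp u1 u2 v := mem_sp.2 ⟨0, 1, 0, 0, by simp only [C_0, C_1]; ring⟩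
  have m3 : v ∈ sp u1 u2 v := mem_sp.2 ⟨0, 0, 1, 0, by simp only [C_0, C_1]; ring⟩
  obtain ⟨p1, p2, p3⟩ := HJ'.pos ω
  have s1 := typ_shape ω h12 h23 (hmem _ m1) p1
  have s2 := typ_shape ω h12 h23 (hmem _ m2) p2
  have s3 := typ_shape ω h12 h23 (hmem _ m3) p3
  rcases s3 with ⟨dv, a3, c3, ha3, hv3⟩ | ⟨dv, b3, a3, c3, hb3, hv3⟩ | ⟨dv, c3, b3, a3, z3, hc3, hv3⟩
  · -- D v = D e1
    right; right
    rcases s1 with ⟨du1, -⟩ | ⟨du1, b1, a1, c1, hb1, hu1⟩ | ⟨du1, -⟩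
    · exact absurd (dv.trans du1.symm) hd1
    · rcases s2 with ⟨du2, -⟩ | ⟨du2, -⟩ | ⟨du2, c2, b2, a2, z2, hc2, hu2⟩
      · exact absurd (dv.trans du2.symm) hd2
      · exfalso; rw [du1, du2] at hd12; exact lt_irrefl _ hd12
      · have eb : (C b1 : B k) * C b1⁻¹ = 1 := by rw [← C_mul, mul_inv_cancel₀ hb1, C_1]
        have ec : (C c2 : B k) * C c2⁻¹ = 1 := by rw [← C_mul, mul_inv_cancel₀ hc2, C_1]
        have hp : pl (e2 + C (a1 * b1⁻¹) * e1) (e3 + C ((a2 - b2 * (a1 * b1⁻¹)) * c2⁻¹) * e1) =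
            pl u1 u2 := by
          refine typ_pl_tri (α := b1) (β := c1) (γ := c2) (δ := b2) (ε := z2) hb1 hc2 ?_ ?_
          · rw [hu1]; simp only [C_mul]
            linear_combination (-(C a1 * e1)) * eb
          · rw [hu2]; simp only [C_mul, C_sub]
            linear_combination (-((C a2 - C b2 * (C a1 * C b1⁻¹)) * e1)) * ec
        obtain ⟨R, hR1, hR2⟩ := typ_fin ω (t := e1) (v := v) (c := a3) (x := 0) (y := 0) (z := c3)
          P'' hp ha3 (by rw [hv3]; simp only [C_0]; ring)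
        refine ⟨a1 * b1⁻¹, (a2 - b2 * (a1 * b1⁻¹)) * c2⁻¹, R, ?_, ?_, ?_⟩
        · rw [hU2, hR1]
        · rw [hR2, ← dv]; exact hP''2
        · intro hlt; rw [hR2, ← dv]; exact hP''4 hlt
    · exfalso
      rcases s2 with ⟨du2, -⟩ | ⟨du2, -⟩ | ⟨du2, -⟩ <;> rw [du1, du2] at hd12 <;> linarith
  · -- D v = D e2
    right; left
    rcases s1 with ⟨du1, a1, c1, ha1, hu1⟩ | ⟨du1, -⟩ | ⟨du1, -⟩
    · rcases s2 with ⟨du2, -⟩ | ⟨du2, -⟩ | ⟨du2, c2, b2, a2, z2, hc2, hu2⟩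
      · exfalso; rw [du1, du2] at hd12; exact lt_irrefl _ hd12
      · exact absurd (dv.trans du2.symm) hd2
      · have ec : (C c2 : B k) * C c2⁻¹ = 1 := by rw [← C_mul, mul_inv_cancel₀ hc2, C_1]
        have hp : pl e1 (e3 + C (b2 * c2⁻¹) * e2) = pl u1 u2 := by
          refine typ_pl_tri (α := a1) (β := c1) (γ := c2) (δ := a2) (ε := z2) ha1 hc2 hu1 ?_
          rw [hu2]; simp only [C_mul]
          linear_combination (-(C b2 * e2)) * ec
        obtain ⟨R, hR1, hR2⟩ := typ_fin ω (t := e2) (v := v) (c := b3) (x := a3) (y := 0) (z := c3)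
          P'' hp hb3 (by rw [hv3]; simp only [C_0]; ring)
        refine ⟨b2 * c2⁻¹, R, ?_, ?_, ?_⟩
        · rw [hU2, hR1]
        · rw [hR2, ← dv]; exact hP''2
        · intro hlt; rw [hR2, ← dv]; exact hP''4 hlt
    · exact absurd (dv.trans du1.symm) hd1
    · exfalso
      rcases s2 with ⟨du2, -⟩ | ⟨du2, -⟩ | ⟨du2, -⟩ <;> rw [du1, du2] at hd12 <;> linarith
  · -- D v = D e3
    left
    rcases s2 with ⟨du2, -⟩ | ⟨du2, b2, a2, z2, hb2, hu2⟩ | ⟨du2, -⟩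
    · exfalso
      rcases s1 with ⟨du1, -⟩ | ⟨du1, -⟩ | ⟨du1, -⟩ <;> rw [du1, du2] at hd12 <;> linarith
    · rcases s1 with ⟨du1, a1, c1, ha1, hu1⟩ | ⟨du1, -⟩ | ⟨du1, -⟩
      · have hp : pl e1 e2 = pl u1 u2 :=
          typ_pl_tri (α := a1) (β := c1) (γ := b2) (δ := a2) (ε := z2) ha1 hb2 hu1 hu2
        obtain ⟨R, hR1, hR2⟩ := typ_fin ω (t := e3) (v := v) (c := c3) (x := a3) (y := b3) (z := z3)
          P'' hp hc3 (by rw [hv3]; ring)
        refine ⟨R, ?_, ?_, ?_⟩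
        · rw [hU2, hR1]
        · rw [hR2, ← dv]; exact hP''2
        · intro hlt; rw [hR2, ← dv]; exact hP''4 hlt
      · exfalso; rw [du1, du2] at hd12; exact lt_irrefl _ hd12
      · exfalso; rw [du1, du2] at hd12; linarith
    · exact absurd (dv.trans du2.symm) hd2

theorem types_weak (ω : Wts) {e1 e2 e3 : B k} (H : JU e1 e2 e3) (h12 : D ω e1 < D ω e2) (h23 : D ω e2 < D ω e3)
    {U : Submodule k (B k)} (hA : Adj (sp e1 e2 e3) U) (hS : S ω U ≤ S ω (sp e1 e2 e3)) :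
    (∃ R : MvPolynomial (Fin 2) k, U = sp e1 e2 (e3 + ev R e1 e2) ∧ D ω (e3 + ev R e1 e2) ≤ D ω e3) ∨
    (∃ (l : k) (R : MvPolynomial (Fin 2) k), U = sp e1 (e3 + C l * e2) (e2 + ev R e1 (e3 + C l * e2)) ∧
      D ω (e2 + ev R e1 (e3 + C l * e2)) ≤ D ω e2) ∨
    (∃ (m l : k) (R : MvPolynomial (Fin 2) k),
      U = sp (e2 + C m * e1) (e3 + C l * e1) (e1 + ev R (e2 + C m * e1) (e3 + C l * e1)) ∧
      D ω (e1 + ev R (e2 + C m * e1) (e3 + C l * e1)) ≤ D ω e1) := by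
  rcases typ_core ω H h12 h23 hA hS with ⟨R, h1, h2, -⟩ | ⟨l, R, h1, h2, -⟩ | ⟨m, l, R, h1, h2, -⟩
  · exact Or.inl ⟨R, h1, h2⟩
  · exact Or.inr (Or.inl ⟨l, R, h1, h2⟩)
  · exact Or.inr (Or.inr ⟨m, l, R, h1, h2⟩)

theorem types_strict (ω : Wts) {e1 e2 e3 : B k} (H : JU e1 e2 e3) (h12 : D ω e1 < D ω e2) (h23 : D ω e2 < D ω e3)
    {U : Submodule k (B k)} (hA : Adj (sp e1 e2 e3) U) (hS : S ω U < S ω (sp e1 e2 e3)) :
    (∃ R : MvPolynomial (Fin 2) k, U = sp e1 e2 (e3 + ev R e1 e2) ∧ D ω (e3 + ev R e1 e2) < D ω e3) ∨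
    (∃ (l : k) (R : MvPolynomial (Fin 2) k), U = sp e1 (e3 + C l * e2) (e2 + ev R e1 (e3 + C l * e2)) ∧
      D ω (e2 + ev R e1 (e3 + C l * e2)) < D ω e2) ∨
    (∃ (m l : k) (R : MvPolynomial (Fin 2) k),
      U = sp (e2 + C m * e1) (e3 + C l * e1) (e1 + ev R (e2 + C m * e1) (e3 + C l * e1)) ∧
      D ω (e1 + ev R (e2 + C m * e1) (e3 + C l * e1)) < D ω e1) := by
  rcases typ_core ω H h12 h23 hA hS.le with ⟨R, h1, -, h2⟩ | ⟨l, R, h1, -, h2⟩ | ⟨m, l, R, h1, -, h2⟩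
  · exact Or.inl ⟨R, h1, h2 hS⟩
  · exact Or.inr (Or.inl ⟨l, R, h1, h2 hS⟩)
  · exact Or.inr (Or.inr ⟨m, l, R, h1, h2 hS⟩)

end SU
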