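import Pool.Agent.Lib.MP_374dcb_al.KeB
import Pool.Agent.Lib.MP_374dcb_al.Typ

/-!
# JOB Clo: the weak neighbours of a K-source

`KE ω x y`, unfolded: `Piv ω f1 f2 f3 δ`, `b = D f2`, `t = d f1 f3`, `p = f3 + C α * f2 ^ 2`, `x = sp f1 f2 p = sp f2 f1 p`, `y = sp f1 (f2 + ev R f1 f3) f3`; degrees `b < 2δ < c := D p ≤ 3δ` (`k2`), `d f1 f2 = 3δ + t`, `d f1 p = b + 3δ + t`, `d f2 p = 4δ + t`. Let `U` be a weak neighbour of `x`. `types_weak` for `(f2,f1,p)`:
 1. `U = sp f2 f1 (p + ev R' f2 f1)`, `D (ev R' f2 f1) ≤ c ≤ 3δ` (`D_of_add_le`). `par'` for `(f2,f1)`: second alternative: `L = p' b = q' 2δ`, `L ≤ 3δ/m + b + 2δ - 3δ - t < 2δ + b ≤ 7/2 δ`, so `q' = 1`, `p' b = 2δ`, `4/3 ≤ p' < 2`: no. First alternative: exponents `(i,j)` with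
   `b i + 2δ j ≤ c ≤ 3δ`: `(0,0),(1,0),(0,1),(2,0)`: so `ev R' f2 f1 = C β * f2 ^ 2 + linear`, `U = sp f1 f2 (f3 + C (α + β) * f2 ^ 2)` (`sp_add`). If `β = 0`: `U = x`: first conclusion. If `β ≠ 0`: `2 b ≤ c`; and `c = 3δ`: if `2 b < 3δ` then `D p = 3δ`; if `2 b = 3δ`, `c ≥ 2b = 3δ`.
   Second conclusion: `v := sp f1 f2 f3`: `S v = 5δ + b = S x` (`S_eq`; `D p = 3δ`), `U = sp f1 f2 (f3 + ev P f1 f2)` with `P = C (α + β) * X 1 ^ 2`, `y = sp f1 f3 (f2 + ev R f1 f3)`, both are neighbours of `v`, `S y < S x` (`ke_lt`).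
 2. `U = sp f2 w (f1 + ev R' f2 w)`, `w := p + C l * f1`, `D (ev R' f2 w) ≤ 2δ`, `D w = c`, `cr f2 w = cr f2 p + C l • cr f2 f1`: `d f2 w = 4δ + t`. Second alternative of `par'`: `L ≥ c` and `L ≤ 2δ/m + b + c - 4δ - t < c`: no. First: exponents with `b i + c j ≤ 2δ`: `i ≤ 1` (`2 b > 2δ`), `j = 0`: linear, so `U = x` (`sp_of_lin`; `x = sp f2 w f1`).
 3. `v := f1 + C m * f2`, `w := p + C l * f2`, `U = sp v w (f2 + ev R' v w)`, `D (ev R' v w) ≤ b`, `cr v w = cr f1 p + C l • cr f1 f2 + C m • cr f2 p`: degrees `b + 3δ + t > 4δ + t > 3δ + t`: `d v w = b + 3δ + t`. Second alternative: `L ≥ c`, `L ≤ b + 2δ + c - (b + 3δ + t) < c`: no. First: `2δ i + c j ≤ b < 2δ`: constant: `U = x`.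
-/

set_option autoImplicit false

open MvPolynomial

namespace SU

universe u
variable {k : Type u} [Field k] [CharZero k]

omit [CharZero k] in
private theorem clo_d_C_le (ω : Wts) (f g : B k) (c : k) : d ω f (C c * g) ≤ d ω f g := by
  by_cases hc : c = 0
  · have h1 : d ω f (C c * g) = 0 := by
      unfold d
      rw [cr_C_mul_right, hc, C_0, zero_smul, N_zero]
    rw [h1]
    exact d_nonneg ω f g
  · exact (d_C_mul_right ω hc f g).le

omit [CharZero k] in
private theorem clo_cr_ne (ω : Wts) {f g : B k} (h : 0 < d ω f g) : cr f g ≠ 0 := by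
  intro h0
  unfold d at h
  rw [h0, N_zero] at h
  exact lt_irrefl _ h

/-- first type of weak neighbours -/
private theorem clo_one {ω : Wts} {f1 f2 f3 : B k} {δ t : ℝ} {α : k} {R' : MvPolynomial (Fin 2) k} (hp : Piv ω f1 f2 f3 δ)
    (hδ : 0 < δ) (ht : 0 < t) (hd : d ω f2 f1 = 3 * δ + t) (hc1 : D ω (f3 + C α * f2 ^ 2) ≤ 3 * δ)
    (hev : D ω (ev R' f2 f1) ≤ D ω (f3 + C α * f2 ^ 2)) :
    (∃ β a b c : k, (β = 0 ∨ 2 * D ω f2 ≤ D ω (f3 + C α * f2 ^ 2)) ∧
      ev R' f2 f1 = C β * f2 ^ 2 + (C b * f1 + C a * f2 + C c)) := by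
  have h1 := hp.d1
  have hlo := hp.lo
  have hhi := hp.hi
  rcases par' ω (clo_cr_ne ω (hd ▸ by linarith : 0 < d ω f2 f1)) R' with hA | ⟨m, p', q', i, j, hm, hp', hq', -, hpq, hin, -, -, -⟩
  · have hexp : ∀ μ ∈ R'.support, μ ≠ Finsupp.single 0 2 → μ 0 + μ 1 ≤ 1 := by
      intro μ hμ hne
      have h2 := hA μ hμ
      rw [h1] at h2
      have h3 : (μ 0 : ℝ) * D ω f2 + μ 1 * (2 * δ) ≤ 3 * δ := by linarith
      have n0 : (0 : ℝ) ≤ (μ 0 : ℝ) := Nat.cast_nonneg _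
      have n1 : (0 : ℝ) ≤ (μ 1 : ℝ) := Nat.cast_nonneg _
      have h4 : μ 1 ≤ 1 := by
        by_contra hcon
        have h5 : (2 : ℝ) ≤ (μ 1 : ℝ) := by exact_mod_cast (by omega : 2 ≤ μ 1)
        have h6 : 0 ≤ (μ 0 : ℝ) * D ω f2 := mul_nonneg n0 (by linarith)
        have h7 : 2 * (2 * δ) ≤ (μ 1 : ℝ) * (2 * δ) := mul_le_mul_of_nonneg_right h5 (by linarith)
        linarith
      have h5 : μ 0 ≤ 2 := by
        by_contra hcon
        have h5 : (3 : ℝ) ≤ (μ 0 : ℝ) := by exact_mod_cast (by omega : 3 ≤ μ 0)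
        have h6 : 0 ≤ (μ 1 : ℝ) * (2 * δ) := mul_nonneg n1 (by linarith)
        have h7 : 3 * D ω f2 ≤ (μ 0 : ℝ) * D ω f2 := mul_le_mul_of_nonneg_right h5 (by linarith)
        linarith
      rcases Nat.lt_or_ge (μ 1) 1 with h6 | h6
      · have h7 : μ 1 = 0 := by omega
        have h8 : μ 0 ≠ 2 := by
          intro h8
          apply hne
          ext l
          fin_cases l
          · simpa using h8
          · simpa using h7
        omega
      · have h7 : μ 1 = 1 := by omega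
        rw [h7, Nat.cast_one, one_mul] at h3
        have h8 : μ 0 = 0 := by
          by_contra hcon
          have h5 : (1 : ℝ) ≤ (μ 0 : ℝ) := by exact_mod_cast (by omega : 1 ≤ μ 0)
          have h7 : 1 * D ω f2 ≤ (μ 0 : ℝ) * D ω f2 := mul_le_mul_of_nonneg_right h5 (by linarith)
          linarith
        omega
    obtain ⟨β, hβ⟩ : ∃ β, β = coeff (Finsupp.single 0 2) R' := ⟨_, rfl⟩
    have hsup : ∀ μ ∈ (R' - C β * X 0 ^ 2).support, μ 0 + μ 1 ≤ 1 := by
      intro μ hμ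
      rw [mem_support_iff, coeff_sub, coeff_C_mul, coeff_X_pow] at hμ
      by_cases hne : μ = Finsupp.single 0 2
      · rw [if_pos hne.symm, hne, ← hβ, mul_one, sub_self] at hμ
        exact absurd rfl hμ
      · rw [if_neg (Ne.symm hne), mul_zero, sub_zero] at hμ
        exact hexp μ (mem_support_iff.2 hμ) hne
    obtain ⟨a, b, c, habc⟩ := lin_of_support hsup
    refine ⟨β, a, b, c, ?_, ?_⟩
    · by_cases hβ0 : β = 0
      · exact Or.inl hβ0
      · right
        have h2 := hA (Finsupp.single 0 2) (mem_support_iff.2 (by rw [← hβ]; exact hβ0))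
        have e0 : (Finsupp.single (0 : Fin 2) 2) 0 = 2 := by simp
        have e1 : (Finsupp.single (0 : Fin 2) 2) 1 = 0 := by simp
        rw [e0, e1] at h2
        push_cast at h2
        linarith
    · have h2 : R' = C β * X 0 ^ 2 + (C a * X 0 + C b * X 1 + C c) := by
        rw [← habc]
        ring
      rw [h2, ev_add, ev_lin, ev_mul, ev_C, sq, ev_mul, ev_X0]
      ring
  · exfalso
    rw [h1] at hpq hin
    rw [hd] at hin
    have hm1 : (1 : ℝ) ≤ (m : ℝ) := by exact_mod_cast hm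
    have hi0 : 0 ≤ (i : ℝ) * D ω f2 := mul_nonneg (Nat.cast_nonneg _) (by linarith)
    have hj0 : 0 ≤ (j : ℝ) * (2 * δ) := mul_nonneg (Nat.cast_nonneg _) (by linarith)
    rcases Nat.lt_or_ge q' 2 with h2 | h2
    · have h3 : q' = 1 := by omega
      rw [h3, Nat.cast_one, one_mul] at hpq
      rcases Nat.lt_or_ge p' 2 with h4 | h4
      · have h5 : p' = 1 := by omega
        rw [h5, Nat.cast_one, one_mul] at hpq
        linarith
      · have h5 : (2 : ℝ) ≤ (p' : ℝ) := by exact_mod_cast h4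
        have h6 : 2 * D ω f2 ≤ (p' : ℝ) * D ω f2 := mul_le_mul_of_nonneg_right h5 (by linarith)
        linarith
    · have h3 : (2 : ℝ) ≤ (q' : ℝ) := by exact_mod_cast h2
      have h4 : 2 * (2 * δ) ≤ (q' : ℝ) * (2 * δ) := mul_le_mul_of_nonneg_right h3 (by linarith)
      have h5 : (m : ℝ) * (2 * (2 * δ)) ≤ m * (p' * D ω f2) := by
        rw [hpq]
        exact mul_le_mul_of_nonneg_left h4 (by linarith)
      have h6 : (m : ℝ) * (4 * δ - (D ω f2 + 2 * δ - (3 * δ + t))) ≤ 3 * δ := by linarith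
      have h7 : 1 * (4 * δ - (D ω f2 + 2 * δ - (3 * δ + t))) ≤ (m : ℝ) * (4 * δ - (D ω f2 + 2 * δ - (3 * δ + t))) :=
        mul_le_mul_of_nonneg_right hm1 (by linarith)
      linarith

theorem clo {ω : Wts} {x y U : Submodule k (B k)} (h : KE ω x y) (hU : Adj x U) (hS : S ω U ≤ S ω x) :
    U = x ∨ ∃ v : Submodule k (B k), S ω v = S ω x ∧ Adj v U ∧ Adj v y ∧ S ω y < S ω x := by
  have hlt := ke_lt h
  obtain ⟨f1, f2, f3, δ, α, R, hp, hα, h1, h2, hx, hy⟩ := h
  obtain ⟨ht, htb, hd12, hd23⟩ := k1 hp h1 h2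
  obtain ⟨hd1p, hd2p, hplo, hphi, hp2⟩ := k2 hp h1 h2 hα
  have hD1 := hp.d1
  have hD3 := hp.d3
  have hlo := hp.lo
  have hhi := hp.hi
  have hδ : 0 < δ := by
    have := (hp.ju.pos ω).1
    linarith
  have hevp : ev (C α * X 1 ^ 2) f1 f2 = C α * f2 ^ 2 := by
    rw [ev_mul, ev_C, sq, ev_mul, ev_X1, sq]
  have hjp : JU f1 f2 (f3 + C α * f2 ^ 2) := by
    have := hp.ju.add_ev (C α * X 1 ^ 2)
    rw [hevp] at this
    exact this
  have hx' : x = sp f2 f1 (f3 + C α * f2 ^ 2) := by rw [hx, sp_swap12]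
  have hd21 : d ω f2 f1 = 3 * δ + d ω f1 f3 := by rw [d_symm, hd12]
  obtain ⟨t, htd⟩ : ∃ t, t = d ω f1 f3 := ⟨_, rfl⟩
  rw [← htd] at ht htb hd12 hd23 hd1p hd2p hplo hd21
  rw [hx'] at hU
  have hS' : S ω U ≤ S ω (sp f2 f1 (f3 + C α * f2 ^ 2)) := by rwa [← hx']
  rcases types_weak ω hjp.swap (by linarith) (by linarith) hU hS' with ⟨R', hU1, hU2⟩ | ⟨l, R', hU1, hU2⟩ | ⟨μ, l, R', hU1, hU2⟩
  · obtain ⟨β, a, b, c, hβ, hev⟩ := clo_one hp hδ ht hd21 hphi (D_of_add_le ω hU2)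
    by_cases hβ0 : β = 0
    · left
      rw [hU1, hev, hβ0, C_0, zero_mul, zero_add, hx']
      have e1 : C b * f1 + C a * f2 + C c = C a * f2 + C b * f1 + C c := by ring
      rw [e1, sp_add]
    · right
      have hβ' := hβ.resolve_left hβ0
      have hc3 : D ω (f3 + C α * f2 ^ 2) = 3 * δ := by
        rcases lt_or_eq_of_le (by linarith : 2 * D ω f2 ≤ 3 * δ) with h3 | h3
        · have h4 : D ω (C α * f2 ^ 2) < D ω f3 := by
            rw [D_C_mul ω hα, D_pow, hD3]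
            push_cast
            exact h3
          rw [D_add_left ω h4, hD3]
        · linarith
      refine ⟨sp f1 f2 f3, ?_, ?_, ?_, hlt⟩
      · rw [S_eq ω hp.ju (by linarith) (by linarith) (by linarith), hx,
          S_eq ω hjp (by linarith) (by linarith) (by linarith), hc3, hD3]
      · refine ⟨f1, f2, f3, C (α + β) * X 1 ^ 2, hp.ju, rfl, ?_⟩
        have e1 : ev (C (α + β) * X 1 ^ 2) f1 f2 = C (α + β) * f2 ^ 2 := by
          rw [ev_mul, ev_C, sq, ev_mul, ev_X1, sq]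
        have e2 : f3 + C α * f2 ^ 2 + (C β * f2 ^ 2 + (C b * f1 + C a * f2 + C c)) =
            (f3 + C (α + β) * f2 ^ 2) + (C b * f1 + C a * f2 + C c) := by
          rw [C_add]
          ring
        rw [hU1, hev, e1, sp_swap12, e2, sp_add]
      · refine ⟨f1, f3, f2, R, hp.ju.swap', ?_, ?_⟩
        · rw [sp_swap23]
        · rw [hy, sp_swap23]
  · left
    have hcl : D ω (C l * f1) ≤ 2 * δ := by
      have := D_C_mul_le ω l f1
      linarith
    have hDw : D ω (f3 + C α * f2 ^ 2 + C l * f1) = D ω (f3 + C α * f2 ^ 2) := D_add_left ω (by linarith)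
    have hdw : d ω f2 (f3 + C α * f2 ^ 2 + C l * f1) = 4 * δ + t := by
      rw [d_add_right_left ω (by
        have := clo_d_C_le ω f2 f1 l
        rw [hd2p]
        linarith), hd2p]
    have hDe := D_of_add_le ω hU2
    rw [hU1, sp_of_lin, hx', sp_swap23]
    · have e1 : f3 + C α * f2 ^ 2 + C l * f1 = f3 + C α * f2 ^ 2 + (C 0 * f2 + C l * f1 + C 0) := by
        rw [C_0]
        ring
      rw [e1, sp_add]
    · rcases par' ω (clo_cr_ne ω (hdw ▸ by linarith : 0 < d ω f2 (f3 + C α * f2 ^ 2 + C l * f1))) R' with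
        hA | ⟨m, p', q', i, j, hm, hp', hq', -, hpq, hin, -, -, -⟩
      · intro ν hν
        have h3 := hA ν hν
        rw [hDw] at h3
        have n0 : (0 : ℝ) ≤ (ν 0 : ℝ) := Nat.cast_nonneg _
        have n1 : (0 : ℝ) ≤ (ν 1 : ℝ) := Nat.cast_nonneg _
        have h4 : ν 1 = 0 := by
          by_contra hcon
          have h5 : (1 : ℝ) ≤ (ν 1 : ℝ) := by exact_mod_cast (by omega : 1 ≤ ν 1)
          have h6 : 0 ≤ (ν 0 : ℝ) * D ω f2 := mul_nonneg n0 (by linarith)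
          have h7 : 1 * D ω (f3 + C α * f2 ^ 2) ≤ (ν 1 : ℝ) * D ω (f3 + C α * f2 ^ 2) :=
            mul_le_mul_of_nonneg_right h5 (by linarith)
          linarith
        have h5 : ν 0 ≤ 1 := by
          by_contra hcon
          have h5 : (2 : ℝ) ≤ (ν 0 : ℝ) := by exact_mod_cast (by omega : 2 ≤ ν 0)
          have h6 : 0 ≤ (ν 1 : ℝ) * D ω (f3 + C α * f2 ^ 2) := mul_nonneg n1 (by linarith)
          have h7 : 2 * D ω f2 ≤ (ν 0 : ℝ) * D ω f2 := mul_le_mul_of_nonneg_right h5 (by linarith)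
          linarith
        omega
      · exfalso
        rw [hDw] at hpq hin
        rw [hdw] at hin
        have hm1 : (1 : ℝ) ≤ (m : ℝ) := by exact_mod_cast hm
        have hq1 : (1 : ℝ) ≤ (q' : ℝ) := by exact_mod_cast hq'
        have hi0 : 0 ≤ (i : ℝ) * D ω f2 := mul_nonneg (Nat.cast_nonneg _) (by linarith)
        have hj0 : 0 ≤ (j : ℝ) * D ω (f3 + C α * f2 ^ 2) := mul_nonneg (Nat.cast_nonneg _) (by linarith)
        have h4 : 1 * D ω (f3 + C α * f2 ^ 2) ≤ (q' : ℝ) * D ω (f3 + C α * f2 ^ 2) :=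
          mul_le_mul_of_nonneg_right hq1 (by linarith)
        have h5 : (m : ℝ) * (1 * D ω (f3 + C α * f2 ^ 2)) ≤ m * (p' * D ω f2) := by
          rw [hpq]
          exact mul_le_mul_of_nonneg_left h4 (by linarith)
        have h6 : (m : ℝ) * (4 * δ + t - D ω f2) ≤ 2 * δ := by linarith
        have h7 : 1 * (4 * δ + t - D ω f2) ≤ (m : ℝ) * (4 * δ + t - D ω f2) :=
          mul_le_mul_of_nonneg_right hm1 (by linarith)
        linarith
  · left
    have hcμ : D ω (C μ * f2) ≤ D ω f2 := D_C_mul_le ω μ f2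
    have hcl : D ω (C l * f2) ≤ D ω f2 := D_C_mul_le ω l f2
    have hDv : D ω (f1 + C μ * f2) = 2 * δ := by
      rw [D_add_left ω (by linarith), hD1]
    have hDw : D ω (f3 + C α * f2 ^ 2 + C l * f2) = D ω (f3 + C α * f2 ^ 2) := D_add_left ω (by linarith)
    have hd1w : d ω f1 (f3 + C α * f2 ^ 2 + C l * f2) = D ω f2 + 3 * δ + t := by
      rw [d_add_right_left ω (by
        have := clo_d_C_le ω f1 f2 l
        rw [hd1p]
        linarith), hd1p]
    have hd2w : d ω f2 (f3 + C α * f2 ^ 2 + C l * f2) = 4 * δ + t := by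
      rw [d_add_mul_right, hd2p]
    have hdvw : d ω (f1 + C μ * f2) (f3 + C α * f2 ^ 2 + C l * f2) = D ω f2 + 3 * δ + t := by
      rw [d_symm, d_add_right_left ω (by
        have := clo_d_C_le ω (f3 + C α * f2 ^ 2 + C l * f2) f2 μ
        rw [d_symm ω f2 _, hd2w] at this
        rw [d_symm ω f1 _, hd1w]
        linarith), d_symm ω f1 _, hd1w]
    have hDe := D_of_add_le ω hU2
    rw [hU1, sp_of_lin, hx']
    · have e1 : f3 + C α * f2 ^ 2 + C l * f2 = f3 + C α * f2 ^ 2 + (C l * f2 + C 0 * (f1 + C μ * f2) + C 0) := by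
        rw [C_0]
        ring
      have e2 : f1 + C μ * f2 = f1 + (C μ * f2 + C 0 * (f3 + C α * f2 ^ 2) + C 0) := by
        rw [C_0]
        ring
      rw [sp_rot, e1, sp_add, sp_swap23, e2, sp_add, sp_swap23]
    · rcases par' ω (clo_cr_ne ω (hdvw ▸ by linarith : 0 < d ω (f1 + C μ * f2) (f3 + C α * f2 ^ 2 + C l * f2))) R' with
        hA | ⟨m, p', q', i, j, hm, hp', hq', -, hpq, hin, -, -, -⟩
      · intro ν hν
        have h3 := hA ν hν
        rw [hDv, hDw] at h3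
        have n0 : (0 : ℝ) ≤ (ν 0 : ℝ) := Nat.cast_nonneg _
        have n1 : (0 : ℝ) ≤ (ν 1 : ℝ) := Nat.cast_nonneg _
        have h4 : ν 1 = 0 := by
          by_contra hcon
          have h5 : (1 : ℝ) ≤ (ν 1 : ℝ) := by exact_mod_cast (by omega : 1 ≤ ν 1)
          have h6 : 0 ≤ (ν 0 : ℝ) * (2 * δ) := mul_nonneg n0 (by linarith)
          have h7 : 1 * D ω (f3 + C α * f2 ^ 2) ≤ (ν 1 : ℝ) * D ω (f3 + C α * f2 ^ 2) :=
            mul_le_mul_of_nonneg_right h5 (by linarith)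
          linarith
        have h5 : ν 0 = 0 := by
          by_contra hcon
          have h5 : (1 : ℝ) ≤ (ν 0 : ℝ) := by exact_mod_cast (by omega : 1 ≤ ν 0)
          have h6 : 0 ≤ (ν 1 : ℝ) * D ω (f3 + C α * f2 ^ 2) := mul_nonneg n1 (by linarith)
          have h7 : 1 * (2 * δ) ≤ (ν 0 : ℝ) * (2 * δ) := mul_le_mul_of_nonneg_right h5 (by linarith)
          linarith
        omega
      · exfalso
        rw [hDv, hDw] at hpq hin
        rw [hdvw] at hin
        have hm1 : (1 : ℝ) ≤ (m : ℝ) := by exact_mod_cast hm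
        have hq1 : (1 : ℝ) ≤ (q' : ℝ) := by exact_mod_cast hq'
        have hi0 : 0 ≤ (i : ℝ) * (2 * δ) := mul_nonneg (Nat.cast_nonneg _) (by linarith)
        have hj0 : 0 ≤ (j : ℝ) * D ω (f3 + C α * f2 ^ 2) := mul_nonneg (Nat.cast_nonneg _) (by linarith)
        have h4 : 1 * D ω (f3 + C α * f2 ^ 2) ≤ (q' : ℝ) * D ω (f3 + C α * f2 ^ 2) :=
          mul_le_mul_of_nonneg_right hq1 (by linarith)
        have h5 : (m : ℝ) * (1 * D ω (f3 + C α * f2 ^ 2)) ≤ m * (p' * (2 * δ)) := by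
          rw [hpq]
          exact mul_le_mul_of_nonneg_left h4 (by linarith)
        have h6 : (m : ℝ) * (D ω f2 + δ + t) ≤ D ω f2 := by linarith
        have h7 : 1 * (D ω f2 + δ + t) ≤ (m : ℝ) * (D ω f2 + δ + t) :=
          mul_le_mul_of_nonneg_right hm1 (by linarith)
        linarith

end SU
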