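import Pool.Agent.Lib.MP_374dcb_al.AdjL

/-!
# JOB Com: two neighbours of a vertex

`V = sp f g h`, `X = sp f g (h + ev P f g)` and `V = sp f' g' h'`, `Y = sp f' g' (h' + ev P' f' g')`. If `pl f g = pl f' g'`: `h' = C c * h + (element of pl f g)` (`c ≠ 0`), so
`Y = sp f g (h + ev Q f g)` (scale by `c⁻¹`, `sp_C_mul`, `sp_of_pl`, `ev_of_pl`): first alternative with `(u,v,w) = (f,g,h)`.
Otherwise: `V` has dimension 4 (`JU`), the planes have dimension 3 and contain `1`; elementary: `f' = C a * f + C b * g + C c * h + C e`, `g' = C a' * f + C b' * g + C c' * h + C e'` with `c ≠ 0` or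
`c' ≠ 0` (else `pl f' g' = pl f g` by independence). The combination `f1 := C c' * f' - C c * g'` lies in `pl f g ∩ pl f' g'` and is nonconstant. Let `f3 := f'` if `c ≠ 0`, else `g'`: `pl f' g' = pl f1 f3`. And
`f1 = C x * f + C y * g + C z` with `x ≠ 0` or `y ≠ 0`: `pl f g = pl f1 f2` with `f2 := g` or `f`. `f3 ∉ pl f g`, so `V = sp f1 f2 f3`. `h = C s * f3 + (element of pl f1 f2)`, `s ≠ 0`, so
`X = sp f1 f2 (f3 + ev P1 f1 f2)`; `h' = C s' * f2 + (element of pl f1 f3)`, so `Y = sp f1 f3 (f2 + ev Q1 f1 f3)`.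
Finally replace `f2` by an element `f2 + C a * f1` of minimal degree (`exists_D_min`), then `D f2 ≠ D f1` (else reduce by `lead_cancel`), and the same for `f3`; the planes and spans do not change
(`sp_of_pl`, `ev_of_pl`; `f3 + C a * f1 + ev P f1 f2 = f3' + ...`, the linear terms go into the polynomial).
-/

set_option autoImplicit false

open MvPolynomial

namespace SU

universe u
variable {k : Type u} [Field k] [CharZero k]

/-- Two weak neighbours `X`, `Y` of `V` with centers `(f1,f2)` and `(f1,f3)`. -/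
structure Sit (ω : Wts) (V X Y : Submodule k (B k)) (f1 f2 f3 : B k) (P Q : MvPolynomial (Fin 2) k) : Prop where
  ju : JU f1 f2 f3
  hV : V = sp f1 f2 f3
  n12 : D ω f1 ≠ D ω f2
  n13 : D ω f1 ≠ D ω f3
  hX : X = sp f1 f2 (f3 + ev P f1 f2)
  hY : Y = sp f1 f3 (f2 + ev Q f1 f3)
  wX : S ω X ≤ S ω V
  wY : S ω Y ≤ S ω V

theorem Sit.symm {ω : Wts} {V X Y : Submodule k (B k)} {f1 f2 f3 : B k} {P Q : MvPolynomial (Fin 2) k}
    (s : Sit ω V X Y f1 f2 f3 P Q) : Sit ω V Y X f1 f3 f2 Q P where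
  ju := s.ju.swap'
  hV := by rw [s.hV, sp_swap23]
  n12 := s.n13
  n13 := s.n12
  hX := s.hY
  hY := s.hX
  wX := s.wY
  wY := s.wX

omit [CharZero k] in
private theorem Com_C_mul_mem (W : Submodule k (B k)) {x : B k} (hx : x ∈ W) (c : k) : C c * x ∈ W := by
  rw [← MvPolynomial.smul_eq_C_mul]
  exact W.smul_mem c hx

omit [CharZero k] in
private theorem Com_C_mem (f g : B k) (c : k) : (C c : B k) ∈ pl f g :=
  mem_pl.2 ⟨0, 0, c, by simp⟩

omit [CharZero k] in
private theorem Com_left_mem (f g : B k) : f ∈ pl f g :=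
  mem_pl.2 ⟨1, 0, 0, by simp⟩

omit [CharZero k] in
private theorem Com_right_mem (f g : B k) : g ∈ pl f g :=
  mem_pl.2 ⟨0, 1, 0, by simp⟩

omit [CharZero k] in
private theorem Com_pl_le {f g u v : B k} (hu : u ∈ pl f g) (hv : v ∈ pl f g) : pl u v ≤ pl f g := by
  intro x hx
  obtain ⟨a, b, e, rfl⟩ := mem_pl.1 hx
  exact Submodule.add_mem _ (Submodule.add_mem _ (Com_C_mul_mem _ hu a) (Com_C_mul_mem _ hv b)) (Com_C_mem f g e)

omit [CharZero k] in
private theorem Com_pl_sp (f g h : B k) : pl f g ≤ sp f g h := by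
  intro x hx
  obtain ⟨a, b, e, rfl⟩ := mem_pl.1 hx
  exact mem_sp.2 ⟨a, b, 0, e, by simp⟩

omit [CharZero k] in
private theorem Com_not_mem (ω : Wts) {u v w : B k} (H : JU u v w) : w ∉ pl u v := by
  intro hw
  obtain ⟨a, b, e, he⟩ := mem_pl.1 hw
  have h1 := (H.add_ev (-(C a * X 0 + C b * X 1 + C e))).pos ω
  rw [ev_neg, ev_lin, ← he, add_neg_cancel, D_zero] at h1
  exact lt_irrefl _ h1.2.2

omit [CharZero k] in
private theorem Com_inv {c : k} (hc : c ≠ 0) : (C c⁻¹ : B k) * C c = 1 := by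
  rw [← C_mul, inv_mul_cancel₀ hc, C_1]

omit [CharZero k] in
private theorem Com_coef {f g h w : B k} (hw : w ∈ sp f g h) (hn : w ∉ pl f g) :
    ∃ a b c e : k, c ≠ 0 ∧ w = C a * f + C b * g + C c * h + C e := by
  obtain ⟨a, b, c, e, he⟩ := mem_sp.1 hw
  refine ⟨a, b, c, e, ?_, he⟩
  rintro rfl
  exact hn (mem_pl.2 ⟨a, b, e, by rw [he]; simp⟩)

omit [CharZero k] in
/-- change of the basis for a given center -/
private theorem Com_center {f g h u v w : B k} (hp : pl u v = pl f g) (hw : w ∈ sp f g h) (hn : w ∉ pl f g)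
    (P : MvPolynomial (Fin 2) k) :
    ∃ Q : MvPolynomial (Fin 2) k, sp f g (h + ev P f g) = sp u v (w + ev Q u v) := by
  obtain ⟨a, b, c, e, hc, he⟩ := Com_coef hw hn
  have h1 : C c * (h + ev P f g) = w + ev (C c * P - (C a * X 0 + C b * X 1 + C e)) f g := by
    rw [ev_sub, ev_mul, ev_C, ev_lin, he]
    ring
  obtain ⟨Q, hQ⟩ := ev_of_pl hp (C c * P - (C a * X 0 + C b * X 1 + C e))
  refine ⟨Q, ?_⟩
  rw [← hQ, sp_of_pl hp, ← h1, sp_C_mul _ _ _ hc]

omit [CharZero k] in
private theorem Com_sp {f g h u v w : B k} (hp : pl u v = pl f g) (hw : w ∈ sp f g h) (hn : w ∉ pl f g) :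
    sp u v w = sp f g h := by
  obtain ⟨a, b, c, e, hc, he⟩ := Com_coef hw hn
  have h1 : w = C c * h + (C a * f + C b * g + C e) := by rw [he]; ring
  rw [sp_of_pl hp, h1, sp_add, sp_C_mul _ _ _ hc]

omit [CharZero k] in
private theorem Com_pl_eq (ω : Wts) {f g f' g' h' : B k} (H' : JU f' g' h') (hf' : f' ∈ pl f g)
    (hg' : g' ∈ pl f g) : pl f' g' = pl f g := by
  refine le_antisymm (Com_pl_le hf' hg') ?_
  obtain ⟨a, b, e, he⟩ := mem_pl.1 hf'
  obtain ⟨a', b', e', he'⟩ := mem_pl.1 hg'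
  have hD : a * b' - a' * b ≠ 0 := by
    intro h0
    -- constants
    have key : ∀ s t : k, s * a + t * a' = 0 → s * b + t * b' = 0 → s = 0 ∧ t = 0 := by
      intro s t h1 h2
      by_contra hne
      have hor : s ≠ 0 ∨ t ≠ 0 ∨ (0 : k) ≠ 0 := by
        by_contra hcon
        push Not at hcon
        exact hne ⟨hcon.1, hcon.2.1⟩
      have h3 := H'.pos_comb ω (e := 0) hor
      have h4 : C s * f' + C t * g' + C 0 * h' + C 0 = (C (s * e + t * e') : B k) := by
        rw [he, he']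
        have h5 : (C (s * a + t * a') : B k) * f + C (s * b + t * b') * g = 0 := by
          rw [h1, h2]; simp
        simp only [C_0, C_add, C_mul] at h5 ⊢
        linear_combination h5
      rw [h4, D_C] at h3
      exact lt_irrefl _ h3
    have k1 := key b' (-b) (by linear_combination h0) (by ring)
    have k2 := key a' (-a) (by ring) (by linear_combination -h0)
    have hb : b = 0 := neg_eq_zero.1 k1.2
    have ha : a = 0 := neg_eq_zero.1 k2.2
    have h6 := (H'.pos ω).1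
    rw [he, ha, hb] at h6
    simp only [C_0, zero_mul, zero_add, D_C] at h6
    exact lt_irrefl _ h6
  have hDi := Com_inv hD
  refine Com_pl_le ?_ ?_
  · have : f = C (a * b' - a' * b)⁻¹ * (C b' * f' - C b * g' + C (b * e' - b' * e)) := by
      rw [he, he']
      simp only [C_sub, C_mul] at hDi ⊢
      linear_combination (-f) * hDi
    rw [this]
    refine Com_C_mul_mem _ (Submodule.add_mem _ (Submodule.sub_mem _ (Com_C_mul_mem _ (Com_left_mem _ _) _)
      (Com_C_mul_mem _ (Com_right_mem _ _) _)) (Com_C_mem _ _ _)) _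
  · have : g = C (a * b' - a' * b)⁻¹ * (C a * g' - C a' * f' + C (a' * e - a * e')) := by
      rw [he, he']
      simp only [C_sub, C_mul] at hDi ⊢
      linear_combination (-g) * hDi
    rw [this]
    refine Com_C_mul_mem _ (Submodule.add_mem _ (Submodule.sub_mem _ (Com_C_mul_mem _ (Com_right_mem _ _) _)
      (Com_C_mul_mem _ (Com_left_mem _ _) _)) (Com_C_mem _ _ _)) _

omit [CharZero k] in
/-- reduction of the second element of a plane -/
private theorem Com_min (ω : Wts) {f1 f2 : B k} (h0 : 0 < D ω f1) :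
    ∃ a : k, D ω f1 ≠ D ω (f2 + C a * f1) := by
  obtain ⟨u, ⟨a, rfl⟩, hmin⟩ := exists_D_min ω (s := {x | ∃ a : k, x = f2 + C a * f1}) ⟨f2, 0, by simp⟩
  refine ⟨a, fun hEq => ?_⟩
  obtain ⟨c, _, hlt⟩ := lead_cancel ω hEq.symm h0
  have h1 := hmin (f2 + C a * f1 - C c * f1) ⟨a - c, by rw [C_sub]; ring⟩
  rw [← hEq] at h1
  exact absurd hlt (not_lt.2 h1)

omit [CharZero k] in
private theorem Com_pl_add (f1 f2 : B k) (a : k) : pl f1 (f2 + C a * f1) = pl f1 f2 := by
  refine le_antisymm (Com_pl_le (Com_left_mem _ _) ?_) (Com_pl_le (Com_left_mem _ _) ?_)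
  · exact Submodule.add_mem _ (Com_right_mem _ _) (Com_C_mul_mem _ (Com_left_mem _ _) _)
  · have h : f2 = (f2 + C a * f1) - C a * f1 := by ring
    have h2 : (f2 + C a * f1) - C a * f1 ∈ pl f1 (f2 + C a * f1) :=
      Submodule.sub_mem _ (Com_right_mem _ _) (Com_C_mul_mem _ (Com_left_mem _ _) _)
    rw [← h] at h2
    exact h2

private theorem Com_case (ω : Wts) {V X Y : Submodule k (B k)} {f g h f' g' h' : B k}
    {P P' : MvPolynomial (Fin 2) k} (H : JU f g h) (H' : JU f' g' h') (hV : V = sp f g h) (hV' : V = sp f' g' h')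
    (hf' : f' ∉ pl f g) (hX : X = sp f g (h + ev P f g)) (hY : Y = sp f' g' (h' + ev P' f' g'))
    (wX : S ω X ≤ S ω V) (wY : S ω Y ≤ S ω V) :
    ∃ (f1 f2 f3 : B k) (P Q : MvPolynomial (Fin 2) k), Sit ω V X Y f1 f2 f3 P Q := by
  have hspV : sp f' g' h' = sp f g h := by rw [← hV, hV']
  have hf'V : f' ∈ sp f g h := by
    rw [← hspV]
    exact Com_pl_sp _ _ _ (Com_left_mem _ _)
  have hg'V : g' ∈ sp f g h := by
    rw [← hspV]
    exact Com_pl_sp _ _ _ (Com_right_mem _ _)
  obtain ⟨a, b, c, e, hc, he⟩ := Com_coef hf'V hf'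
  obtain ⟨a', b', c', e', he'⟩ := mem_sp.1 hg'V
  obtain ⟨f1, hf1⟩ : ∃ f1 : B k, f1 = C c' * f' - C c * g' := ⟨_, rfl⟩
  have hf1' : f1 = C (c' * a - c * a') * f + C (c' * b - c * b') * g + C (c' * e - c * e') := by
    rw [hf1, he, he']
    simp only [C_sub, C_mul]
    ring
  have hpos : 0 < D ω f1 := by
    have h1 := H'.pos_comb ω (a := c') (b := -c) (c := 0) (e := 0) (Or.inr (Or.inl (neg_ne_zero.2 hc)))
    have h2 : C c' * f' + C (-c) * g' + C 0 * h' + C 0 = f1 := by
      rw [hf1]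
      simp only [C_neg, C_0]
      ring
    rw [h2] at h1
    exact h1
  -- second element of the first plane
  obtain ⟨f2₀, hf2₀⟩ : ∃ f2₀ : B k, pl f1 f2₀ = pl f g := by
    have hf1m : f1 ∈ pl f g := mem_pl.2 ⟨_, _, _, hf1'⟩
    by_cases hx : c' * a - c * a' = 0
    · by_cases hy : c' * b - c * b' = 0
      · exfalso
        rw [hf1', hx, hy] at hpos
        simp only [C_0, zero_mul, zero_add, D_C] at hpos
        exact lt_irrefl _ hpos
      · refine ⟨f, le_antisymm (Com_pl_le hf1m (Com_left_mem _ _)) (Com_pl_le (Com_right_mem _ _) ?_)⟩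
        have hi := Com_inv hy
        have h3 : g = C (c' * b - c * b')⁻¹ * (f1 - C (c' * a - c * a') * f - C (c' * e - c * e')) := by
          rw [hf1']
          linear_combination (-g) * hi
        rw [h3]
        exact Com_C_mul_mem _ (Submodule.sub_mem _ (Submodule.sub_mem _ (Com_left_mem _ _)
          (Com_C_mul_mem _ (Com_right_mem _ _) _)) (Com_C_mem _ _ _)) _
    · refine ⟨g, le_antisymm (Com_pl_le hf1m (Com_right_mem _ _)) (Com_pl_le ?_ (Com_right_mem _ _))⟩
      have hi := Com_inv hx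
      have h3 : f = C (c' * a - c * a')⁻¹ * (f1 - C (c' * b - c * b') * g - C (c' * e - c * e')) := by
        rw [hf1']
        linear_combination (-f) * hi
      rw [h3]
      exact Com_C_mul_mem _ (Submodule.sub_mem _ (Submodule.sub_mem _ (Com_left_mem _ _)
        (Com_C_mul_mem _ (Com_right_mem _ _) _)) (Com_C_mem _ _ _)) _
  have hpl' : pl f1 f' = pl f' g' := by
    refine le_antisymm (Com_pl_le ?_ (Com_left_mem _ _)) (Com_pl_le (Com_right_mem _ _) ?_)
    · rw [hf1]
      exact Submodule.sub_mem _ (Com_C_mul_mem _ (Com_left_mem _ _) _) (Com_C_mul_mem _ (Com_right_mem _ _) _)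
    · have hi := Com_inv hc
      have h3 : g' = C c⁻¹ * (C c' * f' - f1) := by
        rw [hf1]
        linear_combination (-g') * hi
      rw [h3]
      exact Com_C_mul_mem _ (Submodule.sub_mem _ (Com_C_mul_mem _ (Com_right_mem _ _) _) (Com_left_mem _ _)) _
  obtain ⟨α, hα⟩ := Com_min ω (f2 := f2₀) hpos
  obtain ⟨β, hβ⟩ := Com_min ω (f2 := f') hpos
  set f2 : B k := f2₀ + C α * f1 with hf2
  set f3 : B k := f' + C β * f1 with hf3
  have hp2 : pl f1 f2 = pl f g := by rw [hf2, Com_pl_add, hf2₀]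
  have hp3 : pl f1 f3 = pl f' g' := by rw [hf3, Com_pl_add, hpl']
  have hf1m : f1 ∈ pl f g := by
    rw [← hp2]
    exact Com_left_mem _ _
  have hf3n : f3 ∉ pl f g := by
    intro hcon
    apply hf'
    have h4 : f' = f3 - C β * f1 := by rw [hf3]; ring
    rw [h4]
    exact Submodule.sub_mem _ hcon (Com_C_mul_mem _ hf1m _)
  have hf3V : f3 ∈ sp f g h := by
    rw [← hspV]
    refine Com_pl_sp _ _ _ ?_
    rw [← hp3]
    exact Com_right_mem _ _
  have hsp : sp f1 f2 f3 = sp f g h := Com_sp hp2 hf3V hf3n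
  have hju : JU f1 f2 f3 := H.of_span hsp
  have hf2V : f2 ∈ sp f' g' h' := by
    rw [hspV]
    refine Com_pl_sp _ _ _ ?_
    rw [← hp2]
    exact Com_right_mem _ _
  have hf2n : f2 ∉ pl f' g' := by
    rw [← hp3]
    exact Com_not_mem ω hju.swap'
  obtain ⟨P1, hP1⟩ := Com_center hp2 hf3V hf3n P
  obtain ⟨Q1, hQ1⟩ := Com_center hp3 hf2V hf2n P'
  exact ⟨f1, f2, f3, P1, Q1, ⟨hju, by rw [hV, hsp], hα, hβ, by rw [hX, hP1], by rw [hY, hQ1], wX, wY⟩⟩

theorem common (ω : Wts) {V X Y : Submodule k (B k)} (hX : Adj V X) (hY : Adj V Y) (wX : S ω X ≤ S ω V)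
    (wY : S ω Y ≤ S ω V) :
    (∃ (u v w : B k) (P Q : MvPolynomial (Fin 2) k), JU u v w ∧ V = sp u v w ∧ X = sp u v (w + ev P u v) ∧
      Y = sp u v (w + ev Q u v)) ∨
    (∃ (f1 f2 f3 : B k) (P Q : MvPolynomial (Fin 2) k), Sit ω V X Y f1 f2 f3 P Q) := by
  obtain ⟨f, g, h, P, H, hV, hX⟩ := hX
  obtain ⟨f', g', h', P', H', hV', hY⟩ := hY
  by_cases hf' : f' ∈ pl f g
  · by_cases hg' : g' ∈ pl f g
    · left
      have hp := Com_pl_eq ω H' hf' hg'
      have hw : h' ∈ sp f g h := by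
        rw [← hV, hV']
        exact mem_sp.2 ⟨0, 0, 1, 0, by simp⟩
      have hn : h' ∉ pl f g := by
        rw [← hp]
        exact Com_not_mem ω H'
      obtain ⟨Q, hQ⟩ := Com_center hp hw hn P
      exact ⟨f', g', h', Q, P', H', hV', by rw [hX, hQ], hY⟩
    · right
      obtain ⟨P'', hP'', _⟩ := ev_swap P'
      refine Com_case ω (P' := P'') H H'.swap hV (by rw [hV', sp_swap12]) hg' hX ?_ wX wY
      rw [hY, hP'', sp_swap12]
  · right
    exact Com_case ω H H' hV hV' hf' hX hY wX wY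

end SU
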