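import Pool.Agent.Lib.MP_374dcb_al.Eul

/-!
# JOB Cr: algebra of the cross product

`cr f g = ![J 1 2 f g, J 2 0 f g, J 0 1 f g]`, `J i j f g = E i f * E j g - E j f * E i g`. Everything is `funext`/`Fin.cases` (three components),
unfolding and `ring` after the rules for `E` (file Eul). `•` is the pointwise action of `B k` on `Fin 3 → B k`. `cx` is the cross
product of vectors. Identities: `cx (cr f g) (cr f h) i = det3 f g h * E i f`; `Et f * cr g h i + Et g * cr h f i + Et h * cr f g i = det3 f g h`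
for every `i` (expand; `ring`).
-/

set_option autoImplicit false
set_option linter.unusedSimpArgs false

open MvPolynomial

namespace SU

universe u
variable {k : Type u} [Field k]

theorem Cr_0 (f g : B k) : cr f g 0 = E 1 f * E 2 g - E 2 f * E 1 g := rfl

theorem Cr_1 (f g : B k) : cr f g 1 = E 2 f * E 0 g - E 0 f * E 2 g := rfl

theorem Cr_2 (f g : B k) : cr f g 2 = E 0 f * E 1 g - E 1 f * E 0 g := rfl

theorem Cr_ext {u v : Fin 3 → B k} (h0 : u 0 = v 0) (h1 : u 1 = v 1) (h2 : u 2 = v 2) : u = v := by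
  funext i
  fin_cases i
  · exact h0
  · exact h1
  · exact h2

theorem Cr_det (f g h : B k) : det3 f g h = E 0 f * (E 1 g * E 2 h - E 2 g * E 1 h) +
    E 1 f * (E 2 g * E 0 h - E 0 g * E 2 h) + E 2 f * (E 0 g * E 1 h - E 1 g * E 0 h) := rfl

theorem cr_add_left (f g h : B k) : cr (f + g) h = cr f h + cr g h := by
  apply Cr_ext <;> simp only [Cr_0, Cr_1, Cr_2, Pi.add_apply, Pi.sub_apply, Pi.neg_apply, Pi.zero_apply,
    Pi.smul_apply, smul_eq_mul, E_add] <;> ring

theorem cr_add_right (f g h : B k) : cr f (g + h) = cr f g + cr f h := by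
  apply Cr_ext <;> simp only [Cr_0, Cr_1, Cr_2, Pi.add_apply, Pi.sub_apply, Pi.neg_apply, Pi.zero_apply,
    Pi.smul_apply, smul_eq_mul, E_add] <;> ring

theorem cr_sub_left (f g h : B k) : cr (f - g) h = cr f h - cr g h := by
  apply Cr_ext <;> simp only [Cr_0, Cr_1, Cr_2, Pi.add_apply, Pi.sub_apply, Pi.neg_apply, Pi.zero_apply,
    Pi.smul_apply, smul_eq_mul, E_sub] <;> ring

theorem cr_sub_right (f g h : B k) : cr f (g - h) = cr f g - cr f h := by
  apply Cr_ext <;> simp only [Cr_0, Cr_1, Cr_2, Pi.add_apply, Pi.sub_apply, Pi.neg_apply, Pi.zero_apply,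
    Pi.smul_apply, smul_eq_mul, E_sub] <;> ring

theorem cr_C_mul_left (c : k) (f g : B k) : cr (C c * f) g = (C c : B k) • cr f g := by
  apply Cr_ext <;> simp only [Cr_0, Cr_1, Cr_2, Pi.add_apply, Pi.sub_apply, Pi.neg_apply, Pi.zero_apply,
    Pi.smul_apply, smul_eq_mul, E_C_mul] <;> ring

theorem cr_C_mul_right (c : k) (f g : B k) : cr f (C c * g) = (C c : B k) • cr f g := by
  apply Cr_ext <;> simp only [Cr_0, Cr_1, Cr_2, Pi.add_apply, Pi.sub_apply, Pi.neg_apply, Pi.zero_apply,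
    Pi.smul_apply, smul_eq_mul, E_C_mul] <;> ring

theorem cr_C_left (c : k) (g : B k) : cr (C c) g = 0 := by
  apply Cr_ext <;> simp only [Cr_0, Cr_1, Cr_2, Pi.add_apply, Pi.sub_apply, Pi.neg_apply, Pi.zero_apply,
    Pi.smul_apply, smul_eq_mul, E_C] <;> ring

theorem cr_C_right (c : k) (f : B k) : cr f (C c) = 0 := by
  apply Cr_ext <;> simp only [Cr_0, Cr_1, Cr_2, Pi.add_apply, Pi.sub_apply, Pi.neg_apply, Pi.zero_apply,
    Pi.smul_apply, smul_eq_mul, E_C] <;> ring

theorem cr_self (f : B k) : cr f f = 0 := by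
  apply Cr_ext <;> simp only [Cr_0, Cr_1, Cr_2, Pi.add_apply, Pi.sub_apply, Pi.neg_apply, Pi.zero_apply,
    Pi.smul_apply, smul_eq_mul] <;> ring

theorem cr_swap (f g : B k) : cr g f = -cr f g := by
  apply Cr_ext <;> simp only [Cr_0, Cr_1, Cr_2, Pi.add_apply, Pi.sub_apply, Pi.neg_apply, Pi.zero_apply,
    Pi.smul_apply, smul_eq_mul] <;> ring

theorem cr_mul_left (f g h : B k) : cr (f * g) h = f • cr g h + g • cr f h := by
  apply Cr_ext <;> simp only [Cr_0, Cr_1, Cr_2, Pi.add_apply, Pi.sub_apply, Pi.neg_apply, Pi.zero_apply,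
    Pi.smul_apply, smul_eq_mul, E_mul] <;> ring

theorem cr_mul_right (f g h : B k) : cr f (g * h) = g • cr f h + h • cr f g := by
  apply Cr_ext <;> simp only [Cr_0, Cr_1, Cr_2, Pi.add_apply, Pi.sub_apply, Pi.neg_apply, Pi.zero_apply,
    Pi.smul_apply, smul_eq_mul, E_mul] <;> ring

theorem cr_ev_left (P : MvPolynomial (Fin 2) k) (f g h : B k) :
    cr (ev P f g) h = ev (pderiv 0 P) f g • cr f h + ev (pderiv 1 P) f g • cr g h := by
  apply Cr_ext <;> simp only [Cr_0, Cr_1, Cr_2, Pi.add_apply, Pi.sub_apply, Pi.neg_apply, Pi.zero_apply,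
    Pi.smul_apply, smul_eq_mul, E_ev] <;> ring

theorem cr_ev_right (P : MvPolynomial (Fin 2) k) (f g h : B k) :
    cr h (ev P f g) = ev (pderiv 0 P) f g • cr h f + ev (pderiv 1 P) f g • cr h g := by
  apply Cr_ext <;> simp only [Cr_0, Cr_1, Cr_2, Pi.add_apply, Pi.sub_apply, Pi.neg_apply, Pi.zero_apply,
    Pi.smul_apply, smul_eq_mul, E_ev] <;> ring

theorem cr_ev1_left (R : Polynomial k) (f h : B k) :
    cr (ev1 R f) h = ev1 (Polynomial.derivative R) f • cr f h := by
  apply Cr_ext <;> simp only [Cr_0, Cr_1, Cr_2, Pi.add_apply, Pi.sub_apply, Pi.neg_apply, Pi.zero_apply,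
    Pi.smul_apply, smul_eq_mul, E_ev1] <;> ring

theorem cr_ev1_right (R : Polynomial k) (f h : B k) :
    cr h (ev1 R f) = ev1 (Polynomial.derivative R) f • cr h f := by
  apply Cr_ext <;> simp only [Cr_0, Cr_1, Cr_2, Pi.add_apply, Pi.sub_apply, Pi.neg_apply, Pi.zero_apply,
    Pi.smul_apply, smul_eq_mul, E_ev1] <;> ring

theorem det3_rot (f g h : B k) : det3 g h f = det3 f g h := by
  simp only [Cr_det]
  ring

theorem det3_swap (f g h : B k) : det3 g f h = -det3 f g h := by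
  simp only [Cr_det]
  ring

theorem det3_add_right (f g h h' : B k) : det3 f g (h + h') = det3 f g h + det3 f g h' := by
  simp only [Cr_det, E_add]
  ring

theorem det3_C_mul_right (c : k) (f g h : B k) : det3 f g (C c * h) = C c * det3 f g h := by
  simp only [Cr_det, E_C_mul]
  ring

theorem det3_C_right (c : k) (f g : B k) : det3 f g (C c) = 0 := by
  simp only [Cr_det, E_C]
  ring

theorem det3_ev_right (P : MvPolynomial (Fin 2) k) (f g : B k) : det3 f g (ev P f g) = 0 := by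
  simp only [Cr_det, E_ev]
  ring

theorem cp_id (f g h : B k) (i : Fin 3) : cx (cr f g) (cr f h) i = det3 f g h * E i f := by
  fin_cases i
  · change cr f g 1 * cr f h 2 - cr f g 2 * cr f h 1 = det3 f g h * E 0 f
    rw [Cr_1, Cr_2, Cr_1, Cr_2, Cr_det]
    ring
  · change cr f g 2 * cr f h 0 - cr f g 0 * cr f h 2 = det3 f g h * E 1 f
    rw [Cr_2, Cr_0, Cr_2, Cr_0, Cr_det]
    ring
  · change cr f g 0 * cr f h 1 - cr f g 1 * cr f h 0 = det3 f g h * E 2 f
    rw [Cr_0, Cr_1, Cr_0, Cr_1, Cr_det]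
    ring

theorem ptm_id (f g h : B k) (i : Fin 3) :
    Et f * cr g h i + Et g * cr h f i + Et h * cr f g i = det3 f g h := by
  fin_cases i
  · change (E 0 f + E 1 f + E 2 f) * cr g h 0 + (E 0 g + E 1 g + E 2 g) * cr h f 0 +
      (E 0 h + E 1 h + E 2 h) * cr f g 0 = det3 f g h
    rw [Cr_0, Cr_0, Cr_0, Cr_det]
    ring
  · change (E 0 f + E 1 f + E 2 f) * cr g h 1 + (E 0 g + E 1 g + E 2 g) * cr h f 1 +
      (E 0 h + E 1 h + E 2 h) * cr f g 1 = det3 f g h
    rw [Cr_1, Cr_1, Cr_1, Cr_det]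
    ring
  · change (E 0 f + E 1 f + E 2 f) * cr g h 2 + (E 0 g + E 1 g + E 2 g) * cr h f 2 +
      (E 0 h + E 1 h + E 2 h) * cr f g 2 = det3 f g h
    rw [Cr_2, Cr_2, Cr_2, Cr_det]
    ring

end SU
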