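import Pool.Agent.Lib.MP_374dcb_al.DL

/-!
# JOB DInj: consequences of the injectivity of the weights

`D_eq_zero`: a nonzero exponent has positive weight, so `D f = 0` forces `f.support ⊆ {0}`.
`lead_cancel`: `D f = D g > 0`; by `exists_dg` there are exponents `m` of `f`, `m'` of `g` with `wt m = D f = D g = wt m'`; `m = m'` by
injectivity; with `c = coeff m f / coeff m g` every exponent of `f - c g` is `≠ m` and has weight `≤ D g`, and weight `= D g` would
give the exponent `m` again; so all weights are `< D g`, and `D (f - c g) < D g` (it is attained or the polynomial is `0`).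
`lead_exp`: the exponent of top weight is unique.  `finite_wt`: `wt m ≤ t` bounds each `m i` by `t / w i`, so the set of such `m` is
finite.  `exists_D_min`: the set of values `D f`, `f ∈ s`, is a nonempty subset of `{0} ∪ {wt m}` which has finitely many elements below any
bound, so it has a minimum.  `exists_sum_min`: the same for the sums `D f + D g + D h` (below a bound `t` each summand is `≤ t`).
`wf_values`: for `r : ι → ℝ` with all values of the form `D f + D g + D h` the relation `r a < r b` is well founded: below any value there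
are only finitely many values.
-/

set_option autoImplicit false

open MvPolynomial

namespace SU

universe u
variable {k : Type u} [Field k]

theorem D_eq_zero (ω : Wts) {f : B k} (h : D ω f = 0) : ∃ c : k, f = C c := by
  have hz : ∀ m ∈ f.support, m = 0 := by
    intro m hm
    apply ω.inj
    have h1 : wt ω.w m ≤ D ω f := le_dg ω.w hm
    have h2 := wt_nonneg ω.w (fun i => (ω.pos i).le) m
    rw [wt_zero]
    linarith
  refine ⟨coeff 0 f, ?_⟩
  ext m
  rw [coeff_C]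
  split_ifs with hm
  · rw [hm]
  · by_contra hne
    exact hm (hz m (mem_support_iff.2 hne)).symm

theorem lead_cancel (ω : Wts) {f g : B k} (h : D ω f = D ω g) (h0 : 0 < D ω g) :
    ∃ c : k, c ≠ 0 ∧ D ω (f - C c * g) < D ω g := by
  have hg : g ≠ 0 := by
    rintro rfl; rw [D_zero] at h0; exact lt_irrefl _ h0
  have hf : f ≠ 0 := by
    rintro rfl; rw [D_zero] at h; linarith
  obtain ⟨m, hm, hm1⟩ := exists_dg ω.w (fun i => (ω.pos i).le) hf
  obtain ⟨m', hm', hm1'⟩ := exists_dg ω.w (fun i => (ω.pos i).le) hg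
  have hmm : m' = m := ω.inj _ _ (by rw [hm1, hm1']; exact h.symm)
  subst hmm
  have cf : coeff m' f ≠ 0 := mem_support_iff.1 hm
  have cg : coeff m' g ≠ 0 := mem_support_iff.1 hm'
  refine ⟨coeff m' f / coeff m' g, div_ne_zero cf cg, ?_⟩
  by_cases hz : f - C (coeff m' f / coeff m' g) * g = 0
  · rw [hz, D_zero]; exact h0
  · obtain ⟨n, hn, hn1⟩ := exists_dg ω.w (fun i => (ω.pos i).le) hz
    have hn2 : n ≠ m' := by
      rintro rfl
      apply mem_support_iff.1 hn
      rw [coeff_sub, coeff_C_mul, div_mul_cancel₀ _ cg, sub_self]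
    have hle : wt ω.w n ≤ D ω g := by
      by_cases hnf : coeff n f = 0
      · have hng : coeff n g ≠ 0 := by
          intro hng
          apply mem_support_iff.1 hn
          rw [coeff_sub, coeff_C_mul, hnf, hng, mul_zero, sub_self]
        exact le_dg ω.w (mem_support_iff.2 hng)
      · rw [← h]
        exact le_dg ω.w (mem_support_iff.2 hnf)
    have hne : wt ω.w n ≠ D ω g := by
      intro he
      apply hn2
      apply ω.inj
      rw [he, hm1']
      rfl
    have : D ω (f - C (coeff m' f / coeff m' g) * g) = wt ω.w n := hn1.symm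
    rw [this]
    exact lt_of_le_of_ne hle hne

theorem lead_exp (ω : Wts) {f : B k} (hf : f ≠ 0) :
    ∃ m ∈ f.support, wt ω.w m = D ω f ∧ ∀ m' ∈ f.support, m' ≠ m → wt ω.w m' < D ω f := by
  obtain ⟨m, hm, hm1⟩ := exists_dg ω.w (fun i => (ω.pos i).le) hf
  refine ⟨m, hm, hm1, fun m' hm' hne => lt_of_le_of_ne (le_dg ω.w hm') fun he => hne ?_⟩
  apply ω.inj
  rw [he, hm1]
  rfl

theorem finite_wt (ω : Wts) (t : ℝ) : {m : Fin 3 →₀ ℕ | wt ω.w m ≤ t}.Finite := by
  refine (Set.finite_Icc (0 : Fin 3 →₀ ℕ)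
    (Finsupp.equivFunOnFinite.symm fun i => ⌊t / ω.w i⌋₊)).subset ?_
  intro m hm
  have hm' : wt ω.w m ≤ t := hm
  rw [wt_fin3] at hm'
  have p0 : 0 ≤ (m 0 : ℝ) * ω.w 0 := mul_nonneg (Nat.cast_nonneg _) (ω.pos 0).le
  have p1 : 0 ≤ (m 1 : ℝ) * ω.w 1 := mul_nonneg (Nat.cast_nonneg _) (ω.pos 1).le
  have p2 : 0 ≤ (m 2 : ℝ) * ω.w 2 := mul_nonneg (Nat.cast_nonneg _) (ω.pos 2).le
  have key : ∀ i : Fin 3, (m i : ℝ) * ω.w i ≤ t := by
    intro i
    fin_cases i
    · show (m 0 : ℝ) * ω.w 0 ≤ t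
      linarith
    · show (m 1 : ℝ) * ω.w 1 ≤ t
      linarith
    · show (m 2 : ℝ) * ω.w 2 ≤ t
      linarith
  refine ⟨fun i => Nat.zero_le _, fun i => ?_⟩
  rw [Finsupp.equivFunOnFinite_symm_apply_apply]
  exact Nat.le_floor ((le_div_iff₀ (ω.pos i)).2 (key i))

theorem finite_D (k : Type u) [Field k] (ω : Wts) (t : ℝ) : {s : ℝ | s ≤ t ∧ ∃ f : B k, s = D ω f}.Finite := by
  refine (((finite_wt ω t).image (wt ω.w)).union (Set.finite_singleton (0 : ℝ))).subset ?_
  rintro s ⟨hs, f, rfl⟩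
  by_cases hf : f = 0
  · right
    rw [hf, D_zero]
    rfl
  · left
    obtain ⟨m, hm, hm1⟩ := exists_dg ω.w (fun i => (ω.pos i).le) hf
    refine ⟨m, ?_, hm1⟩
    show wt ω.w m ≤ t
    rw [hm1]
    exact hs

private theorem dinj_min {ι : Type*} (r : ι → ℝ) (hr : ∀ t : ℝ, {x : ℝ | x ≤ t ∧ ∃ i, x = r i}.Finite)
    {s : Set ι} (hs : s.Nonempty) : ∃ i ∈ s, ∀ j ∈ s, r i ≤ r j := by
  obtain ⟨i0, hi0⟩ := hs
  have hfin : {x : ℝ | x ≤ r i0 ∧ ∃ i ∈ s, x = r i}.Finite :=
    (hr (r i0)).subset fun x hx => ⟨hx.1, hx.2.imp fun i hi => hi.2⟩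
  obtain ⟨x, ⟨hx1, i, hi, hxi⟩, hmin⟩ := Set.exists_min_image _ id hfin ⟨r i0, le_refl _, i0, hi0, rfl⟩
  refine ⟨i, hi, fun j hj => ?_⟩
  rcases le_or_gt (r j) (r i0) with h | h
  · have := hmin (r j) ⟨h, j, hj, rfl⟩
    rw [← hxi]
    exact this
  · rw [← hxi]
    linarith

private theorem dinj_sum (k : Type u) [Field k] (ω : Wts) (t : ℝ) :
    {x : ℝ | x ≤ t ∧ ∃ f g h : B k, x = D ω f + D ω g + D ω h}.Finite := by
  have hF := finite_D k ω t
  refine ((hF.prod (hF.prod hF)).image fun q : ℝ × ℝ × ℝ => q.1 + q.2.1 + q.2.2).subset ?_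
  rintro x ⟨hx, f, g, h, rfl⟩
  have h1 := D_nonneg ω f
  have h2 := D_nonneg ω g
  have h3 := D_nonneg ω h
  refine ⟨(D ω f, D ω g, D ω h), ⟨⟨?_, f, rfl⟩, ⟨?_, g, rfl⟩, ⟨?_, h, rfl⟩⟩, rfl⟩
  · show D ω f ≤ t
    linarith
  · show D ω g ≤ t
    linarith
  · show D ω h ≤ t
    linarith

theorem exists_D_min (ω : Wts) {s : Set (B k)} (hs : s.Nonempty) : ∃ f ∈ s, ∀ g ∈ s, D ω f ≤ D ω g :=
  dinj_min (D ω) (fun t => finite_D k ω t) hs

theorem exists_sum_min (ω : Wts) {s : Set (B k × B k × B k)} (hs : s.Nonempty) :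
    ∃ f ∈ s, ∀ g ∈ s, D ω f.1 + D ω f.2.1 + D ω f.2.2 ≤ D ω g.1 + D ω g.2.1 + D ω g.2.2 :=
  dinj_min (fun f : B k × B k × B k => D ω f.1 + D ω f.2.1 + D ω f.2.2)
    (fun t => (dinj_sum k ω t).subset fun _ hx => ⟨hx.1, hx.2.elim fun f hf => ⟨f.1, f.2.1, f.2.2, hf⟩⟩) hs

theorem wf_values (ω : Wts) {ι : Type*} (r : ι → ℝ)
    (hr : ∀ i, ∃ f g h : B k, r i = D ω f + D ω g + D ω h) : WellFounded fun i j => r i < r j := by
  rw [WellFounded.wellFounded_iff_has_min]
  intro s hs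
  obtain ⟨i, hi, hmin⟩ := dinj_min r (fun t => (dinj_sum k ω t).subset fun x hx => ⟨hx.1, by
    obtain ⟨i, hi⟩ := hx.2
    obtain ⟨f, g, h, hr'⟩ := hr i
    exact ⟨f, g, h, hi.trans hr'⟩⟩) hs
  exact ⟨i, hi, fun j hj => not_lt.2 (hmin j hj)⟩

end SU
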