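import Pool.Agent.Lib.MP_374dcb_al.DgMul

/-!
# JOB DL: the degree `D ω` on `B k`

All statements are specializations of `Dg`/`DgMul` to `w = ω.w` (`fun i => (ω.pos i).le`). `vd_*`: the same for `dg ![a, b]`.
`D_ev_le`: `ev P f g = ∑ m ∈ P.support, C (coeff m P) * f ^ m 0 * g ^ m 1` (`aeval_def`, `eval₂_eq'`, `Fin.prod_univ_two`), and each
term has `D ≤ m 0 * D f + m 1 * D g ≤ vd (D f) (D g) P` (`D_mul_le`, `D_pow`; `wt_fin2`, `le_dg`).
-/

set_option autoImplicit false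

open MvPolynomial

namespace SU

universe u
variable {k : Type u} [Field k]

theorem D_nonneg (ω : Wts) (f : B k) : 0 ≤ D ω f := by
  exact dg_nonneg _ f

theorem D_zero (ω : Wts) : D ω (0 : B k) = 0 := by
  exact dg_zero _

theorem D_C (ω : Wts) (c : k) : D ω (C c : B k) = 0 := by
  exact dg_C _ c

theorem D_one (ω : Wts) : D ω (1 : B k) = 0 := by
  have h := dg_C (σ := Fin 3) ω.w (1 : k)
  rw [map_one] at h
  exact h

theorem D_X (ω : Wts) (i : Fin 3) : D ω (X i : B k) = ω.w i := by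
  exact dg_X _ (fun i => (ω.pos i).le) i

theorem D_neg (ω : Wts) (f : B k) : D ω (-f) = D ω f := by
  exact dg_neg _ f

theorem D_add_le (ω : Wts) (f g : B k) : D ω (f + g) ≤ max (D ω f) (D ω g) := by
  exact dg_add_le _ f g

theorem D_sub_le (ω : Wts) (f g : B k) : D ω (f - g) ≤ max (D ω f) (D ω g) := by
  exact dg_sub_le _ f g

theorem D_add_right (ω : Wts) {f g : B k} (h : D ω f < D ω g) : D ω (f + g) = D ω g := by
  exact dg_add_right _ h

theorem D_add_left (ω : Wts) {f g : B k} (h : D ω g < D ω f) : D ω (f + g) = D ω f := by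
  exact dg_add_left _ h

theorem D_sub_right (ω : Wts) {f g : B k} (h : D ω f < D ω g) : D ω (f - g) = D ω g := by
  rw [sub_eq_add_neg, D_add_right, D_neg]
  rw [D_neg]
  exact h

theorem D_sub_left (ω : Wts) {f g : B k} (h : D ω g < D ω f) : D ω (f - g) = D ω f := by
  rw [sub_eq_add_neg, D_add_left]
  rw [D_neg]
  exact h

theorem D_mul_le (ω : Wts) (f g : B k) : D ω (f * g) ≤ D ω f + D ω g := by
  exact dg_mul_le _ (fun i => (ω.pos i).le) f g

theorem D_mul (ω : Wts) {f g : B k} (hf : f ≠ 0) (hg : g ≠ 0) : D ω (f * g) = D ω f + D ω g := by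
  exact dg_mul _ (fun i => (ω.pos i).le) hf hg

theorem D_pow (ω : Wts) (f : B k) (n : ℕ) : D ω (f ^ n) = n * D ω f := by
  exact dg_pow _ (fun i => (ω.pos i).le) f n

theorem D_C_mul (ω : Wts) {c : k} (hc : c ≠ 0) (f : B k) : D ω (C c * f) = D ω f := by
  exact dg_C_mul _ (fun i => (ω.pos i).le) hc f

theorem D_C_mul_le (ω : Wts) (c : k) (f : B k) : D ω (C c * f) ≤ D ω f := by
  rcases eq_or_ne c 0 with rfl | hc
  · rw [map_zero, zero_mul, D_zero]
    exact D_nonneg ω f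
  · exact (D_C_mul ω hc f).le

theorem D_add_C (ω : Wts) (f : B k) (c : k) : D ω (f + C c) = D ω f := by
  rcases (D_nonneg ω f).lt_or_eq with h | h
  · exact D_add_left ω (by rw [D_C]; exact h)
  · apply le_antisymm
    · refine (D_add_le ω f (C c)).trans ?_
      rw [D_C, ← h, max_self]
    · rw [← h]
      exact D_nonneg ω _

theorem D_sum_le {ι : Type*} (ω : Wts) (s : Finset ι) (f : ι → B k) {t : ℝ} (ht : 0 ≤ t)
    (h : ∀ i ∈ s, D ω (f i) ≤ t) : D ω (∑ i ∈ s, f i) ≤ t := by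
  exact dg_sum_le _ s f ht h

theorem eps_pos (ω : Wts) : 0 < ω.eps := by
  have h0 := ω.pos 0
  have h1 := ω.pos 1
  have h2 := ω.pos 2
  unfold Wts.eps
  linarith

theorem D_XXX (ω : Wts) : D ω (X 0 * X 1 * X 2 : B k) = ω.eps := by
  rw [D_mul ω (mul_ne_zero (X_ne_zero 0) (X_ne_zero 1)) (X_ne_zero 2), D_mul ω (X_ne_zero 0) (X_ne_zero 1), D_X, D_X, D_X]
  rfl

theorem vd_nonneg (a b : ℝ) (P : MvPolynomial (Fin 2) k) : 0 ≤ vd a b P := by
  exact dg_nonneg _ P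

theorem le_vd (a b : ℝ) {P : MvPolynomial (Fin 2) k} {m : Fin 2 →₀ ℕ} (hm : m ∈ P.support) :
    m 0 * a + m 1 * b ≤ vd a b P := by
  rw [← wt_fin2]
  exact le_dg _ hm

theorem vd_le {a b t : ℝ} (ht : 0 ≤ t) {P : MvPolynomial (Fin 2) k}
    (h : ∀ m ∈ P.support, (m 0 : ℝ) * a + m 1 * b ≤ t) : vd a b P ≤ t := by
  refine dg_le _ ht fun m hm => ?_
  rw [wt_fin2]
  exact h m hm

theorem exists_vd {a b : ℝ} (ha : 0 ≤ a) (hb : 0 ≤ b) {P : MvPolynomial (Fin 2) k} (hP : P ≠ 0) :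
    ∃ m ∈ P.support, (m 0 : ℝ) * a + m 1 * b = vd a b P := by
  have hw : ∀ i, 0 ≤ (![a, b] : Fin 2 → ℝ) i := by
    intro i
    fin_cases i
    · exact ha
    · exact hb
  obtain ⟨m, hm, h⟩ := exists_dg ![a, b] hw hP
  refine ⟨m, hm, ?_⟩
  rw [← wt_fin2]
  exact h

theorem ev_eq_sum (P : MvPolynomial (Fin 2) k) (f g : B k) :
    ev P f g = ∑ m ∈ P.support, C (coeff m P) * f ^ m 0 * g ^ m 1 := by
  unfold ev
  rw [aeval_def, eval₂_eq']
  refine Finset.sum_congr rfl fun m _ => ?_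
  rw [Fin.prod_univ_two, mul_assoc]
  rfl

theorem D_ev_le (ω : Wts) (P : MvPolynomial (Fin 2) k) (f g : B k) :
    D ω (ev P f g) ≤ vd (D ω f) (D ω g) P := by
  rw [ev_eq_sum]
  refine D_sum_le ω _ _ (vd_nonneg _ _ _) fun m hm => ?_
  refine le_trans ?_ (le_vd (D ω f) (D ω g) hm)
  refine (D_mul_le ω _ _).trans ?_
  have h1 := D_mul_le ω (C (coeff m P)) (f ^ m 0)
  rw [D_C, D_pow] at h1
  rw [D_pow]
  linarith

end SU
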