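import Pool.Agent.Lib.MP_374dcb_al.DInj

/-!
# JOB Nrm: the degree of a vector

`N ω u = max (D (u 0)) (max (D (u 1)) (D (u 2)))`. All statements are immediate from the properties of `D` (file DL), componentwise
(`fin_cases i`). `N_add_left`: if `N v < N u`, choose `i` with `D (u i) = N u`; then `D (v i) < D (u i)`, so `D (u i + v i) = N u`.
`N_smul`: `P ≠ 0`, `u ≠ 0`: if `N u > 0` choose `i` with `D (u i) = N u`, then `u i ≠ 0`, `D (P * u i) = D P + N u`; if `N u = 0` choose `i` with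
`u i ≠ 0`. The other inequality from `D_mul_le`.
-/

set_option autoImplicit false

open MvPolynomial

namespace SU

universe u
variable {k : Type u} [Field k]

theorem N_nonneg (ω : Wts) (u : Fin 3 → B k) : 0 ≤ N ω u := by
  exact (D_nonneg ω (u 0)).trans (le_max_left _ _)

theorem D_le_N (ω : Wts) (u : Fin 3 → B k) (i : Fin 3) : D ω (u i) ≤ N ω u := by
  unfold N
  fin_cases i
  · exact le_max_left _ _
  · exact (le_max_left _ _).trans (le_max_right _ _)
  · exact (le_max_right _ _).trans (le_max_right _ _)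

theorem N_le (ω : Wts) {u : Fin 3 → B k} {t : ℝ} (h : ∀ i, D ω (u i) ≤ t) : N ω u ≤ t := by
  exact max_le (h 0) (max_le (h 1) (h 2))

theorem exists_N (ω : Wts) (u : Fin 3 → B k) : ∃ i, D ω (u i) = N ω u := by
  unfold N
  rcases max_choice (D ω (u 0)) (max (D ω (u 1)) (D ω (u 2))) with h | h
  · exact ⟨0, h.symm⟩
  · rcases max_choice (D ω (u 1)) (D ω (u 2)) with h' | h'
    · exact ⟨1, by rw [h, h']⟩
    · exact ⟨2, by rw [h, h']⟩

theorem exists_N_ne (ω : Wts) {u : Fin 3 → B k} (hu : u ≠ 0) : ∃ i, u i ≠ 0 ∧ D ω (u i) = N ω u := by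
  obtain ⟨i, hi⟩ := exists_N ω u
  by_cases h0 : u i = 0
  · obtain ⟨j, hj⟩ := Function.ne_iff.1 hu
    refine ⟨j, hj, le_antisymm (D_le_N ω u j) ?_⟩
    rw [← hi, h0, D_zero]
    exact D_nonneg ω _
  · exact ⟨i, h0, hi⟩

theorem N_zero (ω : Wts) : N ω (0 : Fin 3 → B k) = 0 := by
  apply le_antisymm
  · exact N_le ω fun i => by rw [Pi.zero_apply, D_zero]
  · exact N_nonneg ω _

theorem N_neg (ω : Wts) (u : Fin 3 → B k) : N ω (-u) = N ω u := by
  unfold N
  rw [Pi.neg_apply, Pi.neg_apply, Pi.neg_apply, D_neg, D_neg, D_neg]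

theorem N_add_le (ω : Wts) (u v : Fin 3 → B k) : N ω (u + v) ≤ max (N ω u) (N ω v) := by
  refine N_le ω fun i => ?_
  rw [Pi.add_apply]
  exact (D_add_le ω _ _).trans (max_le_max (D_le_N ω u i) (D_le_N ω v i))

theorem N_add_left (ω : Wts) {u v : Fin 3 → B k} (h : N ω v < N ω u) : N ω (u + v) = N ω u := by
  apply le_antisymm
  · exact (N_add_le ω u v).trans (max_le le_rfl h.le)
  · obtain ⟨i, hi⟩ := exists_N ω u
    have h1 : D ω (v i) < D ω (u i) := by
      rw [hi]
      exact (D_le_N ω v i).trans_lt h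
    rw [← hi, ← D_add_left ω h1]
    exact D_le_N ω (u + v) i

theorem N_add_right (ω : Wts) {u v : Fin 3 → B k} (h : N ω u < N ω v) : N ω (u + v) = N ω v := by
  rw [add_comm, N_add_left ω h]

theorem N_smul_le (ω : Wts) (P : B k) (u : Fin 3 → B k) : N ω (P • u) ≤ D ω P + N ω u := by
  refine N_le ω fun i => ?_
  rw [Pi.smul_apply, smul_eq_mul]
  exact (D_mul_le ω _ _).trans (add_le_add le_rfl (D_le_N ω u i))

theorem N_smul (ω : Wts) {P : B k} {u : Fin 3 → B k} (hP : P ≠ 0) (hu : u ≠ 0) :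
    N ω (P • u) = D ω P + N ω u := by
  apply le_antisymm (N_smul_le ω P u)
  obtain ⟨i, hi, h⟩ := exists_N_ne ω hu
  rw [← h, ← D_mul ω hP hi]
  exact D_le_N ω (P • u) i

theorem N_C_smul (ω : Wts) {c : k} (hc : c ≠ 0) (u : Fin 3 → B k) : N ω ((C c : B k) • u) = N ω u := by
  unfold N
  simp only [Pi.smul_apply, smul_eq_mul]
  rw [D_C_mul ω hc, D_C_mul ω hc, D_C_mul ω hc]

theorem D_cx_le (ω : Wts) (u v : Fin 3 → B k) (i : Fin 3) : D ω (cx u v i) ≤ N ω u + N ω v := by
  have key : ∀ a b : Fin 3, D ω (u a * v b - u b * v a) ≤ N ω u + N ω v := by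
    intro a b
    refine (D_sub_le ω _ _).trans (max_le ?_ ?_)
    · exact (D_mul_le ω _ _).trans (add_le_add (D_le_N ω u a) (D_le_N ω v b))
    · exact (D_mul_le ω _ _).trans (add_le_add (D_le_N ω u b) (D_le_N ω v a))
  fin_cases i
  · exact key 1 2
  · exact key 2 0
  · exact key 0 1

end SU
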