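import Pool.Agent.Lib.MP_374dcb_al.Cr
import Pool.Agent.Lib.MP_374dcb_al.Nrm

/-!
# JOB Dd: the degree `d f g = N (cr f g)`

`d_le`: every component of `cr f g` is a difference of products `E i f * E j g`. `d_pos`: some component `J i j f g ≠ 0`; its constant
coefficient is `0` (`coeff 0 (E i f) = 0` by `coeff_E`, `coeff_zero` of a product is the product: `constantCoeff`), so it is not
constant and its degree is positive (`D_eq_zero`, char 0 is not needed). `d_ev`: `cr (ev P f g) g = ev P_X f g • cr f g` (`cr_ev_left`,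
`cr_self`), `N_smul`. The others: bilinearity of `cr` and `N_C_smul`.
-/

set_option autoImplicit false

open MvPolynomial

namespace SU

universe u
variable {k : Type u} [Field k]

theorem d_symm (ω : Wts) (f g : B k) : d ω g f = d ω f g := by
  unfold d
  rw [cr_swap, N_neg]

theorem d_nonneg (ω : Wts) (f g : B k) : 0 ≤ d ω f g := by
  exact N_nonneg ω _

theorem d_le (ω : Wts) (f g : B k) : d ω f g ≤ D ω f + D ω g := by
  have key : ∀ a b : Fin 3, D ω (J a b f g) ≤ D ω f + D ω g := by
    intro a b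
    unfold J
    refine (D_sub_le ω _ _).trans (max_le ?_ ?_)
    · exact (D_mul_le ω _ _).trans (add_le_add (D_E_le ω a f) (D_E_le ω b g))
    · exact (D_mul_le ω _ _).trans (add_le_add (D_E_le ω b f) (D_E_le ω a g))
  refine N_le ω fun i => ?_
  fin_cases i
  · exact key 1 2
  · exact key 2 0
  · exact key 0 1

theorem d_pos (ω : Wts) {f g : B k} (h : cr f g ≠ 0) : 0 < d ω f g := by
  obtain ⟨i, hi, hN⟩ := exists_N_ne ω h
  unfold d
  rw [← hN]
  refine lt_of_le_of_ne (D_nonneg ω _) fun h0 => hi ?_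
  obtain ⟨c, hc⟩ := D_eq_zero ω h0.symm
  have hJ : ∀ a b : Fin 3, coeff 0 (J a b f g) = 0 := by
    intro a b
    have hE : ∀ (j : Fin 3) (p : B k), constantCoeff (E j p) = 0 := by
      intro j p
      unfold E
      rw [map_mul, constantCoeff_X, zero_mul]
    rw [← constantCoeff_eq]
    unfold J
    rw [map_sub, map_mul, map_mul, hE, hE, hE, hE]
    simp
  have h1 : coeff 0 (cr f g i) = 0 := by
    fin_cases i
    · exact hJ 1 2
    · exact hJ 2 0
    · exact hJ 0 1
  rw [hc, coeff_zero_C] at h1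
  rw [hc, h1, map_zero]

theorem D_pos_of_cr (ω : Wts) {f g : B k} (h : cr f g ≠ 0) : 0 < D ω f ∧ 0 < D ω g := by
  constructor
  · refine lt_of_le_of_ne (D_nonneg ω _) fun h0 => h ?_
    obtain ⟨c, hc⟩ := D_eq_zero ω h0.symm
    rw [hc, cr_C_left]
  · refine lt_of_le_of_ne (D_nonneg ω _) fun h0 => h ?_
    obtain ⟨c, hc⟩ := D_eq_zero ω h0.symm
    rw [hc, cr_C_right]

theorem d_C_mul_left (ω : Wts) {c : k} (hc : c ≠ 0) (f g : B k) : d ω (C c * f) g = d ω f g := by
  unfold d
  rw [cr_C_mul_left, N_C_smul ω hc]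

theorem d_C_mul_right (ω : Wts) {c : k} (hc : c ≠ 0) (f g : B k) : d ω f (C c * g) = d ω f g := by
  unfold d
  rw [cr_C_mul_right, N_C_smul ω hc]

theorem d_add_C_left (ω : Wts) (f g : B k) (c : k) : d ω (f + C c) g = d ω f g := by
  unfold d
  rw [cr_add_left, cr_C_left, add_zero]

theorem d_add_C_right (ω : Wts) (f g : B k) (c : k) : d ω f (g + C c) = d ω f g := by
  unfold d
  rw [cr_add_right, cr_C_right, add_zero]

theorem d_add_mul_left (ω : Wts) (f g : B k) (c : k) : d ω (f + C c * g) g = d ω f g := by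
  unfold d
  rw [cr_add_left, cr_C_mul_left, cr_self, smul_zero, add_zero]

theorem d_add_mul_right (ω : Wts) (f g : B k) (c : k) : d ω f (g + C c * f) = d ω f g := by
  unfold d
  rw [cr_add_right, cr_C_mul_right, cr_self, smul_zero, add_zero]

theorem d_add_right_le (ω : Wts) (f g h : B k) : d ω f (g + h) ≤ max (d ω f g) (d ω f h) := by
  unfold d
  rw [cr_add_right]
  exact N_add_le ω _ _

theorem d_add_right_left (ω : Wts) {f g h : B k} (hlt : d ω f h < d ω f g) : d ω f (g + h) = d ω f g := by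
  unfold d at hlt ⊢
  rw [cr_add_right]
  exact N_add_left ω hlt

theorem d_ev_left (ω : Wts) {f g : B k} (h : cr f g ≠ 0) {P : MvPolynomial (Fin 2) k}
    (hP : ev (pderiv 0 P) f g ≠ 0) : d ω (ev P f g) g = D ω (ev (pderiv 0 P) f g) + d ω f g := by
  unfold d
  rw [cr_ev_left, cr_self, smul_zero, add_zero]
  exact N_smul ω hP h

theorem d_ev_right (ω : Wts) {f g : B k} (h : cr f g ≠ 0) {P : MvPolynomial (Fin 2) k}
    (hP : ev (pderiv 1 P) f g ≠ 0) : d ω f (ev P f g) = D ω (ev (pderiv 1 P) f g) + d ω f g := by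
  unfold d
  rw [cr_ev_right, cr_self, smul_zero, zero_add]
  exact N_smul ω hP h

end SU
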