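import Mathlib

/-!
# Definitions (library SU for MP_374dcb_al, MP_e1f7e2_al, MP_8844d3_ag)

`B k = k[x_0,x_1,x_2]` with real weights `ω`, the weighted degree `D`, the Euler operators `E i`, the cross product
`cr f g` of the vectors `(E i f)`, its degree `d`, Jacobian triples `JU`, vertices `sp f g h = span(1,f,g,h)`, their
degree `S`, adjacency `Adj`, the K-edges `KE` and the class `RR` of reducible vertices.
-/

set_option autoImplicit false

open MvPolynomial

namespace SU

universe u

/-- The weight of an exponent. -/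
noncomputable def wt {σ : Type*} (w : σ → ℝ) (m : σ →₀ ℕ) : ℝ := m.sum fun i n => (n : ℝ) * w i

/-- The weighted degree of a polynomial (`0` for the zero polynomial). -/
noncomputable def dg {σ R : Type*} [CommSemiring R] (w : σ → ℝ) (f : MvPolynomial σ R) : ℝ :=
  ((f.support.sup fun m => (wt w m).toNNReal : NNReal) : ℝ)

/-- Positive real weights, injective on exponents. -/
structure Wts where
  /-- the weights of the three variables -/
  w : Fin 3 → ℝ
  pos : ∀ i, 0 < w i
  inj : ∀ m m' : Fin 3 →₀ ℕ, wt w m = wt w m' → m = m'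

/-- The sum of the three weights. -/
noncomputable def Wts.eps (ω : Wts) : ℝ := ω.w 0 + ω.w 1 + ω.w 2

/-- The polynomial ring in three variables. -/
abbrev B (k : Type u) [Field k] := MvPolynomial (Fin 3) k

variable {k : Type u} [Field k]

/-- The weighted degree. -/
noncomputable def D (ω : Wts) (f : B k) : ℝ := dg ω.w f

/-- The Euler operators `x_i ∂_i`. -/
noncomputable def E (i : Fin 3) (f : B k) : B k := X i * pderiv i f

/-- The sum of the Euler operators. -/
noncomputable def Et (f : B k) : B k := E 0 f + E 1 f + E 2 f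

/-- The `2 × 2` minors of the vectors `(E i f)`, `(E i g)`. -/
noncomputable def J (i j : Fin 3) (f g : B k) : B k := E i f * E j g - E j f * E i g

/-- The cross product of the vectors `(E i f)` and `(E i g)`. -/
noncomputable def cr (f g : B k) : Fin 3 → B k := ![J 1 2 f g, J 2 0 f g, J 0 1 f g]

/-- The cross product of two vectors. -/
noncomputable def cx (u v : Fin 3 → B k) : Fin 3 → B k :=
  ![u 1 * v 2 - u 2 * v 1, u 2 * v 0 - u 0 * v 2, u 0 * v 1 - u 1 * v 0]

/-- The degree of a vector. -/
noncomputable def N (ω : Wts) (u : Fin 3 → B k) : ℝ := max (D ω (u 0)) (max (D ω (u 1)) (D ω (u 2)))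

/-- The degree of the differential form `df ∧ dg`. -/
noncomputable def d (ω : Wts) (f g : B k) : ℝ := N ω (cr f g)

/-- The determinant of the vectors `(E i f)`, `(E i g)`, `(E i h)`. -/
noncomputable def det3 (f g h : B k) : B k :=
  E 0 f * cr g h 0 + E 1 f * cr g h 1 + E 2 f * cr g h 2

/-- Triples with constant nonzero Jacobian determinant. -/
def JU (f g h : B k) : Prop := ∃ c : k, c ≠ 0 ∧ det3 f g h = C c * (X 0 * X 1 * X 2)

/-- `P(f, g)`. -/
noncomputable def ev (P : MvPolynomial (Fin 2) k) (f g : B k) : B k := aeval ![f, g] P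

/-- `R(f)`. -/
noncomputable def ev1 (R : Polynomial k) (f : B k) : B k := Polynomial.aeval f R

/-- The degree of a polynomial in two variables, with weights `a`, `b`. -/
noncomputable def vd (a b : ℝ) (P : MvPolynomial (Fin 2) k) : ℝ := dg ![a, b] P

/-- The vertex `span(1, f, g, h)`. -/
noncomputable def sp (f g h : B k) : Submodule k (B k) := Submodule.span k {1, f, g, h}

/-- The plane `span(1, f, g)`. -/
noncomputable def pl (f g : B k) : Submodule k (B k) := Submodule.span k {1, f, g}

/-- `V` is a vertex. -/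
def Vert (V : Submodule k (B k)) : Prop := ∃ f g h : B k, JU f g h ∧ V = sp f g h

/-- The degree of a vertex. -/
noncomputable def S (ω : Wts) (V : Submodule k (B k)) : ℝ :=
  sInf {s | ∃ f g h : B k, JU f g h ∧ V = sp f g h ∧ s = D ω f + D ω g + D ω h}

/-- Adjacency of vertices. -/
def Adj (V U : Submodule k (B k)) : Prop :=
  ∃ (f g h : B k) (P : MvPolynomial (Fin 2) k), JU f g h ∧ V = sp f g h ∧ U = sp f g (h + ev P f g)

/-- The pivots. -/
structure Piv (ω : Wts) (f1 f2 f3 : B k) (δ : ℝ) : Prop where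
  ju : JU f1 f2 f3
  d1 : D ω f1 = 2 * δ
  d3 : D ω f3 = 3 * δ
  lo : δ < D ω f2
  hi : D ω f2 ≤ 3 / 2 * δ

/-- The K-edges `V → U`. -/
def KE (ω : Wts) (V U : Submodule k (B k)) : Prop :=
  ∃ (f1 f2 f3 : B k) (δ : ℝ) (α : k) (R : MvPolynomial (Fin 2) k), Piv ω f1 f2 f3 δ ∧ α ≠ 0 ∧
    D ω (f2 + ev R f1 f3) < D ω f2 ∧ D ω (f2 + ev R f1 f3) < δ + d ω f1 f3 ∧
    V = sp f1 f2 (f3 + C α * f2 ^ 2) ∧ U = sp f1 (f2 + ev R f1 f3) f3

/-- The class of reducible vertices. -/
inductive RR (ω : Wts) : Submodule k (B k) → Prop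
  | base (V : Submodule k (B k)) : Vert V → S ω V = ω.eps → RR ω V
  | red (V U : Submodule k (B k)) : Adj V U → S ω U < S ω V → RR ω U → RR ω V
  | ks (V U : Submodule k (B k)) : KE ω V U → RR ω U → RR ω V

/-- The induction hypothesis below the level `s`. -/
def IHyp (k : Type u) [Field k] (ω : Wts) (s : ℝ) : Prop :=
  ∀ V U : Submodule k (B k), RR ω V → S ω V < s → Adj V U → RR ω U

/-- Two neighbours of `V` are connected below `V`. -/
def Conn (ω : Wts) (V X Y : Submodule k (B k)) : Prop :=
  (RR ω X → S ω X < S ω V → RR ω Y) ∧ (RR ω Y → S ω Y < S ω V → RR ω X)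

/-- The polynomial `P(X,Y)` is not of the form `R(X) + c Y`. -/
def Ess (P : MvPolynomial (Fin 2) k) : Prop := ∃ m ∈ P.support, 2 ≤ m 1 ∨ (m 1 = 1 ∧ 1 ≤ m 0)

end SU
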