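import Pool.Agent.Lib.MP_374dcb_al.Defs

/-!
# JOB Dg: weights of exponents and the weighted degree `dg`

`dg w f` is the `Finset.sup` in `NNReal` of the weights of the exponents of `f`, coerced to `ℝ`. Everything here is
elementary: `Finset.le_sup`, `Finset.sup_le`, `Finset.exists_mem_eq_sup`, `Finsupp.sum_add_index'`, `support_add`, `support_mul`.
For `exists_dg`: the support is nonempty, the sup is attained at some `m`, and `(wt w m).toNNReal = wt w m` because `0 ≤ wt w m`.
For `dg_add_right`: if `dg w f < dg w g`, the sup of `g` is attained at some `m` with positive weight, `m ∉ f.support` (else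
`wt w m ≤ dg w f`), so `m ∈ (f + g).support`; the other inequality is `dg_add_le`.
-/

set_option autoImplicit false

open MvPolynomial

namespace SU

section wt
variable {σ : Type*}

theorem wt_zero (w : σ → ℝ) : wt w 0 = 0 := by
  simp [wt]

theorem wt_add (w : σ → ℝ) (m n : σ →₀ ℕ) : wt w (m + n) = wt w m + wt w n := by
  unfold wt
  exact Finsupp.sum_add_index' (fun _ => by simp) (fun _ _ _ => by push_cast; ring)

theorem wt_single (w : σ → ℝ) (i : σ) (n : ℕ) : wt w (Finsupp.single i n) = n * w i := by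
  unfold wt
  rw [Finsupp.sum_single_index]
  simp

theorem wt_nonneg (w : σ → ℝ) (hw : ∀ i, 0 ≤ w i) (m : σ →₀ ℕ) : 0 ≤ wt w m := by
  unfold wt
  exact Finset.sum_nonneg fun i _ => mul_nonneg (Nat.cast_nonneg _) (hw i)

theorem wt_fin3 (w : Fin 3 → ℝ) (m : Fin 3 →₀ ℕ) : wt w m = m 0 * w 0 + m 1 * w 1 + m 2 * w 2 := by
  unfold wt
  rw [Finsupp.sum_fintype _ _ (fun _ => by simp), Fin.sum_univ_three]

theorem wt_fin2 (a b : ℝ) (m : Fin 2 →₀ ℕ) : wt ![a, b] m = m 0 * a + m 1 * b := by
  unfold wt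
  rw [Finsupp.sum_fintype _ _ (fun _ => by simp), Fin.sum_univ_two]
  simp

end wt

section dg
variable {σ R : Type*} [CommRing R]

theorem dg_nonneg (w : σ → ℝ) (f : MvPolynomial σ R) : 0 ≤ dg w f := by
  unfold dg
  exact NNReal.coe_nonneg _

theorem dg_zero (w : σ → ℝ) : dg w (0 : MvPolynomial σ R) = 0 := by
  simp [dg]

theorem dg_C (w : σ → ℝ) (c : R) : dg w (C c : MvPolynomial σ R) = 0 := by
  classical
  refine le_antisymm ?_ ?_
  · unfold dg
    have h : ((C c : MvPolynomial σ R).support.sup fun m => (wt w m).toNNReal) ≤ 0 := by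
      refine Finset.sup_le fun m hm => ?_
      have hm0 : m = 0 := by
        by_contra hne
        rw [mem_support_iff, coeff_C, if_neg (fun h => hne h.symm)] at hm
        exact hm rfl
      rw [hm0]
      simp [wt]
    exact_mod_cast h
  · unfold dg
    exact NNReal.coe_nonneg _

theorem le_dg (w : σ → ℝ) {f : MvPolynomial σ R} {m : σ →₀ ℕ} (hm : m ∈ f.support) : wt w m ≤ dg w f := by
  unfold dg
  refine (Real.le_coe_toNNReal _).trans ?_
  exact_mod_cast Finset.le_sup (f := fun m => (wt w m).toNNReal) hm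

theorem dg_le (w : σ → ℝ) {f : MvPolynomial σ R} {t : ℝ} (ht : 0 ≤ t) (h : ∀ m ∈ f.support, wt w m ≤ t) :
    dg w f ≤ t := by
  unfold dg
  have h1 : (f.support.sup fun m => (wt w m).toNNReal) ≤ t.toNNReal := by
    refine Finset.sup_le fun m hm => ?_
    exact Real.toNNReal_le_toNNReal (h m hm)
  calc ((f.support.sup fun m => (wt w m).toNNReal : NNReal) : ℝ) ≤ (t.toNNReal : ℝ) := by exact_mod_cast h1
    _ = t := Real.coe_toNNReal t ht

theorem exists_dg (w : σ → ℝ) (hw : ∀ i, 0 ≤ w i) {f : MvPolynomial σ R} (hf : f ≠ 0) :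
    ∃ m ∈ f.support, wt w m = dg w f := by
  have hne : f.support.Nonempty := by
    rw [Finset.nonempty_iff_ne_empty, Ne, support_eq_empty]
    exact hf
  obtain ⟨m, hm, h⟩ := Finset.exists_mem_eq_sup f.support hne (fun m => (wt w m).toNNReal)
  refine ⟨m, hm, ?_⟩
  unfold dg
  rw [h, Real.coe_toNNReal _ (wt_nonneg w hw m)]

theorem dg_X [Nontrivial R] (w : σ → ℝ) (hw : ∀ i, 0 ≤ w i) (i : σ) : dg w (X i : MvPolynomial σ R) = w i := by
  classical
  have h1 : (X i : MvPolynomial σ R) ≠ 0 := X_ne_zero i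
  obtain ⟨m, hm, h⟩ := exists_dg w hw h1
  rw [support_X, Finset.mem_singleton] at hm
  rw [← h, hm, wt_single]
  simp

theorem dg_monomial (w : σ → ℝ) (hw : ∀ i, 0 ≤ w i) (m : σ →₀ ℕ) {c : R} (hc : c ≠ 0) :
    dg w (monomial m c) = wt w m := by
  classical
  have h1 : (monomial m c : MvPolynomial σ R) ≠ 0 := by
    rw [Ne, monomial_eq_zero]
    exact hc
  obtain ⟨m', hm, h⟩ := exists_dg w hw h1
  rw [support_monomial, if_neg hc, Finset.mem_singleton] at hm
  rw [← h, hm]

theorem dg_neg (w : σ → ℝ) (f : MvPolynomial σ R) : dg w (-f) = dg w f := by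
  unfold dg
  rw [support_neg]

theorem dg_add_le (w : σ → ℝ) (f g : MvPolynomial σ R) : dg w (f + g) ≤ max (dg w f) (dg w g) := by
  classical
  refine dg_le w (le_max_of_le_left (dg_nonneg w f)) fun m hm => ?_
  rcases Finset.mem_union.1 (support_add hm) with h | h
  · exact (le_dg w h).trans (le_max_left _ _)
  · exact (le_dg w h).trans (le_max_right _ _)

theorem dg_sub_le (w : σ → ℝ) (f g : MvPolynomial σ R) : dg w (f - g) ≤ max (dg w f) (dg w g) := by
  rw [sub_eq_add_neg, ← dg_neg w g]
  exact dg_add_le w f (-g)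

theorem dg_sum_le {ι : Type*} (w : σ → ℝ) (s : Finset ι) (f : ι → MvPolynomial σ R) {t : ℝ} (ht : 0 ≤ t)
    (h : ∀ i ∈ s, dg w (f i) ≤ t) : dg w (∑ i ∈ s, f i) ≤ t := by
  classical
  induction s using Finset.induction_on with
  | empty => simpa [dg_zero] using ht
  | insert a s ha ih =>
    rw [Finset.sum_insert ha]
    refine (dg_add_le w _ _).trans (max_le (h a (Finset.mem_insert_self a s)) ?_)
    exact ih fun i hi => h i (Finset.mem_insert_of_mem hi)

theorem dg_add_right (w : σ → ℝ) {f g : MvPolynomial σ R} (h : dg w f < dg w g) : dg w (f + g) = dg w g := by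
  have h0 : 0 < dg w g := lt_of_le_of_lt (dg_nonneg w f) h
  refine le_antisymm ((dg_add_le w f g).trans (max_le h.le le_rfl)) ?_
  have hne : g.support.Nonempty := by
    rw [Finset.nonempty_iff_ne_empty]
    intro he
    rw [dg, he] at h0
    simp at h0
  obtain ⟨m, hm, hm2⟩ := Finset.exists_mem_eq_sup g.support hne (fun m => (wt w m).toNNReal)
  have hdg : dg w g = ((wt w m).toNNReal : ℝ) := by
    unfold dg
    rw [hm2]
  have hpos : 0 < wt w m := by
    rw [hdg] at h0
    exact Real.toNNReal_pos.1 (by exact_mod_cast h0)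
  have hwt : dg w g = wt w m := by
    rw [hdg, Real.coe_toNNReal _ hpos.le]
  have hf : m ∉ f.support := by
    intro hmf
    have := le_dg w hmf
    linarith
  have hfg : m ∈ (f + g).support := by
    rw [mem_support_iff, coeff_add, notMem_support_iff.1 hf, zero_add]
    exact mem_support_iff.1 hm
  rw [hwt]
  exact le_dg w hfg

theorem dg_add_left (w : σ → ℝ) {f g : MvPolynomial σ R} (h : dg w g < dg w f) : dg w (f + g) = dg w f := by
  rw [add_comm]
  exact dg_add_right w h

theorem dg_mul_le (w : σ → ℝ) (hw : ∀ i, 0 ≤ w i) (f g : MvPolynomial σ R) :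
    dg w (f * g) ≤ dg w f + dg w g := by
  classical
  refine dg_le w (add_nonneg (dg_nonneg w f) (dg_nonneg w g)) fun m hm => ?_
  obtain ⟨a, ha, b, hb, rfl⟩ := Finset.mem_add.1 (support_mul f g hm)
  rw [wt_add]
  exact add_le_add (le_dg w ha) (le_dg w hb)

end dg

end SU
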