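import Mathlib

/-!
# JOB Num: arithmetic of the case distinction (only real and natural numbers)

`num_Q`. From `hin`: `t ≤ a + c - p a + b / m ≤ a + c - p a + b`, with `p a = q c =: L`.  `p = 1`: `a = q c`. `q = 1`: `c = p a`. So let `p, q ≥ 2`, coprime, so `p ≠ q`.
 - `a < c`: `p > q`. `t ≤ a + c - q c + b`, `b < c`: for `q ≥ 3`: `t < a + c - 3c + c < 0`, contradiction. `q = 2`: `p` is odd (coprime to 2), `p ≥ 3`; `δ := a / 2`, `c = p δ`,
   `t ≤ a + c - 2c + b = b - (p - 2) δ`.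
 - `c < a`: `q > p`. `t ≤ a + c - p a + b`: `p ≥ 3`: `t < a + 2c - 3a < 0`. `p = 2`: `q` odd `≥ 3`; `δ := c / 2`, `a = q δ`, `t ≤ c - a + b = b - (q - 2) δ`, `b < c = 2δ`, so `q < 4`, `q = 3`.
`num_A` (type A, `P` cancels; `L = p (2δ) = q b`). `b > (s-2) δ ≥ δ` (from `ht0`, `ht`). `u ≥ 2δ + ε - t ≥ s δ - b + ε`. `hin` divided by `m`: `q b ≤ s δ / m + 2δ + b - u < s δ / m + 2b - (s - 2) δ`, so
 `(q - 2) b < s δ / m - (s - 2) δ ≤ 2 δ`. `q = 1`: `b = p (2δ)`, excluded by `hres`. `q = 2`: `b = p δ`, `p` odd (coprime to 2), `s - 2 < p < s` (`b < s δ`), so `p = s - 1` is even, contradiction.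
 `q ≥ 4`: `2 b < 2δ`, contradiction to `b > δ`. `q = 3`: `b < 2δ` so `s - 2 < 2`, `s = 3`; `3 b = 2 p δ`, `δ < b < 2δ`: `3 < 2p < 6`, `p = 2`, `3 b = 4 δ`.
`num_A'` (type A, `P` does not cancel): `i (2δ) + j b ≤ s δ`, `j = 1`, `i ≥ 1`: `2δ + b ≤ sδ` against `b > (s-2) δ`. `j ≥ 2`: `2 b ≤ s δ`, `2(s-2) < s`, so `s < 4`, `s = 3`.
`num_B` (type B, `P` cancels; `L = p (3δ) = q b`): `u ≥ 3δ + ε - t ≥ 4δ - b + ε`; `3 p δ ≤ 2δ / m + 3δ + b - u < 2δ/m + 2b - δ ≤ δ + 2b < 5δ`, so `p = 1`; `3δ = q b`, `δ < b < 2δ`: `q = 2`.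
`num_B'`: `i (3δ) + j b ≤ 2δ`: `i = 0`, `j b ≤ 2δ`, `j ≥ 2`: `b ≤ δ`, contradiction.
`num_J` (`a = j c`, `j ≥ 2`, `P` cancels): `L = p a = q b`; `p = 1`: `a = q b`. `p ≥ 2`: `2a ≤ L ≤ c / m + a + b - u < c + a + b`, so `a < b + c < 2c ≤ a`, contradiction.
-/

set_option autoImplicit false

namespace SU

private theorem num_X {m : ℕ} {X b : ℝ} (hm : 1 ≤ m) (hb : 0 < b) (h : (m : ℝ) * X ≤ b) : X ≤ b := by
  rcases le_or_gt X 0 with hX | hX
  · linarith
  · have hm' : (1 : ℝ) ≤ m := by exact_mod_cast hm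
    have h1 : 1 * X ≤ m * X := mul_le_mul_of_nonneg_right hm' hX.le
    linarith

private theorem num_lt {x y : ℕ} {δ : ℝ} (hδ : 0 < δ) (h : (x : ℝ) * δ < y * δ) : x < y := by
  have h1 : (x : ℝ) < y := lt_of_mul_lt_mul_right h hδ.le
  exact_mod_cast h1

private theorem num_odd {p : ℕ} (h : Nat.Coprime p 2) : Odd p := by
  rw [Nat.coprime_two_right] at h
  exact h

theorem num_Q {a b c t : ℝ} {m p q : ℕ} (ha : 0 < a) (hb : 0 < b) (ht : 0 < t) (hbc : b < c) (hac : a ≠ c)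
    (hm : 1 ≤ m) (hp : 1 ≤ p) (hq : 1 ≤ q) (hco : Nat.Coprime p q) (hpq : (p : ℝ) * a = q * c)
    (hin : m * (p * a) ≤ b + m * (a + c - t)) :
    (∃ j : ℕ, c = j * a) ∨ (∃ j : ℕ, 2 ≤ j ∧ a = j * c) ∨
    (∃ (δ : ℝ) (s : ℕ), 0 < δ ∧ Odd s ∧ 3 ≤ s ∧ a = 2 * δ ∧ c = s * δ ∧ t ≤ b - (s - 2) * δ) ∨
    (∃ δ : ℝ, 0 < δ ∧ a = 3 * δ ∧ c = 2 * δ ∧ t ≤ b - δ) := by
  have hc : 0 < c := lt_trans hb hbc
  have hX : (p : ℝ) * a - a - c + t ≤ b := by
    apply num_X hm hb
    have e : (m : ℝ) * (p * a - a - c + t) = m * (p * a) - m * (a + c - t) := by ring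
    rw [e]; linarith
  rcases Nat.lt_or_ge q 2 with hq2 | hq2
  · have hq1 : q = 1 := by omega
    subst hq1
    left
    exact ⟨p, by rw [hpq]; push_cast; ring⟩
  rcases Nat.lt_or_ge p 2 with hp2 | hp2
  · have hp1 : p = 1 := by omega
    subst hp1
    right; left
    exact ⟨q, hq2, by rw [← hpq]; push_cast; ring⟩
  rcases lt_or_gt_of_ne hac with h | h
  · -- the case a less than c
    rcases Nat.lt_or_ge q 3 with hq3 | hq3
    · have hq' : q = 2 := by omega
      subst hq'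
      have hodd : Odd p := num_odd hco
      have hp3 : 3 ≤ p := by
        rcases hodd with ⟨k, hk⟩
        omega
      right; right; left
      refine ⟨a / 2, p, by linarith, hodd, hp3, by ring, ?_, ?_⟩
      · have : (p : ℝ) * a = 2 * c := by rw [hpq]; norm_num
        linarith
      · have h2 : (p : ℝ) * a = 2 * c := by rw [hpq]; norm_num
        have e : ((p : ℝ) - 2) * (a / 2) = p * a / 2 - a := by ring
        rw [e]
        linarith
    · exfalso
      have hq3' : (3 : ℝ) ≤ q := by exact_mod_cast hq3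
      have h1 : 3 * c ≤ q * c := mul_le_mul_of_nonneg_right hq3' hc.le
      linarith
  · rcases Nat.lt_or_ge p 3 with hp3 | hp3
    · have hp' : p = 2 := by omega
      subst hp'
      have hodd : Odd q := num_odd hco.symm
      have hq3 : 3 ≤ q := by
        rcases hodd with ⟨k, hk⟩
        omega
      have h2 : 2 * a = (q : ℝ) * c := by rw [← hpq]; norm_num
      have hX' : 2 * a - a - c + t ≤ b := by
        have h3 : (2 : ℝ) * a = ((2 : ℕ) : ℝ) * a := by norm_num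
        rw [h3]; exact hX
      have hq4 : q < 4 := by
        have h4 : (q : ℝ) * c < (4 : ℕ) * c := by
          push_cast
          linarith
        exact num_lt hc h4
      have hq' : q = 3 := by omega
      subst hq'
      right; right; right
      push_cast at h2
      refine ⟨c / 2, by linarith, by linarith, by ring, by linarith⟩
    · exfalso
      have hp3' : (3 : ℝ) ≤ p := by exact_mod_cast hp3
      have h1 : 3 * a ≤ p * a := mul_le_mul_of_nonneg_right hp3' ha.le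
      linarith

theorem num_A {b t u δ ε : ℝ} {s m p q : ℕ} (hδ : 0 < δ) (hε : 0 < ε) (ht0 : 0 < t) (hs : Odd s) (hs3 : 3 ≤ s)
    (hb : b < s * δ) (ht : t ≤ b - (s - 2) * δ) (hu : 2 * δ + ε ≤ u + t) (hres : ∀ j : ℕ, b ≠ j * (2 * δ))
    (hm : 1 ≤ m) (hp : 1 ≤ p) (hq : 1 ≤ q) (hco : Nat.Coprime p q) (hpq : (p : ℝ) * (2 * δ) = q * b)
    (hin : m * (p * (2 * δ)) ≤ s * δ + m * (2 * δ + b - u)) : s = 3 ∧ 3 * b = 4 * δ := by
  have hs3' : (3 : ℝ) ≤ s := by exact_mod_cast hs3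
  have h3δ : 3 * δ ≤ s * δ := mul_le_mul_of_nonneg_right hs3' hδ.le
  have es : ((s : ℝ) - 2) * δ = s * δ - 2 * δ := by ring
  rw [es] at ht
  have hbδ : δ < b := by linarith
  have hX : (p : ℝ) * (2 * δ) - 2 * δ - b + u ≤ s * δ := by
    apply num_X hm (by linarith)
    have e : (m : ℝ) * (p * (2 * δ) - 2 * δ - b + u) = m * (p * (2 * δ)) - m * (2 * δ + b - u) := by ring
    rw [e]; linarith
  have hqb : (q : ℝ) * b < 2 * δ + 2 * b := by rw [← hpq]; linarith
  rcases Nat.lt_or_ge q 2 with hq2 | hq2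
  · exfalso
    have hq1 : q = 1 := by omega
    subst hq1
    apply hres p
    rw [hpq]; push_cast; ring
  rcases Nat.lt_or_ge q 3 with hq3 | hq3
  · exfalso
    have hq' : q = 2 := by omega
    subst hq'
    have hodd : Odd p := num_odd hco
    push_cast at hpq
    have hbp : b = p * δ := by linarith
    have h1 : p < s := by
      apply num_lt hδ
      rw [← hbp]; exact hb
    have h2 : s < p + 2 := by
      apply num_lt hδ
      push_cast
      have e : ((p : ℝ) + 2) * δ = p * δ + 2 * δ := by ring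
      rw [e, ← hbp]; linarith
    rcases hs with ⟨k, hk⟩
    rcases hodd with ⟨l, hl⟩
    omega
  rcases Nat.lt_or_ge q 4 with hq4 | hq4
  · have hq' : q = 3 := by omega
    subst hq'
    push_cast at hpq hqb
    have hb2 : b < 2 * δ := by linarith
    have hs4 : s < 4 := by
      apply num_lt hδ
      push_cast
      linarith
    have hs' : s = 3 := by omega
    refine ⟨hs', ?_⟩
    have hp1 : 1 < p := by
      apply num_lt hδ
      push_cast
      linarith
    have hp3 : p < 3 := by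
      apply num_lt hδ
      push_cast
      linarith
    have hp' : p = 2 := by omega
    subst hp'
    push_cast at hpq
    linarith
  · exfalso
    have hq4' : (4 : ℝ) ≤ q := by exact_mod_cast hq4
    have h1 : 4 * b ≤ q * b := mul_le_mul_of_nonneg_right hq4' (by linarith)
    linarith

theorem num_A' {b t δ : ℝ} {s i j : ℕ} (hδ : 0 < δ) (ht0 : 0 < t) (hs : Odd s) (hs3 : 3 ≤ s)
    (ht : t ≤ b - (s - 2) * δ) (hij : 2 ≤ j ∨ (j = 1 ∧ 1 ≤ i)) (h : i * (2 * δ) + j * b ≤ s * δ) :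
    s = 3 ∧ 2 * b ≤ 3 * δ := by
  have hs3' : (3 : ℝ) ≤ s := by exact_mod_cast hs3
  have h3δ : 3 * δ ≤ s * δ := mul_le_mul_of_nonneg_right hs3' hδ.le
  have es : ((s : ℝ) - 2) * δ = s * δ - 2 * δ := by ring
  rw [es] at ht
  have hbδ : δ < b := by linarith
  rcases hij with hj | ⟨hj, hi⟩
  · have hj' : (2 : ℝ) ≤ j := by exact_mod_cast hj
    have h1 : 2 * b ≤ j * b := mul_le_mul_of_nonneg_right hj' (by linarith)
    have h2 : 0 ≤ (i : ℝ) * (2 * δ) := by positivity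
    have hs4 : s < 4 := by
      apply num_lt hδ
      push_cast
      linarith
    have hs' : s = 3 := by omega
    subst hs'
    push_cast at h
    exact ⟨rfl, by linarith⟩
  · exfalso
    subst hj
    have hi' : (1 : ℝ) ≤ i := by exact_mod_cast hi
    have h1 : 1 * (2 * δ) ≤ i * (2 * δ) := mul_le_mul_of_nonneg_right hi' (by linarith)
    push_cast at h
    linarith

theorem num_B {b t u δ ε : ℝ} {m p q : ℕ} (hδ : 0 < δ) (hε : 0 < ε) (ht0 : 0 < t) (hb : b < 2 * δ)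
    (ht : t ≤ b - δ) (hu : 3 * δ + ε ≤ u + t) (hm : 1 ≤ m) (hp : 1 ≤ p) (hq : 1 ≤ q) (hco : Nat.Coprime p q)
    (hpq : (p : ℝ) * (3 * δ) = q * b) (hin : m * (p * (3 * δ)) ≤ 2 * δ + m * (3 * δ + b - u)) :
    2 * b = 3 * δ := by
  have hX : (p : ℝ) * (3 * δ) - 3 * δ - b + u ≤ 2 * δ := by
    apply num_X hm (by linarith)
    have e : (m : ℝ) * (p * (3 * δ) - 3 * δ - b + u) = m * (p * (3 * δ)) - m * (3 * δ + b - u) := by ring
    rw [e]; linarith
  have hp2 : p < 2 := by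
    apply num_lt hδ
    push_cast
    linarith
  have hp1 : p = 1 := by omega
  subst hp1
  push_cast at hpq
  have hbpos : 0 < b := by linarith
  have hq3 : q < 3 := by
    apply num_lt hbpos
    push_cast
    linarith
  have hq1 : 1 < q := by
    apply num_lt hbpos
    push_cast
    linarith
  have hq' : q = 2 := by omega
  subst hq'
  push_cast at hpq
  linarith

theorem num_B' {b t δ : ℝ} {i j : ℕ} (hδ : 0 < δ) (ht0 : 0 < t) (ht : t ≤ b - δ)
    (hij : 2 ≤ j ∨ (j = 1 ∧ 1 ≤ i)) (h : i * (3 * δ) + j * b ≤ 2 * δ) : False := by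
  have hbδ : δ < b := by linarith
  have h2 : 0 ≤ (i : ℝ) * (3 * δ) := by positivity
  rcases hij with hj | ⟨hj, hi⟩
  · have hj' : (2 : ℝ) ≤ j := by exact_mod_cast hj
    have h1 : 2 * b ≤ j * b := mul_le_mul_of_nonneg_right hj' (by linarith)
    linarith
  · subst hj
    have hi' : (1 : ℝ) ≤ i := by exact_mod_cast hi
    have h1 : 1 * (3 * δ) ≤ i * (3 * δ) := mul_le_mul_of_nonneg_right hi' (by linarith)
    push_cast at h
    linarith

theorem num_J {a b c u : ℝ} {m p q j : ℕ} (hb : 0 < b) (hbc : b < c) (hj : 2 ≤ j) (ha : a = j * c) (hu : 0 < u)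
    (hm : 1 ≤ m) (hp : 1 ≤ p) (hq : 1 ≤ q) (hpq : (p : ℝ) * a = q * b)
    (hin : m * (p * a) ≤ c + m * (a + b - u)) : ∃ i : ℕ, 1 ≤ i ∧ a = i * b := by
  have hc : 0 < c := lt_trans hb hbc
  have hj' : (2 : ℝ) ≤ j := by exact_mod_cast hj
  have h2c : 2 * c ≤ a := by
    rw [ha]; exact mul_le_mul_of_nonneg_right hj' hc.le
  have hX : (p : ℝ) * a - a - b + u ≤ c := by
    apply num_X hm hc
    have e : (m : ℝ) * (p * a - a - b + u) = m * (p * a) - m * (a + b - u) := by ring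
    rw [e]; linarith
  rcases Nat.lt_or_ge p 2 with hp2 | hp2
  · have hp1 : p = 1 := by omega
    subst hp1
    push_cast at hpq
    exact ⟨q, hq, by linarith⟩
  · exfalso
    have hp2' : (2 : ℝ) ≤ p := by exact_mod_cast hp2
    have h1 : 2 * a ≤ p * a := mul_le_mul_of_nonneg_right hp2' (by linarith)
    linarith

end SU
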