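import Pool.Agent.Lib.MP_374dcb_al.SitN
import Pool.Agent.Lib.MP_374dcb_al.Num
import Pool.Agent.Lib.MP_374dcb_al.CP

/-!
# JOB EeAB: the numerical analysis of the types A and B

`u := d f1 f2`, `t := d f1 f3 > 0`; `cp`: `D f1 + ω.eps ≤ u + t`. `D (ev P f1 f2) ≤ D f3` (`D_of_add_le`, `nX`).
`ee_A`: if `par'` for `(f1,f2)` and `P` is in the first alternative, the essential exponent `μ` of `P` satisfies `μ 0 * (2δ) + μ 1 * D f2 ≤ D f3 = r δ`: `num_A'` gives `r = 3`, `2 D f2 ≤ 3δ`. In the second one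
`num_A`: `r = 3`, `3 D f2 = 4δ`. In both cases `δ < D f2` (from `t > 0`), `D f2 ≤ 3/2 δ`: so `Piv`.
`ee_B`: first alternative: `num_B'` (the essential exponent), second: `num_B`.
-/

set_option autoImplicit false

open MvPolynomial

namespace SU

universe u
variable {k : Type u} [Field k] [CharZero k]

theorem ee_A {ω : Wts} {V X Y : Submodule k (B k)} {f1 f2 f3 : B k}
    {P Q : MvPolynomial (Fin 2) k} (s : SitN ω V X Y f1 f2 f3 P Q) (hP : Ess P) {δ : ℝ} {r : ℕ} (hδ : 0 < δ)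
    (hr : Odd r) (hr3 : 3 ≤ r) (h1 : D ω f1 = 2 * δ) (h3 : D ω f3 = r * δ)
    (ht : d ω f1 f3 ≤ D ω f2 - (r - 2) * δ) (hres : ∀ j : ℕ, D ω f2 ≠ j * D ω f1) :
    Piv ω f1 f2 f3 δ ∧ d ω f1 f3 ≤ D ω f2 - δ := by
  have hju := s.ju
  have ht0 := d_pos ω hju.cr13
  have heps := eps_pos ω
  have hcp := cp ω hju
  have hD := D_of_add_le ω s.nX
  have hlt := s.lt
  have key : r = 3 ∧ D ω f2 ≤ 3 / 2 * δ := by
    rcases par' ω hju.cr12 P with h | ⟨m, p, q, i, j, hm, hp, hq, hco, hpq, hin, -, -, -⟩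
    · obtain ⟨μ, hμ, hess⟩ := hP
      have h5 := h μ hμ
      rw [h1] at h5
      obtain ⟨hr', h2⟩ := num_A' hδ ht0 hr hr3 ht hess (h5.trans (hD.trans h3.le))
      exact ⟨hr', by linarith⟩
    · have hi : 0 ≤ (i : ℝ) * D ω f1 := mul_nonneg (Nat.cast_nonneg i) (D_nonneg ω f1)
      have hj : 0 ≤ (j : ℝ) * D ω f2 := mul_nonneg (Nat.cast_nonneg j) (D_nonneg ω f2)
      rw [h3] at hD hlt
      rw [h1] at hpq hin hcp hi hres
      have hin' : (m : ℝ) * (p * (2 * δ)) ≤ r * δ + m * (2 * δ + D ω f2 - d ω f1 f2) := by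
        linarith
      obtain ⟨hr', h2⟩ := num_A hδ heps ht0 hr hr3 hlt ht hcp hres hm hp hq hco hpq hin'
      exact ⟨hr', by linarith⟩
  obtain ⟨hr', hhi⟩ := key
  subst hr'
  have ht' : d ω f1 f3 ≤ D ω f2 - δ := by
    have h6 : ((3 : ℕ) : ℝ) - 2 = 1 := by norm_num
    rw [h6, one_mul] at ht
    exact ht
  refine ⟨⟨hju, h1, ?_, ?_, hhi⟩, ht'⟩
  · rw [h3]; norm_num
  · linarith

theorem ee_B {ω : Wts} {V X Y : Submodule k (B k)} {f1 f2 f3 : B k}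
    {P Q : MvPolynomial (Fin 2) k} (s : SitN ω V X Y f1 f2 f3 P Q) (hP : Ess P) {δ : ℝ} (hδ : 0 < δ)
    (h1 : D ω f1 = 3 * δ) (h3 : D ω f3 = 2 * δ) (ht : d ω f1 f3 ≤ D ω f2 - δ) : 2 * D ω f2 = 3 * δ := by
  have hju := s.ju
  have ht0 := d_pos ω hju.cr13
  have heps := eps_pos ω
  have hcp := cp ω hju
  have hD := D_of_add_le ω s.nX
  have hlt := s.lt
  rcases par' ω hju.cr12 P with h | ⟨m, p, q, i, j, hm, hp, hq, hco, hpq, hin, -, -, -⟩
  · obtain ⟨μ, hμ, hess⟩ := hP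
    have h5 := h μ hμ
    rw [h1] at h5
    exact absurd (num_B' hδ ht0 ht hess (h5.trans (hD.trans h3.le))) not_false
  · have hi : 0 ≤ (i : ℝ) * D ω f1 := mul_nonneg (Nat.cast_nonneg i) (D_nonneg ω f1)
    have hj : 0 ≤ (j : ℝ) * D ω f2 := mul_nonneg (Nat.cast_nonneg j) (D_nonneg ω f2)
    rw [h3] at hD hlt
    rw [h1] at hpq hin hcp hi
    have hin' : (m : ℝ) * (p * (3 * δ)) ≤ 2 * δ + m * (3 * δ + D ω f2 - d ω f1 f2) := by
      linarith
    exact num_B hδ heps ht0 hlt ht hcp hm hp hq hco hpq hin'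

end SU
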