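import Mathlib

/-!
# JOB NumE: arithmetic of the case `D f2 = D f3`

`num_E1`: `a = D f1`, `b = D f2 = D f3`, `c < b` the third degree, `u = d f1 f2`, `v = d f1 f3`, `L = p a = q b`, `p, q ≥ 2` coprime. `h1` divided by `m`: `u ≤ a + b - L + c / m ≤ a + b - L + c`, the same for `v`.
 - `b < a` (`q > p`): `p ≥ 3`: `u ≤ a + b - 3a + c < 0`, contradiction. `p = 2`: `q ≥ 3` (coprime), `2a = q b ≥ 3b`; `u, v ≤ b - a + c < 2b - a`, so `a < u + v < 4b - 2a`, `3a < 4b`, but `3 a ≥ 4.5 b`.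
 - `a < b` (`p > q`): `q ≥ 3`: `u ≤ a + b - 3b + c < 0`. So `q = 2`, `p` odd `≥ 3`; `δ := a / 2`, `b = p δ`.
 - `a = b`: `p = q`, not coprime.
`num_E2` (after that, `s = p`, and `v ≤ u`): `u ≥ (2δ + ε)/2 > δ`. `h1`: `u ≤ (2 - s) δ + c / m`, so `c / m > (s - 1) δ`; `m ≥ 2` would give `c > 2 (s-1) δ ≥ s δ`. So `m = 1`, `c > (s - 1) δ`, and `2 i δ + j s δ ≤ c + (2 - s) δ - u < 2δ` gives `i = j = 0` (`s ≥ 3`).
`num_E3`: `h2`: `v > 0`: `m' (s - 2) δ < c < s δ`, so `m' (s-2) < s`: `m' ≤ 2`, and `m' = 2` only if `s = 3` (`2(s-2) < s`). If an exponent `(i,j)` satisfies `2 i + s j ≤ W` with `W δ ≤ c + m' ((2 + s) δ - v)`: `m' = 1`: `s j < s + 2 + s`, `j ≤ 2` (`s ≥ 3`: `3s ≤ 2s+2` fails);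
 `m' = 2`, `s = 3`: `3 j < 3 + 10 = 13`, `j ≤ 4`.
-/

set_option autoImplicit false

namespace SU

private theorem numE_aux {L x c : ℝ} {m : ℕ} (hm : 1 ≤ m) (hc0 : 0 ≤ c) (h : m * L ≤ c + m * x) : L ≤ x + c := by
  have hm1 : (1 : ℝ) ≤ m := by exact_mod_cast hm
  by_contra hn
  have h1 : c < L - x := by linarith
  have h2 : (m : ℝ) * (L - x) ≤ c := by linarith
  have h3 : 1 * (L - x) ≤ (m : ℝ) * (L - x) := mul_le_mul_of_nonneg_right hm1 (by linarith)
  linarith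

theorem num_E1 {a b c u v ε : ℝ} {m m' p q : ℕ} (ha : 0 < a) (hb : 0 < b) (hc : c < b) (hc0 : 0 ≤ c) (hu : 0 < u)
    (hv : 0 < v) (hε : 0 < ε) (hcp : a + ε ≤ u + v) (hm : 1 ≤ m) (hm' : 1 ≤ m') (hp : 2 ≤ p) (hq : 2 ≤ q)
    (hco : Nat.Coprime p q) (hpq : (p : ℝ) * a = q * b) (h1 : m * (p * a) ≤ c + m * (a + b - u))
    (h2 : m' * (p * a) ≤ c + m' * (a + b - v)) :
    ∃ δ : ℝ, 0 < δ ∧ Odd p ∧ 3 ≤ p ∧ q = 2 ∧ a = 2 * δ ∧ b = p * δ := by
  have A1 : (p : ℝ) * a ≤ a + b - u + c := numE_aux hm hc0 h1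
  have A2 : (p : ℝ) * a ≤ a + b - v + c := numE_aux hm' hc0 h2
  rcases lt_trichotomy b a with hba | hba | hba
  · exfalso
    have hp3 : p < 3 := by
      by_contra hn
      have h3 : (3 : ℝ) ≤ p := by exact_mod_cast not_lt.1 hn
      have h4 : 3 * a ≤ (p : ℝ) * a := mul_le_mul_of_nonneg_right h3 ha.le
      linarith
    have hp2 : p = 2 := by omega
    subst hp2
    have hq3 : 3 ≤ q := by
      by_contra hn
      have h3 : q = 2 := by omega
      rw [h3] at hco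
      revert hco
      decide
    have h3 : (3 : ℝ) ≤ q := by exact_mod_cast hq3
    have h4 : 3 * b ≤ (q : ℝ) * b := mul_le_mul_of_nonneg_right h3 hb.le
    push_cast at hpq A1 A2
    linarith
  · exfalso
    rw [hba] at hpq
    have h3 : (p : ℝ) = q := mul_right_cancel₀ ha.ne' hpq
    have h4 : p = q := by exact_mod_cast h3
    rw [h4, Nat.coprime_self] at hco
    omega
  · have hq3 : q < 3 := by
      by_contra hn
      have h3 : (3 : ℝ) ≤ q := by exact_mod_cast not_lt.1 hn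
      have h4 : 3 * b ≤ (q : ℝ) * b := mul_le_mul_of_nonneg_right h3 hb.le
      linarith
    have hq2 : q = 2 := by omega
    subst hq2
    have hodd : Odd p := by
      rcases Nat.even_or_odd p with h | h
      · exfalso
        have h3 : 2 ∣ Nat.gcd p 2 := Nat.dvd_gcd (even_iff_two_dvd.1 h) (dvd_refl 2)
        rw [Nat.Coprime] at hco
        rw [hco] at h3
        omega
      · exact h
    refine ⟨a / 2, by linarith, hodd, ?_, rfl, by ring, ?_⟩
    · obtain ⟨t, ht⟩ := hodd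
      omega
    · push_cast at hpq
      linarith

theorem num_E2 {c u v ε δ : ℝ} {m s i j : ℕ} (hδ : 0 < δ) (hs3 : 3 ≤ s) (hc : c < s * δ) (hε : 0 < ε)
    (hcp : 2 * δ + ε ≤ u + v) (huv : v ≤ u) (hm : 1 ≤ m)
    (h1 : m * (s * (2 * δ)) + i * (2 * δ) + j * (s * δ) ≤ c + m * (2 * δ + s * δ - u)) :
    m = 1 ∧ i = 0 ∧ j = 0 ∧ (s - 1) * δ < c := by
  have hs : (3 : ℝ) ≤ s := by exact_mod_cast hs3
  have hm1 : (1 : ℝ) ≤ m := by exact_mod_cast hm
  have hu : δ < u := by linarith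
  have hi : (0 : ℝ) ≤ i * (2 * δ) := by positivity
  have hj : (0 : ℝ) ≤ j * (s * δ) := by positivity
  have hX : (s - 1) * δ < (s - 2) * δ + u := by linarith
  have hX0 : 0 < (s - 1 : ℝ) * δ := mul_pos (by linarith) hδ
  have h2 : (m : ℝ) * ((s - 2) * δ + u) ≤ c - i * (2 * δ) - j * (s * δ) := by linarith
  have hm2 : m = 1 := by
    by_contra hn
    have h3 : (2 : ℝ) ≤ m := by
      have h4 : 2 ≤ m := by omega
      exact_mod_cast h4
    have h4 : 2 * ((s - 2) * δ + u) ≤ (m : ℝ) * ((s - 2) * δ + u) := mul_le_mul_of_nonneg_right h3 (by linarith)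
    have h5 : 3 * δ ≤ s * δ := mul_le_mul_of_nonneg_right hs hδ.le
    linarith
  subst hm2
  rw [Nat.cast_one, one_mul] at h2
  have h6 : (i : ℝ) * (2 * δ) + j * (s * δ) < δ := by linarith
  have hi0 : i = 0 := by
    by_contra hn
    have h3 : (1 : ℝ) ≤ i := by
      have h4 : 1 ≤ i := by omega
      exact_mod_cast h4
    have h4 : 1 * (2 * δ) ≤ (i : ℝ) * (2 * δ) := mul_le_mul_of_nonneg_right h3 (by linarith)
    linarith
  have hj0 : j = 0 := by
    by_contra hn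
    have h3 : (1 : ℝ) ≤ j := by
      have h4 : 1 ≤ j := by omega
      exact_mod_cast h4
    have h4 : 1 * (s * δ) ≤ (j : ℝ) * (s * δ) := mul_le_mul_of_nonneg_right h3 (by positivity)
    have h5 : 3 * δ ≤ s * δ := mul_le_mul_of_nonneg_right hs hδ.le
    linarith
  refine ⟨rfl, hi0, hj0, ?_⟩
  linarith

theorem num_E3 {c v δ : ℝ} {m s i j i' j' : ℕ} (hδ : 0 < δ) (hs : Odd s) (hs3 : 3 ≤ s) (hc : c < s * δ) (hv : 0 < v)
    (hm : 1 ≤ m) (h2 : m * (s * (2 * δ)) + i * (2 * δ) + j * (s * δ) ≤ c + m * (2 * δ + s * δ - v))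
    (h3 : i' * (2 * δ) + j' * (s * δ) ≤ m * (s * (2 * δ)) + i * (2 * δ) + j * (s * δ)) : j' ≤ 4 := by
  have hs' : (3 : ℝ) ≤ s := by exact_mod_cast hs3
  have hi : (0 : ℝ) ≤ i * (2 * δ) := by positivity
  have hj : (0 : ℝ) ≤ j * (s * δ) := by positivity
  have hi' : (0 : ℝ) ≤ i' * (2 * δ) := by positivity
  have hm0 : (0 : ℝ) < m := by
    have h4 : 0 < m := by omega
    exact_mod_cast h4
  have hmv : 0 < (m : ℝ) * v := mul_pos hm0 hv
  have h4 : (m : ℝ) * (s - 2) * δ < s * δ := by linarith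
  have h5 : (m : ℝ) * (s - 2) < s := lt_of_mul_lt_mul_right h4 hδ.le
  have h6 : (j' : ℝ) * s * δ < (s + m * (2 + s)) * δ := by linarith
  have h7 : (j' : ℝ) * s < s + m * (2 + s) := lt_of_mul_lt_mul_right h6 hδ.le
  have h8 : j' * s < s + m * (2 + s) := by exact_mod_cast h7
  have h9 : m * s < s + 2 * m := by
    have h10 : (m : ℝ) * s < s + 2 * m := by linarith
    exact_mod_cast h10
  have hm3 : m < 3 := by
    by_contra hn
    have h10 : 3 ≤ m := not_lt.1 hn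
    obtain ⟨t, rfl⟩ := Nat.exists_eq_add_of_le h10
    obtain ⟨w, rfl⟩ := Nat.exists_eq_add_of_le hs3
    have h11 : (3 + t) * (3 + w) = 9 + 3 * w + 3 * t + t * w := by ring
    rw [h11] at h9
    have h12 : 0 ≤ t * w := Nat.zero_le _
    omega
  by_contra hn
  have h10 : 5 ≤ j' := by omega
  have h11 : 5 * s ≤ j' * s := Nat.mul_le_mul_right s h10
  interval_cases m
  · omega
  · obtain ⟨t, ht⟩ := hs
    omega

end SU
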