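import Pool.Agent.Lib.MP_374dcb_al.Res

/-!
# JOB Spl: writing `P(f,h)` as a polynomial in `h` with coefficients in `k[f]`; the Z-lemma

`split`: `P = ∑ m ∈ support, monomial m (coeff m P)`; collect the terms with `m 1 = j`: `q j := ∑ (m ∈ support, m 1 = j) C (coeff m P) * X ^ m 0`. The bound on the degrees of `q j`: `natDegree (q j)` is `≤` some `m 0` of the support with `m 1 = j` (if `q j ≠ 0`, with equality for `m 0 = natDegree`).
 `ev (pderiv 1 P) f h = ∑ j * q_j(f) h ^ (j-1)`: on monomials.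
`D_ab`: `D (ev1 A f) = natDegree A * 2δ` (even multiple of `δ`), `D (ev1 A f * h)` is an odd multiple of `δ` (if `A ≠ 0`, `D h = s δ`, `s` odd): so in `ev1 A f * h + ev1 B f` there is no cancellation, and the degree is a natural multiple `n δ`.
`zlem`: divide by `z = C κ * h ^ 2 + ev1 A f * h + ev1 B f`: with `U1 := C κ⁻¹ * r3`, `U0 := C κ⁻¹ * (r2 - U1 * A)`,
 `r0 + r1 h + r2 h ^ 2 + r3 h ^ 3 = (U1 h + U0) z + (V1 h + V0)` (`V1 = r1 - U1 B - U0 A`, `V0 = r0 - U0 B`; all polynomials in `f`). If `(U1,U0) ≠ 0`, then by `D_ab` the first term has degree `n δ + D z`, the second is `0` or has degree `n' δ`, which is different by `hz`,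
 so the degree of the sum is `≥ D z` (`D_add_left`, `D_add_right`), contradiction. So `U1 = U0 = 0`, `r3 = 0`, `r2 = 0`.
-/

set_option autoImplicit false

open MvPolynomial

namespace SU

universe u
variable {k : Type u} [Field k] [CharZero k]

private theorem Spl_exp (m : Fin 2 →₀ ℕ) : Finsupp.single 0 (m 0) + Finsupp.single 1 (m 1) = m := by
  ext i
  fin_cases i
  · simp
  · simp

omit [CharZero k] in
private theorem Spl_q (P : MvPolynomial (Fin 2) k) : ∃ q : ℕ → Polynomial k,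
    (∀ i j, (q j).coeff i = coeff (Finsupp.single 0 i + Finsupp.single 1 j) P) ∧
    ∀ n, (∀ m ∈ P.support, m 1 ≤ n) → ∀ f h : B k,
      ev P f h = ∑ j ∈ Finset.range (n + 1), ev1 (q j) f * h ^ j := by
  classical
  refine ⟨fun j => ∑ m ∈ P.support.filter (fun m => m 1 = j),
    Polynomial.C (coeff m P) * Polynomial.X ^ m 0, fun i j => ?_, fun n hn f h => ?_⟩
  · rw [Polynomial.finsetSum_coeff]
    simp only [Polynomial.coeff_C_mul_X_pow]
    by_cases hs : Finsupp.single 0 i + Finsupp.single 1 j ∈ P.support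
    · rw [Finset.sum_eq_single_of_mem (Finsupp.single 0 i + Finsupp.single 1 j)]
      · rw [if_pos (by simp)]
      · rw [Finset.mem_filter]
        exact ⟨hs, by simp⟩
      · intro b hb hne
        rw [if_neg]
        rintro rfl
        rw [Finset.mem_filter] at hb
        apply hne
        rw [← hb.2, Spl_exp]
    · rw [notMem_support_iff.1 hs]
      apply Finset.sum_eq_zero
      intro b hb
      rw [if_neg]
      rintro rfl
      rw [Finset.mem_filter] at hb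
      apply hs
      rw [← hb.2, Spl_exp]
      exact hb.1
  · rw [ev_eq_sum, ← Finset.sum_fiberwise_of_maps_to (s := P.support) (t := Finset.range (n + 1))
      (g := fun m => m 1) (fun m hm => Finset.mem_range.2 (Nat.lt_succ_of_le (hn m hm)))]
    apply Finset.sum_congr rfl
    intro j _
    rw [ev1, map_sum, Finset.sum_mul]
    apply Finset.sum_congr rfl
    intro m hm
    rw [Finset.mem_filter] at hm
    rw [hm.2, map_mul, Polynomial.aeval_C, map_pow, Polynomial.aeval_X, MvPolynomial.algebraMap_eq]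

/-- `split` with the coefficients of the polynomials `q j` -/
theorem split_coeff {P : MvPolynomial (Fin 2) k} (h : ∀ m ∈ P.support, m 1 ≤ 4) :
    ∃ q : ℕ → Polynomial k,
      (∀ f h : B k, ev P f h = ev1 (q 0) f + ev1 (q 1) f * h + ev1 (q 2) f * h ^ 2 + ev1 (q 3) f * h ^ 3 +
        ev1 (q 4) f * h ^ 4) ∧
      (∀ f h : B k, ev (pderiv 1 P) f h = ev1 (q 1) f + ev1 (2 * q 2) f * h + ev1 (3 * q 3) f * h ^ 2 +
        ev1 (4 * q 4) f * h ^ 3) ∧
      (∀ j, q j ≠ 0 → ∃ m ∈ P.support, m 1 = j ∧ m 0 = (q j).natDegree) ∧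
      (∀ m ∈ P.support, (q (m 1)).coeff (m 0) ≠ 0) ∧
      (pderiv 1 P = 0 ↔ ∀ j, 1 ≤ j → j ≤ 4 → q j = 0) := by
  obtain ⟨q, hq, hqe⟩ := Spl_q P
  obtain ⟨q', hq', hqe'⟩ := Spl_q (pderiv 1 P)
  have hco : ∀ m, coeff m P = (q (m 1)).coeff (m 0) := fun m => by
    rw [hq, Spl_exp]
  have hrel : ∀ j, q' j = (j + 1 : ℕ) * q (j + 1) := by
    intro j
    ext i
    rw [hq', coeff_pderiv, Polynomial.coeff_natCast_mul, hq, add_assoc, ← Finsupp.single_add]
    simp [mul_comm]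
  have hsup : ∀ m ∈ (pderiv 1 P).support, m 1 ≤ 3 := by
    intro m hm
    rw [mem_support_iff, coeff_pderiv] at hm
    have h1 : m + Finsupp.single 1 1 ∈ P.support := by
      rw [mem_support_iff]
      intro h0
      rw [h0, zero_mul] at hm
      exact hm rfl
    have h2 := h _ h1
    simp only [Finsupp.add_apply, Finsupp.single_eq_same] at h2
    omega
  refine ⟨q, fun f h' => ?_, fun f h' => ?_, fun j hj => ?_, fun m hm => ?_, ?_⟩
  · rw [hqe 4 h f h']
    simp only [Finset.sum_range_succ, Finset.sum_range_zero]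
    ring
  · rw [hqe' 3 hsup f h']
    simp only [Finset.sum_range_succ, Finset.sum_range_zero, hrel]
    norm_num
  · have h1 : (q j).coeff (q j).natDegree ≠ 0 := by
      rw [Polynomial.coeff_natDegree]
      exact Polynomial.leadingCoeff_ne_zero.2 hj
    rw [hq] at h1
    exact ⟨_, mem_support_iff.2 h1, by simp, by simp⟩
  · rwa [mem_support_iff, hco] at hm
  · constructor
    · intro h0 j hj1 _
      obtain ⟨i, rfl⟩ : ∃ i, j = i + 1 := ⟨j - 1, by omega⟩
      have h1 := hrel i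
      have h2 : q' i = 0 := by
        ext l
        rw [hq', h0, coeff_zero, Polynomial.coeff_zero]
      rw [h2] at h1
      rcases mul_eq_zero.1 h1.symm with h3 | h3
      · exact absurd h3 (Nat.cast_ne_zero.2 (Nat.succ_ne_zero i))
      · exact h3
    · intro h0
      ext m
      rw [coeff_pderiv, coeff_zero]
      by_cases h1 : m + Finsupp.single 1 1 ∈ P.support
      · have h2 := h _ h1
        rw [hco, h0 _ (by simp) h2, Polynomial.coeff_zero, zero_mul]
      · rw [notMem_support_iff.1 h1, zero_mul]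

theorem split {P : MvPolynomial (Fin 2) k} (h : ∀ m ∈ P.support, m 1 ≤ 4) :
    ∃ q : ℕ → Polynomial k,
      (∀ f h : B k, ev P f h = ev1 (q 0) f + ev1 (q 1) f * h + ev1 (q 2) f * h ^ 2 + ev1 (q 3) f * h ^ 3 +
        ev1 (q 4) f * h ^ 4) ∧
      (∀ f h : B k, ev (pderiv 1 P) f h = ev1 (q 1) f + ev1 (2 * q 2) f * h + ev1 (3 * q 3) f * h ^ 2 +
        ev1 (4 * q 4) f * h ^ 3) ∧
      (∀ j, q j ≠ 0 → ∃ m ∈ P.support, m 1 = j ∧ m 0 = (q j).natDegree) ∧
      (∀ m ∈ P.support, q (m 1) ≠ 0) ∧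
      (pderiv 1 P = 0 ↔ ∀ j, 1 ≤ j → j ≤ 4 → q j = 0) := by
  obtain ⟨q, h1, h2, h3, h4, h5⟩ := split_coeff h
  refine ⟨q, h1, h2, h3, fun m hm h0 => h4 m hm ?_, h5⟩
  rw [h0, Polynomial.coeff_zero]

omit [CharZero k] in
private theorem Spl_ev1_sub (A B' : Polynomial k) (f : B k) : ev1 (A - B') f = ev1 A f - ev1 B' f :=
  map_sub _ _ _

omit [CharZero k] in
private theorem Spl_ev1_mul (A B' : Polynomial k) (f : B k) : ev1 (A * B') f = ev1 A f * ev1 B' f :=
  map_mul _ _ _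

omit [CharZero k] in
private theorem Spl_ev1_C (c : k) (f : B k) : ev1 (Polynomial.C c) f = C c := by
  rw [ev1, Polynomial.aeval_C, MvPolynomial.algebraMap_eq]

omit [CharZero k] in
private theorem Spl_ev1_zero (f : B k) : ev1 0 f = 0 := map_zero _

theorem D_ab (ω : Wts) {f h : B k} {δ : ℝ} {s : ℕ} (hδ : 0 < δ) (hs : Odd s) (hf : D ω f = 2 * δ)
    (hh : D ω h = s * δ) (A B' : Polynomial k) (hne : A ≠ 0 ∨ B' ≠ 0) :
    ev1 A f * h + ev1 B' f ≠ 0 ∧ D ω (ev1 A f * h + ev1 B' f) = max (D ω (ev1 A f * h)) (D ω (ev1 B' f)) ∧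
    ∃ n : ℕ, D ω (ev1 A f * h + ev1 B' f) = n * δ := by
  have hfpos : 0 < D ω f := by rw [hf]; linarith
  have hs1 : 1 ≤ s := hs.pos
  have hs1' : (1 : ℝ) ≤ s := by exact_mod_cast hs1
  have hhpos : 0 < D ω h := by
    rw [hh]
    exact mul_pos (by linarith) hδ
  have hh0 : h ≠ 0 := by
    rintro rfl
    rw [D_zero] at hhpos
    exact lt_irrefl _ hhpos
  have hDB : D ω (ev1 B' f) = ((B'.natDegree * 2 : ℕ) : ℝ) * δ := by
    rw [D_ev1 ω hfpos, hf]
    push_cast
    ring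
  by_cases hA : A = 0
  · have hB : B' ≠ 0 := hne.resolve_left (fun h => h hA)
    rw [hA, Spl_ev1_zero, zero_mul, zero_add, D_zero]
    exact ⟨ev1_ne_zero ω hfpos hB, (max_eq_right (D_nonneg ω _)).symm, _, hDB⟩
  · have hA0 : ev1 A f ≠ 0 := ev1_ne_zero ω hfpos hA
    have hDA : D ω (ev1 A f * h) = ((A.natDegree * 2 + s : ℕ) : ℝ) * δ := by
      rw [D_mul ω hA0 hh0, D_ev1 ω hfpos, hf, hh]
      push_cast
      ring
    have hApos : 0 < D ω (ev1 A f * h) := by
      rw [hDA]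
      refine mul_pos ?_ hδ
      exact_mod_cast Nat.lt_of_lt_of_le hs1 (Nat.le_add_left _ _)
    have hmax : D ω (ev1 A f * h + ev1 B' f) = max (D ω (ev1 A f * h)) (D ω (ev1 B' f)) := by
      rcases lt_trichotomy (D ω (ev1 A f * h)) (D ω (ev1 B' f)) with hlt | heq | hlt
      · rw [D_add_right ω hlt, max_eq_right hlt.le]
      · exfalso
        rw [hDA, hDB] at heq
        have h1 := mul_right_cancel₀ hδ.ne' heq
        have h2 : A.natDegree * 2 + s = B'.natDegree * 2 := by exact_mod_cast h1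
        obtain ⟨t, ht⟩ := hs
        omega
      · rw [D_add_left ω hlt, max_eq_left hlt.le]
    refine ⟨?_, hmax, ?_⟩
    · intro h0
      rw [h0, D_zero] at hmax
      have := le_max_left (D ω (ev1 A f * h)) (D ω (ev1 B' f))
      linarith
    · rw [hmax]
      rcases max_choice (D ω (ev1 A f * h)) (D ω (ev1 B' f)) with h1 | h1
      · exact ⟨_, h1.trans hDA⟩
      · exact ⟨_, h1.trans hDB⟩

theorem zlem (ω : Wts) {f h : B k} {δ : ℝ} {s : ℕ} (hδ : 0 < δ) (hs : Odd s) (hf : D ω f = 2 * δ)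
    (hh : D ω h = s * δ) {κ : k} (hκ : κ ≠ 0) (A B' : Polynomial k)
    (hz : ∀ i j : ℕ, D ω (C κ * h ^ 2 + ev1 A f * h + ev1 B' f) + i * δ ≠ j * δ)
    {r0 r1 r2 r3 : Polynomial k}
    (hlt : D ω (ev1 r0 f + ev1 r1 f * h + ev1 r2 f * h ^ 2 + ev1 r3 f * h ^ 3) <
      D ω (C κ * h ^ 2 + ev1 A f * h + ev1 B' f)) : r2 = 0 ∧ r3 = 0 := by
  obtain ⟨z, hzd⟩ : ∃ z, z = C κ * h ^ 2 + ev1 A f * h + ev1 B' f := ⟨_, rfl⟩
  rw [← hzd] at hz hlt
  obtain ⟨U1, hU1⟩ : ∃ U1, U1 = Polynomial.C κ⁻¹ * r3 := ⟨_, rfl⟩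
  obtain ⟨U0, hU0⟩ : ∃ U0, U0 = Polynomial.C κ⁻¹ * (r2 - U1 * A) := ⟨_, rfl⟩
  have hκκ : (C κ : B k) * C κ⁻¹ = 1 := by
    rw [← map_mul, mul_inv_cancel₀ hκ, map_one]
  have hdiv : ev1 r0 f + ev1 r1 f * h + ev1 r2 f * h ^ 2 + ev1 r3 f * h ^ 3 =
      (ev1 U1 f * h + ev1 U0 f) * z +
        (ev1 (r1 - U1 * B' - U0 * A) f * h + ev1 (r0 - U0 * B') f) := by
    have e1 : ev1 U1 f = C κ⁻¹ * ev1 r3 f := by
      rw [hU1, Spl_ev1_mul, Spl_ev1_C]
    have e0 : ev1 U0 f = C κ⁻¹ * (ev1 r2 f - ev1 U1 f * ev1 A f) := by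
      rw [hU0, Spl_ev1_mul, Spl_ev1_C, Spl_ev1_sub, Spl_ev1_mul]
    have e1' : C κ * ev1 U1 f = ev1 r3 f := by
      rw [e1]
      linear_combination (ev1 r3 f) * hκκ
    have e0' : C κ * ev1 U0 f = ev1 r2 f - ev1 U1 f * ev1 A f := by
      rw [e0]
      linear_combination (ev1 r2 f - ev1 U1 f * ev1 A f) * hκκ
    rw [Spl_ev1_sub, Spl_ev1_sub, Spl_ev1_sub, Spl_ev1_mul, Spl_ev1_mul, Spl_ev1_mul, hzd]
    linear_combination (-h ^ 3) * e1' + (-h ^ 2) * e0'
  have hz0 : z ≠ 0 := by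
    rintro rfl
    have h1 := hz 0 0
    rw [D_zero] at h1
    exact h1 (by simp)
  have hU : ¬(U1 ≠ 0 ∨ U0 ≠ 0) := by
    intro hne
    obtain ⟨hUne, -, n, hn⟩ := D_ab ω hδ hs hf hh U1 U0 hne
    have hDU : D ω ((ev1 U1 f * h + ev1 U0 f) * z) = n * δ + D ω z := by
      rw [D_mul ω hUne hz0, hn]
    have hnn : 0 ≤ (n : ℝ) * δ := mul_nonneg (Nat.cast_nonneg n) hδ.le
    rw [hdiv] at hlt
    by_cases hV : (r1 - U1 * B' - U0 * A) ≠ 0 ∨ (r0 - U0 * B') ≠ 0
    · obtain ⟨-, -, n', hn'⟩ := D_ab ω hδ hs hf hh _ _ hV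
      rcases lt_trichotomy (D ω ((ev1 U1 f * h + ev1 U0 f) * z))
        (D ω (ev1 (r1 - U1 * B' - U0 * A) f * h + ev1 (r0 - U0 * B') f)) with h1 | h1 | h1
      · rw [D_add_right ω h1] at hlt
        linarith
      · rw [hDU, hn'] at h1
        exact hz n n' (by linarith)
      · rw [D_add_left ω h1, hDU] at hlt
        linarith
    · rw [not_or, not_not, not_not] at hV
      rw [hV.1, hV.2, Spl_ev1_zero, zero_mul, zero_add, add_zero, hDU] at hlt
      linarith
  rw [not_or, not_not, not_not] at hU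
  obtain ⟨hU1', hU0'⟩ := hU
  have hC : (Polynomial.C κ⁻¹ : Polynomial k) ≠ 0 := by
    rw [Ne, Polynomial.C_eq_zero]
    exact inv_ne_zero hκ
  have h3 : r3 = 0 := by
    rw [hU1'] at hU1
    exact (mul_eq_zero.1 hU1.symm).resolve_left hC
  have h2 : r2 = 0 := by
    rw [hU0', hU1', zero_mul, sub_zero] at hU0
    exact (mul_eq_zero.1 hU0.symm).resolve_left hC
  exact ⟨h2, h3⟩

end SU
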