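import Pool.Agent.Lib.MP_374dcb_al.SitE
import Pool.Agent.Lib.MP_374dcb_al.NumE
import Pool.Agent.Lib.MP_374dcb_al.Spl

/-!
# JOB EeE: two weak neighbours, case `D f2 = D f3`, both polynomials essential: impossible

`a = D f1`, `b = D f2 = D f3`, `c = D g < b`, `u = d f1 f2`, `v = d f1 f3`; WLOG (`se_core` has it as hypothesis) `v ≤ u`. `D (ev P f1 f2) ≤ c`, `D (ev Q f1 f3) ≤ c` (`D_of_add_le`). The essential exponent of `P` (of `Q`) has weight `≥ min (2b, a + b) > b > c`, so both `par'` are in the second alternative,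
with the same `(p,q)` (`p a = q b`, `p' a = q' b`, both coprime: equal). `p = 1`, `q = 1` are excluded by `hr1`, `hr2`. `cp`: `a + ε ≤ u + v`. `num_E1`: `a = 2δ`, `b = s δ` (`s = p` odd `≥ 3`, `q = 2`). `num_E2` for `P`: `m = 1`, `i = j = 0`, `(s - 1) δ < c`: all exponents `μ` of `P` satisfy
`2 μ 0 + s μ 1 ≤ 2 s` (so `μ 1 ≤ 2`), and one has equality, and `D (ev P f1 f2) < 2 s δ`. `split` for `P`: `ev P f1 f2 = C κ * f2 ^ 2 + ev1 A f1 * f2 + ev1 B f1` (`q 2 = C κ` is constant since `2 μ 0 + 2 s ≤ 2 s`; `q 3 = q 4 = 0`), `natDegree A * 2 + s ≤ 2 s`, so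
`D (ev1 A f1) ≤ (s - 1) δ` (parity), and `κ ≠ 0` (otherwise by `D_ab` the degree is `max`, attained: `= 2 s δ`, as the exponent with equality `(s,0)` gives `D (ev1 B f1) = 2 s δ`).
`f2 = h - C l * f3` with `h := g - C m * f1`, `D h = c` (`c > (s-1) δ ≥ 2δ = D f1`). `z := C (κ l ^ 2) * f3 ^ 2 + ev1 (-l A) f1 * f3 + ev1 B f1 = ev P f1 f2 - (C κ * h ^ 2 - C (2 κ l) * h * f3 + ev1 A f1 * h)`: degrees: `C (2 κ l) * h * f3`: `c + s δ`; `h ^ 2`: `2c`;
`ev1 A f1 * h`: `≤ (s-1) δ + c`; `ev P f1 f2`: `≤ c`. So `D z = c + s δ`. `hz`: `(s-1) δ < c < s δ`, so `c + s δ + i δ` is not a natural multiple of `δ`.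
`Q`: `num_E3`: all exponents have `μ 1 ≤ 4`; `split` for `Q`: `q j`. If `pderiv 1 Q ≠ 0`: `ch_right`: `D (ev (pderiv 1 Q) f1 f3) ≤ D (ev Q f1 f3) + D f1 - v < c + 2δ < c + s δ`: `zlem` for `(f1,f3)`: `3 * q 3 = 0`, `4 * q 4 = 0`. Then `ev Q f1 f3 = ev1 (q 0) f1 + ev1 (q 1) f1 * f3 + ev1 (q 2) f1 * f3 ^ 2`,
`D ≤ c < c + s δ`: `zlem`: `q 2 = 0`. So `ev Q f1 f3 = ev1 (q 1) f1 * f3 + ev1 (q 0) f1`: by `D_ab` `D (ev1 (q 1) f1 * f3) ≤ c < s δ`, so `q 1 = 0`. Now all exponents of `Q` have `μ 1 = 0`: `Q` is not essential, contradiction.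
-/

set_option autoImplicit false

open MvPolynomial

namespace SU

universe u
variable {k : Type u} [Field k] [CharZero k]

private theorem ee_snd {ω : Wts} {f g : B k} (h : cr f g ≠ 0) {P : MvPolynomial (Fin 2) k} (hP : Ess P)
    {c : ℝ} (hc : D ω (ev P f g) ≤ c) (hcb : c < D ω g) :
    ∃ m p q i j : ℕ, 1 ≤ m ∧ 1 ≤ p ∧ 1 ≤ q ∧ Nat.Coprime p q ∧ (p : ℝ) * D ω f = q * D ω g ∧
      m * (p * D ω f) + i * D ω f + j * D ω g ≤ c + m * (D ω f + D ω g - d ω f g) ∧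
      (∀ μ ∈ P.support, (μ 0 : ℝ) * D ω f + μ 1 * D ω g ≤ m * (p * D ω f) + i * D ω f + j * D ω g) ∧
      (∃ μ ∈ P.support, (μ 0 : ℝ) * D ω f + μ 1 * D ω g = m * (p * D ω f) + i * D ω f + j * D ω g) := by
  obtain ⟨hf, hg⟩ := D_pos_of_cr ω h
  rcases par' ω h P with h1 | ⟨m, p, q, i, j, h1, h2, h3, h4, h5, h6, h7, -, h9⟩
  · exfalso
    obtain ⟨m, hm, h2⟩ := hP
    have h3 := h1 m hm
    rcases h2 with h2 | ⟨h2, h4⟩
    · have h5 : (2 : ℝ) ≤ m 1 := by exact_mod_cast h2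
      have h6 : (0 : ℝ) ≤ m 0 := Nat.cast_nonneg _
      nlinarith
    · have h5 : (1 : ℝ) ≤ m 0 := by exact_mod_cast h4
      rw [h2, Nat.cast_one] at h3
      nlinarith
  · exact ⟨m, p, q, i, j, h1, h2, h3, h4, h5, by linarith, h7, h9⟩

private theorem ee_pq {a b : ℝ} (ha : 0 < a) (hb : 0 < b) {p q p' q' : ℕ} (hp : 1 ≤ p) (hp' : 1 ≤ p')
    (hc : Nat.Coprime p q) (hc' : Nat.Coprime p' q')
    (h : (p : ℝ) * a = q * b) (h' : (p' : ℝ) * a = q' * b) : p = p' ∧ q = q' := by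
  have h1 : (p : ℝ) * q' = q * p' := by
    have h2 : ((p : ℝ) * q') * (a * b) = (q * p') * (a * b) := by
      calc ((p : ℝ) * q') * (a * b) = (p * a) * (q' * b) := by ring
        _ = (q * b) * (p' * a) := by rw [h, ← h']
        _ = (q * p') * (a * b) := by ring
    exact mul_right_cancel₀ (mul_pos ha hb).ne' h2
  have h2 : p * q' = q * p' := by exact_mod_cast h1
  have h3 : p ∣ p' := hc.dvd_of_dvd_mul_left (h2 ▸ Dvd.intro _ rfl)
  have h4 : p' ∣ p := hc'.dvd_of_dvd_mul_right (by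
    rw [h2]
    exact Dvd.intro_left _ rfl)
  have h5 : p = p' := Nat.dvd_antisymm h3 h4
  subst h5
  refine ⟨rfl, ?_⟩
  have h6 : p * q' = p * q := by rw [h2, mul_comm]
  exact (Nat.eq_of_mul_eq_mul_left hp h6).symm

/-- the shape of `P` -/
private theorem ee_shape {ω : Wts} {f h : B k} {δ c : ℝ} {s : ℕ} (hδ : 0 < δ) (hs : Odd s) (hs3 : 3 ≤ s)
    (hf : D ω f = 2 * δ) (hh : D ω h = s * δ) {P : MvPolynomial (Fin 2) k} (hc : D ω (ev P f h) ≤ c)
    (hcs : c < s * δ) (hP : ∀ m ∈ P.support, 2 * m 0 + s * m 1 ≤ 2 * s)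
    (hP2 : ∃ m ∈ P.support, 2 * m 0 + s * m 1 = 2 * s) :
    ∃ (κ : k) (A B' : Polynomial k), κ ≠ 0 ∧ ev P f h = C κ * h ^ 2 + ev1 A f * h + ev1 B' f ∧
      D ω (ev1 A f) ≤ (s - 1) * δ := by
  have hf0 : 0 < D ω f := by
    rw [hf]
    linarith
  have hm1 : ∀ m ∈ P.support, m 1 ≤ 2 := by
    intro m hm
    have h1 := hP m hm
    by_contra h2
    have h3 : s * 3 ≤ s * m 1 := Nat.mul_le_mul_left s (by omega)
    omega
  obtain ⟨q, h1, -, h3, h4, -⟩ := split_coeff (P := P) (fun m hm => (hm1 m hm).trans (by norm_num))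
  have hq3 : q 3 = 0 := by
    by_contra h
    obtain ⟨m, hm, h5, -⟩ := h3 3 h
    have := hm1 m hm
    omega
  have hq4 : q 4 = 0 := by
    by_contra h
    obtain ⟨m, hm, h5, -⟩ := h3 4 h
    have := hm1 m hm
    omega
  have hq2 : (q 2).natDegree = 0 := by
    by_cases h : q 2 = 0
    · rw [h, Polynomial.natDegree_zero]
    · obtain ⟨m, hm, h5, h6⟩ := h3 2 h
      have h7 := hP m hm
      rw [h5] at h7
      omega
  have hq2' : q 2 = Polynomial.C ((q 2).coeff 0) := Polynomial.eq_C_of_natDegree_eq_zero hq2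
  have hq1 : 2 * (q 1).natDegree + 1 ≤ s := by
    by_cases h : q 1 = 0
    · rw [h, Polynomial.natDegree_zero]
      omega
    · obtain ⟨m, hm, h5, h6⟩ := h3 1 h
      have h7 := hP m hm
      rw [h5] at h7
      obtain ⟨t, ht⟩ := hs
      omega
  have hev : ev P f h = C ((q 2).coeff 0) * h ^ 2 + ev1 (q 1) f * h + ev1 (q 0) f := by
    have h5 : ev1 (q 2) f = C ((q 2).coeff 0) := by
      rw [hq2', Polynomial.coeff_C_zero, ev1, Polynomial.aeval_C, algebraMap_eq]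
    rw [h1, hq3, hq4, h5]
    simp only [ev1, map_zero]
    ring
  refine ⟨(q 2).coeff 0, q 1, q 0, ?_, hev, ?_⟩
  · intro hκ
    obtain ⟨m, hm, h5⟩ := hP2
    have h6 := h4 m hm
    have h7 := hm1 m hm
    obtain ⟨t, ht⟩ := hs
    have h8 : m 1 = 0 ∨ m 1 = 1 ∨ m 1 = 2 := by omega
    rcases h8 with h8 | h8 | h8
    · rw [h8] at h5 h6
      have h9 : m 0 = s := by omega
      rw [h9] at h6
      have h10 : s ≤ (q 0).natDegree := Polynomial.le_natDegree_of_ne_zero h6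
      have h11 : q 0 ≠ 0 := by
        rintro h
        rw [h, Polynomial.coeff_zero] at h6
        exact h6 rfl
      obtain ⟨-, h12, -⟩ := D_ab ω hδ ⟨t, ht⟩ hf hh (q 1) (q 0) (Or.inr h11)
      have h13 : D ω (ev P f h) = max (D ω (ev1 (q 1) f * h)) (D ω (ev1 (q 0) f)) := by
        rw [← h12, hev, hκ, C_0]
        congr 1
        ring
      have h14 : D ω (ev1 (q 0) f) ≤ D ω (ev P f h) := by
        rw [h13]
        exact le_max_right _ _
      rw [D_ev1 ω hf0, hf] at h14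
      have h15 : (s : ℝ) ≤ (q 0).natDegree := by exact_mod_cast h10
      have h16 : (0 : ℝ) < s := by
        have : 0 < s := by omega
        exact_mod_cast this
      nlinarith
    · rw [h8] at h5
      omega
    · rw [h8] at h5 h6
      have h9 : m 0 = 0 := by omega
      rw [h9, hκ] at h6
      exact h6 rfl
  · rw [D_ev1 ω hf0, hf]
    have h5 : 2 * ((q 1).natDegree : ℝ) + 1 ≤ s := by exact_mod_cast hq1
    nlinarith

/-- the second polynomial -/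
private theorem ee_Q {ω : Wts} {f h : B k} {δ c : ℝ} {s : ℕ} (hδ : 0 < δ) (hs : Odd s) (hs3 : 3 ≤ s)
    (hf : D ω f = 2 * δ) (hh : D ω h = s * δ) (hcr : cr f h ≠ 0) {Q : MvPolynomial (Fin 2) k}
    (hc : D ω (ev Q f h) ≤ c) (hcs : c < s * δ) (hQ : ∀ m ∈ Q.support, m 1 ≤ 4)
    {κ : k} (hκ : κ ≠ 0) (A B' : Polynomial k) (hz : D ω (C κ * h ^ 2 + ev1 A f * h + ev1 B' f) = c + s * δ)
    (hc1 : (s - 1) * δ < c) : ¬Ess Q := by
  have hf0 : 0 < D ω f := by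
    rw [hf]
    linarith
  have hs3' : (3 : ℝ) ≤ s := by exact_mod_cast hs3
  have hz' : ∀ i j : ℕ, D ω (C κ * h ^ 2 + ev1 A f * h + ev1 B' f) + i * δ ≠ j * δ := by
    intro i j he
    rw [hz] at he
    have h1 : c = (j - s - i) * δ := by linarith
    rw [h1] at hc1 hcs
    have h2 := lt_of_mul_lt_mul_right hc1 hδ.le
    have h3 := lt_of_mul_lt_mul_right hcs hδ.le
    have h4 : 2 * (s : ℝ) + i < j + 1 := by linarith
    have h5 : (j : ℝ) < 2 * s + i := by linarith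
    have h6 : 2 * s + i < j + 1 := by exact_mod_cast h4
    have h7 : j < 2 * s + i := by exact_mod_cast h5
    omega
  obtain ⟨r, h1, h2, h3, h4, h5⟩ := split_coeff (P := Q) hQ
  have h6 : pderiv 1 Q = 0 := by
    by_contra hne
    have h7 := ch_right ω hcr hne
    have h8 := d_pos ω hcr
    have h9 : D ω (ev (pderiv 1 Q) f h) < D ω (C κ * h ^ 2 + ev1 A f * h + ev1 B' f) := by
      rw [hz]
      rw [hf] at h7
      nlinarith
    rw [h2] at h9
    obtain ⟨h10, h11⟩ := zlem ω hδ hs hf hh hκ A B' hz' h9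
    have h12 : r 3 = 0 := by
      rcases mul_eq_zero.1 h10 with h | h
      · exact absurd h (by norm_num)
      · exact h
    have h13 : r 4 = 0 := by
      rcases mul_eq_zero.1 h11 with h | h
      · exact absurd h (by norm_num)
      · exact h
    have h14 : D ω (ev Q f h) < D ω (C κ * h ^ 2 + ev1 A f * h + ev1 B' f) := by
      rw [hz]
      nlinarith
    have h15 : ev Q f h = ev1 (r 0) f + ev1 (r 1) f * h + ev1 (r 2) f * h ^ 2 + ev1 0 f * h ^ 3 := by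
      rw [h1, h12, h13]
      simp only [ev1, map_zero]
      ring
    rw [h15] at h14
    obtain ⟨h16, -⟩ := zlem ω hδ hs hf hh hκ A B' hz' h14
    have h17 : r 1 = 0 := by
      by_contra hr
      obtain ⟨-, h18, -⟩ := D_ab ω hδ hs hf hh (r 1) (r 0) (Or.inl hr)
      have h19 : ev Q f h = ev1 (r 1) f * h + ev1 (r 0) f := by
        rw [h15, h16]
        simp only [ev1, map_zero]
        ring
      have hh0 : h ≠ 0 := by
        rintro rfl
        rw [D_zero] at hh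
        nlinarith
      have h20 : D ω (ev1 (r 1) f * h) ≤ D ω (ev Q f h) := by
        rw [h19, h18]
        exact le_max_left _ _
      rw [D_mul ω (ev1_ne_zero ω hf0 hr) hh0, hh] at h20
      have h21 := D_nonneg ω (ev1 (r 1) f)
      linarith
    apply hne
    rw [h5]
    intro j hj1 hj4
    have hj : j = 1 ∨ j = 2 ∨ j = 3 ∨ j = 4 := by omega
    rcases hj with rfl | rfl | rfl | rfl
    · exact h17
    · exact h16
    · exact h12
    · exact h13
  rintro ⟨m, hm, h7⟩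
  have h8 : 1 ≤ m 1 := by omega
  have h9 := h5.1 h6 (m 1) h8 (hQ m hm)
  have h10 := h4 m hm
  rw [h9, Polynomial.coeff_zero] at h10
  exact h10 rfl

theorem se_core {ω : Wts} {V X Y : Submodule k (B k)} {f1 f2 f3 g : B k}
    {P Q : MvPolynomial (Fin 2) k} (s : SitE ω V X Y f1 f2 f3 g P Q) (hr1 : ∀ j : ℕ, D ω f2 ≠ j * D ω f1)
    (hr2 : ∀ j : ℕ, D ω f1 ≠ j * D ω f2) (hP : Ess P) (hQ : Ess Q) (huv : d ω f1 f3 ≤ d ω f1 f2) : False := by
  obtain ⟨hp1, hp2, hp3⟩ := s.ju.pos ω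
  have hu := d_pos ω s.ju.cr12
  have hv := d_pos ω s.ju.cr13
  have hcp := cp ω s.ju
  have hε := eps_pos ω
  have hPc : D ω (ev P f1 f2) ≤ D ω g := D_of_add_le ω s.nX
  have hQc : D ω (ev Q f1 f3) ≤ D ω g := D_of_add_le ω s.nY
  have hlt3 : D ω g < D ω f3 := by
    rw [← s.eq]
    exact s.lt
  obtain ⟨m, p, q, i, j, hm, hp, hq, hco, hpq, h1, hPs, hPe⟩ := ee_snd s.ju.cr12 hP hPc s.lt
  obtain ⟨m', p', q', i', j', hm', hp', hq', hco', hpq', h1', hQs, -⟩ := ee_snd s.ju.cr13 hQ hQc hlt3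
  obtain ⟨rfl, rfl⟩ := ee_pq hp1 hp2 hp hp' hco hco' hpq (by rw [s.eq]; exact hpq')
  have hp2' : 2 ≤ p := by
    rcases Nat.lt_or_ge p 2 with h | h
    · have h2 : p = 1 := by omega
      rw [h2, Nat.cast_one, one_mul] at hpq
      exact absurd hpq (hr2 q)
    · exact h
  have hq2' : 2 ≤ q := by
    rcases Nat.lt_or_ge q 2 with h | h
    · have h2 : q = 1 := by omega
      rw [h2, Nat.cast_one, one_mul] at hpq
      exact absurd hpq.symm (hr1 p)
    · exact h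
  rw [← s.eq] at hQs h1'
  obtain ⟨δ, hδ, hodd, hp3', hq2, ha, hb⟩ := num_E1 hp1 hp2 s.lt (D_nonneg ω g) hu hv hε hcp hm hm' hp2' hq2' hco
    hpq (by
      have h2 : 0 ≤ (i : ℝ) * D ω f1 := mul_nonneg (Nat.cast_nonneg _) hp1.le
      have h3 : 0 ≤ (j : ℝ) * D ω f2 := mul_nonneg (Nat.cast_nonneg _) hp2.le
      linarith) (by
      have h2 : 0 ≤ (i' : ℝ) * D ω f1 := mul_nonneg (Nat.cast_nonneg _) hp1.le
      have h3 : 0 ≤ (j' : ℝ) * D ω f2 := mul_nonneg (Nat.cast_nonneg _) hp2.le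
      linarith)
  have hlt := s.lt
  have hb3 : D ω f3 = p * δ := by rw [← s.eq, hb]
  rw [ha, hb] at h1 hPs hPe h1' hQs
  rw [ha] at hcp
  rw [hb] at hlt
  obtain ⟨hm1, hi0, hj0, hc1⟩ := num_E2 hδ hp3' hlt hε hcp huv hm h1
  rw [hm1, hi0, hj0] at hPs hPe
  have hPs' : ∀ μ ∈ P.support, 2 * μ 0 + p * μ 1 ≤ 2 * p := by
    intro μ hμ
    have h2 := hPs μ hμ
    have h3 : (2 * (μ 0 : ℝ) + p * μ 1) * δ ≤ (2 * p) * δ := by
      push_cast at h2
      linarith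
    have h4 := le_of_mul_le_mul_right h3 hδ
    exact_mod_cast h4
  have hPe' : ∃ μ ∈ P.support, 2 * μ 0 + p * μ 1 = 2 * p := by
    obtain ⟨μ, hμ, h2⟩ := hPe
    refine ⟨μ, hμ, ?_⟩
    have h3 : (2 * (μ 0 : ℝ) + p * μ 1) * δ = (2 * p) * δ := by
      push_cast at h2
      linarith
    have h4 := mul_right_cancel₀ hδ.ne' h3
    exact_mod_cast h4
  obtain ⟨κ, A, B', hκ, hevP, hA⟩ := ee_shape hδ hodd hp3' ha hb hPc hlt hPs' hPe'
  have hQ4 : ∀ μ ∈ Q.support, μ 1 ≤ 4 := fun μ hμ => num_E3 hδ hodd hp3' hlt hv hm' h1' (hQs μ hμ)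
  obtain ⟨l, n, hl, hg⟩ := s.hg
  have hp3r : (3 : ℝ) ≤ p := by exact_mod_cast hp3'
  have hh : D ω (g - C n * f1) = D ω g := by
    refine D_sub_left ω (lt_of_le_of_lt (D_C_mul_le ω _ _) ?_)
    rw [ha]
    nlinarith
  obtain ⟨h, hhd⟩ : ∃ h, h = g - C n * f1 := ⟨_, rfl⟩
  rw [← hhd] at hh
  have hf2 : f2 = h - C l * f3 := by
    rw [hhd, hg]
    ring
  have hκl : κ * l ^ 2 ≠ 0 := mul_ne_zero hκ (pow_ne_zero 2 hl)
  have h2κl : 2 * κ * l ≠ 0 := mul_ne_zero (mul_ne_zero two_ne_zero hκ) hl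
  have hev1 : ev1 (Polynomial.C (-l) * A) f1 = -(C l * ev1 A f1) := by
    rw [ev1, map_mul, Polynomial.aeval_C, algebraMap_eq, map_neg, neg_mul]
    rfl
  have hz : C (κ * l ^ 2) * f3 ^ 2 + ev1 (Polynomial.C (-l) * A) f1 * f3 + ev1 B' f1 =
      C (2 * κ * l) * (h * f3) + (ev P f1 f2 - C κ * h ^ 2 - ev1 A f1 * h) := by
    rw [hevP, hev1, hf2]
    simp only [C_mul, C_pow]
    have h2 : (C 2 : B k) = 2 := by
      rw [← one_add_one_eq_two, C_add, C_1]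
      norm_num
    rw [h2]
    ring
  have hg0 : 0 < D ω g := by
    have h2 := D_nonneg ω (ev P f1 f2)
    nlinarith
  have hh0 : h ≠ 0 := by
    rintro rfl
    rw [D_zero] at hh
    linarith
  have hf30 : f3 ≠ 0 := by
    rintro rfl
    rw [D_zero] at hp3
    exact lt_irrefl _ hp3
  have hD1 : D ω (C (2 * κ * l) * (h * f3)) = D ω g + p * δ := by
    rw [D_C_mul ω h2κl, D_mul ω hh0 hf30, hh, hb3]
  have hpδ : 0 < (p : ℝ) * δ := by
    rw [← hb3]
    exact hp3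
  have hD2 : D ω (ev P f1 f2 - C κ * h ^ 2 - ev1 A f1 * h) < D ω g + p * δ := by
    refine lt_of_le_of_lt (D_sub_le ω _ _) (max_lt (lt_of_le_of_lt (D_sub_le ω _ _) (max_lt ?_ ?_)) ?_)
    · linarith
    · rw [D_C_mul ω hκ, D_pow, hh]
      push_cast
      linarith
    · refine lt_of_le_of_lt (D_mul_le ω _ _) ?_
      rw [hh]
      nlinarith
  have hDz : D ω (C (κ * l ^ 2) * f3 ^ 2 + ev1 (Polynomial.C (-l) * A) f1 * f3 + ev1 B' f1) = D ω g + p * δ := by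
    rw [hz, D_add_left ω (by rw [hD1]; exact hD2), hD1]
  exact ee_Q hδ hodd hp3' ha hb3 s.ju.cr13 hQc hlt hQ4 hκl _ _ hDz hc1 hQ

theorem ee_eq {ω : Wts} {V X Y : Submodule k (B k)} (IH : IHyp k ω (S ω V)) {f1 f2 f3 : B k}
    {P Q : MvPolynomial (Fin 2) k} (s : Sit ω V X Y f1 f2 f3 P Q) (h : D ω f2 = D ω f3) : Conn ω V X Y := by
  obtain ⟨g, P', Q', t⟩ := sitE s h
  by_cases hr1 : ∃ j : ℕ, D ω f2 = j * D ω f1
  · exact se_res1 IH t hr1
  by_cases hr2 : ∃ j : ℕ, D ω f1 = j * D ω f2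
  · exact se_res2 IH t hr2
  have hr1' : ∀ j : ℕ, D ω f2 ≠ j * D ω f1 := fun j hj => hr1 ⟨j, hj⟩
  have hr2' : ∀ j : ℕ, D ω f1 ≠ j * D ω f2 := fun j hj => hr2 ⟨j, hj⟩
  by_cases hP : Ess P'
  · by_cases hQ : Ess Q'
    · exfalso
      rcases le_total (d ω f1 f3) (d ω f1 f2) with h1 | h1
      · exact se_core t hr1' hr2' hP hQ h1
      · obtain ⟨g', P'', Q'', t', hP', hQ'⟩ := t.symm
        exact se_core t' (fun j hj => hr1' j (by rw [h]; exact hj)) (fun j hj => hr2' j (by rw [h]; exact hj))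
          (hQ' hQ) (hP' hP) h1
    · exact se_ness IH t hr1' (Or.inr hQ)
  · exact se_ness IH t hr1' (Or.inl hP)

end SU
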