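import Pool.Agent.Lib.MP_374dcb_al.SitN
import Pool.Agent.Lib.MP_374dcb_al.Num

/-!
# JOB EeQ: the essential polynomial `Q`, and the case `D f1 = j * D f3`

`ee_Q`: `D (ev Q f1 f3) ≤ D f2` (`D_of_add_le`). `Q` is essential: there is `μ ∈ Q.support` with `μ 1 ≥ 1`, so `μ 0 * D f1 + μ 1 * D f3 ≥ D f3 > D f2`: the first alternative of `par'` is impossible. The second
one gives `m (p D f1) ≤ D f2 + m (D f1 + D f3 - t)`, and `num_Q` with `a = D f1`, `b = D f2`, `c = D f3`, `t = d f1 f3 > 0` (`d_pos`, `JU.cr13`).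
`ee_res2`: `D f1 = j * D f3`, `j ≥ 2`, `P` essential. `c := D f3`. `res`: `α ≠ 0` with `D (f1 + C α * f3 ^ j) < D f1`. `W := sp f3 f2 (f1 + C α * f3 ^ j)`; the degrees `D f3 > D f2`, `D f1 ≥ 2 D f3` are different; `sq_strict`
with `g = f3`, `h2 = f2`, `h3 = f1`, `V = sp f3 f2 f1`, and `Y = sp f3 f1 (f2 + ev Q f1 f3)` (`u = f1`, `v = f2`, `ev_swap` for `Q`): `Conn ω V W Y`, `S W < S V`. It remains `Conn ω V W X`.
`D (ev P f1 f2) ≤ D f3` (`D_of_add_le`).
 - first alternative of `par'` for `(f1,f2)`, `P`: all exponents satisfy `μ 0 * D f1 + μ 1 * D f2 ≤ D f3 < D f1`, so `μ 0 = 0`: `ev P f1 f2 = ev1 R f2` for a polynomial `R` (take `P` after `ev_swap` and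
   `not_ess`, or directly), `X = sp f1 f2 (f3 + ev1 R f2) = sp f2 f1 (f3 + ev1 R f2)`: `sq` with `g = f2`, `h2 = f1`, `h3 = f3` (`nX`, `nX'`) and the other neighbour
   `W = sp f2 f3 (f1 + C α * f3 ^ j)` (`u = f3`, `v = f1`): `Conn ω V X W`.
 - second alternative: `num_J` (`u = d f1 f2 > 0`): `D f1 = i * D f2`, `i ≥ 1`. `res`: `β ≠ 0`, `D (f1 + C β * f2 ^ i) < D f1`, `W' := sp f2 f3 (f1 + C β * f2 ^ i)`, `sq_strict` with `g = f2`, `h2 = f3`, `h3 = f1` and `X = sp f2 f1 (f3 + ..)`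
   (`u = f1`, `v = f3`): `Conn ω V W' X`, `S W' < S V`. `W`, `W'` have the same center `(f2,f3)`: `conn_center`. So `W - W' - X` is connected.
-/

set_option autoImplicit false

open MvPolynomial

namespace SU

universe u
variable {k : Type u} [Field k] [CharZero k]

omit [CharZero k] in
private theorem eeQ_ev1_of_support {P : MvPolynomial (Fin 2) k} (h : ∀ m ∈ P.support, m 0 = 0) :
    ∃ R : Polynomial k, ∀ f g : B k, ev P f g = ev1 R g := by
  refine ⟨∑ m ∈ P.support, Polynomial.C (coeff m P) * Polynomial.X ^ m 1, fun f g => ?_⟩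
  rw [ev_eq_sum]
  unfold ev1
  rw [map_sum]
  refine Finset.sum_congr rfl fun m hm => ?_
  have h1 := ev1_monomial (coeff m P) (m 1) g
  unfold ev1 at h1
  rw [h1, h m hm, pow_zero, mul_one]

theorem ee_Q {ω : Wts} {V X Y : Submodule k (B k)} {f1 f2 f3 : B k}
    {P Q : MvPolynomial (Fin 2) k} (s : SitN ω V X Y f1 f2 f3 P Q) (hQ : Ess Q) :
    (∃ j : ℕ, D ω f3 = j * D ω f1) ∨ (∃ j : ℕ, 2 ≤ j ∧ D ω f1 = j * D ω f3) ∨
    (∃ (δ : ℝ) (r : ℕ), 0 < δ ∧ Odd r ∧ 3 ≤ r ∧ D ω f1 = 2 * δ ∧ D ω f3 = r * δ ∧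
      d ω f1 f3 ≤ D ω f2 - (r - 2) * δ) ∨
    (∃ δ : ℝ, 0 < δ ∧ D ω f1 = 3 * δ ∧ D ω f3 = 2 * δ ∧ d ω f1 f3 ≤ D ω f2 - δ) := by
  obtain ⟨p1, p2, p3⟩ := s.ju.pos ω
  have hle := D_of_add_le ω s.nY
  have hlt := s.lt
  have hcr := s.ju.cr13
  rcases par' ω hcr Q with hA | ⟨m, p, q, i, j, hm, hp, hq, hco, hpq, hin, -, -, -⟩
  · exfalso
    obtain ⟨μ, hμ, hμ1⟩ := hQ
    have h1 : 1 ≤ μ 1 := by omega
    have h2 := hA μ hμ
    have h3 : (1 : ℝ) ≤ μ 1 := by exact_mod_cast h1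
    have h4 : 0 ≤ (μ 0 : ℝ) * D ω f1 := by positivity
    have h5 : D ω f3 ≤ (μ 1 : ℝ) * D ω f3 := by
      have := mul_le_mul_of_nonneg_right h3 p3.le
      linarith
    linarith
  · have h4 : 0 ≤ (i : ℝ) * D ω f1 := by positivity
    have h5 : 0 ≤ (j : ℝ) * D ω f3 := by positivity
    have hin' : m * (p * D ω f1) ≤ D ω f2 + m * (D ω f1 + D ω f3 - d ω f1 f3) := by linarith
    exact num_Q p1 p2 (d_pos ω hcr) hlt s.n13 hm hp hq hco hpq hin'

theorem ee_res2 {ω : Wts} {V X Y : Submodule k (B k)} (IH : IHyp k ω (S ω V)) {f1 f2 f3 : B k}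
    {P Q : MvPolynomial (Fin 2) k} (s : SitN ω V X Y f1 f2 f3 P Q) {j : ℕ} (hj : 2 ≤ j)
    (h : D ω f1 = j * D ω f3) : Conn ω V X Y := by
  obtain ⟨p1, p2, p3⟩ := s.ju.pos ω
  have hlt := s.lt
  have hj1 : 1 ≤ j := by omega
  have h31 : D ω f3 < D ω f1 := by
    have : (2 : ℝ) ≤ j := by exact_mod_cast hj
    have := mul_le_mul_of_nonneg_right this p3.le
    linarith
  obtain ⟨α, hα, hres⟩ := res ω p3 hj1 h
  have hR := ev1_monomial α j f3
  have hw : D ω (f1 + ev1 (Polynomial.C α * Polynomial.X ^ j) f3) < D ω f1 := by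
    rw [hR]; exact hres
  obtain ⟨Q', hQ', -⟩ := ev_swap Q
  have hYeq : Y = sp f3 f1 (f2 + ev Q' f3 f1) := by
    rw [s.hY, hQ' f1 f3, sp_swap12]
  have hVrev : V = sp f3 f2 f1 := by rw [s.hV, sp_rev]
  have hVrot : V = sp f3 f1 f2 := by rw [s.hV, ← sp_rot f1 f2 f3, ← sp_rot f2 f3 f1]
  have hstepY := sq_strict IH s.ju.rev hVrev (ne_of_gt hlt) (ne_of_lt h31) (ne_of_lt (hlt.trans h31))
    (Polynomial.C α * Polynomial.X ^ j) hw s.ju.rot.rot hVrot Q' (by rw [← hYeq]; exact s.wY)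
  rw [← hYeq] at hstepY
  obtain ⟨hSW, hWY⟩ := hstepY
  -- the polynomial of `W` with center `(f2, f3)`
  obtain ⟨A, hA⟩ := ev1_eq_ev (Polynomial.C α * Polynomial.X ^ j : Polynomial k)
  obtain ⟨A', hA', -⟩ := ev_swap A
  have hWeq : sp f3 f2 (f1 + ev1 (Polynomial.C α * Polynomial.X ^ j) f3) =
      sp f2 f3 (f1 + ev A' f2 f3) := by
    rw [hA' f3 f2, hA f3 f2, sp_swap12]
  rw [hWeq] at hSW hWY
  have hVrot1 : V = sp f2 f3 f1 := by rw [s.hV, ← sp_rot f1 f2 f3]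
  have hXW : Conn ω V X (sp f2 f3 (f1 + ev A' f2 f3)) := by
    have hle := D_of_add_le ω s.nX
    have hcr := s.ju.cr12
    rcases par' ω hcr P with hB | ⟨m, p, q, i, j', hm, hp, hq, hco, hpq, hin, -, -, -⟩
    · have hsup : ∀ m ∈ P.support, m 0 = 0 := by
        intro m hm
        by_contra hne
        have h1 : 1 ≤ m 0 := by omega
        have h2 := hB m hm
        have h3 : (1 : ℝ) ≤ m 0 := by exact_mod_cast h1
        have h4 : 0 ≤ (m 1 : ℝ) * D ω f2 := by positivity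
        have h5 : D ω f1 ≤ (m 0 : ℝ) * D ω f1 := by
          have := mul_le_mul_of_nonneg_right h3 p1.le
          linarith
        linarith
      obtain ⟨R, hRR⟩ := eeQ_ev1_of_support hsup
      have hXeq : X = sp f2 f1 (f3 + ev1 R f2) := by
        rw [s.hX, hRR, sp_swap12]
      have hVs : V = sp f2 f1 f3 := by rw [s.hV, sp_swap12]
      have hnX : D ω (f3 + ev1 R f2) ≤ D ω f3 := by
        have := s.nX
        rw [hRR] at this; exact this
      have hnX' : S ω (sp f2 f1 (f3 + ev1 R f2)) < S ω V → D ω (f3 + ev1 R f2) < D ω f3 := by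
        intro hS
        have := s.nX' (by rw [hXeq]; exact hS)
        rw [hRR] at this; exact this
      have := sq IH s.ju.swap hVs (ne_of_lt (hlt.trans h31)) (ne_of_lt hlt) (ne_of_gt h31) R hnX hnX'
        s.ju.rot hVrot1 A' hSW.le
      rw [← hXeq] at this
      exact this
    · have h4 : 0 ≤ (i : ℝ) * D ω f1 := by positivity
      have h5 : 0 ≤ (j' : ℝ) * D ω f2 := by positivity
      have hin' : m * (p * D ω f1) ≤ D ω f3 + m * (D ω f1 + D ω f2 - d ω f1 f2) := by linarith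
      obtain ⟨n, hn, hn'⟩ := num_J p2 hlt hj h (d_pos ω hcr) hm hp hq hpq hin'
      obtain ⟨β, hβ, hres'⟩ := res ω p2 hn hn'
      have hR' := ev1_monomial β n f2
      have hw' : D ω (f1 + ev1 (Polynomial.C β * Polynomial.X ^ n) f2) < D ω f1 := by
        rw [hR']; exact hres'
      obtain ⟨P', hP', -⟩ := ev_swap P
      have hXeq : X = sp f2 f1 (f3 + ev P' f2 f1) := by
        rw [s.hX, hP' f1 f2, sp_swap12]
      have hVs : V = sp f2 f1 f3 := by rw [s.hV, sp_swap12]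
      have hstepX := sq_strict IH s.ju.rot hVrot1 (ne_of_lt hlt) (ne_of_lt (hlt.trans h31))
        (ne_of_lt h31) (Polynomial.C β * Polynomial.X ^ n) hw' s.ju.swap hVs P'
        (by rw [← hXeq]; exact s.wX)
      rw [← hXeq] at hstepX
      obtain ⟨hSW', hW'X⟩ := hstepX
      obtain ⟨G, hG⟩ := ev1_eq_ev (Polynomial.C β * Polynomial.X ^ n : Polynomial k)
      have hW'eq : sp f2 f3 (f1 + ev1 (Polynomial.C β * Polynomial.X ^ n) f2) =
          sp f2 f3 (f1 + ev G f2 f3) := by rw [hG f2 f3]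
      rw [hW'eq] at hSW' hW'X
      exact hW'X.symm.trans (conn_center IH s.ju.rot G A') hSW'
  exact hXW.trans hWY hSW

end SU
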