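import Pool.Agent.Lib.MP_374dcb_al.KeA

/-!
# JOB KeB: invariants of K-sources

`ke_inv`: `X = sp f1 f2 p`, `p = f3 + C α * f2 ^ 2`, with the degrees `b < 2δ < D p` (k2), and `X = sp u1 u2 u3`, `D u1 < D u2 < D u3`. The degrees of a good basis are unique: elements of `X` of degree
`< 2δ` lie in `span(1,f2)`, those of degree `< D p` in `span(1,f2,f1)`. So (compare the sorted degrees; both bases are good) `u1 = C a * f2 + C b'`, `u2 = C a' * f1 + C c * f2 + C b''`, `u3 = C a'' * p + C x * f1 + C y * f2 + C z`,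
`a, a', a'' ≠ 0` and `D u1 = b`, `D u2 = 2δ`, `D u3 = D p`. `t = d f1 f3`. By bilinearity `cr u1 u2 = C (a a') • cr f2 f1`: `d u1 u2 = 3δ + t` (k1). `cr u1 u3 = C (a a'') • cr f2 p + C (a x) • cr f2 f1`: degrees
`4δ + t > 3δ + t`: `d u1 u3 = 4δ + t`. `cr u2 u3 = C (a' a'') • cr f1 p + C (a' y - c x) • cr f1 f2 + C (c a'') • cr f2 p`: degrees `b + 3δ + t > 4δ + t > 3δ + t`: `d u2 u3 = b + 3δ + t`.
`ke_pair`: let `v, w ∈ X` with `cr v w ≠ 0`: `cr v w` is a combination of `cr f1 f2`, `cr f1 p`, `cr f2 p`, whose degrees `3δ + t`, `b + 3δ + t`, `4δ + t` are pairwise different (`b > δ`), so its degree is one of them (`N_add_left`, ...), `> 3δ`.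
 Stated with the degree `D u2 = 2δ` of the middle basis element: `3/2 * D u2 < d v w`.
-/

set_option autoImplicit false

open MvPolynomial

namespace SU

universe u
variable {k : Type u} [Field k] [CharZero k]

private theorem KeB_cr (g1 g2 g3 : B k) (x y z e x' y' z' e' : k) :
    cr (C x * g1 + C y * g2 + C z * g3 + C e) (C x' * g1 + C y' * g2 + C z' * g3 + C e') =
      (C (x * y' - y * x') : B k) • cr g1 g2 + (C (x * z' - z * x') : B k) • cr g1 g3 +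
        (C (y * z' - z * y') : B k) • cr g2 g3 := by
  simp only [cr_add_left, cr_add_right, cr_C_mul_left, cr_C_mul_right, cr_C_left, cr_C_right,
    cr_self, smul_zero, add_zero, zero_add]
  rw [cr_swap g1 g2, cr_swap g1 g3, cr_swap g2 g3]
  funext i
  simp only [Pi.add_apply, Pi.smul_apply, Pi.neg_apply, smul_eq_mul, C_sub, C_mul]
  ring

private theorem KeB_deg (ω : Wts) {g1 g2 g3 : B k} (h0 : 0 < D ω g1) (h12 : D ω g1 < D ω g2)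
    (h23 : D ω g2 < D ω g3) (x y z e : k) :
    (z ≠ 0 ∧ D ω (C x * g1 + C y * g2 + C z * g3 + C e) = D ω g3) ∨
    (z = 0 ∧ y ≠ 0 ∧ D ω (C x * g1 + C y * g2 + C z * g3 + C e) = D ω g2) ∨
    (z = 0 ∧ y = 0 ∧ x ≠ 0 ∧ D ω (C x * g1 + C y * g2 + C z * g3 + C e) = D ω g1) ∨
    (z = 0 ∧ y = 0 ∧ x = 0 ∧ D ω (C x * g1 + C y * g2 + C z * g3 + C e) = 0) := by
  rw [D_add_C]
  have hx := D_C_mul_le ω x g1
  have hy := D_C_mul_le ω y g2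
  have hxy : D ω (C x * g1 + C y * g2) ≤ D ω g2 := (D_add_le ω _ _).trans (max_le (hx.trans h12.le) hy)
  by_cases hz : z = 0
  · right
    subst hz
    rw [C_0, zero_mul, add_zero]
    by_cases hy0 : y = 0
    · right
      subst hy0
      rw [C_0, zero_mul, add_zero]
      by_cases hx0 : x = 0
      · right
        subst hx0
        rw [C_0, zero_mul, D_zero]
        exact ⟨rfl, rfl, rfl, rfl⟩
      · left
        exact ⟨rfl, rfl, hx0, D_C_mul ω hx0 g1⟩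
    · left
      refine ⟨rfl, hy0, ?_⟩
      rw [D_add_right ω, D_C_mul ω hy0]
      rw [D_C_mul ω hy0]
      exact hx.trans_lt h12
  · left
    refine ⟨hz, ?_⟩
    rw [D_add_right ω, D_C_mul ω hz]
    rw [D_C_mul ω hz]
    exact hxy.trans_lt h23

private theorem KeB_nrm (ω : Wts) {u v w : Fin 3 → B k} (huv : N ω u < N ω v) (hvw : N ω v < N ω w) (a b c : k) :
    (c ≠ 0 → N ω ((C a : B k) • u + (C b : B k) • v + (C c : B k) • w) = N ω w) ∧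
    (c = 0 → b ≠ 0 → N ω ((C a : B k) • u + (C b : B k) • v + (C c : B k) • w) = N ω v) ∧
    (c = 0 → b = 0 → a ≠ 0 → N ω ((C a : B k) • u + (C b : B k) • v + (C c : B k) • w) = N ω u) := by
  have h0 : ∀ (x : k) (y : Fin 3 → B k), N ω ((C x : B k) • y) ≤ N ω y := by
    intro x y
    by_cases hx : x = 0
    · subst hx
      rw [C_0, zero_smul, N_zero]
      exact N_nonneg ω y
    · exact (N_C_smul ω hx y).le
  have h1 : N ω ((C a : B k) • u + (C b : B k) • v) ≤ N ω v :=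
    (N_add_le ω _ _).trans (max_le ((h0 a u).trans huv.le) (h0 b v))
  refine ⟨fun hc => ?_, fun hc hb => ?_, fun hc hb ha => ?_⟩
  · rw [N_add_right ω, N_C_smul ω hc]
    rw [N_C_smul ω hc]
    exact h1.trans_lt hvw
  · subst hc
    rw [C_0, zero_smul, add_zero, N_add_right ω, N_C_smul ω hb]
    rw [N_C_smul ω hb]
    exact (h0 a u).trans_lt huv
  · subst hc
    subst hb
    rw [C_0, zero_smul, zero_smul, add_zero, add_zero, N_C_smul ω ha]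

/-- The good basis of a K-source. -/
private theorem KeB_basis {ω : Wts} {X Y : Submodule k (B k)} (h : KE ω X Y) :
    ∃ (g1 g2 g3 : B k) (δ t : ℝ), 0 < δ ∧ 0 < t ∧ (∀ x ∈ X, ∃ a b c e : k, x = C a * g1 + C b * g2 + C c * g3 + C e) ∧
      D ω g2 = 2 * δ ∧ δ < D ω g1 ∧ D ω g1 ≤ 3 / 2 * δ ∧ D ω g3 ≤ 3 * δ ∧ D ω g1 + δ + t ≤ D ω g3 ∧
      N ω (cr g1 g2) = 3 * δ + t ∧ N ω (cr g1 g3) = 4 * δ + t ∧ N ω (cr g2 g3) = D ω g1 + 3 * δ + t := by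
  obtain ⟨f1, f2, f3, δ, α, R, hp, hα, h1, h2, rfl, rfl⟩ := h
  obtain ⟨ht, htb, h12, h23⟩ := k1 hp h1 h2
  obtain ⟨hA, hB, hC, hD, hE⟩ := k2 hp h1 h2 hα
  have H := hp.ju
  have hδ : 0 < δ := by
    have := (JU.pos ω H).1
    have := hp.d1
    linarith
  refine ⟨f2, f1, f3 + C α * f2 ^ 2, δ, d ω f1 f3, hδ, ht, fun x hx => ?_, hp.d1, hp.lo, hp.hi, hD, hC,
    (d_symm ω f1 f2).trans h12, hB, hA⟩
  obtain ⟨a, b, c, e, rfl⟩ := mem_sp.1 hx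
  exact ⟨b, a, c, e, by ring⟩

theorem ke_inv {ω : Wts} {X Y : Submodule k (B k)} (h : KE ω X Y) {u1 u2 u3 : B k} (H : JU u1 u2 u3)
    (hX : X = sp u1 u2 u3) (h12 : D ω u1 < D ω u2) (h23 : D ω u2 < D ω u3) :
    ∃ δ t : ℝ, 0 < δ ∧ 0 < t ∧ D ω u2 = 2 * δ ∧ δ < D ω u1 ∧ D ω u1 ≤ 3 / 2 * δ ∧ D ω u3 ≤ 3 * δ ∧
      D ω u1 + δ + t ≤ D ω u3 ∧ d ω u1 u2 = 3 * δ + t ∧ d ω u1 u3 = 4 * δ + t ∧ d ω u2 u3 = D ω u1 + 3 * δ + t := by
  obtain ⟨g1, g2, g3, δ, t, hδ, ht, hX', hg2, hlo, hhi, hg3, hge, n12, n13, n23⟩ := KeB_basis h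
  have hm1 : u1 ∈ X := by rw [hX]; exact mem_sp.2 ⟨1, 0, 0, 0, by simp⟩
  have hm2 : u2 ∈ X := by rw [hX]; exact mem_sp.2 ⟨0, 1, 0, 0, by simp⟩
  have hm3 : u3 ∈ X := by rw [hX]; exact mem_sp.2 ⟨0, 0, 1, 0, by simp⟩
  obtain ⟨x1, y1, z1, e1, hu1⟩ := hX' u1 hm1
  obtain ⟨x2, y2, z2, e2, hu2⟩ := hX' u2 hm2
  obtain ⟨x3, y3, z3, e3, hu3⟩ := hX' u3 hm3
  obtain ⟨p1, p2, p3⟩ := JU.pos ω H
  have q0 : 0 < D ω g1 := by linarith
  have q12 : D ω g1 < D ω g2 := by linarith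
  have q23 : D ω g2 < D ω g3 := by linarith
  have c1 := KeB_deg ω q0 q12 q23 x1 y1 z1 e1
  have c2 := KeB_deg ω q0 q12 q23 x2 y2 z2 e2
  have c3 := KeB_deg ω q0 q12 q23 x3 y3 z3 e3
  rw [← hu1] at c1
  rw [← hu2] at c2
  rw [← hu3] at c3
  have r1 : z1 = 0 ∧ y1 = 0 ∧ x1 ≠ 0 ∧ D ω u1 = D ω g1 := by
    rcases c1 with ⟨_, h1⟩ | ⟨_, _, h1⟩ | h1 | ⟨_, _, _, h1⟩
    · exfalso
      rcases c2 with ⟨_, h2⟩ | ⟨_, _, h2⟩ | ⟨_, _, _, h2⟩ | ⟨_, _, _, h2⟩ <;> linarith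
    · exfalso
      rcases c2 with ⟨_, h2⟩ | ⟨_, _, h2⟩ | ⟨_, _, _, h2⟩ | ⟨_, _, _, h2⟩ <;>
      rcases c3 with ⟨_, h3⟩ | ⟨_, _, h3⟩ | ⟨_, _, _, h3⟩ | ⟨_, _, _, h3⟩ <;> linarith
    · exact h1
    · exfalso
      linarith
  have r2 : z2 = 0 ∧ y2 ≠ 0 ∧ D ω u2 = D ω g2 := by
    rcases c2 with ⟨_, h2⟩ | h2 | ⟨_, _, _, h2⟩ | ⟨_, _, _, h2⟩
    · exfalso
      rcases c3 with ⟨_, h3⟩ | ⟨_, _, h3⟩ | ⟨_, _, _, h3⟩ | ⟨_, _, _, h3⟩ <;> linarith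
    · exact h2
    · exfalso
      linarith [r1.2.2.2]
    · exfalso
      linarith
  have r3 : z3 ≠ 0 ∧ D ω u3 = D ω g3 := by
    rcases c3 with h3 | ⟨_, _, h3⟩ | ⟨_, _, _, h3⟩ | ⟨_, _, _, h3⟩
    · exact h3
    · exfalso
      linarith [r2.2.2]
    · exfalso
      linarith [r2.2.2]
    · exfalso
      linarith
  obtain ⟨hz1, hy1, hx1, hD1⟩ := r1
  obtain ⟨hz2, hy2, hD2⟩ := r2
  obtain ⟨hz3, hD3⟩ := r3
  have m1 : N ω (cr g1 g2) < N ω (cr g1 g3) := by rw [n12, n13]; linarith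
  have m2 : N ω (cr g1 g3) < N ω (cr g2 g3) := by rw [n13, n23]; linarith
  refine ⟨δ, t, hδ, ht, by rw [hD2, hg2], by rw [hD1]; exact hlo, by rw [hD1]; exact hhi,
    by rw [hD3]; exact hg3, by rw [hD1, hD3]; exact hge, ?_, ?_, ?_⟩
  · have e : d ω u1 u2 = N ω (cr u1 u2) := rfl
    rw [e, hu1, hu2, KeB_cr, (KeB_nrm ω m1 m2 _ _ _).2.2, n12]
    · rw [hy1, hz1]; ring
    · rw [hz1, hz2]; ring
    · rw [hy1, zero_mul, sub_zero]
      exact mul_ne_zero hx1 hy2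
  · have e : d ω u1 u3 = N ω (cr u1 u3) := rfl
    rw [e, hu1, hu3, KeB_cr, (KeB_nrm ω m1 m2 _ _ _).2.1, n13]
    · rw [hy1, hz1]; ring
    · rw [hz1, zero_mul, sub_zero]
      exact mul_ne_zero hx1 hz3
  · have e : d ω u2 u3 = N ω (cr u2 u3) := rfl
    rw [e, hu2, hu3, KeB_cr, (KeB_nrm ω m1 m2 _ _ _).1, n23, hD1]
    rw [hz2, zero_mul, sub_zero]
    exact mul_ne_zero hy2 hz3

theorem ke_pair {ω : Wts} {X Y : Submodule k (B k)} (h : KE ω X Y) {u1 u2 u3 : B k} (H : JU u1 u2 u3)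
    (hX : X = sp u1 u2 u3) (h12 : D ω u1 < D ω u2) (h23 : D ω u2 < D ω u3) {v w : B k} (hv : v ∈ X) (hw : w ∈ X)
    (hvw : cr v w ≠ 0) : 3 / 2 * D ω u2 < d ω v w := by
  obtain ⟨g1, g2, g3, δ, t, hδ, ht, hX', hg2, hlo, hhi, hg3, hge, n12, n13, n23⟩ := KeB_basis h
  have hm1 : u1 ∈ X := by rw [hX]; exact mem_sp.2 ⟨1, 0, 0, 0, by simp⟩
  have hm2 : u2 ∈ X := by rw [hX]; exact mem_sp.2 ⟨0, 1, 0, 0, by simp⟩
  have hm3 : u3 ∈ X := by rw [hX]; exact mem_sp.2 ⟨0, 0, 1, 0, by simp⟩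
  obtain ⟨x1, y1, z1, e1, hu1⟩ := hX' u1 hm1
  obtain ⟨x2, y2, z2, e2, hu2⟩ := hX' u2 hm2
  obtain ⟨x3, y3, z3, e3, hu3⟩ := hX' u3 hm3
  obtain ⟨p1, p2, p3⟩ := JU.pos ω H
  have q0 : 0 < D ω g1 := by linarith
  have q12 : D ω g1 < D ω g2 := by linarith
  have q23 : D ω g2 < D ω g3 := by linarith
  have c1 := KeB_deg ω q0 q12 q23 x1 y1 z1 e1
  have c2 := KeB_deg ω q0 q12 q23 x2 y2 z2 e2
  have c3 := KeB_deg ω q0 q12 q23 x3 y3 z3 e3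
  rw [← hu1] at c1
  rw [← hu2] at c2
  rw [← hu3] at c3
  have r2 : D ω u2 = D ω g2 := by
    rcases c1 with ⟨_, h1⟩ | ⟨_, _, h1⟩ | ⟨_, _, _, h1⟩ | ⟨_, _, _, h1⟩ <;>
    rcases c2 with ⟨_, h2⟩ | ⟨_, _, h2⟩ | ⟨_, _, _, h2⟩ | ⟨_, _, _, h2⟩ <;>
    rcases c3 with ⟨_, h3⟩ | ⟨_, _, h3⟩ | ⟨_, _, _, h3⟩ | ⟨_, _, _, h3⟩ <;> linarith
  have m1 : N ω (cr g1 g2) < N ω (cr g1 g3) := by rw [n12, n13]; linarith
  have m2 : N ω (cr g1 g3) < N ω (cr g2 g3) := by rw [n13, n23]; linarith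
  obtain ⟨x, y, z, e, hv'⟩ := hX' v hv
  obtain ⟨x', y', z', e', hw'⟩ := hX' w hw
  have hcr := KeB_cr g1 g2 g3 x y z e x' y' z' e'
  rw [← hv', ← hw'] at hcr
  have hd : d ω v w = N ω (cr v w) := rfl
  rw [r2, hg2, hd, hcr]
  obtain ⟨k1, k2, k3⟩ := KeB_nrm ω m1 m2 (x * y' - y * x') (x * z' - z * x') (y * z' - z * y')
  by_cases hc : y * z' - z * y' = 0
  · by_cases hb : x * z' - z * x' = 0
    · by_cases ha : x * y' - y * x' = 0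
      · exfalso
        apply hvw
        rw [hcr, ha, hb, hc]
        simp
      · rw [k3 hc hb ha, n12]
        linarith
    · rw [k2 hc hb, n13]
      linarith
  · rw [k1 hc, n23]
    linarith

end SU
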