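import Pool.Agent.Lib.MP_374dcb_al.Res
import Pool.Agent.Lib.MP_374dcb_al.CP

/-!
# JOB PvP: the polynomials `P(f1,f2)` of degree `≤ 3δ` at a pivot; minimal representatives

`pvP`: `b = D f2`, `δ < b ≤ 3/2 δ`, `u = d f1 f2`, `t = d f1 f3 > 0`, `cp`: `2δ + ε ≤ u + t`, so `u ≥ 3δ - b + ε`.
 First alternative of `par'`: all exponents `(i,j)` of `P` satisfy `2δ i + b j ≤ 3δ`; as `δ < b`: `(i,j) ∈ {(0,0),(1,0),(0,1),(0,2)}` (`i = 1`: `b j ≤ δ`, `j = 0`; `i = 0`: `j ≤ 2`). So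
 `P = C α * X 1 ^ 2 + C β * X 0 + C γ * X 1 + C κ` (coefficients; `ext`), first conclusion.
 Second alternative: `L = p (2δ) = q b`, `m L ≤ 3δ + m (2δ + b - u) ≤ 3δ + m (2b - δ - ε)`, so `(q - 2) b < 3δ/m - δ`. `q = 1`: `b = 2pδ ≥ 2δ`, no. `q = 2`: `b = pδ`, `1 < p ≤ 3/2`, no. `q ≥ 4`: `2b < 2δ`, no. So
 `q = 3`, `3 b = 2 p δ`, `3 < 2p ≤ 4.5`, `p = 2`, `3 b = 4δ`; `m = 1` (`b < 3δ/m - δ`, `m ≥ 2` gives `b < δ/2`). `4δ ≤ 3δ + 2δ + b - u`: `u ≤ δ + b = 7/3 δ`.
`pvP_lt`: if moreover `D (ev P f1 f2) = 3δ` and `2 D f2 = 3δ`, the first conclusion holds with `α ≠ 0` (if `α = 0`: `D (C β * f1 + C γ * f2 + C κ) ≤ 2δ < 3δ`); the second is impossible (`3b = 4δ`).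
`exists_opt`: `exists_D_min` for the set of all `h + ev P f g`.
-/

set_option autoImplicit false

open MvPolynomial

namespace SU

universe u
variable {k : Type u} [Field k] [CharZero k]

private theorem PvP_four {P : MvPolynomial (Fin 2) k}
    (hsup : ∀ m ∈ P.support, (m 0 = 0 ∧ m 1 ≤ 2) ∨ (m 0 = 1 ∧ m 1 = 0)) (f g : B k) :
    ev P f g = C (coeff (Finsupp.single 1 2) P) * g ^ 2 + C (coeff (Finsupp.single 0 1) P) * f +
      C (coeff (Finsupp.single 1 1) P) * g + C (coeff 0 P) := by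
  classical
  have h01 : (0 : Fin 2 →₀ ℕ) ≠ Finsupp.single 0 1 := by
    intro h
    have h1 := DFunLike.congr_fun h 0
    simp at h1
  have h02 : (0 : Fin 2 →₀ ℕ) ≠ Finsupp.single 1 1 := by
    intro h
    have h1 := DFunLike.congr_fun h 1
    simp at h1
  have h03 : (0 : Fin 2 →₀ ℕ) ≠ Finsupp.single 1 2 := by
    intro h
    have h1 := DFunLike.congr_fun h 1
    simp at h1
  have h12 : (Finsupp.single 0 1 : Fin 2 →₀ ℕ) ≠ Finsupp.single 1 1 := by
    intro h
    have h1 := DFunLike.congr_fun h 1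
    simp at h1
  have h13 : (Finsupp.single 0 1 : Fin 2 →₀ ℕ) ≠ Finsupp.single 1 2 := by
    intro h
    have h1 := DFunLike.congr_fun h 1
    simp at h1
  have h23 : (Finsupp.single 1 1 : Fin 2 →₀ ℕ) ≠ Finsupp.single 1 2 := by
    intro h
    have h1 := DFunLike.congr_fun h 1
    simp at h1
  have hsub : P.support ⊆ ({0, Finsupp.single 0 1, Finsupp.single 1 1, Finsupp.single 1 2} : Finset (Fin 2 →₀ ℕ)) := by
    intro m hm
    simp only [Finset.mem_insert, Finset.mem_singleton]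
    rcases hsup m hm with ⟨h0, h1⟩ | ⟨h0, h1⟩
    · have h2 : m 1 = 0 ∨ m 1 = 1 ∨ m 1 = 2 := by omega
      rcases h2 with h2 | h2 | h2
      · left
        ext a
        fin_cases a
        · simpa using h0
        · simpa using h2
      · right; right; left
        ext a
        fin_cases a
        · simpa using h0
        · simpa using h2
      · right; right; right
        ext a
        fin_cases a
        · simpa using h0
        · simpa using h2
    · right; left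
      ext a
      fin_cases a
      · simpa using h0
      · simpa using h1
  rw [ev_eq_sum, Finset.sum_subset hsub (fun m _ hm => by
    rw [MvPolynomial.notMem_support_iff.1 hm, C_0, zero_mul, zero_mul])]
  rw [Finset.sum_insert, Finset.sum_insert, Finset.sum_insert, Finset.sum_singleton]
  · have e0 : (Finsupp.single (0 : Fin 2) 1 : Fin 2 →₀ ℕ) 0 = 1 := by simp
    have e1 : (Finsupp.single (0 : Fin 2) 1 : Fin 2 →₀ ℕ) 1 = 0 := by simp
    have e2 : (Finsupp.single (1 : Fin 2) 1 : Fin 2 →₀ ℕ) 0 = 0 := by simp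
    have e3 : (Finsupp.single (1 : Fin 2) 1 : Fin 2 →₀ ℕ) 1 = 1 := by simp
    have e4 : (Finsupp.single (1 : Fin 2) 2 : Fin 2 →₀ ℕ) 0 = 0 := by simp
    have e5 : (Finsupp.single (1 : Fin 2) 2 : Fin 2 →₀ ℕ) 1 = 2 := by simp
    rw [e0, e1, e2, e3, e4, e5, Finsupp.zero_apply, Finsupp.zero_apply, pow_zero, pow_zero, pow_one, pow_one]
    ring
  · simp only [Finset.mem_singleton]
    exact h23
  · simp only [Finset.mem_insert, Finset.mem_singleton]
    rintro (h | h)
    · exact h12 h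
    · exact h13 h
  · simp only [Finset.mem_insert, Finset.mem_singleton]
    rintro (h | h | h)
    · exact h01 h
    · exact h02 h
    · exact h03 h

theorem pvP {ω : Wts} {f1 f2 f3 : B k} {δ : ℝ} (hp : Piv ω f1 f2 f3 δ) (ht : d ω f1 f3 ≤ D ω f2 - δ)
    {P : MvPolynomial (Fin 2) k} (hP : D ω (ev P f1 f2) ≤ 3 * δ) :
    (∃ α β γ κ : k, ev P f1 f2 = C α * f2 ^ 2 + C β * f1 + C γ * f2 + C κ) ∨
    (3 * D ω f2 = 4 * δ ∧ d ω f1 f2 ≤ 7 / 3 * δ) := by
  have hju := hp.ju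
  have hcp := cp ω hju
  have hd1 := hp.d1
  have hlo := hp.lo
  have hhi := hp.hi
  have he := eps_pos ω
  have hδ : 0 < δ := by
    have h1 := (JU.pos ω hju).1
    linarith
  rcases par' ω (JU.cr12 hju) P with h | ⟨m, p, q, i, j, hm, hp1, hq1, -, hpq, hle, -, -, -⟩
  · left
    refine ⟨_, _, _, _, PvP_four (fun μ hμ => ?_) f1 f2⟩
    have h1 := h μ hμ
    rw [hd1] at h1
    have hμ1 : (0 : ℝ) ≤ (μ 1 : ℝ) * D ω f2 := mul_nonneg (Nat.cast_nonneg _) (D_nonneg ω f2)
    have h2 : μ 0 < 2 := by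
      by_contra hcon
      have h3 : (2 : ℝ) ≤ (μ 0 : ℝ) := by exact_mod_cast not_lt.1 hcon
      have h4 : 2 * (2 * δ) ≤ (μ 0 : ℝ) * (2 * δ) := mul_le_mul_of_nonneg_right h3 (by linarith)
      linarith
    have h3 : μ 1 < 3 := by
      by_contra hcon
      have h3 : (3 : ℝ) ≤ (μ 1 : ℝ) := by exact_mod_cast not_lt.1 hcon
      have h4 : 3 * D ω f2 ≤ (μ 1 : ℝ) * D ω f2 := mul_le_mul_of_nonneg_right h3 (D_nonneg ω f2)
      have h5 : 0 ≤ (μ 0 : ℝ) * (2 * δ) := by positivity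
      linarith
    have h4 : μ 0 = 0 ∨ μ 0 = 1 := by omega
    rcases h4 with h4 | h4
    · left
      exact ⟨h4, by omega⟩
    · right
      refine ⟨h4, ?_⟩
      by_contra hcon
      have h5 : (1 : ℝ) ≤ (μ 1 : ℝ) := by exact_mod_cast Nat.one_le_iff_ne_zero.2 hcon
      have h6 : 1 * D ω f2 ≤ (μ 1 : ℝ) * D ω f2 := mul_le_mul_of_nonneg_right h5 (D_nonneg ω f2)
      rw [h4] at h1
      push_cast at h1
      linarith
  · right
    rw [hd1] at hpq hle
    have hm1 : (1 : ℝ) ≤ (m : ℝ) := by exact_mod_cast hm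
    have hi0 : (0 : ℝ) ≤ (i : ℝ) * (2 * δ) := by positivity
    have hj0 : (0 : ℝ) ≤ (j : ℝ) * D ω f2 := mul_nonneg (Nat.cast_nonneg _) (D_nonneg ω f2)
    have hmain : (m : ℝ) * (p * (2 * δ) - 2 * δ - D ω f2 + d ω f1 f2) ≤ 3 * δ := by
      have h1 : (m : ℝ) * (p * (2 * δ) - 2 * δ - D ω f2 + d ω f1 f2) =
        m * (p * (2 * δ)) - m * (2 * δ + D ω f2 - d ω f1 f2) := by ring
      rw [h1]
      linarith
    have hZ : p * (2 * δ) - 2 * D ω f2 + δ + ω.eps ≤ p * (2 * δ) - 2 * δ - D ω f2 + d ω f1 f2 := by linarith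
    -- the possible values of `q`
    have hq : q = 3 := by
      have hq2 : 2 < q := by
        by_contra hcon
        have h1 : q = 1 ∨ q = 2 := by omega
        have hp1' : (1 : ℝ) ≤ (p : ℝ) := by exact_mod_cast hp1
        rcases h1 with h1 | h1
        · rw [h1] at hpq
          push_cast at hpq
          have h2 : 1 * (2 * δ) ≤ (p : ℝ) * (2 * δ) := mul_le_mul_of_nonneg_right hp1' (by linarith)
          linarith
        · rw [h1] at hpq
          push_cast at hpq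
          rcases Nat.lt_or_ge p 2 with h3 | h3
          · have h4 : p = 1 := by omega
            rw [h4] at hpq
            push_cast at hpq
            linarith
          · have h4 : (2 : ℝ) ≤ (p : ℝ) := by exact_mod_cast h3
            have h2 : 2 * (2 * δ) ≤ (p : ℝ) * (2 * δ) := mul_le_mul_of_nonneg_right h4 (by linarith)
            linarith
      have hq4 : q < 4 := by
        by_contra hcon
        have h1 : (4 : ℝ) ≤ (q : ℝ) := by exact_mod_cast not_lt.1 hcon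
        have h2 : 4 * D ω f2 ≤ (q : ℝ) * D ω f2 := mul_le_mul_of_nonneg_right h1 (D_nonneg ω f2)
        have h3 : 3 * δ < p * (2 * δ) - 2 * δ - D ω f2 + d ω f1 f2 := by linarith
        have h4 := le_mul_of_one_le_left (by linarith : 0 ≤ p * (2 * δ) - 2 * δ - D ω f2 + d ω f1 f2) hm1
        linarith
      omega
    rw [hq] at hpq
    push_cast at hpq
    have hp2 : p = 2 := by
      have h1 : p < 3 := by
        by_contra hcon
        have h2 : (3 : ℝ) ≤ (p : ℝ) := by exact_mod_cast not_lt.1 hcon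
        have h3 : 3 * (2 * δ) ≤ (p : ℝ) * (2 * δ) := mul_le_mul_of_nonneg_right h2 (by linarith)
        linarith
      have h2 : p ≠ 1 := by
        intro h2
        rw [h2] at hpq
        push_cast at hpq
        linarith
      omega
    rw [hp2] at hpq hmain hZ hle
    push_cast at hpq hmain hZ hle
    have hm2 : m = 1 := by
      have h1 : m < 2 := by
        by_contra hcon
        have h2 : (2 : ℝ) ≤ (m : ℝ) := by exact_mod_cast not_lt.1 hcon
        have h3 : 2 * (2 * (2 * δ) - 2 * δ - D ω f2 + d ω f1 f2) ≤ (m : ℝ) * (2 * (2 * δ) - 2 * δ - D ω f2 + d ω f1 f2) :=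
          mul_le_mul_of_nonneg_right h2 (by linarith)
        linarith
      omega
    rw [hm2] at hle
    push_cast at hle
    constructor
    · linarith
    · linarith

theorem pvP_half {ω : Wts} {f1 f2 f3 : B k} {δ : ℝ} (hp : Piv ω f1 f2 f3 δ) (ht : d ω f1 f3 ≤ D ω f2 - δ)
    {P : MvPolynomial (Fin 2) k} (hP : D ω (ev P f1 f2) = 3 * δ) (hb : 3 * D ω f2 ≠ 4 * δ) :
    2 * D ω f2 = 3 * δ ∧
    ∃ α β γ κ : k, α ≠ 0 ∧ ev P f1 f2 = C α * f2 ^ 2 + C β * f1 + C γ * f2 + C κ := by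
  have hju := hp.ju
  have hd1 := hp.d1
  have hlo := hp.lo
  have hhi := hp.hi
  have hδ : 0 < δ := by
    have h1 := (JU.pos ω hju).1
    linarith
  rcases pvP hp ht hP.le with ⟨α, β, γ, κ, h⟩ | ⟨h, -⟩
  swap
  · exact absurd h hb
  have h1 : D ω (C β * f1) ≤ 2 * δ := (D_C_mul_le ω β f1).trans hd1.le
  have h2 : D ω (C γ * f2) ≤ 2 * δ := (D_C_mul_le ω γ f2).trans (by linarith)
  have h3 : D ω (C β * f1 + C γ * f2 + C κ) ≤ 2 * δ := by
    rw [D_add_C]
    exact (D_add_le ω _ _).trans (max_le h1 h2)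
  have h4 : ev P f1 f2 = C α * f2 ^ 2 + (C β * f1 + C γ * f2 + C κ) := by
    rw [h]
    ring
  have hα : α ≠ 0 := by
    rintro rfl
    rw [C_0, zero_mul, zero_add] at h4
    rw [h4] at hP
    linarith
  have h5 : D ω (C α * f2 ^ 2) = 2 * D ω f2 := by
    rw [D_C_mul ω hα, D_pow]
    norm_num
  have h6 : D ω (ev P f1 f2) = 2 * D ω f2 := by
    rw [h4, D_add_left ω (by rw [h5]; linarith), h5]
  exact ⟨h6.symm.trans hP, α, β, γ, κ, hα, h⟩

theorem exists_opt (ω : Wts) (f g h : B k) :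
    ∃ P : MvPolynomial (Fin 2) k, ∀ P' : MvPolynomial (Fin 2) k, D ω (h + ev P f g) ≤ D ω (h + ev P' f g) := by
  obtain ⟨x, ⟨P, hx⟩, hmin⟩ := exists_D_min ω (s := {x : B k | ∃ P : MvPolynomial (Fin 2) k, x = h + ev P f g})
    ⟨h + ev 0 f g, 0, rfl⟩
  refine ⟨P, fun P' => ?_⟩
  rw [← hx]
  exact hmin _ ⟨P', rfl⟩

end SU
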