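import Pool.Agent.Lib.MP_374dcb_al.IrA
import Pool.Agent.Lib.MP_374dcb_al.KeB
import Pool.Agent.Lib.MP_374dcb_al.PvP

/-!
# JOB IrB: the exceptional vertices are not in `RR`

`ir_opt`: `p := f3 + ev R f1 g` of minimal degree among all `f3 + ev P' f1 g`; numbers from `ir_facts` (`E = d f1 g`): `D g = 4/3 δ < 2δ = D f1 < D p` (`D p ≥ 2/3 δ + E > 7/3 δ`). Suppose `RR ω x`, `x = sp f1 g p = sp g f1 p`. Cases (use `cases`/`induction` with
the vertex generalized):
 - base: `3 * D g = 2 * D f1` (`= 4δ`), `base_incomm` for `(g,f1,p)`: contradiction.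
 - K-source: `ke_pair` with `(u1,u2,u3) = (g,f1,p)`, `v = f1`, `w = g`: `3/2 * 2δ < E ≤ 7/3 δ`: contradiction.
 - a strict neighbour `U`: `types_strict` for `(g,f1,p)`.
   1. `D (p + ev R' g f1) < D p`, but `p + ev R' g f1 = f3 + ev (..) f1 g` (`ev_swap`, `ev_add`): against minimality.
   2. `w := p + C l * f1`, `D w = D p`, `D (f1 + ev R' g w) < 2δ`, so `D (ev R' g w) = 2δ` (`D_of_add_lt`). `cr g w = cr g p + C l • cr g f1`: `d g w = 2δ + E`. `par'` for `(g,w)`: first alternative: the degree is attained at some exponent `(i,j)`: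
      `4/3 δ i + D p j = 2δ`, `j = 0` (`D p > 7/3 δ`), `4 i = 6`: no. Second: `L = q * D p ≥ D p`; `m L ≤ 2δ + m (4/3 δ + D p - 2δ - E)`, so `m (2/3 δ + E) ≤ 2δ`: no (`E > 5/3 δ`).
   3. `v := f1 + C m' * g`, `w := p + C l * g` (`D v = 2δ`, `D w = D p`), `D (g + ev R' v w) < D g`, so `D (ev R' v w) = 4/3 δ`. `cr v w = cr f1 p + C l • cr f1 g + C m' • cr g p`: degrees `8/3 δ + E > 2δ + E, E`: `d v w = 8/3 δ + E`.
      First alternative: all exponents `(i,j)`: `2δ i + D p j ≤ 4/3 δ`: `i = j = 0`, degree `0`: no. Second: `L ≥ D p`: `m (2/3 δ + E) ≤ 4/3 δ`: no.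
`ir`: let `P'` be optimal (`exists_D_min` over all `f3 + ev P' f1 g`); `D (f3 + ev P' f1 g) ≤ D (f3 + ev R f1 g) < 3δ`, so `Ir ω f1 g f3 δ P'`; the vertices for `R` and `P'` are adjacent (same center); if the one for `R` is in `RR`, so is the optimal one by `IHyp`: contradiction to `ir_opt`.
-/

set_option autoImplicit false

open MvPolynomial

namespace SU

universe u
variable {k : Type u} [Field k] [CharZero k]

private theorem IrB_d_le (ω : Wts) (f g : B k) (c : k) : d ω f (C c * g) ≤ d ω f g := by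
  unfold d
  rw [cr_C_mul_right]
  refine (N_smul_le ω _ _).trans ?_
  rw [D_C, zero_add]

private theorem IrB_cr_ne (ω : Wts) {f g : B k} (h : 0 < d ω f g) : cr f g ≠ 0 := by
  intro h0
  unfold d at h
  rw [h0, N_zero] at h
  exact lt_irrefl _ h

/-- some exponent has weight at least the degree -/
private theorem IrB_att (ω : Wts) {f g : B k} {P : MvPolynomial (Fin 2) k} (h : 0 < D ω (ev P f g)) :
    ∃ m ∈ P.support, D ω (ev P f g) ≤ (m 0 : ℝ) * D ω f + m 1 * D ω g := by
  have hP : P ≠ 0 := by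
    rintro rfl
    have h0 : ev (0 : MvPolynomial (Fin 2) k) f g = 0 := by
      unfold ev
      exact map_zero _
    rw [h0, D_zero] at h
    exact lt_irrefl _ h
  obtain ⟨m, hm, he⟩ := exists_vd (D_nonneg ω f) (D_nonneg ω g) hP
  exact ⟨m, hm, (D_ev_le ω P f g).trans he.ge⟩

theorem ir_opt {ω : Wts} {f1 g f3 : B k} {δ : ℝ} {R : MvPolynomial (Fin 2) k} (h : Ir ω f1 g f3 δ R)
    (hopt : ∀ P' : MvPolynomial (Fin 2) k, D ω (f3 + ev R f1 g) ≤ D ω (f3 + ev P' f1 g)) :
    ¬RR ω (sp f1 g (f3 + ev R f1 g)) := by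
  intro hRR
  obtain ⟨hδ, hE1, hE2, hd1, hd2, hp⟩ := ir_facts h
  have hJ : JU f1 g (f3 + ev R f1 g) := h.ju.add_ev R
  obtain ⟨p, hpe⟩ : ∃ p : B k, p = f3 + ev R f1 g := ⟨_, rfl⟩
  rw [← hpe] at hd1 hd2 hp hJ hRR
  have hJ' : JU g f1 p := hJ.swap
  have e1 : D ω f1 = 2 * δ := h.d1
  have e2 : 3 * D ω g = 4 * δ := h.dg
  have h12 : D ω g < D ω f1 := by linarith
  have h23 : D ω f1 < D ω p := by linarith
  have hsw : sp g f1 p = sp f1 g p := sp_swap12 f1 g p
  have esym : d ω g f1 = d ω f1 g := d_symm ω f1 g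
  obtain ⟨x, hx⟩ : ∃ x, x = sp f1 g p := ⟨_, rfl⟩
  rw [← hx] at hRR
  cases hRR with
  | base _ hV hS =>
    rw [hx, ← hsw] at hS
    have h0 := base_incomm ω hJ' h12.ne (by linarith : D ω g < D ω p).ne h23.ne hS
      (p := 3) (q := 2) (by norm_num) (by norm_num)
    refine h0 ?_
    push_cast
    linarith
  | ks _ U hK hU =>
    have hf : f1 ∈ x := by
      rw [hx]
      exact mem_sp.2 ⟨1, 0, 0, 0, by simp only [map_one, map_zero]; ring⟩
    have hg : g ∈ x := by
      rw [hx]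
      exact mem_sp.2 ⟨0, 1, 0, 0, by simp only [map_one, map_zero]; ring⟩
    have h0 := ke_pair hK hJ' (hx.trans hsw.symm) h12 h23 hf hg h.ju.cr12
    linarith
  | red _ U hA hlt hU =>
    rw [hx, ← hsw] at hA hlt
    rcases types_strict ω hJ' h12 h23 hA hlt with ⟨R', -, hR'⟩ | ⟨l, R', -, hR'⟩ | ⟨m', l, R', -, hR'⟩
    · obtain ⟨Q, hQ, -⟩ := ev_swap R'
      have h0 := hopt (R + Q)
      rw [ev_add, hQ g f1, ← add_assoc, ← hpe] at h0
      linarith
    · obtain ⟨w, hw⟩ : ∃ w : B k, w = p + C l * f1 := ⟨_, rfl⟩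
      rw [← hw] at hR'
      have hDw : D ω w = D ω p := by
        rw [hw]
        exact D_add_left ω ((D_C_mul_le ω l f1).trans_lt h23)
      have hdw : d ω g w = 2 * δ + d ω f1 g := by
        rw [hw, ← hd2]
        refine d_add_right_left ω ((IrB_d_le ω g f1 l).trans_lt ?_)
        rw [esym, hd2]
        linarith
      have hev : D ω (ev R' g w) = 2 * δ := by
        rw [D_of_add_lt ω hR', e1]
      have hcr : cr g w ≠ 0 := IrB_cr_ne ω (by rw [hdw]; linarith)
      rcases par' ω hcr R' with h1 | ⟨m, a, b, i, j, hm, ha, hb, -, hab, h1, -⟩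
      · obtain ⟨μ, hμ, hμ2⟩ := IrB_att ω (P := R') (f := g) (g := w) (by rw [hev]; linarith)
        have h2 := h1 μ hμ
        rw [hev] at h2 hμ2
        have h3 : μ 1 = 0 := by
          by_contra hne
          have h4 : (1 : ℝ) ≤ μ 1 := by exact_mod_cast Nat.one_le_iff_ne_zero.2 hne
          have h5 : (0 : ℝ) ≤ (μ 0 : ℝ) * D ω g := mul_nonneg (Nat.cast_nonneg _) (D_nonneg ω g)
          have h6 : D ω w ≤ μ 1 * D ω w := le_mul_of_one_le_left (D_nonneg ω w) h4
          linarith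
        rw [h3] at h2 hμ2
        have h4 : (μ 0 : ℝ) * (4 * δ) = 6 * δ := by
          rw [← e2]
          push_cast at h2 hμ2
          linarith
        have h5 : (μ 0 : ℝ) * 4 = 6 := by
          have : ((μ 0 : ℝ) * 4) * δ = 6 * δ := by linarith
          exact mul_right_cancel₀ hδ.ne' this
        have h6 : μ 0 * 4 = 6 := by exact_mod_cast h5
        omega
      · rw [hab, hev, hdw, hDw] at h1
        have hm' : (1 : ℝ) ≤ m := by exact_mod_cast hm
        have hb' : (1 : ℝ) ≤ b := by exact_mod_cast hb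
        have h2 : D ω p ≤ b * D ω p := le_mul_of_one_le_left (D_nonneg ω p) hb'
        have h3 : (m : ℝ) * D ω p ≤ m * (b * D ω p) := mul_le_mul_of_nonneg_left h2 (by linarith)
        have h4 : (0 : ℝ) ≤ i * D ω g := mul_nonneg (Nat.cast_nonneg _) (D_nonneg ω g)
        have h5 : (0 : ℝ) ≤ j * D ω p := mul_nonneg (Nat.cast_nonneg _) (D_nonneg ω p)
        have h6 : 7 / 3 * δ ≤ m * (2 * δ + d ω f1 g - D ω g) := by
          have h7 : 7 / 3 * δ ≤ 2 * δ + d ω f1 g - D ω g := by linarith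
          refine h7.trans (le_mul_of_one_le_left (by linarith) hm')
        have h8 : (m : ℝ) * (D ω g + D ω p - (2 * δ + d ω f1 g)) =
            m * D ω p - m * (2 * δ + d ω f1 g - D ω g) := by ring
        rw [h8] at h1
        linarith
    · obtain ⟨w, hw⟩ : ∃ w : B k, w = p + C l * g := ⟨_, rfl⟩
      obtain ⟨v, hv⟩ : ∃ v : B k, v = f1 + C m' * g := ⟨_, rfl⟩
      rw [← hw, ← hv] at hR'
      have hDw : D ω w = D ω p := by
        rw [hw]
        exact D_add_left ω ((D_C_mul_le ω l g).trans_lt (h12.trans h23))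
      have hDv : D ω v = 2 * δ := by
        rw [hv, ← e1]
        exact D_add_left ω ((D_C_mul_le ω m' g).trans_lt h12)
      have hd3 : d ω v p = 8 / 3 * δ + d ω f1 g := by
        rw [hv, d_symm ω p, ← hd1, d_symm ω p f1]
        refine d_add_right_left ω ((IrB_d_le ω p g m').trans_lt ?_)
        rw [d_symm ω g p, d_symm ω f1 p, hd1, hd2]
        linarith
      have hd4 : d ω v g = d ω f1 g := by
        rw [hv]
        exact d_add_mul_left ω f1 g m'
      have hdw : d ω v w = 8 / 3 * δ + d ω f1 g := by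
        rw [hw, ← hd3]
        refine d_add_right_left ω ((IrB_d_le ω v g l).trans_lt ?_)
        rw [hd4, hd3]
        linarith
      have hev : D ω (ev R' v w) = D ω g := D_of_add_lt ω hR'
      have hcr : cr v w ≠ 0 := IrB_cr_ne ω (by rw [hdw]; linarith)
      rcases par' ω hcr R' with h1 | ⟨m, a, b, i, j, hm, ha, hb, -, hab, h1, -⟩
      · obtain ⟨μ, hμ, hμ2⟩ := IrB_att ω (P := R') (f := v) (g := w) (by rw [hev]; linarith)
        have h2 := h1 μ hμ
        rw [hev] at h2 hμ2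
        have h3 : μ 1 = 0 := by
          by_contra hne
          have h4 : (1 : ℝ) ≤ μ 1 := by exact_mod_cast Nat.one_le_iff_ne_zero.2 hne
          have h5 : (0 : ℝ) ≤ (μ 0 : ℝ) * D ω v := mul_nonneg (Nat.cast_nonneg _) (D_nonneg ω v)
          have h6 : D ω w ≤ μ 1 * D ω w := le_mul_of_one_le_left (D_nonneg ω w) h4
          linarith
        have h3' : μ 0 = 0 := by
          by_contra hne
          have h4 : (1 : ℝ) ≤ μ 0 := by exact_mod_cast Nat.one_le_iff_ne_zero.2 hne
          have h5 : (0 : ℝ) ≤ (μ 1 : ℝ) * D ω w := mul_nonneg (Nat.cast_nonneg _) (D_nonneg ω w)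
          have h6 : D ω v ≤ μ 0 * D ω v := le_mul_of_one_le_left (D_nonneg ω v) h4
          linarith
        rw [h3, h3'] at hμ2
        push_cast at hμ2
        linarith
      · rw [hab, hev, hdw, hDw, hDv] at h1
        have hm' : (1 : ℝ) ≤ m := by exact_mod_cast hm
        have hb' : (1 : ℝ) ≤ b := by exact_mod_cast hb
        have h2 : D ω p ≤ b * D ω p := le_mul_of_one_le_left (D_nonneg ω p) hb'
        have h3 : (m : ℝ) * D ω p ≤ m * (b * D ω p) := mul_le_mul_of_nonneg_left h2 (by linarith)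
        have h4 : (0 : ℝ) ≤ i * (2 * δ) := mul_nonneg (Nat.cast_nonneg _) (by linarith)
        have h5 : (0 : ℝ) ≤ j * D ω p := mul_nonneg (Nat.cast_nonneg _) (D_nonneg ω p)
        have h6 : 7 / 3 * δ ≤ m * (2 / 3 * δ + d ω f1 g) := by
          have h7 : 7 / 3 * δ ≤ 2 / 3 * δ + d ω f1 g := by linarith
          refine h7.trans (le_mul_of_one_le_left (by linarith) hm')
        have h8 : (m : ℝ) * (2 * δ + D ω p - (8 / 3 * δ + d ω f1 g)) =
            m * D ω p - m * (2 / 3 * δ + d ω f1 g) := by ring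
        rw [h8] at h1
        linarith

theorem ir {ω : Wts} {f1 g f3 : B k} {δ : ℝ} {R : MvPolynomial (Fin 2) k} (h : Ir ω f1 g f3 δ R) {s : ℝ}
    (IH : IHyp k ω s) (hs : S ω (sp f1 g (f3 + ev R f1 g)) < s) : ¬RR ω (sp f1 g (f3 + ev R f1 g)) := by
  intro hRR
  obtain ⟨P, hP⟩ := exists_opt ω f1 g f3
  have hI : Ir ω f1 g f3 δ P := ⟨h.ju, h.d1, h.dg, h.d3, h.t, (hP R).trans_lt h.lt⟩
  refine ir_opt hI hP (IH _ _ hRR hs ?_)
  refine adj_center (h.ju.add_ev R) one_ne_zero (P - R) ?_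
  rw [ev_sub, map_one]
  ring

end SU
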