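import Pool.Agent.Lib.MP_374dcb_al.XoA
import Pool.Agent.Lib.MP_374dcb_al.KeB

/-!
# JOB XoC: the K-edges starting at the vertex `x = (f1,f2,p)`

`c = D p`, `e = d f1 f2`, facts from `xo_facts`, `x = sp f1 f2 p`, `KE ω x Y'`.
Step 1: `c > 2δ`. If `3/2 δ < c < 2δ`: `ke_inv` for the good basis `(f2,p,f1)`: `d f2 p = 3δ' + t'`, `d f2 f1 = 4δ' + t'`, so `d f2 f1 > d f2 p`, but `e < δ + e`. If `c < 3/2 δ`: `ke_inv` for `(p,f2,f1)`: `d p f2 = 3δ' + t'`, `d f2 f1 = D p + 3δ' + t'`, so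
`d f2 f1 > d f2 p`: again `e > δ + e`, contradiction.
Step 2: unfold `KE`: `x = sp g1 g2 q`, `q = g3 + C α' * g2 ^ 2`, `Piv ω g1 g2 g3 δ'`, `Y' = sp g1 (g2 + ev R' g1 g3) g3`. By `ke_inv` for `(f2,f1,p)`: `D f1 = 2δ'`.. so `δ' = δ` [the numbers of `ke_inv` and of the data agree: `D g1 = 2δ'`, and the degrees of the good bases `(f2,f1,p)` and
`(g2,g1,q)` of `x` agree, since elements of degree `< 2δ` are in `span(1,f2)` etc.]; `g2 = C ν * f2 + C κ0`, `g1 = C κ * f1 + C μ * f2 + C κ1`, `q = C ρ * p + C σ * f1 + C τ * f2 + C κ2`, `ν, κ, ρ ≠ 0`. `d g1 g2 = e` and (k1) `d g1 g2 = 3δ + t'`, `t' = d g1 g3`.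
Step 3: with `p = f3 + C α f2 ^ 2 + C β f1 + C γ f2 + C κ'`: `g3 = q - C α' g2 ^ 2 = C ρ * f3 + C A * f2 ^ 2 + C B1 * f1 + C B2 * f2 + const`, `A = ρ α - α' ν ^ 2`, `B1 = σ + ρ β`, `B2 = τ + ρ γ - 2 α' ν κ0`.
`cr g1 g3 = C (κ ρ) • cr f1 f3 + (C (2 κ A) * f2) • cr f1 f2 + C (κ B2 - μ B1) • cr f1 f2 + C (μ ρ) • cr f2 f3` (as `cr f2 (f2 ^ 2) = 0`). Degrees: `t ≤ δ/2`, `3/2 δ + e`, `e`, `δ + e`, and `t' = e - 3δ < e`. `A ≠ 0` would give `t' = 3/2 δ + e`; so `A = 0`; `μ ≠ 0` would give `t' = δ + e`; so `μ = 0`;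
`B2 ≠ 0` would give `t' = e` (`t < e`); so `B2 = 0`. Hence `pl g1 g3 = pl f1 f3`, and `Y' = sp g1 g3 (g2 + ev R' g1 g3) = sp f1 f3 (C ν * f2 + C κ0 + ev R'' f1 f3)` (`sp_of_pl`, `ev_of_pl`) `= sp f1 f3 (f2 + ev Q' f1 f3)` (`sp_C_mul` with `ν⁻¹`).
-/

set_option autoImplicit false

open MvPolynomial

namespace SU

universe u
variable {k : Type u} [Field k] [CharZero k]

omit [CharZero k] in
private theorem xoC_tri {ω : Wts} {u1 u2 u3 : B k} (h12 : D ω u1 < D ω u2) (h23 : D ω u2 < D ω u3) {a b c z : k} {x : B k}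
    (hx : x = C a * u1 + C b * u2 + C c * u3 + C z) (hx0 : 0 < D ω x) :
    (c ≠ 0 ∧ D ω x = D ω u3) ∨ (c = 0 ∧ b ≠ 0 ∧ D ω x = D ω u2) ∨ (c = 0 ∧ b = 0 ∧ a ≠ 0 ∧ D ω x = D ω u1) := by
  by_cases hc : c = 0
  · by_cases hb : b = 0
    · by_cases ha : a = 0
      · exfalso
        rw [hx, hc, hb, ha, C_0, zero_mul, zero_mul, zero_mul, zero_add, zero_add, zero_add, D_C] at hx0
        exact lt_irrefl _ hx0
      · refine Or.inr (Or.inr ⟨hc, hb, ha, ?_⟩)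
        rw [hx, hc, hb, C_0, zero_mul, zero_mul, add_zero, add_zero, D_add_C, D_C_mul ω ha]
    · refine Or.inr (Or.inl ⟨hc, hb, ?_⟩)
      have h1 : D ω (C a * u1) < D ω (C b * u2) := by
        rw [D_C_mul ω hb]
        exact (D_C_mul_le ω a u1).trans_lt h12
      rw [hx, hc, C_0, zero_mul, add_zero, D_add_C, D_add_right ω h1, D_C_mul ω hb]
  · refine Or.inl ⟨hc, ?_⟩
    have h1 : D ω (C a * u1 + C b * u2) < D ω (C c * u3) := by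
      rw [D_C_mul ω hc]
      exact (D_add_le ω _ _).trans_lt (max_lt ((D_C_mul_le ω a u1).trans_lt (h12.trans h23)) ((D_C_mul_le ω b u2).trans_lt h23))
    rw [hx, D_add_C, D_add_right ω h1, D_C_mul ω hc]

omit [CharZero k] in
private theorem xoC_uniq {ω : Wts} {u1 u2 u3 v1 v2 v3 : B k} (h12 : D ω u1 < D ω u2) (h23 : D ω u2 < D ω u3)
    (k0 : 0 < D ω v1) (k12 : D ω v1 < D ω v2) (k23 : D ω v2 < D ω v3) (hs : sp u1 u2 u3 = sp v1 v2 v3) :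
    D ω v1 = D ω u1 ∧ D ω v2 = D ω u2 ∧ D ω v3 = D ω u3 ∧
    (∃ a b : k, a ≠ 0 ∧ v1 = C a * u1 + C b) ∧ (∃ a b c : k, a ≠ 0 ∧ v2 = C a * u2 + C b * u1 + C c) ∧
    ∃ a b c z : k, a ≠ 0 ∧ v3 = C a * u3 + C b * u2 + C c * u1 + C z := by
  have m1 : v1 ∈ sp u1 u2 u3 := by
    rw [hs, mem_sp]
    exact ⟨1, 0, 0, 0, by rw [C_0, C_1]; ring⟩
  have m2 : v2 ∈ sp u1 u2 u3 := by
    rw [hs, mem_sp]
    exact ⟨0, 1, 0, 0, by rw [C_0, C_1]; ring⟩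
  have m3 : v3 ∈ sp u1 u2 u3 := by
    rw [hs, mem_sp]
    exact ⟨0, 0, 1, 0, by rw [C_0, C_1]; ring⟩
  obtain ⟨a1, b1, c1, z1, e1⟩ := mem_sp.1 m1
  obtain ⟨a2, b2, c2, z2, e2⟩ := mem_sp.1 m2
  obtain ⟨a3, b3, c3, z3, e3⟩ := mem_sp.1 m3
  have t1 := xoC_tri h12 h23 e1 k0
  have t2 := xoC_tri h12 h23 e2 (k0.trans k12)
  have t3 := xoC_tri h12 h23 e3 (k0.trans (k12.trans k23))
  have hv1 : c1 = 0 ∧ b1 = 0 ∧ a1 ≠ 0 ∧ D ω v1 = D ω u1 := by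
    rcases t1 with ⟨x1, y1⟩ | ⟨x1, y1, w1⟩ | h
    · exfalso
      rcases t2 with ⟨x2, y2⟩ | ⟨x2, y2, w2⟩ | ⟨x2, y2, w2, r2⟩ <;> linarith
    · exfalso
      rcases t2 with ⟨x2, y2⟩ | ⟨x2, y2, w2⟩ | ⟨x2, y2, w2, r2⟩
      · rcases t3 with ⟨x3, y3⟩ | ⟨x3, y3, w3⟩ | ⟨x3, y3, w3, r3⟩ <;> linarith
      · linarith
      · linarith
    · exact h
  have hv2 : c2 = 0 ∧ b2 ≠ 0 ∧ D ω v2 = D ω u2 := by
    rcases t2 with ⟨x2, y2⟩ | h | ⟨x2, y2, w2, r2⟩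
    · exfalso
      rcases t3 with ⟨x3, y3⟩ | ⟨x3, y3, w3⟩ | ⟨x3, y3, w3, r3⟩ <;> linarith
    · exact h
    · exfalso
      linarith [hv1.2.2.2]
  have hv3 : c3 ≠ 0 ∧ D ω v3 = D ω u3 := by
    rcases t3 with h | ⟨x3, y3, w3⟩ | ⟨x3, y3, w3, r3⟩
    · exact h
    · exfalso
      linarith [hv2.2.2]
    · exfalso
      linarith [hv2.2.2]
  refine ⟨hv1.2.2.2, hv2.2.2, hv3.2, ⟨a1, z1, hv1.2.2.1, ?_⟩, ⟨b2, a2, z2, hv2.2.1, ?_⟩, ⟨c3, b3, a3, z3, hv3.1, ?_⟩⟩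
  · rw [e1, hv1.1, hv1.2.1, C_0]
    ring
  · rw [e2, hv2.1, C_0]
    ring
  · rw [e3]
    ring

omit [CharZero k] in
private theorem xoC_cr (f1 f2 f3 : B k) (κ μ κ1 ρ A B1 B2 K : k) :
    cr (C κ * f1 + C μ * f2 + C κ1) (C ρ * f3 + C A * f2 ^ 2 + C B1 * f1 + C B2 * f2 + C K) =
      (C (κ * ρ) : B k) • cr f1 f3 + (C (κ * B2 - μ * B1) : B k) • cr f1 f2 + (C (μ * ρ) : B k) • cr f2 f3 +
        (C (2 * κ * A) * f2 : B k) • cr f1 f2 := by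
  have e0 : cr f2 f2 = 0 := cr_self f2
  have e1 : cr f1 f1 = 0 := cr_self f1
  have e2 : cr f2 f1 = -cr f1 f2 := cr_swap f1 f2
  simp only [cr_add_left, cr_add_right, cr_C_mul_left, cr_C_left, cr_C_right, sq, cr_mul_right, e0, e1, e2,
    smul_zero, smul_neg, add_zero, zero_add]
  funext i
  simp only [Pi.add_apply, Pi.smul_apply, Pi.neg_apply, smul_eq_mul, C_mul, C_sub, map_ofNat]
  ring

theorem xo_ke {ω : Wts} {f1 f2 f3 : B k} {δ : ℝ} {P : MvPolynomial (Fin 2) k} (h : Xo ω f1 f2 f3 δ P)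
    {Y' : Submodule k (B k)} (hk : KE ω (sp f1 f2 (f3 + ev P f1 f2)) Y') :
    ∃ Q' : MvPolynomial (Fin 2) k, Y' = sp f1 f3 (f2 + ev Q' f1 f3) := by
  obtain ⟨hδ, he, hd1p, hd2p, hd23, hc, hc2, hc1, α, β, γ, κ', hα, hP⟩ := xo_facts h
  have hε := eps_pos ω
  have H : JU f1 f2 (f3 + ev P f1 f2) := h.piv.ju.add_ev P
  have hD1 : D ω f1 = 2 * δ := h.piv.d1
  have hD2 : 2 * D ω f2 = 3 * δ := h.half
  -- Step 1
  have hc2' : 2 * δ < D ω (f3 + ev P f1 f2) := by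
    rcases lt_trichotomy (D ω (f3 + ev P f1 f2)) (2 * δ) with hl | hl | hl
    · exfalso
      rcases lt_trichotomy (2 * D ω (f3 + ev P f1 f2)) (3 * δ) with hm | hm | hm
      · obtain ⟨δ', t', g0, g1, g2, g3, g4, g5, g6, g7, g8, g9⟩ := ke_inv (u1 := f3 + ev P f1 f2) (u2 := f2) (u3 := f1) hk H.rev
          (sp_rev f1 f2 _).symm (by linarith) (by linarith)
        rw [d_symm ω f2 (f3 + ev P f1 f2)] at g7
        rw [d_symm ω f1 f2] at g9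
        linarith
      · exact hc1 hm
      · obtain ⟨δ', t', g0, g1, g2, g3, g4, g5, g6, g7, g8, g9⟩ := ke_inv (u1 := f2) (u2 := f3 + ev P f1 f2) (u3 := f1) hk H.rot
          (sp_rot f1 f2 _).symm (by linarith) (by linarith)
        rw [d_symm ω f1 f2] at g8
        linarith
    · exact absurd hl hc2
    · exact hl
  -- Step 2
  obtain ⟨g1, g2, g3, δ', α', R', hp', hα', hlt1, hlt2, hV, hU⟩ := hk
  obtain ⟨t0, t1, t2, t3⟩ := k1 hp' hlt1 hlt2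
  obtain ⟨s1, s2, s3, s4, s5⟩ := k2 hp' hlt1 hlt2 hα'
  obtain ⟨-, q0, -⟩ := hp'.ju.pos ω
  have hg1 := hp'.d1
  have hghi := hp'.hi
  have hglo := hp'.lo
  have hδ' : 0 < δ' := by
    have := (hp'.ju.pos ω).1
    linarith
  obtain ⟨d2, d1, d3, ⟨ν, κ0, hν, eg2⟩, ⟨κ, μ, κ1, hκ, eg1⟩, ⟨ρ, σ, τ, κ2, hρ, eq⟩⟩ := xoC_uniq (ω := ω) (u1 := f2) (u2 := f1)
    (u3 := f3 + ev P f1 f2) (v1 := g2) (v2 := g1) (v3 := g3 + C α' * g2 ^ 2) (by linarith) (by linarith) q0 (by linarith)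
    (by linarith) (by rw [sp_swap12 f1 f2, sp_swap12 g1 g2]; exact hV)
  have hδδ : δ' = δ := by linarith
  -- Step 3
  have hdg : d ω g1 g2 = d ω f1 f2 := by
    rw [eg2, d_add_C_right, d_C_mul_right ω hν, eg1, d_add_C_left, d_add_mul_left, d_C_mul_left ω hκ]
  have ht' : d ω g1 g3 = d ω f1 f2 - 3 * δ := by
    rw [hdg, hδδ] at t2
    linarith
  have eg3 : g3 = C ρ * f3 + C (ρ * α - α' * ν ^ 2) * f2 ^ 2 + C (σ + ρ * β) * f1 + C (τ + ρ * γ - 2 * α' * ν * κ0) * f2 +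
      C (ρ * κ' + κ2 - α' * κ0 ^ 2) := by
    have e1 : g3 = C ρ * (f3 + ev P f1 f2) + C σ * f1 + C τ * f2 + C κ2 - C α' * g2 ^ 2 := by
      rw [← eq]
      ring
    rw [e1, hP, eg2]
    simp only [C_mul, C_sub, C_add, C_pow, map_ofNat]
    ring
  have hcr := xoC_cr f1 f2 f3 κ μ κ1 ρ (ρ * α - α' * ν ^ 2) (σ + ρ * β) (τ + ρ * γ - 2 * α' * ν * κ0)
    (ρ * κ' + κ2 - α' * κ0 ^ 2)
  rw [← eg1, ← eg3] at hcr
  have hne12 : cr f1 f2 ≠ 0 := H.cr12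
  have hf2 : f2 ≠ 0 := by
    intro h0
    rw [h0, D_zero] at hD2
    linarith
  have hNt : N ω (cr g1 g3) = d ω f1 f2 - 3 * δ := ht'
  have hN13 : N ω (cr f1 f3) ≤ δ / 2 := h.t
  have hN12 : N ω (cr f1 f2) = d ω f1 f2 := rfl
  have hN23 : N ω (cr f2 f3) = δ + d ω f1 f2 := hd23
  have hsm : ∀ (c : k) (u : Fin 3 → B k), N ω ((C c : B k) • u) ≤ N ω u := fun c u => by
    have h1 := N_smul_le ω (C c : B k) u
    rwa [D_C, zero_add] at h1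
  have hA : ρ * α - α' * ν ^ 2 = 0 := by
    by_contra hA
    have h2A : (2 * κ * (ρ * α - α' * ν ^ 2)) ≠ 0 := mul_ne_zero (mul_ne_zero two_ne_zero hκ) hA
    have hNA : N ω ((C (2 * κ * (ρ * α - α' * ν ^ 2)) * f2 : B k) • cr f1 f2) = 3 / 2 * δ + d ω f1 f2 := by
      rw [N_smul ω (mul_ne_zero (by rwa [Ne, C_eq_zero]) hf2) hne12, D_C_mul ω h2A, hN12]
      linarith
    rw [hcr, N_add_right, hNA] at hNt
    · linarith
    · rw [hNA]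
      refine (N_add_le ω _ _).trans_lt (max_lt ((N_add_le ω _ _).trans_lt (max_lt ?_ ?_)) ?_)
      · exact (hsm _ _).trans_lt (by linarith)
      · exact (hsm _ _).trans_lt (by linarith)
      · exact (hsm _ _).trans_lt (by linarith)
  rw [hA, mul_zero, C_0, zero_mul, zero_smul, add_zero] at hcr
  have hμ : μ = 0 := by
    by_contra hμ
    have hNμ : N ω ((C (μ * ρ) : B k) • cr f2 f3) = δ + d ω f1 f2 := by
      rw [N_C_smul ω (mul_ne_zero hμ hρ), hN23]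
    rw [hcr, N_add_right, hNμ] at hNt
    · linarith
    · rw [hNμ]
      refine (N_add_le ω _ _).trans_lt (max_lt ?_ ?_)
      · exact (hsm _ _).trans_lt (by linarith)
      · exact (hsm _ _).trans_lt (by linarith)
  rw [hμ, zero_mul, zero_mul, sub_zero, C_0, zero_smul, add_zero] at hcr
  have hB2 : τ + ρ * γ - 2 * α' * ν * κ0 = 0 := by
    by_contra hB
    have hNB : N ω ((C (κ * (τ + ρ * γ - 2 * α' * ν * κ0)) : B k) • cr f1 f2) = d ω f1 f2 := by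
      rw [N_C_smul ω (mul_ne_zero hκ hB), hN12]
    rw [hcr, N_add_right, hNB] at hNt
    · linarith
    · rw [hNB]
      exact (hsm _ _).trans_lt (by linarith)
  rw [hμ, C_0, zero_mul, add_zero] at eg1
  rw [hA, hB2, C_0, zero_mul, zero_mul, add_zero, add_zero] at eg3
  have hpl : pl f1 f3 = pl g1 g3 := by
    refine le_antisymm ?_ ?_
    · intro x hx
      obtain ⟨a, b, z, rfl⟩ := mem_pl.1 hx
      refine mem_pl.2 ⟨κ⁻¹ * (a - b * ρ⁻¹ * (σ + ρ * β)), b * ρ⁻¹, z - κ⁻¹ * (a - b * ρ⁻¹ * (σ + ρ * β)) * κ1 -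
        b * ρ⁻¹ * (ρ * κ' + κ2 - α' * κ0 ^ 2), ?_⟩
      have hκi : (C κ⁻¹ : B k) * C κ = 1 := by rw [← C_mul, inv_mul_cancel₀ hκ, C_1]
      have hρi : (C ρ⁻¹ : B k) * C ρ = 1 := by rw [← C_mul, inv_mul_cancel₀ hρ, C_1]
      rw [eg1, eg3]
      simp only [C_mul, C_sub, C_add, C_pow]
      linear_combination (-(C a - C b * C ρ⁻¹ * (C σ + C ρ * C β)) * f1) * hκi - C b * f3 * hρi
    · intro x hx
      obtain ⟨a, b, z, rfl⟩ := mem_pl.1 hx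
      refine mem_pl.2 ⟨a * κ + b * (σ + ρ * β), b * ρ, z + a * κ1 + b * (ρ * κ' + κ2 - α' * κ0 ^ 2), ?_⟩
      rw [eg1, eg3]
      simp only [C_mul, C_sub, C_add, C_pow]
      ring
  obtain ⟨R'', hR''⟩ := ev_of_pl hpl R'
  refine ⟨C ν⁻¹ * (R'' + C κ0), ?_⟩
  rw [hU, sp_swap23, sp_of_pl hpl.symm, hR'', eg2, ← sp_C_mul f1 f3 (f2 + ev (C ν⁻¹ * (R'' + C κ0)) f1 f3) hν, ev_mul, ev_C,
    ev_add, ev_C]
  have hνi : (C ν : B k) * C ν⁻¹ = 1 := by rw [← C_mul, mul_inv_cancel₀ hν, C_1]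
  have e5 : C ν * f2 + C κ0 + ev R'' f1 f3 = C ν * (f2 + C ν⁻¹ * (ev R'' f1 f3 + C κ0)) := by
    linear_combination (-(ev R'' f1 f3 + C κ0)) * hνi
  rw [e5]

end SU
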