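import Pool.Agent.Lib.MP_374dcb_al.XoB
import Pool.Agent.Lib.MP_374dcb_al.XoC
import Pool.Agent.Lib.MP_374dcb_al.IrB

/-!
# JOB PivB: the pivot lemma, direction `X ∈ RR → Y ∈ RR`

`Piv ω f1 f2 f3 δ`, `b = D f2`, `t = d f1 f3 ≤ b - δ`, `V = sp f1 f2 f3`, `S V = 5δ + b`. `X = sp f1 f2 (f3 + ev P f1 f2)` strict and in `RR`. By `strict_norm` some `P'` has `D (f3 + ev P' f1 f2) < 3δ`. Let `P0` be optimal (`exists_opt ω f1 f2 f3`), `p := f3 + ev P0 f1 f2`,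
`D p < 3δ`, `x := sp f1 f2 p` is adjacent to `X` (same center), so `x ∈ RR` (`IH` at `X`), `S x ≤ 2δ + b + D p < S V`. `D (ev P0 f1 f2) = 3δ` (`D_of_add_lt`).
 If `3 b = 4δ`: `Ir ω f1 f2 f3 δ P0` (`t ≤ b - δ = δ/3`) and `ir` contradicts `x ∈ RR`. Otherwise `pvP_half`: `2 b = 3δ`, so `Xo ω f1 f2 f3 δ P0` (`t ≤ δ/2`). Cases of `x ∈ RR`:
 - base: `4 * D f2 = 3 * D f1` (`= 6δ`): `base_incomm` for `(f2,f1,p)` (the degrees are different by `xo_facts`).
 - strict neighbour: `xo_red`.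
 - K-edge `x → Y'`, `Y' ∈ RR`: `xo_ke`: `Y' = sp f1 f3 (f2 + ev Q' f1 f3)`, adjacent to `Y = sp f1 f3 (f2 + ev Q f1 f3)` (same center, `adj_center`), `S Y' < S x < S V` (`ke_lt`): `Y ∈ RR` by `IH` at `Y'`.
`pivot` combines `pivA` and this.
-/

set_option autoImplicit false

open MvPolynomial

namespace SU

universe u
variable {k : Type u} [Field k] [CharZero k]

theorem pivB {ω : Wts} {V : Submodule k (B k)} (IH : IHyp k ω (S ω V)) {f1 f2 f3 : B k} {δ : ℝ}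
    (hp : Piv ω f1 f2 f3 δ) (ht : d ω f1 f3 ≤ D ω f2 - δ) (hV : V = sp f1 f2 f3)
    {P Q : MvPolynomial (Fin 2) k}
    (hXs : S ω (sp f1 f2 (f3 + ev P f1 f2)) < S ω V) (hX : RR ω (sp f1 f2 (f3 + ev P f1 f2))) :
    RR ω (sp f1 f3 (f2 + ev Q f1 f3)) := by
  have hD1 := hp.d1
  have hD3 := hp.d3
  have hlo := hp.lo
  have hhi := hp.hi
  have hδ : 0 < δ := by
    have := (hp.ju.pos ω).1
    linarith
  have hadj : ∀ P1 P2 : MvPolynomial (Fin 2) k, Adj (sp f1 f2 (f3 + ev P1 f1 f2)) (sp f1 f2 (f3 + ev P2 f1 f2)) := by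
    intro P1 P2
    refine adj_center (hp.ju.add_ev P1) one_ne_zero (P2 - P1) ?_
    rw [ev_sub, C_1]
    ring
  have hadj' : ∀ P1 P2 : MvPolynomial (Fin 2) k, Adj (sp f1 f3 (f2 + ev P1 f1 f3)) (sp f1 f3 (f2 + ev P2 f1 f3)) := by
    intro P1 P2
    refine adj_center (hp.ju.swap'.add_ev P1) one_ne_zero (P2 - P1) ?_
    rw [ev_sub, C_1]
    ring
  have hSV : S ω V = D ω f1 + D ω f2 + D ω f3 := by
    rw [hV, S_eq ω hp.ju (by linarith) (by linarith) (by linarith)]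
  obtain ⟨P', hP'1, -, hP'2⟩ := strict_norm ω hp.ju (by linarith) (by linarith) (by linarith) P (by rwa [← hV])
  obtain ⟨P0, hopt⟩ := exists_opt ω f1 f2 f3
  have hDp : D ω (f3 + ev P0 f1 f2) < 3 * δ := by
    have := hopt P'
    linarith
  have hRx : RR ω (sp f1 f2 (f3 + ev P0 f1 f2)) := IH _ _ hX hXs (hadj P P0)
  have hSx : S ω (sp f1 f2 (f3 + ev P0 f1 f2)) < S ω V := by
    have := S_le ω (hp.ju.add_ev P0)
    linarith
  have hDe : D ω (ev P0 f1 f2) = 3 * δ := by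
    rw [D_of_add_lt ω (by linarith : D ω (f3 + ev P0 f1 f2) < D ω f3), hD3]
  by_cases hb : 3 * D ω f2 = 4 * δ
  · have hir : Ir ω f1 f2 f3 δ P0 := ⟨hp.ju, hD1, hb, hD3, by linarith, hDp⟩
    exact absurd hRx (ir hir IH hSx)
  · obtain ⟨hhalf, -⟩ := pvP_half hp ht hDe hb
    have hxo : Xo ω f1 f2 f3 δ P0 := ⟨hp, hhalf, by linarith, hDp, hopt⟩
    obtain ⟨-, -, -, -, -, -, hne2, hne1, -⟩ := xo_facts hxo
    cases hRx with
    | base _ _ hs =>
      exfalso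
      have h1 := base_incomm ω (hp.ju.add_ev P0).swap (by linarith) (fun h => hne1 (by linarith)) (fun h => hne2 (by linarith))
        (by rw [sp_swap12]; exact hs) (p := 4) (q := 3) (by norm_num) (by norm_num)
      apply h1
      push_cast
      linarith
    | red _ U hA hS' _ =>
      exact absurd hS' (not_lt.2 (xo_red hxo hA))
    | ks _ U hk hR =>
      obtain ⟨Q', hQ'⟩ := xo_ke hxo hk
      have h1 := ke_lt hk
      rw [hQ'] at h1 hR
      exact IH _ _ hR (h1.trans hSx) (hadj' Q' Q)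

end SU
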