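import Pool.Agent.Lib.MP_374dcb_al.PivA
import Pool.Agent.Lib.MP_374dcb_al.PivB
import Pool.Agent.Lib.MP_374dcb_al.EeQ
import Pool.Agent.Lib.MP_374dcb_al.EeAB

/-!
# JOB EeLt: two weak neighbours, case `D f2 < D f3`

`pivot`: `Conn` from `pivA` (direction `Y → X`) and `pivB` (direction `X → Y`).
`ee_lt`: normalize with `sitN`: `SitN` for `P', Q'`. 
 1. if `D f3 = j * D f1` or `D f2 = j * D f1` for some `j : ℕ`: `ee_res1`.
 2. if `¬Ess P'`: `ee_ness1`; if `¬Ess Q'`: `ee_ness2`.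
 3. `ee_Q`: four cases. `D f3 = j * D f1`: excluded by 1.  `D f1 = j * D f3`, `j ≥ 2`: `ee_res2`.
    Type A (`D f1 = 2δ`, `D f3 = r δ`, `t ≤ D f2 - (r - 2) δ`): `ee_A`: `Piv ω f1 f2 f3 δ` and `t ≤ D f2 - δ`, so `pivot` with `hX`, `hY` (`nX`).
    Type B (`D f1 = 3δ`, `D f3 = 2δ`, `t ≤ D f2 - δ`): `ee_B`: `2 * D f2 = 3δ`, so `D f1 = 2 * D f2`; `res`: `c ≠ 0` with `D (f1 + C c * f2 ^ 2) < D f1`. `W := sp f2 f3 (f1 + C c * f2 ^ 2)`: `sq_strict` (`g = f2`, `h2 = f3`, `h3 = f1`,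
    `R = C c * X ^ 2`, the degrees `3/2 δ, 2δ, 3δ` are different) with the other neighbour `X = sp f1 f2 (..) = sp f2 f1 (f3 + ev P'' f2 f1)` (`u = f1`, `v = f3`, `ev_swap`): `S W < S V`, `Conn ω V W X`. And `Conn ω V W Y` by `pivot` with the roles
    `(f3, f2, f1)`: `Piv ω f3 f2 f1 δ` (`D f3 = 2δ`, `D f1 = 3δ`, `D f2 = 3/2 δ`), `d f3 f1 = t ≤ D f2 - δ`, `V = sp f3 f2 f1`, `W = sp f3 f2 (f1 + ev P1 f3 f2)` with `P1 = C c * X 1 ^ 2`, `D (..) ≤ D f1`, and `Y = sp f1 f3 (f2 + ev Q' f1 f3) = sp f3 f1 (f2 + ev Q'' f3 f1)`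
    (`sp_swap12`, `ev_swap`). `Conn.trans`, `Conn.symm`.
-/

set_option autoImplicit false

open MvPolynomial

namespace SU

universe u
variable {k : Type u} [Field k] [CharZero k]

theorem pivot {ω : Wts} {V : Submodule k (B k)} (IH : IHyp k ω (S ω V)) {f1 f2 f3 : B k} {δ : ℝ}
    (hp : Piv ω f1 f2 f3 δ) (ht : d ω f1 f3 ≤ D ω f2 - δ) (hV : V = sp f1 f2 f3)
    {P Q : MvPolynomial (Fin 2) k} (hP : D ω (f3 + ev P f1 f2) ≤ D ω f3) :
    Conn ω V (sp f1 f2 (f3 + ev P f1 f2)) (sp f1 f3 (f2 + ev Q f1 f3)) :=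
  ⟨fun hX hXs => pivB IH hp ht hV hXs hX, fun hY hYs => pivA IH hp ht hV hP hYs hY⟩

theorem ee_lt {ω : Wts} {V X Y : Submodule k (B k)} (IH : IHyp k ω (S ω V)) {f1 f2 f3 : B k}
    {P Q : MvPolynomial (Fin 2) k} (s : Sit ω V X Y f1 f2 f3 P Q) (h : D ω f2 < D ω f3) : Conn ω V X Y := by
  obtain ⟨P', Q', s'⟩ := sitN s h
  by_cases hr : ∃ j : ℕ, D ω f3 = j * D ω f1 ∨ D ω f2 = j * D ω f1
  · exact ee_res1 IH s' hr
  by_cases hP : Ess P'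
  swap
  · exact ee_ness1 IH s' hP
  by_cases hQ : Ess Q'
  swap
  · exact ee_ness2 IH s' hQ (fun j h => hr ⟨j, Or.inl h⟩)
  rcases ee_Q s' hQ with ⟨j, h1⟩ | ⟨j, hj, h1⟩ | ⟨δ, r, hδ, hr', hr3, h1, h3, ht⟩ | ⟨δ, hδ, h1, h3, ht⟩
  · exact absurd ⟨j, Or.inl h1⟩ hr
  · exact ee_res2 IH s' hj h1
  · obtain ⟨hp, ht'⟩ := ee_A s' hP hδ hr' hr3 h1 h3 ht (fun j h => hr ⟨j, Or.inr h⟩)
    have := pivot IH hp ht' s'.hV (Q := Q') s'.nX
    rwa [← s'.hX, ← s'.hY] at this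
  · have hb := ee_B s' hP hδ h1 h3 ht
    have hf2 : 0 < D ω f2 := by linarith
    obtain ⟨c, hc, hcD⟩ := res ω (f := f2) (g := f1) hf2 (j := 2) (by norm_num)
      (by push_cast; linarith)
    set R : Polynomial k := Polynomial.C c * Polynomial.X ^ 2 with hR
    have hRe : ev1 R f2 = C c * f2 ^ 2 := ev1_monomial c 2 f2
    rw [← hRe] at hcD
    obtain ⟨P'', hP'', _⟩ := ev_swap P'
    obtain ⟨Q'', hQ'', _⟩ := ev_swap Q'
    obtain ⟨P2, hP2⟩ := ev1_eq_ev R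
    obtain ⟨P1, hP1, _⟩ := ev_swap P2
    have hP1' : ev P1 f3 f2 = ev1 R f2 := by rw [hP1, hP2]
    have hXeq : sp f2 f1 (f3 + ev P'' f2 f1) = X := by
      rw [hP'', sp_swap12, ← s'.hX]
    have hYeq : sp f3 f1 (f2 + ev Q'' f3 f1) = Y := by
      rw [hQ'', sp_swap12, ← s'.hY]
    obtain ⟨hSW, hWX⟩ := sq_strict IH (g := f2) (h2 := f3) (h3 := f1) s'.ju.rot
      (by rw [sp_rot]; exact s'.hV) (by linarith [h] : D ω f2 ≠ D ω f3) (ne_of_lt (by linarith))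
      (ne_of_lt (by linarith)) R hcD (u := f1) (v := f3) s'.ju.swap
      (by rw [sp_swap12]; exact s'.hV) P'' (by rw [hXeq]; exact s'.wX)
    rw [hXeq] at hWX
    have hpiv : Piv ω f3 f2 f1 δ :=
      { ju := s'.ju.rev
        d1 := h3
        d3 := h1
        lo := by linarith
        hi := by linarith }
    have hWY := pivot IH hpiv (by rw [d_symm]; exact ht) (by rw [sp_rev]; exact s'.hV)
      (P := P1) (Q := Q'') (by rw [hP1']; exact hcD.le)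
    rw [hYeq, hP1', sp_swap12] at hWY
    exact hWX.symm.trans hWY hSW

end SU
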