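import Pool.Agent.Lib.MP_374dcb_al.DInj

/-!
# Euler operators

`E i f = X i * pderiv i f` is a derivation, `coeff m (E i f) = m i * coeff m f` (on monomials: `pderiv_monomial`; `X i *` shifts back;
for `m i = 0` both sides are `0`). So the support of `E i f` is contained in the support of `f` and `D (E i f) ≤ D f`. `coeff m (Et f) =
(m 0 + m 1 + m 2) * coeff m f`: in characteristic zero the support of `Et f` is the support of `f` minus `0`, so `D (Et f) = D f`.
`E_ev`: chain rule, by induction on `P` (`MvPolynomial.induction_on`: C, add, mul by `X 0`, `X 1`).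
-/

set_option autoImplicit false

open MvPolynomial

namespace SU

universe u
variable {k : Type u} [Field k]

theorem E_add (i : Fin 3) (f g : B k) : E i (f + g) = E i f + E i g := by
  simp only [E, map_add, mul_add]

theorem E_C (i : Fin 3) (c : k) : E i (C c : B k) = 0 := by
  simp only [E, pderiv_C, mul_zero]

theorem E_mul (i : Fin 3) (f g : B k) : E i (f * g) = f * E i g + g * E i f := by
  simp only [E, Derivation.leibniz, smul_eq_mul]
  ring

theorem E_C_mul (i : Fin 3) (c : k) (f : B k) : E i (C c * f) = C c * E i f := by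
  rw [E_mul, E_C, mul_zero, add_zero]

private theorem Eul_neg (i : Fin 3) (f : B k) : E i (-f) = -E i f := by
  simp only [E, map_neg, mul_neg]

theorem E_neg (i : Fin 3) (f : B k) : E i (-f) = -E i f := Eul_neg i f

theorem E_sub (i : Fin 3) (f g : B k) : E i (f - g) = E i f - E i g := by
  rw [sub_eq_add_neg, E_add, Eul_neg, ← sub_eq_add_neg]

private theorem Eul_monomial (i : Fin 3) (s : Fin 3 →₀ ℕ) (a : k) :
    E i (monomial s a : B k) = monomial s ((s i : k) * a) := by
  unfold E
  rw [pderiv_monomial]
  by_cases h : s i = 0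
  · rw [h, Nat.cast_zero, mul_zero, zero_mul, monomial_zero, monomial_zero, mul_zero]
  · have hX : (X i : B k) = monomial (Finsupp.single i 1) 1 := rfl
    rw [hX, monomial_mul, one_mul, mul_comm a]
    have hs : Finsupp.single i 1 + (s - Finsupp.single i 1) = s := by
      rw [add_comm]
      apply tsub_add_cancel_of_le
      rw [Finsupp.single_le_iff]
      omega
    rw [hs]

theorem coeff_E (i : Fin 3) (f : B k) (m : Fin 3 →₀ ℕ) : coeff m (E i f) = (m i : k) * coeff m f := by
  induction f using MvPolynomial.induction_on' with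
  | monomial s a =>
    rw [Eul_monomial, coeff_monomial, coeff_monomial]
    by_cases h : s = m
    · subst h
      rw [if_pos rfl, if_pos rfl]
    · rw [if_neg h, if_neg h, mul_zero]
  | add p q hp hq =>
    rw [E_add, coeff_add, hp, hq, coeff_add, mul_add]

theorem E_ev (i : Fin 3) (P : MvPolynomial (Fin 2) k) (f g : B k) :
    E i (ev P f g) = ev (pderiv 0 P) f g * E i f + ev (pderiv 1 P) f g * E i g := by
  induction P using MvPolynomial.induction_on with
  | C a =>
    have h1 : ev (C a : MvPolynomial (Fin 2) k) f g = C a := by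
      unfold ev
      rw [MvPolynomial.aeval_C]
      rfl
    rw [h1, E_C, pderiv_C, pderiv_C]
    unfold ev
    rw [map_zero]
    ring
  | add p q hp hq =>
    have h1 : ∀ p q : MvPolynomial (Fin 2) k, ev (p + q) f g = ev p f g + ev q f g := by
      intro p q
      unfold ev
      rw [map_add]
    rw [h1, E_add, hp, hq, map_add, map_add, h1, h1]
    ring
  | mul_X p j hp =>
    have h1 : ∀ p q : MvPolynomial (Fin 2) k, ev (p + q) f g = ev p f g + ev q f g := by
      intro p q
      unfold ev
      rw [map_add]
    have h2 : ∀ p q : MvPolynomial (Fin 2) k, ev (p * q) f g = ev p f g * ev q f g := by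
      intro p q
      unfold ev
      rw [map_mul]
    have h3 : ev (X 0 : MvPolynomial (Fin 2) k) f g = f := by
      unfold ev
      rw [MvPolynomial.aeval_X]
      rfl
    have h4 : ev (X 1 : MvPolynomial (Fin 2) k) f g = g := by
      unfold ev
      rw [MvPolynomial.aeval_X]
      rfl
    have h5 : ev (0 : MvPolynomial (Fin 2) k) f g = 0 := by
      unfold ev
      rw [map_zero]
    have h6 : ev (1 : MvPolynomial (Fin 2) k) f g = 1 := by
      unfold ev
      rw [map_one]
    rw [h2, E_mul, hp]
    simp only [Derivation.leibniz, smul_eq_mul]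
    rw [h1, h1, h2, h2, h2, h2]
    fin_cases j
    · have e0 : pderiv (0 : Fin 2) (X 0 : MvPolynomial (Fin 2) k) = 1 := pderiv_X_self 0
      have e1 : pderiv (1 : Fin 2) (X 0 : MvPolynomial (Fin 2) k) = 0 :=
        pderiv_X_of_ne (by decide)
      show ev p f g * E i (ev (X 0) f g) + ev (X 0) f g * _ = (ev p f g * ev (pderiv 0 (X 0)) f g + ev (X 0) f g * _) * E i f
        + (ev p f g * ev (pderiv 1 (X 0)) f g + ev (X 0) f g * _) * E i g
      rw [e0, e1, h5, h6, h3]
      ring
    · have e0 : pderiv (1 : Fin 2) (X 1 : MvPolynomial (Fin 2) k) = 1 := pderiv_X_self 1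
      have e1 : pderiv (0 : Fin 2) (X 1 : MvPolynomial (Fin 2) k) = 0 :=
        pderiv_X_of_ne (by decide)
      show ev p f g * E i (ev (X 1) f g) + ev (X 1) f g * _ = (ev p f g * ev (pderiv 0 (X 1)) f g + ev (X 1) f g * _) * E i f
        + (ev p f g * ev (pderiv 1 (X 1)) f g + ev (X 1) f g * _) * E i g
      rw [e0, e1, h5, h6, h4]
      ring

theorem E_ev1 (i : Fin 3) (R : Polynomial k) (f : B k) :
    E i (ev1 R f) = ev1 (Polynomial.derivative R) f * E i f := by
  unfold ev1 E
  have h := Derivation.comp_aeval_eq (R := k) f (pderiv i : Derivation k (B k) (B k)) R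
  rw [h]
  simp only [smul_eq_mul]
  ring

theorem D_E_le (ω : Wts) (i : Fin 3) (f : B k) : D ω (E i f) ≤ D ω f := by
  unfold D
  apply dg_le
  · exact dg_nonneg _ _
  · intro m hm
    apply le_dg
    rw [mem_support_iff] at hm ⊢
    intro h
    apply hm
    rw [coeff_E, h, mul_zero]

theorem D_Et [CharZero k] (ω : Wts) (f : B k) : D ω (Et f) = D ω f := by
  have hc : ∀ m : Fin 3 →₀ ℕ, coeff m (Et f) = ((m 0 + m 1 + m 2 : ℕ) : k) * coeff m f := by
    intro m
    unfold Et
    rw [coeff_add, coeff_add, coeff_E, coeff_E, coeff_E]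
    push_cast
    ring
  unfold D
  apply le_antisymm
  · apply dg_le
    · exact dg_nonneg _ _
    · intro m hm
      apply le_dg
      rw [mem_support_iff] at hm ⊢
      intro h
      apply hm
      rw [hc, h, mul_zero]
  · apply dg_le
    · exact dg_nonneg _ _
    · intro m hm
      by_cases h0 : m = 0
      · rw [h0, wt_zero]
        exact dg_nonneg _ _
      · apply le_dg
        rw [mem_support_iff] at hm ⊢
        rw [hc]
        apply mul_ne_zero _ hm
        rw [Nat.cast_ne_zero]
        intro hs
        apply h0
        ext j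
        fin_cases j
        · show m 0 = 0
          omega
        · show m 1 = 0
          omega
        · show m 2 = 0
          omega

end SU
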