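import Pool.Agent.Lib.MP_374dcb_al.ADefs
import Mathlib.Algebra.Polynomial.Taylor

/-!
# JOB Exp: the exponential of a locally nilpotent derivation of `B k`

`δ : Derivation k (B k) (B k)`, every `f` has some `n` with `δ^[n] f = 0` (then `δ^[N] f = 0` for `N ≥ n`).
Define `E_s f := ∑ j ∈ range n(f), C (s ^ j / j!) * δ^[j] f` with `n(f)` chosen (`Nat.find`), it equals the same sum over `range N` for every `N` with `δ^[N] f = 0` (extra terms vanish). Additive, `k`-linear. Multiplicative by the Leibniz rule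
`δ^[j] (f g) = ∑ i ∈ range (j+1), (j choose i) δ^[i] f * δ^[j-i] g` (induction on `j`; Mathlib: `Derivation.leibniz_pow`? prove by `Finset.sum_range_succ`/`Nat.choose`, or via `Finset.Nat.antidiagonal`: `(1/j!) δ^[j] (f g) = ∑ antidiagonal (1/i!) δ^[i] f * (1/l!) δ^[l] g`, `Finset.sum_mul_sum`).
Alternative (simplest): work in `PowerSeries (B k)` or `Polynomial (B k)`: `Φ f := ∑ j, (1/j!) δ^[j] f T ^ j ∈ (B k)[T]` is a ring homomorphism; evaluate at `T = C s`.
`E_s ∘ E_t = E_{s+t}`: `δ` commutes with multiplication by constants; binomial theorem: `∑_{i,j} s^i t^j/(i! j!) δ^[i+j] f`. `E_0 = id` gives the inverse `E_{-s}`: so `E_s` is an algebra automorphism (`AlgEquiv.ofAlgHom`, `AlgHom` from the ring homomorphism commuting with `C`).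
`nil_mul`: `δ^[n] f = 0`, `δ^[m] g = 0` imply `δ^[n+m] (f g) = 0` (Leibniz). `nil_of`: if `δ f` is nilpotent then so is `f`. `nil_all`: the nilpotent elements form a subalgebra; if it contains `X 0, X 1, X 2` it is everything (`MvPolynomial.induction_on`).
-/

set_option autoImplicit false

open MvPolynomial

namespace SU

universe u
variable {k : Type u} [Field k] [CharZero k]

/-- The normalised iterates. -/
private noncomputable def Exp_a (δ : Derivation k (B k) (B k)) (j : ℕ) (f : B k) : B k :=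
  C (((j.factorial : k))⁻¹) * δ^[j] f

omit [CharZero k] in
private theorem Exp_zero_of_le (δ : Derivation k (B k) (B k)) {f : B k} {n m : ℕ} (hf : δ^[n] f = 0) (h : n ≤ m) :
    δ^[m] f = 0 := by
  obtain ⟨c, rfl⟩ := Nat.exists_eq_add_of_le h
  rw [Nat.add_comm, Function.iterate_add_apply, hf, iterate_map_zero]

omit [CharZero k] in
private theorem Exp_delta_C (δ : Derivation k (B k) (B k)) (c : k) : δ (C c) = 0 := by
  have h := δ.map_algebraMap c
  rwa [MvPolynomial.algebraMap_eq] at h

omit [CharZero k] in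
private theorem Exp_delta_C_mul (δ : Derivation k (B k) (B k)) (c : k) (f : B k) :
    δ (C c * f) = C c * δ f := by
  rw [δ.leibniz, Exp_delta_C, smul_zero, add_zero, smul_eq_mul]

omit [CharZero k] in
private theorem Exp_iter_C_mul (δ : Derivation k (B k) (B k)) (c : k) (f : B k) (n : ℕ) :
    δ^[n] (C c * f) = C c * δ^[n] f := by
  induction n with
  | zero => rfl
  | succ n ih => rw [Function.iterate_succ_apply', ih, Exp_delta_C_mul, Function.iterate_succ_apply']

omit [CharZero k] in
private theorem Exp_a_add (δ : Derivation k (B k) (B k)) (j : ℕ) (f g : B k) :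
    Exp_a δ j (f + g) = Exp_a δ j f + Exp_a δ j g := by
  unfold Exp_a
  rw [iterate_map_add, mul_add]

private theorem Exp_a_delta (δ : Derivation k (B k) (B k)) (j : ℕ) (f : B k) :
    Exp_a δ j (δ f) = C ((j : k) + 1) * Exp_a δ (j + 1) f := by
  unfold Exp_a
  rw [Function.iterate_succ_apply, ← mul_assoc, ← C_mul]
  congr 2
  have h1 : (j.factorial : k) ≠ 0 := Nat.cast_ne_zero.2 (Nat.factorial_ne_zero j)
  have h2 : (j : k) + 1 ≠ 0 := by
    have := Nat.cast_ne_zero (R := k).2 (Nat.succ_ne_zero j)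
    rwa [Nat.cast_succ] at this
  rw [Nat.factorial_succ, Nat.cast_mul, Nat.cast_succ]
  field_simp

private theorem Exp_leibniz (δ : Derivation k (B k) (B k)) (j : ℕ) : ∀ f g : B k,
    Exp_a δ j (f * g) = ∑ p ∈ Finset.HasAntidiagonal.antidiagonal j, Exp_a δ p.1 f * Exp_a δ p.2 g := by
  induction j with
  | zero =>
    intro f g
    simp [Exp_a]
  | succ j ih =>
    intro f g
    have h2 : (j : k) + 1 ≠ 0 := by
      have := Nat.cast_ne_zero (R := k).2 (Nat.succ_ne_zero j)
      rwa [Nat.cast_succ] at this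
    have hC : (C ((j : k) + 1) : B k) ≠ 0 := by
      rw [Ne, C_eq_zero]
      exact h2
    apply mul_left_cancel₀ hC
    rw [← Exp_a_delta, δ.leibniz, smul_eq_mul, smul_eq_mul, Exp_a_add, ih, ih]
    have h3 : C ((j : k) + 1) * ∑ p ∈ Finset.HasAntidiagonal.antidiagonal (j + 1), Exp_a δ p.1 f * Exp_a δ p.2 g =
        ∑ p ∈ Finset.HasAntidiagonal.antidiagonal (j + 1), C (p.2 : k) * (Exp_a δ p.1 f * Exp_a δ p.2 g) +
        ∑ p ∈ Finset.HasAntidiagonal.antidiagonal (j + 1), C (p.1 : k) * (Exp_a δ p.1 f * Exp_a δ p.2 g) := by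
      rw [Finset.mul_sum, ← Finset.sum_add_distrib]
      refine Finset.sum_congr rfl fun p hp => ?_
      rw [Finset.HasAntidiagonal.mem_antidiagonal] at hp
      rw [← add_mul, ← C_add]
      congr 2
      rw [← Nat.cast_succ, Nat.succ_eq_add_one, ← hp, Nat.cast_add, add_comm]
    rw [h3, Finset.Nat.sum_antidiagonal_succ', Finset.Nat.sum_antidiagonal_succ]
    simp only [Nat.cast_zero, C_0, zero_mul, zero_add]
    congr 1
    · refine Finset.sum_congr rfl fun p _ => ?_
      rw [Exp_a_delta, Nat.cast_succ]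
      ring
    · have h4 : ∑ p ∈ Finset.HasAntidiagonal.antidiagonal j, Exp_a δ p.1 g * Exp_a δ p.2 (δ f) =
          ∑ p ∈ Finset.HasAntidiagonal.antidiagonal j, Exp_a δ p.2 g * Exp_a δ p.1 (δ f) := by
        rw [← Finset.Nat.sum_antidiagonal_swap]
        rfl
      rw [h4]
      refine Finset.sum_congr rfl fun p _ => ?_
      rw [Exp_a_delta, Nat.cast_succ]
      ring

private theorem Exp_a_eq_zero (δ : Derivation k (B k) (B k)) (j : ℕ) (f : B k) :
    Exp_a δ j f = 0 ↔ δ^[j] f = 0 := by
  unfold Exp_a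
  have h1 : ((j.factorial : k))⁻¹ ≠ 0 := inv_ne_zero (Nat.cast_ne_zero.2 (Nat.factorial_ne_zero j))
  rw [mul_eq_zero, C_eq_zero]
  simp [Nat.factorial_ne_zero]

theorem nil_add (δ : Derivation k (B k) (B k)) {f g : B k} (hf : ∃ n, δ^[n] f = 0) (hg : ∃ n, δ^[n] g = 0) :
    ∃ n, δ^[n] (f + g) = 0 := by
  obtain ⟨n, hn⟩ := hf
  obtain ⟨m, hm⟩ := hg
  refine ⟨max n m, ?_⟩
  rw [iterate_map_add, Exp_zero_of_le δ hn (le_max_left n m), Exp_zero_of_le δ hm (le_max_right n m), add_zero]

theorem nil_mul (δ : Derivation k (B k) (B k)) {f g : B k} (hf : ∃ n, δ^[n] f = 0) (hg : ∃ n, δ^[n] g = 0) :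
    ∃ n, δ^[n] (f * g) = 0 := by
  obtain ⟨n, hn⟩ := hf
  obtain ⟨m, hm⟩ := hg
  refine ⟨n + m, ?_⟩
  rw [← Exp_a_eq_zero, Exp_leibniz]
  refine Finset.sum_eq_zero fun p hp => ?_
  rw [Finset.HasAntidiagonal.mem_antidiagonal] at hp
  rcases Nat.lt_or_ge p.1 n with h | h
  · rw [(Exp_a_eq_zero δ p.2 g).2 (Exp_zero_of_le δ hm (by omega)), mul_zero]
  · rw [(Exp_a_eq_zero δ p.1 f).2 (Exp_zero_of_le δ hn h), zero_mul]

theorem nil_all (δ : Derivation k (B k) (B k)) (h : ∀ i : Fin 3, ∃ n, δ^[n] (X i) = 0) (f : B k) :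
    ∃ n, δ^[n] f = 0 := by
  induction f using MvPolynomial.induction_on with
  | C a => exact ⟨1, Exp_delta_C δ a⟩
  | add p q hp hq => exact nil_add δ hp hq
  | mul_X p i hp => exact nil_mul δ hp (h i)

/-- The polynomial with coefficients `Exp_a δ j f`. -/
private theorem Exp_poly (δ : Derivation k (B k) (B k)) (h : ∀ f : B k, ∃ n, δ^[n] f = 0) :
    ∃ Φ : B k →ₐ[k] Polynomial (B k), ∀ f j, (Φ f).coeff j = Exp_a δ j f := by
  classical
  obtain ⟨p, hp⟩ : ∃ p : B k → Polynomial (B k), ∀ f j, (p f).coeff j = Exp_a δ j f := by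
    refine ⟨fun f => ∑ j ∈ Finset.range (Nat.find (h f)), Polynomial.monomial j (Exp_a δ j f), fun f j => ?_⟩
    rw [Polynomial.finsetSum_coeff]
    simp only [Polynomial.coeff_monomial]
    rw [Finset.sum_ite_eq']
    split_ifs with hj
    · rfl
    · rw [Finset.mem_range, not_lt] at hj
      exact ((Exp_a_eq_zero δ j f).2 (Exp_zero_of_le δ (Nat.find_spec (h f)) hj)).symm
  have hC : ∀ c : k, p (C c) = Polynomial.C (C c) := by
    intro c
    ext1 j
    rw [hp, Polynomial.coeff_C]
    split_ifs with hj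
    · subst hj
      simp [Exp_a]
    · rw [Exp_a_eq_zero]
      exact Exp_zero_of_le δ (n := 1) (Exp_delta_C δ c) (Nat.one_le_iff_ne_zero.2 hj)
  refine ⟨{ toFun := p
            map_one' := ?_
            map_mul' := ?_
            map_zero' := ?_
            map_add' := ?_
            commutes' := ?_ }, hp⟩
  · have := hC 1
    rwa [C_1, Polynomial.C_1] at this
  · intro f g
    ext1 j
    rw [hp, Polynomial.coeff_mul, Exp_leibniz]
    exact Finset.sum_congr rfl fun q _ => by rw [hp, hp]
  · have := hC 0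
    rwa [C_0, Polynomial.C_0] at this
  · intro f g
    ext1 j
    rw [hp, Polynomial.coeff_add, hp, hp, Exp_a_add]
  · intro c
    exact hC c

theorem exists_exp (δ : Derivation k (B k) (B k)) (h : ∀ f : B k, ∃ n, δ^[n] f = 0) :
    ∃ e : k → Au k, (∀ (s : k) (f : B k) (n : ℕ), δ^[n] f = 0 →
      e s f = ∑ j ∈ Finset.range n, C (s ^ j / (j.factorial : k)) * δ^[j] f) ∧
      ∀ s t : k, e (s + t) = e s * e t := by
  obtain ⟨Φ, hΦ⟩ := Exp_poly δ h
  obtain ⟨E, hE⟩ : ∃ E : k → (B k →ₐ[k] B k), ∀ s f, E s f = (Φ f).eval (C s) := by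
    refine ⟨fun s => ((Polynomial.aeval (R := B k) (C s : B k)).restrictScalars k).comp Φ, fun s f => ?_⟩
    show Polynomial.aeval (R := B k) (C s : B k) (Φ f) = _
    rw [Polynomial.coe_aeval_eq_eval]
  have hsum : ∀ (s : k) (f : B k) (n : ℕ), δ^[n] f = 0 →
      E s f = ∑ j ∈ Finset.range n, C (s ^ j / (j.factorial : k)) * δ^[j] f := by
    intro s f n hn
    have h1 : (Φ f) = ∑ j ∈ Finset.range n, Polynomial.monomial j (Exp_a δ j f) := by
      ext1 j
      rw [hΦ, Polynomial.finsetSum_coeff]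
      simp only [Polynomial.coeff_monomial]
      rw [Finset.sum_ite_eq']
      split_ifs with hj
      · rfl
      · rw [Finset.mem_range, not_lt] at hj
        exact (Exp_a_eq_zero δ j f).2 (Exp_zero_of_le δ hn hj)
    rw [hE, h1, Polynomial.eval_finsetSum]
    refine Finset.sum_congr rfl fun j _ => ?_
    rw [Polynomial.eval_monomial, Exp_a, ← C_pow, div_eq_mul_inv, C_mul]
    ring
  have hcomm : ∀ (s : k) (f : B k), δ (E s f) = E s (δ f) := by
    intro s f
    obtain ⟨n, hn⟩ := h f
    have hn' : δ^[n] (δ f) = 0 := by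
      rw [← Function.iterate_succ_apply, Function.iterate_succ_apply', hn, map_zero]
    rw [hsum s f n hn, hsum s (δ f) n hn', map_sum]
    refine Finset.sum_congr rfl fun j _ => ?_
    rw [Exp_delta_C_mul, ← Function.iterate_succ_apply, Function.iterate_succ_apply']
  have hcommi : ∀ (s : k) (i : ℕ) (f : B k), δ^[i] (E s f) = E s (δ^[i] f) := by
    intro s i
    induction i with
    | zero => intro f; rfl
    | succ i ih =>
      intro f
      rw [Function.iterate_succ_apply, hcomm, ih, Function.iterate_succ_apply]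
  have hadd : ∀ (s t : k) (f : B k), E (s + t) f = E s (E t f) := by
    intro s t f
    have h1 : Polynomial.taylor (C t) (Φ f) = Φ (E t f) := by
      ext1 i
      have h2 : Polynomial.hasseDeriv i (Φ f) = Polynomial.C (C ((i.factorial : k))⁻¹) * Φ (δ^[i] f) := by
        ext1 j
        rw [Polynomial.hasseDeriv_coeff, Polynomial.coeff_C_mul, hΦ, hΦ]
        unfold Exp_a
        rw [← Function.iterate_add_apply, ← mul_assoc, ← mul_assoc, ← C_mul]
        have h3 : (((j + i).choose i : ℕ) : B k) = C (((j + i).choose i : ℕ) : k) := by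
          rw [map_natCast]
        rw [h3, ← C_mul]
        congr 2
        have h4 := Nat.add_choose_mul_factorial_mul_factorial j i
        have h5 : (((j + i).choose i : ℕ) : k) * (j.factorial : k) * (i.factorial : k) = ((j + i).factorial : k) := by
          rw [← h4, Nat.cast_mul, Nat.cast_mul]
        have h6 : (j.factorial : k) ≠ 0 := Nat.cast_ne_zero.2 (Nat.factorial_ne_zero j)
        have h7 : (i.factorial : k) ≠ 0 := Nat.cast_ne_zero.2 (Nat.factorial_ne_zero i)
        have h8 : ((j + i).factorial : k) ≠ 0 := Nat.cast_ne_zero.2 (Nat.factorial_ne_zero _)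
        field_simp
        rw [← h5]
        ring
      rw [Polynomial.taylor_coeff, h2, Polynomial.eval_mul, Polynomial.eval_C, ← hE, hΦ]
      unfold Exp_a
      rw [hcommi]
    rw [hE s (E t f), ← h1, Polynomial.taylor_eval, hE, C_add]
  have hzero : ∀ f : B k, E 0 f = f := by
    intro f
    rw [hE, C_0, ← Polynomial.coeff_zero_eq_eval_zero, hΦ]
    simp [Exp_a]
  have hinv : ∀ s : k, (E s).comp (E (-s)) = AlgHom.id k (B k) := by
    intro s
    refine AlgHom.ext fun f => ?_
    show E s (E (-s) f) = f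
    rw [← hadd, add_neg_cancel, hzero]
  have hinv' : ∀ s : k, (E (-s)).comp (E s) = AlgHom.id k (B k) := by
    intro s
    refine AlgHom.ext fun f => ?_
    show E (-s) (E s f) = f
    rw [← hadd, neg_add_cancel, hzero]
  refine ⟨fun s => AlgEquiv.ofAlgHom (E s) (E (-s)) (hinv s) (hinv' s), fun s f n hn => hsum s f n hn, fun s t => ?_⟩
  refine AlgEquiv.ext fun f => ?_
  exact hadd s t f

end SU
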