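import Pool.Agent.Lib.MP_374dcb_al.Exp
import Pool.Agent.Lib.MP_374dcb_al.AutG

/-!
# JOB Fre: the derivation of Freudenburg and its exponential

`FD` on the variables: `mkDerivation_X`. `FD_F`, `FD_r`, `FD_G`: Leibniz rule (`Derivation.leibniz`, `Derivation.leibniz_pow`, `smul_eq_mul`), then `ring` (checked by computer: `FD F = 0`, `FD r = - F G`, `FD G = 0`, `G x = r^2 + F^3`).
`FD_nil`: `F, G` are killed, `FD r = - F G` is killed, so `r` is nilpotent; `FD x = -2 F r` is nilpotent (`nil_mul`), so `x` is; `FD y = 6 x^2 r - G` is, so `y` is; `FD z = 2 x (5 y r + F^2)` is, so `z` is. `nil_all`.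
`ex` is chosen from `exists_exp`. `ex_fix`: if `FD f = 0` then `ex s f = f` (`n = 1`). `ex_r`: `FD^[2] r = 0`: `ex s r = r - C s * (F * G)`. `ex_x`: `FD x = -2 F r`, `FD^[2] x = 2 F^2 G`, `FD^[3] x = 0`: `ex 1 x = x - 2 F r + F^2 G`.
`ex_rel1`: apply `ex 1` to `F y = r - x^3`; `ex_rel2`: apply `ex 1` to `x z = F + y^2`.
`ex_pow`: `ex (n • s)`: `(ex 1)^16 = ex 16` from `ex (s + t) = ex s * ex t`.
`ex_conj`: let `s` be the scaling by 2. `s ∘ FD ∘ s⁻¹ = 16 FD`: both sides are derivations, check on `X i` (`FD (X i)` is homogeneous of degree 5: `s (FD (X i)) = 2^5 FD (X i)`, `s⁻¹ (X i) = C (1/2) * X i`); so `s (FD f) = 16 * FD (s f)`... precisely `s (FD (s⁻¹ f)) = 16 * FD f`.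
 Then `s (FD^[j] (s⁻¹ f)) = 16^j FD^[j] f` and `(s * ex 1 * s⁻¹) f = s (∑ C (1/j!) FD^[j] (s⁻¹ f)) = ∑ C (16^j/j!) FD^[j] f = ex 16 f`.
`ex_fixline`: if `ex 1 p = C a * p + C b` then `FD p = C b'` for some `b'`: let `N` be minimal with `FD^[N+1] p = 0`. `N = 0`: `FD p = 0`. `N ≥ 1`: `FD` commutes with `ex 1` (formula); `FD^[N] (ex 1 p) = ex 1 (FD^[N] p) = FD^[N] p` (killed by `FD`), and `= C a * FD^[N] p`, so `a = 1`.
 If `N ≥ 2`: `FD^[N-1] (ex 1 p) = FD^[N-1] p + FD^[N] p` and `= FD^[N-1] p`, contradiction. So `N = 1`: `ex 1 p = p + FD p`, `FD p = C b`.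
`FD_lin`: the coefficients of `x^4 z`, `x^5`, `x^4 y` in `(FD x, FD y, FD z)` are `(-2,0,0)`, `(0,5,0)`, `(0,0,10)`. So if `FD p = C b'` with `p = p_0 + p_1 + p_{≥2}`: the homogeneous component of degree 5 of `FD p` is `FD p_1` (FD raises the degree by 4), so `FD p_1 = 0`,
 `p_1 = C α x + C β y + C γ z`: `α = β = γ = 0`.
-/

set_option autoImplicit false

open MvPolynomial

namespace SU

universe u
variable {k : Type u} [Field k] [CharZero k]

private theorem fre_X0 : FD k (X 0) = -(2 * pF k * pr k) := by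
  rw [FD, mkDerivation_X]; rfl

private theorem fre_X1 : FD k (X 1) = 6 * X 0 ^ 2 * pr k - pG k := by
  rw [FD, mkDerivation_X]; rfl

private theorem fre_X2 : FD k (X 2) = 2 * X 0 * (5 * X 1 * pr k + pF k ^ 2) := by
  rw [FD, mkDerivation_X]; rfl

private theorem fre_mul (f g : B k) : FD k (f * g) = f * FD k g + g * FD k f := by
  rw [Derivation.leibniz, smul_eq_mul, smul_eq_mul]

private theorem fre_sq (f : B k) : FD k (f ^ 2) = 2 * f * FD k f := by
  rw [pow_two, fre_mul]; ring

private theorem fre_cube (f : B k) : FD k (f ^ 3) = 3 * f ^ 2 * FD k f := by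
  rw [pow_succ, fre_mul, fre_sq]; ring

private theorem fre_two (f : B k) : FD k (2 * f) = 2 * FD k f := by
  have h : (2 : B k) * f = f + f := by ring
  rw [h, map_add]; ring

theorem FD_F : FD k (pF k) = 0 := by
  have h1 : FD k (pF k) = X 0 * FD k (X 2) + X 2 * FD k (X 0) - 2 * X 1 * FD k (X 1) := by
    rw [pF, map_sub, fre_mul, fre_sq]
  rw [h1, fre_X0, fre_X1, fre_X2, pG, pr, pF]
  ring

theorem FD_r : FD k (pr k) = -(pF k * pG k) := by
  have h1 : FD k (pr k) = 3 * X 0 ^ 2 * FD k (X 0) + (X 1 * FD k (pF k) + pF k * FD k (X 1)) := by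
    rw [pr, map_add, fre_cube, fre_mul]
  rw [h1, FD_F, fre_X0, fre_X1]
  ring

theorem FD_G : FD k (pG k) = 0 := by
  have h1 : FD k (pG k) = (X 2 * (2 * pF k * FD k (pF k)) + pF k ^ 2 * FD k (X 2)) +
      2 * ((X 0 ^ 2) * (X 1 * FD k (pF k) + pF k * FD k (X 1)) + (X 1 * pF k) * (2 * X 0 * FD k (X 0))) +
      ((X 0 ^ 3) * (2 * X 0 * FD k (X 0)) + X 0 ^ 2 * (3 * X 0 ^ 2 * FD k (X 0))) := by
    have h2 : pG k = X 2 * pF k ^ 2 + 2 * (X 0 ^ 2 * (X 1 * pF k)) + X 0 ^ 3 * X 0 ^ 2 := by
      rw [pG]; ring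
    rw [h2, map_add, map_add, fre_two, fre_mul, fre_mul, fre_mul, fre_mul, fre_sq, fre_sq, fre_cube]
  rw [h1, FD_F, fre_X0, fre_X1, fre_X2, pG, pr, pF]
  ring

private theorem fre_succ (n : ℕ) (f : B k) : (FD k)^[n + 1] f = FD k ((FD k)^[n] f) :=
  Function.iterate_succ_apply' _ _ _

private theorem fre_nil_of {f : B k} (h : ∃ n, (FD k)^[n] (FD k f) = 0) : ∃ n, (FD k)^[n] f = 0 := by
  obtain ⟨n, hn⟩ := h
  exact ⟨n + 1, by rw [Function.iterate_succ_apply]; exact hn⟩

private theorem fre_nil_zero {f : B k} (h : FD k f = 0) : ∃ n, (FD k)^[n] f = 0 :=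
  ⟨1, by rw [Function.iterate_one]; exact h⟩

private theorem fre_C (c : k) : FD k (C c) = 0 := derivation_C _ c

private theorem fre_num (n : ℕ) : FD k (n : B k) = 0 := Derivation.map_natCast _ n

private theorem fre_nil_neg {f : B k} (h : ∃ n, (FD k)^[n] f = 0) : ∃ n, (FD k)^[n] (-f) = 0 := by
  have h1 : -f = C (-1) * f := by rw [map_neg, map_one]; ring
  rw [h1]
  exact nil_mul _ (fre_nil_zero (fre_C _)) h

private theorem fre_nil_sub {f g : B k} (h : ∃ n, (FD k)^[n] f = 0) (h' : ∃ n, (FD k)^[n] g = 0) :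
    ∃ n, (FD k)^[n] (f - g) = 0 := by
  rw [sub_eq_add_neg]
  exact nil_add _ h (fre_nil_neg h')

private theorem fre_nil_num (n : ℕ) : ∃ m, (FD k)^[m] ((n : B k)) = 0 := fre_nil_zero (fre_num n)

private theorem fre_nil_pow {f : B k} (h : ∃ n, (FD k)^[n] f = 0) (m : ℕ) : ∃ n, (FD k)^[n] (f ^ m) = 0 := by
  induction m with
  | zero => rw [pow_zero]; exact ⟨1, by rw [Function.iterate_one]; exact Derivation.map_one_eq_zero _⟩
  | succ m ih => rw [pow_succ]; exact nil_mul _ ih h

theorem FD_nil (f : B k) : ∃ n, (FD k)^[n] f = 0 := by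
  have hF : ∃ n, (FD k)^[n] (pF k) = 0 := fre_nil_zero FD_F
  have hG : ∃ n, (FD k)^[n] (pG k) = 0 := fre_nil_zero FD_G
  have hr : ∃ n, (FD k)^[n] (pr k) = 0 := by
    refine fre_nil_of ?_
    rw [FD_r]
    exact fre_nil_neg (nil_mul _ hF hG)
  have h2 : ∃ n, (FD k)^[n] (2 : B k) = 0 := by
    have := fre_nil_num (k := k) 2
    rwa [Nat.cast_ofNat] at this
  have h5 : ∃ n, (FD k)^[n] (5 : B k) = 0 := by
    have := fre_nil_num (k := k) 5
    rwa [Nat.cast_ofNat] at this
  have h6 : ∃ n, (FD k)^[n] (6 : B k) = 0 := by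
    have := fre_nil_num (k := k) 6
    rwa [Nat.cast_ofNat] at this
  have hx : ∃ n, (FD k)^[n] (X 0 : B k) = 0 := by
    refine fre_nil_of ?_
    rw [fre_X0]
    exact fre_nil_neg (nil_mul _ (nil_mul _ h2 hF) hr)
  have hy : ∃ n, (FD k)^[n] (X 1 : B k) = 0 := by
    refine fre_nil_of ?_
    rw [fre_X1]
    exact fre_nil_sub (nil_mul _ (nil_mul _ h6 (fre_nil_pow hx 2)) hr) hG
  have hz : ∃ n, (FD k)^[n] (X 2 : B k) = 0 := by
    refine fre_nil_of ?_
    rw [fre_X2]
    exact nil_mul _ (nil_mul _ h2 hx) (nil_add _ (nil_mul _ (nil_mul _ h5 hy) hr) (fre_nil_pow hF 2))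
  refine nil_all _ ?_ f
  intro i
  fin_cases i
  · exact hx
  · exact hy
  · exact hz

theorem exists_ex (k : Type u) [Field k] [CharZero k] :
    ∃ e : k → Au k, (∀ (s : k) (f : B k) (n : ℕ), (FD k)^[n] f = 0 →
      e s f = ∑ j ∈ Finset.range n, C (s ^ j / (j.factorial : k)) * (FD k)^[j] f) ∧
      ∀ s t : k, e (s + t) = e s * e t :=
  exists_exp (FD k) FD_nil

/-- the automorphism `exp FD` -/
noncomputable def ex (k : Type u) [Field k] [CharZero k] : Au k := (exists_ex k).choose 1

private theorem fre_ex (f : B k) (n : ℕ) (h : (FD k)^[n] f = 0) :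
    ex k f = ∑ j ∈ Finset.range n, C ((1 : k) ^ j / (j.factorial : k)) * (FD k)^[j] f :=
  (exists_ex k).choose_spec.1 1 f n h

private theorem fre_fix {f : B k} (h : FD k f = 0) : ex k f = f := by
  rw [fre_ex f 1 (by rw [Function.iterate_one]; exact h), Finset.sum_range_one, pow_zero,
    Nat.factorial_zero, Nat.cast_one, div_one, map_one, one_mul, Function.iterate_zero_apply]

private theorem fre_ex2 {f : B k} (h : FD k (FD k f) = 0) : ex k f = f + FD k f := by
  rw [fre_ex f 2 h, Finset.sum_range_succ, Finset.sum_range_one, pow_zero,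
    Nat.factorial_zero, Nat.cast_one, div_one, map_one, one_mul, Function.iterate_zero_apply,
    Nat.factorial_one, Nat.cast_one, pow_one, div_one, map_one, one_mul, Function.iterate_one]

private theorem fre_ex3 {f : B k} (h : FD k (FD k (FD k f)) = 0) :
    ex k f = f + FD k f + C (1 / 2) * FD k (FD k f) := by
  rw [fre_ex f 3 h, Finset.sum_range_succ, Finset.sum_range_succ, Finset.sum_range_one, pow_zero,
    Nat.factorial_zero, Nat.cast_one, div_one, map_one, one_mul, Function.iterate_zero_apply,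
    Nat.factorial_one, Nat.cast_one, pow_one, div_one, map_one, one_mul, Function.iterate_one,
    one_pow, Nat.factorial_two, Nat.cast_ofNat]
  rfl

theorem ex_F : ex k (pF k) = pF k := fre_fix FD_F

theorem ex_r : ex k (pr k) = pr k - pF k * pG k := by
  have h : FD k (FD k (pr k)) = 0 := by
    rw [FD_r, map_neg, fre_mul, FD_F, FD_G, mul_zero, mul_zero, add_zero, neg_zero]
  rw [fre_ex2 h, FD_r, ← sub_eq_add_neg]

theorem ex_x : ex k (X 0) = X 0 - 2 * pF k * pr k + pF k ^ 2 * pG k := by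
  have h2 : FD k (FD k (X 0)) = 2 * (pF k ^ 2 * pG k) := by
    have h3 : (2 : B k) * pF k * pr k = 2 * (pF k * pr k) := by ring
    rw [fre_X0, h3, map_neg, fre_two, fre_mul, FD_F, FD_r]
    ring
  have h3 : FD k (FD k (FD k (X 0))) = 0 := by
    rw [h2, fre_two, fre_mul, fre_sq, FD_F, FD_G]
    ring
  rw [fre_ex3 h3, h2, fre_X0]
  have h4 : (C (1 / 2 : k) : B k) * (2 * (pF k ^ 2 * pG k)) = pF k ^ 2 * pG k := by
    have h5 : (C (1 / 2 : k) : B k) * 2 = 1 := by
      have h6 : (2 : B k) = C 2 := by rw [map_ofNat]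
      rw [h6, ← C_mul, one_div, inv_mul_cancel₀ (two_ne_zero), map_one]
    rw [← mul_assoc, h5, one_mul]
  rw [h4]
  ring

theorem ex_rel1 : pF k * ex k (X 1) = ex k (pr k) - ex k (X 0) ^ 3 := by
  have h : ex k (pr k) = ex k (X 0) ^ 3 + ex k (X 1) * ex k (pF k) := by
    rw [pr, map_add, map_pow, map_mul]
  rw [h, ex_F]
  ring

theorem ex_rel2 : ex k (X 0) * ex k (X 2) = pF k + ex k (X 1) ^ 2 := by
  have h : ex k (pF k) = ex k (X 0) * ex k (X 2) - ex k (X 1) ^ 2 := by
    rw [pF, map_sub, map_mul, map_pow]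
  rw [ex_F] at h
  rw [h]
  ring

private theorem fre_sF {s : Au k} (hs : ∀ i, s (X i) = C 2 * X i) : s (pF k) = 4 * pF k := by
  have h2 : (C 2 : B k) = 2 := map_ofNat _ _
  rw [pF, map_sub, map_mul, map_pow, hs, hs, hs, h2]
  ring

private theorem fre_sr {s : Au k} (hs : ∀ i, s (X i) = C 2 * X i) : s (pr k) = 8 * pr k := by
  have h2 : (C 2 : B k) = 2 := map_ofNat _ _
  rw [pr, map_add, map_mul, map_pow, fre_sF hs, hs, hs, h2]
  ring

private theorem fre_sG {s : Au k} (hs : ∀ i, s (X i) = C 2 * X i) : s (pG k) = 32 * pG k := by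
  have h2 : (C 2 : B k) = 2 := map_ofNat _ _
  have h3 : s 2 = 2 := map_ofNat _ _
  rw [pG, map_add, map_add, map_mul, map_mul, map_mul, map_mul, map_pow, map_pow, map_pow, fre_sF hs, hs, hs, hs, h2, h3]
  ring

private theorem fre_sX {s : Au k} (hs : ∀ i, s (X i) = C 2 * X i) (i : Fin 3) :
    s (FD k (X i)) = 16 * FD k (s (X i)) := by
  have h2 : (C 2 : B k) = 2 := map_ofNat _ _
  have h3 : s 2 = 2 := map_ofNat _ _
  have h5 : s 5 = 5 := map_ofNat _ _
  have h6 : s 6 = 6 := map_ofNat _ _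
  rw [hs, h2, fre_two]
  fin_cases i
  · show s (FD k (X 0)) = 16 * (2 * FD k (X 0))
    rw [fre_X0, map_neg, map_mul, map_mul, h3, fre_sF hs, fre_sr hs]
    ring
  · show s (FD k (X 1)) = 16 * (2 * FD k (X 1))
    rw [fre_X1, map_sub, map_mul, map_mul, map_pow, h6, fre_sG hs, fre_sr hs, hs, h2]
    ring
  · show s (FD k (X 2)) = 16 * (2 * FD k (X 2))
    rw [fre_X2, map_mul, map_mul, map_add, map_mul, map_mul, map_pow, h3, h5, fre_sF hs, fre_sr hs, hs, hs, h2]
    ring

private theorem fre_s {s : Au k} (hs : ∀ i, s (X i) = C 2 * X i) (f : B k) :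
    s (FD k f) = 16 * FD k (s f) := by
  induction f using MvPolynomial.induction_on with
  | C a =>
    have h : s (C a) = C a := s.commutes a
    rw [h, fre_C, map_zero, mul_zero]
  | add p q hp hq => rw [map_add, map_add, hp, hq, map_add, map_add]; ring
  | mul_X p i hp =>
    rw [fre_mul, map_add, map_mul, map_mul, hp, fre_sX hs, map_mul, fre_mul]
    ring

private theorem fre_s_iter {s : Au k} (hs : ∀ i, s (X i) = C 2 * X i) (j : ℕ) (f : B k) :
    s ((FD k)^[j] f) = 16 ^ j * (FD k)^[j] (s f) := by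
  induction j generalizing f with
  | zero => rw [Function.iterate_zero_apply, Function.iterate_zero_apply, pow_zero, one_mul]
  | succ j ih =>
    rw [Function.iterate_succ_apply', Function.iterate_succ_apply', fre_s hs, ih]
    have h : FD k ((16 : B k) ^ j * (FD k)^[j] (s f)) = 16 ^ j * FD k ((FD k)^[j] (s f)) := by
      have h1 : ((16 : B k) ^ j) = C ((16 : k) ^ j) := by rw [map_pow, map_ofNat]
      rw [fre_mul, h1, fre_C, mul_zero, add_zero]
    rw [h]
    ring

private theorem fre_ex_pow : (exists_ex k).choose 16 = ex k ^ 16 := by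
  obtain ⟨h1, h2⟩ := (exists_ex k).choose_spec
  have h0 : (exists_ex k).choose 0 = 1 := by
    have h := h2 0 0
    rw [add_zero] at h
    have h' : (exists_ex k).choose 0 * 1 = (exists_ex k).choose 0 * (exists_ex k).choose 0 := by
      rw [mul_one]; exact h
    exact (mul_left_cancel h').symm
  have hn : ∀ n : ℕ, (exists_ex k).choose (n : k) = ex k ^ n := by
    intro n
    induction n with
    | zero => rw [Nat.cast_zero, pow_zero]; exact h0
    | succ n ih => rw [Nat.cast_succ, h2, ih, pow_succ]; rfl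
  have h := hn 16
  rwa [Nat.cast_ofNat] at h

theorem ex_conj {s : Au k} (hs : ∀ i, s (X i) = C 2 * X i) : s * ex k * s⁻¹ = ex k ^ 16 := by
  rw [← fre_ex_pow]
  apply AlgEquiv.ext
  intro f
  obtain ⟨g, hg⟩ : ∃ g, s g = f := s.surjective f
  have hg' : s⁻¹ f = g := by
    rw [← hg]
    exact s.symm_apply_apply g
  rw [AlgEquiv.mul_apply, AlgEquiv.mul_apply, hg']
  obtain ⟨n, hn⟩ := FD_nil g
  have hn' : (FD k)^[n] f = 0 := by
    have h := fre_s_iter hs n g
    rw [hn, map_zero, hg] at h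
    have h16 : ((16 : B k) ^ n) ≠ 0 := by
      have h1 : ((16 : B k) ^ n) = C ((16 : k) ^ n) := by rw [map_pow, map_ofNat]
      rw [h1]
      exact (C_ne_zero).mpr (pow_ne_zero _ (by norm_num))
    exact (mul_eq_zero.mp h.symm).resolve_left h16
  rw [fre_ex g n hn, (exists_ex k).choose_spec.1 16 f n hn', map_sum]
  refine Finset.sum_congr rfl fun j _ => ?_
  rw [map_mul, fre_s_iter hs, hg]
  have h1 : s (C ((1 : k) ^ j / (j.factorial : k))) = C ((1 : k) ^ j / (j.factorial : k)) := s.commutes _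
  have h2 : ((16 : B k) ^ j) = C ((16 : k) ^ j) := by rw [map_pow, map_ofNat]
  rw [h1, h2, ← mul_assoc, ← C_mul, one_pow, div_mul_eq_mul_div, one_mul]

private theorem fre_comm (f : B k) : FD k (ex k f) = ex k (FD k f) := by
  obtain ⟨n, hn⟩ := FD_nil f
  have hn' : (FD k)^[n] (FD k f) = 0 := by
    rw [← Function.iterate_succ_apply, fre_succ, hn, map_zero]
  rw [fre_ex f n hn, fre_ex _ n hn', map_sum]
  refine Finset.sum_congr rfl fun j _ => ?_
  rw [fre_mul, fre_C, mul_zero, add_zero, ← fre_succ, Function.iterate_succ_apply]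

private theorem fre_comm_iter (j : ℕ) (f : B k) : (FD k)^[j] (ex k f) = ex k ((FD k)^[j] f) := by
  induction j generalizing f with
  | zero => rfl
  | succ j ih => rw [fre_succ, ih, fre_comm, ← fre_succ]

private theorem fre_aff (a b : k) (p : B k) (j : ℕ) (hj : j ≠ 0) :
    (FD k)^[j] (C a * p + C b) = C a * (FD k)^[j] p := by
  induction j with
  | zero => exact absurd rfl hj
  | succ j ih =>
    rw [Function.iterate_succ_apply', Function.iterate_succ_apply']
    rcases eq_or_ne j 0 with h | h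
    · subst h
      rw [Function.iterate_zero_apply, Function.iterate_zero_apply, map_add, fre_C, fre_mul, fre_C]
      ring
    · rw [ih h, fre_mul, fre_C, mul_zero, add_zero]

theorem ex_fixline {p : B k} {a b : k} (h : ex k p = C a * p + C b) : ∃ b' : k, FD k p = C b' := by
  classical
  obtain ⟨n, hn, hmin⟩ : ∃ n, (FD k)^[n] p = 0 ∧ ∀ m < n, (FD k)^[m] p ≠ 0 :=
    ⟨Nat.find (FD_nil p), Nat.find_spec (FD_nil p), fun m hm => Nat.find_min (FD_nil p) hm⟩
  match n, hn, hmin with
  | 0, hn, _ =>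
    rw [Function.iterate_zero_apply] at hn
    exact ⟨0, by rw [hn, map_zero, map_zero]⟩
  | 1, hn, _ =>
    rw [Function.iterate_one] at hn
    exact ⟨0, by rw [hn, map_zero]⟩
  | N + 2, hn, hmin =>
    have hq : (FD k)^[N + 1] p ≠ 0 := hmin _ (by omega)
    have hq0 : FD k ((FD k)^[N + 1] p) = 0 := by rw [← fre_succ]; exact hn
    have ha : a = 1 := by
      have h1 := fre_comm_iter (N + 1) p
      rw [h, fre_aff a b p (N + 1) (by omega), fre_fix hq0] at h1
      have h2 : (C a - 1) * (FD k)^[N + 1] p = 0 := by rw [sub_mul, h1, one_mul, sub_self]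
      have h3 := (mul_eq_zero.mp h2).resolve_right hq
      have h4 : (C a : B k) = C 1 := by rw [map_one]; exact sub_eq_zero.mp h3
      exact C_injective _ _ h4
    rcases Nat.eq_zero_or_pos N with h0 | h0
    · subst h0
      have h2 : FD k (FD k p) = 0 := hn
      rw [fre_ex2 h2, ha, map_one, one_mul] at h
      exact ⟨b, add_left_cancel h⟩
    · exfalso
      have hw : FD k (FD k ((FD k)^[N] p)) = 0 := by
        rw [← fre_succ, ← fre_succ]; exact hn
      have h1 := fre_comm_iter N p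
      rw [h, fre_aff a b p N (by omega), fre_ex2 hw, ha, map_one, one_mul] at h1
      apply hq
      rw [Function.iterate_succ_apply']
      exact left_eq_add.mp h1

/-- the line through the point `c` -/
private noncomputable def freL (c : Fin 3 → k) : B k →ₐ[k] Polynomial k :=
  aeval fun i => Polynomial.C (c i) * Polynomial.X

private theorem freL_X (c : Fin 3 → k) (i : Fin 3) : freL c (X i) = Polynomial.C (c i) * Polynomial.X := by
  rw [freL, aeval_X]

private theorem freL_coeff (c : Fin 3 → k) (f : B k) : (freL c f).coeff 0 = coeff 0 f := by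
  rw [Polynomial.coeff_zero_eq_eval_zero]
  have h : (Polynomial.evalRingHom (0 : k)).comp (freL c).toRingHom = constantCoeff := by
    apply MvPolynomial.ringHom_ext
    · intro r
      simp [freL]
    · intro i
      simp [freL]
  have h2 := congrArg (fun φ : B k →+* k => φ f) h
  exact h2

private theorem fre_decomp (p : B k) :
    FD k p = FD k (X 0) * pderiv 0 p + FD k (X 1) * pderiv 1 p + FD k (X 2) * pderiv 2 p := by
  have h : FD k = FD k (X 0) • pderiv (0 : Fin 3) + FD k (X 1) • pderiv (1 : Fin 3) +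
      FD k (X 2) • pderiv (2 : Fin 3) := by
    apply derivation_ext
    intro i
    rw [Derivation.add_apply, Derivation.add_apply, Derivation.smul_apply, Derivation.smul_apply,
      Derivation.smul_apply, pderiv_X, pderiv_X, pderiv_X]
    fin_cases i
    · show FD k (X 0) = _
      simp
    · show FD k (X 1) = _
      simp
    · show FD k (X 2) = _
      simp
  have h2 := congrArg (fun δ : Derivation k (B k) (B k) => δ p) h
  exact h2

private theorem fre_line {p : B k} {b' : k} (h : FD k p = C b') (c : Fin 3 → k) (a0 a1 a2 : k)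
    (h0 : freL c (FD k (X 0)) = Polynomial.C a0 * Polynomial.X ^ 5)
    (h1 : freL c (FD k (X 1)) = Polynomial.C a1 * Polynomial.X ^ 5)
    (h2 : freL c (FD k (X 2)) = Polynomial.C a2 * Polynomial.X ^ 5) :
    a0 * coeff (Finsupp.single 0 1) p + a1 * coeff (Finsupp.single 1 1) p +
      a2 * coeff (Finsupp.single 2 1) p = 0 := by
  have h3 : (freL c (FD k p)).coeff 5 = (freL c (C b')).coeff 5 := by rw [h]
  rw [fre_decomp, map_add, map_add, map_mul, map_mul, map_mul, h0, h1, h2] at h3
  have h4 : ∀ (a : k) (i : Fin 3), (Polynomial.C a * Polynomial.X ^ 5 * freL c (pderiv i p)).coeff 5 =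
      a * coeff (Finsupp.single i 1) p := by
    intro a i
    have h5 : Polynomial.C a * Polynomial.X ^ 5 * freL c (pderiv i p) =
        Polynomial.C a * (freL c (pderiv i p) * Polynomial.X ^ 5) := by ring
    rw [h5, Polynomial.coeff_C_mul, Polynomial.coeff_mul_X_pow', if_pos le_rfl, Nat.sub_self, freL_coeff,
      coeff_pderiv, zero_add, Finsupp.coe_zero, Pi.zero_apply, Nat.cast_zero, zero_add, mul_one]
  have h6 : (freL c (C b')).coeff 5 = 0 := by
    have h7 : freL c (C b') = Polynomial.C b' := (freL c).commutes b'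
    rw [h7, Polynomial.coeff_C, if_neg (by norm_num)]
  rw [Polynomial.coeff_add, Polynomial.coeff_add, h4, h4, h4, h6] at h3
  exact h3

private theorem fre_vals (c : Fin 3 → k) (t : k) (h1 : c 0 = 1) (h2 : c 1 = 0) (h3 : c 2 = t) :
    freL c (FD k (X 0)) = Polynomial.C (-(2 * t)) * Polynomial.X ^ 5 ∧
    freL c (FD k (X 1)) = Polynomial.C (6 - (t ^ 3 + 1)) * Polynomial.X ^ 5 ∧
    freL c (FD k (X 2)) = Polynomial.C (2 * t ^ 2) * Polynomial.X ^ 5 := by
  have e0 : freL c (X 0) = Polynomial.X := by rw [freL_X, h1, map_one, one_mul]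
  have e1 : freL c (X 1) = 0 := by rw [freL_X, h2, map_zero, zero_mul]
  have e2 : freL c (X 2) = Polynomial.C t * Polynomial.X := by rw [freL_X, h3]
  have c2 : freL c 2 = 2 := map_ofNat _ _
  have c5 : freL c 5 = 5 := map_ofNat _ _
  have c6 : freL c 6 = 6 := map_ofNat _ _
  have eF : freL c (pF k) = Polynomial.C t * Polynomial.X ^ 2 := by
    rw [pF, map_sub, map_mul, map_pow, e0, e1, e2]; ring
  have er : freL c (pr k) = Polynomial.X ^ 3 := by
    rw [pr, map_add, map_mul, map_pow, eF, e0, e1]; ring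
  have eG : freL c (pG k) = Polynomial.C (t ^ 3 + 1) * Polynomial.X ^ 5 := by
    rw [pG, map_add, map_add, map_mul, map_mul, map_mul, map_mul, map_pow, map_pow, map_pow, eF, e0, e1, e2, c2,
      map_add, map_pow, map_one]
    ring
  refine ⟨?_, ?_, ?_⟩
  · rw [fre_X0, map_neg, map_mul, map_mul, c2, eF, er, map_neg, map_mul, map_ofNat]
    ring
  · rw [fre_X1, map_sub, map_mul, map_mul, map_pow, c6, eG, er, e0, map_sub, map_ofNat]
    ring
  · rw [fre_X2, map_mul, map_mul, map_add, map_mul, map_mul, map_pow, c2, c5, eF, er, e0, e1, map_mul, map_pow,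
      map_ofNat]
    ring

theorem FD_lin {p : B k} {b' : k} (h : FD k p = C b') : ∀ i : Fin 3, coeff (Finsupp.single i 1) p = 0 := by
  have key : ∀ t : k, -(2 * t) * coeff (Finsupp.single 0 1) p + (6 - (t ^ 3 + 1)) * coeff (Finsupp.single 1 1) p +
      (2 * t ^ 2) * coeff (Finsupp.single 2 1) p = 0 := by
    intro t
    obtain ⟨a, b, c⟩ := fre_vals (k := k) ![1, 0, t] t rfl rfl rfl
    exact fre_line h _ _ _ _ a b c
  have k0 := key 0
  have k1 := key 1
  have k2 := key (-1)
  have e1 : coeff (Finsupp.single 1 1) p = 0 := by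
    have h5 : (5 : k) * coeff (Finsupp.single 1 1) p = 0 := by
      calc (5 : k) * coeff (Finsupp.single 1 1) p = _ := by ring
        _ = 0 := k0
    exact (mul_eq_zero.mp h5).resolve_left (by norm_num)
  rw [e1] at k1 k2
  have e2 : coeff (Finsupp.single 2 1) p = 0 := by
    have h5 : (4 : k) * coeff (Finsupp.single 2 1) p = 0 := by
      linear_combination k1 + k2
    exact (mul_eq_zero.mp h5).resolve_left (by norm_num)
  have e0 : coeff (Finsupp.single 0 1) p = 0 := by
    have h5 : (4 : k) * coeff (Finsupp.single 0 1) p = 0 := by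
      linear_combination k2 - k1
    exact (mul_eq_zero.mp h5).resolve_left (by norm_num)
  intro i
  fin_cases i
  · exact e0
  · exact e1
  · exact e2

/-- no conjugate of `ex` lies in `G_1` -/
theorem ex_not_G1 (v : Au k) : v⁻¹ * ex k * v ∉ flagStab k 3 0 := by
  intro hv
  obtain ⟨a, b, _, h⟩ := (mem_G1 _).mp hv
  have h1 : ex k (v (X 0)) = C a * v (X 0) + C b := by
    have h2 := congrArg v h
    rw [AlgEquiv.mul_apply, AlgEquiv.mul_apply] at h2
    have h3 : v (v⁻¹ (ex k (v (X 0)))) = ex k (v (X 0)) := v.apply_symm_apply _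
    have h4 : v (C a * X 0 + C b) = C a * v (X 0) + C b := by
      have h5 : v (C a) = C a := v.commutes a
      have h6 : v (C b) = C b := v.commutes b
      rw [map_add, map_mul, h5, h6]
    rw [h3, h4] at h2
    exact h2
  obtain ⟨b', hb⟩ := ex_fixline h1
  obtain ⟨i, hi⟩ := coord_lin v
  exact hi (FD_lin hb i)

end SU
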