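import Pool.Agent.Lib.MP_374dcb_al.ADefs

/-!
# JOB GtA: normal forms from the injectivity of the pushout

`φ := phi hA hT` is injective for both `b` (`Subgroup.inclusion_injective`), so there is a transversal `d` (`Monoid.PushoutI.NormalWord.transversal_nonempty`). `canon` maps `of true a` to `a` (`lift_of`), `of false t` to `t`, `base h` to `h` (`lift_base`). The range of `φ true` is
`{a : A | a ∈ H}`, of `φ false`: `{t : T | t ∈ H}`.
Step 1: `A ⊓ T = H`: `≥` clear. If `x ∈ A ⊓ T` then `canon (of true x) = x = canon (of false x)`, so (injective) `of true x = of false x ∈ (of true).range ⊓ (of false).range = (base φ).range` (`inf_of_range_eq_base_range`), so `of true x = base h`, apply `canon`: `x = h ∈ H`.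
Step 2: a reduced word `RW A T b l`, `l ≠ []`, gives a `Monoid.CoprodI.Word` `w` of the family `fam A T` with `w.toList` = the letters with alternating indices `b, !b, ...` (`chain_ne`), `w.toList.length = l.length`, first index `b`, `ne_one` (`1 ∈ A ⊓ T`), which is
`Reduced φ w` (letters not in the range of `φ`, i.e. not in `H = A ⊓ T`), and `canon (ofCoprodI w.prod) = l.prod`. (Construct it by induction on `l`, e.g. prove: for all `b l`, `RW A T b l → ∃ w : Word, Reduced φ w ∧ canon (ofCoprodI w.prod) = l.prod ∧ w.toList.map Sigma.fst = (alternating list) ∧ (l = [] ∨ w.fstIdx = some b)`; `Word.cons`.)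
`nin`: if `l.prod ∈ A ⊓ T = H` then `ofCoprodI w.prod = base h` (injectivity), so `w = empty` (`Reduced.eq_empty_of_mem_range`), contradiction. `uniq`: `ofCoprodI w.prod = ofCoprodI w'.prod`; `Reduced.exists_normalWord_prod_eq` for both, `NormalWord.prod_injective`: the index lists agree; so equal length and
equal first index (if `l' = []` then `l.prod = 1 ∈ A ⊓ T` contradicts `nin`).
`ex`: `G` is generated by `A` and `T` (`hgen`), so every `g` is `canon x` (the range of `canon` contains `A` and `T`). Elementary: the set of `g` with `g ∈ A ⊓ T ∨ ∃ b l, ...` contains `1` and is closed under left multiplication by elements `a` of `A` and `T`: say `a ∈ A`. If `a ∈ T`: multiply the first letter (or stay in `A ⊓ T`).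
If `a ∉ T`: `g ∈ A ⊓ T`: `a g ∈ A \ T`: word `[a g]`. `g = l.prod` with first letter in `T \ A`: word `a :: l`. First letter `x ∈ A \ T`: `a x ∈ A`; if `a x ∉ T`: replace the first letter; if `a x ∈ T` (so in `A ⊓ T`): multiply the second letter by it (or the product is `a x ∈ A ⊓ T`).
 (`Subgroup.closure_induction_left`, `Subgroup.mem_sup`; closure of `A ∪ T`.)
-/

set_option autoImplicit false

namespace SU

variable {G : Type*} [Group G]

private theorem GtA_phi_inj {A T H : Subgroup G} (hA : H ≤ A) (hT : H ≤ T) (b : Bool) :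
    Function.Injective (phi hA hT b) := by
  cases b
  · exact Subgroup.inclusion_injective hT
  · exact Subgroup.inclusion_injective hA

private theorem GtA_coe_phi {A T H : Subgroup G} (hA : H ≤ A) (hT : H ≤ T) (b : Bool) (h : H) :
    ((phi hA hT b h : ↥(fam A T b)) : G) = h := by
  cases b <;> rfl

private theorem GtA_of {A T H : Subgroup G} (hA : H ≤ A) (hT : H ≤ T) (b : Bool) (x : ↥(fam A T b)) :
    canon hA hT (Monoid.PushoutI.of b x) = (x : G) := by
  rw [canon, Monoid.PushoutI.lift_of]
  rfl

private theorem GtA_base {A T H : Subgroup G} (hA : H ≤ A) (hT : H ≤ T) (h : H) :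
    canon hA hT (Monoid.PushoutI.base (phi hA hT) h) = (h : G) := by
  rw [canon, Monoid.PushoutI.lift_base]
  rfl

private theorem GtA_inf {A T H : Subgroup G} (hA : H ≤ A) (hT : H ≤ T) (hinj : Function.Injective (canon hA hT)) :
    A ⊓ T = H := by
  refine le_antisymm (fun x hx => ?_) (le_inf hA hT)
  have heq : (Monoid.PushoutI.of true (⟨x, hx.1⟩ : ↥(fam A T true)) : Monoid.PushoutI (phi hA hT)) =
      Monoid.PushoutI.of false (⟨x, hx.2⟩ : ↥(fam A T false)) :=
    hinj (by rw [GtA_of, GtA_of])
  have hmem : (Monoid.PushoutI.of true (⟨x, hx.1⟩ : ↥(fam A T true)) : Monoid.PushoutI (phi hA hT)) ∈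
      (Monoid.PushoutI.of (φ := phi hA hT) true).range ⊓ (Monoid.PushoutI.of (φ := phi hA hT) false).range :=
    ⟨⟨_, rfl⟩, ⟨_, heq.symm⟩⟩
  rw [Monoid.PushoutI.inf_of_range_eq_base_range (GtA_phi_inj hA hT) (by decide)] at hmem
  obtain ⟨h, hh⟩ := hmem
  have h1 := congrArg (canon hA hT) hh
  rw [GtA_base, GtA_of] at h1
  show x ∈ H
  have h2 : (h : G) = x := h1
  rw [← h2]
  exact h.2

private theorem GtA_cons {A T H : Subgroup G} (hA : H ≤ A) (hT : H ≤ T) (b : Bool) (x : ↥(fam A T b))
    (hx : (x : G) ∉ H) (w : Monoid.CoprodI.Word (fun b => ↥(fam A T b))) (hne : w.fstIdx ≠ some b)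
    (hw : Monoid.PushoutI.Reduced (phi hA hT) w) :
    ∃ w' : Monoid.CoprodI.Word (fun b => ↥(fam A T b)), Monoid.PushoutI.Reduced (phi hA hT) w' ∧
      canon hA hT (Monoid.PushoutI.ofCoprodI w'.prod) = x * canon hA hT (Monoid.PushoutI.ofCoprodI w.prod) ∧
      w'.toList.length = w.toList.length + 1 ∧ w'.fstIdx = some b := by
  have h1 : x ≠ 1 := by
    rintro rfl
    exact hx H.one_mem
  refine ⟨Monoid.CoprodI.Word.cons x w hne h1, ?_, ?_, ?_, ?_⟩
  · intro g hg
    rw [Monoid.CoprodI.Word.cons_toList, List.mem_cons] at hg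
    rcases hg with rfl | hg
    · rintro ⟨h, hh⟩
      apply hx
      have h2 : ((phi hA hT b h : ↥(fam A T b)) : G) = x := congrArg Subtype.val hh
      rw [GtA_coe_phi] at h2
      rw [← h2]
      exact h.2
    · exact hw g hg
  · rw [Monoid.CoprodI.Word.prod_cons, map_mul, map_mul, Monoid.PushoutI.ofCoprodI_of, GtA_of]
  · rw [Monoid.CoprodI.Word.cons_toList, List.length_cons]
  · rw [Monoid.CoprodI.Word.fstIdx_cons]

private theorem GtA_word {A T H : Subgroup G} (hA : H ≤ A) (hT : H ≤ T) (l : List G) : ∀ b : Bool, RW A T b l →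
    ∃ w : Monoid.CoprodI.Word (fun b => ↥(fam A T b)), Monoid.PushoutI.Reduced (phi hA hT) w ∧
      canon hA hT (Monoid.PushoutI.ofCoprodI w.prod) = l.prod ∧
      w.toList.length = l.length ∧ (l = [] ∨ w.fstIdx = some b) := by
  induction l with
  | nil =>
    intro b _
    refine ⟨Monoid.CoprodI.Word.empty, ?_, ?_, rfl, Or.inl rfl⟩
    · intro g hg
      exact absurd hg (by simp [Monoid.CoprodI.Word.empty])
    · rw [Monoid.CoprodI.Word.prod_empty, map_one, map_one, List.prod_nil]
  | cons x l ih =>
    intro b hb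
    cases b with
    | true =>
      obtain ⟨h1, h2, h3⟩ := hb
      obtain ⟨w, hw1, hw2, hw3, hw4⟩ := ih false h3
      have hne : w.fstIdx ≠ some true := by
        rcases hw4 with h4 | h4
        · rw [h4, List.length_nil, List.length_eq_zero_iff] at hw3
          rw [Monoid.CoprodI.Word.fstIdx, hw3]
          simp
        · rw [h4]
          simp
      obtain ⟨w', e1, e2, e3, e4⟩ := GtA_cons hA hT true (⟨x, h1⟩ : ↥(fam A T true)) (fun h => h2 (hT h)) w hne hw1
      refine ⟨w', e1, ?_, ?_, Or.inr e4⟩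
      · rw [e2, hw2, List.prod_cons]
      · rw [e3, hw3, List.length_cons]
    | false =>
      obtain ⟨h1, h2, h3⟩ := hb
      obtain ⟨w, hw1, hw2, hw3, hw4⟩ := ih true h3
      have hne : w.fstIdx ≠ some false := by
        rcases hw4 with h4 | h4
        · rw [h4, List.length_nil, List.length_eq_zero_iff] at hw3
          rw [Monoid.CoprodI.Word.fstIdx, hw3]
          simp
        · rw [h4]
          simp
      obtain ⟨w', e1, e2, e3, e4⟩ := GtA_cons hA hT false (⟨x, h1⟩ : ↥(fam A T false)) (fun h => h2 (hA h)) w hne hw1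
      refine ⟨w', e1, ?_, ?_, Or.inr e4⟩
      · rw [e2, hw2, List.prod_cons]
      · rw [e3, hw3, List.length_cons]

/-- the set of elements with a reduced word -/
private def GtAP (A T : Subgroup G) (g : G) : Prop :=
  g ∈ A ⊓ T ∨ ∃ (b : Bool) (l : List G), l ≠ [] ∧ RW A T b l ∧ l.prod = g

private theorem GtA_swap {A T : Subgroup G} (l : List G) : ∀ b, RW A T b l → RW T A (!b) l := by
  induction l with
  | nil => intro b _; cases b <;> trivial
  | cons x l ih =>
    intro b hb
    cases b with
    | true =>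
      obtain ⟨h1, h2, h3⟩ := hb
      exact ⟨h1, h2, ih false h3⟩
    | false =>
      obtain ⟨h1, h2, h3⟩ := hb
      exact ⟨h1, h2, ih true h3⟩

private theorem GtAP_swap {A T : Subgroup G} {g : G} (h : GtAP A T g) : GtAP T A g := by
  rcases h with h | ⟨b, l, h1, h2, h3⟩
  · exact Or.inl ⟨h.2, h.1⟩
  · exact Or.inr ⟨!b, l, h1, GtA_swap l b h2, h3⟩

private theorem GtAP_mulH {A T : Subgroup G} {g h : G} (hh : h ∈ A ⊓ T) (hg : GtAP A T g) : GtAP A T (h * g) := by
  rcases hg with hg | ⟨b, l, h1, h2, rfl⟩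
  · exact Or.inl ((A ⊓ T).mul_mem hh hg)
  · cases l with
    | nil => exact absurd rfl h1
    | cons x l =>
      cases b with
      | true =>
        obtain ⟨e1, e2, e3⟩ := h2
        refine Or.inr ⟨true, (h * x) :: l, by simp, ⟨A.mul_mem hh.1 e1, ?_, e3⟩, ?_⟩
        · intro h4
          exact e2 ((T.mul_mem_cancel_left hh.2).1 h4)
        · rw [List.prod_cons, List.prod_cons, mul_assoc]
      | false =>
        obtain ⟨e1, e2, e3⟩ := h2
        refine Or.inr ⟨false, (h * x) :: l, by simp, ⟨T.mul_mem hh.2 e1, ?_, e3⟩, ?_⟩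
        · intro h4
          exact e2 ((A.mul_mem_cancel_left hh.1).1 h4)
        · rw [List.prod_cons, List.prod_cons, mul_assoc]

private theorem GtAP_mulA {A T : Subgroup G} {g a : G} (ha : a ∈ A) (hg : GtAP A T g) : GtAP A T (a * g) := by
  by_cases haT : a ∈ T
  · exact GtAP_mulH ⟨ha, haT⟩ hg
  · rcases hg with hg | ⟨b, l, h1, h2, rfl⟩
    · refine Or.inr ⟨true, [a * g], by simp, ⟨A.mul_mem ha hg.1, ?_, trivial⟩, by simp⟩
      intro h4
      exact haT ((T.mul_mem_cancel_right hg.2).1 h4)
    · cases b with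
      | false => exact Or.inr ⟨true, a :: l, by simp, ⟨ha, haT, h2⟩, by simp⟩
      | true =>
        cases l with
        | nil => exact absurd rfl h1
        | cons x l =>
          obtain ⟨e1, e2, e3⟩ := h2
          rw [List.prod_cons, ← mul_assoc]
          by_cases h4 : a * x ∈ T
          · refine GtAP_mulH ⟨A.mul_mem ha e1, h4⟩ ?_
            by_cases h5 : l = []
            · rw [h5, List.prod_nil]
              exact Or.inl (A ⊓ T).one_mem
            · exact Or.inr ⟨false, l, h5, e3, rfl⟩
          · exact Or.inr ⟨true, (a * x) :: l, by simp, ⟨A.mul_mem ha e1, h4, e3⟩, by simp⟩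

private theorem GtAP_mulT {A T : Subgroup G} {g t : G} (ht : t ∈ T) (hg : GtAP A T g) : GtAP A T (t * g) :=
  GtAP_swap (GtAP_mulA ht (GtAP_swap hg))

theorem gtA {A T H : Subgroup G} (hA : H ≤ A) (hT : H ≤ T) (hinj : Function.Injective (canon hA hT))
    (hgen : A ⊔ T = ⊤) : A ⊓ T = H ∧ NFm A T := by
  have hAT := GtA_inf hA hT hinj
  have hφ := GtA_phi_inj hA hT
  have nin : ∀ (b : Bool) (l : List G), l ≠ [] → RW A T b l → l.prod ∉ A ⊓ T := by
    intro b l hl hw hmem
    rw [hAT] at hmem
    obtain ⟨w, h1, h2, h3, -⟩ := GtA_word hA hT l b hw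
    have h4 : w = Monoid.CoprodI.Word.empty := by
      refine h1.eq_empty_of_mem_range hφ ⟨⟨l.prod, hmem⟩, hinj ?_⟩
      rw [GtA_base, h2]
    rw [h4] at h3
    exact hl (List.length_eq_zero_iff.1 h3.symm)
  refine ⟨hAT, ?_, nin, ?_⟩
  · intro g
    have hg : g ∈ Subgroup.closure ((A : Set G) ∪ T) := by
      rw [Subgroup.closure_union, Subgroup.closure_eq, Subgroup.closure_eq, hgen]
      trivial
    show GtAP A T g
    refine Subgroup.closure_induction_left (p := fun x _ => GtAP A T x) ?_ ?_ ?_ hg
    · exact Or.inl (A ⊓ T).one_mem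
    · rintro x (hx | hx) y - hy
      · exact GtAP_mulA hx hy
      · exact GtAP_mulT hx hy
    · rintro x (hx | hx) y - hy
      · exact GtAP_mulA (A.inv_mem hx) hy
      · exact GtAP_mulT (T.inv_mem hx) hy
  · intro b l b' l' hl hw hw' heq
    obtain ⟨w, h1, h2, h3, h4⟩ := GtA_word hA hT l b hw
    obtain ⟨w', h1', h2', h3', h4'⟩ := GtA_word hA hT l' b' hw'
    obtain ⟨d⟩ := Monoid.PushoutI.NormalWord.transversal_nonempty (phi hA hT) hφ
    obtain ⟨n, hn1, hn2⟩ := h1.exists_normalWord_prod_eq d
    obtain ⟨n', hn1', hn2'⟩ := h1'.exists_normalWord_prod_eq d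
    have h5 : n = n' := by
      apply Monoid.PushoutI.NormalWord.prod_injective
      rw [hn1, hn1']
      apply hinj
      rw [h2, h2', heq]
    rw [← h5, hn2] at hn2'
    have hlen : l.length = l'.length := by
      have h6 := congrArg List.length hn2'
      rw [List.length_map, List.length_map, h3, h3'] at h6
      exact h6
    refine ⟨?_, hlen⟩
    have h6 : w.fstIdx = some b := h4.resolve_left hl
    have h7 : w'.fstIdx = some b' := h4'.resolve_left (by
      rintro rfl
      exact hl (List.length_eq_zero_iff.1 hlen))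
    rw [Monoid.CoprodI.Word.fstIdx, ← List.head?_map, hn2', List.head?_map] at h6
    rw [Monoid.CoprodI.Word.fstIdx, h6] at h7
    exact Option.some.inj h7

end SU
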