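import Pool.Agent.Lib.MP_374dcb_al.ADefs

/-!
# JOB GtB: an element `e` with `σ e σ⁻¹ = e ^ 16` is conjugate into a factor

Everything uses only `NFm A T`. Facts on words:
(W1) every product of `n` elements of `A ∪ T` is in `A ⊓ T` or the product of a reduced word of length `≤ n` (induction on `n`, multiplying on the left as in the proof of `ex` in file GtA).
(W2) hence, by `uniq`, a reduced word of length `m` is not a product of fewer than `m` elements of `A ∪ T`; (in `A ⊓ T` is excluded by `nin`).
Choose a conjugate `e' = v⁻¹ * e * v` and a reduced word for it with minimal length `n` among all conjugates and all reduced words (a conjugate in `A ⊓ T` is excluded by `h1`; `ex` gives words). `n = 1`: `e' ∈ A` is excluded by `h1`, so `e' ∈ T`: done with `u = v`, `c = e'`.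
`n ≥ 2`: `e' = g₁ ⋯ gₙ`. If `n` is odd, `g₁` and `gₙ` are in the same factor, `g₁⁻¹ e' g₁ = g₂ ⋯ g_{n-1} (gₙ g₁)`; it is a product of `n - 1` elements of `A ∪ T`, so it has a reduced word of length `≤ n - 1` (W1) (or lies in `A ⊓ T`, excluded by `h1`), contradiction to minimality. So `n` is even, the
concatenation of `N` copies of the word is reduced, so `e' ^ N` has a reduced word of length `N n`. On the other hand `e ^ (16 ^ j) = σ ^ j * e * σ⁻¹ ^ j` (induction on `j`), so `e' ^ (16 ^ j) = v⁻¹ σ ^ j e σ⁻¹ ^ j v` is a product of at most `2 ℓ + 2 + ℓ'` elements of `A ∪ T`, where `v` is a product of `ℓ`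
elements, `e` of `ℓ'` elements and `σ ^ j ∈ A ⊓ T`: bounded independently of `j`. By (W2) `16 ^ j * n ≤ 2 ℓ + 2 + ℓ'` for all `j`, contradiction.
-/

set_option autoImplicit false

namespace SU

variable {G : Type*} [Group G]

private theorem gtB_cons {A T : Subgroup G} {b : Bool} {x : G} {l : List G} :
    RW A T b (x :: l) ↔ x ∈ fam A T b ∧ x ∉ fam A T (!b) ∧ RW A T (!b) l := by
  cases b <;> exact Iff.rfl

private theorem gtB_inf {A T : Subgroup G} (b : Bool) {x : G} :
    x ∈ A ⊓ T ↔ x ∈ fam A T b ∧ x ∈ fam A T (!b) := by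
  cases b
  · rw [Subgroup.mem_inf]; exact and_comm
  · rw [Subgroup.mem_inf]; exact Iff.rfl

private theorem gtB_mulInf {A T : Subgroup G} {b : Bool} {x y : G} {l : List G} (hx : x ∈ A ⊓ T)
    (h : RW A T b (y :: l)) : RW A T b (x * y :: l) := by
  obtain ⟨hy, hy', hl⟩ := gtB_cons.1 h
  obtain ⟨hx1, hx2⟩ := (gtB_inf b).1 hx
  refine gtB_cons.2 ⟨mul_mem hx1 hy, fun h5 => hy' ?_, hl⟩
  have h6 := mul_mem (inv_mem hx2) h5
  rwa [inv_mul_cancel_left] at h6

private theorem gtB_mul {A T : Subgroup G} {x g : G} {b0 : Bool} (hx : x ∈ fam A T b0) {n : ℕ}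
    (hg : g ∈ A ⊓ T ∨ ∃ (b : Bool) (l' : List G), l' ≠ [] ∧ RW A T b l' ∧ l'.prod = g ∧ l'.length ≤ n) :
    x * g ∈ A ⊓ T ∨ ∃ (b : Bool) (l' : List G), l' ≠ [] ∧ RW A T b l' ∧ l'.prod = x * g ∧ l'.length ≤ n + 1 := by
  rcases hg with hg | ⟨b, l', hne, hR, hp, hlen⟩
  · obtain ⟨hg1, hg2⟩ := (gtB_inf b0).1 hg
    by_cases h1 : x * g ∈ fam A T (!b0)
    · exact Or.inl ((gtB_inf b0).2 ⟨mul_mem hx hg1, h1⟩)
    · refine Or.inr ⟨b0, [x * g], by simp, gtB_cons.2 ⟨mul_mem hx hg1, h1, ?_⟩, by simp, by simp⟩
      cases b0 <;> exact trivial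
  · obtain ⟨y, l1, rfl⟩ := List.exists_cons_of_ne_nil hne
    rw [List.prod_cons] at hp
    rw [List.length_cons] at hlen
    by_cases hx2 : x ∈ fam A T (!b0)
    · refine Or.inr ⟨b, x * y :: l1, by simp, gtB_mulInf ((gtB_inf b0).2 ⟨hx, hx2⟩) hR, ?_, ?_⟩
      · rw [List.prod_cons, mul_assoc, hp]
      · rw [List.length_cons]; omega
    · by_cases hb : b = b0
      · subst hb
        obtain ⟨hy, hy', hl⟩ := gtB_cons.1 hR
        by_cases hxy : x * y ∈ fam A T (!b)
        · have hI : x * y ∈ A ⊓ T := (gtB_inf b).2 ⟨mul_mem hx hy, hxy⟩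
          rcases l1 with _ | ⟨z, l2⟩
          · left
            rw [← hp, List.prod_nil, mul_one]
            exact hI
          · refine Or.inr ⟨!b, x * y * z :: l2, by simp, gtB_mulInf hI hl, ?_, ?_⟩
            · rw [List.prod_cons, ← hp, List.prod_cons]
              group
            · rw [List.length_cons] at hlen ⊢
              omega
        · refine Or.inr ⟨b, x * y :: l1, by simp, gtB_cons.2 ⟨mul_mem hx hy, hxy, hl⟩, ?_, ?_⟩
          · rw [List.prod_cons, mul_assoc, hp]
          · rw [List.length_cons]; omega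
      · have hb' : b = !b0 := by
          cases b <;> cases b0 <;> simp_all
        subst hb'
        refine Or.inr ⟨b0, x :: y :: l1, by simp, gtB_cons.2 ⟨hx, hx2, hR⟩, ?_, ?_⟩
        · rw [List.prod_cons, List.prod_cons, hp]
        · rw [List.length_cons, List.length_cons]; omega

private theorem gtB_app {A T : Subgroup G} {b : Bool} {l m : List G} :
    RW A T b (l ++ m) ↔ RW A T b l ∧ RW A T (if l.length % 2 = 0 then b else !b) m := by
  induction l generalizing b with
  | nil =>
    have h0 : RW A T b ([] : List G) := by cases b <;> exact trivial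
    simp [h0]
  | cons x l ih =>
    rw [List.cons_append, gtB_cons, gtB_cons, ih, List.length_cons]
    have h1 : (if (l.length + 1) % 2 = 0 then b else !b) = (if l.length % 2 = 0 then !b else !!b) := by
      rw [Bool.not_not]
      by_cases h2 : l.length % 2 = 0
      · rw [if_pos h2, if_neg (by omega)]
      · rw [if_neg h2, if_pos (by omega)]
    rw [h1]
    tauto

private theorem gtB_mem {A T : Subgroup G} {b : Bool} {l : List G} (h : RW A T b l) : ∀ x ∈ l, x ∈ A ∨ x ∈ T := by
  induction l generalizing b with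
  | nil => intro x hx; simp at hx
  | cons y l ih =>
    obtain ⟨hy, -, hl⟩ := gtB_cons.1 h
    intro x hx
    rcases List.mem_cons.1 hx with rfl | hx
    · cases b
      · exact Or.inr hy
      · exact Or.inl hy
    · exact ih hl x hx

private theorem gtB_list {A T : Subgroup G} (nf : NFm A T) (g : G) :
    ∃ l : List G, (∀ x ∈ l, x ∈ A ∨ x ∈ T) ∧ l.prod = g := by
  rcases nf.ex g with h | ⟨b, l, -, hR, hp⟩
  · refine ⟨[g], ?_, by simp⟩
    intro x hx
    rw [List.mem_singleton.1 hx]
    exact Or.inl (Subgroup.mem_inf.1 h).1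
  · exact ⟨l, gtB_mem hR, hp⟩

private theorem gtB_rep {A T : Subgroup G} {b : Bool} {l : List G} (h : RW A T b l) (hl : l.length % 2 = 0) (N : ℕ) :
    RW A T b (List.replicate N l).flatten ∧ (List.replicate N l).flatten.prod = l.prod ^ N ∧
    (List.replicate N l).flatten.length = N * l.length := by
  induction N with
  | zero =>
    refine ⟨?_, by simp, by simp⟩
    rw [List.replicate_zero, List.flatten_nil]
    cases b <;> exact trivial
  | succ N ih =>
    obtain ⟨i1, i2, i3⟩ := ih
    rw [List.replicate_succ, List.flatten_cons]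
    refine ⟨gtB_app.2 ⟨h, ?_⟩, ?_, ?_⟩
    · rw [if_pos hl]; exact i1
    · rw [List.prod_append, i2, pow_succ']
    · rw [List.length_append, i3, Nat.succ_mul, Nat.add_comm]

theorem gtB_words {A T : Subgroup G} (nf : NFm A T) (l : List G) (hl : ∀ x ∈ l, x ∈ A ∨ x ∈ T) :
    l.prod ∈ A ⊓ T ∨ ∃ (b : Bool) (l' : List G), l' ≠ [] ∧ RW A T b l' ∧ l'.prod = l.prod ∧ l'.length ≤ l.length := by
  induction l with
  | nil =>
    left
    rw [List.prod_nil]
    exact one_mem _
  | cons x l ih =>
    have h1 := ih fun y hy => hl y (List.mem_cons_of_mem _ hy)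
    rw [List.prod_cons, List.length_cons]
    rcases hl x List.mem_cons_self with hx | hx
    · exact gtB_mul (b0 := true) hx h1
    · exact gtB_mul (b0 := false) hx h1

theorem gtB {A T : Subgroup G} (nf : NFm A T) {σ e : G} (hσ : σ ∈ A ⊓ T) (he : σ * e * σ⁻¹ = e ^ 16)
    (h1 : ∀ v : G, v⁻¹ * e * v ∉ A) : ∃ u c : G, c ∈ T ∧ e = u * c * u⁻¹ := by
  classical
  have hex : ∃ n : ℕ, ∃ (v : G) (b : Bool) (l : List G), l ≠ [] ∧ RW A T b l ∧ l.prod = v⁻¹ * e * v ∧ l.length = n := by
    rcases nf.ex e with h | ⟨b, l, hne, hR, hp⟩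
    · refine absurd (Subgroup.mem_inf.1 h).1 ?_
      have h2 := h1 1
      rwa [inv_one, one_mul, mul_one] at h2
    · exact ⟨l.length, 1, b, l, hne, hR, by rw [hp, inv_one, one_mul, mul_one], rfl⟩
  obtain ⟨v, b, l, hne, hR, hp, hlen⟩ := Nat.find_spec hex
  have hmin : ∀ (v' : G) (b' : Bool) (l' : List G), l' ≠ [] → RW A T b' l' → l'.prod = v'⁻¹ * e * v' →
      l.length ≤ l'.length := by
    intro v' b' l' hne' hR' hp'
    rw [hlen]
    exact Nat.find_min' hex ⟨v', b', l', hne', hR', hp', rfl⟩
  clear hlen
  obtain ⟨x, l1, rfl⟩ := List.exists_cons_of_ne_nil hne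
  obtain ⟨hx, hx', hl1⟩ := gtB_cons.1 hR
  rcases Nat.eq_zero_or_pos l1.length with h0 | h0
  · have hl0 : l1 = [] := List.length_eq_zero_iff.1 h0
    subst hl0
    rw [List.prod_cons, List.prod_nil, mul_one] at hp
    cases b with
    | true =>
      refine absurd ?_ (h1 v)
      rw [← hp]
      exact hx
    | false =>
      refine ⟨v, x, hx, ?_⟩
      rw [hp]
      group
  · rcases Nat.even_or_odd (x :: l1).length with hev | hodd
    · exfalso
      have hev2 : (x :: l1).length % 2 = 0 := Nat.even_iff.1 hev
      obtain ⟨lv, hlv, hpv⟩ := gtB_list nf v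
      obtain ⟨le, hle, hpe⟩ := gtB_list nf e
      have hconj : ∀ j : ℕ, e ^ 16 ^ j = σ ^ j * e * (σ ^ j)⁻¹ := by
        intro j
        induction j with
        | zero => simp
        | succ j ih =>
          rw [pow_succ 16 j, pow_mul, ih, conj_pow, ← he, pow_succ]
          group
      obtain ⟨K, hK⟩ : ∃ K : ℕ, K = lv.length + (1 + (le.length + (1 + lv.length))) := ⟨_, rfl⟩
      obtain ⟨r1, r2, r3⟩ := gtB_rep hR hev2 (16 ^ K)
      have hσK : σ ^ K ∈ A ⊓ T := pow_mem hσ K
      have hσK' : (σ ^ K)⁻¹ ∈ A ⊓ T := inv_mem hσK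
      have hw := gtB_words nf ((lv.reverse.map fun y => y⁻¹) ++ ([σ ^ K] ++ (le ++ ([(σ ^ K)⁻¹] ++ lv)))) (by
        intro y hy
        rw [List.mem_append, List.mem_append, List.mem_append, List.mem_append, List.mem_map] at hy
        rcases hy with ⟨z, hz, rfl⟩ | hy | hy | hy | hy
        · rcases hlv z (List.mem_reverse.1 hz) with h5 | h5
          · exact Or.inl (inv_mem h5)
          · exact Or.inr (inv_mem h5)
        · rw [List.mem_singleton.1 hy]
          exact Or.inl (Subgroup.mem_inf.1 hσK).1
        · exact hle y hy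
        · rw [List.mem_singleton.1 hy]
          exact Or.inl (Subgroup.mem_inf.1 hσK').1
        · exact hlv y hy)
      have hprod : ((lv.reverse.map fun y => y⁻¹) ++ ([σ ^ K] ++ (le ++ ([(σ ^ K)⁻¹] ++ lv)))).prod =
          (List.replicate (16 ^ K) (x :: l1)).flatten.prod := by
        have h6 : (lv.reverse.map fun y => y⁻¹).prod = v⁻¹ := by
          rw [← hpv, List.prod_inv_reverse, List.map_reverse]
        rw [List.prod_append, List.prod_append, List.prod_append, List.prod_append, h6, hpe, hpv,
          List.prod_singleton, List.prod_singleton, r2, hp]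
        have h7 : (v⁻¹ * e * v) ^ 16 ^ K = v⁻¹ * e ^ 16 ^ K * v := by
          have h8 := conj_pow (i := 16 ^ K) (a := v⁻¹) (b := e)
          rwa [inv_inv] at h8
        rw [h7, hconj K]
        group
      have hlenw : ((lv.reverse.map fun y => y⁻¹) ++ ([σ ^ K] ++ (le ++ ([(σ ^ K)⁻¹] ++ lv)))).length = K := by
        rw [List.length_append, List.length_append, List.length_append, List.length_append, List.length_map,
          List.length_reverse, List.length_singleton, List.length_singleton, hK]
      have hne2 : (List.replicate (16 ^ K) (x :: l1)).flatten ≠ [] := by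
        intro h9
        have h10 := congrArg List.length h9
        rw [r3, List.length_nil, List.length_cons] at h10
        rcases Nat.mul_eq_zero.1 h10 with h11 | h11
        · exact absurd h11 (pow_pos (by norm_num) K).ne'
        · omega
      rw [hprod, hlenw] at hw
      rcases hw with hw | ⟨b', l', hne', hR', hp', hlen'⟩
      · exact nf.nin b _ hne2 r1 hw
      · have h12 := (nf.uniq b _ b' l' hne2 r1 hR' hp'.symm).2
        rw [r3, List.length_cons] at h12
        have h13 : K < 16 ^ K := Nat.lt_pow_self (by norm_num)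
        have h14 : 16 ^ K * 1 ≤ 16 ^ K * (l1.length + 1) := Nat.mul_le_mul_left _ (by omega)
        omega
    · exfalso
      have hl1ne : l1 ≠ [] := by
        intro h5
        rw [h5] at h0
        simp at h0
      obtain ⟨l2, z, rfl⟩ : ∃ (l2 : List G) (z : G), l1 = l2 ++ [z] :=
        ⟨l1.dropLast, l1.getLast hl1ne, (List.dropLast_append_getLast hl1ne).symm⟩
      have hw := gtB_words nf (l2 ++ [z * x]) (by
        intro y hy
        rcases List.mem_append.1 hy with hy | hy
        · exact gtB_mem (gtB_app.1 hl1).1 y hy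
        · rw [List.mem_singleton.1 hy]
          have hz := (gtB_cons.1 (gtB_app.1 hl1).2).1
          have hfl : (if l2.length % 2 = 0 then !b else !!b) = b := by
            rw [List.length_cons, List.length_append, List.length_singleton] at hodd
            have h5 := Nat.odd_iff.1 hodd
            rw [if_neg (by omega), Bool.not_not]
          rw [hfl] at hz
          have h6 := mul_mem hz hx
          cases b
          · exact Or.inr h6
          · exact Or.inl h6)
      have hprod : (l2 ++ [z * x]).prod = (v * x)⁻¹ * e * (v * x) := by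
        have h7 : (v * x)⁻¹ * e * (v * x) = x⁻¹ * (v⁻¹ * e * v) * x := by group
        rw [h7, ← hp, List.prod_cons, List.prod_append, List.prod_append, List.prod_singleton, List.prod_singleton]
        group
      rcases hw with hw | ⟨b', l', hne', hR', hp', hlen'⟩
      · rw [hprod] at hw
        exact h1 (v * x) (Subgroup.mem_inf.1 hw).1
      · rw [hprod] at hp'
        have h8 := hmin (v * x) b' l' hne' hR' hp'
        rw [List.length_cons, List.length_append, List.length_singleton] at h8
        rw [List.length_append, List.length_singleton] at hlen'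
        omega

end SU
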