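import Pool.Agent.Lib.MP_374dcb_al.ADefs

/-!
# JOB GtC: the fixed point argument

Given `e = u c u⁻¹`, `c ∈ T`. Choose such a pair `(u,c)` and a word `l` (a list, possibly empty) with `u = l.prod`, `l = []` or (`RW A T b l` and the last letter of `l` is in `A \ T`), with `l.length` minimal. [Existence: `nf.ex u`: if `u ∈ A ⊓ T` then `e = u c u⁻¹ ∈ T`, take `l = []`, `c' = e`.
Otherwise `u = l.prod`; if the last letter `t` is in `T`: replace `u` by `u t⁻¹` and `c` by `t c t⁻¹`, the word becomes shorter and ends in `A \ T` (or is empty).] If `l = []`: `e = c ∈ T`, done. Suppose `l = u₁ :: ⋯ ≠ []`, last letter `u_r ∈ A \ T`. We derive a contradiction.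
(1) Let `x := u⁻¹ σ u`; `x c x⁻¹ = u⁻¹ σ e σ⁻¹ u = u⁻¹ e ^ 16 u = c ^ 16`. Claim `x ∈ T`. Otherwise `x ∉ A ⊓ T`, `x` = product of a reduced word, which is not a single letter of `T`; write `x = y a t` with `t ∈ T`, `a ∈ A \ T`, (word of `y`) ++ [a] reduced (if the last letter is in `A` take `t = 1`). `c₁ := t c t⁻¹ ∈ T`, `c₁ ∉ A` by `h1`
 (`c₁ = (u t⁻¹)⁻¹ e (u t⁻¹)`). So (word of `y`) ++ [a, c₁, a⁻¹] ++ (reversed inverted word of `y`) is a reduced word of length `≥ 3` with product `c ^ 16 ∈ T`: by `nin` and `uniq` (compare with the word `[c ^ 16]`) a contradiction. (Reversal: the reverse of the list of inverses of a reduced word is reduced.)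
(2) `σ u = u x`, `x ∈ T`. `(σ u₁) :: l₁` (`l = u₁ :: l₁`) is a reduced word (`σ ∈ A ⊓ T`) of length `r`. If `x ∉ A` then `l ++ [x]` is a reduced word of length `r + 1` for the same element: contradiction to `uniq`. So `x ∈ A ⊓ T`.
(3) `y₁ := u₁⁻¹ σ u₁` satisfies `y₁ * l₁.prod = l₁.prod * x`. If `l₁ = []`: `y₁ = x ∈ A ⊓ T`. Otherwise, if `y₁ ∉ A ⊓ T` then `y₁ :: l₁` is reduced of length `r` and the right side is the reduced word `l₁` with the last letter multiplied by `x`, of length `r - 1`: contradiction. So `y₁ ∈ A ⊓ T` in all cases.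
(4) If `u₁ ∈ A`: `h3` gives `u₁ ∈ T`, contradiction to reducedness.
(5) If `u₁ ∈ T`: then `l₁ ≠ []` (the last letter is in `A`), `l₁ = u₂ :: l₂`, `u₂ ∈ A \ T`. `h2` (`t = u₁`): `c₀ ∈ T` commuting with `σ`, `h := c₀⁻¹ u₁ ∈ A` (so `∈ A ⊓ T`). `w := h u₂ ∈ A \ T`. `y₁ = u₁⁻¹ σ u₁ = h⁻¹ σ h`, and (3): `h⁻¹ σ h u₂ l₂.prod = u₂ l₂.prod x`, so `(w⁻¹ σ w) * l₂.prod = l₂.prod * x`. As in (3), `w⁻¹ σ w ∈ A ⊓ T`
 (it is in `A`; if `l₂ = []` it equals `x`; otherwise compare lengths), so `h3`: `w ∈ T`, contradiction.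
-/

set_option autoImplicit false

namespace SU

variable {G : Type*} [Group G]

/-- the type of the letter after `n` letters -/
private def GtC_nt (b : Bool) (n : ℕ) : Bool := if n % 2 = 0 then b else !b

private theorem GtC_nt_succ (b : Bool) (n : ℕ) : GtC_nt b (n + 1) = GtC_nt (!b) n := by
  unfold GtC_nt
  rcases Nat.mod_two_eq_zero_or_one n with h | h
  · have h1 : (n + 1) % 2 = 1 := by omega
    simp [h, h1]
  · have h1 : (n + 1) % 2 = 0 := by omega
    simp [h, h1]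

private theorem GtC_nt_nt (b : Bool) (n : ℕ) : GtC_nt (!(GtC_nt (!b) n)) n = b := by
  unfold GtC_nt
  rcases Nat.mod_two_eq_zero_or_one n with h | h <;> simp [h]

/-- letters of the two types -/
private def GtC_ty (A T : Subgroup G) (b : Bool) (x : G) : Prop :=
  match b with
  | true => x ∈ A ∧ x ∉ T
  | false => x ∈ T ∧ x ∉ A

private theorem GtC_cons {A T : Subgroup G} {b : Bool} {x : G} {l : List G} :
    RW A T b (x :: l) ↔ GtC_ty A T b x ∧ RW A T (!b) l := by
  cases b <;> simp [RW, GtC_ty, and_assoc]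

private theorem GtC_nil (A T : Subgroup G) (b : Bool) : RW A T b [] := by
  cases b <;> simp [RW]

private theorem GtC_app {A T : Subgroup G} {l m : List G} {b : Bool} :
    RW A T b (l ++ m) ↔ RW A T b l ∧ RW A T (GtC_nt b l.length) m := by
  induction l generalizing b with
  | nil => simp [GtC_nil, GtC_nt]
  | cons x l ih =>
    rw [List.cons_append, GtC_cons, GtC_cons, ih, List.length_cons, GtC_nt_succ, and_assoc]

private theorem GtC_inv {A T : Subgroup G} {b : Bool} {x : G} (h : GtC_ty A T b x) : GtC_ty A T b x⁻¹ := by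
  cases b <;> simpa [GtC_ty] using h

private theorem GtC_ml {A T : Subgroup G} {b : Bool} {x h : G} (hh : h ∈ A ⊓ T) (hx : GtC_ty A T b x) :
    GtC_ty A T b (h * x) := by
  obtain ⟨h1, h2⟩ := Subgroup.mem_inf.1 hh
  cases b
  · exact ⟨T.mul_mem h2 hx.1, fun h3 => hx.2 ((A.mul_mem_cancel_left h1).1 h3)⟩
  · exact ⟨A.mul_mem h1 hx.1, fun h3 => hx.2 ((T.mul_mem_cancel_left h2).1 h3)⟩

private theorem GtC_mr {A T : Subgroup G} {b : Bool} {x h : G} (hh : h ∈ A ⊓ T) (hx : GtC_ty A T b x) :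
    GtC_ty A T b (x * h) := by
  obtain ⟨h1, h2⟩ := Subgroup.mem_inf.1 hh
  cases b
  · exact ⟨T.mul_mem hx.1 h2, fun h3 => hx.2 ((A.mul_mem_cancel_right h1).1 h3)⟩
  · exact ⟨A.mul_mem hx.1 h1, fun h3 => hx.2 ((T.mul_mem_cancel_right h2).1 h3)⟩

theorem RW_append {A T : Subgroup G} {b : Bool} {l m : List G} (h : RW A T b l)
    (h' : RW A T (if l.length % 2 = 0 then b else !b) m) : RW A T b (l ++ m) :=
  GtC_app.2 ⟨h, h'⟩

private theorem GtC_rev {A T : Subgroup G} {b : Bool} {l : List G} (h : RW A T b l) :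
    RW A T (!(GtC_nt b l.length)) (l.reverse.map fun x => x⁻¹) := by
  induction l generalizing b with
  | nil => exact GtC_nil _ _ _
  | cons x l ih =>
    rw [GtC_cons] at h
    rw [List.reverse_cons, List.map_append, List.length_cons, GtC_nt_succ, GtC_app]
    refine ⟨ih h.2, ?_⟩
    rw [List.length_map, List.length_reverse, GtC_nt_nt, List.map_cons, List.map_nil, GtC_cons]
    exact ⟨GtC_inv h.1, GtC_nil _ _ _⟩

theorem RW_rev {A T : Subgroup G} {b : Bool} {l : List G} (h : RW A T b l) :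
    RW A T (if l.length % 2 = 0 then !b else b) (l.reverse.map fun x => x⁻¹) := by
  have h1 := GtC_rev h
  have h2 : (!(GtC_nt b l.length)) = (if l.length % 2 = 0 then !b else b) := by
    unfold GtC_nt
    split_ifs <;> simp
  rw [h2] at h1
  exact h1

private theorem GtC_prod_rev (l : List G) : (l.reverse.map fun x => x⁻¹).prod = l.prod⁻¹ := by
  induction l with
  | nil => simp
  | cons x l ih => rw [List.reverse_cons, List.map_append, List.prod_append, ih]; simp

/-- a nonempty word can be multiplied from the right with an element of `A ⊓ T` -/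
private theorem GtC_last {A T : Subgroup G} {b : Bool} {l : List G} (hne : l ≠ []) (h : RW A T b l) {x : G}
    (hx : x ∈ A ⊓ T) : ∃ m : List G, m.length = l.length ∧ RW A T b m ∧ m.prod = l.prod * x := by
  induction l generalizing b with
  | nil => exact absurd rfl hne
  | cons y l ih =>
    rw [GtC_cons] at h
    by_cases hl : l = []
    · subst hl
      refine ⟨[y * x], rfl, ?_, by simp⟩
      rw [GtC_cons]
      exact ⟨GtC_mr hx h.1, GtC_nil _ _ _⟩
    · obtain ⟨m, m1, m2, m3⟩ := ih hl h.2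
      refine ⟨y :: m, by simp [m1], ?_, ?_⟩
      · rw [GtC_cons]
        exact ⟨h.1, m2⟩
      · rw [List.prod_cons, List.prod_cons, m3, mul_assoc]

/-- every element is the product of a word which does not end in `T` and of an element of `T` -/
private theorem GtC_ex {A T : Subgroup G} (nf : NFm A T) (g : G) : ∃ (b : Bool) (l : List G) (t : G),
    RW A T b l ∧ GtC_nt b l.length = false ∧ t ∈ T ∧ g = l.prod * t := by
  rcases nf.ex g with h | ⟨b, l, hne, hl, hg⟩
  · exact ⟨false, [], g, GtC_nil _ _ _, rfl, (Subgroup.mem_inf.1 h).2, by simp⟩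
  · by_cases hn : GtC_nt b l.length = false
    · exact ⟨b, l, 1, hl, hn, T.one_mem, by rw [mul_one, hg]⟩
    · obtain ⟨m, t, rfl⟩ : ∃ (m : List G) (t : G), l = m ++ [t] :=
        ⟨l.dropLast, l.getLast hne, (List.dropLast_append_getLast hne).symm⟩
      have h1 := GtC_app.1 hl
      have h2 : GtC_nt b m.length = false := by
        rw [List.length_append, List.length_singleton] at hn
        unfold GtC_nt at hn ⊢
        rcases Nat.mod_two_eq_zero_or_one m.length with h | h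
        · have h3 : (m.length + 1) % 2 = 1 := by omega
          simpa [h, h3] using hn
        · have h3 : (m.length + 1) % 2 = 0 := by omega
          simpa [h, h3] using hn
      rw [h2, GtC_cons] at h1
      exact ⟨b, m, t, h1.1, h2, h1.2.1.1, by rw [← hg, List.prod_append, List.prod_singleton]⟩

/-- elements of a factor which are conjugate to an element of `A ⊓ T` by a reduced word -/
private theorem GtC_fix {A T : Subgroup G} (nf : NFm A T) {b : Bool} {l : List G} (hl : RW A T b l) {x y : G}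
    (hx : x ∈ A ⊓ T) (hy : (b = true → y ∈ T) ∧ (b = false → y ∈ A)) (h : y * l.prod = l.prod * x) : y ∈ A ⊓ T := by
  by_cases hne : l = []
  · subst hne
    rw [List.prod_nil, mul_one, one_mul] at h
    rw [h]
    exact hx
  · by_contra hy0
    obtain ⟨m, m1, m2, m3⟩ := GtC_last hne hl hx
    have h1 : RW A T (!b) (y :: l) := by
      rw [GtC_cons, Bool.not_not]
      refine ⟨?_, hl⟩
      cases b
      · exact ⟨hy.2 rfl, fun h2 => hy0 (Subgroup.mem_inf.2 ⟨hy.2 rfl, h2⟩)⟩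
      · exact ⟨hy.1 rfl, fun h2 => hy0 (Subgroup.mem_inf.2 ⟨h2, hy.1 rfl⟩)⟩
    have h2 := (nf.uniq (!b) (y :: l) b m (List.cons_ne_nil _ _) h1 m2 (by rw [List.prod_cons, h, m3])).2
    rw [List.length_cons, m1] at h2
    omega

theorem gtC {A T : Subgroup G} (nf : NFm A T) {σ e : G} (hσ : σ ∈ A ⊓ T) (he : σ * e * σ⁻¹ = e ^ 16)
    (h1 : ∀ v : G, v⁻¹ * e * v ∉ A)
    (h2 : ∀ t ∈ T, t⁻¹ * σ * t ∈ A → ∃ c ∈ T, c * σ = σ * c ∧ c⁻¹ * t ∈ A)
    (h3 : ∀ w ∈ A, w⁻¹ * σ * w ∈ T → w ∈ T) {u c : G} (hc : c ∈ T) (hu : e = u * c * u⁻¹) : e ∈ T := by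
  obtain ⟨hσA, hσT⟩ := Subgroup.mem_inf.1 hσ
  obtain ⟨b, l, t, hl, hnt, ht, hut⟩ := GtC_ex nf u
  -- replace `u` by the product of the word
  obtain ⟨v, hv⟩ : ∃ v : G, v = l.prod := ⟨_, rfl⟩
  obtain ⟨d, hd⟩ : ∃ d : G, d = t * c * t⁻¹ := ⟨_, rfl⟩
  have hdT : d ∈ T := by rw [hd]; exact T.mul_mem (T.mul_mem ht hc) (T.inv_mem ht)
  have hev : e = v * d * v⁻¹ := by rw [hu, hut, hd, hv]; group
  have hdA : ∀ g : G, g * d * g⁻¹ ∉ A := by
    intro g hg
    apply h1 (v * g⁻¹)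
    have h4 : (v * g⁻¹)⁻¹ * e * (v * g⁻¹) = g * d * g⁻¹ := by rw [hev]; group
    rw [h4]
    exact hg
  by_cases hne : l = []
  · rw [hne, List.prod_nil] at hv
    rw [hev, hv, one_mul, inv_one, mul_one]
    exact hdT
  exfalso
  obtain ⟨x, hx⟩ : ∃ x : G, x = v⁻¹ * σ * v := ⟨_, rfl⟩
  have hxd : x * d * x⁻¹ = d ^ 16 := by
    have h4 : d = v⁻¹ * e * v := by rw [hev]; group
    have h5 : d ^ 16 = v⁻¹ * e ^ 16 * v := by
      have h6 := conj_pow (i := 16) (a := v⁻¹) (b := e)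
      rw [inv_inv] at h6
      rw [h4, h6]
    rw [h5, ← he, hx, h4]
    group
  -- step 1
  have hxT : x ∈ T := by
    obtain ⟨b', m, s, hm, hmn, hs, hxs⟩ := GtC_ex nf x
    have hsd : s * d * s⁻¹ ∈ T := T.mul_mem (T.mul_mem hs hdT) (T.inv_mem hs)
    have h4 : RW A T b' (m ++ ((s * d * s⁻¹) :: (m.reverse.map fun x => x⁻¹))) := by
      rw [GtC_app, hmn, GtC_cons]
      refine ⟨hm, ⟨hsd, hdA s⟩, ?_⟩
      have h5 := GtC_rev hm
      rw [hmn] at h5
      exact h5
    have h5 : RW A T false [d ^ 16] := by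
      rw [GtC_cons]
      refine ⟨⟨T.pow_mem hdT 16, ?_⟩, GtC_nil _ _ _⟩
      rw [← hxd]
      exact hdA x
    have h6 : (m ++ ((s * d * s⁻¹) :: (m.reverse.map fun x => x⁻¹))).prod = [d ^ 16].prod := by
      rw [List.prod_append, List.prod_cons, GtC_prod_rev, List.prod_singleton, ← hxd, hxs]
      group
    have h7 := (nf.uniq _ _ _ _ (by simp) h4 h5 h6).2
    rw [List.length_append, List.length_cons, List.length_map, List.length_reverse, List.length_singleton] at h7
    have h8 : m = [] := List.length_eq_zero_iff.1 (by omega)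
    rw [hxs, h8, List.prod_nil, one_mul]
    exact hs
  obtain ⟨u1, l1, rfl⟩ := List.exists_cons_of_ne_nil hne
  have hl' := GtC_cons.1 hl
  -- step 2
  have hxA : x ∈ A := by
    by_contra hxA
    have h4 : RW A T b ((u1 :: l1) ++ [x]) := by
      rw [GtC_app, hnt]
      exact ⟨hl, GtC_cons.2 ⟨⟨hxT, hxA⟩, GtC_nil _ _ _⟩⟩
    have h5 : RW A T b ((σ * u1) :: l1) := GtC_cons.2 ⟨GtC_ml hσ hl'.1, hl'.2⟩
    have h6 : ((u1 :: l1) ++ [x]).prod = ((σ * u1) :: l1).prod := by
      rw [List.prod_append, ← hv, List.prod_singleton, hx, List.prod_cons, mul_assoc σ, ← List.prod_cons, ← hv]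
      group
    have h7 := (nf.uniq _ _ _ _ (by simp) h4 h5 h6).2
    simp at h7
  have hx2 : x ∈ A ⊓ T := Subgroup.mem_inf.2 ⟨hxA, hxT⟩
  have hv1 : v = u1 * l1.prod := by rw [hv, List.prod_cons]
  have h4 : u1⁻¹ * σ * u1 * l1.prod = l1.prod * x := by
    rw [hx, hv1]
    group
  cases b
  · -- the first letter is in `T`
    obtain ⟨⟨hu1T, hu1A⟩, hl1⟩ := hl'
    have hy : u1⁻¹ * σ * u1 ∈ A ⊓ T := GtC_fix nf hl1 hx2
      ⟨fun _ => T.mul_mem (T.mul_mem (T.inv_mem hu1T) hσT) hu1T, fun h => absurd h (by simp)⟩ h4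
    have hl1n : l1 ≠ [] := by
      rintro rfl
      simp [GtC_nt] at hnt
    obtain ⟨u2, l2, rfl⟩ := List.exists_cons_of_ne_nil hl1n
    obtain ⟨⟨hu2A, hu2T⟩, hl2⟩ := GtC_cons.1 hl1
    obtain ⟨c0, hc0T, hc0σ, hc0A⟩ := h2 u1 hu1T (Subgroup.mem_inf.1 hy).1
    obtain ⟨h, hh⟩ : ∃ h : G, h = c0⁻¹ * u1 := ⟨_, rfl⟩
    have hhA : h ∈ A := by rw [hh]; exact hc0A
    have hhT : h ∈ T := by rw [hh]; exact T.mul_mem (T.inv_mem hc0T) hu1T
    have hyh : u1⁻¹ * σ * u1 = h⁻¹ * σ * h := by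
      have h5 : h⁻¹ * σ * h = u1⁻¹ * (c0 * σ) * c0⁻¹ * u1 := by rw [hh]; group
      rw [h5, hc0σ]
      group
    have hwA : h * u2 ∈ A := A.mul_mem hhA hu2A
    have h5 : (h * u2)⁻¹ * σ * (h * u2) * l2.prod = l2.prod * x := by
      rw [List.prod_cons, hyh] at h4
      have h6 : (h * u2)⁻¹ * σ * (h * u2) * l2.prod = u2⁻¹ * (h⁻¹ * σ * h * (u2 * l2.prod)) := by group
      rw [h6, h4]
      group
    have h6 : (h * u2)⁻¹ * σ * (h * u2) ∈ A ⊓ T := GtC_fix nf hl2 hx2
      ⟨fun h => absurd h (by simp), fun _ => A.mul_mem (A.mul_mem (A.inv_mem hwA) hσA) hwA⟩ h5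
    have h7 := h3 _ hwA (Subgroup.mem_inf.1 h6).2
    exact hu2T ((T.mul_mem_cancel_left hhT).1 h7)
  · -- the first letter is in `A`
    obtain ⟨⟨hu1A, hu1T⟩, hl1⟩ := hl'
    have hy : u1⁻¹ * σ * u1 ∈ A ⊓ T := GtC_fix nf hl1 hx2
      ⟨fun h => absurd h (by simp), fun _ => A.mul_mem (A.mul_mem (A.inv_mem hu1A) hσA) hu1A⟩ h4
    exact hu1T (h3 u1 hu1A (Subgroup.mem_inf.1 hy).2)

end SU
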