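import Pool.Agent.Lib.MP_374dcb_al.ADefs

/-!
# JOB GtD: from the amalgam of three subgroups to the pushout of two

Let `Γ` be a group with subgroups `G 0, G 1, G 2` and suppose `Amalg.toGroup G` is bijective. Put `A = G 0`, `T = G 1 ⊔ G 2`, `H = (G 0 ⊓ G 1) ⊔ (G 0 ⊓ G 2)`. Then `canon : PushoutI → Γ` is injective and `A ⊔ T = ⊤`.
Define `ψ : Amalg G →* PushoutI (phi hA hT)` by `QuotientGroup.lift` of `CoprodI.lift` of the homomorphisms `G 0 → PushoutI` (`of true`), `G 1 → PushoutI`, `G 2 → PushoutI` (`(of false).comp (Subgroup.inclusion ..)`). Relations: for `x ∈ G i`, `y ∈ G j`, `i ≠ j`, with the same value `g` in `Γ`: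
`(i,j) = (0,1)`: `g ∈ G 0 ⊓ G 1 ≤ H`: `of true x = base g = of false y` (`of_apply_eq_base`); the same for `(0,2)`, `(1,0)`, `(2,0)`; `(1,2)`, `(2,1)`: both are `of false g`.
Let `τ := ψ ∘ (Amalg.toGroup G)⁻¹ : Γ → PushoutI` (homomorphism; `MulEquiv.ofBijective`). `τ (canon p) = p` for all `p`: two homomorphisms from the pushout (`PushoutI.hom_ext`, or `induction_on`) which agree on `of true a` (`a ∈ G 0`: `(Amalg.toGroup)⁻¹ a = ` class of `CoprodI.of a`) and on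
`of false t`, `t ∈ T`: both `t ↦ τ t` and `t ↦ of false t` are homomorphisms on `T = G 1 ⊔ G 2`, they agree on `G 1` and `G 2`, hence on the generated subgroup (`Subgroup.closure_induction`, `MonoidHom.eqOn_closure`..). So `canon` has a left inverse and is injective.
`A ⊔ T = ⊤`: `Amalg.toGroup G` is surjective, and its range is contained in the subgroup generated by the `G i` (`CoprodI.induction_on`, `QuotientGroup.mk_surjective`).
-/

set_option autoImplicit false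

namespace SU

variable {Γ : Type*} [Group Γ]

theorem gtD_hA (G : Fin 3 → Subgroup Γ) : (G 0 ⊓ G 1) ⊔ (G 0 ⊓ G 2) ≤ G 0 :=
  sup_le inf_le_left inf_le_left

theorem gtD_hT (G : Fin 3 → Subgroup Γ) : (G 0 ⊓ G 1) ⊔ (G 0 ⊓ G 2) ≤ G 1 ⊔ G 2 :=
  sup_le_sup inf_le_right inf_le_right

private abbrev GtDP (G : Fin 3 → Subgroup Γ) : Type _ := Monoid.PushoutI (phi (gtD_hA G) (gtD_hT G))

private noncomputable def GtD_gens (G : Fin 3 → Subgroup Γ) : ∀ i : Fin 3, ↥(G i) →* GtDP G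
  | 0 => Monoid.PushoutI.of (φ := phi (gtD_hA G) (gtD_hT G)) true
  | 1 => (Monoid.PushoutI.of (φ := phi (gtD_hA G) (gtD_hT G)) false).comp
      (Subgroup.inclusion (le_sup_left : G 1 ≤ G 1 ⊔ G 2))
  | 2 => (Monoid.PushoutI.of (φ := phi (gtD_hA G) (gtD_hT G)) false).comp
      (Subgroup.inclusion (le_sup_right : G 2 ≤ G 1 ⊔ G 2))

private theorem GtD_key (G : Fin 3 → Subgroup Γ) {g : Γ} (hA : g ∈ G 0) (hT : g ∈ G 1 ⊔ G 2)
    (hH : g ∈ (G 0 ⊓ G 1) ⊔ (G 0 ⊓ G 2)) :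
    (Monoid.PushoutI.of (φ := phi (gtD_hA G) (gtD_hT G)) true (⟨g, hA⟩ : ↥(fam (G 0) (G 1 ⊔ G 2) true)) : GtDP G) =
      Monoid.PushoutI.of (φ := phi (gtD_hA G) (gtD_hT G)) false (⟨g, hT⟩ : ↥(fam (G 0) (G 1 ⊔ G 2) false)) := by
  have h1 := Monoid.PushoutI.of_apply_eq_base (phi (gtD_hA G) (gtD_hT G)) true
    (⟨g, hH⟩ : ↥((G 0 ⊓ G 1) ⊔ (G 0 ⊓ G 2)))
  have h2 := Monoid.PushoutI.of_apply_eq_base (phi (gtD_hA G) (gtD_hT G)) false
    (⟨g, hH⟩ : ↥((G 0 ⊓ G 1) ⊔ (G 0 ⊓ G 2)))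
  exact h1.trans h2.symm

private theorem GtD_rel (G : Fin 3 → Subgroup Γ) (i j : Fin 3) (x : ↥(G i)) (y : ↥(G j)) (hij : i ≠ j)
    (hxy : (x : Γ) = (y : Γ)) : GtD_gens G i x = GtD_gens G j y := by
  obtain ⟨x, hx⟩ := x
  obtain ⟨y, hy⟩ := y
  have hxy' : x = y := hxy
  subst hxy'
  have key1 : ∀ (h0 : x ∈ G 0) (h1 : x ∈ G 1), GtD_gens G 0 ⟨x, h0⟩ = GtD_gens G 1 ⟨x, h1⟩ := fun h0 h1 =>
    GtD_key G h0 (Subgroup.mem_sup_left h1) (Subgroup.mem_sup_left ⟨h0, h1⟩)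
  have key2 : ∀ (h0 : x ∈ G 0) (h1 : x ∈ G 2), GtD_gens G 0 ⟨x, h0⟩ = GtD_gens G 2 ⟨x, h1⟩ := fun h0 h1 =>
    GtD_key G h0 (Subgroup.mem_sup_right h1) (Subgroup.mem_sup_right ⟨h0, h1⟩)
  match i, j, hx, hy, hij with
  | 0, 0, _, _, h => exact absurd rfl h
  | 1, 1, _, _, h => exact absurd rfl h
  | 2, 2, _, _, h => exact absurd rfl h
  | 0, 1, hx, hy, _ => exact key1 hx hy
  | 1, 0, hx, hy, _ => exact (key1 hy hx).symm
  | 0, 2, hx, hy, _ => exact key2 hx hy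
  | 2, 0, hx, hy, _ => exact (key2 hy hx).symm
  | 1, 2, _, _, _ => rfl
  | 2, 1, _, _, _ => rfl

private noncomputable def GtD_psi (G : Fin 3 → Subgroup Γ) : Amalg G →* GtDP G :=
  QuotientGroup.lift (Subgroup.normalClosure (amalgRel G)) (Monoid.CoprodI.lift (GtD_gens G)) (by
    have h : Subgroup.normalClosure (amalgRel G) ≤ (Monoid.CoprodI.lift (GtD_gens G)).ker := by
      refine Subgroup.normalClosure_le_normal ?_
      rintro w ⟨i, j, x, y, hij, hxy, rfl⟩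
      show Monoid.CoprodI.lift (GtD_gens G) _ = 1
      rw [map_mul, map_inv, Monoid.CoprodI.lift_of, Monoid.CoprodI.lift_of, GtD_rel G i j x y hij hxy,
        mul_inv_cancel]
    exact h)

private noncomputable def GtD_tau (G : Fin 3 → Subgroup Γ) (h : Function.Bijective (Amalg.toGroup G)) :
    Γ →* GtDP G :=
  (GtD_psi G).comp (MulEquiv.ofBijective (Amalg.toGroup G) h).symm.toMonoidHom

private theorem GtD_tau_of (G : Fin 3 → Subgroup Γ) (h : Function.Bijective (Amalg.toGroup G)) (i : Fin 3)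
    (x : ↥(G i)) : GtD_tau G h (x : Γ) = GtD_gens G i x := by
  have h1 : (MulEquiv.ofBijective (Amalg.toGroup G) h).symm (x : Γ) =
      (QuotientGroup.mk (Monoid.CoprodI.of (M := fun i => ↥(G i)) x) : Amalg G) := by
    rw [MulEquiv.symm_apply_eq]
    show (x : Γ) = Monoid.CoprodI.lift (fun i => (G i).subtype) (Monoid.CoprodI.of (M := fun i => ↥(G i)) x)
    rw [Monoid.CoprodI.lift_of]
    rfl
  show GtD_psi G ((MulEquiv.ofBijective (Amalg.toGroup G) h).symm (x : Γ)) = GtD_gens G i x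
  rw [h1]
  show Monoid.CoprodI.lift (GtD_gens G) (Monoid.CoprodI.of (M := fun i => ↥(G i)) x) = GtD_gens G i x
  rw [Monoid.CoprodI.lift_of]

private theorem GtD_tau_T (G : Fin 3 → Subgroup Γ) (h : Function.Bijective (Amalg.toGroup G))
    (t : ↥(fam (G 0) (G 1 ⊔ G 2) false)) :
    GtD_tau G h (t : Γ) = Monoid.PushoutI.of (φ := phi (gtD_hA G) (gtD_hT G)) false t := by
  let K : Subgroup Γ := Subgroup.map (G 1 ⊔ G 2).subtype
    (MonoidHom.eqLocus ((GtD_tau G h).comp (G 1 ⊔ G 2).subtype)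
      (Monoid.PushoutI.of (φ := phi (gtD_hA G) (gtD_hT G)) false))
  have h1 : G 1 ≤ K := fun x hx =>
    ⟨⟨x, Subgroup.mem_sup_left hx⟩, GtD_tau_of G h 1 ⟨x, hx⟩, rfl⟩
  have h2 : G 2 ≤ K := fun x hx =>
    ⟨⟨x, Subgroup.mem_sup_right hx⟩, GtD_tau_of G h 2 ⟨x, hx⟩, rfl⟩
  obtain ⟨t', h3, h4⟩ := (sup_le h1 h2 : G 1 ⊔ G 2 ≤ K) t.2
  have h5 : t' = t := Subtype.ext h4
  rw [← h5]
  exact h3

theorem gtD_inj (G : Fin 3 → Subgroup Γ) (h : Function.Bijective (Amalg.toGroup G)) :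
    Function.Injective (canon (gtD_hA G) (gtD_hT G)) := by
  have h1 : (GtD_tau G h).comp (canon (gtD_hA G) (gtD_hT G)) = MonoidHom.id _ := by
    refine Monoid.PushoutI.hom_ext_nonempty fun b => ?_
    ext x
    show GtD_tau G h (canon (gtD_hA G) (gtD_hT G) (Monoid.PushoutI.of b x)) = Monoid.PushoutI.of b x
    rw [canon, Monoid.PushoutI.lift_of]
    cases b with
    | true => exact GtD_tau_of G h 0 x
    | false => exact GtD_tau_T G h x
  intro p q hpq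
  have h2 : ∀ p, GtD_tau G h (canon (gtD_hA G) (gtD_hT G) p) = p := fun p => DFunLike.congr_fun h1 p
  rw [← h2 p, ← h2 q, hpq]

theorem gtD_gen (G : Fin 3 → Subgroup Γ) (h : Function.Bijective (Amalg.toGroup G)) :
    G 0 ⊔ (G 1 ⊔ G 2) = ⊤ := by
  rw [eq_top_iff]
  intro g _
  obtain ⟨x, hx⟩ := h.2 g
  obtain ⟨y, rfl⟩ := QuotientGroup.mk_surjective x
  have h1 : Monoid.CoprodI.lift (fun i => (G i).subtype) y = g := hx
  have h2 : (Monoid.CoprodI.lift (fun i => (G i).subtype)).range ≤ G 0 ⊔ (G 1 ⊔ G 2) := by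
    refine Monoid.CoprodI.lift_range_le _ (fun i => (G i).subtype) fun i => ?_
    rw [Subgroup.range_subtype]
    fin_cases i
    · exact le_sup_left
    · exact le_sup_left.trans le_sup_right
    · exact le_sup_right.trans le_sup_right
  exact h2 ⟨y, h1⟩

end SU
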