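import Pool.Agent.Lib.MP_374dcb_al.AutG

/-!
# JOB H2: conjugates of the scaling in `G_1`

Let `s` be the scaling by 2, `t ∈ TT k`, `t⁻¹ s t ∈ G_1`. Then there is `c ∈ TT k` commuting with `s` with `c⁻¹ t ∈ G_1`.
`t⁻¹ s t (X 0) = C a * X 0 + C b` (`mem_G1`), so `p := t (X 0)` satisfies `s p = C a * p + C b`. By `sc_coeff`: `2 ^ |m| * coeff m p = a * coeff m p` for `m ≠ 0`, `|m| = m 0 + m 1 + m 2`. Some linear coefficient of `p` is nonzero (`coord_lin`), so `a = 2`, and for `|m| ≥ 2`: `2 ^ |m| ≠ 2` in characteristic zero, so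
`coeff m p = 0`: `p = C α * X 0 + C β * X 1 + C γ * X 2 + C κ`, `(α,β,γ) ≠ 0`. Choose an invertible matrix `M` with first row `(α,β,γ)` (e.g. if `α ≠ 0` take the rows `(α,β,γ), (0,1,0), (0,0,1)`; if `α = 0, β ≠ 0`: `(α,β,γ), (1,0,0), (0,0,1)`; otherwise `(0,0,γ), (1,0,0), (0,1,0)`), and `c` from `mk_lin`:
`c ∈ G_3 ≤ TT k` (`mem_G3`), `c s = s c` (both map `X i` to `2 (c (X i))`; `AlgEquiv` ext on `X i`). `c⁻¹ t (X 0) = c⁻¹ p = c⁻¹ (c (X 0) + C κ) = X 0 + C κ`, so `c⁻¹ t ∈ G_1`.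
-/

set_option autoImplicit false

open MvPolynomial

namespace SU

universe u
variable {k : Type u} [Field k] [CharZero k]

private theorem H2_mat {α β γ : k} (h : α ≠ 0 ∨ β ≠ 0 ∨ γ ≠ 0) :
    ∃ M : Matrix (Fin 3) (Fin 3) k, IsUnit M.det ∧ M 0 0 = α ∧ M 0 1 = β ∧ M 0 2 = γ := by
  by_cases hα : α = 0
  · by_cases hβ : β = 0
    · have hγ : γ ≠ 0 := by
        rcases h with h | h | h
        · exact absurd hα h
        · exact absurd hβ h
        · exact h
      refine ⟨!![0, 0, γ; 1, 0, 0; 0, 1, 0], ?_, hα.symm, hβ.symm, rfl⟩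
      rw [Matrix.det_fin_three]
      simp [hγ]
    · refine ⟨!![α, β, γ; 1, 0, 0; 0, 0, 1], ?_, rfl, rfl, rfl⟩
      rw [Matrix.det_fin_three]
      simp [hβ]
  · refine ⟨!![α, β, γ; 0, 1, 0; 0, 0, 1], ?_, rfl, rfl, rfl⟩
    rw [Matrix.det_fin_three]
    simp [hα]

private theorem H2_two {n : ℕ} (hn : 2 ≤ n) {c : k} (h : 2 ^ n * c = 2 * c) : c = 0 := by
  by_contra hc
  have h1 : (2 : k) ^ n = 2 := mul_right_cancel₀ hc h
  have h2 : 2 ^ n = 2 := by exact_mod_cast h1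
  have h3 : 2 ^ 2 ≤ 2 ^ n := Nat.pow_le_pow_right (by norm_num) hn
  omega

private theorem H2_lin {p : B k} (h : ∀ m : Fin 3 →₀ ℕ, 2 ≤ m 0 + m 1 + m 2 → coeff m p = 0) :
    p = C (coeff (Finsupp.single 0 1) p) * X 0 + C (coeff (Finsupp.single 1 1) p) * X 1 +
      C (coeff (Finsupp.single 2 1) p) * X 2 + C (coeff 0 p) := by
  have n0 : ∀ i : Fin 3, (Finsupp.single i 1 : Fin 3 →₀ ℕ) ≠ 0 := fun i =>
    Finsupp.single_ne_zero.2 one_ne_zero
  have n1 : ∀ i j : Fin 3, i ≠ j →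
      (Finsupp.single i 1 : Fin 3 →₀ ℕ) ≠ Finsupp.single j 1 := fun i j hij hh =>
    hij (Finsupp.single_left_injective one_ne_zero hh)
  ext m
  simp only [coeff_add, coeff_C_mul, coeff_X, coeff_C]
  by_cases h0 : m = 0
  · subst h0
    rw [if_neg (n0 0), if_neg (n0 1), if_neg (n0 2), if_pos rfl]
    ring
  by_cases h1 : m = Finsupp.single 0 1
  · subst h1
    rw [if_pos rfl, if_neg (n1 1 0 (by decide)), if_neg (n1 2 0 (by decide)), if_neg (n0 0).symm]
    ring
  by_cases h2 : m = Finsupp.single 1 1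
  · subst h2
    rw [if_pos rfl, if_neg (n1 0 1 (by decide)), if_neg (n1 2 1 (by decide)), if_neg (n0 1).symm]
    ring
  by_cases h3 : m = Finsupp.single 2 1
  · subst h3
    rw [if_pos rfl, if_neg (n1 0 2 (by decide)), if_neg (n1 1 2 (by decide)), if_neg (n0 2).symm]
    ring
  rw [if_neg fun hh => h1 hh.symm, if_neg fun hh => h2 hh.symm, if_neg fun hh => h3 hh.symm,
    if_neg fun hh => h0 hh.symm, h m ?_]
  · ring
  · by_contra hlt
    have hle : m 0 + m 1 + m 2 ≤ 1 := by omega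
    rcases Nat.eq_zero_or_pos (m 0) with a0 | a0
    · rcases Nat.eq_zero_or_pos (m 1) with a1 | a1
      · rcases Nat.eq_zero_or_pos (m 2) with a2 | a2
        · refine h0 (Finsupp.ext fun i => ?_)
          fin_cases i
          · exact a0
          · exact a1
          · exact a2
        · refine h3 (Finsupp.ext fun i => ?_)
          fin_cases i
          · change m 0 = (Finsupp.single 2 1 : Fin 3 →₀ ℕ) 0
            rw [Finsupp.single_eq_of_ne (by decide)]
            exact a0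
          · change m 1 = (Finsupp.single 2 1 : Fin 3 →₀ ℕ) 1
            rw [Finsupp.single_eq_of_ne (by decide)]
            exact a1
          · change m 2 = (Finsupp.single 2 1 : Fin 3 →₀ ℕ) 2
            rw [Finsupp.single_eq_same]
            omega
      · refine h2 (Finsupp.ext fun i => ?_)
        fin_cases i
        · change m 0 = (Finsupp.single 1 1 : Fin 3 →₀ ℕ) 0
          rw [Finsupp.single_eq_of_ne (by decide)]
          exact a0
        · change m 1 = (Finsupp.single 1 1 : Fin 3 →₀ ℕ) 1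
          rw [Finsupp.single_eq_same]
          omega
        · change m 2 = (Finsupp.single 1 1 : Fin 3 →₀ ℕ) 2
          rw [Finsupp.single_eq_of_ne (by decide)]
          omega
    · refine h1 (Finsupp.ext fun i => ?_)
      fin_cases i
      · change m 0 = (Finsupp.single 0 1 : Fin 3 →₀ ℕ) 0
        rw [Finsupp.single_eq_same]
        omega
      · change m 1 = (Finsupp.single 0 1 : Fin 3 →₀ ℕ) 1
        rw [Finsupp.single_eq_of_ne (by decide)]
        omega
      · change m 2 = (Finsupp.single 0 1 : Fin 3 →₀ ℕ) 2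
        rw [Finsupp.single_eq_of_ne (by decide)]
        omega

private theorem H2_C (φ : Au k) (a : k) : φ (C a) = C a := φ.commutes a

theorem sc_conj {s : Au k} (hs : ∀ i, s (X i) = C 2 * X i) {t : Au k} (ht : t ∈ TT k)
    (h : t⁻¹ * s * t ∈ flagStab k 3 0) : ∃ c ∈ TT k, c * s = s * c ∧ c⁻¹ * t ∈ flagStab k 3 0 := by
  obtain ⟨a, b, -, hab⟩ := (mem_G1 _).1 h
  obtain ⟨p, hp⟩ : ∃ p : B k, p = t (X 0) := ⟨_, rfl⟩
  have hsp : s p = C a * p + C b := by
    have h1 : t ((t⁻¹ * s * t) (X 0)) = t (C a * X 0 + C b) := by rw [hab]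
    rw [map_add, map_mul, H2_C, H2_C, ← hp] at h1
    rw [← h1, hp]
    exact (t.apply_symm_apply (s (t (X 0)))).symm
  have hco : ∀ m : Fin 3 →₀ ℕ, m ≠ 0 → 2 ^ (m 0 + m 1 + m 2) * coeff m p = a * coeff m p := by
    intro m hm
    have h1 := congrArg (coeff m) hsp
    rw [sc_coeff hs, coeff_add, coeff_C_mul, coeff_C, if_neg hm.symm, add_zero] at h1
    exact h1
  obtain ⟨i, hi⟩ := coord_lin t
  rw [← hp] at hi
  have ha : a = 2 := by
    have h1 := hco (Finsupp.single i 1) (Finsupp.single_ne_zero.2 one_ne_zero)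
    have h2 : (Finsupp.single i 1 : Fin 3 →₀ ℕ) 0 + (Finsupp.single i 1 : Fin 3 →₀ ℕ) 1 +
        (Finsupp.single i 1 : Fin 3 →₀ ℕ) 2 = 1 := by
      fin_cases i <;> simp [Finsupp.single_apply]
    rw [h2, pow_one] at h1
    exact (mul_right_cancel₀ hi h1).symm
  have hlin := H2_lin (p := p) fun m hm => by
    have hm0 : m ≠ 0 := by
      rintro rfl
      simp only [Finsupp.coe_zero, Pi.zero_apply] at hm
      omega
    have h1 := hco m hm0
    rw [ha] at h1
    exact H2_two hm h1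
  obtain ⟨α, hα⟩ : ∃ α : k, α = coeff (Finsupp.single 0 1) p := ⟨_, rfl⟩
  obtain ⟨β, hβ⟩ : ∃ β : k, β = coeff (Finsupp.single 1 1) p := ⟨_, rfl⟩
  obtain ⟨γ, hγ⟩ : ∃ γ : k, γ = coeff (Finsupp.single 2 1) p := ⟨_, rfl⟩
  obtain ⟨κ, hκ⟩ : ∃ κ : k, κ = coeff 0 p := ⟨_, rfl⟩
  have hne : α ≠ 0 ∨ β ≠ 0 ∨ γ ≠ 0 := by
    fin_cases i
    · exact Or.inl (hα ▸ hi)
    · exact Or.inr (Or.inl (hβ ▸ hi))
    · exact Or.inr (Or.inr (hγ ▸ hi))
  rw [← hα, ← hβ, ← hγ, ← hκ] at hlin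
  obtain ⟨M, hM, m0, m1, m2⟩ := H2_mat hne
  obtain ⟨c, hc⟩ := mk_lin M hM
  have hc3 : c ∈ flagStab k 3 2 := (mem_G3 c).2 fun i =>
    ⟨M i 0, M i 1, M i 2, 0, by rw [hc i, map_zero, add_zero]⟩
  refine ⟨c, ?_, ?_, ?_⟩
  · exact (le_sup_right : flagStab k 3 2 ≤ TT k) hc3
  · have h1 : ((c * s : Au k) : B k →ₐ[k] B k) = ((s * c : Au k) : B k →ₐ[k] B k) := by
      refine MvPolynomial.algHom_ext fun i => ?_
      change c (s (X i)) = s (c (X i))
      rw [hs i, map_mul, H2_C, hc i, map_add, map_add, map_mul, map_mul, map_mul, H2_C, H2_C, H2_C,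
        hs 0, hs 1, hs 2]
      ring
    refine AlgEquiv.ext fun f => ?_
    exact DFunLike.congr_fun h1 f
  · refine (mem_G1 _).2 ⟨1, κ, one_ne_zero, ?_⟩
    change c⁻¹ (t (X 0)) = _
    have h1 : t (X 0) = c (X 0 + C κ) := by
      rw [map_add, H2_C, hc 0, m0, m1, m2, ← hp]
      exact hlin
    rw [h1, map_one, one_mul]
    exact c.symm_apply_apply _

end SU
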