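import Pool.Agent.Lib.MP_374dcb_al.Res
import Pool.Agent.Lib.MP_374dcb_al.Typ
import Pool.Agent.Lib.MP_374dcb_al.CP

/-!
# JOB IrA: the exceptional vertices (degrees 2δ, 4/3 δ), numerical facts

`JU f1 g f3`, `D f1 = 2δ`, `3 D g = 4δ`, `D f3 = 3δ`, `t := d f1 f3 ≤ δ/3`, `E := d f1 g`, and `R` with `p := f3 + ev R f1 g`, `D p < 3δ`.
Then: `0 < t` (`JU.cr13`, `d_pos`), `E ≥ 2δ + ε - t > 5/3 δ` (`cp`), `d g f3 = δ + E` (`ptm`: `2δ + d g f3`, `4/3 δ + t`, `3δ + E`), `D (ev R f1 g) = 3δ` (`D_of_add_lt`).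
`par'` for `(f1,g)`, `R`: first alternative: some exponent `(i,j)` has `2δ i + 4/3 δ j = 3δ` (the degree is attained), i.e. `6 i + 4 j = 9`: no. Second: `p (2δ) = q (4/3 δ)`, `3p = 2q` coprime: `p = 2`, `q = 3`, `L = 4δ`;
`m 4δ + 2δ i + 4/3 δ j ≤ 3δ + m (10/3 δ - E)`, `E > 5/3 δ`: `m (4δ - 5/3 δ) < 3δ` so `m = 1`; then `2 i + 4/3 j < 3 + 5/3 - 4 = 2/3`: `i = j = 0`; `E ≤ 7/3 δ`. All exponents of `R`: `2 i + 4/3 j ≤ 4`, i.e. `3 i + 2 j ≤ 6`:
`(0,0),(0,1),(0,2),(0,3),(1,0),(1,1),(2,0)`; since `D (ev R f1 g) = 3δ < 4δ` and one of `(0,3)`, `(2,0)` occurs, both have nonzero coefficients `κ`, `κ'` (if only one occurs then the degree is `4δ`: the others have degree `≤ 10/3 δ`).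
`D (ev (pderiv 0 R) f1 g) = 2δ`: `pderiv 0 R = 2 κ' X 0 + β X 1 + c`; `D (ev (pderiv 1 R) f1 g) = 8/3 δ`: `pderiv 1 R = 3 κ X 1 ^ 2 + 2 γ X 1 + β X 0 + c'`, degrees `8/3 δ > 2δ, 4/3 δ`.
`cr f1 p = cr f1 f3 + ev (pderiv 1 R) f1 g • cr f1 g`: degrees `t < 8/3 δ + E`: `d f1 p = 8/3 δ + E`. `cr g p = cr g f3 + ev (pderiv 0 R) f1 g • cr g f1`: degrees `δ + E < 2δ + E`: `d g p = 2δ + E`.
`8/3 δ + E ≤ D f1 + D p` (`d_le`): `D p ≥ 2/3 δ + E > 7/3 δ`.
-/

set_option autoImplicit false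

open MvPolynomial

namespace SU

universe u
variable {k : Type u} [Field k] [CharZero k]

/-- the degree is the weight of a strictly dominant exponent -/
private theorem irA_lead (ω : Wts) {f g : B k} (hf : 0 < D ω f) (hg : 0 < D ω g) {Q : MvPolynomial (Fin 2) k}
    {μ : Fin 2 →₀ ℕ} (hμ : μ ∈ Q.support) (hw : 0 < (μ 0 : ℝ) * D ω f + μ 1 * D ω g)
    (hall : ∀ ν ∈ Q.support, ν ≠ μ → (ν 0 : ℝ) * D ω f + ν 1 * D ω g < (μ 0 : ℝ) * D ω f + μ 1 * D ω g) :
    D ω (ev Q f g) = (μ 0 : ℝ) * D ω f + μ 1 * D ω g := by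
  have hf0 : f ≠ 0 := by
    intro h; rw [h, D_zero] at hf; exact lt_irrefl _ hf
  have hg0 : g ≠ 0 := by
    intro h; rw [h, D_zero] at hg; exact lt_irrefl _ hg
  have hterm : ∀ ν ∈ Q.support, D ω (C (coeff ν Q) * f ^ ν 0 * g ^ ν 1) = (ν 0 : ℝ) * D ω f + ν 1 * D ω g := by
    intro ν hν
    have hc : coeff ν Q ≠ 0 := mem_support_iff.1 hν
    rw [mul_assoc, D_C_mul ω hc, D_mul ω (pow_ne_zero _ hf0) (pow_ne_zero _ hg0), D_pow, D_pow]
  rw [ev_eq_sum, ← Finset.add_sum_erase _ _ hμ]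
  have hrest : D ω (∑ x ∈ Q.support.erase μ, C (coeff x Q) * f ^ x 0 * g ^ x 1) <
      (μ 0 : ℝ) * D ω f + μ 1 * D ω g := by
    refine Finset.sum_induction _ (fun x => D ω x < (μ 0 : ℝ) * D ω f + μ 1 * D ω g) ?_ ?_ ?_
    · intro a b ha hb
      exact lt_of_le_of_lt (D_add_le ω a b) (max_lt ha hb)
    · rw [D_zero]; exact hw
    · intro x hx
      obtain ⟨hne, hx'⟩ := Finset.mem_erase.1 hx
      rw [hterm x hx']
      exact hall x hx' hne
  have h5 : D ω (∑ x ∈ Q.support.erase μ, C (coeff x Q) * f ^ x 0 * g ^ x 1) <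
      D ω (C (coeff μ Q) * f ^ μ 0 * g ^ μ 1) := by
    rw [hterm μ hμ]; exact hrest
  rw [D_add_left ω h5, hterm μ hμ]

private theorem irA_ext {μ ν : Fin 2 →₀ ℕ} (h0 : μ 0 = ν 0) (h1 : μ 1 = ν 1) : μ = ν := by
  refine Finsupp.ext fun i => ?_
  fin_cases i
  · exact h0
  · exact h1

/-- the data of an exceptional vertex -/
structure Ir (ω : Wts) (f1 g f3 : B k) (δ : ℝ) (R : MvPolynomial (Fin 2) k) : Prop where
  ju : JU f1 g f3
  d1 : D ω f1 = 2 * δ
  dg : 3 * D ω g = 4 * δ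
  d3 : D ω f3 = 3 * δ
  t : d ω f1 f3 ≤ δ / 3
  lt : D ω (f3 + ev R f1 g) < 3 * δ

theorem ir_facts {ω : Wts} {f1 g f3 : B k} {δ : ℝ} {R : MvPolynomial (Fin 2) k} (h : Ir ω f1 g f3 δ R) :
    0 < δ ∧ 5 / 3 * δ < d ω f1 g ∧ d ω f1 g ≤ 7 / 3 * δ ∧
    d ω f1 (f3 + ev R f1 g) = 8 / 3 * δ + d ω f1 g ∧ d ω g (f3 + ev R f1 g) = 2 * δ + d ω f1 g ∧
    2 / 3 * δ + d ω f1 g ≤ D ω (f3 + ev R f1 g) := by
  have hju := h.ju
  obtain ⟨hp1, hp2, hp3⟩ := hju.pos ω
  have h1 := h.d1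
  have hg := h.dg
  have h3 := h.d3
  have ht := h.t
  have hδ : 0 < δ := by linarith
  have hgD : D ω g = 4 / 3 * δ := by linarith
  have heps := eps_pos ω
  have hcp := cp ω hju
  have hElo : 5 / 3 * δ < d ω f1 g := by linarith
  have hw : ∀ a b : ℕ, (a : ℝ) * D ω f1 + b * D ω g = 2 / 3 * δ * ((3 * a + 2 * b : ℕ) : ℝ) := by
    intro a b
    rw [h1, hgD]; push_cast; ring
  have hδ' : 0 < 2 / 3 * δ := by linarith
  have hgf3 : d ω g f3 = δ + d ω f1 g := by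
    obtain ⟨q1, -, q3⟩ := ptm ω hju
    rw [h1, h3, hgD] at q1 q3
    rcases le_max_iff.1 q1 with a | a <;> rcases le_max_iff.1 q3 with b | b <;> linarith
  have hev : D ω (ev R f1 g) = 3 * δ := by
    rw [← h3]
    exact D_of_add_lt ω (by rw [h3]; exact h.lt)
  have hR0 : R ≠ 0 := by
    rintro rfl
    have h0 : ev (0 : MvPolynomial (Fin 2) k) f1 g = 0 := map_zero _
    rw [h0, D_zero] at hev
    linarith
  have key : d ω f1 g ≤ 7 / 3 * δ ∧ (∀ μ ∈ R.support, 3 * μ 0 + 2 * μ 1 ≤ 6) ∧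
      ∃ μ ∈ R.support, 3 * μ 0 + 2 * μ 1 = 6 := by
    rcases par' ω hju.cr12 R with a | ⟨m, p, q, i, j, hm, hp, hq, hco, hpq, hin, hall, -, μ, hμ, hμe⟩
    · exfalso
      obtain ⟨μ, hμ, hμe⟩ := exists_vd (D_nonneg ω f1) (D_nonneg ω g) hR0
      have b1 := a μ hμ
      have b2 := D_ev_le ω R f1 g
      rw [hev] at b1 b2
      have b3 : 2 / 3 * δ * ((3 * μ 0 + 2 * μ 1 : ℕ) : ℝ) = 2 / 3 * δ * (9 / 2) := by
        rw [← hw]; linarith
      have b4 := mul_left_cancel₀ hδ'.ne' b3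
      have b5 : (2 * (3 * μ 0 + 2 * μ 1 : ℕ) : ℝ) = 9 := by rw [b4]; norm_num
      have b6 : 2 * (3 * μ 0 + 2 * μ 1) = 9 := by exact_mod_cast b5
      omega
    · rw [h1, hgD] at hpq
      have c1 : 2 / 3 * δ * ((3 * p : ℕ) : ℝ) = 2 / 3 * δ * ((2 * q : ℕ) : ℝ) := by
        push_cast; linarith
      have c2 : 3 * p = 2 * q := by exact_mod_cast mul_left_cancel₀ hδ'.ne' c1
      have c3 : p ∣ 2 * q := by rw [← c2]; exact Dvd.intro_left 3 rfl
      have c4 : p ∣ 2 := Nat.Coprime.dvd_of_dvd_mul_right hco c3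
      have c5 : p ≤ 2 := Nat.le_of_dvd (by norm_num) c4
      have c6 : p = 2 := by
        interval_cases p
        · omega
        · rfl
      subst c6
      rw [hev, h1, hgD] at hin
      have hi0 : (0 : ℝ) ≤ (i : ℝ) * (2 * δ) := by positivity
      have hj0 : (0 : ℝ) ≤ (j : ℝ) * (4 / 3 * δ) := by positivity
      have hm1 : m = 1 := by
        by_contra hne
        have hm2 : 2 ≤ m := by omega
        have hm3 : (2 : ℝ) ≤ m := by exact_mod_cast hm2
        have c7 : (m : ℝ) * (2 / 3 * δ + d ω f1 g) ≤ 3 * δ := by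
          push_cast at hin
          linarith
        have c8 : 2 * (7 / 3 * δ) ≤ (m : ℝ) * (2 / 3 * δ + d ω f1 g) :=
          mul_le_mul hm3 (by linarith) (by linarith) (by linarith)
        linarith
      subst hm1
      push_cast at hin
      have hi : i = 0 := by
        rcases Nat.eq_zero_or_pos i with h0 | h0
        · exact h0
        · exfalso
          have c9 : (1 : ℝ) ≤ i := by exact_mod_cast h0
          have c10 : 1 * (2 * δ) ≤ (i : ℝ) * (2 * δ) := mul_le_mul_of_nonneg_right c9 (by linarith)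
          linarith
      have hj : j = 0 := by
        rcases Nat.eq_zero_or_pos j with h0 | h0
        · exact h0
        · exfalso
          have c9 : (1 : ℝ) ≤ j := by exact_mod_cast h0
          have c10 : 1 * (4 / 3 * δ) ≤ (j : ℝ) * (4 / 3 * δ) := mul_le_mul_of_nonneg_right c9 (by linarith)
          linarith
      subst hi hj
      have hval : (1 : ℕ) * ((2 : ℕ) * D ω f1) + (0 : ℕ) * D ω f1 + (0 : ℕ) * D ω g = 2 / 3 * δ * (6 : ℕ) := by
        rw [h1]; push_cast; ring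
      refine ⟨by linarith, ?_, μ, hμ, ?_⟩
      · intro ν hν
        have c11 := hall ν hν
        rw [hval, hw] at c11
        exact_mod_cast le_of_mul_le_mul_left c11 hδ'
      · rw [hval, hw] at hμe
        exact_mod_cast mul_left_cancel₀ hδ'.ne' hμe
  obtain ⟨hEhi, hle, μ, hμ, hμ6⟩ := key
  have hS : ∀ μ ∈ R.support, 3 * μ 0 + 2 * μ 1 = 6 → ∃ ν ∈ R.support, 3 * ν 0 + 2 * ν 1 = 6 ∧ ν 0 ≠ μ 0 := by
    intro μ hμ hμ6
    by_contra hcon
    have hcon' : ∀ ν ∈ R.support, 3 * ν 0 + 2 * ν 1 = 6 → ν 0 = μ 0 := by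
      intro ν hν h6
      by_contra h7
      exact hcon ⟨ν, hν, h6, h7⟩
    have h8 := irA_lead ω hp1 hp2 hμ (by rw [hw, hμ6]; positivity) (by
      intro ν hν hne
      rw [hw, hw, hμ6]
      refine mul_lt_mul_of_pos_left ?_ hδ'
      rcases lt_or_eq_of_le (hle ν hν) with h9 | h9
      · exact_mod_cast h9
      · exact absurd (irA_ext (hcon' ν hν h9) (by have := hcon' ν hν h9; omega)) hne)
    rw [hev, hw, hμ6] at h8
    push_cast at h8
    linarith
  have hα : ∃ α ∈ R.support, α 0 = 2 ∧ α 1 = 0 := by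
    obtain ⟨ν, hν, hν6, hne⟩ := hS μ hμ hμ6
    by_cases h9 : μ 0 = 2
    · exact ⟨μ, hμ, h9, by omega⟩
    · exact ⟨ν, hν, by omega, by omega⟩
  have hβ : ∃ β ∈ R.support, β 0 = 0 ∧ β 1 = 3 := by
    obtain ⟨ν, hν, hν6, hne⟩ := hS μ hμ hμ6
    by_cases h9 : μ 0 = 0
    · exact ⟨μ, hμ, h9, by omega⟩
    · exact ⟨ν, hν, by omega, by omega⟩
  have hd0 : D ω (ev (pderiv 0 R) f1 g) = 2 * δ := by
    obtain ⟨α, hα, hα0, hα1⟩ := hα
    have e1 : (Finsupp.single 0 1 : Fin 2 →₀ ℕ) 0 = 1 := by simp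
    have e2 : (Finsupp.single 0 1 : Fin 2 →₀ ℕ) 1 = 0 := by simp
    have hsum : (Finsupp.single 0 1 : Fin 2 →₀ ℕ) + Finsupp.single 0 1 = α := by
      refine irA_ext ?_ ?_
      · rw [Finsupp.add_apply, e1, hα0]
      · rw [Finsupp.add_apply, e2, hα1]
    have hmem : (Finsupp.single 0 1 : Fin 2 →₀ ℕ) ∈ (pderiv 0 R).support := by
      rw [mem_support_iff, coeff_pderiv, hsum, e1]
      refine mul_ne_zero (mem_support_iff.1 hα) ?_
      norm_num
    have h8 := irA_lead ω hp1 hp2 hmem (by rw [e1, e2, hw]; positivity) (by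
      intro ν hν hne
      have h9 : ν + Finsupp.single 0 1 ∈ R.support := by
        rw [mem_support_iff, coeff_pderiv] at hν
        exact mem_support_iff.2 (left_ne_zero_of_mul hν)
      have h10 := hle _ h9
      rw [Finsupp.add_apply, Finsupp.add_apply, e1, e2] at h10
      rw [hw, hw, e1, e2]
      refine mul_lt_mul_of_pos_left ?_ hδ'
      have h11 : 3 * ν 0 + 2 * ν 1 < 3 * 1 + 2 * 0 := by
        by_contra h12
        refine hne (irA_ext ?_ ?_)
        · rw [e1]; omega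
        · rw [e2]; omega
      exact_mod_cast h11)
    rw [h8, e1, e2, hw]
    push_cast
    ring
  have hd1 : D ω (ev (pderiv 1 R) f1 g) = 8 / 3 * δ := by
    obtain ⟨β, hβ, hβ0, hβ1⟩ := hβ
    have e1 : (Finsupp.single 1 2 : Fin 2 →₀ ℕ) 0 = 0 := by simp
    have e2 : (Finsupp.single 1 2 : Fin 2 →₀ ℕ) 1 = 2 := by simp
    have e3 : (Finsupp.single 1 1 : Fin 2 →₀ ℕ) 0 = 0 := by simp
    have e4 : (Finsupp.single 1 1 : Fin 2 →₀ ℕ) 1 = 1 := by simp
    have hsum : (Finsupp.single 1 2 : Fin 2 →₀ ℕ) + Finsupp.single 1 1 = β := by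
      refine irA_ext ?_ ?_
      · rw [Finsupp.add_apply, e1, e3, hβ0]
      · rw [Finsupp.add_apply, e2, e4, hβ1]
    have hmem : (Finsupp.single 1 2 : Fin 2 →₀ ℕ) ∈ (pderiv 1 R).support := by
      rw [mem_support_iff, coeff_pderiv, hsum, e2]
      refine mul_ne_zero (mem_support_iff.1 hβ) ?_
      norm_num
    have h8 := irA_lead ω hp1 hp2 hmem (by rw [e1, e2, hw]; positivity) (by
      intro ν hν hne
      have h9 : ν + Finsupp.single 1 1 ∈ R.support := by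
        rw [mem_support_iff, coeff_pderiv] at hν
        exact mem_support_iff.2 (left_ne_zero_of_mul hν)
      have h10 := hle _ h9
      rw [Finsupp.add_apply, Finsupp.add_apply, e3, e4] at h10
      rw [hw, hw, e1, e2]
      refine mul_lt_mul_of_pos_left ?_ hδ'
      have h11 : 3 * ν 0 + 2 * ν 1 < 3 * 0 + 2 * 2 := by
        by_contra h12
        refine hne (irA_ext ?_ ?_)
        · rw [e1]; omega
        · rw [e2]; omega
      exact_mod_cast h11)
    rw [h8, e1, e2, hw]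
    push_cast
    ring
  have hne0 : ev (pderiv 0 R) f1 g ≠ 0 := by
    intro h0; rw [h0, D_zero] at hd0; linarith
  have hne1 : ev (pderiv 1 R) f1 g ≠ 0 := by
    intro h0; rw [h0, D_zero] at hd1; linarith
  have hdr := d_ev_right ω hju.cr12 hne1
  have hdl := d_ev_left ω hju.cr12 hne0
  rw [hd1] at hdr
  rw [hd0, ← d_symm] at hdl
  have hA : d ω f1 (f3 + ev R f1 g) = 8 / 3 * δ + d ω f1 g := by
    rw [add_comm f3, d_add_right_left ω (by rw [hdr]; linarith), hdr]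
  have hB : d ω g (f3 + ev R f1 g) = 2 * δ + d ω f1 g := by
    rw [add_comm f3, d_add_right_left ω (by rw [hdl, hgf3]; linarith), hdl]
  have hC := d_le ω f1 (f3 + ev R f1 g)
  rw [hA, h1] at hC
  exact ⟨hδ, hElo, hEhi, hA, hB, by linarith⟩

end SU
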