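import Pool.Agent.Lib.MP_374dcb_al.Res

/-!
# JOB KeA: numerical facts on K-edges (K1, K2)

Let `Piv ω f1 f2 f3 δ`, `b = D f2`, `t = d f1 f3 > 0`, `R` with `g := f2 + ev R f1 f3`, `D g < b`, `D g < δ + t`.
`k1`: `D (ev R f1 f3) = b` (`D_of_add_lt`). `par'` for `(f1,f3)`: first alternative: all exponents `(i,j)` of `R` have `2δ i + 3δ j ≤ b < 2δ`, so `R` is a constant, `D (ev R ..) = 0 ≠ b`. Second:
 `p (2δ) = q (3δ)` coprime, so `p = 3, q = 2`; `6δ m + 2δ i + 3δ j ≤ b + m (5δ - t)`, i.e. `m (δ + t) + 2δ i + 3δ j ≤ b ≤ 3/2 δ`: `m = 1`, `i = j = 0`, `t ≤ b - δ`. All exponents of `R` satisfy `2 μ 0 + 3 μ 1 ≤ 6`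
 and there is one with `=` (either `(3,0)` or `(0,2)`); `D (ev R f1 f3) < 6δ` forces the coefficient `κ` of `(0,2)` to be nonzero (otherwise all exponents but `(3,0)` have degree
 `≤ 5δ` and `C c * f1 ^ 3` has degree `6δ`, so `D (ev R ..) = 6δ`). `pderiv 1 R = 2 κ X 1 + a + a' X 0` (exponents `(0,1),(1,1),(0,2)` of `R`; `(1,1)`: `5 ≤ 6`), so
 `D (ev (pderiv 1 R) f1 f3) = 3δ` (`D (C .. * f1) ≤ 2δ`). `cr f1 f2 = cr f1 g - cr f1 (ev R f1 f3) = cr f1 g - ev (pderiv 1 R) f1 f3 • cr f1 f3` (`cr_ev_right`, `cr_self`);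
 `N` of the second is `3δ + t` (`N_smul`), of the first `≤ 2δ + D g < 3δ + t`: `d f1 f2 = 3δ + t`.
 `d f2 f3 = 4δ + t`: `ptm`: the numbers `2δ + d f2 f3`, `b + t`, `3δ + (3δ + t)`: the third is larger than the second (`b + t ≤ 2b - δ ≤ 2δ`), so it equals the first.
`k2`: `p := f3 + C α * f2 ^ 2`, `α ≠ 0`. `cr f1 p = cr f1 f3 + 2 C α f2 • cr f1 f2` (`cr_mul_right`): `N` of the second: `b + 3δ + t > t`: `d f1 p = b + 3δ + t`. `d f1 p ≤ 2δ + D p` gives `b + δ + t ≤ D p`.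
 `cr f2 p = cr f2 f3` (`cr f2 (f2 ^ 2) = 0`). `D p ≤ max (3δ) (2b) = 3δ`. `D p > 2δ` because `b > δ`. 
`k_lt`: `S Y < S X` for `X = sp f1 f2 p`, `Y = sp f1 g f3`: `X` has the different degrees `b < 2δ < D p`: `S X = 2δ + b + D p` (`S_eq`); `S Y ≤ 2δ + D g + 3δ` (`S_le`). If `b < 3/2 δ`: `D p = 3δ` (as `2b < 3δ`), and `D g < b`. If
 `b = 3/2 δ`: `D p ≥ b + δ + t`, `D g < δ + t`, `S X ≥ 3δ + 2b + t = 6δ + t > 5δ + D g`.
-/

set_option autoImplicit false

open MvPolynomial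

namespace SU

universe u
variable {k : Type u} [Field k] [CharZero k]

private theorem KeA_split (P : MvPolynomial (Fin 2) k) (μ : Fin 2 →₀ ℕ) :
    ∃ P' : MvPolynomial (Fin 2) k, (∀ f g : B k, ev P f g = C (coeff μ P) * f ^ μ 0 * g ^ μ 1 + ev P' f g) ∧
      ∀ ν ∈ P'.support, ν ∈ P.support ∧ ν ≠ μ := by
  classical
  refine ⟨P - monomial μ (coeff μ P), fun f g => ?_, fun ν hν => ?_⟩
  · rw [ev_sub]
    have h1 : ev (monomial μ (coeff μ P)) f g = C (coeff μ P) * f ^ μ 0 * g ^ μ 1 := by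
      unfold ev
      rw [aeval_monomial, Finsupp.prod_fintype _ _ (fun i => pow_zero _), Fin.prod_univ_two]
      simp only [Matrix.cons_val_zero, Matrix.cons_val_one]
      rw [mul_assoc]
      rfl
    rw [h1]
    ring
  · rw [mem_support_iff, coeff_sub, coeff_monomial] at hν
    by_cases h : μ = ν
    · subst h
      rw [if_pos rfl, sub_self] at hν
      exact absurd rfl hν
    · rw [if_neg h, sub_zero] at hν
      exact ⟨mem_support_iff.2 hν, fun h' => h h'.symm⟩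

private theorem KeA_supp {P : MvPolynomial (Fin 2) k} {μ : Fin 2 →₀ ℕ} {i : Fin 2}
    (h : μ ∈ (pderiv i P).support) : μ + Finsupp.single i 1 ∈ P.support := by
  rw [mem_support_iff, coeff_pderiv] at h
  rw [mem_support_iff]
  intro h0
  rw [h0, zero_mul] at h
  exact h rfl

/-- `D (ev P f g) ≤ t` if all exponents have degree `≤ t`. -/
private theorem KeA_le (ω : Wts) {P : MvPolynomial (Fin 2) k} {f g : B k} {t : ℝ} (ht : 0 ≤ t)
    (h : ∀ μ ∈ P.support, (μ 0 : ℝ) * D ω f + μ 1 * D ω g ≤ t) : D ω (ev P f g) ≤ t :=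
  (D_ev_le ω P f g).trans (vd_le ht h)

private theorem KeA_lt3 {x y : ℕ} (h : 2 * x + 3 * y ≤ 6) (h1 : ¬(x = 3 ∧ y = 0)) (h2 : ¬(x = 0 ∧ y = 2)) :
    2 * x + 3 * y ≤ 5 := by
  have hx : x ≤ 3 := by omega
  have hy : y ≤ 2 := by omega
  interval_cases x <;> interval_cases y <;> omega

theorem k1 {ω : Wts} {f1 f2 f3 : B k} {δ : ℝ} (hp : Piv ω f1 f2 f3 δ) {R : MvPolynomial (Fin 2) k}
    (h1 : D ω (f2 + ev R f1 f3) < D ω f2) (h2 : D ω (f2 + ev R f1 f3) < δ + d ω f1 f3) :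
    0 < d ω f1 f3 ∧ d ω f1 f3 ≤ D ω f2 - δ ∧ d ω f1 f2 = 3 * δ + d ω f1 f3 ∧ d ω f2 f3 = 4 * δ + d ω f1 f3 := by
  classical
  have H := hp.ju
  have hd1 := hp.d1
  have hd3 := hp.d3
  have hlo := hp.lo
  have hhi := hp.hi
  have hδ : 0 < δ := by
    have := (JU.pos ω H).1
    linarith
  have ht : 0 < d ω f1 f3 := d_pos ω H.cr13
  have hR : D ω (ev R f1 f3) = D ω f2 := D_of_add_lt ω h1
  -- the parachute
  have key : d ω f1 f3 ≤ D ω f2 - δ ∧ (∀ μ ∈ R.support, 2 * μ 0 + 3 * μ 1 ≤ 6) ∧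
      ∃ μ ∈ R.support, 2 * μ 0 + 3 * μ 1 = 6 := by
    rcases par' ω H.cr13 R with h | ⟨m, p, q, i, j, hm, hp1, hq1, hcop, hpq, hb, hsup, hlt, hex⟩
    · exfalso
      have h3 : D ω (ev R f1 f3) ≤ 0 := by
        refine KeA_le ω le_rfl fun μ hμ => ?_
        have h4 := h μ hμ
        rw [hR, hd1, hd3] at h4
        have h5 : μ 0 = 0 := by
          by_contra h6
          have h7 : (1 : ℝ) ≤ μ 0 := by exact_mod_cast Nat.one_le_iff_ne_zero.2 h6
          have h8 : (0 : ℝ) ≤ μ 1 := Nat.cast_nonneg _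
          nlinarith
        have h6 : μ 1 = 0 := by
          by_contra h6
          have h7 : (1 : ℝ) ≤ μ 1 := by exact_mod_cast Nat.one_le_iff_ne_zero.2 h6
          have h8 : (0 : ℝ) ≤ μ 0 := Nat.cast_nonneg _
          nlinarith
        rw [h5, h6]
        simp
      linarith
    · rw [hd1, hd3] at hpq
      have h23 : 2 * p = 3 * q := by
        have : (2 * p : ℝ) * δ = (3 * q : ℝ) * δ := by linarith
        exact_mod_cast mul_right_cancel₀ hδ.ne' this
      have hq2 : q ∣ 2 := by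
        have : q ∣ 2 * p := ⟨3, by rw [h23]; ring⟩
        exact hcop.symm.dvd_of_dvd_mul_right this
      have hp3 : p ∣ 3 := by
        have : p ∣ 3 * q := ⟨2, by rw [← h23]; ring⟩
        exact hcop.dvd_of_dvd_mul_right this
      have hp' : p = 3 := by
        have := Nat.le_of_dvd (by norm_num) hp3
        interval_cases p <;> omega
      have hq' : q = 2 := by omega
      subst hp'
      subst hq'
      rw [hR, hd1, hd3] at hb
      simp only [hd1, hd3] at hsup hex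
      have hm' : m = 1 := by
        by_contra hne
        have h5 : (2 : ℝ) ≤ m := by exact_mod_cast (by omega : 2 ≤ m)
        have h6 : (0 : ℝ) ≤ i := Nat.cast_nonneg _
        have h7 : (0 : ℝ) ≤ j := Nat.cast_nonneg _
        have h8 : (0 : ℝ) ≤ i * δ := mul_nonneg h6 hδ.le
        have h9 : (0 : ℝ) ≤ j * δ := mul_nonneg h7 hδ.le
        have h10 : (m : ℝ) * (δ + d ω f1 f3) ≤ D ω f2 := by
          push_cast at hb
          nlinarith
        nlinarith
      subst hm'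
      have hi' : i = 0 := by
        by_contra hne
        have h5 : (1 : ℝ) ≤ i := by exact_mod_cast Nat.one_le_iff_ne_zero.2 hne
        have h7 : (0 : ℝ) ≤ j := Nat.cast_nonneg _
        have h9 : (0 : ℝ) ≤ j * δ := mul_nonneg h7 hδ.le
        have h10 : δ ≤ i * δ := by nlinarith
        push_cast at hb
        linarith
      have hj' : j = 0 := by
        by_contra hne
        have h5 : (1 : ℝ) ≤ j := by exact_mod_cast Nat.one_le_iff_ne_zero.2 hne
        have h10 : δ ≤ j * δ := by nlinarith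
        subst hi'
        push_cast at hb
        linarith
      subst hi'
      subst hj'
      push_cast at hb hsup hex
      refine ⟨by linarith, fun μ hμ => ?_, ?_⟩
      · have h5 := hsup μ hμ
        have h6 : (2 * μ 0 + 3 * μ 1 : ℝ) * δ ≤ 6 * δ := by linarith
        have h7 := le_of_mul_le_mul_right h6 hδ
        exact_mod_cast h7
      · obtain ⟨μ, hμ, h5⟩ := hex
        refine ⟨μ, hμ, ?_⟩
        have h6 : (2 * μ 0 + 3 * μ 1 : ℝ) * δ = 6 * δ := by linarith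
        have h7 := mul_right_cancel₀ hδ.ne' h6
        exact_mod_cast h7
  obtain ⟨htb, hsup, μ0, hμ0, hμ0'⟩ := key
  -- the coefficient of Y^2
  let ν2 : Fin 2 →₀ ℕ := Finsupp.single 1 2
  let ν3 : Fin 2 →₀ ℕ := Finsupp.single 0 3
  have e20 : ν2 0 = 0 := by simp [ν2]
  have e21 : ν2 1 = 2 := by simp [ν2]
  have e30 : ν3 0 = 3 := by simp [ν3]
  have e31 : ν3 1 = 0 := by simp [ν3]
  have hκ : coeff ν2 R ≠ 0 := by
    intro h0
    have hμ3 : μ0 = ν3 := by
      have hx : μ0 0 ≤ 3 := by omega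
      have hy : μ0 1 ≤ 2 := by omega
      have hcase : (μ0 0 = 3 ∧ μ0 1 = 0) ∨ (μ0 0 = 0 ∧ μ0 1 = 2) := by omega
      rcases hcase with ⟨hx, hy⟩ | ⟨hx, hy⟩
      · ext l
        fin_cases l
        · exact hx.trans e30.symm
        · exact hy.trans e31.symm
      · exfalso
        have : μ0 = ν2 := by
          ext l
          fin_cases l
          · exact hx.trans e20.symm
          · exact hy.trans e21.symm
        rw [this] at hμ0
        exact mem_support_iff.1 hμ0 h0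
    obtain ⟨P', hP', hs'⟩ := KeA_split R ν3
    have h3 : D ω (ev P' f1 f3) ≤ 5 * δ := by
      refine KeA_le ω (by linarith) fun μ hμ => ?_
      obtain ⟨h4, h5⟩ := hs' μ hμ
      have h6 := hsup μ h4
      have h7 : 2 * μ 0 + 3 * μ 1 ≤ 5 := by
        refine KeA_lt3 h6 ?_ ?_
        · rintro ⟨hx, hy⟩
          apply h5
          ext l
          fin_cases l
          · exact hx.trans e30.symm
          · exact hy.trans e31.symm
        · rintro ⟨hx, hy⟩
          have : μ = ν2 := by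
            ext l
            fin_cases l
            · exact hx.trans e20.symm
            · exact hy.trans e21.symm
          rw [this] at h4
          exact mem_support_iff.1 h4 h0
      have h8 : (2 * μ 0 + 3 * μ 1 : ℝ) ≤ 5 := by exact_mod_cast h7
      rw [hd1, hd3]
      nlinarith
    have hc : coeff ν3 R ≠ 0 := by
      rw [← hμ3]
      exact mem_support_iff.1 hμ0
    have h4 : D ω (C (coeff ν3 R) * f1 ^ ν3 0 * f3 ^ ν3 1) = 6 * δ := by
      rw [e30, e31, pow_zero, mul_one, D_C_mul ω hc, D_pow, hd1]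
      push_cast
      ring
    have h5 : D ω (ev R f1 f3) = 6 * δ := by
      rw [hP' f1 f3, D_add_left ω (by rw [h4]; linarith), h4]
    linarith
  -- the derivative
  have hQ : D ω (ev (pderiv 1 R) f1 f3) = 3 * δ := by
    let ν1 : Fin 2 →₀ ℕ := Finsupp.single 1 1
    have e10 : ν1 0 = 0 := by simp [ν1]
    have e11 : ν1 1 = 1 := by simp [ν1]
    obtain ⟨P', hP', hs'⟩ := KeA_split (pderiv 1 R) ν1
    have h3 : D ω (ev P' f1 f3) ≤ 2 * δ := by
      refine KeA_le ω (by linarith) fun μ hμ => ?_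
      obtain ⟨h4, h5⟩ := hs' μ hμ
      have h6 := hsup _ (KeA_supp h4)
      have h7 : (μ + (Finsupp.single 1 1 : Fin 2 →₀ ℕ)) 0 = μ 0 := by simp
      have h8 : (μ + (Finsupp.single 1 1 : Fin 2 →₀ ℕ)) 1 = μ 1 + 1 := by simp
      rw [h7, h8] at h6
      have h9 : μ 1 = 0 := by
        by_contra hne
        have hx : μ 0 = 0 := by omega
        have hy : μ 1 = 1 := by omega
        apply h5
        ext l
        fin_cases l
        · exact hx.trans e10.symm
        · exact hy.trans e11.symm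
      have h10 : μ 0 ≤ 1 := by omega
      have h11 : (μ 0 : ℝ) ≤ 1 := by exact_mod_cast h10
      rw [hd1, hd3, h9]
      push_cast
      nlinarith
    have hc : coeff ν1 (pderiv 1 R) ≠ 0 := by
      rw [coeff_pderiv]
      have h4 : ν1 + Finsupp.single 1 1 = ν2 := by
        ext l
        fin_cases l <;> simp [ν1, ν2]
      rw [h4, e11]
      push_cast
      exact mul_ne_zero hκ (by norm_num)
    have h4 : D ω (C (coeff ν1 (pderiv 1 R)) * f1 ^ ν1 0 * f3 ^ ν1 1) = 3 * δ := by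
      rw [e10, e11, pow_zero, mul_one, pow_one, D_C_mul ω hc, hd3]
    rw [hP' f1 f3, D_add_left ω (by rw [h4]; linarith), h4]
  have hQ0 : ev (pderiv 1 R) f1 f3 ≠ 0 := by
    intro h0
    rw [h0, D_zero] at hQ
    linarith
  have h12 : d ω f1 f2 = 3 * δ + d ω f1 f3 := by
    have h3 : cr f1 f2 = cr f1 (f2 + ev R f1 f3) + -(ev (pderiv 1 R) f1 f3 • cr f1 f3) := by
      rw [cr_add_right, cr_ev_right, cr_self, smul_zero, zero_add]
      abel
    have h4 : N ω (-(ev (pderiv 1 R) f1 f3 • cr f1 f3)) = 3 * δ + d ω f1 f3 := by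
      rw [N_neg, N_smul ω hQ0 H.cr13, hQ]
      rfl
    have h5 : N ω (cr f1 (f2 + ev R f1 f3)) < N ω (-(ev (pderiv 1 R) f1 f3 • cr f1 f3)) := by
      rw [h4]
      have h6 := d_le ω f1 (f2 + ev R f1 f3)
      have h7 : N ω (cr f1 (f2 + ev R f1 f3)) = d ω f1 (f2 + ev R f1 f3) := rfl
      rw [h7]
      linarith
    have h6 : d ω f1 f2 = N ω (cr f1 f2) := rfl
    rw [h6, h3, N_add_right ω h5, h4]
  refine ⟨ht, htb, h12, ?_⟩
  obtain ⟨p1, p2, p3⟩ := ptm ω H
  rw [h12, hd1, hd3] at p1 p2 p3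
  have p1' : 2 * δ + d ω f2 f3 ≤ 6 * δ + d ω f1 f3 := by
    refine p1.trans (max_le ?_ ?_) <;> linarith
  have p3' : 6 * δ + d ω f1 f3 ≤ 2 * δ + d ω f2 f3 := by
    rcases le_max_iff.1 p3 with h | h
    · linarith
    · linarith
  linarith

theorem k2 {ω : Wts} {f1 f2 f3 : B k} {δ : ℝ} (hp : Piv ω f1 f2 f3 δ) {R : MvPolynomial (Fin 2) k}
    (h1 : D ω (f2 + ev R f1 f3) < D ω f2) (h2 : D ω (f2 + ev R f1 f3) < δ + d ω f1 f3) {α : k} (hα : α ≠ 0) :
    d ω f1 (f3 + C α * f2 ^ 2) = D ω f2 + 3 * δ + d ω f1 f3 ∧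
    d ω f2 (f3 + C α * f2 ^ 2) = 4 * δ + d ω f1 f3 ∧
    D ω f2 + δ + d ω f1 f3 ≤ D ω (f3 + C α * f2 ^ 2) ∧ D ω (f3 + C α * f2 ^ 2) ≤ 3 * δ ∧
    2 * δ < D ω (f3 + C α * f2 ^ 2) := by
  obtain ⟨ht, htb, h12, h23⟩ := k1 hp h1 h2
  have H := hp.ju
  have hd1 := hp.d1
  have hd3 := hp.d3
  have hlo := hp.lo
  have hhi := hp.hi
  have hδ : 0 < δ := by
    have := (JU.pos ω H).1
    linarith
  have hf2 : f2 ≠ 0 := by
    rintro rfl
    rw [D_zero] at hlo
    linarith
  have hA : d ω f1 (f3 + C α * f2 ^ 2) = D ω f2 + 3 * δ + d ω f1 f3 := by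
    have h3 : cr f1 (f3 + C α * f2 ^ 2) = cr f1 f3 + (C (2 * α) * f2 : B k) • cr f1 f2 := by
      rw [cr_add_right, cr_C_mul_right, pow_two, cr_mul_right, ← add_smul, smul_smul]
      congr 2
      rw [C_mul, show (C (2 : k) : B k) = 2 from rfl]
      ring
    have h4 : N ω ((C (2 * α) * f2 : B k) • cr f1 f2) = D ω f2 + (3 * δ + d ω f1 f3) := by
      have h5 : (2 * α : k) ≠ 0 := mul_ne_zero two_ne_zero hα
      have h6 : (C (2 * α) * f2 : B k) ≠ 0 := mul_ne_zero (by rw [Ne, C_eq_zero]; exact h5) hf2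
      rw [N_smul ω h6 H.cr12, D_C_mul ω h5, ← h12]
      rfl
    have h5 : d ω f1 (f3 + C α * f2 ^ 2) = N ω (cr f1 (f3 + C α * f2 ^ 2)) := rfl
    rw [h5, h3, N_add_right ω, h4]
    · ring
    · rw [h4]
      have h6 : N ω (cr f1 f3) = d ω f1 f3 := rfl
      rw [h6]
      linarith
  have hB : d ω f2 (f3 + C α * f2 ^ 2) = 4 * δ + d ω f1 f3 := by
    have h3 : cr f2 (f3 + C α * f2 ^ 2) = cr f2 f3 := by
      rw [cr_add_right, cr_C_mul_right, pow_two, cr_mul_right, cr_self]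
      simp
    have h5 : d ω f2 (f3 + C α * f2 ^ 2) = N ω (cr f2 (f3 + C α * f2 ^ 2)) := rfl
    rw [h5, h3, ← h23]
    rfl
  have hC : D ω f2 + δ + d ω f1 f3 ≤ D ω (f3 + C α * f2 ^ 2) := by
    have h3 := d_le ω f1 (f3 + C α * f2 ^ 2)
    linarith
  have hD : D ω (f3 + C α * f2 ^ 2) ≤ 3 * δ := by
    refine (D_add_le ω _ _).trans (max_le hd3.le ?_)
    rw [D_C_mul ω hα, D_pow]
    push_cast
    linarith
  exact ⟨hA, hB, hC, hD, by linarith⟩

theorem ke_lt {ω : Wts} {X Y : Submodule k (B k)} (h : KE ω X Y) : S ω Y < S ω X := by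
  obtain ⟨f1, f2, f3, δ, α, R, hp, hα, h1, h2, rfl, rfl⟩ := h
  obtain ⟨ht, htb, h12, h23⟩ := k1 hp h1 h2
  obtain ⟨hA, hB, hC, hD, hE⟩ := k2 hp h1 h2 hα
  have H := hp.ju
  have hd1 := hp.d1
  have hd3 := hp.d3
  have hlo := hp.lo
  have hhi := hp.hi
  have hδ : 0 < δ := by
    have := (JU.pos ω H).1
    linarith
  have HX : JU f1 f2 (f3 + C α * f2 ^ 2) := by
    have h3 := H.add_ev (C α * X 1 ^ 2 : MvPolynomial (Fin 2) k)
    have h4 : ev (C α * X 1 ^ 2 : MvPolynomial (Fin 2) k) f1 f2 = C α * f2 ^ 2 := by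
      rw [pow_two, ev_mul, ev_mul, ev_C, ev_X1, pow_two]
    rw [h4] at h3
    exact h3
  have HY : JU f1 (f2 + ev R f1 f3) f3 := (H.swap'.add_ev R).swap'
  have hX := S_eq ω HX (by linarith) (by linarith) (by linarith)
  have hY := S_le ω HY
  rw [hX]
  refine hY.trans_lt ?_
  rcases hhi.lt_or_eq with hb | hb
  · have h3 : D ω (f3 + C α * f2 ^ 2) = 3 * δ := by
      rw [D_add_left ω, hd3]
      rw [D_C_mul ω hα, D_pow]
      push_cast
      linarith
    rw [h3]
    linarith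
  · linarith

end SU
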