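import Pool.Agent.Lib.MP_374dcb_al.EeLt
import Pool.Agent.Lib.MP_374dcb_al.EeE
import Pool.Agent.Lib.MP_374dcb_al.Clo

/-!
# JOB RT: the reduction theorem

`ee`: two weak neighbours `X`, `Y` of `V` are connected: `common`; first alternative: `conn_center`; second: `Sit`, and `ee_lt`, `ee_eq`, or (if `D f3 < D f2`) `ee_lt` for `Sit.symm` and `Conn.symm`.
`rt_step`: assume `IHyp k ω (S ω V)`, `RR ω V`, `U` a neighbour of `V`. If `S V < S U`: `RR.red U V` (`Adj.symm`). Otherwise `U` is weak. Cases of `RR ω V`: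
 - base: `S V = eps`, `S U ≤ eps`, and `eps ≤ S U` (`S_ge_eps`, `Adj.vert_right`): `RR.base`.
 - strict neighbour `X ∈ RR`: `ee` for `X`, `U`: `(ee ..).1`.
 - K-edge `V → y`, `y ∈ RR`: `clo`: `U = V`: done. Or `v` with `S v = S V`: `ee` for `v` (with `IHyp k ω (S ω v)` by rewriting), neighbours `y` (strict, `S y < S V = S v`, in `RR`) and `U` (weak: `S U ≤ S V = S v`): `U ∈ RR`.
`RT`: `IHyp k ω (S ω V)` for all vertices `V` by `vert_induction` with the predicate `fun V => RR ω V → ∀ U, Adj V U → RR ω U`: for `V` assume it for all vertices `W` with `S W < S V`: this is `IHyp k ω (S ω V)` (`RR.vert`), and `rt_step` applies.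
-/

set_option autoImplicit false

open MvPolynomial

namespace SU

universe u
variable {k : Type u} [Field k] [CharZero k]

theorem ee {ω : Wts} {V X Y : Submodule k (B k)} (IH : IHyp k ω (S ω V)) (hX : Adj V X) (hY : Adj V Y)
    (wX : S ω X ≤ S ω V) (wY : S ω Y ≤ S ω V) : Conn ω V X Y := by
  rcases common ω hX hY wX wY with ⟨u, v, w, P, Q, H, _, rfl, rfl⟩ | ⟨f1, f2, f3, P, Q, s⟩
  · exact conn_center IH H P Q
  · rcases lt_trichotomy (D ω f2) (D ω f3) with h | h | h
    · exact ee_lt IH s h
    · exact ee_eq IH s h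
    · exact (ee_lt IH s.symm h).symm

theorem rt_step {ω : Wts} {V U : Submodule k (B k)} (IH : IHyp k ω (S ω V)) (hV : RR ω V) (hU : Adj V U) :
    RR ω U := by
  rcases lt_or_ge (S ω V) (S ω U) with hlt | hle
  · exact RR.red U V hU.symm hlt hV
  · cases hV with
    | base _ hv he =>
      refine RR.base U hU.vert_right ?_
      have h1 := S_ge_eps ω hU.vert_right
      linarith
    | red _ X hX hS hR => exact (ee IH hX hU hS.le hle).1 hR hS
    | ks _ y hK hR =>
      rcases clo hK hU hle with rfl | ⟨v, hv, hvU, hvy, hy⟩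
      · exact RR.ks _ _ hK hR
      · have IH' : IHyp k ω (S ω v) := by rw [hv]; exact IH
        exact (ee IH' hvy hvU (by rw [hv]; exact hy.le) (by rw [hv]; exact hle)).1 hR
          (by rw [hv]; exact hy)

/-- The reduction theorem: the class of reducible vertices is closed under adjacency. -/
theorem RT (ω : Wts) {V U : Submodule k (B k)} (hV : RR ω V) (hU : Adj V U) : RR ω U := by
  have key : ∀ V : Submodule k (B k), Vert V → RR ω V → ∀ U, Adj V U → RR ω U := by
    refine vert_induction ω (fun V => RR ω V → ∀ U, Adj V U → RR ω U) ?_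
    intro V hv ih hr U hU
    exact rt_step (fun W Z hW hS hA => ih W hW.vert hS hW Z hA) hr hU
  exact key V hV.vert hV U hU

end SU
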