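import Pool.Agent.Lib.MP_374dcb_al.AutG
import Pool.Agent.Lib.MP_374dcb_al.RT

/-!
# JOB TRR: tame automorphisms give vertices in `RR`

`std_RR`: `sp (X 0) (X 1) (X 2)` is a vertex (`aut_JU 1` or directly) with `D (X i) = ω.w i` (`D_X`), `S ≤ ω.eps` (`S_le`), `≥` by `S_ge_eps`: `RR.base`.
`TT_RR`: let `P φ` be the statement `RR ω ((sp (X 0) (X 1) (X 2)).map φ)`. `TT k = G_2 ⊔ G_3` is the closure of the union; use `Subgroup.closure_induction_right` (or `Subgroup.sup_eq_closure`, induction on words): `P 1`, and `P θ → P (θ * g)` for `g ∈ G_2 ∪ G_3` (closed under inverses).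
 `g ∈ G_3`: `g` maps `flag k 3 2 = sp X0 X1 X2` onto itself, so `(sp ..).map (θ * g) = ((sp ..).map g).map θ = (sp ..).map θ`.
 `g ∈ G_2`: `(sp X0 X1 X2).map g = sp (g X0) (g X1) (g X2) = sp X0 X1 (g X2)` (`pl (g X0) (g X1) = pl X0 X1` by `flag1`, `sp_of_pl`), `g X2 = C e * X 2 + ev P X0 X1` (`G2_form`). So
 `(sp ..).map (θ * g) = sp (θ X0) (θ X1) (C e * θ X2 + ev P (θ X0) (θ X1))`, adjacent to `(sp ..).map θ = sp (θ X0) (θ X1) (θ X2)` (`adj_center` with `aut_JU θ`). `RT`.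
-/

set_option autoImplicit false

open MvPolynomial

namespace SU

universe u
variable {k : Type u} [Field k] [CharZero k]

omit [CharZero k] in
theorem TRR_map_pl (φ : Au k) (f g : B k) : (pl f g).map φ.toLinearMap = pl (φ f) (φ g) := by
  unfold pl
  rw [Submodule.map_span, Set.image_insert_eq, Set.image_insert_eq, Set.image_singleton]
  have h1 : φ.toLinearMap (1 : B k) = 1 := map_one φ
  rw [h1]
  rfl

omit [CharZero k] in
theorem TRR_JU : JU (X 0 : B k) (X 1) (X 2) := by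
  have h := aut_JU (1 : Au k)
  simpa only [AlgEquiv.one_apply] using h

omit [CharZero k] in
theorem TRR_mul_map (θ g : Au k) (M : Submodule k (B k)) :
    M.map (θ * g).toLinearMap = (M.map g.toLinearMap).map θ.toLinearMap := by
  have h : (θ * g).toLinearMap = θ.toLinearMap ∘ₗ g.toLinearMap := rfl
  rw [h, Submodule.map_comp]

theorem std_RR (ω : Wts) : RR ω (sp (X 0) (X 1) (X 2) : Submodule k (B k)) := by
  have hv : Vert (sp (X 0) (X 1) (X 2) : Submodule k (B k)) := ⟨X 0, X 1, X 2, TRR_JU, rfl⟩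
  apply RR.base _ hv
  apply le_antisymm
  · have h := S_le ω (TRR_JU (k := k))
    rw [D_X, D_X, D_X] at h
    exact h
  · exact S_ge_eps ω hv

theorem TRR_step (ω : Wts) {θ g : Au k} (hg : g ∈ flagStab k 3 1 ∨ g ∈ flagStab k 3 2)
    (h : RR ω (sp (θ (X 0)) (θ (X 1)) (θ (X 2)))) :
    RR ω (sp ((θ * g) (X 0)) ((θ * g) (X 1)) ((θ * g) (X 2))) := by
  rcases hg with hg | hg
  · have h1 : (flag k 3 1).map g.toLinearMap = flag k 3 1 := hg
    obtain ⟨e, P, he, hP⟩ := G2_form hg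
    have h2 : pl ((θ * g) (X 0)) ((θ * g) (X 1)) = pl (θ (X 0)) (θ (X 1)) := by
      rw [← TRR_map_pl, TRR_mul_map, ← flag1, h1, flag1, TRR_map_pl]
    have h3 : (θ * g) (X 2) = C e * θ (X 2) + ev P (θ (X 0)) (θ (X 1)) := by
      have h4 : (θ * g) (X 2) = θ (g (X 2)) := rfl
      have h5 : θ (C e) = C e := θ.commutes e
      rw [h4, hP, map_add, map_mul, h5, ev_map]
    rw [sp_of_pl h2]
    exact RT ω h (adj_center (aut_JU θ) he P h3)
  · have h1 : (flag k 3 2).map g.toLinearMap = flag k 3 2 := hg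
    have h2 : sp ((θ * g) (X 0)) ((θ * g) (X 1)) ((θ * g) (X 2)) = sp (θ (X 0)) (θ (X 1)) (θ (X 2)) := by
      rw [← map_sp, TRR_mul_map, ← flag2, h1, flag2, map_sp]
    rw [h2]
    exact h

theorem TT_RR (ω : Wts) {φ : Au k} (hφ : φ ∈ TT k) : RR ω (sp (φ (X 0)) (φ (X 1)) (φ (X 2))) := by
  have key : ∀ x ∈ Subgroup.closure ((flagStab k 3 1 : Set (Au k)) ∪ (flagStab k 3 2 : Set (Au k))),
      RR ω (sp (x (X 0)) (x (X 1)) (x (X 2))) := by
    intro x hx
    refine Subgroup.closure_induction_right (p := fun x _ => RR ω (sp (x (X 0)) (x (X 1)) (x (X 2))))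
      ?_ ?_ ?_ hx
    · have h := std_RR (k := k) ω
      simpa only [AlgEquiv.one_apply] using h
    · intro x _ y hy h
      exact TRR_step ω hy h
    · intro x _ y hy h
      refine TRR_step ω ?_ h
      rcases hy with hy | hy
      · exact Or.inl (inv_mem hy)
      · exact Or.inr (inv_mem hy)
  apply key
  rw [← Subgroup.sup_eq_closure]
  exact hφ

end SU
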