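import Pool.Agent.Lib.MP_374dcb_al.Fre
import Pool.Agent.Lib.MP_374dcb_al.TRR

/-!
# JOB Wild: `ex` is not tame

`exists_wts`: choose a real `θ` with `1 < θ < 2` which is not a root of a nonzero polynomial of degree `≤ 2` with rational coefficients (e.g. `θ` transcendental: the algebraic numbers are countable, `Algebraic.countable`, and an interval is not; or `θ = 2 ^ (1/3)`). Weights
`(θ^2, 1, θ)`: `wt m = m 0 θ^2 + m 1 + m 2 θ`; equality for `m, m'` gives the polynomial `(m 0 - m' 0) T^2 + (m 2 - m' 2) T + (m 1 - m' 1)` with root `θ`, so `m = m'`. `w 1 = 1 < w 2 = θ < w 0 = θ^2`.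
`wild_deg`: `a = w 0 > c = w 2 > b = w 1 > 0`. `D F = a + c` (`D (x z) = a + c > 2 b = D (y^2)`; `D_sub_left`). `D r = 3a` (`D (y F) = a + b + c < 3a`). `D G = 5a` (`D (z F^2) = 2a + 3c`, `D (2 x^2 y F) = 3a + b + c`). `D (F^2 G) = 7a + 2c`, `D (2 F r) = 4a + c`: `D (ex x) = 7a + 2c`.
 `D (ex r) = D (r - F G) = 6a + c`; `D (ex r - (ex x)^3) = 21a + 6c`, `ex_rel1`: `D (ex y) = 20a + 5c` (`D_mul`, nonzero). `D (F + (ex y)^2) = 40a + 10c`, `ex_rel2`: `D (ex z) = 33a + 8c`.
`wild_inj`: for `p, q : ℕ`, `p * r_i = q * r_j` (`i ≠ j`) for `(r_1,r_2,r_3) = (7a+2c, 20a+5c, 33a+8c)` implies `p = q = 0`; and `i r_1 + j r_2 ≠ r_3`, `i r_1 + j r_3 ≠ r_2`, `i r_2 + j r_3 ≠ r_1`: by injectivity of the weights these are equations of exponents `(7,0,2)`, `(20,0,5)`, `(33,0,8)` (`omega`).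
`wild_not_RR`: suppose `RR ω V`, `V = sp x' y' z'`, `D x' < D y' < D z'`. Cases: base: `S V = r_1 + r_2 + r_3 > ω.eps` (`S_eq`). K-source: `ke_inv` for `(x',y',z')`: `D z' ≤ 3δ < 3 D x' = 21a + 6c`, but `D z' = 33a + 8c`. Strict neighbour: `types_strict`; in each of the three cases the center is
 `(u,v)` with `D u, D v` two of the `r_i` and `D (ev R u v) = ` the third (`D_of_add_lt`); `cr u v ≠ 0` (`JU.of_span` and `JU.cr12`); `par'`: the second alternative contradicts `wild_inj` (`p D u = q D v`), the first one: the degree is attained (`exists_vd`, `D_ev_le`): `i D u + j D v = ` the third one: contradiction.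
`ex_not_TT`: `TT_RR` for `φ = ex`.
-/

set_option autoImplicit false

open MvPolynomial

namespace SU

universe u
variable {k : Type u} [Field k] [CharZero k]

theorem exists_wts : ∃ ω : Wts, ω.w 1 < ω.w 2 ∧ ω.w 2 < ω.w 0 := by
  obtain ⟨θ, hθ, h1, h2⟩ := ((Algebraic.countable ℤ ℝ).dense_compl ℝ).exists_between (show (1 : ℝ) < 2 by norm_num)
  have htr : ∀ p : Polynomial ℤ, Polynomial.aeval θ p = 0 → p = 0 := by
    intro p hp
    by_contra hne
    exact hθ ⟨p, hne, hp⟩
  have hw : ∀ m : Fin 3 →₀ ℕ, wt ![θ ^ 2, 1, θ] m = m 0 * θ ^ 2 + m 1 + m 2 * θ := by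
    intro m
    rw [wt_fin3]
    simp
  refine ⟨⟨![θ ^ 2, 1, θ], ?_, ?_⟩, ?_, ?_⟩
  · intro i
    fin_cases i
    · show (0 : ℝ) < θ ^ 2
      positivity
    · show (0 : ℝ) < 1
      norm_num
    · show (0 : ℝ) < θ
      linarith
  · intro m m' h
    rw [hw, hw] at h
    have h3 := htr (Polynomial.C ((m 0 : ℤ) - m' 0) * Polynomial.X ^ 2 +
      Polynomial.C ((m 2 : ℤ) - m' 2) * Polynomial.X + Polynomial.C ((m 1 : ℤ) - m' 1)) (by
      simp only [map_add, map_mul, map_pow, Polynomial.aeval_X, Polynomial.aeval_C]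
      simp
      linarith)
    have h4 := congrArg (fun p : Polynomial ℤ => p.coeff 2) h3
    have h5 := congrArg (fun p : Polynomial ℤ => p.coeff 1) h3
    have h6 := congrArg (fun p : Polynomial ℤ => p.coeff 0) h3
    simp only [Polynomial.coeff_add, Polynomial.coeff_C_mul, Polynomial.coeff_X_pow, Polynomial.coeff_X,
      Polynomial.coeff_C, Polynomial.coeff_zero] at h4 h5 h6
    norm_num at h4 h5 h6
    ext i
    fin_cases i
    · show m 0 = m' 0
      omega
    · show m 1 = m' 1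
      omega
    · show m 2 = m' 2
      omega
  · show (1 : ℝ) < θ
    exact h1
  · show θ < θ ^ 2
    nlinarith

omit [CharZero k] in
private theorem wild_two (ω : Wts) (f : B k) : D ω (2 * f) ≤ D ω f := by
  have h : (2 : B k) = C 2 := by
    rw [map_ofNat]
  rw [h]
  exact D_C_mul_le ω _ _

omit [CharZero k] in
private theorem wild_F {ω : Wts} (h1 : ω.w 1 < ω.w 2) (h2 : ω.w 2 < ω.w 0) :
    D ω (pF k) = ω.w 0 + ω.w 2 := by
  rw [pF, D_sub_left ω, D_mul ω (X_ne_zero 0) (X_ne_zero 2), D_X, D_X]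
  rw [D_mul ω (X_ne_zero 0) (X_ne_zero 2), D_pow, D_X, D_X, D_X]
  push_cast
  linarith

omit [CharZero k] in
private theorem wild_ne {ω : Wts} {f : B k} (h : 0 < D ω f) : f ≠ 0 := by
  rintro rfl
  rw [D_zero] at h
  exact lt_irrefl _ h

omit [CharZero k] in
private theorem wild_F0 {ω : Wts} (h1 : ω.w 1 < ω.w 2) (h2 : ω.w 2 < ω.w 0) : pF k ≠ 0 := by
  have h3 := ω.pos 0
  have h4 := ω.pos 2
  exact wild_ne (ω := ω) (by rw [wild_F h1 h2]; linarith)

private theorem wild_r {ω : Wts} (h1 : ω.w 1 < ω.w 2) (h2 : ω.w 2 < ω.w 0) :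
    D ω (pr k) = 3 * ω.w 0 := by
  rw [pr, D_add_left ω, D_pow, D_X]
  · push_cast
    ring
  · rw [D_mul ω (X_ne_zero 1) (wild_F0 h1 h2), D_pow, D_X, D_X, wild_F h1 h2]
    push_cast
    linarith

omit [CharZero k] in
private theorem wild_G {ω : Wts} (h1 : ω.w 1 < ω.w 2) (h2 : ω.w 2 < ω.w 0) :
    D ω (pG k) = 5 * ω.w 0 := by
  have hF := wild_F (k := k) h1 h2
  have h3 := ω.pos 0
  rw [pG, D_add_right ω, D_pow, D_X]
  · push_cast
    ring
  · rw [D_pow ω (X 0), D_X]
    refine lt_of_le_of_lt (D_add_le ω _ _) (max_lt ?_ ?_)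
    · refine lt_of_le_of_lt (D_mul_le ω _ _) ?_
      rw [D_pow, D_X, hF]
      push_cast
      linarith
    · refine lt_of_le_of_lt (D_mul_le ω _ _) ?_
      refine lt_of_le_of_lt (add_le_add_left (D_mul_le ω _ _) _) ?_
      refine lt_of_le_of_lt (add_le_add_left (add_le_add_left (wild_two ω _) _) _) ?_
      rw [D_pow, D_X, D_X, hF]
      push_cast
      linarith

theorem wild_deg {ω : Wts} (h1 : ω.w 1 < ω.w 2) (h2 : ω.w 2 < ω.w 0) :
    D ω (ex k (X 0)) = 7 * ω.w 0 + 2 * ω.w 2 ∧ D ω (ex k (X 1)) = 20 * ω.w 0 + 5 * ω.w 2 ∧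
    D ω (ex k (X 2)) = 33 * ω.w 0 + 8 * ω.w 2 := by
  have hF := wild_F (k := k) h1 h2
  have hr := wild_r (k := k) h1 h2
  have hG := wild_G (k := k) h1 h2
  have h3 := ω.pos 0
  have h4 := ω.pos 2
  have hF0 : pF k ≠ 0 := wild_F0 h1 h2
  have hG0 : pG k ≠ 0 := wild_ne (ω := ω) (by rw [hG]; linarith)
  have e0 : D ω (ex k (X 0)) = 7 * ω.w 0 + 2 * ω.w 2 := by
    have h5 : D ω (pF k ^ 2 * pG k) = 7 * ω.w 0 + 2 * ω.w 2 := by
      rw [D_mul ω (pow_ne_zero 2 hF0) hG0, D_pow, hF, hG]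
      push_cast
      ring
    rw [ex_x, D_add_right ω, h5]
    rw [h5]
    refine lt_of_le_of_lt (D_sub_le ω _ _) (max_lt ?_ ?_)
    · rw [D_X]
      linarith
    · refine lt_of_le_of_lt (D_mul_le ω _ _) ?_
      refine lt_of_le_of_lt (add_le_add_left (wild_two ω _) _) ?_
      rw [hF, hr]
      linarith
  have er : D ω (ex k (pr k)) = 6 * ω.w 0 + ω.w 2 := by
    have h5 : D ω (pF k * pG k) = 6 * ω.w 0 + ω.w 2 := by
      rw [D_mul ω hF0 hG0, hF, hG]
      ring
    rw [ex_r, D_sub_right ω, h5]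
    rw [h5, hr]
    linarith
  have e1 : D ω (ex k (X 1)) = 20 * ω.w 0 + 5 * ω.w 2 := by
    have h5 : D ω (ex k (X 0) ^ 3) = 21 * ω.w 0 + 6 * ω.w 2 := by
      rw [D_pow, e0]
      push_cast
      ring
    have h6 : D ω (pF k * ex k (X 1)) = 21 * ω.w 0 + 6 * ω.w 2 := by
      rw [ex_rel1, D_sub_right ω, h5]
      rw [h5, er]
      linarith
    have h7 : ex k (X 1) ≠ 0 := by
      intro h
      rw [h, mul_zero, D_zero] at h6
      linarith
    rw [D_mul ω hF0 h7, hF] at h6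
    linarith
  have e2 : D ω (ex k (X 2)) = 33 * ω.w 0 + 8 * ω.w 2 := by
    have h5 : D ω (ex k (X 1) ^ 2) = 40 * ω.w 0 + 10 * ω.w 2 := by
      rw [D_pow, e1]
      push_cast
      ring
    have h6 : D ω (ex k (X 0) * ex k (X 2)) = 40 * ω.w 0 + 10 * ω.w 2 := by
      rw [ex_rel2, D_add_right ω, h5]
      rw [h5, hF]
      linarith
    have h7 : ex k (X 2) ≠ 0 := by
      intro h
      rw [h, mul_zero, D_zero] at h6
      linarith
    have h8 : ex k (X 0) ≠ 0 := wild_ne (ω := ω) (by rw [e0]; linarith)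
    rw [D_mul ω h8 h7, e0] at h6
    linarith
  exact ⟨e0, e1, e2⟩

private theorem wild_lin (ω : Wts) {p q p' q' : ℕ}
    (h : (p : ℝ) * ω.w 0 + q * ω.w 2 = p' * ω.w 0 + q' * ω.w 2) : p = p' ∧ q = q' := by
  have h1 := ω.inj (Finsupp.single 0 p + Finsupp.single 2 q) (Finsupp.single 0 p' + Finsupp.single 2 q') (by
    rw [wt_add, wt_add, wt_single, wt_single, wt_single, wt_single]
    exact h)
  have h2 := DFunLike.congr_fun h1 0
  have h3 := DFunLike.congr_fun h1 2
  simp only [Finsupp.add_apply, Finsupp.single_apply] at h2 h3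
  simp at h2 h3
  exact ⟨h2, h3⟩

private theorem wild_no {ω : Wts} {f g : B k} (h : cr f g ≠ 0) (R : MvPolynomial (Fin 2) k) {t : ℝ}
    (ht : D ω (ev R f g) = t) (t0 : 0 < t) (h1 : ∀ p q : ℕ, (p : ℝ) * D ω f = q * D ω g → p = 0)
    (h2 : ∀ i j : ℕ, (i : ℝ) * D ω f + j * D ω g ≠ t) : False := by
  rcases par' ω h R with h3 | ⟨m, p, q, i, j, -, h5, -, -, h7, -⟩
  · have hR : R ≠ 0 := by
      rintro rfl
      have h4 : ev (0 : MvPolynomial (Fin 2) k) f g = 0 := by
        rw [ev, map_zero]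
      rw [h4, D_zero] at ht
      linarith
    obtain ⟨m, hm, h4⟩ := exists_vd (D_nonneg ω f) (D_nonneg ω g) hR
    have h5 := D_ev_le ω R f g
    have h6 := h3 m hm
    exact h2 (m 0) (m 1) (by rw [← ht]; linarith)
  · have := h1 p q h7
    omega

theorem wild_not_RR {ω : Wts} {x' y' z' : B k} (H : JU x' y' z') (h1 : D ω x' = 7 * ω.w 0 + 2 * ω.w 2)
    (h2 : D ω y' = 20 * ω.w 0 + 5 * ω.w 2) (h3 : D ω z' = 33 * ω.w 0 + 8 * ω.w 2) : ¬RR ω (sp x' y' z') := by
  have p0 := ω.pos 0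
  have p1 := ω.pos 1
  have p2 := ω.pos 2
  have h12 : D ω x' < D ω y' := by
    rw [h1, h2]
    linarith
  have h23 : D ω y' < D ω z' := by
    rw [h2, h3]
    linarith
  rintro (⟨_, hv, hs⟩ | ⟨_, U, hA, hS, hU⟩ | ⟨_, U, hK, hU⟩)
  · rw [S_eq ω H (ne_of_lt h12) (ne_of_lt (h12.trans h23)) (ne_of_lt h23), h1, h2, h3, Wts.eps] at hs
    have h4 : ((60 : ℕ) : ℝ) * ω.w 0 + (15 : ℕ) * ω.w 2 = ω.w 0 + ω.w 1 + ω.w 2 := by
      push_cast
      linarith
    have h5 := ω.inj (Finsupp.single 0 60 + Finsupp.single 2 15)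
      (Finsupp.single 0 1 + Finsupp.single 1 1 + Finsupp.single 2 1) (by
      simp only [wt_add, wt_single]
      push_cast
      push_cast at h4
      linarith)
    have h6 := DFunLike.congr_fun h5 0
    simp only [Finsupp.add_apply, Finsupp.single_apply] at h6
    simp at h6
  · rcases types_strict ω H h12 h23 hA hS with ⟨R, -, hR⟩ | ⟨l, R, -, hR⟩ | ⟨m, l, R, -, hR⟩
    · have h4 := D_of_add_lt ω hR
      refine wild_no H.cr12 R h4 (by rw [h3]; linarith) ?_ ?_
      · intro p q hpq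
        rw [h1, h2] at hpq
        obtain ⟨h5, h6⟩ := wild_lin ω (p := 7 * p) (q := 2 * p) (p' := 20 * q) (q' := 5 * q) (by
          push_cast
          linarith)
        omega
      · intro i j hij
        rw [h1, h2, h3] at hij
        obtain ⟨h5, h6⟩ := wild_lin ω (p := 7 * i + 20 * j) (q := 2 * i + 5 * j) (p' := 33) (q' := 8) (by
          push_cast
          linarith)
        omega
    · have hz : D ω (z' + C l * y') = D ω z' := D_add_left ω (lt_of_le_of_lt (D_C_mul_le ω _ _) h23)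
      have h4 := D_of_add_lt ω hR
      have h5 : JU x' y' (z' + ev (C 0 * X 0 + C l * X 1 + C 0) x' y') := H.add_ev _
      rw [ev_lin] at h5
      have h6 : z' + (C 0 * x' + C l * y' + C 0) = z' + C l * y' := by
        rw [C_0]
        ring
      rw [h6] at h5
      refine wild_no h5.cr13 R h4 (by rw [h2]; linarith) ?_ ?_
      · intro p q hpq
        rw [hz, h1, h3] at hpq
        obtain ⟨h5, h6⟩ := wild_lin ω (p := 7 * p) (q := 2 * p) (p' := 33 * q) (q' := 8 * q) (by
          push_cast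
          linarith)
        omega
      · intro i j hij
        rw [hz, h1, h2, h3] at hij
        obtain ⟨h5, h6⟩ := wild_lin ω (p := 7 * i + 33 * j) (q := 2 * i + 8 * j) (p' := 20) (q' := 5) (by
          push_cast
          linarith)
        omega
    · have hz : D ω (z' + C l * x') = D ω z' := D_add_left ω (lt_of_le_of_lt (D_C_mul_le ω _ _) (h12.trans h23))
      have hy : D ω (y' + C m * x') = D ω y' := D_add_left ω (lt_of_le_of_lt (D_C_mul_le ω _ _) h12)
      have h4 := D_of_add_lt ω hR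
      have h5 : JU x' z' (y' + ev (C m * X 0 + C 0 * X 1 + C 0) x' z') := H.swap'.add_ev _
      rw [ev_lin] at h5
      have h6 : y' + (C m * x' + C 0 * z' + C 0) = y' + C m * x' := by
        rw [C_0]
        ring
      rw [h6] at h5
      have h7 : JU x' (y' + C m * x') (z' + ev (C l * X 0 + C 0 * X 1 + C 0) x' (y' + C m * x')) := h5.swap'.add_ev _
      rw [ev_lin] at h7
      have h8 : z' + (C l * x' + C 0 * (y' + C m * x') + C 0) = z' + C l * x' := by
        rw [C_0]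
        ring
      rw [h8] at h7
      refine wild_no h7.cr23 R h4 (by rw [h1]; linarith) ?_ ?_
      · intro p q hpq
        rw [hz, hy, h2, h3] at hpq
        obtain ⟨h5, h6⟩ := wild_lin ω (p := 20 * p) (q := 5 * p) (p' := 33 * q) (q' := 8 * q) (by
          push_cast
          linarith)
        omega
      · intro i j hij
        rw [hz, hy, h1, h2, h3] at hij
        obtain ⟨h5, h6⟩ := wild_lin ω (p := 20 * i + 33 * j) (q := 5 * i + 8 * j) (p' := 7) (q' := 2) (by
          push_cast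
          linarith)
        omega
  · obtain ⟨δ, t, hδ, ht, -, h5, -, h7, -⟩ := ke_inv hK H rfl h12 h23
    rw [h1] at h5
    rw [h3] at h7
    linarith

theorem ex_not_TT : ex k ∉ TT k := by
  intro h
  obtain ⟨ω, h1, h2⟩ := exists_wts
  obtain ⟨e0, e1, e2⟩ := wild_deg (k := k) h1 h2
  exact wild_not_RR (aut_JU (ex k)) e0 e1 e2 (TT_RR ω h)

end SU
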