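import Pool.Agent.Lib.MP_374dcb_al.CC11
import Pool.Agent.Lib.MP_374dcb_al.Wild
import Pool.Agent.Lib.MP_374dcb_al.H2
import Pool.Agent.Lib.MP_374dcb_al.GtA
import Pool.Agent.Lib.MP_374dcb_al.GtB
import Pool.Agent.Lib.MP_374dcb_al.GtC
import Pool.Agent.Lib.MP_374dcb_al.GtD

/-!
# JOB Main: the amalgam is not the automorphism group

Suppose `Amalg.toGroup (flagStab k 3)` is bijective. `G := flagStab k 3`, `A = G 0`, `T = G 1 ⊔ G 2 = TT k`, `H = (G 0 ⊓ G 1) ⊔ (G 0 ⊓ G 2) = HH k` (by definition). `gtD_inj`, `gtD_gen`, `gtA`: `A ⊓ T = H` and `NFm A T`. Let `s` be the scaling (`exists_sc`), `s ∈ A ⊓ T` (`sc_mem`; `T ≥ G 1`). `e := ex k`: `ex_conj`, `ex_not_G1`. `gtB`: `e = u c u⁻¹` with `c ∈ T`. `gtC` with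
`h2 = sc_conj hs`, `h3`: for `w ∈ A` with `w⁻¹ s w ∈ T`: `w⁻¹ s w ∈ A ⊓ T = H`, `claimC`: `w ∈ H ≤ T`. So `e ∈ T = TT k`, against `ex_not_TT`.
-/

set_option autoImplicit false

open MvPolynomial

namespace SU

universe u

theorem amalg_not_bijective (k : Type u) [Field k] [CharZero k] :
    ¬Function.Bijective (Amalg.toGroup (flagStab k 3)) := by
  intro hbij
  have hinj := gtD_inj (flagStab k 3) hbij
  have hgen := gtD_gen (flagStab k 3) hbij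
  obtain ⟨hH, nf⟩ := gtA (gtD_hA (flagStab k 3)) (gtD_hT (flagStab k 3)) hinj hgen
  obtain ⟨s, hs⟩ := exists_sc k
  obtain ⟨h0, h1, -⟩ := sc_mem hs
  have hT : flagStab k 3 1 ⊔ flagStab k 3 2 = TT k := rfl
  have hHH : (flagStab k 3 0 ⊓ flagStab k 3 1) ⊔ (flagStab k 3 0 ⊓ flagStab k 3 2) = HH k := rfl
  rw [hT] at nf
  rw [hT, hHH] at hH
  have hsT : s ∈ TT k := (le_sup_left : flagStab k 3 1 ≤ flagStab k 3 1 ⊔ flagStab k 3 2) h1
  have hσ : s ∈ flagStab k 3 0 ⊓ TT k := ⟨h0, hsT⟩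
  have he := ex_conj hs
  obtain ⟨u, c, hc, huc⟩ := gtB nf hσ he ex_not_G1
  refine ex_not_TT (gtC nf hσ he ex_not_G1 (fun t ht h => sc_conj hs ht h) ?_ hc huc)
  intro w hw hws
  have hmem : w⁻¹ * s * w ∈ HH k := by
    rw [← hH]
    exact ⟨(flagStab k 3 0).mul_mem ((flagStab k 3 0).mul_mem ((flagStab k 3 0).inv_mem hw) h0) hw, hws⟩
  exact HH_le' (claimC hs hw hmem)

end SU
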