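import Mathlib

/-!
# JOB ParR: multiplicity of a root of a polynomial in `X ^ p` (up to a power of `X`)

`T ≠ 0`, all exponents of `T` are congruent to `r` modulo `p` (`1 ≤ p`), `x ≠ 0`, `m` = multiplicity of the root `x` of `T`
(`T.rootMultiplicity x`). Claim: there is an exponent `a` in the support of `T` with `m * p ≤ a`.
Proof: all exponents of the support are `≡ a₀ mod p` for the smallest exponent `a₀`; so `T = X ^ a₀ * G(X ^ p)` with `G ≠ 0`
(`G := ∑ over the support of C (coeff) X ^ ((a - a₀) / p)`, `Polynomial.expand`). `natDegree T = a₀ + p * natDegree G`. Over the field `k` (characteristic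
zero): `(X - C (x ^ p)) ^ m ∣ G`: the multiplicity of `x` in `X ^ a₀` is `0` (`x ≠ 0`), so it is `m` for `G(X ^ p)`. Write
`G = (X - C (x^p)) ^ s * G₁` with `G₁.eval (x ^ p) ≠ 0`; then `G(X ^ p) = (X ^ p - C (x ^ p)) ^ s * G₁(X ^ p)`, `X ^ p - x ^ p` has the root `x` with
multiplicity exactly `1` (its derivative `p X ^ (p-1)` does not vanish at `x ≠ 0` in characteristic zero), and `G₁(x ^ p) ≠ 0`, so `m = s`
and `natDegree G ≥ s = m`. So `natDegree T ≥ m * p` and `a := natDegree T` is in the support.
`iter_eval`: if `m = rootMultiplicity x T` then `(derivative^[m] T).eval x ≠ 0` (characteristic zero;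
Mathlib: `Polynomial.eval_iterate_derivative_rootMultiplicity`).
-/

set_option autoImplicit false

namespace SU

open Polynomial

universe u
variable {k : Type u} [Field k] [CharZero k]

private theorem ParR_aux {p : ℕ} (hp : 1 ≤ p) {x : k} (hx : x ≠ 0) (e : ℕ) :
    ∀ G : k[X], G ≠ 0 → (X ^ e * expand k p G).rootMultiplicity x * p ≤ (X ^ e * expand k p G).natDegree := by
  have key : ∀ n : ℕ, ∀ G : k[X], G ≠ 0 → G.natDegree = n →
      (X ^ e * expand k p G).rootMultiplicity x * p ≤ (X ^ e * expand k p G).natDegree := by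
    intro n
    induction n with
    | zero =>
      intro G hG hn
      have hroot : ¬ IsRoot (X ^ e * expand k p G) x := by
        rw [eq_C_of_natDegree_eq_zero hn]
        intro h
        rw [IsRoot, eval_mul, eval_pow, eval_X, expand_C, eval_C] at h
        refine mul_ne_zero (pow_ne_zero _ hx) ?_ h
        intro h0
        apply hG
        rw [eq_C_of_natDegree_eq_zero hn, h0, C_0]
      rw [rootMultiplicity_eq_zero hroot, zero_mul]
      exact Nat.zero_le _
    | succ n ih =>
      intro G hG hn
      by_cases hev : G.eval (x ^ p) = 0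
      · obtain ⟨G₁, hG₁⟩ := dvd_iff_isRoot.2 hev
        have hG₁0 : G₁ ≠ 0 := by
          rintro rfl
          apply hG
          rw [hG₁, mul_zero]
        have hdeg : G₁.natDegree = n := by
          rw [hG₁, natDegree_mul (X_sub_C_ne_zero _) hG₁0, natDegree_X_sub_C] at hn
          omega
        have hih := ih G₁ hG₁0 hdeg
        have hE : X ^ e * expand k p G = (X ^ p - C (x ^ p)) * (X ^ e * expand k p G₁) := by
          rw [hG₁, map_mul, map_sub, expand_X, expand_C]
          ring
        have hp0 : 0 < p := hp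
        have hne1 : (X ^ p - C (x ^ p) : k[X]) ≠ 0 := X_pow_sub_C_ne_zero hp0 _
        have hne2 : (X ^ e * expand k p G₁ : k[X]) ≠ 0 :=
          mul_ne_zero (pow_ne_zero _ X_ne_zero) ((expand_ne_zero hp0).2 hG₁0)
        rw [hE, rootMultiplicity_mul (mul_ne_zero hne1 hne2), natDegree_mul hne1 hne2, natDegree_X_pow_sub_C]
        have hsep : Separable (X ^ p - C (x ^ p) : k[X]) :=
          separable_X_pow_sub_C _ (by exact_mod_cast (by omega : p ≠ 0)) (pow_ne_zero _ hx)
        have h1 := rootMultiplicity_le_one_of_separable hsep x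
        calc ((X ^ p - C (x ^ p) : k[X]).rootMultiplicity x + (X ^ e * expand k p G₁).rootMultiplicity x) * p
            = (X ^ p - C (x ^ p) : k[X]).rootMultiplicity x * p + (X ^ e * expand k p G₁).rootMultiplicity x * p := by ring
          _ ≤ 1 * p + (X ^ e * expand k p G₁).natDegree := add_le_add (Nat.mul_le_mul_right _ h1) hih
          _ = p + (X ^ e * expand k p G₁).natDegree := by rw [one_mul]
      · have hroot : ¬ IsRoot (X ^ e * expand k p G) x := by
          intro h
          rw [IsRoot, eval_mul, eval_pow, eval_X, expand_eval] at h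
          exact mul_ne_zero (pow_ne_zero _ hx) hev h
        rw [rootMultiplicity_eq_zero hroot, zero_mul]
        exact Nat.zero_le _
  exact fun G hG => key _ G hG rfl

private theorem ParR_form {T : k[X]} {p r : ℕ} (hr : ∀ a ∈ T.support, a ≡ r [MOD p]) :
    ∃ G : k[X], T = X ^ (r % p) * expand k p G := by
  refine ⟨∑ a ∈ T.support, monomial (a / p) (T.coeff a), ?_⟩
  rw [map_sum, Finset.mul_sum]
  conv_lhs => rw [T.as_sum_support]
  refine Finset.sum_congr rfl fun a ha => ?_
  rw [expand_monomial, X_pow_mul_monomial]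
  have h1 : a % p = r % p := hr a ha
  have h2 := Nat.div_add_mod a p
  have h3 : a / p * p + r % p = a := by
    rw [← h1, mul_comm]
    exact h2
  rw [h3]

theorem exp_of_root {T : k[X]} (hT : T ≠ 0) {p r : ℕ} (hp : 1 ≤ p) (hr : ∀ a ∈ T.support, a ≡ r [MOD p])
    {x : k} (hx : x ≠ 0) : ∃ a ∈ T.support, T.rootMultiplicity x * p ≤ a := by
  obtain ⟨G, rfl⟩ := ParR_form hr
  have hG : G ≠ 0 := by
    rintro rfl
    apply hT
    rw [map_zero, mul_zero]
  refine ⟨(X ^ (r % p) * expand k p G).natDegree, ?_, ParR_aux hp hx _ _ hG⟩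
  exact natDegree_mem_support_of_nonzero hT

theorem iter_eval {T : k[X]} (hT : T ≠ 0) (x : k) :
    (derivative^[T.rootMultiplicity x] T).eval x ≠ 0 := by
  rw [eval_iterate_derivative_rootMultiplicity, nsmul_eq_mul]
  refine mul_ne_zero ?_ (eval_divByMonic_pow_rootMultiplicity_ne_zero x hT)
  exact_mod_cast (Nat.factorial_pos _).ne'

end SU
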