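import Pool.Agent.Lib.MP_374dcb_al.ParT
import Pool.Agent.Lib.MP_374dcb_al.ParR

/-!
# JOB Par: the parachute inequality

`a := D f > 0`, `b := D g > 0` (`D_pos_of_cr`), `v := vd a b P`, `x, y` from `TP_ev`, `T := TP a b y P v ≠ 0` (`exists_vd`, `TP_coeff`). If
`T.eval x ≠ 0` then `D (ev P f g) = v`: first alternative. Otherwise `x ≠ 0` is a root of `T`, let `m := T.rootMultiplicity x ≥ 1`.
* `T` has at least two exponents (a monomial `c X ^ i` has no root `x ≠ 0`): so there are exponents `μ ≠ μ'` of `P` of weight `v`,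
  `(μ 0 - μ' 0) a = (μ' 1 - μ 1) b` with `μ 0 ≠ μ' 0`. So `a / b` is a positive rational number `q / p` (lowest terms): `p a = q b`, `p, q ≥ 1`
  coprime.
* for any two exponents `μ, μ'` of `P` of weight `v`: `(μ 0 - μ' 0) a = (μ' 1 - μ 1) b`, multiply by `p`: `(μ 0 - μ' 0) q b = (μ' 1 - μ 1) p b`, so
  `p ∣ (μ 0 - μ' 0) q`, `p ∣ μ 0 - μ' 0`. By `exp_of_root` (file ParR) there is an exponent `μ` of `P` of weight `v` with
  `μ 0 ≥ m p`: put `i := μ 0 - m p`, `j := μ 1`: `v = m (p a) + i a + j b`.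
* by `TP_deriv` (iterated) `derivative^[m] T = TP ((pderiv 0)^[m] P) (v - m a)`, all exponents of `(pderiv 0)^[m] P` have weight `≤ v - m a`
  (an exponent `μ` of `pderiv 0 Q` comes from the exponent `μ + single 0 1` of `Q`), and `iter_eval` gives the hypothesis of `TP_ev`: so
  `D (ev ((pderiv 0)^[m] P) f g) = v - m a`; in particular `(pderiv 0)^[m] P ≠ 0` (its top polynomial is nonzero) and `ch_iter`:
  `v - m a + m d ≤ D (ev P f g) + m b`.
* the last clause `D (ev P f g) < v`: `D (ev P f g) ≤ v` by `D_ev_le`; if `=` we are in the first alternative.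
-/

set_option autoImplicit false

open MvPolynomial

namespace SU

universe u
variable {k : Type u} [Field k] [CharZero k]

omit [CharZero k] in
private theorem Par_bound {a b : ℝ} (P : MvPolynomial (Fin 2) k) (v : ℝ)
    (hle : ∀ m ∈ P.support, (m 0 : ℝ) * a + m 1 * b ≤ v) (n : ℕ) :
    ∀ m ∈ ((pderiv 0)^[n] P).support, (m 0 : ℝ) * a + m 1 * b ≤ v - n * a := by
  induction n with
  | zero =>
    intro m hm
    have := hle m (by simpa using hm)
    push_cast
    linarith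
  | succ n ih =>
    intro m hm
    rw [Function.iterate_succ_apply', mem_support_iff, coeff_pderiv] at hm
    have h1 : m + Finsupp.single 0 1 ∈ ((pderiv 0)^[n] P).support := mem_support_iff.2 (left_ne_zero_of_mul hm)
    have h2 := ih _ h1
    have h3 : (m + Finsupp.single 0 1 : Fin 2 →₀ ℕ) 0 = m 0 + 1 := by simp
    have h4 : (m + Finsupp.single 0 1 : Fin 2 →₀ ℕ) 1 = m 1 := by simp
    rw [h3, h4] at h2
    push_cast at h2 ⊢
    linarith

private theorem Par_deriv {a b : ℝ} (ha : 0 < a) (hb : 0 < b) {y : k} (hy : y ≠ 0)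
    (P : MvPolynomial (Fin 2) k) (v : ℝ) (n : ℕ) :
    Polynomial.derivative^[n] (TP a b y P v) = TP a b y ((pderiv 0)^[n] P) (v - n * a) := by
  induction n with
  | zero => simp
  | succ n ih =>
    rw [Function.iterate_succ_apply', ih, TP_deriv ha hb hy, Function.iterate_succ_apply']
    have : v - (n : ℝ) * a - a = v - ((n + 1 : ℕ) : ℝ) * a := by push_cast; ring
    rw [this]

private theorem Par_coprime {a b : ℝ} (ha : 0 < a) (hb : 0 < b) {A Bn : ℕ} (hA : 1 ≤ A)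
    (h : (A : ℝ) * a = Bn * b) :
    ∃ p q : ℕ, 1 ≤ p ∧ 1 ≤ q ∧ Nat.Coprime p q ∧ (p : ℝ) * a = q * b := by
  have hA0 : 0 < A := hA
  have hB0 : 0 < Bn := by
    rcases Nat.eq_zero_or_pos Bn with h0 | h0
    · exfalso
      rw [h0] at h
      have : (0 : ℝ) < A * a := mul_pos (by exact_mod_cast hA0) ha
      rw [h] at this
      simp at this
    · exact h0
  obtain ⟨g, p, q, hg, hcop, hp, hq⟩ := Nat.exists_coprime' (m := A) (n := Bn) (Nat.gcd_pos_of_pos_left _ hA0)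
  refine ⟨p, q, ?_, ?_, hcop, ?_⟩
  · rcases Nat.eq_zero_or_pos p with h0 | h0
    · rw [h0, zero_mul] at hp
      omega
    · exact h0
  · rcases Nat.eq_zero_or_pos q with h0 | h0
    · rw [h0, zero_mul] at hq
      omega
    · exact h0
  · rw [hp, hq] at h
    push_cast at h
    have hg' : (0 : ℝ) < g := by exact_mod_cast hg
    have h1 : (g : ℝ) * (p * a) = g * (q * b) := by linarith
    exact mul_left_cancel₀ hg'.ne' h1

private theorem Par_cong {a b : ℝ} (ha : 0 < a) {p q : ℕ} (hcop : Nat.Coprime p q)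
    (hpq : (p : ℝ) * a = q * b) {v : ℝ} {m m' : Fin 2 →₀ ℕ}
    (h : (m 0 : ℝ) * a + m 1 * b = v) (h' : (m' 0 : ℝ) * a + m' 1 * b = v) : m 0 ≡ m' 0 [MOD p] := by
  have h1 : ((m 0 : ℝ) - m' 0) * q * a = (m' 1 - m 1) * p * a := by
    have e1 : ((m 0 : ℝ) - m' 0) * a = (m' 1 - m 1) * b := by linarith
    calc ((m 0 : ℝ) - m' 0) * q * a = (((m 0 : ℝ) - m' 0) * a) * q := by ring
      _ = ((m' 1 - m 1) * b) * q := by rw [e1]
      _ = (m' 1 - m 1) * (q * b) := by ring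
      _ = (m' 1 - m 1) * (p * a) := by rw [hpq]
      _ = (m' 1 - m 1) * p * a := by ring
  have h2 : ((m 0 : ℝ) - m' 0) * q = (m' 1 - m 1) * p := mul_right_cancel₀ ha.ne' h1
  have h3 : ((m 0 : ℤ) - m' 0) * q = (m' 1 - m 1) * p := by exact_mod_cast h2
  have h4 : (p : ℤ) ∣ ((m 0 : ℤ) - m' 0) * q := ⟨m' 1 - m 1, by rw [h3]; ring⟩
  have h5 : IsCoprime (p : ℤ) (q : ℤ) := Nat.isCoprime_iff_coprime.2 hcop
  have h6 : (p : ℤ) ∣ (m 0 : ℤ) - m' 0 := h5.dvd_of_dvd_mul_right h4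
  have h7 : (m' 0 : ℤ) ≡ m 0 [ZMOD p] := Int.modEq_iff_dvd.2 h6
  exact ((Int.natCast_modEq_iff).1 h7).symm

theorem par (ω : Wts) {f g : B k} (h : cr f g ≠ 0) {P : MvPolynomial (Fin 2) k} (hP : P ≠ 0) :
    D ω (ev P f g) = vd (D ω f) (D ω g) P ∨
    ∃ m p q i j : ℕ, 1 ≤ m ∧ 1 ≤ p ∧ 1 ≤ q ∧ Nat.Coprime p q ∧ (p : ℝ) * D ω f = q * D ω g ∧
      vd (D ω f) (D ω g) P = m * (p * D ω f) + i * D ω f + j * D ω g ∧
      vd (D ω f) (D ω g) P ≤ D ω (ev P f g) + m * (D ω f + D ω g - d ω f g) ∧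
      D ω (ev P f g) < vd (D ω f) (D ω g) P := by
  classical
  by_cases hEq : D ω (ev P f g) = vd (D ω f) (D ω g) P
  · exact Or.inl hEq
  right
  have hlt : D ω (ev P f g) < vd (D ω f) (D ω g) P := lt_of_le_of_ne (D_ev_le ω P f g) hEq
  obtain ⟨hf, hg⟩ := D_pos_of_cr ω h
  obtain ⟨x, y, hx, hy, hTP⟩ := TP_ev ω hf hg
  have hle : ∀ m ∈ P.support, (m 0 : ℝ) * D ω f + m 1 * D ω g ≤ vd (D ω f) (D ω g) P := fun m hm => le_vd _ _ hm
  have hval : (TP (D ω f) (D ω g) y P (vd (D ω f) (D ω g) P)).eval x = 0 := by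
    by_contra hne
    exact hEq (hTP P _ hle hne)
  obtain ⟨m₀, hm₀, hv₀⟩ := exists_vd hf.le hg.le hP
  generalize hv : vd (D ω f) (D ω g) P = v at *
  generalize hT' : TP (D ω f) (D ω g) y P v = T at *
  have hcoef : ∀ i, T.coeff i ≠ 0 ↔ ∃ m ∈ P.support, m 0 = i ∧ (m 0 : ℝ) * D ω f + m 1 * D ω g = v := by
    intro i
    rw [← hT']
    exact TP_coeff hg hy P v i
  have hT : T ≠ 0 := by
    intro h0
    have := (hcoef (m₀ 0)).2 ⟨m₀, hm₀, rfl, hv₀⟩
    rw [h0, Polynomial.coeff_zero] at this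
    exact this rfl
  -- a second exponent
  have hsecond : ∃ m ∈ P.support, m 0 ≠ m₀ 0 ∧ (m 0 : ℝ) * D ω f + m 1 * D ω g = v := by
    by_contra hno
    push Not at hno
    have hmono : T = Polynomial.monomial (m₀ 0) (T.coeff (m₀ 0)) := by
      ext i
      rw [Polynomial.coeff_monomial]
      by_cases hi : m₀ 0 = i
      · rw [if_pos hi, hi]
      · rw [if_neg hi]
        by_contra hne
        obtain ⟨m, hm, h0, hmv⟩ := (hcoef i).1 hne
        exact hno m hm (fun h' => hi (by rw [← h', h0])) hmv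
    rw [hmono, Polynomial.eval_monomial] at hval
    exact mul_ne_zero ((hcoef (m₀ 0)).2 ⟨m₀, hm₀, rfl, hv₀⟩) (pow_ne_zero _ hx) hval
  obtain ⟨m₁, hm₁, hne₁, hv₁⟩ := hsecond
  have hpqex : ∃ p q : ℕ, 1 ≤ p ∧ 1 ≤ q ∧ Nat.Coprime p q ∧ (p : ℝ) * D ω f = q * D ω g := by
    rcases lt_or_gt_of_ne hne₁ with hlt' | hlt'
    · -- m₁ 0 < m₀ 0
      have h1 : m₀ 1 ≤ m₁ 1 := by
        by_contra hc
        push Not at hc
        have e1 : (m₁ 0 : ℝ) < m₀ 0 := by exact_mod_cast hlt'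
        have e2 : (m₁ 1 : ℝ) < m₀ 1 := by exact_mod_cast hc
        have e3 := mul_lt_mul_of_pos_right e1 hf
        have e4 := mul_lt_mul_of_pos_right e2 hg
        linarith
      refine Par_coprime hf hg (A := m₀ 0 - m₁ 0) (Bn := m₁ 1 - m₀ 1) (by omega) ?_
      rw [Nat.cast_sub hlt'.le, Nat.cast_sub h1]
      linarith
    · have h1 : m₁ 1 ≤ m₀ 1 := by
        by_contra hc
        push Not at hc
        have e1 : (m₀ 0 : ℝ) < m₁ 0 := by exact_mod_cast hlt'
        have e2 : (m₀ 1 : ℝ) < m₁ 1 := by exact_mod_cast hc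
        have e3 := mul_lt_mul_of_pos_right e1 hf
        have e4 := mul_lt_mul_of_pos_right e2 hg
        linarith
      have hlt'' : m₀ 0 < m₁ 0 := hlt'
      refine Par_coprime hf hg (A := m₁ 0 - m₀ 0) (Bn := m₀ 1 - m₁ 1) (by omega) ?_
      rw [Nat.cast_sub hlt''.le, Nat.cast_sub h1]
      linarith
  obtain ⟨p, q, hp, hq, hcop, hpq⟩ := hpqex
  have hcong : ∀ i ∈ T.support, i ≡ m₀ 0 [MOD p] := by
    intro i hi
    obtain ⟨m, hm, h0, hmv⟩ := (hcoef i).1 (Polynomial.mem_support_iff.1 hi)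
    rw [← h0]
    exact Par_cong hf hcop hpq hmv hv₀
  obtain ⟨i₀, hi₀, hmi₀⟩ := exp_of_root hT hp hcong hx
  obtain ⟨μ, hμ, hμ0, hμv⟩ := (hcoef i₀).1 (Polynomial.mem_support_iff.1 hi₀)
  have hmpos : 1 ≤ T.rootMultiplicity x := (Polynomial.rootMultiplicity_pos hT).2 hval
  have hit := iter_eval hT x
  generalize hmm : T.rootMultiplicity x = m at *
  have hbound := Par_bound P v hle m
  have hder := Par_deriv hf hg hy P v m
  rw [hT'] at hder
  rw [hder] at hit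
  have hD := hTP ((pderiv 0)^[m] P) (v - m * D ω f) hbound hit
  have hne : (pderiv 0)^[m] P ≠ 0 := by
    intro h0
    rw [h0] at hit
    apply hit
    unfold TP
    simp
  have hch := ch_iter ω h m hne
  rw [hD] at hch
  refine ⟨m, p, q, i₀ - m * p, μ 1, hmpos, hp, hq, hcop, hpq, ?_, ?_, hlt⟩
  · rw [← hμv, hμ0, Nat.cast_sub hmi₀]
    push_cast
    ring
  · linarith

end SU
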