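import Pool.Agent.Lib.MP_374dcb_al.Ind

/-!
# JOB ParT: the top polynomial

Let `cr f g ≠ 0` (so `a := D f > 0`, `b := D g > 0`), `mf`, `mg` the exponents of `f`, `g` of top weight (`lead_exp`), `x := coeff mf f ≠ 0`,
`y := coeff mg g ≠ 0`. For a polynomial `P` in two variables and a real number `v` put
`TP P v := ∑ m ∈ P.support with m 0 * a + m 1 * b = v, C (coeff m P * y ^ m 1) * X ^ m 0 ∈ k[X]`.

`TP_coeff`: exponents `m ≠ m'` with the same weight `v` have `m 0 ≠ m' 0` (`b > 0`), so the terms have different exponents and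
`(TP P v).coeff i ≠ 0 ↔ ∃ m ∈ P.support, m 0 = i ∧ m 0 * a + m 1 * b = v`.
`TP_ev`: let all exponents of `P` have weight `≤ v`. Then `D (ev P f g) = v` if `(TP P v).eval x ≠ 0`; and `D (ev P f g) < v` or `ev P f g = 0` ... if
`(TP P v).eval x = 0`. Proof of the first: `f ^ i * g ^ j` has the top exponent `i mf + j mg` with coefficient `x ^ i y ^ j` (and every other
exponent has smaller weight: lemma `lead_pow`). The exponents `m` of `P` of weight `v`: all exponents `m 0 • mf + m 1 • mg` have the same weight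
`v`, so they are the same exponent `M` (injectivity). The coefficient of `ev P f g` at `M` is `∑ coeff m P * x ^ m 0 * y ^ m 1 = (TP P v).eval x` plus contributions
of terms with smaller weight, which are `0`. So it is nonzero and `D (ev P f g) ≥ wt M = v`; `≤` by `D_ev_le`.
`TP_deriv`: `derivative (TP P v) = TP (pderiv 0 P) (v - a)` (terms: `m 0 * coeff m P * y ^ m 1 * X ^ (m 0 - 1)`; `coeff` of `pderiv`:
`coeff m (pderiv 0 P) = (m 0 + 1) * coeff (m + single 0 1) P`).
-/

set_option autoImplicit false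

open MvPolynomial

namespace SU

universe u
variable {k : Type u} [Field k]

/-- the top polynomial (with the real parameters `a`, `b`, `v` and the leading coefficient `y` of `g`) -/
noncomputable def TP (a b : ℝ) (y : k) (P : MvPolynomial (Fin 2) k) (v : ℝ) : Polynomial k :=
  ∑ m ∈ P.support.filter (fun m => (m 0 : ℝ) * a + m 1 * b = v), Polynomial.C (coeff m P * y ^ m 1) * Polynomial.X ^ m 0

private theorem ParT_coeff_sum (a b : ℝ) (y : k) (P : MvPolynomial (Fin 2) k) (v : ℝ) (i : ℕ) :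
    (TP a b y P v).coeff i = ∑ m ∈ P.support.filter (fun m => (m 0 : ℝ) * a + m 1 * b = v),
      if i = m 0 then coeff m P * y ^ m 1 else 0 := by
  unfold TP
  rw [Polynomial.finsetSum_coeff]
  refine Finset.sum_congr rfl fun m _ => ?_
  rw [Polynomial.coeff_C_mul, Polynomial.coeff_X_pow]
  split_ifs <;> simp

private theorem ParT_uniq {a b : ℝ} (hb : 0 < b) {v : ℝ} {m m' : Fin 2 →₀ ℕ}
    (h : (m 0 : ℝ) * a + m 1 * b = v) (h' : (m' 0 : ℝ) * a + m' 1 * b = v) (h0 : m 0 = m' 0) : m = m' := by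
  have h1 : (m 1 : ℝ) * b = m' 1 * b := by
    rw [h0] at h
    linarith
  have h2 : (m 1 : ℝ) = m' 1 := mul_right_cancel₀ hb.ne' h1
  have h3 : m 1 = m' 1 := by exact_mod_cast h2
  ext j
  fin_cases j
  · exact h0
  · exact h3

private theorem ParT_coeff_eq {a b : ℝ} (hb : 0 < b) {y : k} (P : MvPolynomial (Fin 2) k) {v : ℝ} {i : ℕ}
    {m : Fin 2 →₀ ℕ} (h0 : m 0 = i) (hm : (m 0 : ℝ) * a + m 1 * b = v) :
    (TP a b y P v).coeff i = coeff m P * y ^ m 1 := by
  rw [ParT_coeff_sum]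
  rw [Finset.sum_eq_single m]
  · rw [if_pos h0.symm]
  · intro m' hm' hne
    rw [Finset.mem_filter] at hm'
    refine if_neg fun h => hne ?_
    exact ParT_uniq hb hm'.2 hm (h.symm.trans h0.symm)
  · intro hm'
    rw [Finset.mem_filter, not_and] at hm'
    by_cases hs : m ∈ P.support
    · exact absurd hm (hm' hs)
    · rw [if_pos h0.symm, notMem_support_iff.1 hs, zero_mul]

private theorem ParT_coeff_zero {a b : ℝ} {y : k} (P : MvPolynomial (Fin 2) k) {v : ℝ} {i : ℕ}
    (h : ∀ m ∈ P.support, m 0 = i → (m 0 : ℝ) * a + m 1 * b ≠ v) :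
    (TP a b y P v).coeff i = 0 := by
  rw [ParT_coeff_sum]
  refine Finset.sum_eq_zero fun m hm => ?_
  rw [Finset.mem_filter] at hm
  refine if_neg fun h' => ?_
  exact h m hm.1 h'.symm hm.2

theorem TP_coeff {a b : ℝ} (hb : 0 < b) {y : k} (hy : y ≠ 0) (P : MvPolynomial (Fin 2) k) (v : ℝ) (i : ℕ) :
    (TP a b y P v).coeff i ≠ 0 ↔ ∃ m ∈ P.support, m 0 = i ∧ (m 0 : ℝ) * a + m 1 * b = v := by
  constructor
  · intro h
    by_contra hne
    push Not at hne
    exact h (ParT_coeff_zero P hne)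
  · rintro ⟨m, hm, h0, hv⟩
    rw [ParT_coeff_eq hb P h0 hv]
    exact mul_ne_zero (mem_support_iff.1 hm) (pow_ne_zero _ hy)

theorem TP_deriv [CharZero k] {a b : ℝ} (ha : 0 < a) (hb : 0 < b) {y : k} (hy : y ≠ 0)
    (P : MvPolynomial (Fin 2) k) (v : ℝ) :
    Polynomial.derivative (TP a b y P v) = TP a b y (pderiv 0 P) (v - a) := by
  ext i
  rw [Polynomial.coeff_derivative]
  have hs0 : ∀ m : Fin 2 →₀ ℕ, (m + Finsupp.single 0 1 : Fin 2 →₀ ℕ) 0 = m 0 + 1 := fun m => by simp
  have hs1 : ∀ m : Fin 2 →₀ ℕ, (m + Finsupp.single 0 1 : Fin 2 →₀ ℕ) 1 = m 1 := fun m => by simp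
  by_cases hex : ∃ j : ℕ, (i : ℝ) * a + j * b = v - a
  · obtain ⟨j, hj⟩ := hex
    set m : Fin 2 →₀ ℕ := Finsupp.single 0 i + Finsupp.single 1 j with hmdef
    have hm0 : m 0 = i := by simp [hmdef]
    have hm1 : m 1 = j := by simp [hmdef]
    have hm : (m 0 : ℝ) * a + m 1 * b = v - a := by rw [hm0, hm1, hj]
    have hm' : ((m + Finsupp.single 0 1 : Fin 2 →₀ ℕ) 0 : ℝ) * a + ((m + Finsupp.single 0 1 : Fin 2 →₀ ℕ) 1 : ℕ) * b = v := by
      rw [hs0, hs1, hm0, hm1]
      push_cast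
      linarith
    rw [ParT_coeff_eq hb P (by rw [hs0, hm0]) hm', ParT_coeff_eq hb (pderiv 0 P) hm0 hm, coeff_pderiv, hs1, hm0]
    ring
  · push Not at hex
    rw [ParT_coeff_zero, ParT_coeff_zero, zero_mul]
    · intro m _ h0 hv
      exact hex (m 1) (by rw [← h0]; exact hv)
    · intro m _ h0 hv
      apply hex (m 1)
      rw [h0] at hv
      push_cast at hv
      linarith

private theorem ParT_mul (ω : Wts) {h h' : B k} {M M' : Fin 3 →₀ ℕ}
    (H : ∀ m ∈ h.support, wt ω.w m ≤ wt ω.w M) (H' : ∀ m ∈ h'.support, wt ω.w m ≤ wt ω.w M') :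
    coeff (M + M') (h * h') = coeff M h * coeff M' h' ∧
      ∀ m ∈ (h * h').support, wt ω.w m ≤ wt ω.w (M + M') := by
  classical
  constructor
  · rw [coeff_mul]
    refine Finset.sum_eq_single (M, M') ?_ ?_
    · rintro ⟨p, q⟩ hpq hne
      rw [Finset.HasAntidiagonal.mem_antidiagonal] at hpq
      dsimp only at hpq ⊢
      by_contra hc
      have hp := H p (mem_support_iff.2 (left_ne_zero_of_mul hc))
      have hq := H' q (mem_support_iff.2 (right_ne_zero_of_mul hc))
      have hadd : wt ω.w p + wt ω.w q = wt ω.w M + wt ω.w M' := by rw [← wt_add, ← wt_add, hpq]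
      have h1 : wt ω.w p = wt ω.w M := by linarith
      have h2 : wt ω.w q = wt ω.w M' := by linarith
      exact hne (Prod.ext (ω.inj _ _ h1) (ω.inj _ _ h2))
    · intro hn
      exact absurd (by rw [Finset.HasAntidiagonal.mem_antidiagonal]) hn
  · intro m hm
    obtain ⟨p, hp, q, hq, rfl⟩ := Finset.mem_add.1 (support_mul h h' hm)
    rw [wt_add, wt_add]
    exact add_le_add (H p hp) (H' q hq)

private theorem ParT_pow (ω : Wts) {h : B k} {M : Fin 3 →₀ ℕ}
    (H : ∀ m ∈ h.support, wt ω.w m ≤ wt ω.w M) (n : ℕ) :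
    coeff (n • M) (h ^ n) = coeff M h ^ n ∧ ∀ m ∈ (h ^ n).support, wt ω.w m ≤ wt ω.w (n • M) := by
  classical
  induction n with
  | zero =>
    constructor
    · simp
    · intro m hm
      rw [pow_zero, mem_support_iff] at hm
      have : m = 0 := by
        by_contra h0
        apply hm
        rw [coeff_one, if_neg (fun h => h0 h.symm)]
      rw [this, zero_smul]
  | succ n ih =>
    have h1 := ParT_mul ω ih.2 H
    rw [succ_nsmul, pow_succ, pow_succ]
    exact ⟨by rw [h1.1, ih.1], h1.2⟩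

private theorem ParT_wt_nsmul (w : Fin 3 → ℝ) (n : ℕ) (M : Fin 3 →₀ ℕ) : wt w (n • M) = n * wt w M := by
  induction n with
  | zero => rw [zero_smul, wt_zero]; simp
  | succ n ih => rw [succ_nsmul, wt_add, ih]; push_cast; ring

/-- there are leading coefficients `x`, `y` of `f`, `g` for which `TP` decides cancellation -/
theorem TP_ev (ω : Wts) {f g : B k} (hf : 0 < D ω f) (hg : 0 < D ω g) :
    ∃ x y : k, x ≠ 0 ∧ y ≠ 0 ∧ ∀ (P : MvPolynomial (Fin 2) k) (v : ℝ),
      (∀ m ∈ P.support, (m 0 : ℝ) * D ω f + m 1 * D ω g ≤ v) →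
      (TP (D ω f) (D ω g) y P v).eval x ≠ 0 → D ω (ev P f g) = v := by
  classical
  have hf0 : f ≠ 0 := by
    rintro rfl
    rw [D_zero] at hf
    exact lt_irrefl _ hf
  have hg0 : g ≠ 0 := by
    rintro rfl
    rw [D_zero] at hg
    exact lt_irrefl _ hg
  obtain ⟨mf, hmf, hwf, hlf⟩ := lead_exp ω hf0
  obtain ⟨mg, hmg, hwg, hlg⟩ := lead_exp ω hg0
  refine ⟨coeff mf f, coeff mg g, mem_support_iff.1 hmf, mem_support_iff.1 hmg, ?_⟩
  intro P v hv hne
  have Hf : ∀ m ∈ f.support, wt ω.w m ≤ wt ω.w mf := by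
    intro m hm
    rw [hwf]
    by_cases h : m = mf
    · rw [h, hwf]
    · exact (hlf m hm h).le
  have Hg : ∀ m ∈ g.support, wt ω.w m ≤ wt ω.w mg := by
    intro m hm
    rw [hwg]
    by_cases h : m = mg
    · rw [h, hwg]
    · exact (hlg m hm h).le
  -- one exponent of weight v
  have hex : ∃ m ∈ P.support, (m 0 : ℝ) * D ω f + m 1 * D ω g = v := by
    by_contra hno
    push Not at hno
    apply hne
    unfold TP
    rw [Finset.filter_false_of_mem hno]
    simp
  obtain ⟨m₀, hm₀, hv₀⟩ := hex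
  have hv_nonneg : 0 ≤ v := by
    rw [← hv₀]
    positivity
  set Mv : Fin 3 →₀ ℕ := m₀ 0 • mf + m₀ 1 • mg with hMv
  have hwMv : wt ω.w Mv = v := by
    rw [hMv, wt_add, ParT_wt_nsmul, ParT_wt_nsmul, hwf, hwg, hv₀]
  -- the terms
  have hterm : ∀ m : Fin 2 →₀ ℕ,
      coeff (m 0 • mf + m 1 • mg) (f ^ m 0 * g ^ m 1) = coeff mf f ^ m 0 * coeff mg g ^ m 1 ∧
      ∀ m' ∈ (f ^ m 0 * g ^ m 1).support, wt ω.w m' ≤ wt ω.w (m 0 • mf + m 1 • mg) := by
    intro m
    have h1 := ParT_pow ω Hf (m 0)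
    have h2 := ParT_pow ω Hg (m 1)
    have h3 := ParT_mul ω h1.2 h2.2
    exact ⟨by rw [h3.1, h1.1, h2.1], h3.2⟩
  have hwterm : ∀ m : Fin 2 →₀ ℕ, wt ω.w (m 0 • mf + m 1 • mg) = (m 0 : ℝ) * D ω f + m 1 * D ω g := by
    intro m
    rw [wt_add, ParT_wt_nsmul, ParT_wt_nsmul, hwf, hwg]
  have hcoeff : coeff Mv (ev P f g) = (TP (D ω f) (D ω g) (coeff mg g) P v).eval (coeff mf f) := by
    rw [ev_eq_sum, coeff_sum]
    unfold TP
    rw [Polynomial.eval_finsetSum, Finset.sum_filter]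
    refine Finset.sum_congr rfl fun m hm => ?_
    rw [mul_assoc, coeff_C_mul]
    split_ifs with hw
    · have hM : m 0 • mf + m 1 • mg = Mv := ω.inj _ _ (by rw [hwterm, hw, hwMv])
      rw [← hM, (hterm m).1]
      simp only [Polynomial.eval_mul, Polynomial.eval_C, Polynomial.eval_pow, Polynomial.eval_X]
      ring
    · have hz : coeff Mv (f ^ m 0 * g ^ m 1) = 0 := by
        by_contra hc
        have h1 := (hterm m).2 Mv (mem_support_iff.2 hc)
        rw [hwMv, hwterm] at h1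
        exact hw (le_antisymm (hv m hm) h1)
      rw [hz, mul_zero]
  apply le_antisymm
  · exact (D_ev_le ω P f g).trans (vd_le hv_nonneg hv)
  · have h1 : Mv ∈ (ev P f g).support := by
      rw [mem_support_iff, hcoeff]
      exact hne
    have h2 := le_dg ω.w h1
    rw [hwMv] at h2
    exact h2

end SU
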