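import Pool.Agent.Lib.MP_374dcb_al.ShB
import Pool.Agent.Lib.MP_374dcb_al.PvP
import Pool.Agent.Lib.MP_374dcb_al.KeA

/-!
# JOB PivA: the pivot lemma, direction `Y ∈ RR → X ∈ RR`

`Piv ω f1 f2 f3 δ`, `b = D f2`, `t = d f1 f3 ≤ b - δ`, `V = sp f1 f2 f3`, `S V = 2δ + b + 3δ` (`S_eq`). `Y = sp f1 f3 (f2 + ev Q f1 f3)` strict and in `RR`. By `strict_norm` for `(f1,f3,f2)` there is `Q'` with `D (f2 + ev Q' f1 f3) < b`.
Let `Q0` be optimal (`exists_opt ω f1 f3 f2`), `g := f2 + ev Q0 f1 f3`, `γ := D g < b`; `y := sp f1 f3 g = sp f1 g f3`: adjacent to `Y` (same center), `S Y < S V`: `y ∈ RR` by `IH`. `S y ≤ 5δ + γ < S V`.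
 Case `γ < δ + t`. `pvP` for `P` (`D (ev P f1 f2) ≤ 3δ` by `D_of_add_le`): first alternative: `X = sp f1 f2 (f3 + C α * f2 ^ 2)` (`sp_add`); if `α ≠ 0`: `KE ω X y` and `RR.ks`; if `α = 0`: `X = V`, which is adjacent to `y`, `S y < S V`: `RR.red`. Second alternative:
 `d f1 f2 ≤ 7/3 δ` contradicts `k1` (`d f1 f2 = 3δ + t`).
 Case `γ ≥ δ + t`: `Sh ω f1 g f3 δ` (`JU f1 g f3` by `JU.add_ev` and symmetries; `γ < b ≤ 3/2 δ`); `g` is minimal (`g + ev Q f1 f3 = f2 + ev (Q0 + Q) f1 f3`); `sh_not` contradicts `y ∈ RR`.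
-/

set_option autoImplicit false

open MvPolynomial

namespace SU

universe u
variable {k : Type u} [Field k] [CharZero k]

theorem pivA {ω : Wts} {V : Submodule k (B k)} (IH : IHyp k ω (S ω V)) {f1 f2 f3 : B k} {δ : ℝ}
    (hp : Piv ω f1 f2 f3 δ) (ht : d ω f1 f3 ≤ D ω f2 - δ) (hV : V = sp f1 f2 f3)
    {P Q : MvPolynomial (Fin 2) k} (hP : D ω (f3 + ev P f1 f2) ≤ D ω f3)
    (hYs : S ω (sp f1 f3 (f2 + ev Q f1 f3)) < S ω V) (hY : RR ω (sp f1 f3 (f2 + ev Q f1 f3))) :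
    RR ω (sp f1 f2 (f3 + ev P f1 f2)) := by
  have hδ : 0 < δ := by
    have h1 := hp.lo
    have h2 := hp.hi
    linarith
  have hb1 := hp.lo
  have hb2 := hp.hi
  have d1 := hp.d1
  have d3 := hp.d3
  have H : JU f1 f2 f3 := hp.ju
  have H' : JU f1 f3 f2 := H.swap'
  have n12 : D ω f1 ≠ D ω f2 := by
    rw [d1]
    intro h
    linarith
  have n13 : D ω f1 ≠ D ω f3 := by
    rw [d1, d3]
    intro h
    linarith
  have n32 : D ω f3 ≠ D ω f2 := by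
    rw [d3]
    intro h
    linarith
  have hSV : S ω V = 2 * δ + D ω f2 + 3 * δ := by
    rw [hV, S_eq ω H n12 n13 n32.symm, d1, d3]
  have hV' : V = sp f1 f3 f2 := by rw [hV, sp_swap23]
  obtain ⟨Q', -, -, hQ'⟩ := strict_norm ω H' n13 n12 n32 Q (by rw [← hV']; exact hYs)
  obtain ⟨Q0, hQ0⟩ := exists_opt ω f1 f3 f2
  have hg : D ω (f2 + ev Q0 f1 f3) < D ω f2 := lt_of_le_of_lt (hQ0 Q') hQ'
  have hJy : JU f1 f3 (f2 + ev Q0 f1 f3) := H'.add_ev Q0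
  have hSy : S ω (sp f1 f3 (f2 + ev Q0 f1 f3)) < S ω V := by
    have h1 := S_le ω hJy
    rw [d1, d3] at h1
    rw [hSV]
    linarith
  have hadj : Adj (sp f1 f3 (f2 + ev Q f1 f3)) (sp f1 f3 (f2 + ev Q0 f1 f3)) := by
    refine adj_center (H'.add_ev Q) (one_ne_zero) (Q0 - Q) ?_
    rw [ev_sub, C_1, one_mul]
    ring
  have hy : RR ω (sp f1 f3 (f2 + ev Q0 f1 f3)) := IH _ _ hY hYs hadj
  rcases lt_or_ge (D ω (f2 + ev Q0 f1 f3)) (δ + d ω f1 f3) with h2 | h2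
  · have hPle := D_of_add_le ω hP
    rw [d3] at hPle
    rcases pvP hp ht hPle with ⟨α, β, γ, κ, hev⟩ | ⟨-, h5⟩
    · have hX : sp f1 f2 (f3 + ev P f1 f2) = sp f1 f2 (f3 + C α * f2 ^ 2) := by
        rw [← sp_add f1 f2 (f3 + C α * f2 ^ 2) β γ κ, hev]
        congr 1
        ring
      rw [hX]
      by_cases hα : α = 0
      · rw [hα, C_0, zero_mul, add_zero, ← hV]
        refine RR.red V _ ?_ hSy hy
        rw [hV']
        refine adj_center H' one_ne_zero Q0 ?_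
        rw [C_1, one_mul]
      · refine RR.ks _ _ ?_ hy
        exact ⟨f1, f2, f3, δ, α, Q0, hp, hα, hg, h2, rfl, sp_swap23 _ _ _⟩
    · exfalso
      obtain ⟨h6, -, h7, -⟩ := k1 hp hg h2
      linarith
  · exfalso
    have hSh : Sh ω f1 (f2 + ev Q0 f1 f3) f3 δ := ⟨hJy.swap', d1, d3, h2, by linarith⟩
    refine sh_not hSh (fun R => ?_) IH ?_ ?_
    · have h3 := hQ0 (Q0 + R)
      rw [ev_add, ← add_assoc] at h3
      exact h3
    · rw [← sp_swap23]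
      exact hSy
    · rw [← sp_swap23]
      exact hy

end SU
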