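import Pool.Agent.Lib.MP_374dcb_al.AdjL
import Pool.Agent.Lib.MP_374dcb_al.Par

/-!
# JOB Res: resonances and small tools

`res`: `D (f ^ j) = j * D f = D g > 0` (`D_pow`), `lead_cancel`. `lin_of_support`: `P` is the sum of its monomials
(`MvPolynomial.as_sum`, the exponents are `0`, `single 0 1`, `single 1 1`; or `ext` on coefficients).
`par'`: `P = 0` trivial (empty support), otherwise `par` with `le_vd`.
`ev_eq_zero_D`: if `D` of a sum is smaller than that of `g` then both summands have the same degree (ultrametric).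
`base_incomm`: `D f + D g + D h = ω.eps` (`S_eq`), so with the top exponents `mf, mg, mh` (`lead_exp`): `wt (mf + mg + mh) = ω.eps = wt (1,1,1)`, so
`mf + mg + mh = (1,1,1)`; none is `0` (positive degrees), so they are `single i 1`, `single j 1`, `single l 1` with different `i, j, l`, and
`D f = ω.w i`, `D g = ω.w j`. If `p * ω.w i = q * ω.w j` then `wt (single i p) = wt (single j q)`, so `single i p = single j q`, `p = 0`.
-/

set_option autoImplicit false

open MvPolynomial

namespace SU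

universe u
variable {k : Type u} [Field k] [CharZero k]

theorem res (ω : Wts) {f g : B k} (hf : 0 < D ω f) {j : ℕ} (hj : 1 ≤ j) (h : D ω g = j * D ω f) :
    ∃ c : k, c ≠ 0 ∧ D ω (g + C c * f ^ j) < D ω g := by
  have h1 : D ω (f ^ j) = D ω g := by rw [D_pow, h]
  have hj' : (1 : ℝ) ≤ j := by exact_mod_cast hj
  have h0 : 0 < D ω (f ^ j) := by
    rw [h1, h]
    exact mul_pos (by linarith) hf
  obtain ⟨c, hc, hlt⟩ := lead_cancel ω h1.symm h0
  refine ⟨-c, neg_ne_zero.2 hc, ?_⟩
  rw [C_neg, neg_mul, ← sub_eq_add_neg, ← h1]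
  exact hlt

theorem lin_of_support {P : MvPolynomial (Fin 2) k} (h : ∀ m ∈ P.support, m 0 + m 1 ≤ 1) :
    ∃ a b c : k, P = C a * X 0 + C b * X 1 + C c := by
  refine ⟨coeff (Finsupp.single 0 1) P, coeff (Finsupp.single 1 1) P, coeff 0 P, ?_⟩
  ext m
  rw [coeff_add, coeff_add, coeff_C_mul, coeff_C_mul, coeff_X, coeff_X, coeff_C]
  have e01 : (Finsupp.single 0 1 : Fin 2 →₀ ℕ) ≠ 0 := by simp
  have e11 : (Finsupp.single 1 1 : Fin 2 →₀ ℕ) ≠ 0 := by simp
  have e00 : (Finsupp.single 0 1 : Fin 2 →₀ ℕ) ≠ Finsupp.single 1 1 := by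
    intro hh
    have := DFunLike.congr_fun hh 0
    simp at this
  by_cases h0 : m = 0
  · subst h0
    rw [if_neg e01, if_neg e11, if_pos rfl]
    ring
  · by_cases h1 : m = Finsupp.single 0 1
    · subst h1
      rw [if_pos rfl, if_neg e00.symm, if_neg (Ne.symm h0)]
      ring
    · by_cases h2 : m = Finsupp.single 1 1
      · subst h2
        rw [if_neg e00, if_pos rfl, if_neg (Ne.symm h0)]
        ring
      · rw [if_neg (Ne.symm h1), if_neg (Ne.symm h2), if_neg (Ne.symm h0)]
        have h3 : coeff m P = 0 := by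
          by_contra hc
          have h4 := h m (mem_support_iff.2 hc)
          have h5 : ∀ n : Fin 2 →₀ ℕ, n 0 = m 0 → n 1 = m 1 → m = n := by
            intro n a b
            ext i
            fin_cases i
            · exact a.symm
            · exact b.symm
          rcases Nat.eq_zero_or_pos (m 0) with a | a
          · rcases Nat.eq_zero_or_pos (m 1) with b | b
            · exact h0 (h5 0 (by rw [a]; rfl) (by rw [b]; rfl))
            · have b' : m 1 = 1 := by omega
              exact h2 (h5 _ (by rw [a]; simp) (by rw [b']; simp))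
          · have a' : m 0 = 1 := by omega
            have b' : m 1 = 0 := by omega
            exact h1 (h5 _ (by rw [a']; simp) (by rw [b']; simp))
        rw [h3]
        ring

/-- if `P` is linear, the neighbour is the vertex itself -/
theorem sp_of_lin (f g h : B k) {P : MvPolynomial (Fin 2) k} (hP : ∀ m ∈ P.support, m 0 + m 1 ≤ 1) :
    sp f g (h + ev P f g) = sp f g h := by
  obtain ⟨a, b, c, h1⟩ := lin_of_support hP
  rw [h1, ev_lin, sp_add]

theorem par' (ω : Wts) {f g : B k} (h : cr f g ≠ 0) (P : MvPolynomial (Fin 2) k) :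
    (∀ μ ∈ P.support, (μ 0 : ℝ) * D ω f + μ 1 * D ω g ≤ D ω (ev P f g)) ∨
    ∃ m p q i j : ℕ, 1 ≤ m ∧ 1 ≤ p ∧ 1 ≤ q ∧ Nat.Coprime p q ∧ (p : ℝ) * D ω f = q * D ω g ∧
      m * (p * D ω f) + i * D ω f + j * D ω g ≤ D ω (ev P f g) + m * (D ω f + D ω g - d ω f g) ∧
      (∀ μ ∈ P.support, (μ 0 : ℝ) * D ω f + μ 1 * D ω g ≤ m * (p * D ω f) + i * D ω f + j * D ω g) ∧
      D ω (ev P f g) < m * (p * D ω f) + i * D ω f + j * D ω g ∧
      (∃ μ ∈ P.support, (μ 0 : ℝ) * D ω f + μ 1 * D ω g = m * (p * D ω f) + i * D ω f + j * D ω g) := by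
  by_cases hP : P = 0
  · left
    intro μ hμ
    rw [hP] at hμ
    simp at hμ
  · rcases par ω h hP with h1 | ⟨m, p, q, i, j, hm, hp, hq, hpq, h1, h2, h3, h4⟩
    · left
      intro μ hμ
      rw [h1]
      exact le_vd _ _ hμ
    · right
      refine ⟨m, p, q, i, j, hm, hp, hq, hpq, h1, ?_, ?_, ?_, ?_⟩
      · rw [← h2]
        exact h3
      · intro μ hμ
        rw [← h2]
        exact le_vd _ _ hμ
      · rw [← h2]
        exact h4
      · rw [← h2]
        exact exists_vd (D_nonneg ω f) (D_nonneg ω g) hP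

/-- if `g + x` has degree `≤ D g` then `D x ≤ D g` -/
theorem D_of_add_le (ω : Wts) {g x : B k} (h : D ω (g + x) ≤ D ω g) : D ω x ≤ D ω g := by
  have h1 : x = (g + x) - g := by ring
  rw [h1]
  exact (D_sub_le ω _ _).trans (max_le h le_rfl)

/-- if `g + x` has degree `< D g` then `D x = D g` -/
theorem D_of_add_lt (ω : Wts) {g x : B k} (h : D ω (g + x) < D ω g) : D ω x = D ω g := by
  rcases lt_or_eq_of_le (D_of_add_le ω h.le) with h1 | h1
  · rw [D_add_left ω h1] at h
    exact absurd h (lt_irrefl _)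
  · exact h1

/-- in a vertex of minimal degree the degrees of a good basis are incommensurable -/
theorem base_incomm (ω : Wts) {f g h : B k} (H : JU f g h) (h12 : D ω f ≠ D ω g) (h13 : D ω f ≠ D ω h)
    (h23 : D ω g ≠ D ω h) (hS : S ω (sp f g h) = ω.eps) {p q : ℕ} (hp : 1 ≤ p) (hq : 1 ≤ q) :
    (p : ℝ) * D ω f ≠ q * D ω g := by
  intro heq
  rw [S_eq ω H h12 h13 h23] at hS
  obtain ⟨p1, p2, p3⟩ := H.pos ω
  have hf0 : f ≠ 0 := by
    rintro rfl
    rw [D_zero] at p1
    exact lt_irrefl _ p1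
  have hg0 : g ≠ 0 := by
    rintro rfl
    rw [D_zero] at p2
    exact lt_irrefl _ p2
  have hh0 : h ≠ 0 := by
    rintro rfl
    rw [D_zero] at p3
    exact lt_irrefl _ p3
  obtain ⟨mf, -, wf, -⟩ := lead_exp ω hf0
  obtain ⟨mg, -, wg, -⟩ := lead_exp ω hg0
  obtain ⟨mh, -, wh, -⟩ := lead_exp ω hh0
  have e1 : wt ω.w (mf + mg + mh) =
      wt ω.w (Finsupp.single 0 1 + Finsupp.single 1 1 + Finsupp.single 2 1) := by
    rw [wt_add, wt_add, wf, wg, wh, hS, wt_add, wt_add, wt_single, wt_single, wt_single]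
    unfold Wts.eps
    push_cast
    ring
  have e2 := ω.inj _ _ e1
  have e3 : wt ω.w (p • mf) = wt ω.w (q • mg) := by
    have a1 : wt ω.w (p • mf) = p * wt ω.w mf := by
      rw [wt_fin3, wt_fin3, Finsupp.smul_apply, Finsupp.smul_apply, Finsupp.smul_apply, smul_eq_mul,
        smul_eq_mul, smul_eq_mul]
      push_cast
      ring
    have a2 : wt ω.w (q • mg) = q * wt ω.w mg := by
      rw [wt_fin3, wt_fin3, Finsupp.smul_apply, Finsupp.smul_apply, Finsupp.smul_apply, smul_eq_mul,
        smul_eq_mul, smul_eq_mul]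
      push_cast
      ring
    rw [a1, a2, wf, wg, heq]
  have e4 := ω.inj _ _ e3
  have c0 := DFunLike.congr_fun e2 0
  have c1 := DFunLike.congr_fun e2 1
  have c2 := DFunLike.congr_fun e2 2
  have b0 := DFunLike.congr_fun e4 0
  have b1 := DFunLike.congr_fun e4 1
  have b2 := DFunLike.congr_fun e4 2
  rw [Finsupp.smul_apply, Finsupp.smul_apply, smul_eq_mul, smul_eq_mul] at b0 b1 b2
  rw [Finsupp.add_apply, Finsupp.add_apply, Finsupp.add_apply, Finsupp.add_apply] at c0 c1 c2
  simp only [Finsupp.single_apply] at c0 c1 c2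
  simp at c0 c1 c2
  have key : ∀ x y z : ℕ, x + y + z = 1 → p * x = q * y → x = 0 := by
    intro x y z h1 h2
    rcases Nat.eq_zero_or_pos x with hx | hx
    · exact hx
    · exfalso
      have hx1 : x = 1 := by omega
      have hy1 : y = 0 := by omega
      rw [hx1, hy1] at h2
      omega
  have z0 := key _ _ _ c0 b0
  have z1 := key _ _ _ c1 b1
  have z2 := key _ _ _ c2 b2
  rw [wt_fin3, z0, z1, z2] at wf
  rw [← wf] at p1
  simp at p1

end SU
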