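import Pool.Agent.Lib.MP_374dcb_al.Res
import Pool.Agent.Lib.MP_374dcb_al.Typ

/-!
# JOB ShA: shallow vertices, numerical facts and the three centers

`JU f1 g f3`, `D f1 = 2δ`, `D f3 = 3δ`, `γ := D g`, `t := d f1 f3 > 0`, `δ + t ≤ γ < 3/2 δ`, `E := d f1 g`.
`sh_E`: `cp`: `2δ + ε ≤ E + t`, so `E ≥ 2δ + ε - t ≥ 3δ - γ + ε`. `ptm`: `2δ + d g f3`, `γ + t`, `3δ + E`: `3δ + E > 4.5 δ > γ + t` (`γ + t ≤ 2γ - δ < 2δ`), so `d g f3 = δ + E`.
`sh1`: `D (ev R f1 g) = 3δ` implies `3γ = 4δ`. First alternative of `par'`: the degree is attained (`ev R f1 g` has degree `3δ ≤ vd`, and all exponents `(i,j)` have `2δ i + γ j ≤ 3δ`, so some exponent has `2δ i + γ j = 3δ`: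
 otherwise `D_ev_le`, `exists_vd` give `D < 3δ`): `i = 0`: `j γ = 3δ`, `2 < j < 3` (as `δ < γ < 3/2 δ`), no; `i = 1`: `j γ = δ`, no. Second alternative: `L = p (2δ) = q γ`, `m L ≤ 3δ + m (2δ + γ - E)`, so
 `(q - 2) γ < 3δ/m - δ ≤ 2δ`: `q ≤ 3` (`γ > δ`). `q = 1`: `γ = 2pδ`, no; `q = 2`: `γ = pδ`, no; `q = 3`: `3γ = 2pδ`, `3 < 2p < 4.5`: `p = 2`, `3γ = 4δ`.
`sh2`: for `w := f3 + C l * f1` (`D w = 3δ`, `cr g w = cr g f3 + C l • cr g f1`, degrees `δ + E > E`: `d g w = δ + E`): `D (ev R g w) = 2δ` is impossible. First alternative: some exponent `(i,j)` has `γ i + 3δ j = 2δ`, `j = 0`, `γ i = 2δ`, `4/3 < i < 2`, no.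
 Second: `L = p γ = q (3δ)`, `L ≤ 2δ/m + γ + 3δ - (δ + E) ≤ 2δ + 2γ - δ - ε < 4δ`, so `q = 1`, `p γ = 3δ`, `2 < p < 3`, no.
`sh3`: for `v := f1 + C μ * g`, `w := f3 + C l * g` with `μ ≠ 0` or `l ≠ 0` (`D v = 2δ`, `D w = 3δ`): `cr v w = cr f1 f3 + C l • cr f1 g + C μ • cr g f3`, degrees `t < E < δ + E`: `d v w ≥ E`. `D (ev R v w) = γ` is impossible:
 first alternative: exponents `2δ i + 3δ j ≤ γ < 2δ`: only `(0,0)`, degree `0 ≠ γ`. Second: `p (2δ) = q (3δ)`, `p = 3`: `6δ m ≤ γ + m (5δ - E)`, `m (δ + E) ≤ γ`, but `E > 3/2 δ`, no.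
-/

set_option autoImplicit false

open MvPolynomial

namespace SU

universe u
variable {k : Type u} [Field k] [CharZero k]

/-- the data of a shallow vertex -/
structure Sh (ω : Wts) (f1 g f3 : B k) (δ : ℝ) : Prop where
  ju : JU f1 g f3
  d1 : D ω f1 = 2 * δ
  d3 : D ω f3 = 3 * δ
  lo : δ + d ω f1 f3 ≤ D ω g
  hi : D ω g < 3 / 2 * δ

theorem sh_E {ω : Wts} {f1 g f3 : B k} {δ : ℝ} (h : Sh ω f1 g f3 δ) :
    0 < δ ∧ 0 < d ω f1 f3 ∧ δ < D ω g ∧ 3 * δ - D ω g + ω.eps ≤ d ω f1 g ∧ d ω g f3 = δ + d ω f1 g := by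
  have hp := (h.ju.pos ω).1
  have h1 := h.d1
  have h3 := h.d3
  have hlo := h.lo
  have hhi := h.hi
  have ht : 0 < d ω f1 f3 := d_pos ω h.ju.cr13
  have he := eps_pos ω
  have hcp := cp ω h.ju
  obtain ⟨p1, _, p3⟩ := ptm ω h.ju
  rw [h1] at hp hcp p1 p3
  rw [h3] at p1 p3
  have hE : 3 * δ - D ω g + ω.eps ≤ d ω f1 g := by linarith
  refine ⟨by linarith, ht, by linarith, hE, ?_⟩
  have k1 : D ω g + d ω f1 f3 < 3 * δ + d ω f1 g := by linarith
  rcases le_max_iff.1 p1 with q1 | q1 <;> rcases le_max_iff.1 p3 with q3 | q3 <;> linarith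

private theorem sha_att (ω : Wts) {f g : B k} (P : MvPolynomial (Fin 2) k) (hpos : 0 < D ω (ev P f g))
    (h : ∀ μ ∈ P.support, (μ 0 : ℝ) * D ω f + μ 1 * D ω g ≤ D ω (ev P f g)) :
    ∃ μ ∈ P.support, (μ 0 : ℝ) * D ω f + μ 1 * D ω g = D ω (ev P f g) := by
  have hP : P ≠ 0 := by
    rintro rfl
    have h1 : ev (0 : MvPolynomial (Fin 2) k) f g = 0 := by
      unfold ev
      exact map_zero _
    rw [h1, D_zero] at hpos
    exact lt_irrefl _ hpos
  obtain ⟨m, hm, hv⟩ := exists_vd (D_nonneg ω f) (D_nonneg ω g) hP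
  exact ⟨m, hm, le_antisymm (h m hm) (hv ▸ D_ev_le ω P f g)⟩

private theorem sha_nat {x : ℝ} (hx : 0 < x) {n m : ℕ} (h : (n : ℝ) * x < m * x) : n < m := by
  have h1 : (n : ℝ) < m := lt_of_mul_lt_mul_right h hx.le
  exact_mod_cast h1

private theorem sha_mul {m : ℕ} (hm : 1 ≤ m) {K : ℝ} (hK : 0 ≤ K) : K ≤ m * K := by
  have h1 : (1 : ℝ) ≤ m := by exact_mod_cast hm
  nlinarith

theorem sh1 {ω : Wts} {f1 g f3 : B k} {δ : ℝ} (h : Sh ω f1 g f3 δ) {R : MvPolynomial (Fin 2) k}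
    (hR : D ω (ev R f1 g) = 3 * δ) : 3 * D ω g = 4 * δ := by
  obtain ⟨hδ, ht, hγ, hE, -⟩ := sh_E h
  have hhi := h.hi
  have he := eps_pos ω
  rcases par' ω h.ju.cr12 R with hA | ⟨m, p, q, i, j, hm, hp, hq, -, hpq, hle, -, -, -⟩
  · obtain ⟨μ, -, hμ⟩ := sha_att ω R (by rw [hR]; linarith) hA
    rw [hR, h.d1] at hμ
    exfalso
    have hj0 : (0 : ℝ) ≤ μ 1 * D ω g := mul_nonneg (Nat.cast_nonneg _) (D_nonneg _ _)
    have hi : μ 0 < 2 := sha_nat hδ (m := 2) (by push_cast; linarith)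
    have hj : μ 1 < 4 := sha_nat (x := D ω g) (by linarith) (m := 4) (by
      have : (0 : ℝ) ≤ μ 0 * (2 * δ) := by positivity
      push_cast
      linarith)
    generalize μ 0 = a at *
    generalize μ 1 = b at *
    interval_cases a <;> interval_cases b <;> push_cast at hμ <;> linarith
  · rw [h.d1] at hpq hle
    rw [hR] at hle
    have hi0 : (0 : ℝ) ≤ i * (2 * δ) := by positivity
    have hj0 : (0 : ℝ) ≤ j * D ω g := mul_nonneg (Nat.cast_nonneg _) (D_nonneg _ _)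
    have hm' : (m : ℝ) * (d ω f1 g) ≥ m * (3 * δ - D ω g) :=
      mul_le_mul_of_nonneg_left (by linarith) (Nat.cast_nonneg _)
    have key : (m : ℝ) * (q * D ω g - 2 * D ω g + δ) ≤ 3 * δ := by
      have : (m : ℝ) * (p * (2 * δ)) = m * (q * D ω g) := by rw [hpq]
      linarith
    have hq4 : q < 4 := by
      by_contra hq4
      push Not at hq4
      have h4 : (4 : ℝ) ≤ q := by exact_mod_cast hq4
      have h5 : 4 * D ω g ≤ q * D ω g := mul_le_mul_of_nonneg_right h4 (D_nonneg _ _)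
      have h6 := sha_mul hm (K := q * D ω g - 2 * D ω g + δ) (by linarith)
      linarith
    have hp3 : p < 3 := by
      refine sha_nat hδ (m := 3) ?_
      have h4 : (q : ℝ) ≤ 3 := by exact_mod_cast Nat.lt_succ_iff.1 hq4
      have h5 : q * D ω g ≤ 3 * D ω g := mul_le_mul_of_nonneg_right h4 (D_nonneg _ _)
      push_cast
      linarith
    interval_cases p <;> interval_cases q <;> push_cast at hpq <;> linarith

theorem sh2 {ω : Wts} {f1 g f3 : B k} {δ : ℝ} (h : Sh ω f1 g f3 δ) (l : k) (R : MvPolynomial (Fin 2) k) :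
    D ω (ev R g (f3 + C l * f1)) ≠ 2 * δ := by
  intro hR
  obtain ⟨hδ, ht, hγ, hE, hgf⟩ := sh_E h
  have hhi := h.hi
  have he := eps_pos ω
  have hw : D ω (f3 + C l * f1) = 3 * δ := by
    rw [D_add_left ω, h.d3]
    refine lt_of_le_of_lt (D_C_mul_le ω l f1) ?_
    rw [h.d1, h.d3]
    linarith
  have hd : d ω g (f3 + C l * f1) = δ + d ω f1 g := by
    rcases eq_or_ne l 0 with rfl | hl
    · rw [map_zero, zero_mul, add_zero, hgf]
    · rw [d_add_right_left ω, hgf]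
      rw [d_C_mul_right ω hl, d_symm, hgf]
      linarith
  have hcr : cr g (f3 + C l * f1) ≠ 0 := by
    intro h0
    have h1 : d ω g (f3 + C l * f1) = 0 := by
      unfold d
      rw [h0, N_zero]
    linarith
  generalize f3 + C l * f1 = w at *
  rcases par' ω hcr R with hA | ⟨m, p, q, i, j, hm, hp, hq, -, hpq, hle, -, -, -⟩
  · obtain ⟨μ, -, hμ⟩ := sha_att ω R (by rw [hR]; linarith) hA
    rw [hR, hw] at hμ
    have hj0 : (0 : ℝ) ≤ μ 0 * D ω g := mul_nonneg (Nat.cast_nonneg _) (D_nonneg _ _)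
    have hi : μ 1 < 1 := sha_nat (x := 3 * δ) (by linarith) (m := 1) (by push_cast; linarith)
    have hj : μ 0 < 2 := sha_nat (x := D ω g) (by linarith) (m := 2) (by
      have : (0 : ℝ) ≤ μ 1 * (3 * δ) := by positivity
      push_cast
      linarith)
    generalize μ 0 = a at *
    generalize μ 1 = b at *
    interval_cases a <;> interval_cases b <;> push_cast at hμ <;> linarith
  · rw [hw] at hpq hle
    rw [hR, hd] at hle
    have hi0 : (0 : ℝ) ≤ i * D ω g := mul_nonneg (Nat.cast_nonneg _) (D_nonneg _ _)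
    have hj0 : (0 : ℝ) ≤ j * (3 * δ) := by positivity
    have hm' : (m : ℝ) * (d ω f1 g) ≥ m * (3 * δ - D ω g) :=
      mul_le_mul_of_nonneg_left (by linarith) (Nat.cast_nonneg _)
    have key : (m : ℝ) * (q * (3 * δ) - 2 * D ω g + δ) ≤ 2 * δ := by
      have : (m : ℝ) * (p * D ω g) = m * (q * (3 * δ)) := by rw [hpq]
      linarith
    have hq2 : q < 2 := by
      by_contra hq2
      push Not at hq2
      have h4 : (2 : ℝ) ≤ q := by exact_mod_cast hq2
      have h5 : 2 * (3 * δ) ≤ q * (3 * δ) := mul_le_mul_of_nonneg_right h4 (by linarith)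
      have h6 := sha_mul hm (K := q * (3 * δ) - 2 * D ω g + δ) (by linarith)
      linarith
    have hp3 : p < 3 := by
      refine sha_nat (x := D ω g) (by linarith) (m := 3) ?_
      have h4 : (q : ℝ) ≤ 1 := by exact_mod_cast Nat.lt_succ_iff.1 hq2
      have h5 : q * (3 * δ) ≤ 1 * (3 * δ) := mul_le_mul_of_nonneg_right h4 (by linarith)
      push_cast
      linarith
    interval_cases p <;> interval_cases q <;> push_cast at hpq <;> linarith

theorem sh3 {ω : Wts} {f1 g f3 : B k} {δ : ℝ} (h : Sh ω f1 g f3 δ) {μ l : k} (hne : μ ≠ 0 ∨ l ≠ 0)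
    (R : MvPolynomial (Fin 2) k) : D ω (ev R (f1 + C μ * g) (f3 + C l * g)) ≠ D ω g := by
  intro hR
  obtain ⟨hδ, ht, hγ, hE, hgf⟩ := sh_E h
  have hhi := h.hi
  have hlo := h.lo
  have he := eps_pos ω
  have hv : D ω (f1 + C μ * g) = 2 * δ := by
    rw [D_add_left ω, h.d1]
    refine lt_of_le_of_lt (D_C_mul_le ω μ g) ?_
    rw [h.d1]
    linarith
  have hw : D ω (f3 + C l * g) = 3 * δ := by
    rw [D_add_left ω, h.d3]
    refine lt_of_le_of_lt (D_C_mul_le ω l g) ?_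
    rw [h.d3]
    linarith
  have hcr0 : cr (f1 + C μ * g) (f3 + C l * g) =
      (cr f1 f3 + (C l : B k) • cr f1 g) + (C μ : B k) • cr g f3 := by
    rw [cr_add_left, cr_add_right, cr_add_right, cr_C_mul_left, cr_C_mul_left, cr_C_mul_right, cr_C_mul_right, cr_self,
      smul_zero, smul_zero, add_zero]
  have hn1 : N ω (cr f1 f3 + (C l : B k) • cr f1 g) ≤ d ω f1 g := by
    refine (N_add_le ω _ _).trans (max_le ?_ ?_)
    · show d ω f1 f3 ≤ d ω f1 g
      linarith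
    · rcases eq_or_ne l 0 with rfl | hl
      · rw [map_zero, zero_smul, N_zero]
        exact d_nonneg ω f1 g
      · rw [N_C_smul ω hl]
        exact le_rfl
  have hd : d ω f1 g ≤ d ω (f1 + C μ * g) (f3 + C l * g) := by
    show _ ≤ N ω (cr (f1 + C μ * g) (f3 + C l * g))
    rw [hcr0]
    rcases eq_or_ne μ 0 with rfl | hμ
    · have hl : l ≠ 0 := hne.resolve_left (fun h0 => h0 rfl)
      rw [map_zero, zero_smul, add_zero, N_add_right ω]
      · rw [N_C_smul ω hl]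
        exact le_rfl
      · rw [N_C_smul ω hl]
        show d ω f1 f3 < d ω f1 g
        linarith
    · have h2 : N ω ((C μ : B k) • cr g f3) = δ + d ω f1 g := by
        rw [N_C_smul ω hμ]
        exact hgf
      rw [N_add_right ω, h2]
      · linarith
      · rw [h2]
        linarith
  have hcr : cr (f1 + C μ * g) (f3 + C l * g) ≠ 0 := by
    intro h0
    have h1 : d ω (f1 + C μ * g) (f3 + C l * g) = 0 := by
      unfold d
      rw [h0, N_zero]
    linarith
  clear hcr0 hn1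
  generalize f3 + C l * g = w at *
  generalize f1 + C μ * g = v at *
  rcases par' ω hcr R with hA | ⟨m, p, q, i, j, hm, hp, hq, -, hpq, hle, -, -, -⟩
  · obtain ⟨μ, -, hμ⟩ := sha_att ω R (by rw [hR]; linarith) hA
    rw [hR, hw, hv] at hμ
    have hi0 : (0 : ℝ) ≤ μ 0 * (2 * δ) := by positivity
    have hj0 : (0 : ℝ) ≤ μ 1 * (3 * δ) := by positivity
    have hi : μ 0 < 1 := sha_nat (x := 2 * δ) (by linarith) (m := 1) (by push_cast; linarith)
    have hj : μ 1 < 1 := sha_nat (x := 3 * δ) (by linarith) (m := 1) (by push_cast; linarith)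
    generalize μ 0 = a at *
    generalize μ 1 = b at *
    interval_cases a <;> interval_cases b <;> push_cast at hμ <;> linarith
  · rw [hw, hv] at hpq hle
    rw [hR] at hle
    have hi0 : (0 : ℝ) ≤ i * (2 * δ) := by positivity
    have hj0 : (0 : ℝ) ≤ j * (3 * δ) := by positivity
    have hpq' : p * 2 = q * 3 := by
      have h1 : ((p * 2 : ℕ) : ℝ) * δ = ((q * 3 : ℕ) : ℝ) * δ := by
        push_cast
        linarith
      exact_mod_cast mul_right_cancel₀ hδ.ne' h1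
    have hp3 : 3 ≤ p := by omega
    have h3 : (3 : ℝ) ≤ p := by exact_mod_cast hp3
    have h4 : 3 * (2 * δ) ≤ p * (2 * δ) := mul_le_mul_of_nonneg_right h3 (by linarith)
    have hm0 : (0 : ℝ) ≤ m := Nat.cast_nonneg _
    have h5 : (m : ℝ) * (3 * (2 * δ)) ≤ m * (p * (2 * δ)) := mul_le_mul_of_nonneg_left h4 hm0
    have h6 : (m : ℝ) * d ω f1 g ≤ m * d ω v w := mul_le_mul_of_nonneg_left hd hm0
    have h7 := sha_mul hm (K := δ + d ω f1 g) (by linarith)
    linarith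

end SU
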