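import Pool.Agent.Lib.MP_374dcb_al.ShA
import Pool.Agent.Lib.MP_374dcb_al.IrB

/-!
# JOB ShB: shallow vertices are not in `RR`

Let `Sh ω f1 g f3 δ`, `g` of minimal degree among all `g + ev Q f1 f3`, `V = sp f1 g f3 = sp g f1 f3`, `D g < 2δ < 3δ`, `t = d f1 f3`. Suppose `RR ω V`; cases:
 - base: `3 * D f1 = 2 * D f3`, `base_incomm` for `(f1,f3,g)`.
 - K-source: `ke_pair` with `(u1,u2,u3) = (g,f1,f3)`, `v = f1`, `w = f3`: `3δ < t`, but `t ≤ D g - δ < δ/2`.
 - strict neighbour `U ∈ RR`, `types_strict` for `(g,f1,f3)`: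
   1. `U = sp g f1 (f3 + ev R g f1)`, `D (..) < 3δ`; `ev R g f1 = ev R' f1 g` (`ev_swap`); `D (ev R' f1 g) = 3δ` (`D_of_add_lt`), `sh1`: `3 D g = 4δ`; so `Ir ω f1 g f3 δ R'` (`t ≤ D g - δ = δ/3`), `U = sp f1 g (f3 + ev R' f1 g)`, and `ir` with `S U < S V < s` gives a
      contradiction.
   2. `D (f1 + ev R g (f3 + C l * f1)) < D f1`: `D (ev R ..) = 2δ`, `sh2`.
   3. `D (g + ev R (f1 + C m * g) (f3 + C l * g)) < D g`: `D (ev R ..) = D g`; if `m = l = 0` contradiction to the minimality of `g`, otherwise `sh3`.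
-/

set_option autoImplicit false

open MvPolynomial

namespace SU

universe u
variable {k : Type u} [Field k] [CharZero k]

private theorem ShB_mem1 (f1 g f3 : B k) : f1 ∈ sp f1 g f3 := by
  unfold sp
  exact Submodule.subset_span (by simp)

private theorem ShB_mem3 (f1 g f3 : B k) : f3 ∈ sp f1 g f3 := by
  unfold sp
  exact Submodule.subset_span (by simp)

theorem sh_not {ω : Wts} {f1 g f3 : B k} {δ : ℝ} (h : Sh ω f1 g f3 δ)
    (hmin : ∀ Q : MvPolynomial (Fin 2) k, D ω g ≤ D ω (g + ev Q f1 f3)) {s : ℝ} (IH : IHyp k ω s)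
    (hs : S ω (sp f1 g f3) < s) : ¬RR ω (sp f1 g f3) := by
  intro hRR
  obtain ⟨hδ, ht0, hg, hE, hgf3⟩ := sh_E h
  have hju' : JU g f1 f3 := h.ju.swap
  have hsp : sp g f1 f3 = sp f1 g f3 := sp_swap12 f1 g f3
  have h1 := h.d1
  have h3 := h.d3
  have hlo := h.lo
  have hhi := h.hi
  have h12 : D ω g < D ω f1 := by rw [h1]; linarith
  have h23 : D ω f1 < D ω f3 := by rw [h1, h3]; linarith
  have hm1 : f1 ∈ sp f1 g f3 := ShB_mem1 f1 g f3
  have hm3 : f3 ∈ sp f1 g f3 := ShB_mem3 f1 g f3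
  generalize hV : sp f1 g f3 = V at hRR hs hsp hm1 hm3
  cases hRR with
  | base _ hVert hS =>
    have hS' : S ω (sp f1 f3 g) = ω.eps := by rw [sp_swap23 f1 g f3, hV]; exact hS
    refine base_incomm ω h.ju.swap' (ne_of_lt h23) (ne_of_gt h12) (ne_of_gt (h12.trans h23)) hS'
      (p := 3) (q := 2) (by norm_num) (by norm_num) ?_
    push_cast
    rw [h1, h3]
    ring
  | ks _ U hKE hU =>
    have h4 := ke_pair hKE hju' hsp.symm h12 h23 hm1 hm3 h.ju.cr13
    rw [h1] at h4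
    linarith
  | red _ U hA hS hU =>
    rw [← hsp] at hA hS
    rcases types_strict ω hju' h12 h23 hA hS with ⟨R, hUe, hlt⟩ | ⟨l, R, hUe, hlt⟩ | ⟨m, l, R, hUe, hlt⟩
    · obtain ⟨R', hR', _⟩ := ev_swap R
      rw [← hR' g f1] at hlt hUe
      have h5 := D_of_add_lt ω hlt
      rw [h3] at h5 hlt
      have h6 := sh1 h h5
      have hir : Ir ω f1 g f3 δ R' := ⟨h.ju, h1, h6, h3, by linarith, hlt⟩
      have hUe' : sp f1 g (f3 + ev R' f1 g) = U := by rw [hUe, sp_swap12]
      have hs' : S ω (sp f1 g (f3 + ev R' f1 g)) < s := by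
        rw [hUe']
        rw [hsp] at hS
        exact hS.trans hs
      exact ir hir IH hs' (by rw [hUe']; exact hU)
    · have h5 := D_of_add_lt ω hlt
      rw [h1] at h5
      exact sh2 h l R h5
    · have h5 := D_of_add_lt ω hlt
      by_cases hml : m = 0 ∧ l = 0
      · obtain ⟨rfl, rfl⟩ := hml
        rw [map_zero, zero_mul, add_zero, add_zero] at hlt
        exact absurd (hmin R) (not_le.2 hlt)
      · have hne : m ≠ 0 ∨ l ≠ 0 := by
          by_contra hc
          push Not at hc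
          exact hml hc
        exact sh3 h hne R h5

end SU
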