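import Pool.Agent.Lib.MP_374dcb_al.AdjL

/-!
# JOB Sq: the square lemma

`V = sp g h2 h3` with pairwise different degrees `a = D g`, `c2 = D h2`, `c3 = D h3` (so `S V = a + c2 + c3`), `w := h3 + ev1 R g`, `W = sp g h2 w`, `D w ≤ c3` and
`D w < c3` if `W` is strict (`S W < S V`); `X = sp g u (v + ev Q g u)` weak, `V = sp g u v`; then `Conn ω V W X`.

Step 0. If `pl g u = pl g h2`, then `W`, `X` are adjacent (same center): `V = sp g u v = sp g h2 h3`, so `v = C c * h3 + (element of pl g h2)`, `c ≠ 0`; `adj_center` with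
`sp_of_pl`, `ev_of_pl`; then `conn_of_adj`. So assume `pl g u ≠ pl g h2`. `u ∈ V`: `u = C α * h3 + C β * h2 + C γ * g + C ε`, `α ≠ 0` (if `α = 0`, then `β ≠ 0` as
`JU g u v`, and `pl g u = pl g h2`). Replacing `u` by `C α⁻¹ * (u - C γ * g - C ε)` (`pl g u` unchanged, `sp_of_pl`, `ev_of_pl`): `u = h3 + C μ * h2`.
Put `u' := u + ev1 R g = w + C μ * h2`.

Step 2 (degrees).
 (I) `c3 > c2` or (`c3 < c2` and `μ = 0`). Then `D u = c3`, `V = sp g u h2`, so `X = sp g u x` with `x = h2 + ev Q' g u` (up to a scalar; `weak_norm` for `(g,u,h2)`), `D x ≤ c2`, and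
  `D x < c2` if `X` is strict. `D u' ≤ c3`, and `D u' < c3` if `W` is strict (in the case `c3 > c2`: `D (C μ * h2) ≤ c2 < c3`).
  `Z := sp g u' x`. `S Z ≤ a + D u' + D x` (`S_le`), so `S Z < S V` if `X` or `W` is strict. `Z` is adjacent to `X = sp g x u` (center `(g,x)`, `u' = u + ev1 R g`, `ev1_eq_ev`) and to
  `W = sp g h2 w = sp g u' h2` (`w = u' - C μ * h2`): center `(g,u')`, `x = h2 + ev Q' g (u' - ev1 R g) = h2 + ev Q'' g u'` (`ev_comp`).
  If `X ∈ RR`, `S X < S V`: `Z ∈ RR` (IH at `X`), `S Z < S V`, so `W ∈ RR` (IH at `Z`). If `W ∈ RR`, `S W < S V`: `Z ∈ RR`, `X ∈ RR`.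
 (II) `c3 < c2`, `μ ≠ 0`. Then `D u = c2`, `V = sp g u h3`, `X = sp g u x` with `x = h3 + ev Q' g u`, `D x ≤ c3` (`< c3` if `X` strict). `D u' ≤ c2`.
  - `X ∈ RR`, `S X < S V`: `Z := sp g u' x`, `S Z ≤ a + c2 + D x < S V`. `Z` is adjacent to `X` (center `(g,x)`) and to `W`: `W = sp g h2 w = sp g u' w` (`C μ * h2 = u' - w`), `w = h3 + ev1 R g`,
    `x = h3 + ev Q' g u`, so `x - w` is a polynomial in `g, u'`: center `(g,u')`. So `Z ∈ RR`, `W ∈ RR`.
  - `W ∈ RR`, `S W < S V`: `D w < c3`. `W' := sp g u w`, `S W' ≤ a + c2 + D w < S V`. `W'` is adjacent to `X` (center `(g,u)`, `V = sp g u h3`, `w = h3 + ev1 R g`, `x = h3 + ev Q' g u`) and to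
    `W`: `W = sp g w h2`, `W' = sp g w u`, `u = h3 + C μ * h2 = C μ * h2 + (w - ev1 R g)`: center `(g,w)`. So `W' ∈ RR`, `X ∈ RR`.
All triples are `JU` by `JU.of_span`, `JU.add_ev`, `JU.C_mul` and the symmetries.
-/

set_option autoImplicit false

open MvPolynomial

namespace SU

universe u
variable {k : Type u} [Field k] [CharZero k]

private theorem Sq_coef (ω : Wts) {g p q v : B k} (H : JU g p v) (hv : v ∈ sp g p q) :
    ∃ a b c e : k, c ≠ 0 ∧ v = C a * g + C b * p + C c * q + C e := by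
  obtain ⟨a, b, c, e, h⟩ := mem_sp.1 hv
  refine ⟨a, b, c, e, ?_, h⟩
  rintro rfl
  have h1 := JU.pos_comb ω H (a := -a) (b := -b) (c := 1) (e := -e) (Or.inr (Or.inr one_ne_zero))
  have h2 : C (-a) * g + C (-b) * p + C 1 * v + C (-e) = (0 : B k) := by
    rw [h]
    simp only [map_neg, map_one, map_zero]
    ring
  rw [h2, D_zero] at h1
  exact lt_irrefl _ h1

private theorem Sq_norm (ω : Wts) {g u v y : B k} (H : JU g u v) (hs : sp g u v = sp g u y)
    (Q : MvPolynomial (Fin 2) k) : JU g u y ∧ ∃ Q' : MvPolynomial (Fin 2) k,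
      sp g u (v + ev Q g u) = sp g u (y + ev Q' g u) := by
  have hy : JU g u y := H.of_span hs.symm
  refine ⟨hy, ?_⟩
  have hv : v ∈ sp g u y := by
    rw [← hs]
    exact mem_sp.2 ⟨0, 0, 1, 0, by simp⟩
  obtain ⟨a, b, c, e, hc, h⟩ := Sq_coef ω H hv
  refine ⟨C c⁻¹ * (Q + (C a * X 0 + C b * X 1 + C e)), ?_⟩
  have h1 : v + ev Q g u = C c * (y + ev (C c⁻¹ * (Q + (C a * X 0 + C b * X 1 + C e))) g u) := by
    rw [ev_mul, ev_C, ev_add, ev_lin]
    have h2 : (C c : B k) * C c⁻¹ = 1 := by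
      rw [← map_mul, mul_inv_cancel₀ hc, map_one]
    calc v + ev Q g u = (C a * g + C b * u + C c * y + C e) + ev Q g u := by rw [← h]
      _ = C c * y + 1 * (ev Q g u + (C a * g + C b * u + C e)) := by ring
      _ = C c * y + (C c * C c⁻¹) * (ev Q g u + (C a * g + C b * u + C e)) := by rw [h2]
      _ = _ := by ring
  rw [h1, sp_C_mul _ _ _ hc]

omit [CharZero k] in
private theorem Sq_shift (R : Polynomial k) (P : MvPolynomial (Fin 2) k) :
    ∃ P' : MvPolynomial (Fin 2) k, ∀ g u : B k, ev P g u = ev P' g (u + ev1 R g) := by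
  obtain ⟨R', hR'⟩ := ev1_eq_ev R
  obtain ⟨P', hP'⟩ := ev_comp P (X 0) (X 1 - R')
  refine ⟨P', fun g u => ?_⟩
  rw [← hP', ev_X0, ev_sub, ev_X1, hR']
  congr 1
  ring

omit [CharZero k] in
private theorem Sq_spsub (g h w : B k) (c : k) : sp g h (w + C c * h) = sp g h w := by
  have h1 := sp_add g h w 0 c 0
  have h2 : w + (C 0 * g + C c * h + C 0) = w + C c * h := by
    simp
  rw [h2] at h1
  exact h1

/-- the square lemma in the case that the second center vector is `h3 + C μ * h2` -/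
private theorem Sq_core {ω : Wts} {V : Submodule k (B k)} (IH : IHyp k ω (S ω V)) {g h2 h3 : B k} (H : JU g h2 h3)
    (hV : V = sp g h2 h3) (h12 : D ω g ≠ D ω h2) (h13 : D ω g ≠ D ω h3) (h23 : D ω h2 ≠ D ω h3)
    (R : Polynomial k) (hw : D ω (h3 + ev1 R g) ≤ D ω h3)
    (hW : S ω (sp g h2 (h3 + ev1 R g)) < S ω V → D ω (h3 + ev1 R g) < D ω h3) (μ : k) {v : B k}
    (H' : JU g (h3 + C μ * h2) v) (hV' : V = sp g (h3 + C μ * h2) v) (Q : MvPolynomial (Fin 2) k)
    (hX : S ω (sp g (h3 + C μ * h2) (v + ev Q g (h3 + C μ * h2))) ≤ S ω V) :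
    Conn ω V (sp g h2 (h3 + ev1 R g)) (sp g (h3 + C μ * h2) (v + ev Q g (h3 + C μ * h2))) := by
  obtain ⟨R', hR'⟩ := ev1_eq_ev R
  obtain ⟨hgpos, h2pos, h3pos⟩ := JU.pos ω H
  have hSV : S ω V = D ω g + D ω h2 + D ω h3 := by
    rw [hV]
    exact S_eq ω H h12 h13 h23
  obtain ⟨u, hu⟩ : ∃ u, u = h3 + C μ * h2 := ⟨_, rfl⟩
  rw [← hu] at H' hV' hX ⊢
  obtain ⟨w, hwd⟩ : ∃ w, w = h3 + ev1 R g := ⟨_, rfl⟩
  rw [← hwd] at hw hW ⊢
  obtain ⟨u', hu'⟩ : ∃ u', u' = u + ev1 R g := ⟨_, rfl⟩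
  have hu'w : u' = w + C μ * h2 := by
    rw [hu', hu, hwd]
    ring
  have hjw : JU g h2 w := by
    rw [hwd, ← hR' g h2]
    exact H.add_ev R'
  have hWu' : sp g h2 w = sp g h2 u' := by
    rw [hu'w, Sq_spsub]
  have hDh2 : D ω (C μ * h2) ≤ D ω h2 := D_C_mul_le ω μ h2
  by_cases hcase : D ω h2 < D ω h3 ∨ μ = 0
  · -- case (I)
    have hDu : D ω u = D ω h3 := by
      rw [hu]
      rcases hcase with hc | hc
      · exact D_add_left ω (lt_of_le_of_lt hDh2 hc)
      · rw [hc, map_zero, zero_mul, add_zero]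
    have hDu' : D ω u' ≤ D ω h3 := by
      rw [hu'w]
      rcases hcase with hc | hc
      · exact (D_add_le ω _ _).trans (max_le hw (hDh2.trans hc.le))
      · rw [hc, map_zero, zero_mul, add_zero]
        exact hw
    have hDu'' : D ω w < D ω h3 → D ω u' < D ω h3 := by
      intro hlt
      rw [hu'w]
      rcases hcase with hc | hc
      · exact (D_add_le ω _ _).trans_lt (max_lt hlt (hDh2.trans_lt hc))
      · rw [hc, map_zero, zero_mul, add_zero]
        exact hlt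
    have hVu : sp g u v = sp g u h2 := by
      rw [← hV', hV, hu, sp_swap23 g h2 (h3 + C μ * h2), Sq_spsub]
    obtain ⟨hju, Q1, hQ1⟩ := Sq_norm ω H' hVu Q
    rw [hQ1] at hX ⊢
    have hSV2 : S ω V = S ω (sp g u h2) := by rw [hV', hVu]
    rw [hSV2] at hX
    have hn1 : D ω g ≠ D ω u := by rw [hDu]; exact h13
    have hn2 : D ω u ≠ D ω h2 := by rw [hDu]; exact h23.symm
    obtain ⟨P', hP1, -, hP2, hP3⟩ := weak_norm ω hju hn1 h12 hn2 Q1 hX
    rw [← hSV2] at hX hP3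
    rw [← hP1] at hP3 ⊢
    obtain ⟨x, hx⟩ : ∃ x, x = h2 + ev P' g u := ⟨_, rfl⟩
    rw [← hx] at hP2 hP3 ⊢
    have hjx : JU g u x := by
      rw [hx]
      exact hju.add_ev P'
    have hjxu' : JU g x u' := by
      rw [hu', ← hR' g x]
      exact hjx.swap'.add_ev R'
    have hZX : Adj (sp g u x) (sp g u' x) := by
      rw [← sp_swap23 g u x, ← sp_swap23 g u' x]
      refine adj_center hjx.swap' (one_ne_zero) R' ?_
      rw [hR', map_one, one_mul, hu']
    have hju'h2 : JU g u' h2 := by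
      have : JU g h2 u' := hjw.of_span hWu'.symm
      exact this.swap'
    obtain ⟨Q2, hQ2⟩ := Sq_shift R P'
    have hZW : Adj (sp g h2 w) (sp g u' x) := by
      rw [hWu', ← sp_swap23 g h2 u']
      refine adj_center hju'h2 (one_ne_zero) Q2 ?_
      rw [map_one, one_mul, hx, hQ2 g u, hu']
    have hSZ : S ω (sp g u' x) ≤ D ω g + D ω u' + D ω x := S_le ω hjxu'.swap'
    refine ⟨fun hRW hlt => ?_, fun hRX hlt => ?_⟩
    · have h1 := hDu'' (hW hlt)
      exact IH _ _ (IH _ _ hRW hlt hZW) (by linarith) hZX.symm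
    · have h1 := hP3 hlt
      exact IH _ _ (IH _ _ hRX hlt hZX) (by linarith) hZW.symm
  · -- case (II)
    rw [not_or] at hcase
    obtain ⟨hc1, hμ⟩ := hcase
    have hc : D ω h3 < D ω h2 := lt_of_le_of_ne (not_lt.1 hc1) h23.symm
    have hDh2' : D ω (C μ * h2) = D ω h2 := D_C_mul ω hμ h2
    have hDu : D ω u = D ω h2 := by
      rw [hu, ← hDh2']
      exact D_add_right ω (by rw [hDh2']; exact hc)
    have hDu' : D ω u' ≤ D ω h2 := by
      rw [hu'w]
      exact (D_add_le ω _ _).trans (max_le (hw.trans hc.le) hDh2)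
    have hVu0 : sp g h2 h3 = sp g u h3 := by
      rw [sp_swap23 g h3 h2, sp_swap23 g h3 u, hu, add_comm h3 (C μ * h2),
        show C μ * h2 + h3 = C μ * h2 + C 1 * h3 by rw [map_one, one_mul], Sq_spsub, sp_C_mul _ _ _ hμ]
    have hVu : sp g u v = sp g u h3 := by
      rw [← hV', hV, hVu0]
    obtain ⟨hju, Q1, hQ1⟩ := Sq_norm ω H' hVu Q
    rw [hQ1] at hX ⊢
    have hSV2 : S ω V = S ω (sp g u h3) := by rw [hV', hVu]
    rw [hSV2] at hX
    have hn1 : D ω g ≠ D ω u := by rw [hDu]; exact h12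
    have hn2 : D ω u ≠ D ω h3 := by rw [hDu]; exact h23
    obtain ⟨P', hP1, -, hP2, hP3⟩ := weak_norm ω hju hn1 h13 hn2 Q1 hX
    rw [← hSV2] at hX hP3
    rw [← hP1] at hP3 ⊢
    obtain ⟨x, hx⟩ : ∃ x, x = h3 + ev P' g u := ⟨_, rfl⟩
    rw [← hx] at hP2 hP3 ⊢
    have hjx : JU g u x := by
      rw [hx]
      exact hju.add_ev P'
    refine ⟨fun hRW hlt => ?_, fun hRX hlt => ?_⟩
    · -- `W' = sp g u w`
      have h1 := hW hlt
      have hjuw : JU g u w := by
        rw [hwd, ← hR' g u]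
        exact hju.add_ev R'
      have hSW : S ω (sp g u w) ≤ D ω g + D ω u + D ω w := S_le ω hjuw
      have hA1 : Adj (sp g u w) (sp g u x) := by
        refine adj_center hjuw (one_ne_zero) (P' - R') ?_
        rw [map_one, one_mul, ev_sub, hR', hx, hwd]
        ring
      have hA2 : Adj (sp g h2 w) (sp g u w) := by
        rw [← sp_swap23 g h2 w, ← sp_swap23 g u w]
        refine adj_center hjw.swap' hμ (X 1 - R') ?_
        rw [ev_sub, ev_X1, hR', hu, hwd]
        ring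
      exact IH _ _ (IH _ _ hRW hlt hA2) (by linarith) hA1
    · -- `Z = sp g u' x`
      have h1 := hP3 hlt
      have hjxu' : JU g x u' := by
        rw [hu', ← hR' g x]
        exact hjx.swap'.add_ev R'
      have hZX : Adj (sp g u x) (sp g u' x) := by
        rw [← sp_swap23 g u x, ← sp_swap23 g u' x]
        refine adj_center hjx.swap' (one_ne_zero) R' ?_
        rw [hR', map_one, one_mul, hu']
      have hSZ : S ω (sp g u' x) ≤ D ω g + D ω u' + D ω x := S_le ω hjxu'.swap'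
      have hWs : sp g h2 w = sp g u' w := by
        rw [sp_swap23 g w h2, sp_swap23 g w u', hu'w, add_comm w (C μ * h2),
          show C μ * h2 + w = C μ * h2 + C 1 * w by rw [map_one, one_mul], Sq_spsub, sp_C_mul _ _ _ hμ]
      have hju'w : JU g u' w := hjw.of_span hWs.symm
      obtain ⟨Q2, hQ2⟩ := Sq_shift R P'
      have hZW : Adj (sp g h2 w) (sp g u' x) := by
        rw [hWs]
        refine adj_center hju'w (one_ne_zero) (Q2 - R') ?_
        rw [map_one, one_mul, ev_sub, hR', hx, hQ2 g u, ← hu', hwd]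
        ring
      exact IH _ _ (IH _ _ hRX hlt hZX) (by linarith) hZW.symm

theorem sq {ω : Wts} {V : Submodule k (B k)} (IH : IHyp k ω (S ω V)) {g h2 h3 : B k} (H : JU g h2 h3)
    (hV : V = sp g h2 h3) (h12 : D ω g ≠ D ω h2) (h13 : D ω g ≠ D ω h3) (h23 : D ω h2 ≠ D ω h3)
    (R : Polynomial k) (hw : D ω (h3 + ev1 R g) ≤ D ω h3)
    (hW : S ω (sp g h2 (h3 + ev1 R g)) < S ω V → D ω (h3 + ev1 R g) < D ω h3) {u v : B k}
    (H' : JU g u v) (hV' : V = sp g u v) (Q : MvPolynomial (Fin 2) k)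
    (hX : S ω (sp g u (v + ev Q g u)) ≤ S ω V) :
    Conn ω V (sp g h2 (h3 + ev1 R g)) (sp g u (v + ev Q g u)) := by
  have hu : u ∈ sp g h2 h3 := by
    rw [← hV, hV']
    exact mem_sp.2 ⟨0, 1, 0, 0, by simp⟩
  obtain ⟨a, b, c, e, hcomb⟩ := mem_sp.1 hu
  by_cases hc : c = 0
  · -- the same center
    have hb : b ≠ 0 := by
      rintro rfl
      have h1 := JU.pos_comb ω H' (a := -a) (b := 1) (c := 0) (e := -e) (Or.inr (Or.inl one_ne_zero))
      have h2 : C (-a) * g + C 1 * u + C 0 * v + C (-e) = (0 : B k) := by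
        rw [hcomb, hc]
        simp only [map_neg, map_one, map_zero]
        ring
      rw [h2, D_zero] at h1
      exact lt_irrefl _ h1
    have hu2 : u = C a * g + C b * h2 + C e := by
      rw [hcomb, hc, map_zero, zero_mul, add_zero]
    have hbb : (C b : B k) * C b⁻¹ = 1 := by
      rw [← map_mul, mul_inv_cancel₀ hb, map_one]
    have hpl : pl g h2 = pl g u := by
      apply le_antisymm
      · intro y hy
        obtain ⟨a', b', e', hy'⟩ := mem_pl.1 hy
        refine mem_pl.2 ⟨a' - b' * b⁻¹ * a, b' * b⁻¹, e' - b' * b⁻¹ * e, ?_⟩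
        rw [hy', hu2]
        simp only [map_sub, map_mul]
        linear_combination (C b' * h2) * (-hbb)
      · intro y hy
        obtain ⟨a', b', e', hy'⟩ := mem_pl.1 hy
        refine mem_pl.2 ⟨a' + b' * a, b' * b, e' + b' * e, ?_⟩
        rw [hy', hu2]
        simp only [map_add, map_mul]
        ring
    obtain ⟨Q1, hQ1⟩ := ev_of_pl hpl Q
    have hX1 : sp g u (v + ev Q g u) = sp g h2 (v + ev Q1 g h2) := by
      rw [hQ1]
      exact (sp_of_pl hpl _).symm
    have hVv : sp g h2 v = sp g h2 h3 := by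
      rw [← hV, hV']
      exact sp_of_pl hpl v
    have hjv : JU g h2 v := H.of_span hVv
    obtain ⟨-, Q2, hQ2⟩ := Sq_norm ω hjv hVv Q1
    obtain ⟨R', hR'⟩ := ev1_eq_ev R
    rw [hX1, hQ2, ← hR' g h2]
    exact conn_center IH H R' Q2
  · -- the center of `X` is `(g, h3 + C μ * h2)`
    have hcc : (C c : B k) * C c⁻¹ = 1 := by
      rw [← map_mul, mul_inv_cancel₀ hc, map_one]
    have hpl : pl g (h3 + C (c⁻¹ * b) * h2) = pl g u := by
      apply le_antisymm
      · intro y hy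
        obtain ⟨a', b', e', hy'⟩ := mem_pl.1 hy
        refine mem_pl.2 ⟨a' - b' * c⁻¹ * a, b' * c⁻¹, e' - b' * c⁻¹ * e, ?_⟩
        rw [hy', hcomb]
        simp only [map_sub, map_mul]
        linear_combination (C b' * h3) * (-hcc)
      · intro y hy
        obtain ⟨a', b', e', hy'⟩ := mem_pl.1 hy
        refine mem_pl.2 ⟨a' + b' * a, b' * c, e' + b' * e, ?_⟩
        rw [hy', hcomb]
        simp only [map_add, map_mul]
        linear_combination (C b' * C b * h2) * (-hcc)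
    obtain ⟨Q1, hQ1⟩ := ev_of_pl hpl Q
    have hX1 : sp g u (v + ev Q g u) =
        sp g (h3 + C (c⁻¹ * b) * h2) (v + ev Q1 g (h3 + C (c⁻¹ * b) * h2)) := by
      rw [hQ1]
      exact (sp_of_pl hpl _).symm
    have hVv : sp g (h3 + C (c⁻¹ * b) * h2) v = sp g u v := sp_of_pl hpl v
    have hjv : JU g (h3 + C (c⁻¹ * b) * h2) v := H'.of_span hVv
    rw [hX1] at hX ⊢
    exact Sq_core IH H hV h12 h13 h23 R hw hW (c⁻¹ * b) hjv (by rw [hV', hVv]) Q1 hX

/-- the square lemma for a strict simple neighbour -/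
theorem sq_strict {ω : Wts} {V : Submodule k (B k)} (IH : IHyp k ω (S ω V)) {g h2 h3 : B k} (H : JU g h2 h3)
    (hV : V = sp g h2 h3) (h12 : D ω g ≠ D ω h2) (h13 : D ω g ≠ D ω h3) (h23 : D ω h2 ≠ D ω h3)
    (R : Polynomial k) (hw : D ω (h3 + ev1 R g) < D ω h3) {u v : B k}
    (H' : JU g u v) (hV' : V = sp g u v) (Q : MvPolynomial (Fin 2) k)
    (hX : S ω (sp g u (v + ev Q g u)) ≤ S ω V) :
    S ω (sp g h2 (h3 + ev1 R g)) < S ω V ∧
    Conn ω V (sp g h2 (h3 + ev1 R g)) (sp g u (v + ev Q g u)) := by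
  refine ⟨?_, sq IH H hV h12 h13 h23 R hw.le (fun _ => hw) H' hV' Q hX⟩
  have hSV : S ω V = D ω g + D ω h2 + D ω h3 := by
    rw [hV]
    exact S_eq ω H h12 h13 h23
  obtain ⟨R', hR'⟩ := ev1_eq_ev R
  have hjw : JU g h2 (h3 + ev1 R g) := by
    rw [← hR' g h2]
    exact H.add_ev R'
  have h1 := S_le ω hjw
  linarith

end SU
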