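import Pool.Agent.Lib.MP_374dcb_al.Com
import Pool.Agent.Lib.MP_374dcb_al.Sq
import Pool.Agent.Lib.MP_374dcb_al.Res

/-!
# JOB SitE: two weak neighbours, case `D f2 = D f3`: normalization, resonances

`sitE`: `lead_cancel`: `D (f2 - C c * f3) < D f3`, `c ≠ 0`, put `λ := -c`; choose `μ` such that `g := f2 + C λ * f3 + C μ * f1` has minimal degree (`exists_D_min`): `D g < D f2`, `D g ≠ D f1` (else `lead_cancel`). `V = sp f1 f2 g = sp f1 f3 g` (`g` is a combination;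
`C λ * f3 = g - f2 - C μ * f1`). `X = sp f1 f2 (f3 + ev P f1 f2) = sp f1 f2 (g + ev P1 f1 f2)` with `P1 = C λ * P + X 1 + C μ * X 0` (`sp_C_mul` with `λ`), then `weak_norm` for `(f1,f2,g)` (pairwise different degrees).
`Y = sp f1 f3 (f2 + ev Q f1 f3) = sp f1 f3 (g + ev Q1 f1 f3)`, `Q1 = Q - C λ * X 1 - C μ * X 0`, `weak_norm` for `(f1,f3,g)`. If `D f2 < D f1` then `μ = 0` (`D g < D f1`, `D (f2 + C λ * f3) ≤ D f2 < D f1`).
`se_res1` (`D f2 = j * D f1`, `j ≥ 1`): `res`: `c ≠ 0`, `D (f3 + C c * f1 ^ j) < D f3`; `W := sp f1 g (f3 + C c * f1 ^ j)`, `sq_strict` with `(g,h2,h3) = (f1, g, f3)`, `V = sp f1 g f3`, applied to `X = sp f1 f2 (g + ..)` (`u = f2`, `v = g`) and to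
 `Y = sp f1 f3 (g + ..)` (`u = f3`, `v = g`); `Conn.trans`.
`se_res2` (`D f1 = j * D f2`; `j ≥ 2` as `D f1 ≠ D f2`; so `D f2 < D f1` and `μ = 0`, `pl f3 g = pl f2 g = pl f2 f3`): `res`: `D (f1 + C c * f3 ^ j) < D f1`, `W := sp f3 g (f1 + C c * f3 ^ j)`: `sq_strict` with `(f3, g, f1)` and `Y = sp f3 f1 (g + ev Q' f3 f1)`;
 `D (f1 + C c' * f2 ^ j) < D f1`, `W' := sp f2 g (f1 + C c' * f2 ^ j)`: `sq_strict` with `(f2, g, f1)` and `X = sp f2 f1 (g + ..)`. `W`, `W'` have the same center `pl f2 g`: adjacent: `conn_of_adj`. So `X - W' - W - Y`.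
`se_ness1` (`¬Ess P`, no resonance): `ev P f1 f2 = ev1 R f1 + C c * f2`, `D (g + ev P f1 f2) ≤ D g < D f2`. If `c ≠ 0` then `D (ev1 R f1) = D f2` (`D_of_add_le`), `= natDegree R * D f1` (`D_ev1`): excluded. So `c = 0`; `sq` with `(f1, f2, g)`, `X` simple, other neighbour `Y` (`u = f3`, `v = g`).
`se_ness2`: the same with `f2`, `f3` exchanged (`D f3 = D f2`).
-/

set_option autoImplicit false

open MvPolynomial

namespace SU

universe u
variable {k : Type u} [Field k] [CharZero k]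

/-- The normalized situation with `D f2 = D f3`. -/
structure SitE (ω : Wts) (V X Y : Submodule k (B k)) (f1 f2 f3 g : B k) (P Q : MvPolynomial (Fin 2) k) : Prop where
  ju : JU f1 f2 f3
  eq : D ω f2 = D ω f3
  n12 : D ω f1 ≠ D ω f2
  hg : ∃ l m : k, l ≠ 0 ∧ g = f2 + C l * f3 + C m * f1
  lt : D ω g < D ω f2
  ng : D ω f1 ≠ D ω g
  ju2 : JU f1 f2 g
  ju3 : JU f1 f3 g
  hV2 : V = sp f1 f2 g
  hV3 : V = sp f1 f3 g
  hX : X = sp f1 f2 (g + ev P f1 f2)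
  hY : Y = sp f1 f3 (g + ev Q f1 f3)
  wX : S ω X ≤ S ω V
  wY : S ω Y ≤ S ω V
  nX : D ω (g + ev P f1 f2) ≤ D ω g
  nX' : S ω X < S ω V → D ω (g + ev P f1 f2) < D ω g
  nY : D ω (g + ev Q f1 f3) ≤ D ω g
  nY' : S ω Y < S ω V → D ω (g + ev Q f1 f3) < D ω g

theorem sitE {ω : Wts} {V X Y : Submodule k (B k)} {f1 f2 f3 : B k} {P Q : MvPolynomial (Fin 2) k}
    (s : Sit ω V X Y f1 f2 f3 P Q) (h : D ω f2 = D ω f3) :
    ∃ (g : B k) (P' Q' : MvPolynomial (Fin 2) k), SitE ω V X Y f1 f2 f3 g P' Q' := by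
  obtain ⟨hp1, hp2, hp3⟩ := s.ju.pos ω
  obtain ⟨c, hc, hlt⟩ := lead_cancel ω h hp3
  have hl : -c ≠ 0 := neg_ne_zero.2 hc
  obtain ⟨g, ⟨m, rfl⟩, hmin⟩ := exists_D_min ω (s := Set.range fun m : k => f2 + C (-c) * f3 + C m * f1)
    ⟨_, ⟨0, rfl⟩⟩
  obtain ⟨g, hg⟩ : ∃ g, g = f2 + C (-c) * f3 + C m * f1 := ⟨_, rfl⟩
  have hmin' : ∀ m' : k, D ω g ≤ D ω (f2 + C (-c) * f3 + C m' * f1) := fun m' => by
    rw [hg]
    exact hmin _ ⟨m', rfl⟩
  have hlt' : D ω g < D ω f2 := by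
    rw [h]
    refine lt_of_le_of_lt (hmin' 0) (lt_of_le_of_lt (le_of_eq ?_) hlt)
    congr 1
    rw [map_neg, map_zero]
    ring
  have hng : D ω f1 ≠ D ω g := by
    intro he
    obtain ⟨c', -, h2⟩ := lead_cancel ω he.symm hp1
    have h3 := hmin' (m - c')
    have h4 : f2 + C (-c) * f3 + C (m - c') * f1 = g - C c' * f1 := by
      rw [hg, map_sub]
      ring
    rw [h4] at h3
    rw [he] at h2
    linarith
  have e2 : g = C (-c) * f3 + ev (C m * MvPolynomial.X 0 + C 1 * MvPolynomial.X 1 + C 0) f1 f2 := by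
    rw [ev_lin, hg, map_one, map_zero]
    ring
  have e3 : g = f2 + ev (C m * MvPolynomial.X 0 + C (-c) * MvPolynomial.X 1 + C 0) f1 f3 := by
    rw [ev_lin, hg, map_zero]
    ring
  have hju2 : JU f1 f2 g := by
    rw [e2]
    exact (s.ju.C_mul hl).add_ev _
  have hju3 : JU f1 f3 g := by
    rw [e3]
    exact s.ju.swap'.add_ev _
  have hV2 : V = sp f1 f2 g := by
    rw [e2, ev_lin, sp_add, sp_C_mul _ _ _ hl]
    exact s.hV
  have hV3 : V = sp f1 f3 g := by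
    rw [e3, ev_lin, sp_add, sp_swap23]
    exact s.hV
  have hX1 : X = sp f1 f2 (g + ev (C (-c) * P) f1 f2) := by
    have h1 : g + ev (C (-c) * P) f1 f2 =
        C (-c) * (f3 + ev P f1 f2) + (C m * f1 + C 1 * f2 + C 0) := by
      rw [ev_mul, ev_C, hg, map_one, map_zero]
      ring
    rw [h1, sp_add, sp_C_mul _ _ _ hl]
    exact s.hX
  have hY1 : Y = sp f1 f3 (g + ev Q f1 f3) := by
    have h1 : g + ev Q f1 f3 = (f2 + ev Q f1 f3) + (C m * f1 + C (-c) * f3 + C 0) := by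
      rw [hg, map_zero]
      ring
    rw [h1, sp_add]
    exact s.hY
  have hn2 : D ω f2 ≠ D ω g := ne_of_gt hlt'
  have hn3 : D ω f3 ≠ D ω g := by
    rw [← h]
    exact hn2
  obtain ⟨P', hP1, -, hP2, hP3⟩ := weak_norm ω hju2 s.n12 hng hn2 (C (-c) * P) (by
    rw [← hX1, ← hV2]
    exact s.wX)
  obtain ⟨Q', hQ1, -, hQ2, hQ3⟩ := weak_norm ω hju3 s.n13 hng hn3 Q (by
    rw [← hY1, ← hV3]
    exact s.wY)
  rw [← hX1, ← hV2] at hP3
  rw [← hY1, ← hV3] at hQ3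
  exact ⟨g, P', Q', {
    ju := s.ju
    eq := h
    n12 := s.n12
    hg := ⟨-c, m, hl, hg⟩
    lt := hlt'
    ng := hng
    ju2 := hju2
    ju3 := hju3
    hV2 := hV2
    hV3 := hV3
    hX := hX1.trans hP1.symm
    hY := hY1.trans hQ1.symm
    wX := s.wX
    wY := s.wY
    nX := hP2
    nX' := hP3
    nY := hQ2
    nY' := hQ3 }⟩

omit [CharZero k] in
private theorem sitE_ess {P : MvPolynomial (Fin 2) k} {c : k} (hc : c ≠ 0) (h : Ess P) : Ess (C c * P) := by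
  obtain ⟨m, hm, h1⟩ := h
  refine ⟨m, ?_, h1⟩
  rw [mem_support_iff] at hm ⊢
  rw [coeff_C_mul]
  exact mul_ne_zero hc hm

omit [CharZero k] in
theorem SitE.symm {ω : Wts} {V X Y : Submodule k (B k)} {f1 f2 f3 g : B k} {P Q : MvPolynomial (Fin 2) k}
    (s : SitE ω V X Y f1 f2 f3 g P Q) :
    ∃ (g' : B k) (P' Q' : MvPolynomial (Fin 2) k), SitE ω V Y X f1 f3 f2 g' Q' P' ∧
      (Ess P → Ess P') ∧ (Ess Q → Ess Q') := by
  obtain ⟨l, m, hl, hg⟩ := s.hg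
  have hl' : l⁻¹ ≠ 0 := inv_ne_zero hl
  have hD : D ω (C l⁻¹ * g) = D ω g := D_C_mul ω hl' g
  have hll : (C l⁻¹ * C l : B k) = 1 := by
    rw [← C_mul, inv_mul_cancel₀ hl, C_1]
  have eP : C l⁻¹ * g + ev (C l⁻¹ * P) f1 f2 = C l⁻¹ * (g + ev P f1 f2) := by
    rw [ev_mul, ev_C]
    ring
  have eQ : C l⁻¹ * g + ev (C l⁻¹ * Q) f1 f3 = C l⁻¹ * (g + ev Q f1 f3) := by
    rw [ev_mul, ev_C]
    ring
  refine ⟨C l⁻¹ * g, C l⁻¹ * P, C l⁻¹ * Q, ?_, sitE_ess hl', sitE_ess hl'⟩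
  exact {
    ju := s.ju.swap'
    eq := s.eq.symm
    n12 := by
      rw [← s.eq]
      exact s.n12
    hg := ⟨l⁻¹, l⁻¹ * m, hl', by
      rw [hg, C_mul]
      linear_combination f3 * hll⟩
    lt := by
      rw [hD, ← s.eq]
      exact s.lt
    ng := by
      rw [hD]
      exact s.ng
    ju2 := s.ju3.C_mul hl'
    ju3 := s.ju2.C_mul hl'
    hV2 := by
      rw [sp_C_mul _ _ _ hl']
      exact s.hV3
    hV3 := by
      rw [sp_C_mul _ _ _ hl']
      exact s.hV2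
    hX := by
      rw [eQ, sp_C_mul _ _ _ hl']
      exact s.hY
    hY := by
      rw [eP, sp_C_mul _ _ _ hl']
      exact s.hX
    wX := s.wY
    wY := s.wX
    nX := by
      rw [eQ, D_C_mul ω hl', hD]
      exact s.nY
    nX' := by
      rw [eQ, D_C_mul ω hl', hD]
      exact s.nY'
    nY := by
      rw [eP, D_C_mul ω hl', hD]
      exact s.nX
    nY' := by
      rw [eP, D_C_mul ω hl', hD]
      exact s.nX' }

theorem se_res1 {ω : Wts} {V X Y : Submodule k (B k)} (IH : IHyp k ω (S ω V)) {f1 f2 f3 g : B k}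
    {P Q : MvPolynomial (Fin 2) k} (s : SitE ω V X Y f1 f2 f3 g P Q) (hr : ∃ j : ℕ, D ω f2 = j * D ω f1) :
    Conn ω V X Y := by
  obtain ⟨j, hj⟩ := hr
  obtain ⟨hp1, hp2, hp3⟩ := s.ju.pos ω
  have hj1 : 1 ≤ j := by
    rcases Nat.eq_zero_or_pos j with h | h
    · rw [h, Nat.cast_zero, zero_mul] at hj
      linarith
    · exact h
  obtain ⟨c, hc, hlt⟩ := res ω hp1 hj1 (s.eq.symm.trans hj)
  have hH : JU f1 g f3 := s.ju3.swap'
  have hV : V = sp f1 g f3 := by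
    rw [sp_swap23]
    exact s.hV3
  have h13 : D ω f1 ≠ D ω f3 := by
    rw [← s.eq]
    exact s.n12
  have h23 : D ω g ≠ D ω f3 := by
    rw [← s.eq]
    exact ne_of_lt s.lt
  have hw : D ω (f3 + ev1 (Polynomial.C c * Polynomial.X ^ j) f1) < D ω f3 := by
    rw [ev1_monomial]
    exact hlt
  obtain ⟨hS, hc1⟩ := sq_strict IH hH hV s.ng h13 h23 _ hw s.ju2 s.hV2 P (by
    rw [← s.hX]
    exact s.wX)
  obtain ⟨-, hc2⟩ := sq_strict IH hH hV s.ng h13 h23 _ hw s.ju3 s.hV3 Q (by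
    rw [← s.hY]
    exact s.wY)
  rw [← s.hX] at hc1
  rw [← s.hY] at hc2
  exact hc1.symm.trans hc2 hS

theorem se_res2 {ω : Wts} {V X Y : Submodule k (B k)} (IH : IHyp k ω (S ω V)) {f1 f2 f3 g : B k}
    {P Q : MvPolynomial (Fin 2) k} (s : SitE ω V X Y f1 f2 f3 g P Q) (hr : ∃ j : ℕ, D ω f1 = j * D ω f2) :
    Conn ω V X Y := by
  obtain ⟨j, hj⟩ := hr
  obtain ⟨hp1, hp2, hp3⟩ := s.ju.pos ω
  have hj1 : 1 ≤ j := by
    rcases Nat.eq_zero_or_pos j with h | h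
    · rw [h, Nat.cast_zero, zero_mul] at hj
      linarith
    · exact h
  have hj2 : 2 ≤ j := by
    rcases Nat.lt_or_ge j 2 with h | h
    · have h1 : j = 1 := by omega
      rw [h1, Nat.cast_one, one_mul] at hj
      exact absurd hj s.n12
    · exact h
  have h21 : D ω f2 < D ω f1 := by
    rw [hj]
    have h1 : (2 : ℝ) ≤ j := by exact_mod_cast hj2
    nlinarith
  obtain ⟨l, m, hl, hg⟩ := s.hg
  have hm : m = 0 := by
    by_contra hm
    have h1 : D ω (C m * f1) = D ω f1 := D_C_mul ω hm f1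
    have h2 : D ω (f2 + C l * f3) ≤ D ω f2 := by
      refine (D_add_le ω _ _).trans (max_le le_rfl ?_)
      rw [s.eq]
      exact D_C_mul_le ω _ _
    have h3 : D ω g = D ω f1 := by
      rw [hg, D_add_right ω (by rw [h1]; linarith), h1]
    exact s.ng h3.symm
  have hg' : g = f2 + C l * f3 := by
    rw [hg, hm, C_0]
    ring
  have hll : (C l⁻¹ * C l : B k) = 1 := by
    rw [← C_mul, inv_mul_cancel₀ hl, C_1]
  have hf3 : f3 = C l⁻¹ * (g - f2) := by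
    rw [hg']
    linear_combination (-f3) * hll
  obtain ⟨c, hc, hlt⟩ := res ω (f := f3) (g := f1) hp3 hj1 (by rw [← s.eq]; exact hj)
  obtain ⟨c', hc', hlt'⟩ := res ω hp2 hj1 hj
  obtain ⟨Q', hQ', -⟩ := ev_swap Q
  obtain ⟨P', hP', -⟩ := ev_swap P
  have hn3 : D ω f3 ≠ D ω g := by
    rw [← s.eq]
    exact ne_of_gt s.lt
  have hn2 : D ω f2 ≠ D ω g := ne_of_gt s.lt
  have hn31 : D ω f3 ≠ D ω f1 := by
    rw [← s.eq]
    exact s.n12.symm
  have hw : D ω (f1 + ev1 (Polynomial.C c * Polynomial.X ^ j) f3) < D ω f1 := by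
    rw [ev1_monomial]
    exact hlt
  have hw' : D ω (f1 + ev1 (Polynomial.C c' * Polynomial.X ^ j) f2) < D ω f1 := by
    rw [ev1_monomial]
    exact hlt'
  have eY : Y = sp f3 f1 (g + ev Q' f3 f1) := by
    rw [hQ', sp_swap12]
    exact s.hY
  have eX : X = sp f2 f1 (g + ev P' f2 f1) := by
    rw [hP', sp_swap12]
    exact s.hX
  obtain ⟨hS, hc1⟩ := sq_strict IH s.ju3.rot (by rw [sp_rot]; exact s.hV3) hn3 hn31 s.ng.symm _ hw
    s.ju3.swap (by rw [sp_swap12]; exact s.hV3) Q' (by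
    rw [← eY]
    exact s.wY)
  obtain ⟨hS', hc2⟩ := sq_strict IH s.ju2.rot (by rw [sp_rot]; exact s.hV2) hn2 s.n12.symm s.ng.symm _ hw'
    s.ju2.swap (by rw [sp_swap12]; exact s.hV2) P' (by
    rw [← eX]
    exact s.wX)
  rw [← eY] at hc1
  rw [← eX] at hc2
  have hpl : pl f3 g = pl f2 g := by
    refine le_antisymm ?_ ?_
    · rw [pl, Submodule.span_le]
      intro x hx
      simp only [Set.mem_insert_iff, Set.mem_singleton_iff] at hx
      show x ∈ pl f2 g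
      rw [mem_pl]
      rcases hx with rfl | rfl | rfl
      · exact ⟨0, 0, 1, by rw [C_0, C_1]; ring⟩
      · exact ⟨-l⁻¹, l⁻¹, 0, by rw [C_0, C_neg]; linear_combination hf3⟩
      · exact ⟨0, 1, 0, by rw [C_0, C_1]; ring⟩
    · rw [pl, Submodule.span_le]
      intro x hx
      simp only [Set.mem_insert_iff, Set.mem_singleton_iff] at hx
      show x ∈ pl f3 g
      rw [mem_pl]
      rcases hx with rfl | rfl | rfl
      · exact ⟨0, 0, 1, by rw [C_0, C_1]; ring⟩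
      · exact ⟨-l, 1, 0, by rw [C_0, C_1, C_neg]; linear_combination -hg'⟩
      · exact ⟨0, 1, 0, by rw [C_0, C_1]; ring⟩
  have hadj : Adj (sp f2 g (f1 + ev1 (Polynomial.C c' * Polynomial.X ^ j) f2))
      (sp f3 g (f1 + ev1 (Polynomial.C c * Polynomial.X ^ j) f3)) := by
    rw [sp_of_pl hpl, ev1_monomial, ev1_monomial]
    have hJ : JU f2 g (f1 + C c' * f2 ^ j) := by
      have h1 : C c' * f2 ^ j = ev (C c' * MvPolynomial.X 0 ^ j) f2 g := by
        simp [ev]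
      rw [h1]
      exact s.ju2.rot.add_ev _
    refine adj_center hJ (c := 1) one_ne_zero (C c * (C l⁻¹ * (MvPolynomial.X 1 - MvPolynomial.X 0)) ^ j - C c' * MvPolynomial.X 0 ^ j) ?_
    have h2 : ev (C c * (C l⁻¹ * (MvPolynomial.X 1 - MvPolynomial.X 0)) ^ j - C c' * MvPolynomial.X 0 ^ j) f2 g =
        C c * (C l⁻¹ * (g - f2)) ^ j - C c' * f2 ^ j := by
      simp [ev]
    rw [h2, ← hf3, C_1]
    ring
  exact (hc2.symm.trans (conn_of_adj IH hadj) hS').trans hc1 hS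

private theorem sitE_simple {ω : Wts} {f1 f2 g : B k} {P : MvPolynomial (Fin 2) k} (hp1 : 0 < D ω f1)
    (lt : D ω g < D ω f2) (nX : D ω (g + ev P f1 f2) ≤ D ω g) (hr : ∀ j : ℕ, D ω f2 ≠ j * D ω f1)
    (h : ¬Ess P) : ∃ R : Polynomial k, ev P f1 f2 = ev1 R f1 := by
  obtain ⟨R, c, hR⟩ := not_ess h
  refine ⟨R, ?_⟩
  have h1 : c = 0 := by
    by_contra hc
    have h2 : D ω (C c * f2) = D ω f2 := D_C_mul ω hc f2
    have h3 : D ω (ev P f1 f2) ≤ D ω g := D_of_add_le ω nX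
    have h4 : D ω (C c * f2 + ev1 R f1) < D ω (C c * f2) := by
      rw [add_comm, ← hR, h2]
      linarith
    have h5 := D_of_add_lt ω h4
    rw [h2, D_ev1 ω hp1] at h5
    exact hr _ h5.symm
  rw [hR, h1, C_0]
  ring

theorem se_ness {ω : Wts} {V X Y : Submodule k (B k)} (IH : IHyp k ω (S ω V)) {f1 f2 f3 g : B k}
    {P Q : MvPolynomial (Fin 2) k} (s : SitE ω V X Y f1 f2 f3 g P Q) (hr : ∀ j : ℕ, D ω f2 ≠ j * D ω f1)
    (h : ¬Ess P ∨ ¬Ess Q) : Conn ω V X Y := by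
  obtain ⟨hp1, hp2, hp3⟩ := s.ju.pos ω
  have hn3 : D ω f3 ≠ D ω g := by
    rw [← s.eq]
    exact ne_of_gt s.lt
  have hn2 : D ω f2 ≠ D ω g := ne_of_gt s.lt
  have hn13 : D ω f1 ≠ D ω f3 := by
    rw [← s.eq]
    exact s.n12
  rcases h with h | h
  · obtain ⟨R, hR⟩ := sitE_simple hp1 s.lt s.nX hr h
    have h1 := s.nX
    have h2 := s.nX'
    have h3 := s.hX
    have h5 := s.wY
    have h6 := s.hY
    rw [hR] at h1 h2 h3
    rw [h3] at h2 ⊢
    rw [h6] at h5 ⊢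
    exact sq IH s.ju2 s.hV2 s.n12 s.ng hn2 R h1 h2 s.ju3 s.hV3 Q h5
  · obtain ⟨R, hR⟩ := sitE_simple hp1 (by rw [← s.eq]; exact s.lt) s.nY (by rw [← s.eq]; exact hr) h
    have h1 := s.nY
    have h2 := s.nY'
    have h3 := s.hY
    have h5 := s.wX
    have h6 := s.hX
    rw [hR] at h1 h2 h3
    rw [h3] at h2 ⊢
    rw [h6] at h5 ⊢
    exact (sq IH s.ju3 s.hV3 hn13 s.ng hn3 R h1 h2 s.ju2 s.hV2 P h5).symm

end SU
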