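import Pool.Agent.Lib.MP_374dcb_al.Com
import Pool.Agent.Lib.MP_374dcb_al.Sq
import Pool.Agent.Lib.MP_374dcb_al.Res

/-!
# JOB SitN: the normalized situation with `D f2 < D f3`, and the resonances with `f1`

`sitN`: `weak_norm` for `(f1,f2,f3)` and `P`, and for `(f1,f3,f2)` and `Q` (`V = sp f1 f3 f2`, `sp_swap23`, `JU.swap'`).
`ee_res1`: `D f3 = j * D f1` (`j ≥ 1` since the degrees are positive): `res` gives `c ≠ 0` with `D (f3 + C c * f1 ^ j) < D f3`, `ev1 (C c * X ^ j) f1 = C c * f1 ^ j`. `W := sp f1 f2 (f3 + ..)`;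
`sq_strict` (with `g = f1`, `h2 = f2`, `h3 = f3`) applied to `X` (`u = f2`, `v = f3`) and to `Y` (`u = f3`, `v = f2`, `Q`) gives `Conn ω V W X`, `Conn ω V W Y`, `S W < S V`; `Conn.trans`, `Conn.symm`.
`D f2 = j * D f1`: the same with `h2 = f3`, `h3 = f2`.
`ee_ness1`: `P` not essential: `ev P f1 f2 = ev1 R f1 + C c * f2`, `X = sp f1 f2 (f3 + ev1 R f1)` (`sp_add`), `D (f3 + ev1 R f1) ≤ D f3` since `D (C c * f2) ≤ D f2 < D f3` (and `<` if
`D (f3 + ev P f1 f2) < D f3`), so `sq` applies with `X` as the simple neighbour and `Y` as the other one.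
`ee_ness2`: `Q` not essential: `ev Q f1 f3 = ev1 R f1 + C c * f3`. If `c ≠ 0`: `D (ev Q f1 f3) ≤ D f2 < D f3` (`D_of_add_le`), so `D (ev1 R f1) = D (C c * f3) = D f3`, but
`D (ev1 R f1) = natDegree R * D f1` (`D_ev1`), against `hr`. So `c = 0` and `sq` applies with `Y` as the simple neighbour (`g = f1`, `h2 = f3`, `h3 = f2`).
-/

set_option autoImplicit false

open MvPolynomial

namespace SU

universe u
variable {k : Type u} [Field k] [CharZero k]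

/-- The normalized situation. -/
structure SitN (ω : Wts) (V X Y : Submodule k (B k)) (f1 f2 f3 : B k) (P Q : MvPolynomial (Fin 2) k) : Prop extends
    Sit ω V X Y f1 f2 f3 P Q where
  lt : D ω f2 < D ω f3
  nX : D ω (f3 + ev P f1 f2) ≤ D ω f3
  nX' : S ω X < S ω V → D ω (f3 + ev P f1 f2) < D ω f3
  nY : D ω (f2 + ev Q f1 f3) ≤ D ω f2
  nY' : S ω Y < S ω V → D ω (f2 + ev Q f1 f3) < D ω f2

theorem sitN {ω : Wts} {V X Y : Submodule k (B k)} {f1 f2 f3 : B k} {P Q : MvPolynomial (Fin 2) k}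
    (s : Sit ω V X Y f1 f2 f3 P Q) (h : D ω f2 < D ω f3) :
    ∃ P' Q' : MvPolynomial (Fin 2) k, SitN ω V X Y f1 f2 f3 P' Q' := by
  have hS1 : S ω (sp f1 f2 (f3 + ev P f1 f2)) ≤ S ω (sp f1 f2 f3) := by
    rw [← s.hX, ← s.hV]
    exact s.wX
  have hS2 : S ω (sp f1 f3 (f2 + ev Q f1 f3)) ≤ S ω (sp f1 f3 f2) := by
    rw [← s.hY, sp_swap23, ← s.hV]
    exact s.wY
  obtain ⟨P', hP1, -, hP2, hP3⟩ := weak_norm ω s.ju s.n12 s.n13 h.ne P hS1
  obtain ⟨Q', hQ1, -, hQ2, hQ3⟩ := weak_norm ω s.ju.swap' s.n13 s.n12 h.ne' Q hS2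
  refine ⟨P', Q', ⟨⟨s.ju, s.hV, s.n12, s.n13, s.hX.trans hP1.symm, s.hY.trans hQ1.symm, s.wX, s.wY⟩,
    h, hP2, ?_, hQ2, ?_⟩⟩
  · intro hlt
    apply hP3
    rw [← s.hX, ← s.hV]
    exact hlt
  · intro hlt
    apply hQ3
    rw [← s.hY, sp_swap23, ← s.hV]
    exact hlt

theorem ee_res1 {ω : Wts} {V X Y : Submodule k (B k)} (IH : IHyp k ω (S ω V)) {f1 f2 f3 : B k}
    {P Q : MvPolynomial (Fin 2) k} (s : SitN ω V X Y f1 f2 f3 P Q)
    (hr : ∃ j : ℕ, D ω f3 = j * D ω f1 ∨ D ω f2 = j * D ω f1) : Conn ω V X Y := by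
  have hV2 : V = sp f1 f3 f2 := by
    rw [sp_swap23]
    exact s.hV
  have hX : S ω (sp f1 f2 (f3 + ev P f1 f2)) ≤ S ω V := by
    rw [← s.hX]
    exact s.wX
  have hY : S ω (sp f1 f3 (f2 + ev Q f1 f3)) ≤ S ω V := by
    rw [← s.hY]
    exact s.wY
  obtain ⟨p1, p2, p3⟩ := s.ju.pos ω
  obtain ⟨j, hj⟩ := hr
  have hj1 : 1 ≤ j := by
    rcases Nat.eq_zero_or_pos j with h0 | h0
    · rw [h0] at hj
      rcases hj with hj | hj
      · rw [hj] at p3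
        simp at p3
      · rw [hj] at p2
        simp at p2
    · exact h0
  rcases hj with hj | hj
  · obtain ⟨c, -, hc⟩ := res ω p1 hj1 hj
    rw [← ev1_monomial] at hc
    obtain ⟨hW, h1⟩ := sq_strict IH s.ju s.hV s.n12 s.n13 s.lt.ne _ hc s.ju s.hV P hX
    obtain ⟨-, h2⟩ := sq_strict IH s.ju s.hV s.n12 s.n13 s.lt.ne _ hc s.ju.swap' hV2 Q hY
    rw [s.hX, s.hY]
    exact h1.symm.trans h2 hW
  · obtain ⟨c, -, hc⟩ := res ω p1 hj1 hj
    rw [← ev1_monomial] at hc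
    obtain ⟨hW, h1⟩ := sq_strict IH s.ju.swap' hV2 s.n13 s.n12 s.lt.ne' _ hc s.ju s.hV P hX
    obtain ⟨-, h2⟩ := sq_strict IH s.ju.swap' hV2 s.n13 s.n12 s.lt.ne' _ hc s.ju.swap' hV2 Q hY
    rw [s.hX, s.hY]
    exact h1.symm.trans h2 hW

theorem ee_ness1 {ω : Wts} {V X Y : Submodule k (B k)} (IH : IHyp k ω (S ω V)) {f1 f2 f3 : B k}
    {P Q : MvPolynomial (Fin 2) k} (s : SitN ω V X Y f1 f2 f3 P Q) (h : ¬Ess P) : Conn ω V X Y := by
  have hV2 : V = sp f1 f3 f2 := by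
    rw [sp_swap23]
    exact s.hV
  have hY : S ω (sp f1 f3 (f2 + ev Q f1 f3)) ≤ S ω V := by
    rw [← s.hY]
    exact s.wY
  obtain ⟨R, c, hR⟩ := not_ess h
  have e1 : X = sp f1 f2 (f3 + ev1 R f1) := by
    rw [s.hX, hR f1 f2, ← sp_add f1 f2 (f3 + ev1 R f1) 0 c 0]
    congr 1
    simp only [map_zero, zero_mul]
    ring
  have e2 : f3 + ev1 R f1 = (f3 + ev P f1 f2) - C c * f2 := by
    rw [hR f1 f2]
    ring
  have e3 : D ω (C c * f2) < D ω f3 := lt_of_le_of_lt (D_C_mul_le ω c f2) s.lt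
  have hw : D ω (f3 + ev1 R f1) ≤ D ω f3 := by
    rw [e2]
    exact (D_sub_le ω _ _).trans (max_le s.nX e3.le)
  have hW : S ω (sp f1 f2 (f3 + ev1 R f1)) < S ω V → D ω (f3 + ev1 R f1) < D ω f3 := by
    intro hlt
    rw [← e1] at hlt
    rw [e2]
    exact lt_of_le_of_lt (D_sub_le ω _ _) (max_lt (s.nX' hlt) e3)
  have h1 := sq IH s.ju s.hV s.n12 s.n13 s.lt.ne R hw hW s.ju.swap' hV2 Q hY
  rw [e1, s.hY]
  exact h1

theorem ee_ness2 {ω : Wts} {V X Y : Submodule k (B k)} (IH : IHyp k ω (S ω V)) {f1 f2 f3 : B k}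
    {P Q : MvPolynomial (Fin 2) k} (s : SitN ω V X Y f1 f2 f3 P Q) (h : ¬Ess Q)
    (hr : ∀ j : ℕ, D ω f3 ≠ j * D ω f1) : Conn ω V X Y := by
  have hV2 : V = sp f1 f3 f2 := by
    rw [sp_swap23]
    exact s.hV
  have hX : S ω (sp f1 f2 (f3 + ev P f1 f2)) ≤ S ω V := by
    rw [← s.hX]
    exact s.wX
  obtain ⟨p1, p2, p3⟩ := s.ju.pos ω
  obtain ⟨R, c, hR⟩ := not_ess h
  have hc : c = 0 := by
    by_contra hc
    have h1 : D ω (ev Q f1 f3) ≤ D ω f2 := D_of_add_le ω s.nY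
    have h2 : ev1 R f1 = ev Q f1 f3 - C c * f3 := by
      rw [hR f1 f3]
      ring
    have h3 : D ω (C c * f3) = D ω f3 := D_C_mul ω hc f3
    have h4 : D ω (ev1 R f1) = D ω f3 := by
      rw [h2, D_sub_right ω (by rw [h3]; exact lt_of_le_of_lt h1 s.lt), h3]
    apply hr R.natDegree
    rw [← h4]
    exact D_ev1 ω p1 R
  have e1 : Y = sp f1 f3 (f2 + ev1 R f1) := by
    rw [s.hY, hR f1 f3, hc]
    simp only [map_zero, zero_mul, add_zero]
  have e2 : ev Q f1 f3 = ev1 R f1 := by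
    rw [hR f1 f3, hc]
    simp only [map_zero, zero_mul, add_zero]
  have hw : D ω (f2 + ev1 R f1) ≤ D ω f2 := by
    rw [← e2]
    exact s.nY
  have hW : S ω (sp f1 f3 (f2 + ev1 R f1)) < S ω V → D ω (f2 + ev1 R f1) < D ω f2 := by
    intro hlt
    rw [← e1] at hlt
    rw [← e2]
    exact s.nY' hlt
  have h1 := sq IH s.ju.swap' hV2 s.n13 s.n12 s.lt.ne' R hw hW s.ju s.hV P hX
  rw [e1, s.hX]
  exact h1.symm

end SU
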