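import Pool.Agent.Lib.MP_374dcb_al.JUl

/-!
# JOB SpL: the spans `sp f g h` and `pl f g`

`C c * f = c • f` (`MvPolynomial.C_mul'`, `smul_eq_C_mul`), `C c = c • 1`. Span equalities by `le_antisymm` and `Submodule.span_le`, or
`Submodule.mem_span_insert`, `Submodule.mem_span_singleton`. `mem_sp`: description of the elements.
`ev_of_pl`: if `f, g ∈ pl u v`, then `f = C a * u + C b * v + C c`, `g = ...`, and `ev P f g = ev P' u v` with
`P' = aeval ![C a * X 0 + C b * X 1 + C c, ...] P` (composition of `aeval`s: `MvPolynomial.comp_aeval`, `aeval` applied to `P`, algebra homs agree on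
`X 0`, `X 1`).
-/

set_option autoImplicit false

open MvPolynomial

namespace SU

universe u
variable {k : Type u} [Field k]

theorem mem_sp {f g h x : B k} : x ∈ sp f g h ↔ ∃ a b c e : k, x = C a * f + C b * g + C c * h + C e := by
  unfold sp
  rw [Submodule.mem_span_insert]
  constructor
  · rintro ⟨e, z, hz, rfl⟩
    rw [Submodule.mem_span_insert] at hz
    obtain ⟨a, z, hz, rfl⟩ := hz
    rw [Submodule.mem_span_pair] at hz
    obtain ⟨b, c, rfl⟩ := hz
    refine ⟨a, b, c, e, ?_⟩
    rw [smul_eq_C_mul, smul_eq_C_mul, smul_eq_C_mul, smul_eq_C_mul]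
    ring
  · rintro ⟨a, b, c, e, rfl⟩
    refine ⟨e, C a * f + C b * g + C c * h, ?_, ?_⟩
    · rw [Submodule.mem_span_insert]
      refine ⟨a, C b * g + C c * h, ?_, ?_⟩
      · rw [Submodule.mem_span_pair]
        refine ⟨b, c, ?_⟩
        rw [smul_eq_C_mul, smul_eq_C_mul]
      · rw [smul_eq_C_mul]
        ring
    · rw [smul_eq_C_mul]
      ring

theorem mem_pl {f g x : B k} : x ∈ pl f g ↔ ∃ a b e : k, x = C a * f + C b * g + C e := by
  unfold pl
  rw [Submodule.mem_span_insert]
  constructor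
  · rintro ⟨e, z, hz, rfl⟩
    rw [Submodule.mem_span_pair] at hz
    obtain ⟨a, b, rfl⟩ := hz
    refine ⟨a, b, e, ?_⟩
    rw [smul_eq_C_mul, smul_eq_C_mul, smul_eq_C_mul]
    ring
  · rintro ⟨a, b, e, rfl⟩
    refine ⟨e, C a * f + C b * g, ?_, ?_⟩
    · rw [Submodule.mem_span_pair]
      refine ⟨a, b, ?_⟩
      rw [smul_eq_C_mul, smul_eq_C_mul]
    · rw [smul_eq_C_mul]
      ring

theorem sp_swap12 (f g h : B k) : sp g f h = sp f g h := by
  ext x
  rw [mem_sp, mem_sp]
  constructor
  · rintro ⟨a, b, c, e, rfl⟩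
    exact ⟨b, a, c, e, by ring⟩
  · rintro ⟨a, b, c, e, rfl⟩
    exact ⟨b, a, c, e, by ring⟩

theorem sp_swap23 (f g h : B k) : sp f h g = sp f g h := by
  ext x
  rw [mem_sp, mem_sp]
  constructor
  · rintro ⟨a, b, c, e, rfl⟩
    exact ⟨a, c, b, e, by ring⟩
  · rintro ⟨a, b, c, e, rfl⟩
    exact ⟨a, c, b, e, by ring⟩

theorem sp_rot (f g h : B k) : sp g h f = sp f g h := by
  rw [sp_swap23 g f h, sp_swap12]

theorem sp_rev (f g h : B k) : sp h g f = sp f g h := by
  rw [sp_swap12 g h f, sp_rot]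

theorem pl_swap (f g : B k) : pl g f = pl f g := by
  ext x
  rw [mem_pl, mem_pl]
  constructor
  · rintro ⟨a, b, e, rfl⟩
    exact ⟨b, a, e, by ring⟩
  · rintro ⟨a, b, e, rfl⟩
    exact ⟨b, a, e, by ring⟩

theorem sp_add (f g h : B k) (a b c : k) : sp f g (h + (C a * f + C b * g + C c)) = sp f g h := by
  ext x
  rw [mem_sp, mem_sp]
  constructor
  · rintro ⟨a', b', c', e', rfl⟩
    refine ⟨a' + c' * a, b' + c' * b, c', e' + c' * c, ?_⟩
    simp only [C_add, C_mul]
    ring
  · rintro ⟨a', b', c', e', rfl⟩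
    refine ⟨a' - c' * a, b' - c' * b, c', e' - c' * c, ?_⟩
    simp only [C_sub, C_mul]
    ring

theorem sp_C_mul (f g h : B k) {c : k} (hc : c ≠ 0) : sp f g (C c * h) = sp f g h := by
  have ec : (C c⁻¹ : B k) * C c = 1 := by rw [← C_mul, inv_mul_cancel₀ hc, C_1]
  ext x
  rw [mem_sp, mem_sp]
  constructor
  · rintro ⟨a', b', c', e', rfl⟩
    refine ⟨a', b', c' * c, e', ?_⟩
    simp only [C_mul]
    ring
  · rintro ⟨a', b', c', e', rfl⟩
    refine ⟨a', b', c' * c⁻¹, e', ?_⟩
    simp only [C_mul]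
    linear_combination (-(C c' * h)) * ec

theorem sp_of_pl {f g u v : B k} (hp : pl u v = pl f g) (h : B k) : sp u v h = sp f g h := by
  have key : ∀ {f g u v : B k}, pl u v = pl f g → ∀ x, x ∈ sp u v h → x ∈ sp f g h := by
    intro f g u v hp x hx
    rw [mem_sp] at hx
    obtain ⟨a, b, c, e, rfl⟩ := hx
    have h1 : C a * u + C b * v + C e ∈ pl f g := by
      rw [← hp, mem_pl]
      exact ⟨a, b, e, rfl⟩
    rw [mem_pl] at h1
    obtain ⟨a', b', e', h1⟩ := h1
    rw [mem_sp]
    refine ⟨a', b', c, e', ?_⟩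
    linear_combination h1
  ext x
  exact ⟨key hp x, key hp.symm x⟩

theorem ev_of_pl {f g u v : B k} (hp : pl u v = pl f g) (P : MvPolynomial (Fin 2) k) :
    ∃ P' : MvPolynomial (Fin 2) k, ev P f g = ev P' u v := by
  have hf : f ∈ pl u v := by
    rw [hp, mem_pl]
    exact ⟨1, 0, 0, by simp only [C_0, C_1]; ring⟩
  have hg : g ∈ pl u v := by
    rw [hp, mem_pl]
    exact ⟨0, 1, 0, by simp only [C_0, C_1]; ring⟩
  rw [mem_pl] at hf hg
  obtain ⟨a, b, e, hf⟩ := hf
  obtain ⟨a', b', e', hg⟩ := hg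
  refine ⟨aeval ![C a * X 0 + C b * X 1 + C e, C a' * X 0 + C b' * X 1 + C e'] P, ?_⟩
  unfold ev
  have hh : ((aeval ![u, v] : MvPolynomial (Fin 2) k →ₐ[k] B k).comp
      (aeval ![C a * X 0 + C b * X 1 + C e, C a' * X 0 + C b' * X 1 + C e'])) = aeval ![f, g] := by
    apply algHom_ext
    intro i
    rw [AlgHom.comp_apply, aeval_X, aeval_X]
    fin_cases i
    · show aeval ![u, v] (C a * X 0 + C b * X 1 + C e) = f
      rw [map_add, map_add, map_mul, map_mul, aeval_X, aeval_X, aeval_C, aeval_C, aeval_C, hf]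
      rfl
    · show aeval ![u, v] (C a' * X 0 + C b' * X 1 + C e') = g
      rw [map_add, map_add, map_mul, map_mul, aeval_X, aeval_X, aeval_C, aeval_C, aeval_C, hg]
      rfl
  rw [← hh]
  rfl

theorem ev_lin (a b c : k) (f g : B k) :
    ev (C a * X 0 + C b * X 1 + C c) f g = C a * f + C b * g + C c := by
  unfold ev
  rw [map_add, map_add, map_mul, map_mul, aeval_X, aeval_X, aeval_C, aeval_C, aeval_C]
  rfl

theorem ev_add (P Q : MvPolynomial (Fin 2) k) (f g : B k) : ev (P + Q) f g = ev P f g + ev Q f g :=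
  map_add _ _ _

theorem ev_neg (P : MvPolynomial (Fin 2) k) (f g : B k) : ev (-P) f g = -ev P f g :=
  map_neg _ _

theorem ev_sub (P Q : MvPolynomial (Fin 2) k) (f g : B k) : ev (P - Q) f g = ev P f g - ev Q f g :=
  map_sub _ _ _

theorem ev_mul (P Q : MvPolynomial (Fin 2) k) (f g : B k) : ev (P * Q) f g = ev P f g * ev Q f g :=
  map_mul _ _ _

theorem ev_C (c : k) (f g : B k) : ev (C c) f g = C c := by
  unfold ev
  rw [aeval_C]
  rfl

theorem ev_X0 (f g : B k) : ev (X 0 : MvPolynomial (Fin 2) k) f g = f := by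
  unfold ev
  rw [aeval_X]
  rfl

theorem ev_X1 (f g : B k) : ev (X 1 : MvPolynomial (Fin 2) k) f g = g := by
  unfold ev
  rw [aeval_X]
  rfl

/-- exchange of the variables -/
theorem ev_swap (P : MvPolynomial (Fin 2) k) : ∃ P' : MvPolynomial (Fin 2) k,
    (∀ f g : B k, ev P' g f = ev P f g) ∧ ∀ m : Fin 2 →₀ ℕ, m ∈ P'.support ↔ ∃ n ∈ P.support, n 0 = m 1 ∧ n 1 = m 0 := by
  refine ⟨rename (Equiv.swap (0 : Fin 2) 1) P, ?_, ?_⟩
  · intro f g
    unfold ev
    rw [aeval_rename]
    congr 1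
    apply algHom_ext
    intro i
    rw [aeval_X, aeval_X]
    fin_cases i
    · show ![g, f] (Equiv.swap (0 : Fin 2) 1 0) = f
      rw [Equiv.swap_apply_left]
      rfl
    · show ![g, f] (Equiv.swap (0 : Fin 2) 1 1) = g
      rw [Equiv.swap_apply_right]
      rfl
  · intro m
    rw [support_rename_of_injective (Equiv.swap (0 : Fin 2) 1).injective, Finset.mem_image]
    constructor
    · rintro ⟨n, hn, rfl⟩
      refine ⟨n, hn, ?_, ?_⟩
      · have := Finsupp.mapDomain_apply (Equiv.swap (0 : Fin 2) 1).injective n 0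
        rw [Equiv.swap_apply_left] at this
        exact this.symm
      · have := Finsupp.mapDomain_apply (Equiv.swap (0 : Fin 2) 1).injective n 1
        rw [Equiv.swap_apply_right] at this
        exact this.symm
    · rintro ⟨n, hn, h0, h1⟩
      refine ⟨n, hn, ?_⟩
      ext i
      have a0 := Finsupp.mapDomain_apply (Equiv.swap (0 : Fin 2) 1).injective n 0
      have a1 := Finsupp.mapDomain_apply (Equiv.swap (0 : Fin 2) 1).injective n 1
      rw [Equiv.swap_apply_left] at a0
      rw [Equiv.swap_apply_right] at a1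
      fin_cases i
      · exact a1.trans h1
      · exact a0.trans h0

/-- composition -/
theorem ev_comp (P Q1 Q2 : MvPolynomial (Fin 2) k) : ∃ P' : MvPolynomial (Fin 2) k,
    ∀ f g : B k, ev P (ev Q1 f g) (ev Q2 f g) = ev P' f g := by
  refine ⟨aeval ![Q1, Q2] P, fun f g => ?_⟩
  unfold ev
  have hh : ((aeval ![f, g] : MvPolynomial (Fin 2) k →ₐ[k] B k).comp (aeval ![Q1, Q2])) =
      aeval ![aeval ![f, g] Q1, aeval ![f, g] Q2] := by
    apply algHom_ext
    intro i
    rw [AlgHom.comp_apply, aeval_X, aeval_X]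
    fin_cases i
    · rfl
    · rfl
  rw [← hh]
  rfl

theorem ev1_eq_ev (R : Polynomial k) : ∃ P : MvPolynomial (Fin 2) k, ∀ f g : B k, ev P f g = ev1 R f := by
  refine ⟨Polynomial.aeval (X 0 : MvPolynomial (Fin 2) k) R, fun f g => ?_⟩
  unfold ev ev1
  rw [← Polynomial.aeval_algHom_apply, aeval_X]
  rfl

theorem ev1_monomial (c : k) (j : ℕ) (f : B k) : ev1 (Polynomial.C c * Polynomial.X ^ j) f = C c * f ^ j := by
  unfold ev1
  rw [map_mul, map_pow, Polynomial.aeval_C, Polynomial.aeval_X]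
  rfl

theorem ev1_add (R Q : Polynomial k) (f : B k) : ev1 (R + Q) f = ev1 R f + ev1 Q f :=
  map_add _ _ _

theorem ev1_neg (R : Polynomial k) (f : B k) : ev1 (-R) f = -ev1 R f :=
  map_neg _ _

/-- a polynomial which is not essential is `R(X) + c Y` -/
theorem not_ess {P : MvPolynomial (Fin 2) k} (h : ¬Ess P) :
    ∃ (R : Polynomial k) (c : k), ∀ f g : B k, ev P f g = ev1 R f + C c * g := by
  have h' : ∀ m ∈ P.support, m 1 = 0 ∨ (m 1 = 1 ∧ m 0 = 0) := by
    intro m hm
    by_contra hcon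
    apply h
    refine ⟨m, hm, ?_⟩
    omega
  refine ⟨∑ m ∈ P.support.filter (fun m => m 1 = 0), Polynomial.C (coeff m P) * Polynomial.X ^ (m 0),
    coeff (Finsupp.single 1 1) P, fun f g => ?_⟩
  have e1 : ev1 (∑ m ∈ P.support.filter (fun m => m 1 = 0),
      Polynomial.C (coeff m P) * Polynomial.X ^ (m 0)) f =
      ∑ m ∈ P.support.filter (fun m => m 1 = 0), C (coeff m P) * f ^ (m 0) := by
    unfold ev1
    rw [map_sum]
    refine Finset.sum_congr rfl fun m _ => ?_
    exact ev1_monomial _ _ _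
  rw [e1, ev_eq_sum, ← Finset.sum_filter_add_sum_filter_not P.support (fun m => m 1 = 0)]
  congr 1
  · refine Finset.sum_congr rfl fun m hm => ?_
    rw [(Finset.mem_filter.1 hm).2, pow_zero, mul_one]
  · have hm1 : ∀ m ∈ P.support.filter (fun m => ¬m 1 = 0), m = Finsupp.single 1 1 := by
      intro m hm
      obtain ⟨hm, hm0⟩ := Finset.mem_filter.1 hm
      rcases h' m hm with h1 | ⟨h1, h2⟩
      · exact absurd h1 hm0
      · ext i
        fin_cases i
        · show m 0 = _
          rw [h2]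
          simp
        · show m 1 = _
          rw [h1]
          simp
    by_cases hs : Finsupp.single 1 1 ∈ P.support
    · have : P.support.filter (fun m => ¬m 1 = 0) = {Finsupp.single 1 1} := by
        apply Finset.eq_singleton_iff_unique_mem.2
        refine ⟨?_, hm1⟩
        rw [Finset.mem_filter]
        refine ⟨hs, ?_⟩
        simp
      rw [this, Finset.sum_singleton]
      simp
    · have : P.support.filter (fun m => ¬m 1 = 0) = ∅ := by
        rw [Finset.eq_empty_iff_forall_notMem]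
        intro m hm
        have := hm1 m hm
        rw [this] at hm
        exact hs (Finset.mem_filter.1 hm).1
      rw [this, Finset.sum_empty, notMem_support_iff.1 hs, C_0, zero_mul]

end SU
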