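import Pool.Agent.Lib.MP_374dcb_al.SpL
import Pool.Agent.Lib.MP_374dcb_al.CP

/-!
# JOB Sv: the degree of a vertex

The set in the definition of `S` is bounded below by `0` (even by `ω.eps`: `JU.eps_le`), so `S_le` is `csInf_le`.
`S_attained`: the set of triples `(f,g,h)` with `JU f g h ∧ V = sp f g h` is nonempty; by `exists_sum_min` choose one with minimal sum of the
degrees; the sum is `S ω V` (`IsLeast.csInf_eq`). The three degrees are pairwise different: if e.g. `D f = D g` (`> 0`), then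
`D (f - C c * g) < D g` for some `c ≠ 0` (`lead_cancel`), and `(f - C c * g, g, h)` spans the same `V` (`JU.of_span`), with smaller sum. Order them
(`sp_swap12`, ..., `JU.swap`, ...).
`S_eq`: `≤` is `S_le`. Let `(f',g',h')` be another basis: `JU f' g' h'`, `sp f' g' h' = sp f g h`. Write `f' = C a11 f + C a12 g + C a13 h + C a10`, etc. Since the
three degrees `D f, D g, D h` are different, `D f' ≥ D f` if `a11 ≠ 0`, `≥ D g` if `a12 ≠ 0`, `≥ D h` if `a13 ≠ 0` (the degree of a combination of elements of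
different positive degrees is the maximum of the degrees with nonzero coefficients). The matrix `(aij)` is invertible (`det3 f' g' h' = det · det3 f g h ≠ 0`), so there
is a permutation `π` with all `a_{i π(i)} ≠ 0`, and the sum of the degrees of `f', g', h'` is at least `D f + D g + D h`.
(Alternative to the determinant: order `D f < D g < D h`. An element of `V` of degree `< D g` lies in `span(1,f)`, an element of degree `< D h` in
`span(1,f,g)`. Sort `f',g',h'` by degree, `D f' ≤ D g' ≤ D h'`: `D f' ≥ D f` (nonconstant), `D g' ≥ D g` since `f', g', 1` are independent (`cr f' g' ≠ 0`) and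
cannot both lie in `span(1,f)`, `D h' ≥ D h` since `JU f' g' h'`, so they cannot all lie in `span(1,f,g)`.)
`S_ge_eps` from `S_attained` and `JU.eps_le`.
-/

set_option autoImplicit false

open MvPolynomial

namespace SU

universe u
variable {k : Type u} [Field k] [CharZero k]

theorem S_le (ω : Wts) {f g h : B k} (H : JU f g h) : S ω (sp f g h) ≤ D ω f + D ω g + D ω h := by
  refine csInf_le ⟨0, ?_⟩ ⟨f, g, h, H, rfl, rfl⟩
  rintro s ⟨f', g', h', _, _, rfl⟩
  have h1 := D_nonneg ω f'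
  have h2 := D_nonneg ω g'
  have h3 := D_nonneg ω h'
  linarith

private theorem sv_sort (ω : Wts) (P : B k → B k → B k → Prop) (h12 : ∀ f g h, P f g h → P g f h)
    (h23 : ∀ f g h, P f g h → P f h g) (hs : ∀ f g h, D ω f ≤ D ω g → D ω g ≤ D ω h → P f g h) (f g h : B k) :
    P f g h := by
  rcases le_total (D ω f) (D ω g) with a | a <;> rcases le_total (D ω g) (D ω h) with b | b <;>
    rcases le_total (D ω f) (D ω h) with c | c
  · exact hs _ _ _ a b
  · exact hs _ _ _ a b
  · exact h23 _ _ _ (hs _ _ _ c b)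
  · exact h23 _ _ _ (h12 _ _ _ (hs _ _ _ c a))
  · exact h12 _ _ _ (hs _ _ _ a c)
  · exact h12 _ _ _ (h23 _ _ _ (hs _ _ _ b c))
  · exact h12 _ _ _ (h23 _ _ _ (h12 _ _ _ (hs _ _ _ b a)))
  · exact h12 _ _ _ (h23 _ _ _ (h12 _ _ _ (hs _ _ _ b a)))

private theorem sv_ne (ω : Wts) {V : Submodule k (B k)} {f g h : B k} (H : JU f g h) (hV : V = sp f g h)
    (hmin : ∀ f' g' h' : B k, JU f' g' h' → V = sp f' g' h' →
      D ω f + D ω g + D ω h ≤ D ω f' + D ω g' + D ω h') : D ω g ≠ D ω h := by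
  intro he
  have hp := H.pos ω
  obtain ⟨c, hc, hlt⟩ := lead_cancel ω he.symm hp.2.1
  have h1 : sp f g (h + (C 0 * f + C (-c) * g + C 0)) = sp f g h := sp_add f g h 0 (-c) 0
  have h2 := hmin f g _ (H.of_span h1) (hV.trans h1.symm)
  have h3 : h + (C 0 * f + C (-c) * g + C 0) = h - C c * g := by
    rw [map_zero, map_neg]
    ring
  rw [h3] at h2
  linarith

theorem S_attained (ω : Wts) {V : Submodule k (B k)} (hV : Vert V) :
    ∃ f g h : B k, JU f g h ∧ V = sp f g h ∧ S ω V = D ω f + D ω g + D ω h ∧ D ω f < D ω g ∧ D ω g < D ω h := by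
  obtain ⟨f0, g0, h0, H0, hV0⟩ := hV
  obtain ⟨t, ht, hmin⟩ := exists_sum_min ω
    (s := {t : B k × B k × B k | JU t.1 t.2.1 t.2.2 ∧ V = sp t.1 t.2.1 t.2.2}) ⟨(f0, g0, h0), H0, hV0⟩
  have hS : S ω V = D ω t.1 + D ω t.2.1 + D ω t.2.2 := by
    refine IsLeast.csInf_eq ⟨⟨t.1, t.2.1, t.2.2, ht.1, ht.2, rfl⟩, ?_⟩
    rintro s ⟨f', g', h', H', hV', rfl⟩
    exact hmin (f', g', h') ⟨H', hV'⟩
  have key := sv_sort ω (fun f g h => JU f g h → V = sp f g h → S ω V = D ω f + D ω g + D ω h →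
      ∃ f g h : B k, JU f g h ∧ V = sp f g h ∧ S ω V = D ω f + D ω g + D ω h ∧ D ω f < D ω g ∧ D ω g < D ω h)
    (fun f g h hP H hV hs => hP H.swap (hV.trans (sp_swap12 f g h)) (by rw [hs]; ring))
    (fun f g h hP H hV hs => hP H.swap' (hV.trans (sp_swap23 f g h)) (by rw [hs]; ring))
    (fun f g h h1 h2 H hV hs => by
      have hm : ∀ f' g' h' : B k, JU f' g' h' → V = sp f' g' h' →
          D ω f + D ω g + D ω h ≤ D ω f' + D ω g' + D ω h' := by
        intro f' g' h' H' hV'
        rw [← hs, hS]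
        exact hmin (f', g', h') ⟨H', hV'⟩
      have h3 : D ω g ≠ D ω h := sv_ne ω H hV hm
      have h4 : D ω f ≠ D ω g := by
        refine sv_ne ω (f := h) H.rot.rot (hV.trans ?_) fun f' g' h' H' hV' => ?_
        · rw [sp_rot, sp_rot]
        · have := hm f' g' h' H' hV'
          linarith
      exact ⟨f, g, h, H, hV, hs, lt_of_le_of_ne h1 h4, lt_of_le_of_ne h2 h3⟩)
  exact key t.1 t.2.1 t.2.2 ht.1 ht.2 hS

private theorem sv_det (f g : B k) (a1 b1 e1 a2 b2 e2 a3 b3 e3 : k) :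
    det3 (C a1 * f + C b1 * g + C e1) (C a2 * f + C b2 * g + C e2) (C a3 * f + C b3 * g + C e3) = 0 := by
  simp only [det3, cr, J, E_add, E_C_mul, E_C, Matrix.cons_val_zero, Matrix.cons_val_one, Matrix.cons_val]
  ring

private theorem sv_c (ω : Wts) {f g h : B k} (h1 : D ω f < D ω g) (h2 : D ω g < D ω h) {a b c e : k} (hc : c ≠ 0) :
    D ω (C a * f + C b * g + C c * h + C e) = D ω h := by
  rw [D_add_C]
  have h3 : D ω (C a * f + C b * g) < D ω (C c * h) := by
    rw [D_C_mul ω hc]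
    refine lt_of_le_of_lt (D_add_le ω _ _) (max_lt ?_ ?_)
    · exact lt_of_le_of_lt (D_C_mul_le ω a f) (h1.trans h2)
    · exact lt_of_le_of_lt (D_C_mul_le ω b g) h2
  rw [D_add_right ω h3, D_C_mul ω hc]

private theorem sv_b (ω : Wts) {f g : B k} (h1 : D ω f < D ω g) {a b e : k} (hb : b ≠ 0) :
    D ω (C a * f + C b * g + C e) = D ω g := by
  rw [D_add_C]
  have h3 : D ω (C a * f) < D ω (C b * g) := by
    rw [D_C_mul ω hb]
    exact lt_of_le_of_lt (D_C_mul_le ω a f) h1
  rw [D_add_right ω h3, D_C_mul ω hb]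

private theorem sv_low (ω : Wts) {f g h f' g' h' : B k} (h12 : D ω f < D ω g) (h23 : D ω g < D ω h)
    (H' : JU f' g' h') (hs : sp f' g' h' = sp f g h) (k1 : D ω f' ≤ D ω g') (k2 : D ω g' ≤ D ω h') :
    D ω f + D ω g + D ω h ≤ D ω f' + D ω g' + D ω h' := by
  have hmem : ∀ x : B k, x = f' ∨ x = g' ∨ x = h' → ∃ a b c e : k, x = C a * f + C b * g + C c * h + C e := by
    intro x hx
    rw [← mem_sp, ← hs, mem_sp]
    rcases hx with rfl | rfl | rfl
    · exact ⟨1, 0, 0, 0, by simp⟩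
    · exact ⟨0, 1, 0, 0, by simp⟩
    · exact ⟨0, 0, 1, 0, by simp⟩
  obtain ⟨a1, b1, c1, e1, q1⟩ := hmem f' (Or.inl rfl)
  obtain ⟨a2, b2, c2, e2, q2⟩ := hmem g' (Or.inr (Or.inl rfl))
  obtain ⟨a3, b3, c3, e3, q3⟩ := hmem h' (Or.inr (Or.inr rfl))
  have hz : ∀ {x : B k} {a b c e : k}, x = C a * f + C b * g + C c * h + C e → D ω x < D ω h →
      c = 0 := by
    intro x a b c e hx hlt
    by_contra hc
    rw [hx, sv_c ω h12 h23 hc] at hlt
    exact lt_irrefl _ hlt
  have hz2 : ∀ {x : B k} {a b c e : k}, x = C a * f + C b * g + C c * h + C e → D ω x < D ω g →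
      b = 0 ∧ c = 0 := by
    intro x a b c e hx hlt
    have hc := hz hx (hlt.trans h23)
    refine ⟨?_, hc⟩
    by_contra hb
    rw [hx, hc, map_zero, zero_mul, add_zero, sv_b ω h12 hb] at hlt
    exact lt_irrefl _ hlt
  have r3 : D ω h ≤ D ω h' := by
    by_contra hlt
    push Not at hlt
    have z3 := hz q3 hlt
    have z2 := hz q2 (k2.trans_lt hlt)
    have z1 := hz q1 ((k1.trans k2).trans_lt hlt)
    subst z1 z2 z3
    simp only [map_zero, zero_mul, add_zero] at q1 q2 q3
    obtain ⟨c, hc, hd⟩ := H'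
    rw [q1, q2, q3, sv_det] at hd
    have h5 : (C c * (X 0 * X 1 * X 2) : B k) ≠ 0 :=
      mul_ne_zero (fun h0 => hc (C_injective _ _ (by rw [h0, map_zero])))
        (mul_ne_zero (mul_ne_zero (X_ne_zero _) (X_ne_zero _)) (X_ne_zero _))
    exact h5 hd.symm
  have r2 : D ω g ≤ D ω g' := by
    by_contra hlt
    push Not at hlt
    obtain ⟨y2, z2⟩ := hz2 q2 hlt
    obtain ⟨y1, z1⟩ := hz2 q1 (k1.trans_lt hlt)
    subst z1 z2 y1 y2
    simp only [map_zero, zero_mul, add_zero] at q1 q2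
    refine H'.cr12 ?_
    rw [q1, q2, cr_add_left, cr_C_left, add_zero, cr_add_right, cr_C_right, add_zero, cr_C_mul_left, cr_C_mul_right,
      cr_self, smul_zero, smul_zero]
  have r1 : D ω f ≤ D ω f' := by
    have hp := (H'.pos ω).1
    by_contra hlt
    push Not at hlt
    obtain ⟨y1, z1⟩ := hz2 q1 (hlt.trans h12)
    subst y1 z1
    simp only [map_zero, zero_mul, add_zero] at q1
    rcases eq_or_ne a1 0 with h0 | h0
    · rw [q1, h0, map_zero, zero_mul, zero_add, D_C] at hp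
      exact lt_irrefl _ hp
    · rw [q1, D_add_C, D_C_mul ω h0] at hlt
      exact lt_irrefl _ hlt
  linarith

theorem S_eq (ω : Wts) {f g h : B k} (H : JU f g h) (h12 : D ω f ≠ D ω g) (h13 : D ω f ≠ D ω h)
    (h23 : D ω g ≠ D ω h) : S ω (sp f g h) = D ω f + D ω g + D ω h := by
  refine le_antisymm (S_le ω H) ?_
  have key : ∀ f' g' h' : B k, JU f' g' h' → sp f' g' h' = sp f g h →
      D ω f + D ω g + D ω h ≤ D ω f' + D ω g' + D ω h' := by
    refine sv_sort ω (fun f g h => D ω f ≠ D ω g → D ω f ≠ D ω h → D ω g ≠ D ω h →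
      ∀ f' g' h' : B k, JU f' g' h' → sp f' g' h' = sp f g h →
      D ω f + D ω g + D ω h ≤ D ω f' + D ω g' + D ω h') ?_ ?_ ?_ f g h h12 h13 h23
    · intro f g h hP a b c f' g' h' H' hs
      have := hP a.symm c b f' g' h' H' (hs.trans (sp_swap12 f g h))
      linarith
    · intro f g h hP a b c f' g' h' H' hs
      have := hP b a c.symm f' g' h' H' (hs.trans (sp_swap23 f g h))
      linarith
    · intro f g h a b c1 c2 c3
      refine sv_sort ω (fun f' g' h' => JU f' g' h' → sp f' g' h' = sp f g h →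
        D ω f + D ω g + D ω h ≤ D ω f' + D ω g' + D ω h') ?_ ?_ ?_
      · intro f' g' h' hP H' hs
        have := hP H'.swap ((sp_swap12 g' f' h').trans hs)
        linarith
      · intro f' g' h' hP H' hs
        have := hP H'.swap' ((sp_swap23 f' g' h').symm.trans hs)
        linarith
      · intro f' g' h' k1 k2 H' hs
        exact sv_low ω (lt_of_le_of_ne a c1) (lt_of_le_of_ne b c3) H' hs k1 k2
  refine le_csInf ⟨_, f, g, h, H, rfl, rfl⟩ ?_
  rintro s ⟨f', g', h', H', hs, rfl⟩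
  exact key f' g' h' H' hs.symm

theorem S_ge_eps (ω : Wts) {V : Submodule k (B k)} (hV : Vert V) : ω.eps ≤ S ω V := by
  obtain ⟨f, g, h, H, _, hs, _⟩ := S_attained ω hV
  rw [hs]
  exact H.eps_le ω

/-- induction on the degree of a vertex -/
theorem vert_induction (ω : Wts) (P : Submodule k (B k) → Prop)
    (h : ∀ V, Vert V → (∀ U, Vert U → S ω U < S ω V → P U) → P V) : ∀ V, Vert V → P V := by
  have hwf := wf_values (k := k) ω (ι := {V : Submodule k (B k) // Vert V}) (fun V => S ω V.1) (by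
    rintro ⟨V, hV⟩
    obtain ⟨f, g, h, _, _, hs, _⟩ := S_attained ω hV
    exact ⟨f, g, h, hs⟩)
  intro V hV
  exact hwf.induction (C := fun V => P V.1) ⟨V, hV⟩ fun V ih => h V.1 V.2 fun U hU hlt => ih ⟨U, hU⟩ hlt

end SU
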