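import Pool.Agent.Lib.MP_374dcb_al.Sv

/-!
# JOB SvB: normal forms of weak and strict neighbours with given center

`plane_good`: among the triples `(u1,u2,v)` with `pl u1 u2 = pl f g`, `v = h + C a * u1 + C b * u2` choose one with minimal `D u1 + D u2 + D v`
(`exists_sum_min`). If `D u1 = D u2` replace `u1` by `u1 - C c * u2`; if `D v = D u1` (or `D u2`) replace `v` by `v - C c * u1`: smaller sum, contradiction.
Finally exchange `u1, u2` if necessary. `JU` by `JU.of_span`.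
`weak_norm`: `D f, D g, D h` pairwise different. Among the elements `h + ev P f g + C a * f + C b * g` choose `h'` with minimal degree
(`exists_D_min`). `D h' ≠ D f`, `D h' ≠ D g` (else reduce with `lead_cancel`), so `S (sp f g (h + ev P f g)) = S (sp f g h') = D f + D g + D h'` (`sp_add`, `S_eq`) and
`S (sp f g h) = D f + D g + D h`: `D h' ≤ D h` (resp. `<`). `h' = h + ev P' f g` with `P' = P + C a * X 0 + C b * X 1` (`ev_lin`).
-/

set_option autoImplicit false

open MvPolynomial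

namespace SU

universe u
variable {k : Type u} [Field k] [CharZero k]

private theorem svb_pl (u1 u2 : B k) (c : k) : pl (u1 - C c * u2) u2 = pl u1 u2 := by
  ext x
  rw [mem_pl, mem_pl]
  constructor
  · rintro ⟨a, b, e, rfl⟩
    refine ⟨a, b - a * c, e, ?_⟩
    rw [map_sub, map_mul]
    ring
  · rintro ⟨a, b, e, rfl⟩
    refine ⟨a, b + a * c, e, ?_⟩
    rw [map_add, map_mul]
    ring

theorem plane_good (ω : Wts) {f g h : B k} (H : JU f g h) :
    ∃ u1 u2 v : B k, JU u1 u2 v ∧ pl u1 u2 = pl f g ∧ (∃ a b : k, v = h + C a * u1 + C b * u2) ∧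
      sp u1 u2 v = sp f g h ∧ D ω u1 < D ω u2 ∧ D ω v ≠ D ω u1 ∧ D ω v ≠ D ω u2 := by
  obtain ⟨⟨u1, u2, v⟩, ⟨hpl, a, b, hv⟩, hmin⟩ := exists_sum_min ω
    (s := {t : B k × B k × B k | pl t.1 t.2.1 = pl f g ∧ ∃ a b : k, t.2.2 = h + C a * t.1 + C b * t.2.1})
    ⟨(f, g, h), rfl, 0, 0, by simp⟩
  simp only at hpl hv hmin
  have hsp : sp u1 u2 v = sp f g h := by
    have h1 := sp_add u1 u2 h a b 0
    rw [map_zero, add_zero, ← add_assoc, ← hv] at h1
    rw [h1, sp_of_pl hpl]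
  have hJ : JU u1 u2 v := H.of_span hsp
  have hp := hJ.pos ω
  have h12 : D ω u1 ≠ D ω u2 := by
    intro he
    obtain ⟨c, hc, hlt⟩ := lead_cancel ω he hp.2.1
    have := hmin (u1 - C c * u2, u2, v) ⟨(svb_pl u1 u2 c).trans hpl, a, b + a * c, by
      simp only
      rw [hv, map_add, map_mul]
      ring⟩
    simp only at this
    linarith
  have hv1 : D ω v ≠ D ω u1 := by
    intro he
    obtain ⟨c, hc, hlt⟩ := lead_cancel ω he hp.1
    have := hmin (u1, u2, v - C c * u1) ⟨hpl, a - c, b, by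
      simp only
      rw [hv, map_sub]
      ring⟩
    simp only at this
    linarith
  have hv2 : D ω v ≠ D ω u2 := by
    intro he
    obtain ⟨c, hc, hlt⟩ := lead_cancel ω he hp.2.1
    have := hmin (u1, u2, v - C c * u2) ⟨hpl, a, b - c, by
      simp only
      rw [hv, map_sub]
      ring⟩
    simp only at this
    linarith
  rcases lt_or_gt_of_ne h12 with hlt | hlt
  · exact ⟨u1, u2, v, hJ, hpl, ⟨a, b, hv⟩, hsp, hlt, hv1, hv2⟩
  · exact ⟨u2, u1, v, hJ.swap, (pl_swap u1 u2).trans hpl, ⟨b, a, by rw [hv]; ring⟩, (sp_swap12 u1 u2 v).trans hsp, hlt,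
      hv2, hv1⟩

theorem weak_norm (ω : Wts) {f g h : B k} (H : JU f g h) (h12 : D ω f ≠ D ω g) (h13 : D ω f ≠ D ω h)
    (h23 : D ω g ≠ D ω h) (P : MvPolynomial (Fin 2) k)
    (hS : S ω (sp f g (h + ev P f g)) ≤ S ω (sp f g h)) :
    ∃ P' : MvPolynomial (Fin 2) k, sp f g (h + ev P' f g) = sp f g (h + ev P f g) ∧
      (∃ a b : k, P' = P + C a * X 0 + C b * X 1) ∧ D ω (h + ev P' f g) ≤ D ω h ∧
      (S ω (sp f g (h + ev P f g)) < S ω (sp f g h) → D ω (h + ev P' f g) < D ω h) := by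
  obtain ⟨h', ⟨a, b, hh'⟩, hmin⟩ := exists_D_min ω
    (s := {x : B k | ∃ a b : k, x = h + ev P f g + C a * f + C b * g}) ⟨_, 0, 0, rfl⟩
  have hp := H.pos ω
  have e1 : h + ev (P + C a * X 0 + C b * X 1) f g = h' := by
    rw [hh', ev_add, ev_add, ev_mul, ev_mul, ev_C, ev_C, ev_X0, ev_X1]
    ring
  have e2 : sp f g h' = sp f g (h + ev P f g) := by
    have h1 := sp_add f g (h + ev P f g) a b 0
    rw [map_zero, add_zero, ← add_assoc, ← hh'] at h1
    exact h1
  have hJ : JU f g h' := by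
    rw [← e1]
    exact H.add_ev _
  have n1 : D ω h' ≠ D ω f := by
    intro he
    obtain ⟨c, hc, hlt⟩ := lead_cancel ω he hp.1
    have := hmin (h' - C c * f) ⟨a - c, b, by
      rw [hh', map_sub]
      ring⟩
    linarith
  have n2 : D ω h' ≠ D ω g := by
    intro he
    obtain ⟨c, hc, hlt⟩ := lead_cancel ω he hp.2.1
    have := hmin (h' - C c * g) ⟨a, b - c, by
      rw [hh', map_sub]
      ring⟩
    linarith
  have s1 := S_eq ω hJ h12 n1.symm n2.symm
  have s2 := S_eq ω H h12 h13 h23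
  rw [e2] at s1
  refine ⟨P + C a * X 0 + C b * X 1, ?_, ⟨a, b, rfl⟩, ?_, fun hlt => ?_⟩
  · rw [e1, e2]
  · rw [e1]
    rw [s1, s2] at hS
    linarith
  · rw [e1]
    rw [s1, s2] at hlt
    linarith

theorem strict_norm (ω : Wts) {f g h : B k} (H : JU f g h) (h12 : D ω f ≠ D ω g) (h13 : D ω f ≠ D ω h)
    (h23 : D ω g ≠ D ω h) (P : MvPolynomial (Fin 2) k)
    (hS : S ω (sp f g (h + ev P f g)) < S ω (sp f g h)) :
    ∃ P' : MvPolynomial (Fin 2) k, sp f g (h + ev P' f g) = sp f g (h + ev P f g) ∧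
      (∃ a b : k, P' = P + C a * X 0 + C b * X 1) ∧ D ω (h + ev P' f g) < D ω h := by
  obtain ⟨P', h1, h2, _, h4⟩ := weak_norm ω H h12 h13 h23 P hS.le
  exact ⟨P', h1, h2, h4 hS⟩

end SU
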