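import Pool.Agent.Lib.MP_374dcb_al.PvP
import Pool.Agent.Lib.MP_374dcb_al.Typ

/-!
# JOB XoA: the vertex `x = (f1,f2,p)` at a pivot with `2 D f2 = 3δ`: numerical facts

Data `Xo`: `Piv`, `2 D f2 = 3δ`, `t = d f1 f3 ≤ δ/2`, `p := f3 + ev P f1 f2` of minimal degree `c := D p < 3δ`, `e := d f1 f2`.
`xo_facts`: `e ≥ 2δ + ε - t ≥ 3/2 δ + ε` (`cp`). `D (ev P f1 f2) = 3δ` (`D_of_add_lt`), `pvP_half`: `ev P f1 f2 = C α * f2 ^ 2 + C β * f1 + C γ * f2 + C κ`, `α ≠ 0`. `ptm` for `(f1,f2,f3)`: `2δ + d f2 f3`, `3/2 δ + t`, `3δ + e`: the third is larger than the second, so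
`d f2 f3 = δ + e`. `cr f1 p = cr f1 f3 + (2 C α f2) • cr f1 f2 + C γ • cr f1 f2`: degrees `t`, `3/2 δ + e`, `e`: `d f1 p = 3/2 δ + e`. `cr f2 p = cr f2 f3 + C β • cr f2 f1`: degrees `δ + e > e`: `d f2 p = δ + e`. `3/2 δ + e ≤ 2δ + D p`: `D p ≥ e - δ/2 > δ`.
`D p ≠ 2δ, 3/2 δ` by minimality (`lead_cancel` with `f1`, `f2`).
`xo_two`: `D v = 3/2 δ`, `D w = c`, `d v w = δ + e`: `D (ev R v w) = 2δ` is impossible: first alternative of `par'`: an exponent with `3/2 δ i + c j = 2δ`: `i = 0`: `j c = 2δ`, `j ≥ 2` gives `c ≤ δ`; `i = 1`: `j c = δ/2`, no. Second: `L = p (3/2 δ) = q c`,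
 `L ≤ 2δ/m + 3/2 δ + c - δ - e ≤ 5/2 δ + c - e < δ + c < 2 c`: `q = 1`, `c = 3/2 p δ < 3δ`, `p = 1`: `c = 3/2 δ`, no.
`xo_half`: `D v = 2δ`, `D w = c`, `d v w = 3/2 δ + e`: `D (ev R v w) = 3/2 δ` is impossible: first alternative: `2δ i + c j = 3/2 δ`: `i = 0`, `j c = 3/2 δ`: `j = 1` no, `j ≥ 2`: `c ≤ 3/4 δ` no. Second: `L ≤ 3/2 δ/m + 2δ + c - 3/2 δ - e < 1/2 δ + c < 2c`: `q = 1`, `c = 2pδ`, `p = 1`: no.
`xo_c`: `D v = 3/2 δ`, `D w = 2δ`, `d v w ≥ δ + e`, `c < 2δ`: `D (ev R v w) = c` is impossible: first alternative: `3/2 i + 2 j = c/δ ∈ (1,2)`: `i = 1`, `c = 3/2 δ`, no. Second: `p (3/2) = q 2`: `p = 4, q = 3`, `L = 6δ`: `6δ m ≤ c + m (7/2 δ - δ - e)`, `e > 3/2 δ`: `5 δ m < c`, no.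
-/

set_option autoImplicit false

open MvPolynomial

namespace SU

universe u
variable {k : Type u} [Field k] [CharZero k]

/-- the data of the vertex `x` -/
structure Xo (ω : Wts) (f1 f2 f3 : B k) (δ : ℝ) (P : MvPolynomial (Fin 2) k) : Prop where
  piv : Piv ω f1 f2 f3 δ
  half : 2 * D ω f2 = 3 * δ
  t : d ω f1 f3 ≤ δ / 2
  lt : D ω (f3 + ev P f1 f2) < 3 * δ
  opt : ∀ P' : MvPolynomial (Fin 2) k, D ω (f3 + ev P f1 f2) ≤ D ω (f3 + ev P' f1 f2)

omit [CharZero k] in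
/-- an exponent which attains the degree -/
private theorem XoA_att {ω : Wts} {v w : B k} {s : ℝ} (hs : 0 < s) {R : MvPolynomial (Fin 2) k}
    (hD : D ω (ev R v w) = s)
    (h : ∀ μ ∈ R.support, (μ 0 : ℝ) * D ω v + μ 1 * D ω w ≤ D ω (ev R v w)) :
    ∃ i j : ℕ, (i : ℝ) * D ω v + j * D ω w = s := by
  have hR : R ≠ 0 := by
    rintro rfl
    have h1 : ev (0 : MvPolynomial (Fin 2) k) v w = 0 := by
      unfold ev
      exact map_zero _
    rw [h1, D_zero] at hD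
    linarith
  obtain ⟨μ, hμ, hμ2⟩ := exists_vd (D_nonneg ω v) (D_nonneg ω w) hR
  refine ⟨μ 0, μ 1, ?_⟩
  have h1 := D_ev_le ω R v w
  have h2 := h μ hμ
  rw [hμ2] at h2 ⊢
  linarith

/-- `m X ≤ s < X` is impossible -/
private theorem XoA_m {m : ℕ} (hm : 1 ≤ m) {X s : ℝ} (hs : 0 < s) (hX : s < X) (h : m * X ≤ s) : False := by
  have h1 : (1 : ℝ) ≤ m := by exact_mod_cast hm
  nlinarith

theorem xo_facts {ω : Wts} {f1 f2 f3 : B k} {δ : ℝ} {P : MvPolynomial (Fin 2) k} (h : Xo ω f1 f2 f3 δ P) :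
    0 < δ ∧ 3 / 2 * δ + ω.eps ≤ d ω f1 f2 ∧ d ω f1 (f3 + ev P f1 f2) = 3 / 2 * δ + d ω f1 f2 ∧
    d ω f2 (f3 + ev P f1 f2) = δ + d ω f1 f2 ∧ d ω f2 f3 = δ + d ω f1 f2 ∧ δ < D ω (f3 + ev P f1 f2) ∧
    D ω (f3 + ev P f1 f2) ≠ 2 * δ ∧ 2 * D ω (f3 + ev P f1 f2) ≠ 3 * δ ∧
    ∃ α β γ κ : k, α ≠ 0 ∧ ev P f1 f2 = C α * f2 ^ 2 + C β * f1 + C γ * f2 + C κ := by
  have H := h.piv.ju
  obtain ⟨h1pos, h2pos, h3pos⟩ := H.pos ω
  have hd1 := h.piv.d1
  have hd3 := h.piv.d3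
  have hb := h.half
  have ht := h.t
  have hδ : 0 < δ := by linarith
  have hε := eps_pos ω
  have ht0 : 0 ≤ d ω f1 f3 := d_nonneg ω f1 f3
  have he : 3 / 2 * δ + ω.eps ≤ d ω f1 f2 := by
    have := cp ω H
    linarith
  obtain ⟨q1, q2, q3⟩ := ptm ω H
  have h23 : d ω f2 f3 = δ + d ω f1 f2 := by
    apply le_antisymm
    · rcases le_max_iff.1 q1 with q | q <;> linarith
    · rcases le_max_iff.1 q3 with q | q <;> linarith
  have hlt := h.lt
  have hP3 : D ω (ev P f1 f2) = 3 * δ := by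
    rw [← hd3]
    refine D_of_add_lt ω ?_
    rw [hd3]
    exact hlt
  obtain ⟨-, α, β, γ, κ, hα, hev⟩ := pvP_half h.piv (by linarith) hP3 (by intro h4; linarith)
  have hf2 : f2 ≠ 0 := by
    rintro rfl
    rw [D_zero] at h2pos
    exact lt_irrefl _ h2pos
  have h2k : (2 : k) ≠ 0 := two_ne_zero
  have hcr : cr f1 f2 ≠ 0 := H.cr12
  -- the term with `f2 ^ 2`
  have hsq : d ω f1 (C α * f2 ^ 2) = 3 / 2 * δ + d ω f1 f2 := by
    rw [d_C_mul_right ω hα]
    have h5 : cr f1 (f2 ^ 2) = (C (2 : k) * f2 : B k) • cr f1 f2 := by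
      rw [pow_two, cr_mul_right, ← add_smul]
      congr 1
      have h6 : (C (2 : k) : B k) = 2 := map_ofNat C 2
      rw [h6]
      ring
    unfold d
    rw [h5, N_smul ω (mul_ne_zero (by rw [Ne, C_eq_zero]; exact h2k) hf2) hcr, D_C_mul ω h2k]
    linarith
  have hlin : ∀ c : k, d ω f1 (C c * f2) ≤ d ω f1 f2 := by
    intro c
    unfold d
    rw [cr_C_mul_right]
    have h5 := N_smul_le ω (C c : B k) (cr f1 f2)
    rw [D_C, zero_add] at h5
    exact h5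
  have hrem : d ω f1 (f3 + C γ * f2 + C β * f1 + C κ) < 3 / 2 * δ + d ω f1 f2 := by
    rw [d_add_C_right, d_add_mul_right]
    refine lt_of_le_of_lt (d_add_right_le ω f1 f3 (C γ * f2)) (max_lt (by linarith) ?_)
    have := hlin γ
    linarith
  have hp1 : f3 + ev P f1 f2 = C α * f2 ^ 2 + (f3 + C γ * f2 + C β * f1 + C κ) := by
    rw [hev]
    ring
  have hd1p : d ω f1 (f3 + ev P f1 f2) = 3 / 2 * δ + d ω f1 f2 := by
    rw [hp1, d_add_right_left ω (by rw [hsq]; exact hrem), hsq]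
  have hrem2 : d ω f2 (C α * f2 ^ 2 + C β * f1 + C γ * f2 + C κ) ≤ d ω f1 f2 := by
    rw [d_add_C_right, d_add_mul_right]
    unfold d
    have h5 : cr f2 (C α * f2 ^ 2 + C β * f1) = (C β : B k) • -cr f1 f2 := by
      rw [cr_add_right, cr_C_mul_right, cr_C_mul_right, pow_two, cr_mul_right, cr_self, smul_zero, add_zero, smul_zero,
        zero_add, cr_swap f1 f2]
    rw [h5]
    have h6 := N_smul_le ω (C β : B k) (-cr f1 f2)
    rw [D_C, zero_add, N_neg] at h6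
    exact h6
  have hd2p : d ω f2 (f3 + ev P f1 f2) = δ + d ω f1 f2 := by
    rw [hev, d_add_right_left ω (by rw [h23]; linarith), h23]
  have hDp : δ < D ω (f3 + ev P f1 f2) := by
    have h5 := d_le ω f1 (f3 + ev P f1 f2)
    rw [hd1p] at h5
    linarith
  refine ⟨hδ, he, hd1p, hd2p, h23, hDp, ?_, ?_, α, β, γ, κ, hα, hev⟩
  · intro h5
    obtain ⟨c, hc, hc2⟩ := lead_cancel ω (f := f3 + ev P f1 f2) (g := f1) (by rw [h5, hd1]) h1pos
    have h6 := h.opt (P - C c * X 0)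
    have h7 : f3 + ev (P - C c * X 0) f1 f2 = f3 + ev P f1 f2 - C c * f1 := by
      rw [ev_sub, ev_mul, ev_C, ev_X0]
      ring
    rw [h7] at h6
    linarith
  · intro h5
    obtain ⟨c, hc, hc2⟩ := lead_cancel ω (f := f3 + ev P f1 f2) (g := f2) (by linarith) h2pos
    have h6 := h.opt (P - C c * X 1)
    have h7 : f3 + ev (P - C c * X 1) f1 f2 = f3 + ev P f1 f2 - C c * f2 := by
      rw [ev_sub, ev_mul, ev_C, ev_X1]
      ring
    rw [h7] at h6
    linarith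

theorem xo_two {ω : Wts} {v w : B k} (hvw : cr v w ≠ 0) {δ e c : ℝ} (hδ : 0 < δ) (he : 3 / 2 * δ < e)
    (hc : δ < c) (hc3 : c < 3 * δ) (hc2 : c ≠ 2 * δ) (hc1 : 2 * c ≠ 3 * δ) (hv : 2 * D ω v = 3 * δ)
    (hw : D ω w = c) (hd : d ω v w = δ + e) (R : MvPolynomial (Fin 2) k) : D ω (ev R v w) ≠ 2 * δ := by
  intro hD
  have hv' : D ω v = 3 / 2 * δ := by linarith
  rcases par' ω hvw R with h | ⟨m, p, q, i, j, hm, hp, hq, -, hpq, hin, -, -, -⟩
  · obtain ⟨i, j, hij⟩ := XoA_att (by linarith) hD h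
    rw [hv', hw] at hij
    rcases Nat.lt_or_ge j 2 with hj | hj
    · rcases Nat.lt_or_ge i 2 with hi | hi
      · interval_cases i <;> interval_cases j <;> norm_num at hij <;> first | linarith | exact hc2 (by linarith)
      · have hi' : (2 : ℝ) ≤ i := by exact_mod_cast hi
        have hj' : (0 : ℝ) ≤ j := Nat.cast_nonneg j
        nlinarith
    · have hi' : (0 : ℝ) ≤ i := Nat.cast_nonneg i
      have hj' : (2 : ℝ) ≤ j := by exact_mod_cast hj
      nlinarith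
  · rw [hpq, hD, hd, hv', hw] at hin
    rw [hv', hw] at hpq
    have hi0 : (0 : ℝ) ≤ i := Nat.cast_nonneg i
    have hj0 : (0 : ℝ) ≤ j := Nat.cast_nonneg j
    have h1 : 0 ≤ (i : ℝ) * (3 / 2 * δ) := mul_nonneg hi0 (by linarith)
    have h2 : 0 ≤ (j : ℝ) * c := mul_nonneg hj0 (by linarith)
    rcases Nat.lt_or_ge q 2 with hq2 | hq2
    · have hq1 : q = 1 := by omega
      subst hq1
      rcases Nat.lt_or_ge p 2 with hp2 | hp2
      · have hp1 : p = 1 := by omega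
        subst hp1
        norm_num at hpq
        exact hc1 (by linarith)
      · have hp' : (2 : ℝ) ≤ p := by exact_mod_cast hp2
        norm_num at hpq
        nlinarith
    · have hq' : (2 : ℝ) ≤ q := by exact_mod_cast hq2
      have h3 : 2 * c ≤ q * c := mul_le_mul_of_nonneg_right hq' (by linarith)
      exact XoA_m (X := q * c - 3 / 2 * δ - c + (δ + e)) hm (by linarith) (by linarith) (by
        have h4 : (m : ℝ) * (q * c - 3 / 2 * δ - c + (δ + e)) = m * (q * c) - m * (3 / 2 * δ + c - (δ + e)) := by ring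
        rw [h4]
        linarith : (m : ℝ) * (q * c - 3 / 2 * δ - c + (δ + e)) ≤ 2 * δ)

theorem xo_half {ω : Wts} {v w : B k} (hvw : cr v w ≠ 0) {δ e c : ℝ} (hδ : 0 < δ) (he : 3 / 2 * δ < e)
    (hc : δ < c) (hc3 : c < 3 * δ) (hc2 : c ≠ 2 * δ) (hc1 : 2 * c ≠ 3 * δ) (hv : D ω v = 2 * δ)
    (hw : D ω w = c) (hd : d ω v w = 3 / 2 * δ + e) (R : MvPolynomial (Fin 2) k) :
    2 * D ω (ev R v w) ≠ 3 * δ := by
  intro hD
  have hD' : D ω (ev R v w) = 3 / 2 * δ := by linarith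
  rcases par' ω hvw R with h | ⟨m, p, q, i, j, hm, hp, hq, -, hpq, hin, -, -, -⟩
  · obtain ⟨i, j, hij⟩ := XoA_att (by linarith) hD' h
    rw [hv, hw] at hij
    rcases Nat.lt_or_ge j 2 with hj | hj
    · rcases Nat.lt_or_ge i 1 with hi | hi
      · interval_cases i
        interval_cases j <;> norm_num at hij
        · linarith
        · exact hc1 (by linarith)
      · have hi' : (1 : ℝ) ≤ i := by exact_mod_cast hi
        have hj' : (0 : ℝ) ≤ j := Nat.cast_nonneg j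
        nlinarith
    · have hi' : (0 : ℝ) ≤ i := Nat.cast_nonneg i
      have hj' : (2 : ℝ) ≤ j := by exact_mod_cast hj
      nlinarith
  · rw [hpq, hD', hd, hv, hw] at hin
    rw [hv, hw] at hpq
    have hi0 : (0 : ℝ) ≤ i := Nat.cast_nonneg i
    have hj0 : (0 : ℝ) ≤ j := Nat.cast_nonneg j
    have h1 : 0 ≤ (i : ℝ) * (2 * δ) := mul_nonneg hi0 (by linarith)
    have h2 : 0 ≤ (j : ℝ) * c := mul_nonneg hj0 (by linarith)
    rcases Nat.lt_or_ge q 2 with hq2 | hq2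
    · have hq1 : q = 1 := by omega
      subst hq1
      rcases Nat.lt_or_ge p 2 with hp2 | hp2
      · have hp1 : p = 1 := by omega
        subst hp1
        norm_num at hpq
        exact hc2 (by linarith)
      · have hp' : (2 : ℝ) ≤ p := by exact_mod_cast hp2
        norm_num at hpq
        nlinarith
    · have hq' : (2 : ℝ) ≤ q := by exact_mod_cast hq2
      have h3 : 2 * c ≤ q * c := mul_le_mul_of_nonneg_right hq' (by linarith)
      exact XoA_m (X := q * c - 2 * δ - c + (3 / 2 * δ + e)) hm (by linarith) (by linarith) (by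
        have h4 : (m : ℝ) * (q * c - 2 * δ - c + (3 / 2 * δ + e)) = m * (q * c) - m * (2 * δ + c - (3 / 2 * δ + e)) := by ring
        rw [h4]
        linarith : (m : ℝ) * (q * c - 2 * δ - c + (3 / 2 * δ + e)) ≤ 3 / 2 * δ)

theorem xo_c {ω : Wts} {v w : B k} (hvw : cr v w ≠ 0) {δ e c : ℝ} (hδ : 0 < δ) (he : 3 / 2 * δ < e)
    (hc : δ < c) (hc2 : c < 2 * δ) (hc1 : 2 * c ≠ 3 * δ) (hv : 2 * D ω v = 3 * δ)
    (hw : D ω w = 2 * δ) (hd : δ + e ≤ d ω v w) (R : MvPolynomial (Fin 2) k) : D ω (ev R v w) ≠ c := by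
  intro hD
  have hv' : D ω v = 3 / 2 * δ := by linarith
  rcases par' ω hvw R with h | ⟨m, p, q, i, j, hm, hp, hq, -, hpq, hin, -, -, -⟩
  · obtain ⟨i, j, hij⟩ := XoA_att (by linarith) hD h
    rw [hv', hw] at hij
    rcases Nat.lt_or_ge j 1 with hj | hj
    · rcases Nat.lt_or_ge i 2 with hi | hi
      · interval_cases j
        interval_cases i <;> norm_num at hij
        · linarith
        · exact hc1 (by linarith)
      · have hi' : (2 : ℝ) ≤ i := by exact_mod_cast hi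
        have hj' : (0 : ℝ) ≤ j := Nat.cast_nonneg j
        nlinarith
    · have hi' : (0 : ℝ) ≤ i := Nat.cast_nonneg i
      have hj' : (1 : ℝ) ≤ j := by exact_mod_cast hj
      nlinarith
  · rw [hD, hv', hw] at hin
    rw [hv', hw] at hpq
    have hi0 : (0 : ℝ) ≤ i := Nat.cast_nonneg i
    have hj0 : (0 : ℝ) ≤ j := Nat.cast_nonneg j
    have hm0 : (0 : ℝ) ≤ m := Nat.cast_nonneg m
    have h1 : 0 ≤ (i : ℝ) * (3 / 2 * δ) := mul_nonneg hi0 (by linarith)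
    have h2 : 0 ≤ (j : ℝ) * (2 * δ) := mul_nonneg hj0 (by linarith)
    have h34 : (3 * p : ℝ) = 4 * q := by
      have h5 : (3 * (p : ℝ)) * (δ / 2) = (4 * q) * (δ / 2) := by linarith
      exact mul_right_cancel₀ (by positivity) h5
    have h34' : 3 * p = 4 * q := by exact_mod_cast h34
    have hp4 : 4 ≤ p := by omega
    have hp' : (4 : ℝ) ≤ p := by exact_mod_cast hp4
    have h3 : 4 * (3 / 2 * δ) ≤ p * (3 / 2 * δ) := mul_le_mul_of_nonneg_right hp' (by linarith)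
    exact XoA_m (X := p * (3 / 2 * δ) - 3 / 2 * δ - 2 * δ + d ω v w) hm (by linarith) (by linarith) (by
      have h4 : (m : ℝ) * (p * (3 / 2 * δ) - 3 / 2 * δ - 2 * δ + d ω v w) =
          m * (p * (3 / 2 * δ)) - m * (3 / 2 * δ + 2 * δ - d ω v w) := by ring
      rw [h4]
      linarith : (m : ℝ) * (p * (3 / 2 * δ) - 3 / 2 * δ - 2 * δ + d ω v w) ≤ c)

end SU
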