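import Pool.Agent.Lib.MP_374dcb_al.XoA

/-!
# JOB XoB: the vertex `x = (f1,f2,p)` has no strict neighbours

`c = D p`, `e = d f1 f2`, facts from `xo_facts`. `U` a strict neighbour of `x = sp f1 f2 p`. Three orders of the degrees, in each `types_strict` for the sorted basis (the third degrees are `3/2 δ`, `2δ`, `c`), and the six kinds of centers:
(i) `c > 2δ`, basis `(f2,f1,p)`.
 1. `D (p + ev R f2 f1) < D p`: against `opt` (`ev_swap`, `ev_add`).
 2. center `(f2, p + C l * f1)`: `D (ev R f2 (p + C l * f1)) = 2δ` (`D_of_add_lt`); `D (p + C l * f1) = c`, `cr f2 (p + C l f1) = cr f2 p + C l • cr f2 f1`: degree `δ + e`: `xo_two`.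
 3. center `(f1 + C m * f2, p + C l * f2)`: `D (ev R ..) = 3/2 δ`; `cr = cr f1 p + C l • cr f1 f2 + C m • cr f2 p`: degrees `3/2 δ + e > δ + e, e`: `xo_half`.
(ii) `3/2 δ < c < 2δ`, basis `(f2,p,f1)`.
 1. `D (f1 + ev R f2 p) < 2δ`: `D (ev R f2 p) = 2δ`: `xo_two` with `w = p`.
 2. center `(f2, f1 + C l * p)`: `D (p + ev R f2 (f1 + C l * p)) < c`. `l = 0`: against `opt`. `l ≠ 0`: `cr f2 (f1 + C l p) = cr f2 f1 + C l • cr f2 p`: degree `δ + e`; `D (f1 + C l p) = 2δ`: `xo_c`.
 3. center `(p + C m * f2, f1 + C l * f2)`, `D (ev R ..) = 3/2 δ`: `ev_swap`, `v = f1 + C l * f2`, `w = p + C m * f2` (`D w = c > 3/2 δ`): `cr v w` has degree `3/2 δ + e`: `xo_half`.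
(iii) `c < 3/2 δ`, basis `(p,f2,f1)`.
 1. `D (f1 + ev R p f2) < 2δ`: `ev_swap`, `xo_two` with `v = f2`, `w = p`.
 2. center `(p, f1 + C l * f2)`: `D (ev R ..) = 3/2 δ`: `ev_swap`, `v = f1 + C l * f2`, `w = p`: `cr v w = cr f1 p + C l • cr f2 p`: degree `3/2 δ + e`: `xo_half`.
 3. center `(f2 + C m * p, f1 + C l * p)`: `D (p + ev R ..) < c`. `m = l = 0`: against `opt`. Otherwise `cr = cr f2 f1 + C l • cr f2 p + C m • cr p f1`: degree `3/2 δ + e` if `m ≠ 0`, `δ + e` if `m = 0`: `xo_c`.
-/

set_option autoImplicit false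

open MvPolynomial

namespace SU

universe u
variable {k : Type u} [Field k] [CharZero k]

omit [CharZero k] in
private theorem xoB_N_C_le (ω : Wts) (c : k) (u : Fin 3 → B k) : N ω ((C c : B k) • u) ≤ N ω u := by
  have h := N_smul_le ω (C c : B k) u
  rw [D_C] at h
  linarith

omit [CharZero k] in
private theorem xoB_D_left (ω : Wts) {f g : B k} (a : k) (h : D ω g < D ω f) :
    D ω (f + C a * g) = D ω f :=
  D_add_left ω ((D_C_mul_le ω a g).trans_lt h)

omit [CharZero k] in
private theorem xoB_cr_ne (ω : Wts) {f g : B k} (h : 0 < d ω f g) : cr f g ≠ 0 := by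
  intro h0
  unfold d at h
  rw [h0, N_zero] at h
  exact lt_irrefl _ h

omit [CharZero k] in
/-- `d (f1 + a f2) (p + b f2)` -/
private theorem xoB_d1 (ω : Wts) {f1 f2 p : B k} {δ e : ℝ} (hδ : 0 < δ) (a b : k)
    (h12 : d ω f1 f2 = e) (h1p : d ω f1 p = 3 / 2 * δ + e) (h2p : d ω f2 p = δ + e) :
    d ω (f1 + C a * f2) (p + C b * f2) = 3 / 2 * δ + e := by
  have hcr : cr (f1 + C a * f2) (p + C b * f2) =
      cr f1 p + ((C b : B k) • cr f1 f2 + (C a : B k) • cr f2 p) := by
    rw [cr_add_left, cr_add_right, cr_add_right, cr_C_mul_right, cr_C_mul_left, cr_C_mul_left,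
      cr_C_mul_right, cr_self, smul_zero, smul_zero, add_zero, add_assoc]
  have hb : N ω ((C b : B k) • cr f1 f2 + (C a : B k) • cr f2 p) ≤ δ + e := by
    refine (N_add_le ω _ _).trans (max_le ?_ ?_)
    · refine (xoB_N_C_le ω b _).trans ?_
      change d ω f1 f2 ≤ δ + e
      linarith
    · refine (xoB_N_C_le ω a _).trans ?_
      change d ω f2 p ≤ δ + e
      linarith
  have h1p' : N ω (cr f1 p) = 3 / 2 * δ + e := h1p
  unfold d
  rw [hcr, N_add_left ω (by linarith), h1p']

omit [CharZero k] in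
/-- `d (f2 + m p) (f1 + l p)` -/
private theorem xoB_d2 (ω : Wts) {f1 f2 p : B k} {δ e : ℝ} (hδ : 0 < δ) (m l : k)
    (hml : m ≠ 0 ∨ l ≠ 0)
    (h12 : d ω f1 f2 = e) (h1p : d ω f1 p = 3 / 2 * δ + e) (h2p : d ω f2 p = δ + e) :
    δ + e ≤ d ω (f2 + C m * p) (f1 + C l * p) := by
  have h21 : N ω (cr f2 f1) = e := by
    have := d_symm ω f2 f1
    change d ω f2 f1 = e
    linarith
  have h2p' : N ω (cr f2 p) = δ + e := h2p
  have hp1 : N ω (cr p f1) = 3 / 2 * δ + e := by
    have := d_symm ω p f1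
    change d ω p f1 = _
    linarith
  by_cases hm : m = 0
  · have hl : l ≠ 0 := by
      rcases hml with h | h
      · exact absurd hm h
      · exact h
    have hcr : cr (f2 + C m * p) (f1 + C l * p) = (C l : B k) • cr f2 p + cr f2 f1 := by
      rw [hm, C_0, zero_mul, add_zero, cr_add_right, cr_C_mul_right, add_comm]
    have h3 : N ω ((C l : B k) • cr f2 p) = δ + e := by rw [N_C_smul ω hl, h2p']
    unfold d
    rw [hcr, N_add_left ω (by linarith), h3]
  · have hcr : cr (f2 + C m * p) (f1 + C l * p) =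
        (C m : B k) • cr p f1 + (cr f2 f1 + (C l : B k) • cr f2 p) := by
      rw [cr_add_left, cr_add_right, cr_add_right, cr_C_mul_right, cr_C_mul_left, cr_C_mul_left,
        cr_C_mul_right, cr_self, smul_zero, smul_zero, add_zero, add_comm]
    have h3 : N ω ((C m : B k) • cr p f1) = 3 / 2 * δ + e := by rw [N_C_smul ω hm, hp1]
    have h4 : N ω (cr f2 f1 + (C l : B k) • cr f2 p) ≤ δ + e := by
      refine (N_add_le ω _ _).trans (max_le (by linarith) ?_)
      refine (xoB_N_C_le ω l _).trans ?_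
      linarith
    unfold d
    rw [hcr, N_add_left ω (by linarith), h3]
    linarith

theorem xo_red {ω : Wts} {f1 f2 f3 : B k} {δ : ℝ} {P : MvPolynomial (Fin 2) k} (h : Xo ω f1 f2 f3 δ P)
    {U : Submodule k (B k)} (hU : Adj (sp f1 f2 (f3 + ev P f1 f2)) U) :
    S ω (sp f1 f2 (f3 + ev P f1 f2)) ≤ S ω U := by
  by_contra hcon
  have hS := not_le.mp hcon
  obtain ⟨hδ, he0, h1p, h2p, -, hc, hc2, hc1, -⟩ := xo_facts h
  have hju : JU f1 f2 (f3 + ev P f1 f2) := h.piv.ju.add_ev P
  have hopt := h.opt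
  have hc3 := h.lt
  have hD1 : D ω f1 = 2 * δ := h.piv.d1
  have hD2 : 2 * D ω f2 = 3 * δ := h.half
  have heps := eps_pos ω
  -- against the minimality
  have hmin : ∀ R : MvPolynomial (Fin 2) k,
      ¬ D ω (f3 + ev P f1 f2 + ev R f2 f1) < D ω (f3 + ev P f1 f2) := by
    intro R hR
    obtain ⟨R', hR', -⟩ := ev_swap R
    have h1 := hopt (P + R')
    rw [ev_add, hR' f2 f1, ← add_assoc] at h1
    linarith
  generalize hp : f3 + ev P f1 f2 = p at *
  generalize hee : d ω f1 f2 = e at *
  have he : 3 / 2 * δ < e := by linarith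
  clear hopt
  rcases lt_trichotomy (D ω p) (2 * δ) with hlt | heq | hgt
  · rcases lt_trichotomy (2 * D ω p) (3 * δ) with hlt' | heq' | hgt'
    · -- (iii)
      rw [← sp_rev] at hU hS
      rcases types_strict ω hju.rev (by linarith) (by linarith) hU hS with
        ⟨R, -, hR⟩ | ⟨l, R, -, hR⟩ | ⟨m, l, R, -, hR⟩
      · have h1 := D_of_add_lt ω hR
        obtain ⟨R', hR', -⟩ := ev_swap R
        rw [← hR' p f2] at h1
        exact xo_two (xoB_cr_ne ω (by rw [h2p]; linarith)) hδ he hc hc3 hc2 hc1 hD2 rfl h2p R'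
          (by linarith)
      · have h1 := D_of_add_lt ω hR
        obtain ⟨R', hR', -⟩ := ev_swap R
        rw [← hR' p (f1 + C l * f2)] at h1
        have hd := xoB_d1 ω hδ l 0 hee h1p h2p
        rw [C_0, zero_mul, add_zero] at hd
        have hv : D ω (f1 + C l * f2) = 2 * δ := by
          rw [xoB_D_left ω l (by linarith), hD1]
        exact xo_half (xoB_cr_ne ω (by rw [hd]; linarith)) hδ he hc hc3 hc2 hc1 hv rfl hd R'
          (by linarith)
      · have h1 := D_of_add_lt ω hR
        by_cases hml : m ≠ 0 ∨ l ≠ 0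
        · have hd := xoB_d2 ω hδ m l hml hee h1p h2p
          have hv : D ω (f2 + C m * p) = D ω f2 := xoB_D_left ω m (by linarith)
          have hw : D ω (f1 + C l * p) = D ω f1 := xoB_D_left ω l (by linarith)
          exact xo_c (xoB_cr_ne ω (by linarith)) hδ he hc hlt hc1 (by rw [hv]; exact hD2)
            (by rw [hw]; exact hD1) hd R h1
        · push Not at hml
          obtain ⟨rfl, rfl⟩ := hml
          rw [C_0, zero_mul, add_zero, add_zero] at hR
          exact hmin R hR
    · exact hc1 heq'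
    · -- (ii)
      rw [← sp_rot] at hU hS
      rcases types_strict ω hju.rot (by linarith) (by linarith) hU hS with
        ⟨R, -, hR⟩ | ⟨l, R, -, hR⟩ | ⟨m, l, R, -, hR⟩
      · have h1 := D_of_add_lt ω hR
        exact xo_two (xoB_cr_ne ω (by rw [h2p]; linarith)) hδ he hc hc3 hc2 hc1 hD2 rfl h2p R
          (by linarith)
      · by_cases hl : l = 0
        · subst hl
          rw [C_0, zero_mul, add_zero] at hR
          exact hmin R hR
        · have h1 := D_of_add_lt ω hR
          have hd := xoB_d2 ω hδ 0 l (Or.inr hl) hee h1p h2p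
          rw [C_0, zero_mul, add_zero] at hd
          have hw : D ω (f1 + C l * p) = D ω f1 := xoB_D_left ω l (by linarith)
          exact xo_c (xoB_cr_ne ω (by linarith)) hδ he hc hlt hc1 hD2
            (by rw [hw]; exact hD1) hd R h1
      · have h1 := D_of_add_lt ω hR
        obtain ⟨R', hR', -⟩ := ev_swap R
        rw [← hR' (p + C m * f2) (f1 + C l * f2)] at h1
        have hd := xoB_d1 ω hδ l m hee h1p h2p
        have hv : D ω (f1 + C l * f2) = 2 * δ := by
          rw [xoB_D_left ω l (by linarith), hD1]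
        have hw : D ω (p + C m * f2) = D ω p := xoB_D_left ω m (by linarith)
        exact xo_half (xoB_cr_ne ω (by rw [hd]; linarith)) hδ he hc hc3 hc2 hc1 hv hw hd R'
          (by linarith)
  · exact hc2 heq
  · -- (i)
    rw [← sp_swap12] at hU hS
    rcases types_strict ω hju.swap (by linarith) (by linarith) hU hS with
      ⟨R, -, hR⟩ | ⟨l, R, -, hR⟩ | ⟨m, l, R, -, hR⟩
    · exact hmin R hR
    · have h1 := D_of_add_lt ω hR
      have hw : D ω (p + C l * f1) = D ω p := xoB_D_left ω l (by linarith)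
      have hd : d ω f2 (p + C l * f1) = δ + e := by
        have hcr : cr f2 (p + C l * f1) = cr f2 p + (C l : B k) • cr f2 f1 := by
          rw [cr_add_right, cr_C_mul_right]
        have h21 : N ω (cr f2 f1) = e := by
          have := d_symm ω f2 f1
          change d ω f2 f1 = e
          linarith
        have h2p' : N ω (cr f2 p) = δ + e := h2p
        have h3 := xoB_N_C_le ω l (cr f2 f1)
        unfold d
        rw [hcr, N_add_left ω (by linarith), h2p']
      exact xo_two (xoB_cr_ne ω (by rw [hd]; linarith)) hδ he hc hc3 hc2 hc1 hD2 hw hd R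
        (by linarith)
    · have h1 := D_of_add_lt ω hR
      have hd := xoB_d1 ω hδ m l hee h1p h2p
      have hv : D ω (f1 + C m * f2) = 2 * δ := by
        rw [xoB_D_left ω m (by linarith), hD1]
      have hw : D ω (p + C l * f2) = D ω p := xoB_D_left ω l (by linarith)
      exact xo_half (xoB_cr_ne ω (by rw [hd]; linarith)) hδ he hc hc3 hc2 hc1 hv hw hd R
        (by linarith)

end SU
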